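import Pool.Agent.P.MP_1bf4cb_ag.Defs

-- part Pool.Agent.P.MP_1bf4cb_ag.G0
section

set_option autoImplicit false
set_option linter.unusedSectionVars false
set_option linter.unusedVariables false

open Function Matrix
open scoped TensorProduct

noncomputable section

namespace Pool.Agent.P.MP_1bf4cb_ag

/-- functions on modules that are additive on short exact sequences of finite modules -/
structure AddF (A : Type) [CommRing A] (Γ : Type 1) [AddCommGroup Γ] where
  val : (M : Type) → [AddCommGroup M] → [Module A M] → Γ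
  add : ∀ {M N P : Type} [AddCommGroup M] [Module A M] [AddCommGroup N] [Module A N]
    [AddCommGroup P] [Module A P] [Module.Finite A N] (f : M →ₗ[A] N) (g : N →ₗ[A] P),
    Injective f → Surjective g → Exact f g → val N = val M + val P

variable {A B : Type} [CommRing A] [CommRing B] {Γ : Type 1} [AddCommGroup Γ]

/-- `χ` vanishes on the finite modules killed by `b` -/
def Van (χ : AddF A Γ) (b : Ideal A) : Prop :=
  ∀ (M : Type) [AddCommGroup M] [Module A M] [Module.Finite A M],
    (∀ x ∈ b, ∀ y : M, x • y = 0) → χ.val M = 0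

/-- finitely many modules generate the classes of the modules killed by `b` -/
def CellI (A : Type) [CommRing A] (b : Ideal A) : Prop :=
  ∃ G : List (FG A), ∀ (Γ : Type 1) [AddCommGroup Γ] (χ : AddF A Γ),
    (∀ M ∈ G, χ.val M.M = 0) → Van χ b

/-- the Grothendieck group is finitely generated -/
abbrev Cell (A : Type) [CommRing A] : Prop := CellI A ⊥

/-- additive functions on `A` extend to `B` by specialisation along `ε` -/
def Spec (φ : A →+* B) (ε : B →+* A) : Prop :=
  ∀ (Γ : Type 1) [AddCommGroup Γ] (χ : AddF A Γ), ∃ ρ : AddF B Γ,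
    (∀ s, Van χ (Ideal.span {ε s}) → Van ρ (Ideal.span {s})) ∧
      ∀ I : Ideal A, ρ.val (B ⧸ I.map φ) = χ.val (A ⧸ I)

/-- the elements that lie in the image of `ψ` after multiplication by a power of `ψ f` -/
def den (ψ : A →+* B) (f : A) : Subring B where
  carrier := {y | ∃ N x, ψ f ^ N * y = ψ x}
  mul_mem' := by
    rintro y y' ⟨N, x, h⟩ ⟨N', x', h'⟩
    exact ⟨N + N', x * x', by rw [map_mul, ← h, ← h']; ring⟩
  one_mem' := ⟨0, 1, by simp⟩
  add_mem' := by
    rintro y y' ⟨N, x, h⟩ ⟨N', x', h'⟩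
    exact ⟨N + N', f ^ N' * x + f ^ N * x', by
      rw [map_add, map_mul, map_mul, map_pow, map_pow, ← h, ← h']; ring⟩
  zero_mem' := ⟨0, 0, by simp⟩
  neg_mem' := by
    rintro y ⟨N, x, h⟩
    exact ⟨N, -x, by rw [map_neg, ← h]; ring⟩

theorem mem_den {ψ : A →+* B} {f : A} {y : B} : y ∈ den ψ f ↔ ∃ N x, ψ f ^ N * y = ψ x := Iff.rfl

theorem map_mem_den (ψ : A →+* B) (f x : A) : ψ x ∈ den ψ f := ⟨0, x, by simp⟩

end Pool.Agent.P.MP_1bf4cb_ag
end
end

-- part Pool.Agent.P.MP_1bf4cb_ag.GA
section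

set_option autoImplicit false
set_option linter.unusedSectionVars false
set_option linter.unusedVariables false

open Function Matrix
open scoped TensorProduct

noncomputable section

namespace Pool.Agent.P.MP_1bf4cb_ag

variable {A B : Type} [CommRing A] [CommRing B] {Γ : Type 1} [AddCommGroup Γ]
  {M N : Type} [AddCommGroup M] [Module A M] [AddCommGroup N] [Module A N]

theorem AddF.zero (χ : AddF A Γ) (M : Type) [AddCommGroup M] [Module A M] [Subsingleton M] :
    χ.val M = 0 := by
  have h := χ.add (M := M) (N := M) (P := M) LinearMap.id LinearMap.id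
    (fun a b _ => Subsingleton.elim a b) (fun a => ⟨a, rfl⟩)
    (fun y => ⟨fun _ => ⟨y, rfl⟩, fun _ => Subsingleton.elim _ _⟩)
  simpa using h

theorem AddF.congr (χ : AddF A Γ) [Module.Finite A N] (e : M ≃ₗ[A] N) : χ.val M = χ.val N := by
  have h := χ.add (M := M) (N := N) (P := PUnit) e.toLinearMap 0 e.injective
    (fun a => ⟨0, Subsingleton.elim _ _⟩)
    (fun y => ⟨fun _ => e.surjective y, fun _ => Subsingleton.elim _ _⟩)
  rw [h, χ.zero PUnit, add_zero]

theorem AddF.sub_quot (χ : AddF A Γ) [Module.Finite A M] (S : Submodule A M) :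
    χ.val M = χ.val S + χ.val (M ⧸ S) := by
  exact χ.add S.subtype S.mkQ S.injective_subtype S.mkQ_surjective
    (LinearMap.exact_subtype_mkQ S)

theorem AddF.ker_range (χ : AddF A Γ) [Module.Finite A M] (f : M →ₗ[A] N) :
    χ.val M = χ.val (LinearMap.ker f) + χ.val (LinearMap.range f) := by
  refine χ.add (LinearMap.ker f).subtype f.rangeRestrict (LinearMap.ker f).injective_subtype
    f.surjective_rangeRestrict ?_
  rw [LinearMap.exact_iff, LinearMap.ker_rangeRestrict, Submodule.range_subtype]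

theorem Van.mono {χ : AddF A Γ} {b b' : Ideal A} (h : Van χ b) (hb : b ≤ b') : Van χ b' := by
  intro M _ _ _ hM
  exact h M fun x hx y => hM x (hb hx) y

theorem van_top (χ : AddF A Γ) : Van χ ⊤ := by
  intro M _ _ _ hM
  have : Subsingleton M := ⟨fun a b => by
    rw [← one_smul A a, ← one_smul A b, hM 1 Submodule.mem_top a, hM 1 Submodule.mem_top b]⟩
  exact χ.zero M

theorem val_of_primes [IsNoetherianRing A] {χ : AddF A Γ} {b : Ideal A}
    (h : ∀ P : Ideal A, P.IsPrime → b ≤ P → χ.val (A ⧸ P) = 0) [Module.Finite A M]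
    (hM : ∀ P : Ideal A, P.IsPrime → Module.annihilator A M ≤ P → b ≤ P) : χ.val M = 0 := by
  revert hM
  induction ‹Module.Finite A M› using
    IsNoetherianRing.induction_on_isQuotientEquivQuotientPrime A with
  | subsingleton N => exact fun _ => χ.zero N
  | quotient N p f =>
    intro hM
    rw [χ.congr f]
    refine h p.1 p.2 (hM p.1 p.2 ?_)
    rw [f.annihilator_eq, Ideal.annihilator_quotient]
  | exact N₁ N₂ N₃ f g hf hg hfg h₁ h₃ =>
    intro hM
    rw [χ.add f g hf hg hfg,
      h₁ fun P hP hle => hM P hP ((f.annihilator_le_of_injective hf).trans hle),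
      h₃ fun P hP hle => hM P hP ((g.annihilator_le_of_surjective hg).trans hle), add_zero]

theorem van_of_primes [IsNoetherianRing A] {χ : AddF A Γ} {b : Ideal A}
    (h : ∀ P : Ideal A, P.IsPrime → b ≤ P → χ.val (A ⧸ P) = 0) : Van χ b := by
  intro M _ _ _ hM
  refine val_of_primes h fun P _ hle => le_trans ?_ hle
  intro x hx
  exact Module.mem_annihilator.2 (hM x hx)

theorem pow_mem_annihilator_GA [Module.Finite A M] {x : A} (hx : ∀ y : M, ∃ N : ℕ, x ^ N • y = 0) :
    ∃ N : ℕ, x ^ N ∈ Module.annihilator A M := by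
  obtain ⟨s, hs⟩ := Module.Finite.fg_top (R := A) (M := M)
  choose n hn using hx
  refine ⟨s.sup n, Module.mem_annihilator.2 fun y => ?_⟩
  have hy : y ∈ Submodule.span A (s : Set M) := hs ▸ Submodule.mem_top
  induction hy using Submodule.span_induction with
  | mem z hz =>
    obtain ⟨k, hk⟩ := Nat.exists_eq_add_of_le (Finset.le_sup (f := n) hz)
    rw [hk, add_comm, pow_add, mul_smul, hn, smul_zero]
  | zero => exact smul_zero _
  | add a b _ _ ha hb => rw [smul_add, ha, hb, add_zero]
  | smul c a _ ha => rw [smul_comm, ha, smul_zero]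

/-- only the support matters -/
theorem Van.supp [IsNoetherianRing A] {χ : AddF A Γ} {b : Ideal A} (h : Van χ b)
    [Module.Finite A M] (hM : ∀ x ∈ b, ∀ y : M, ∃ N : ℕ, x ^ N • y = 0) : χ.val M = 0 := by
  refine val_of_primes (b := b) (fun P _ hb => h (A ⧸ P) fun x hx y => ?_) fun P hP hle x hx => ?_
  · have : x ∈ Module.annihilator A (A ⧸ P) := by
      rw [Ideal.annihilator_quotient]
      exact hb hx
    exact Module.mem_annihilator.1 this y
  · obtain ⟨N, hN⟩ := pow_mem_annihilator_GA (hM x hx)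
    exact hP.mem_of_pow_mem N (hle hN)

theorem cellI_top (A : Type) [CommRing A] : CellI A ⊤ := by
  exact ⟨[], fun Γ _ χ _ => van_top χ⟩

theorem cell_trivial (A : Type) [CommRing A] [Subsingleton A] : Cell A := by
  refine ⟨[], fun Γ _ χ _ M _ _ _ _ => ?_⟩
  have : Subsingleton M := Module.subsingleton A M
  exact χ.zero M

end Pool.Agent.P.MP_1bf4cb_ag
end
end

-- part Pool.Agent.P.MP_1bf4cb_ag.YA
section

set_option autoImplicit false
set_option linter.unusedSectionVars false
set_option linter.unusedVariables false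

open Function Matrix
open scoped TensorProduct

noncomputable section

namespace Pool.Agent.P.MP_1bf4cb_ag

theorem flat_of_basis_YA {A B ι : Type} [CommRing A] [CommRing B] [Fintype ι] (φ : A →+* B)
    (b : ι → B) (h : Function.Bijective fun f : ι → A => ∑ i, φ (f i) * b i) : φ.Flat := by
  let _ : Algebra A B := φ.toAlgebra
  let L : (ι → A) →ₗ[A] B :=
    { toFun := fun f => ∑ i, φ (f i) * b i
      map_add' := fun f g => by
        simp only [Pi.add_apply, map_add, add_mul, Finset.sum_add_distrib]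
      map_smul' := fun c f => by
        simp only [Pi.smul_apply, smul_eq_mul, map_mul, RingHom.id_apply, Algebra.smul_def,
          Finset.mul_sum, mul_assoc]
        rfl }
  exact Module.Flat.of_linearEquiv (LinearEquiv.ofBijective L h).symm

theorem aeval_mon_YA (k σ : Type) [Field k] [Fintype σ] (r : σ → ℕ) (e : σ →₀ ℕ) (a : k) :
    MvPolynomial.aeval (R := k) (fun v => (MvPolynomial.X v : MvPolynomial σ k) ^ r v)
        (MvPolynomial.monomial e a) =
      MvPolynomial.monomial (Finsupp.equivFunOnFinite.symm fun v => r v * e v) a := by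
  rw [MvPolynomial.aeval_monomial, MvPolynomial.monomial_eq,
    Finsupp.prod_fintype _ _ (by simp), Finsupp.prod_fintype _ _ (by simp)]
  simp only [MvPolynomial.algebraMap_eq, Finsupp.equivFunOnFinite_symm_apply_apply, pow_mul]

theorem coeff_YA (k σ : Type) [Field k] [Fintype σ] [DecidableEq σ] (r : σ → ℕ)
    (i j : ∀ v, Fin (r v)) (e : σ →₀ ℕ) (p : MvPolynomial σ k) :
    MvPolynomial.coeff (Finsupp.equivFunOnFinite.symm fun v => r v * e v + i v)
      (MvPolynomial.aeval (R := k) (fun v => (MvPolynomial.X v : MvPolynomial σ k) ^ r v) p *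
        MvPolynomial.monomial (Finsupp.equivFunOnFinite.symm fun v => (j v : ℕ)) 1) =
      if j = i then MvPolynomial.coeff e p else 0 := by
  induction p using MvPolynomial.induction_on' with
  | add p q hp hq =>
    rw [map_add, add_mul, MvPolynomial.coeff_add, hp, hq, MvPolynomial.coeff_add]
    split_ifs <;> simp
  | monomial e' a =>
    rw [aeval_mon_YA, MvPolynomial.monomial_mul, mul_one, MvPolynomial.coeff_monomial,
      MvPolynomial.coeff_monomial]
    have key : ((Finsupp.equivFunOnFinite.symm fun v => r v * e' v) +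
        (Finsupp.equivFunOnFinite.symm fun v => (j v : ℕ)) =
        Finsupp.equivFunOnFinite.symm fun v => r v * e v + i v) ↔ (j = i ∧ e' = e) := by
      constructor
      · intro h
        have h' : ∀ v, r v * e' v + j v = r v * e v + i v := fun v => by
          have := DFunLike.congr_fun h v
          simpa using this
        have hj : ∀ v, (j v : ℕ) = i v := fun v => by
          have h1 := congrArg (· % r v) (h' v)
          simpa [Nat.mul_add_mod, Nat.mod_eq_of_lt (j v).2, Nat.mod_eq_of_lt (i v).2] using h1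
        refine ⟨funext fun v => Fin.ext (hj v), Finsupp.ext fun v => ?_⟩
        have h1 := h' v
        rw [hj v] at h1
        exact Nat.eq_of_mul_eq_mul_left (lt_of_le_of_lt (Nat.zero_le _) (i v).2)
          (Nat.add_right_cancel h1)
      · rintro ⟨rfl, rfl⟩
        ext v
        simp
    by_cases h1 : j = i
    · by_cases h2 : e' = e
      · rw [if_pos (key.2 ⟨h1, h2⟩), if_pos h1, if_pos h2]
      · rw [if_neg (fun h => h2 (key.1 h).2), if_pos h1, if_neg h2]
    · rw [if_neg (fun h => h1 (key.1 h).1), if_neg h1]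

/-- raising variables to positive powers is flat -/
theorem flat_pexp (k σ : Type) [Field k] [Finite σ] (r : σ → ℕ) (hr : ∀ v, 0 < r v) :
    (MvPolynomial.aeval (R := k) fun v => (MvPolynomial.X v : MvPolynomial σ k) ^ r v).toRingHom.Flat := by
  classical
  let _ : Fintype σ := Fintype.ofFinite σ
  refine flat_of_basis_YA (ι := ∀ v, Fin (r v)) _
    (fun j => MvPolynomial.monomial (Finsupp.equivFunOnFinite.symm fun v => (j v : ℕ)) 1) ⟨?_, ?_⟩
  · intro f g hfg
    funext i
    ext e
    have h := congrArg (MvPolynomial.coeff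
      (Finsupp.equivFunOnFinite.symm fun v => r v * e v + i v)) hfg
    simp only [AlgHom.toRingHom_eq_coe, RingHom.coe_coe, MvPolynomial.coeff_sum, coeff_YA,
      Finset.sum_ite_eq', Finset.mem_univ, if_true] at h
    exact h
  · intro p
    induction p using MvPolynomial.induction_on' with
    | add p q hp hq =>
      obtain ⟨f, hf⟩ := hp
      obtain ⟨g, hg⟩ := hq
      refine ⟨f + g, ?_⟩
      simp only [Pi.add_apply, map_add, add_mul, Finset.sum_add_distrib] at hf hg ⊢
      rw [hf, hg]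
    | monomial d a =>
      refine ⟨Pi.single (fun v => ⟨d v % r v, Nat.mod_lt _ (hr v)⟩)
        (MvPolynomial.monomial (Finsupp.equivFunOnFinite.symm fun v => d v / r v) a), ?_⟩
      dsimp only
      rw [Finset.sum_eq_single (fun v => (⟨d v % r v, Nat.mod_lt _ (hr v)⟩ : Fin (r v)))]
      · rw [Pi.single_eq_same, AlgHom.toRingHom_eq_coe, RingHom.coe_coe, aeval_mon_YA,
          MvPolynomial.monomial_mul, mul_one]
        congr 2
        ext v
        simp [Nat.div_add_mod]
      · intro j _ hj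
        rw [Pi.single_eq_of_ne hj, map_zero, zero_mul]
      · intro h
        exact absurd (Finset.mem_univ _) h

theorem flat_quot_YA {S T : Type} [CommRing S] [CommRing T] (φ : S →+* T) (hφ : φ.Flat)
    (J : Ideal S) : (Ideal.quotientMap (J.map φ) φ Ideal.le_comap_map).Flat := by
  let _ : Algebra S T := φ.toAlgebra
  have _ : Module.Flat S T := hφ
  have h : Module.Flat (S ⧸ J) (T ⧸ J.map (algebraMap S T)) :=
    Module.Flat.of_linearEquiv
      (Algebra.TensorProduct.quotIdealMapEquivQuotTensor T J).toLinearEquiv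
  exact RingHom.flat_algebraMap_iff.2 h

theorem flat_quot {S : Type} [CommRing S] (φ : S →+* S) (hφ : φ.Flat) (J : Ideal S) :
    (Ideal.quotientMap (J.map φ) φ Ideal.le_comap_map).Flat :=
  flat_quot_YA φ hφ J

theorem flat_of_retract_YA {R T B : Type} [CommRing R] [CommRing T] [CommRing B] (j : R →+* B)
    (g : T →+* B) (π : B →+* T) (φ : R →+* T) (hj : j.Flat) (h1 : π.comp g = RingHom.id T)
    (h2 : π.comp j = φ) (h3 : g.comp φ = j) : φ.Flat := by
  let _ : Algebra R B := j.toAlgebra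
  let _ : Algebra R T := φ.toAlgebra
  have _ : Module.Flat R B := hj
  let g' : T →ₐ[R] B := { g with commutes' := fun x => DFunLike.congr_fun h3 x }
  let π' : B →ₐ[R] T := { π with commutes' := fun x => DFunLike.congr_fun h2 x }
  exact Module.Flat.of_retract g'.toLinearMap π'.toLinearMap
    (LinearMap.ext fun x => DFunLike.congr_fun h1 x)

theorem flat_of_retract {R B : Type} [CommRing R] [CommRing B] (j g : R →+* B) (π : B →+* R)
    (φ : R →+* R) (hj : j.Flat) (h1 : π.comp g = RingHom.id R) (h2 : π.comp j = φ)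
    (h3 : g.comp φ = j) : φ.Flat :=
  flat_of_retract_YA j g π φ hj h1 h2 h3

end Pool.Agent.P.MP_1bf4cb_ag
end
end

-- part Pool.Agent.P.MP_1bf4cb_ag.GC
section

set_option autoImplicit false
set_option linter.unusedSectionVars false
set_option linter.unusedVariables false

open Function Matrix
open scoped TensorProduct

noncomputable section

namespace Pool.Agent.P.MP_1bf4cb_ag

variable {A P : Type} [CommRing A] [CommRing P] {Γ : Type 1} [AddCommGroup Γ]

/-- finite modules have lattices -/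
theorem exists_lat (ψ : A →+* P) (F : Finset A) (hi : ∀ f ∈ F, ∀ y, y ∈ den ψ f)
    (N : Type) [AddCommGroup N] [Module P N] [Module.Finite P N] :
    ∃ (M : FG A) (h : M.M →ₛₗ[ψ] N), Injective h ∧
      ∀ f ∈ F, ∀ y : N, ∃ (r : ℕ) (x : M.M), ψ f ^ r • y = h x := by
  obtain ⟨n, π, hπ⟩ := Module.Finite.exists_fin' P N
  let g : (Fin n → A) →ₛₗ[ψ] N :=
    { toFun := fun x => π (fun i => ψ (x i))
      map_add' := fun x y => by
        rw [← map_add]; congr 1; funext i; simp
      map_smul' := fun a x => by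
        rw [← map_smul]; congr 1; funext i; simp }
  refine ⟨⟨(Fin n → A) ⧸ LinearMap.ker g⟩, (LinearMap.ker g).liftQ g le_rfl, ?_, ?_⟩
  · rw [← LinearMap.ker_eq_bot]
    exact Submodule.ker_liftQ_eq_bot _ _ _ le_rfl
  · intro f hf y
    obtain ⟨p, rfl⟩ := hπ y
    choose r x hx using fun i => mem_den.1 (hi f hf (p i))
    refine ⟨∑ i, r i, Submodule.Quotient.mk (fun i => f ^ (∑ j, r j - r i) * x i), ?_⟩
    rw [Submodule.liftQ_apply, ← map_smul]
    change _ = π _
    congr 1
    funext i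
    have hle : r i ≤ ∑ j, r j := Finset.single_le_sum (fun j _ => Nat.zero_le (r j)) (Finset.mem_univ i)
    rw [Pi.smul_apply, smul_eq_mul, map_mul, map_pow, ← hx i, ← mul_assoc, ← pow_add,
      Nat.sub_add_cancel hle]

/-- a sublattice has the same value -/
theorem sub_val_GC [IsNoetherianRing A] (ψ : A →+* P) (F : Finset A)
    (χ : AddF A Γ) (hv : Van χ (RingHom.ker ψ ⊔ Ideal.span (F : Set A)))
    (M : Type) [AddCommGroup M] [Module A M] [Module.Finite A M] (S : Submodule A M)
    (hk : ∀ a ∈ RingHom.ker ψ, ∀ x : M, a • x = 0)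
    (hF : ∀ f ∈ F, ∀ x : M, ∃ r : ℕ, f ^ r • x ∈ S) : χ.val M = χ.val S := by
  have h0 : χ.val (M ⧸ S) = 0 := by
    refine hv.supp ?_
    intro a ha y
    have hle : RingHom.ker ψ ⊔ Ideal.span (F : Set A) ≤ (Ideal.torsionOf A (M ⧸ S) y).radical := by
      obtain ⟨x, rfl⟩ := Submodule.Quotient.mk_surjective S y
      refine sup_le ?_ ?_
      · intro b hb
        refine Ideal.le_radical ?_
        rw [Ideal.mem_torsionOf_iff, ← Submodule.Quotient.mk_smul, hk b hb x,
          Submodule.Quotient.mk_zero]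
      · rw [Ideal.span_le]
        intro f hf
        obtain ⟨r, hr⟩ := hF f hf x
        refine ⟨r, ?_⟩
        rw [Ideal.mem_torsionOf_iff, ← Submodule.Quotient.mk_smul,
          Submodule.Quotient.mk_eq_zero]
        exact hr
    obtain ⟨r, hr⟩ := hle ha
    exact ⟨r, (Ideal.mem_torsionOf_iff _ _).1 hr⟩
  rw [χ.sub_quot S, h0, add_zero]

/-- two lattices have the same value -/
theorem lat_eq_GC [IsNoetherianRing A] (ψ : A →+* P) (F : Finset A)
    (χ : AddF A Γ) (hv : Van χ (RingHom.ker ψ ⊔ Ideal.span (F : Set A)))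
    (N : Type) [AddCommGroup N] [Module P N]
    (M : Type) [AddCommGroup M] [Module A M] [Module.Finite A M] (h : M →ₛₗ[ψ] N)
    (hh : Injective h) (hM : ∀ f ∈ F, ∀ y : N, ∃ (r : ℕ) (x : M), ψ f ^ r • y = h x)
    (M' : Type) [AddCommGroup M'] [Module A M'] [Module.Finite A M'] (h' : M' →ₛₗ[ψ] N)
    (hh' : Injective h') (hM' : ∀ f ∈ F, ∀ y : N, ∃ (r : ℕ) (x : M'), ψ f ^ r • y = h' x) :
    χ.val M = χ.val M' := by
  let K : Submodule A (M × M') :=
    LinearMap.ker (h.comp (LinearMap.fst A M M') - h'.comp (LinearMap.snd A M M'))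
  have hK : ∀ z : M × M', z ∈ K ↔ h z.1 = h' z.2 := by
    intro z
    simp only [K, LinearMap.mem_ker, LinearMap.sub_apply, LinearMap.comp_apply,
      LinearMap.fst_apply, LinearMap.snd_apply, sub_eq_zero]
  let p : K →ₗ[A] M := (LinearMap.fst A M M').comp K.subtype
  let p' : K →ₗ[A] M' := (LinearMap.snd A M M').comp K.subtype
  have hp : Injective p := by
    rintro ⟨⟨x, x'⟩, hx⟩ ⟨⟨y, y'⟩, hy⟩ hxy
    have e1 : x = y := hxy
    have e2 : x' = y' := by
      apply hh'
      have a1 := (hK _).1 hx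
      have a2 := (hK _).1 hy
      simp only at a1 a2
      rw [← a1, ← a2, e1]
    subst e1 e2
    rfl
  have hp' : Injective p' := by
    rintro ⟨⟨x, x'⟩, hx⟩ ⟨⟨y, y'⟩, hy⟩ hxy
    have e1 : x' = y' := hxy
    have e2 : x = y := by
      apply hh
      have a1 := (hK _).1 hx
      have a2 := (hK _).1 hy
      simp only at a1 a2
      rw [a1, a2, e1]
    subst e1 e2
    rfl
  have e1 : χ.val M = χ.val (LinearMap.range p) := by
    refine sub_val_GC ψ F χ hv M _ ?_ ?_
    · intro a ha x
      apply hh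
      rw [LinearMap.map_smulₛₗ, (RingHom.mem_ker).1 ha, zero_smul, map_zero]
    · intro f hf x
      obtain ⟨r, x', hx'⟩ := hM' f hf (h x)
      refine ⟨r, ⟨(f ^ r • x, x'), (hK _).2 ?_⟩, rfl⟩
      simp only
      rw [LinearMap.map_smulₛₗ, map_pow, hx']
  have e2 : χ.val M' = χ.val (LinearMap.range p') := by
    refine sub_val_GC ψ F χ hv M' _ ?_ ?_
    · intro a ha x
      apply hh'
      rw [LinearMap.map_smulₛₗ, (RingHom.mem_ker).1 ha, zero_smul, map_zero]
    · intro f hf x'
      obtain ⟨r, x, hx⟩ := hM f hf (h' x')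
      refine ⟨r, ⟨(x, f ^ r • x'), (hK _).2 ?_⟩, rfl⟩
      simp only
      rw [LinearMap.map_smulₛₗ, map_pow, hx]
  have e3 : χ.val K = χ.val (LinearMap.range p) := χ.congr (LinearEquiv.ofInjective p hp)
  have e4 : χ.val K = χ.val (LinearMap.range p') := χ.congr (LinearEquiv.ofInjective p' hp')
  rw [e1, e2, ← e3, ← e4]

/-- `N` has a lattice -/
def HasLat_GC (ψ : A →+* P) (F : Finset A) (N : Type) [AddCommGroup N] [Module P N] : Prop :=
  ∃ (M : FG A) (h : M.M →ₛₗ[ψ] N), Injective h ∧
    ∀ f ∈ F, ∀ y : N, ∃ (r : ℕ) (x : M.M), ψ f ^ r • y = h x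

open Classical in
/-- the value of a chosen lattice -/
def latVal_GC (ψ : A →+* P) (F : Finset A) (χ : AddF A Γ) (N : Type) [AddCommGroup N]
    [Module P N] : Γ :=
  if hN : HasLat_GC ψ F N then χ.val (Classical.choose hN).M else 0

theorem latVal_eq_GC [IsNoetherianRing A] (ψ : A →+* P) (F : Finset A)
    (χ : AddF A Γ) (hv : Van χ (RingHom.ker ψ ⊔ Ideal.span (F : Set A)))
    (N : Type) [AddCommGroup N] [Module P N]
    (M : Type) [AddCommGroup M] [Module A M] [Module.Finite A M] (h : M →ₛₗ[ψ] N)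
    (hh : Injective h) (hM : ∀ f ∈ F, ∀ y : N, ∃ (r : ℕ) (x : M), ψ f ^ r • y = h x) :
    latVal_GC ψ F χ N = χ.val M := by
  have hN : HasLat_GC ψ F N := ⟨⟨M⟩, h, hh, hM⟩
  unfold latVal_GC
  rw [dif_pos hN]
  obtain ⟨h', hh', hM'⟩ := Classical.choose_spec hN
  exact lat_eq_GC ψ F χ hv N _ h' hh' hM' M h hh hM

/-- an additive function descends to the open part -/
theorem lat [IsNoetherianRing A] (ψ : A →+* P) (F : Finset A) (hi : ∀ f ∈ F, ∀ y, y ∈ den ψ f)
    (χ : AddF A Γ) (hv : Van χ (RingHom.ker ψ ⊔ Ideal.span (F : Set A))) :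
    ∃ χ' : AddF P Γ, ∀ (N : Type) [AddCommGroup N] [Module P N] (M : Type) [AddCommGroup M]
      [Module A M] [Module.Finite A M] (h : M →ₛₗ[ψ] N), Injective h →
      (∀ f ∈ F, ∀ y : N, ∃ (r : ℕ) (x : M), ψ f ^ r • y = h x) → χ'.val N = χ.val M := by
  refine ⟨⟨fun N _ _ => latVal_GC ψ F χ N, ?_⟩, ?_⟩
  · intro M N Q _ _ _ _ _ _ _ u g hu hg hug
    obtain ⟨L, h, hh, hL⟩ := exists_lat ψ F hi N
    let gh : L.M →ₛₗ[ψ] Q := g.comp h
    let L' : Submodule A L.M := LinearMap.ker gh
    have hex : ∀ x : L', ∃ m : M, u m = h x := by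
      intro x
      have hx : g (h x) = 0 := x.2
      exact (hug _).1 hx
    choose s hs using hex
    let h' : L' →ₛₗ[ψ] M :=
      { toFun := s
        map_add' := fun x y => by
          apply hu
          rw [map_add, hs, hs, hs, Submodule.coe_add, map_add]
        map_smul' := fun a x => by
          apply hu
          rw [map_smul, hs, hs, Submodule.coe_smul, LinearMap.map_smulₛₗ] }
    have hh' : Injective h' := by
      intro x y hxy
      have e : s x = s y := hxy
      apply Subtype.ext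
      apply hh
      rw [← hs, ← hs, e]
    have hL' : ∀ f ∈ F, ∀ y : M, ∃ (r : ℕ) (x : L'), ψ f ^ r • y = h' x := by
      intro f hf y
      obtain ⟨r, x, hx⟩ := hL f hf (u y)
      have hx' : x ∈ L' := by
        change g (h x) = 0
        rw [← hx, map_smul, (hug _).2 ⟨y, rfl⟩, smul_zero]
      refine ⟨r, ⟨x, hx'⟩, hu ?_⟩
      change _ = u (s ⟨x, hx'⟩)
      rw [hs, map_smul, hx]
    let h'' : (L.M ⧸ L') →ₛₗ[ψ] Q := L'.liftQ gh le_rfl
    have hh'' : Injective h'' := by
      rw [← LinearMap.ker_eq_bot]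
      exact Submodule.ker_liftQ_eq_bot _ _ _ le_rfl
    have hL'' : ∀ f ∈ F, ∀ y : Q, ∃ (r : ℕ) (x : L.M ⧸ L'), ψ f ^ r • y = h'' x := by
      intro f hf y
      obtain ⟨n, rfl⟩ := hg y
      obtain ⟨r, x, hx⟩ := hL f hf n
      refine ⟨r, Submodule.Quotient.mk x, ?_⟩
      change _ = g (h x)
      rw [← hx, map_smul]
    change latVal_GC ψ F χ N = latVal_GC ψ F χ M + latVal_GC ψ F χ Q
    rw [latVal_eq_GC ψ F χ hv N L.M h hh hL, latVal_eq_GC ψ F χ hv M L' h' hh' hL',
      latVal_eq_GC ψ F χ hv Q _ h'' hh'' hL'']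
    exact χ.sub_quot L'
  · intro N _ _ M _ _ _ h hh hM
    exact latVal_eq_GC ψ F χ hv N M h hh hM

end Pool.Agent.P.MP_1bf4cb_ag
end
end

-- part Pool.Agent.P.MP_1bf4cb_ag.GF
section

set_option autoImplicit false
set_option linter.unusedSectionVars false
set_option linter.unusedVariables false

open Function Matrix
open scoped TensorProduct

noncomputable section

namespace Pool.Agent.P.MP_1bf4cb_ag

variable {A B : Type} [CommRing A] [CommRing B] {Γ : Type 1} [AddCommGroup Γ]
  {M N : Type} [AddCommGroup M] [Module A M] [AddCommGroup N] [Module A N]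

/-- flat base change -/
theorem exists_base [Algebra A B] [Module.Flat A B] (χ : AddF B Γ) : ∃ χ' : AddF A Γ,
    (∀ (M : Type) [AddCommGroup M] [Module A M], χ'.val M = χ.val (B ⊗[A] M)) ∧
      ∀ I : Ideal A, χ'.val (A ⧸ I) = χ.val (B ⧸ I.map (algebraMap A B)) := by
  refine ⟨⟨fun M _ _ => χ.val (B ⊗[A] M), fun f g hf hg h => ?_⟩, fun M _ _ => rfl, fun I => ?_⟩
  · refine χ.add (f.baseChange B) (g.baseChange B) ?_ ?_ ?_
    · rw [LinearMap.baseChange_eq_ltensor]
      exact Module.Flat.lTensor_preserves_injective_linearMap f hf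
    · rw [LinearMap.baseChange_eq_ltensor]
      exact LinearMap.lTensor_surjective B hg
    · rw [LinearMap.baseChange_eq_ltensor, LinearMap.baseChange_eq_ltensor]
      exact lTensor_exact B h hg
  · exact χ.congr (Algebra.TensorProduct.quotIdealMapEquivTensorQuot B I).toLinearEquiv.symm

/-- composition with a homomorphism of groups -/
theorem exists_comp {Γ' : Type 1} [AddCommGroup Γ'] (χ : AddF A Γ) (π : Γ →+ Γ') :
    ∃ χ' : AddF A Γ', ∀ (M : Type) [AddCommGroup M] [Module A M], χ'.val M = π (χ.val M) := by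
  exact ⟨⟨fun M _ _ => π (χ.val M), fun f g hf hg h => by rw [χ.add f g hf hg h, map_add]⟩,
    fun M _ _ => rfl⟩

/-- the universal additive function -/
theorem exists_cls (A : Type) [CommRing A] [IsNoetherianRing A] :
    ∃ χ : AddF A (G0 A), ∀ I : Ideal A, χ.val (A ⧸ I) = cyc I := by
  classical
  refine ⟨⟨fun M _ _ => if h : Module.Finite A M then
    QuotientAddGroup.mk (FreeAbelianGroup.of (@FG.mk A _ M _ _ h)) else 0, ?_⟩, fun I => ?_⟩
  · intro M N P _ _ _ _ _ _ hN f g hf hg h
    have hM : Module.Finite A M := Module.Finite.of_injective f hf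
    have hP : Module.Finite A P := Module.Finite.of_surjective g hg
    rw [dif_pos hM, dif_pos hN, dif_pos hP, ← QuotientAddGroup.mk_add, eq_comm,
      QuotientAddGroup.eq]
    refine AddSubgroup.subset_closure ⟨⟨M⟩, ⟨N⟩, ⟨P⟩, f, g, hf, hg, h, ?_⟩
    abel
  · exact dif_pos (inferInstance : Module.Finite A (A ⧸ I))

theorem fin_GF (ψ : B →+* A) (hψ : Surjective ψ) (M : Type) [AddCommGroup M] [Module A M]
    [Module.Finite A M] : @Module.Finite B M _ _ (Module.compHom M ψ) := by
  let : Module B M := Module.compHom M ψ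
  let : Algebra B A := ψ.toAlgebra
  have : IsScalarTower B A M := ⟨fun b a y => mul_smul (ψ b) a y⟩
  have : Module.Finite B A := Module.Finite.of_surjective (Algebra.linearMap B A) hψ
  exact Module.Finite.trans A M

/-- restriction of scalars -/
def res_GF (ψ : B →+* A) (hψ : Surjective ψ) (χ : AddF B Γ) : AddF A Γ where
  val M _ _ := @AddF.val B _ Γ _ χ M _ (Module.compHom M ψ)
  add {M N P} _ _ _ _ _ _ _ f g hf hg h := by
    let : Module B M := Module.compHom M ψ
    let : Module B N := Module.compHom N ψ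
    let : Module B P := Module.compHom P ψ
    have := fin_GF ψ hψ N
    exact χ.add (M := M) (N := N) (P := P) ⟨f.toAddHom, fun b y => f.map_smul (ψ b) y⟩
      ⟨g.toAddHom, fun b y => g.map_smul (ψ b) y⟩ hf hg h

theorem cell_equiv (e : A ≃+* B) (h : Cell A) : Cell B := by
  obtain ⟨G, hG⟩ := h
  refine ⟨G.map fun M => @FG.mk B _ M.M _ (Module.compHom M.M (e.symm : B →+* A))
    (fin_GF _ e.symm.surjective M.M), fun Γ _ χ h0 N _ iN _ _ => ?_⟩
  have h1 := hG Γ (res_GF (e.symm : B →+* A) e.symm.surjective χ)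
    fun M hM => h0 _ (List.mem_map_of_mem hM)
  let : Module A N := Module.compHom N (e : A →+* B)
  have := fin_GF (e : A →+* B) e.surjective N
  have h2 : @AddF.val B _ Γ _ χ N _ (Module.compHom N (e.symm : B →+* A)) = 0 :=
    h1 N fun x hx y => by rw [Ideal.mem_bot.1 hx, zero_smul]
  have h3 : Module.compHom N (e.symm : B →+* A) = iN := by
    refine Module.ext' _ _ fun b y => ?_
    show e (e.symm b) • y = b • y
    rw [e.apply_symm_apply]
  rwa [h3] at h2

theorem spec_equiv (e : A ≃+* B) : Spec (e : A →+* B) (e.symm : B →+* A) := by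
  intro Γ _ χ
  refine ⟨res_GF (e : A →+* B) e.surjective χ, fun s hs M _ _ _ hM => ?_, fun I => ?_⟩
  · let : Module A M := Module.compHom M (e : A →+* B)
    have := fin_GF (e : A →+* B) e.surjective M
    refine hs M fun x hx y => hM (e x) ?_ y
    obtain ⟨a, rfl⟩ := Ideal.mem_span_singleton'.1 hx
    refine Ideal.mem_span_singleton'.2 ⟨e a, ?_⟩
    simp
  · let : Module A (B ⧸ I.map (e : A →+* B)) := Module.compHom _ (e : A →+* B)
    let q : (A ⧸ I) ≃+* B ⧸ I.map (e : A →+* B) := Ideal.quotientEquiv I _ e rfl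
    refine χ.congr (LinearEquiv.symm { q.toAddEquiv with map_smul' := fun a y => ?_ })
    obtain ⟨u, rfl⟩ := Ideal.Quotient.mk_surjective y
    show q (Ideal.Quotient.mk I (a * u)) = e a • q (Ideal.Quotient.mk I u)
    rw [map_mul, map_mul]
    rfl

theorem spec_trans {C : Type} [CommRing C] {φ : A →+* B} {ε : B →+* A} {φ' : B →+* C}
    {ε' : C →+* B} (h : Spec φ ε) (h' : Spec φ' ε') : Spec (φ'.comp φ) (ε.comp ε') := by
  intro Γ _ χ
  obtain ⟨ρ, h1, h2⟩ := h Γ χ
  obtain ⟨ρ', h3, h4⟩ := h' Γ ρ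
  refine ⟨ρ', fun s hs => h3 s (h1 _ hs), fun I => ?_⟩
  rw [← Ideal.map_map, h4, h2]

end Pool.Agent.P.MP_1bf4cb_ag
end
end

-- part Pool.Agent.P.MP_1bf4cb_ag.GB
section

set_option autoImplicit false
set_option linter.unusedSectionVars false
set_option linter.unusedVariables false

open Function Matrix
open scoped TensorProduct

noncomputable section

namespace Pool.Agent.P.MP_1bf4cb_ag

variable {A : Type} [CommRing A]

theorem cell_field (k : Type) [Field k] : Cell k := by
  refine ⟨[⟨k⟩], fun Γ _ χ hχ => van_of_primes fun P hP _ => ?_⟩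
  rw [χ.congr (Submodule.quotEquivOfEqBot P (Ideal.eq_bot_of_prime P))]
  exact hχ ⟨k⟩ (List.mem_singleton_self _)

open Polynomial in
theorem mem_GB (I : Ideal A) (g : A[X]) :
    g ∈ I.map (C : A →+* A[X]) ↔ g.map (Ideal.Quotient.mk I) = 0 := by
  rw [Ideal.mem_map_C_iff, Polynomial.ext_iff]
  simp only [coeff_map, coeff_zero, Ideal.Quotient.eq_zero_iff_mem]

open Polynomial in
/-- pseudo-division by an element of least degree -/
theorem pdiv_GB {I : Ideal A} [I.IsPrime] {PP : Ideal A[X]} {f : A[X]} (hf : f ∈ PP)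
    (hpos : 0 < (f.map (Ideal.Quotient.mk I)).natDegree)
    (hmin : ∀ g ∈ PP, g ∉ I.map (C : A →+* A[X]) →
      (f.map (Ideal.Quotient.mk I)).natDegree ≤ (g.map (Ideal.Quotient.mk I)).natDegree) (n : ℕ) :
    ∀ g ∈ PP, (g.map (Ideal.Quotient.mk I)).natDegree = n →
      ∃ N : ℕ, C (f.coeff (f.map (Ideal.Quotient.mk I)).natDegree) ^ N * g ∈
        I.map (C : A →+* A[X]) ⊔ Ideal.span {f} := by
  induction n using Nat.strong_induction_on with
  | _ n ih =>
    intro g hg hn
    by_cases hgI : g ∈ I.map (C : A →+* A[X])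
    · exact ⟨0, by simpa using Ideal.mem_sup_left hgI⟩
    have hle := hmin g hg hgI
    have hlt := natDegree_cancelLeads_lt_of_natDegree_le_natDegree hle (hpos.trans_le hle)
    have he : (C (f.coeff (f.map (Ideal.Quotient.mk I)).natDegree) * g -
        C (g.coeff (g.map (Ideal.Quotient.mk I)).natDegree) *
          X ^ ((g.map (Ideal.Quotient.mk I)).natDegree - (f.map (Ideal.Quotient.mk I)).natDegree) *
            f).map (Ideal.Quotient.mk I) =
        (f.map (Ideal.Quotient.mk I)).cancelLeads (g.map (Ideal.Quotient.mk I)) := by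
      rw [cancelLeads, Nat.sub_eq_zero_of_le hle]
      simp only [Polynomial.map_sub, Polynomial.map_mul, map_C, Polynomial.map_pow, map_X,
        leadingCoeff, coeff_map, pow_zero, mul_one]
    obtain ⟨N, hN⟩ := ih _ (hn ▸ hlt) _
      (PP.sub_mem (PP.mul_mem_left _ hg) (PP.mul_mem_left _ hf)) (congrArg natDegree he)
    refine ⟨N + 1, ?_⟩
    rw [mul_sub, ← mul_assoc, ← pow_succ] at hN
    exact (Submodule.sub_mem_iff_left _ (Ideal.mem_sup_right (Ideal.mul_mem_left _ _
      (Ideal.mul_mem_left _ _ (Ideal.mem_span_singleton_self f))))).1 hN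

variable {Γ : Type 1} [AddCommGroup Γ]

/-- the quotient of a domain by a nonzero element has value zero -/
theorem quot_GB (χ : AddF A Γ) {J : Ideal A} [J.IsPrime] {f : A} (hf : f ∉ J) :
    χ.val (A ⧸ (J ⊔ Ideal.span {f})) = 0 := by
  have h := χ.add (LinearMap.lsmul A (A ⧸ J) f)
    (Submodule.factor (le_sup_left : J ≤ J ⊔ Ideal.span {f})) ?_ (Submodule.factor_surjective _) ?_
  · simpa using h
  · rw [injective_iff_map_eq_zero]
    intro y hy
    obtain ⟨x, rfl⟩ := Ideal.Quotient.mk_surjective y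
    have h1 : f * x ∈ J := Ideal.Quotient.eq_zero_iff_mem.1 hy
    exact Ideal.Quotient.eq_zero_iff_mem.2 ((Ideal.IsPrime.mem_or_mem ‹_› h1).resolve_left hf)
  · intro y
    obtain ⟨x, rfl⟩ := Ideal.Quotient.mk_surjective y
    constructor
    · intro hy
      have h1 : x ∈ J ⊔ Ideal.span {f} := Ideal.Quotient.eq_zero_iff_mem.1 hy
      obtain ⟨j, hj, z, hz, rfl⟩ := Submodule.mem_sup.1 h1
      obtain ⟨a, rfl⟩ := Ideal.mem_span_singleton'.1 hz
      refine ⟨Ideal.Quotient.mk J a, ?_⟩
      refine (Ideal.Quotient.eq (x := f * a)).2 ?_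
      rw [show f * a - (j + a * f) = -j by ring]
      exact J.neg_mem hj
    · rintro ⟨y, hy⟩
      obtain ⟨a, rfl⟩ := Ideal.Quotient.mk_surjective y
      rw [← hy]
      exact (Ideal.Quotient.eq_zero_iff_mem (a := f * a)).2
        (Ideal.mem_sup_right (Ideal.mul_mem_right _ _ (Ideal.mem_span_singleton_self f)))

/-- passing from `K` to a larger ideal whose elements are `c`-torsion modulo `K` -/
theorem up_GB [IsNoetherianRing A] {χ : AddF A Γ} {J K PP : Ideal A} {c : A} (hJ : J ≤ K)
    (hK : K ≤ PP) (h0 : χ.val (A ⧸ K) = 0) (hv : Van χ (J ⊔ Ideal.span {c}))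
    (ht : ∀ g ∈ PP, ∃ N : ℕ, c ^ N * g ∈ K) : χ.val (A ⧸ PP) = 0 := by
  have h := χ.add (LinearMap.ker (Submodule.factor hK)).subtype (Submodule.factor hK)
    (Submodule.injective_subtype _) (Submodule.factor_surjective _)
    (LinearMap.exact_subtype_ker_map _)
  have h1 : χ.val (LinearMap.ker (Submodule.factor hK)) = 0 := by
    refine hv.supp fun x hx y => ?_
    obtain ⟨y, hy⟩ := y
    obtain ⟨g, rfl⟩ := Ideal.Quotient.mk_surjective y
    obtain ⟨N, hN⟩ := ht g (Ideal.Quotient.eq_zero_iff_mem.1 hy)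
    obtain ⟨j, hj, z, hz, rfl⟩ := Submodule.mem_sup.1 hx
    obtain ⟨a, rfl⟩ := Ideal.mem_span_singleton'.1 hz
    refine ⟨N, Subtype.ext ?_⟩
    show Ideal.Quotient.mk K ((j + a * c) ^ N * g) = 0
    have h2 : Ideal.Quotient.mk K j = 0 := Ideal.Quotient.eq_zero_iff_mem.2 (hJ hj)
    have h3 : Ideal.Quotient.mk K (c ^ N * g) = 0 := Ideal.Quotient.eq_zero_iff_mem.2 hN
    rw [map_mul, map_pow] at h3
    rw [map_mul, map_pow, map_add, h2, zero_add, map_mul, mul_pow, mul_assoc, h3, mul_zero]
  rw [h1, zero_add] at h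
  exact h.symm.trans h0

open Polynomial in
theorem van_GB [IsNoetherianRing A] {χ : AddF A[X] Γ}
    (h0 : ∀ I : Ideal A, χ.val (A[X] ⧸ I.map (C : A →+* A[X])) = 0) (I : Ideal A) :
    Van χ (I.map (C : A →+* A[X])) := by
  induction I using IsNoetherian.induction with
  | hgt I ih =>
    refine van_of_primes fun PP hPP hle => ?_
    rcases (Ideal.map_le_iff_le_comap.1 hle).lt_or_eq with hlt | heq
    · refine ih _ hlt _ fun x hx y => ?_
      obtain ⟨g, rfl⟩ := Ideal.Quotient.mk_surjective y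
      exact (Ideal.Quotient.eq_zero_iff_mem (a := x * g)).2
        (PP.mul_mem_right _ (Ideal.map_comap_le hx))
    have hI : Ideal.IsPrime I := heq ▸ Ideal.IsPrime.comap _
    have hJ : (Ideal.map (C : A →+* A[X]) I).IsPrime := (Ideal.isPrime_map_C_iff_isPrime I).2 hI
    rcases hle.lt_or_eq with hlt | rfl
    swap
    · exact h0 I
    obtain ⟨f0, hf0⟩ := SetLike.exists_of_lt hlt
    obtain ⟨f, ⟨hf, hfJ⟩, hmin⟩ := exists_minimalFor_of_wellFoundedLT
      (fun g : A[X] => g ∈ PP ∧ g ∉ Ideal.map (C : A →+* A[X]) I)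
      (fun g => (g.map (Ideal.Quotient.mk I)).natDegree) ⟨f0, hf0⟩
    have hf0 : f.map (Ideal.Quotient.mk I) ≠ 0 := fun e => hfJ ((mem_GB I f).2 e)
    have hc : f.coeff (f.map (Ideal.Quotient.mk I)).natDegree ∉ I := fun hm =>
      leadingCoeff_ne_zero.2 hf0 (by
        rw [leadingCoeff, coeff_map]; exact Ideal.Quotient.eq_zero_iff_mem.2 hm)
    have hpos : 0 < (f.map (Ideal.Quotient.mk I)).natDegree := by
      refine Nat.pos_of_ne_zero fun e => hc ?_
      rw [e]
      have h1 : f - C (f.coeff 0) ∈ Ideal.map (C : A →+* A[X]) I := by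
        rw [mem_GB, Polynomial.map_sub, map_C, ← coeff_map, ← eq_C_of_natDegree_eq_zero e,
          sub_self]
      have h2 : C (f.coeff 0) ∈ PP := by simpa using PP.sub_mem hf (hle h1)
      rw [heq]
      exact h2
    refine up_GB (c := C (f.coeff (f.map (Ideal.Quotient.mk I)).natDegree)) le_sup_left
      (sup_le hle ((Ideal.span_singleton_le_iff_mem _).2 hf)) (quot_GB χ hfJ) ?_ fun g hg =>
      pdiv_GB hf hpos (fun g hg hgJ => (le_total _ _).elim id (@hmin g ⟨hg, hgJ⟩)) _ g hg rfl
    have h3 := ih (I ⊔ Ideal.span {f.coeff (f.map (Ideal.Quotient.mk I)).natDegree})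
      (lt_of_le_of_ne le_sup_left fun e =>
        hc (e.ge (Ideal.mem_sup_right (Ideal.mem_span_singleton_self _))))
    rwa [Ideal.map_sup, Ideal.map_span, Set.image_singleton] at h3

theorem cell_poly [IsNoetherianRing A] (h : Cell A) : Cell (Polynomial A) := by
  obtain ⟨G, hG⟩ := h
  refine ⟨G.map fun M => ⟨Polynomial A ⊗[A] M.M⟩, fun Γ _ χ hχ => ?_⟩
  obtain ⟨χ0, h1, h2⟩ := exists_base (A := A) χ
  have h3 := hG Γ χ0 fun M hM => by
    rw [h1]
    exact hχ _ (List.mem_map_of_mem hM)
  have h4 := van_GB (χ := χ) (fun I => by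
    rw [← Polynomial.algebraMap_eq, ← h2]
    exact h3 _ fun x hx y => by rw [Ideal.mem_bot.1 hx, zero_smul]) ⊥
  rwa [Ideal.map_bot] at h4

theorem cell_mv [IsNoetherianRing A] (h : Cell A) (V : Type) [Finite V] :
    Cell (MvPolynomial V A) := by
  induction V using Finite.induction_empty_option with
  | of_equiv e ih => exact cell_equiv (MvPolynomial.renameEquiv A e).toRingEquiv ih
  | h_empty => exact cell_equiv (MvPolynomial.isEmptyRingEquiv A PEmpty).symm h
  | h_option ih =>
    exact cell_equiv (MvPolynomial.optionEquivLeft A _).symm.toRingEquiv (cell_poly ih)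

end Pool.Agent.P.MP_1bf4cb_ag
end
end

-- part Pool.Agent.P.MP_1bf4cb_ag.GD
section

set_option autoImplicit false
set_option linter.unusedSectionVars false
set_option linter.unusedVariables false

open Function Matrix
open scoped TensorProduct

noncomputable section

namespace Pool.Agent.P.MP_1bf4cb_ag

variable {A : Type} [CommRing A]

theorem exact_GD {Γ : Type 1} [AddCommGroup Γ] (χ : AddF A Γ) {X Y Z : Type} [AddCommGroup X]
    [Module A X] [AddCommGroup Y] [Module A Y] [AddCommGroup Z] [Module A Z] [Module.Finite A Y]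
    (u : X →ₗ[A] Y) (v : Y →ₗ[A] Z) (h : Exact u v) :
    χ.val Y = χ.val (LinearMap.range u) + χ.val (LinearMap.range v) := by
  rw [χ.ker_range v, h.linearMap_ker_eq]

theorem euler_GD {Γ : Type 1} [AddCommGroup Γ] (χ : AddF A Γ) {M N P : Type} [AddCommGroup M]
    [Module A M] [AddCommGroup N] [Module A N] [AddCommGroup P] [Module A P]
    (f : M →ₗ[A] N) (g : N →ₗ[A] P) (hf : Injective f) (hg : Surjective g) (h : Exact f g)
    (i₁ : M →ₗ[A] M) (i₂ : N →ₗ[A] N) (i₃ : P →ₗ[A] P)
    (h₁ : ∀ y, f (i₁ y) = i₂ (f y)) (h₂ : ∀ y, g (i₂ y) = i₃ (g y))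
    [Module.Finite A (LinearMap.ker i₁)] [Module.Finite A (LinearMap.ker i₂)]
    [Module.Finite A (LinearMap.ker i₃)] [Module.Finite A (M ⧸ LinearMap.range i₁)]
    [Module.Finite A (N ⧸ LinearMap.range i₂)] [Module.Finite A (P ⧸ LinearMap.range i₃)] :
    χ.val (N ⧸ LinearMap.range i₂) - χ.val (LinearMap.ker i₂) =
      (χ.val (M ⧸ LinearMap.range i₁) - χ.val (LinearMap.ker i₁)) +
        (χ.val (P ⧸ LinearMap.range i₃) - χ.val (LinearMap.ker i₃)) := by
  let F1 : LinearMap.ker i₁ →ₗ[A] LinearMap.ker i₂ := f.restrict (fun y hy => by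
    rw [LinearMap.mem_ker] at hy ⊢
    rw [← h₁, hy, map_zero])
  let F2 : LinearMap.ker i₂ →ₗ[A] LinearMap.ker i₃ := g.restrict (fun y hy => by
    rw [LinearMap.mem_ker] at hy ⊢
    rw [← h₂, hy, map_zero])
  let G1 : (M ⧸ LinearMap.range i₁) →ₗ[A] (N ⧸ LinearMap.range i₂) :=
    Submodule.mapQ _ _ f (by
      rintro _ ⟨y, rfl⟩
      exact ⟨f y, (h₁ y).symm⟩)
  let G2 : (N ⧸ LinearMap.range i₂) →ₗ[A] (P ⧸ LinearMap.range i₃) :=
    Submodule.mapQ _ _ g (by
      rintro _ ⟨y, rfl⟩
      exact ⟨g y, (h₂ y).symm⟩)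
  have k1 : f.comp i₁ = i₂.comp f := LinearMap.ext h₁
  have k2 : g.comp i₂ = i₃.comp g := LinearMap.ext h₂
  have eF : Exact F1 F2 := by
    intro y
    constructor
    · intro hy
      have h0 : g y.1 = 0 := congrArg Subtype.val hy
      obtain ⟨z, hz⟩ := (h _).1 h0
      refine ⟨⟨z, ?_⟩, Subtype.ext hz⟩
      rw [LinearMap.mem_ker]
      apply hf
      rw [h₁, hz, map_zero]
      exact y.2
    · rintro ⟨z, rfl⟩
      exact Subtype.ext (h.apply_apply_eq_zero z.1)
  have eG : Exact G1 G2 := by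
    intro y
    obtain ⟨y, rfl⟩ := Submodule.Quotient.mk_surjective _ y
    constructor
    · intro hy
      have h0 : g y ∈ LinearMap.range i₃ := (Submodule.Quotient.mk_eq_zero _).1 hy
      obtain ⟨w, hw⟩ := h0
      obtain ⟨v, rfl⟩ := hg w
      obtain ⟨z, hz⟩ := (h (y - i₂ v)).1 (by rw [map_sub, h₂, hw, sub_self])
      refine ⟨Submodule.Quotient.mk z, ?_⟩
      refine (Submodule.Quotient.eq _).2 ⟨-v, ?_⟩
      rw [hz, map_neg]
      abel
    · rintro ⟨z, hz⟩
      obtain ⟨z, rfl⟩ := Submodule.Quotient.mk_surjective _ z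
      rw [← hz]
      refine (Submodule.Quotient.mk_eq_zero _).2 ?_
      rw [h.apply_apply_eq_zero z]
      exact zero_mem _
  have e2 := SnakeLemma.exact_δ'_right i₁ i₂ i₃ f g h f g h k1 k2
    (LinearMap.ker i₂).subtype (LinearMap.exact_subtype_ker_map i₂)
    (LinearMap.ker i₃).subtype (LinearMap.exact_subtype_ker_map i₃)
    (LinearMap.range i₁).mkQ (LinearMap.exact_map_mkQ_range i₁) hg hf F2
    (LinearMap.ext fun _ => rfl) (Submodule.subtype_injective _)
  have e3 := SnakeLemma.exact_δ'_left i₁ i₂ i₃ f g h f g h k1 k2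
    (LinearMap.ker i₃).subtype (LinearMap.exact_subtype_ker_map i₃)
    (LinearMap.range i₁).mkQ (LinearMap.exact_map_mkQ_range i₁)
    (LinearMap.range i₂).mkQ (LinearMap.exact_map_mkQ_range i₂) hg hf G1
    (LinearMap.ext fun _ => rfl) (Submodule.mkQ_surjective _)
  have iF : Injective F1 := fun y z hyz => Subtype.ext (hf (congrArg Subtype.val hyz))
  have sG : Surjective G2 := by
    intro y
    obtain ⟨y, rfl⟩ := Submodule.Quotient.mk_surjective _ y
    obtain ⟨z, rfl⟩ := hg y
    exact ⟨Submodule.Quotient.mk z, rfl⟩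
  have a1 := χ.congr (LinearEquiv.ofInjective F1 iF)
  have a2 := exact_GD χ _ _ eF
  have a3 := exact_GD χ _ _ e2
  have a4 := exact_GD χ _ _ e3
  have a5 := exact_GD χ _ _ eG
  have a6 := χ.congr (LinearEquiv.ofTop (LinearMap.range G2) (LinearMap.range_eq_top.2 sG))
  rw [a1, a2, a3, a4, a5, a6]
  abel

section
open Polynomial
variable {M : Type} [AddCommGroup M] [Module A M] [Module A[X] M] [IsScalarTower A A[X] M]

/-- multiplication by `X - a` -/
def mulX_GD (a : A) (M : Type) [AddCommGroup M] [Module A M] [Module A[X] M]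
    [IsScalarTower A A[X] M] : M →ₗ[A] M :=
  (LinearMap.lsmul A[X] M (X - C a)).restrictScalars A

theorem mulX_apply_GD (a : A) (y : M) : mulX_GD a M y = (X - C a : A[X]) • y := rfl

theorem split_GD (a : A) (p : A[X]) :
    ∃ q : A[X], ∀ y : M, p • y = p.eval a • y + ((X - C a) * q) • y := by
  obtain ⟨q, hq⟩ := X_sub_C_dvd_sub_C_eval (a := a) (p := p)
  refine ⟨q, fun y => ?_⟩
  rw [← hq, sub_smul, ← algebraMap_smul A[X] (p.eval a) y, algebraMap_eq]
  abel

theorem ker_smul_GD (a : A) (p : A[X]) {y : M} (hy : (X - C a : A[X]) • y = 0) :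
    p • y = p.eval a • y := by
  obtain ⟨q, hq⟩ := split_GD (M := M) a p
  rw [hq, mul_comm, mul_smul, hy, smul_zero, add_zero]

theorem quot_smul_GD (a : A) (p : A[X]) (y : M) :
    (LinearMap.range (mulX_GD a M)).mkQ (p • y) =
      p.eval a • (LinearMap.range (mulX_GD a M)).mkQ y := by
  obtain ⟨q, hq⟩ := split_GD (M := M) a p
  have h0 : (LinearMap.range (mulX_GD a M)).mkQ (((X - C a) * q) • y) = 0 :=
    (Submodule.Quotient.mk_eq_zero _).2 ⟨q • y, by rw [mulX_apply_GD, mul_smul]⟩
  rw [hq, map_add, h0, add_zero, map_smul]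

theorem fin_quot_GD (a : A) [Module.Finite A[X] M] :
    Module.Finite A (M ⧸ LinearMap.range (mulX_GD a M)) := by
  obtain ⟨s, hs⟩ := Module.Finite.fg_top (R := A[X]) (M := M)
  refine ⟨Submodule.fg_def.2 ⟨(LinearMap.range (mulX_GD a M)).mkQ '' s,
    s.finite_toSet.image _, ?_⟩⟩
  rw [eq_top_iff]
  rintro y -
  obtain ⟨y, rfl⟩ := Submodule.mkQ_surjective _ y
  have hy : y ∈ Submodule.span A[X] (s : Set M) := by rw [hs]; trivial
  induction hy using Submodule.span_induction with
  | mem z hz => exact Submodule.subset_span ⟨z, hz, rfl⟩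
  | zero => rw [map_zero]; exact zero_mem _
  | add z w _ _ hz hw => rw [map_add]; exact add_mem hz hw
  | smul p z _ hz => rw [quot_smul_GD]; exact Submodule.smul_mem _ _ hz

theorem fin_ker_GD [IsNoetherianRing A] (a : A) [Module.Finite A[X] M] :
    Module.Finite A (LinearMap.ker (mulX_GD a M)) := by
  obtain ⟨s, hs⟩ := IsNoetherian.noetherian (LinearMap.ker (LinearMap.lsmul A[X] M (X - C a)))
  rw [Module.Finite.iff_fg]
  refine ⟨s, le_antisymm ?_ ?_⟩
  · rw [Submodule.span_le]
    intro y hy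
    have : y ∈ LinearMap.ker (LinearMap.lsmul A[X] M (X - C a)) := by
      rw [← hs]; exact Submodule.subset_span hy
    exact this
  · intro y hy
    have hy' : y ∈ Submodule.span A[X] (s : Set M) := by rw [hs]; exact hy
    clear hy
    induction hy' using Submodule.span_induction with
    | mem z hz => exact Submodule.subset_span hz
    | zero => exact zero_mem _
    | add z w _ _ hz hw => exact add_mem hz hw
    | smul p z hz' hz =>
      rw [hs] at hz'
      rw [ker_smul_GD a p hz']
      exact Submodule.smul_mem _ _ hz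

theorem tower_GD (M : Type) [AddCommGroup M] [Module A[X] M] :
    letI : Module A M := Module.compHom M (C : A →+* A[X])
    IsScalarTower A A[X] M :=
  letI : Module A M := Module.compHom M (C : A →+* A[X])
  ⟨fun c p y => by
    change (c • p) • y = (C c : A[X]) • p • y
    rw [smul_eq_C_mul, mul_smul]⟩

theorem cyc_GD {Γ : Type 1} [AddCommGroup Γ] [IsNoetherianRing A] (χ : AddF A Γ) (a : A)
    (I : Ideal A) (m : M) (hm : ∀ y : M, ∃ p : A[X], p • m = y)
    (hI : ∀ p : A[X], p • m = 0 ↔ p ∈ I.map (C : A →+* A[X])) :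
    χ.val (M ⧸ LinearMap.range (mulX_GD a M)) - χ.val (LinearMap.ker (mulX_GD a M)) =
      χ.val (A ⧸ I) := by
  have hk : ∀ p : A[X], p ∈ I.map (C : A →+* A[X]) ↔ p.map (Ideal.Quotient.mk I) = 0 := by
    intro p
    have := ker_mapRingHom (Ideal.Quotient.mk I)
    rw [Ideal.mk_ker] at this
    rw [← this, RingHom.mem_ker, coe_mapRingHom]
  have h0 : Subsingleton (LinearMap.ker (mulX_GD a M)) := by
    refine subsingleton_of_forall_eq 0 fun y => Subtype.ext ?_
    obtain ⟨p, hp⟩ := hm y.1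
    have h1 : ((X - C a) * p) • m = 0 := by rw [mul_smul, hp]; exact y.2
    rw [hI, hk, Polynomial.map_mul, ((monic_X_sub_C a).map _).mul_right_eq_zero_iff, ← hk,
      ← hI] at h1
    rw [← hp, h1]
    rfl
  rw [χ.zero (LinearMap.ker (mulX_GD a M)), sub_zero]
  let φ := LinearMap.toSpanSingleton A _ ((LinearMap.range (mulX_GD a M)).mkQ m)
  have hs : Surjective φ := by
    intro y
    obtain ⟨y, rfl⟩ := Submodule.mkQ_surjective _ y
    obtain ⟨p, rfl⟩ := hm y
    exact ⟨p.eval a, (quot_smul_GD a p m).symm⟩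
  have hker : LinearMap.ker φ = I := by
    ext c
    have h1 : φ c = (LinearMap.range (mulX_GD a M)).mkQ ((C c : A[X]) • m) := by
      rw [quot_smul_GD, eval_C]; rfl
    rw [LinearMap.mem_ker, h1]
    constructor
    · intro h2
      obtain ⟨z, hz⟩ := (Submodule.Quotient.mk_eq_zero _).1 h2
      obtain ⟨p, rfl⟩ := hm z
      have h3 : (C c - (X - C a) * p) ∈ I.map (C : A →+* A[X]) := by
        rw [← hI, sub_smul, mul_smul, ← hz, mulX_apply_GD, sub_self]
      have h4 : I.map (C : A →+* A[X]) ≤ I.comap (evalRingHom a) := by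
        rw [Ideal.map_le_iff_le_comap]
        intro d hd
        simpa using hd
      simpa using h4 h3
    · intro hc
      rw [(hI _).2 (Ideal.mem_map_of_mem _ hc), map_zero]
  exact χ.congr ((φ.quotKerEquivOfSurjective hs).symm.trans (Submodule.quotEquivOfEq _ _ hker))

end

theorem spec_poly [IsNoetherianRing A] (a : A) :
    Spec (Polynomial.C : A →+* Polynomial A) (Polynomial.evalRingHom a) := by
  intro Γ _ χ
  refine ⟨⟨fun M _ _ =>
    letI : Module A M := Module.compHom M (Polynomial.C : A →+* Polynomial A)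
    haveI := tower_GD (A := A) M
    χ.val (M ⧸ LinearMap.range (mulX_GD a M)) - χ.val (LinearMap.ker (mulX_GD a M)), ?_⟩, ?_, ?_⟩
  · intro M N P _ _ _ _ _ _ _ f g hf hg h
    letI : Module A M := Module.compHom M (Polynomial.C : A →+* Polynomial A)
    letI : Module A N := Module.compHom N (Polynomial.C : A →+* Polynomial A)
    letI : Module A P := Module.compHom P (Polynomial.C : A →+* Polynomial A)
    haveI := tower_GD (A := A) M
    haveI := tower_GD (A := A) N
    haveI := tower_GD (A := A) P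
    haveI : Module.Finite (Polynomial A) M := Module.Finite.of_injective f hf
    haveI : Module.Finite (Polynomial A) P := Module.Finite.of_surjective g hg
    haveI := fin_quot_GD (M := M) a
    haveI := fin_quot_GD (M := N) a
    haveI := fin_quot_GD (M := P) a
    haveI := fin_ker_GD (M := M) a
    haveI := fin_ker_GD (M := N) a
    haveI := fin_ker_GD (M := P) a
    exact euler_GD χ (f.restrictScalars A) (g.restrictScalars A) hf hg h _ _ _
      (fun y => map_smul f _ y) (fun y => map_smul g _ y)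
  · intro s hs M _ _ _ hM
    letI : Module A M := Module.compHom M (Polynomial.C : A →+* Polynomial A)
    haveI := tower_GD (A := A) M
    haveI := fin_quot_GD (M := M) a
    haveI := fin_ker_GD (M := M) a
    have hs0 : ∀ y : M, s • y = 0 := hM s (Ideal.mem_span_singleton_self s)
    have h1 : χ.val (M ⧸ LinearMap.range (mulX_GD a M)) = 0 := by
      refine hs _ fun c hc y => ?_
      obtain ⟨d, rfl⟩ := Ideal.mem_span_singleton'.1 hc
      obtain ⟨y, rfl⟩ := Submodule.mkQ_surjective _ y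
      rw [mul_smul, Polynomial.coe_evalRingHom, ← quot_smul_GD, hs0, map_zero, smul_zero]
    have h2 : χ.val (LinearMap.ker (mulX_GD a M)) = 0 := by
      refine hs _ fun c hc y => ?_
      obtain ⟨d, rfl⟩ := Ideal.mem_span_singleton'.1 hc
      have h3 : Polynomial.evalRingHom a s • y = 0 := by
        refine Subtype.ext ?_
        rw [Submodule.coe_smul, Polynomial.coe_evalRingHom, ← ker_smul_GD a s y.2, hs0]
        rfl
      rw [mul_smul, h3, smul_zero]
    change χ.val (M ⧸ LinearMap.range (mulX_GD a M)) - χ.val (LinearMap.ker (mulX_GD a M)) = 0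
    rw [h1, h2, sub_zero]
  · intro I
    letI : Module A (Polynomial A ⧸ I.map (Polynomial.C : A →+* Polynomial A)) :=
      Module.compHom _ (Polynomial.C : A →+* Polynomial A)
    haveI := tower_GD (A := A) (Polynomial A ⧸ I.map (Polynomial.C : A →+* Polynomial A))
    have hp : ∀ p : Polynomial A,
        p • (1 : Polynomial A ⧸ I.map (Polynomial.C : A →+* Polynomial A)) =
          Ideal.Quotient.mk _ p := fun p => by
      change Ideal.Quotient.mk _ (p * 1) = _
      rw [mul_one]
    refine cyc_GD χ a I 1 (fun y => ?_) (fun p => ?_)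
    · obtain ⟨p, rfl⟩ := Ideal.Quotient.mk_surjective y
      exact ⟨p, hp p⟩
    · rw [hp, Ideal.Quotient.eq_zero_iff_mem]

theorem spec_mv [IsNoetherianRing A] {V : Type} [Finite V] (a : V → A) :
    Spec (MvPolynomial.C : A →+* MvPolynomial V A) (MvPolynomial.eval a) := by
  revert a
  refine Finite.induction_empty_option
    (P := fun V => ∀ a : V → A,
      Spec (MvPolynomial.C : A →+* MvPolynomial V A) (MvPolynomial.eval a)) ?_ ?_ ?_ V
  · intro α β e h a
    have k := spec_trans (h (a ∘ e)) (spec_equiv (MvPolynomial.renameEquiv A e).toRingEquiv)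
    have e1 : ((MvPolynomial.renameEquiv A e).toRingEquiv :
        MvPolynomial α A →+* MvPolynomial β A).comp MvPolynomial.C =
        MvPolynomial.C := by
      ext1 c
      simp
    have e2 : (MvPolynomial.eval (a ∘ e)).comp
        ((MvPolynomial.renameEquiv A e).toRingEquiv.symm :
          MvPolynomial β A →+* MvPolynomial α A) = MvPolynomial.eval a := by
      refine MvPolynomial.ringHom_ext (fun c => ?_) (fun i => ?_)
      · change MvPolynomial.eval (a ∘ e) (MvPolynomial.rename e.symm (MvPolynomial.C c)) = _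
        simp
      · change MvPolynomial.eval (a ∘ e) (MvPolynomial.rename e.symm (MvPolynomial.X i)) = _
        simp
    rwa [e1, e2] at k
  · intro a
    have k := spec_equiv (MvPolynomial.isEmptyRingEquiv A PEmpty.{1}).symm
    have e1 : ((MvPolynomial.isEmptyRingEquiv A PEmpty.{1}).symm :
        A →+* MvPolynomial PEmpty.{1} A) = MvPolynomial.C := by
      ext1 c
      simp
    have e2 : ((MvPolynomial.isEmptyRingEquiv A PEmpty.{1}).symm.symm :
        MvPolynomial PEmpty.{1} A →+* A) =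
        MvPolynomial.eval a := by
      refine MvPolynomial.ringHom_ext (fun c => ?_) (fun i => i.elim)
      rw [MvPolynomial.eval_C, ← e1]
      exact (MvPolynomial.isEmptyRingEquiv A PEmpty.{1}).apply_symm_apply c
    rwa [e1, e2] at k
  · intro α _ h a
    have k := spec_trans (spec_trans (h (a ∘ some)) (spec_poly (MvPolynomial.C (a none))))
      (spec_equiv (MvPolynomial.optionEquivLeft A α).toRingEquiv.symm)
    have e1 : ((MvPolynomial.optionEquivLeft A α).toRingEquiv.symm :
        Polynomial (MvPolynomial α A) →+* MvPolynomial (Option α) A).comp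
        (Polynomial.C.comp MvPolynomial.C) = MvPolynomial.C := by
      ext1 c
      apply (MvPolynomial.optionEquivLeft A α).injective
      change MvPolynomial.optionEquivLeft A α ((MvPolynomial.optionEquivLeft A α).symm _) = _
      rw [AlgEquiv.apply_symm_apply, MvPolynomial.optionEquivLeft_C]
      rfl
    have e2 : ((MvPolynomial.eval (a ∘ some)).comp
        (Polynomial.evalRingHom (MvPolynomial.C (a none)))).comp
        ((MvPolynomial.optionEquivLeft A α).toRingEquiv.symm.symm :
          MvPolynomial (Option α) A →+* Polynomial (MvPolynomial α A)) =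
        MvPolynomial.eval a := by
      refine MvPolynomial.ringHom_ext (fun c => ?_) (fun i => ?_)
      · change MvPolynomial.eval (a ∘ some) (Polynomial.eval _
          (MvPolynomial.optionEquivLeft A α (MvPolynomial.C c))) = _
        simp [MvPolynomial.optionEquivLeft_C]
      · change MvPolynomial.eval (a ∘ some) (Polynomial.eval _
          (MvPolynomial.optionEquivLeft A α (MvPolynomial.X i))) = _
        cases i <;> simp [MvPolynomial.optionEquivLeft_X_none, MvPolynomial.optionEquivLeft_X_some]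
    rwa [e1, e2] at k

end Pool.Agent.P.MP_1bf4cb_ag
end
end

-- part Pool.Agent.P.MP_1bf4cb_ag.GH
section

set_option autoImplicit false
set_option linter.unusedSectionVars false
set_option linter.unusedVariables false

open Function Matrix
open scoped TensorProduct

noncomputable section

namespace Pool.Agent.P.MP_1bf4cb_ag

variable {A P : Type} [CommRing A] [CommRing P] {Γ : Type 1} [AddCommGroup Γ]

theorem clear_GH (ψ : A →+* P) (f : A) (hi : ∀ y, y ∈ den ψ f) (I : Ideal A) (y : P)
    (hy : y ∈ I.map ψ) : ∃ (r : ℕ) (p : A), p ∈ I ∧ ψ f ^ r * y = ψ p := by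
  unfold Ideal.map at hy
  induction hy using Submodule.span_induction with
  | mem z hz =>
    obtain ⟨p, hp, rfl⟩ := hz
    exact ⟨0, p, hp, by simp⟩
  | zero => exact ⟨0, 0, I.zero_mem, by simp⟩
  | add z z' _ _ h h' =>
    obtain ⟨r, p, hp, h⟩ := h
    obtain ⟨r', p', hp', h'⟩ := h'
    refine ⟨r + r', f ^ r' * p + f ^ r * p',
      I.add_mem (I.mul_mem_left _ hp) (I.mul_mem_left _ hp'), ?_⟩
    rw [map_add, map_mul, map_mul, map_pow, map_pow, ← h, ← h']
    ring
  | smul c z _ h =>
    obtain ⟨r, p, hp, h⟩ := h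
    obtain ⟨r', x, hx⟩ := hi c
    refine ⟨r + r', x * p, I.mul_mem_left _ hp, ?_⟩
    rw [map_mul, ← h, ← hx, smul_eq_mul]
    ring

/-- adding one cell -/
theorem step [IsNoetherianRing A] (ψ : A →+* P) (F : Finset A) (b : Ideal A)
    (hi : ∀ f ∈ F, ∀ y, y ∈ den ψ f) (hb : b ≤ RingHom.ker ψ)
    (hp : ∀ 𝔭 : Ideal A, 𝔭.IsPrime → b ≤ 𝔭 → (∃ f ∈ F, f ∉ 𝔭) → RingHom.ker ψ ≤ 𝔭)
    (hP : Cell P) (hA : CellI A (b ⊔ Ideal.span (F : Set A))) : CellI A b := by
  classical
  obtain ⟨G, hG⟩ := hA
  obtain ⟨G', hG'⟩ := hP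
  choose L hL hinj hlat using fun N : FG P => exists_lat ψ F hi N.M
  refine ⟨G ++ G'.map L, fun Γ _ χ hχ => ?_⟩
  have hv0 : Van χ (b ⊔ Ideal.span (F : Set A)) :=
    hG Γ χ fun M hM => hχ M (List.mem_append_left _ hM)
  have hv : Van χ (RingHom.ker ψ ⊔ Ideal.span (F : Set A)) :=
    hv0.mono (sup_le_sup_right hb _)
  obtain ⟨χ', hχ'⟩ := lat ψ F hi χ hv
  have hbot : Van χ' ⊥ := by
    refine hG' Γ χ' fun N hN => ?_
    rw [hχ' N.M (L N).M (hL N) (hinj N) (hlat N)]
    exact hχ _ (List.mem_append_right _ (List.mem_map_of_mem hN))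
  refine van_of_primes fun 𝔭 h𝔭 hb𝔭 => ?_
  by_cases hF : ∃ f ∈ F, f ∉ 𝔭
  · have hk := hp 𝔭 h𝔭 hb𝔭 hF
    obtain ⟨f, hf, hf𝔭⟩ := hF
    let h : (A ⧸ 𝔭) →ₛₗ[ψ] (P ⧸ 𝔭.map ψ) :=
      Submodule.mapQ 𝔭 (𝔭.map ψ) ψ.toSemilinearMap fun x hx => Ideal.mem_map_of_mem ψ hx
    have hh : ∀ x : A, h (Ideal.Quotient.mk 𝔭 x) = Ideal.Quotient.mk (𝔭.map ψ) (ψ x) :=
      fun x => rfl
    have hinj' : Injective h := by
      rw [injective_iff_map_eq_zero]
      intro z hz
      obtain ⟨x, rfl⟩ := Ideal.Quotient.mk_surjective z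
      rw [hh, Ideal.Quotient.eq_zero_iff_mem] at hz
      obtain ⟨r, p, hp𝔭, hr⟩ := clear_GH ψ f (hi f hf) 𝔭 _ hz
      have h1 : f ^ r * x - p ∈ RingHom.ker ψ := by
        rw [RingHom.mem_ker, map_sub, map_mul, map_pow, hr, sub_self]
      have h2 : f ^ r * x ∈ 𝔭 := by
        have := 𝔭.add_mem (hk h1) hp𝔭
        rwa [sub_add_cancel] at this
      rw [Ideal.Quotient.eq_zero_iff_mem]
      rcases h𝔭.mem_or_mem h2 with h3 | h3
      · exact absurd (h𝔭.mem_of_pow_mem r h3) hf𝔭
      · exact h3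
    rw [← hχ' (P ⧸ 𝔭.map ψ) (A ⧸ 𝔭) h hinj' ?_]
    · refine hbot _ fun x hx y => ?_
      rw [Ideal.mem_bot.1 hx, zero_smul]
    · intro f' hf' y
      obtain ⟨y, rfl⟩ := Ideal.Quotient.mk_surjective y
      obtain ⟨r, x, hx⟩ := hi f' hf' y
      refine ⟨r, Ideal.Quotient.mk 𝔭 x, ?_⟩
      rw [hh, ← hx]
      rfl
  · have hle : b ⊔ Ideal.span (F : Set A) ≤ 𝔭 := by
      refine sup_le hb𝔭 (Ideal.span_le.2 fun f hf => ?_)
      by_contra hn
      exact hF ⟨f, hf, hn⟩
    refine hv0 _ fun x hx y => ?_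
    obtain ⟨y, rfl⟩ := Ideal.Quotient.mk_surjective y
    have : x • Ideal.Quotient.mk 𝔭 y = Ideal.Quotient.mk 𝔭 (x * y) := rfl
    rw [this, Ideal.Quotient.eq_zero_iff_mem]
    exact 𝔭.mul_mem_right _ (hle hx)

end Pool.Agent.P.MP_1bf4cb_ag
end
end

-- part Pool.Agent.P.MP_1bf4cb_ag.YE
section

set_option autoImplicit false
set_option linter.unusedSectionVars false
set_option linter.unusedVariables false

open Function Matrix
open scoped TensorProduct

noncomputable section

namespace Pool.Agent.P.MP_1bf4cb_ag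

open Polynomial

theorem shift_YE {A B : Type} [CommRing A] [CommRing B] [IsNoetherianRing B] (φ : A →+* B)
    (hφ : φ.Flat) : ∃ Φ : G0 A →+ G0 B, ∀ I : Ideal A, Φ (cyc I) = cyc (I.map φ) := by
  let : Algebra A B := φ.toAlgebra
  have : Module.Flat A B := hφ
  obtain ⟨χ, hχ⟩ := exists_cls B
  obtain ⟨χ', -, h'⟩ := exists_base (A := A) χ
  refine ⟨QuotientAddGroup.lift _ (FreeAbelianGroup.lift fun M : FG A => χ'.val M.M) ?_,
    fun I => ?_⟩
  · refine (AddSubgroup.closure_le _).2 ?_
    rintro _ ⟨M, N, P, f, g, hf, hg, h, rfl⟩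
    show FreeAbelianGroup.lift (fun M : FG A => χ'.val M.M) _ = 0
    rw [map_sub, map_sub, FreeAbelianGroup.lift_apply_of, FreeAbelianGroup.lift_apply_of,
      FreeAbelianGroup.lift_apply_of, χ'.add f g hf hg h]
    abel
  · rw [cyc, QuotientAddGroup.lift_mk, FreeAbelianGroup.lift_apply_of]
    exact (h' I).trans (hχ _)

/-- flat base change on the Grothendieck group -/
theorem exists_shift {A : Type} [CommRing A] [IsNoetherianRing A] (φ : A →+* A) (hφ : φ.Flat) :
    ∃ Φ : G0 A →+ G0 A, ∀ I : Ideal A, Φ (cyc I) = cyc (I.map φ) :=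
  shift_YE φ hφ

theorem exists_ann {Γ : Type 1} [AddCommGroup Γ] (Φ : Γ →+ Γ) (v : ℕ → Γ)
    (hv : ∀ a, Φ (v a) = v (a + 1)) (h : ¬ LinearIndependent ℤ v) :
    ∃ c : ℚ[X], c ≠ 0 ∧ ∀ f : ℚ[X], ((c * f).sum fun a t => (t ⊗ₜ[ℤ] v a : ℚ ⊗[ℤ] Γ)) = 0 := by
  classical
  rw [linearIndependent_iff] at h
  push Not at h
  obtain ⟨l, hl, hl0⟩ := h
  let E : ℚ[X] →ₗ[ℚ] ℚ ⊗[ℤ] Γ :=
    Polynomial.lsum fun a => LinearMap.toSpanSingleton ℚ _ ((1 : ℚ) ⊗ₜ[ℤ] v a : ℚ ⊗[ℤ] Γ)
  have e1 : ∀ (t : ℚ) (x : Γ), t • ((1 : ℚ) ⊗ₜ[ℤ] x : ℚ ⊗[ℤ] Γ) = t ⊗ₜ[ℤ] x := fun t x => by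
    rw [TensorProduct.smul_tmul', smul_eq_mul, mul_one]
  have hE : ∀ g : ℚ[X], E g = g.sum fun a t => (t ⊗ₜ[ℤ] v a : ℚ ⊗[ℤ] Γ) := fun g => by
    simp only [E, Polynomial.lsum_apply, LinearMap.toSpanSingleton_apply, e1]
  have hm : ∀ a t, E (monomial a t) = t ⊗ₜ[ℤ] v a := fun a t => by
    rw [hE, Polynomial.sum_monomial_index]
    exact TensorProduct.zero_tmul _ _
  have hX : ∀ g : ℚ[X], E (X * g) = Φ.toIntLinearMap.baseChange ℚ (E g) := fun g => by
    induction g using Polynomial.induction_on' with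
    | add p q hp hq => rw [mul_add, map_add, map_add, map_add, hp, hq]
    | monomial n t =>
      rw [Polynomial.X_mul_monomial, hm, hm, LinearMap.baseChange_tmul, ← hv]
      rfl
  let c : ℚ[X] := ∑ a ∈ l.support, monomial a (l a : ℚ)
  have hc : E c = 0 := by
    have e2 : ∀ a, ((l a : ℚ) ⊗ₜ[ℤ] v a : ℚ ⊗[ℤ] Γ) = (1 : ℚ) ⊗ₜ[ℤ] (l a • v a) := fun a => by
      rw [← TensorProduct.smul_tmul, zsmul_eq_mul, mul_one]
    rw [Finsupp.linearCombination_apply, Finsupp.sum] at hl
    simp only [c, map_sum, hm, e2]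
    rw [← TensorProduct.tmul_sum, hl, TensorProduct.tmul_zero]
  have hn : ∀ n : ℕ, E (X ^ n * c) = 0 := fun n => by
    induction n with
    | zero => rw [pow_zero, one_mul, hc]
    | succ n ih => rw [pow_succ', mul_assoc, hX, ih, map_zero]
  refine ⟨c, fun h0 => ?_, fun f => ?_⟩
  · obtain ⟨a, ha⟩ := Finsupp.support_nonempty_iff.2 hl0
    have h1 : c.coeff a = (l a : ℚ) := by
      simp only [c, Polynomial.finsetSum_coeff, Polynomial.coeff_monomial]
      rw [Finset.sum_ite_eq', if_pos ha]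
    rw [h0, Polynomial.coeff_zero] at h1
    exact Finsupp.mem_support_iff.1 ha (by exact_mod_cast h1.symm)
  · rw [← hE]
    induction f using Polynomial.induction_on' with
    | add p q hp hq => rw [mul_add, map_add, hp, hq, add_zero]
    | monomial n t =>
      have e3 : c * monomial n t = t • (X ^ n * c) := by
        rw [← Polynomial.C_mul_X_pow_eq_monomial, Polynomial.smul_eq_C_mul]
        ring
      rw [e3, map_smul, hn, smul_zero]

theorem split_YE (D c : ℚ[X]) (hc : c ≠ 0) : ∃ (c0 : ℚ[X]) (r : ℕ), IsCoprime c0 D ∧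
    c ∣ c0 * D ^ r := by
  induction c using UniqueFactorizationMonoid.induction_on_prime with
  | h₁ => exact absurd rfl hc
  | h₂ x hx => exact ⟨1, 0, isCoprime_one_left, hx.dvd⟩
  | h₃ a p ha hp ih =>
    obtain ⟨c0, r, h1, h2⟩ := ih ha
    by_cases hd : p ∣ D
    · refine ⟨c0, r + 1, h1, ?_⟩
      rw [show c0 * D ^ (r + 1) = D * (c0 * D ^ r) by ring]
      exact mul_dvd_mul hd h2
    · refine ⟨p * c0, r, (hp.irreducible.coprime_iff_not_dvd.2 hd).mul_left h1, ?_⟩
      rw [mul_assoc]
      exact mul_dvd_mul_left p h2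

theorem crt_YE {ι : Type} [Fintype ι] [DecidableEq ι] (Q : ι → ℚ[X])
    (hQ : Pairwise fun i j => IsCoprime (Q i) (Q j)) (i : ι) :
    ∃ π : ℚ[X], ∀ j, Q j ∣ π - if i = j then 1 else 0 := by
  obtain ⟨a, b, h⟩ : IsCoprime (Q i) (∏ j ∈ Finset.univ.erase i, Q j) :=
    IsCoprime.prod_right fun j hj => hQ (Finset.ne_of_mem_erase hj).symm
  refine ⟨b * ∏ j ∈ Finset.univ.erase i, Q j, fun j => ?_⟩
  by_cases e : i = j
  · subst e
    rw [if_pos rfl]
    exact ⟨-a, by linear_combination h⟩
  · rw [if_neg e, sub_zero]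
    exact Dvd.dvd.mul_left (Finset.dvd_prod_of_mem Q
      (Finset.mem_erase.2 ⟨fun h => e h.symm, Finset.mem_univ _⟩)) b

theorem exists_crt {N : ℕ} (P : Fin (N + 1) → ℚ[X]) (hP : Pairwise fun i j => IsCoprime (P i) (P j))
    (c : ℚ[X]) (hc : c ≠ 0) : ∃ π : Fin (N + 1) → ℚ[X],
      (∀ i j, c ∣ π i * π j - if i = j then π i else 0) ∧ c ∣ ∑ i, π i - 1 ∧
      ∀ i j, P j ∣ π i - if i = j then 1 else 0 := by
  obtain ⟨c0, r, h1, h2⟩ := split_YE (∏ i, P i) c hc
  let u : Fin (N + 1) → ℚ[X] := fun i => if i = 0 then c0 else 1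
  let Q : Fin (N + 1) → ℚ[X] := fun i => u i * P i ^ (r + 1)
  have hu : ∀ i j, IsCoprime (u i) (P j) := fun i j => by
    by_cases e : i = 0
    · simp only [u, if_pos e]
      exact h1.of_isCoprime_of_dvd_right (Finset.dvd_prod_of_mem P (Finset.mem_univ j))
    · simp only [u, if_neg e]
      exact isCoprime_one_left
  have hQ : Pairwise fun i j => IsCoprime (Q i) (Q j) := fun i j hij => by
    have huu : IsCoprime (u i) (u j) := by
      by_cases e : i = 0
      · have e' : j ≠ 0 := fun h => hij (e.trans h.symm)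
        simp only [u, if_neg e']
        exact isCoprime_one_right
      · simp only [u, if_neg e]
        exact isCoprime_one_left
    exact (huu.mul_right (hu i j).pow_right).mul_left
      ((hu j i).symm.pow_left.mul_right (hP hij).pow)
  have hd : ∀ z : ℚ[X], (∀ k, Q k ∣ z) → c ∣ z := fun z hz => by
    refine h2.trans (dvd_trans ?_ (Finset.prod_dvd_of_coprime (t := Finset.univ)
      (fun i _ j _ hij => hQ hij) fun k _ => hz k))
    have e : ∏ k, Q k = c0 * (∏ i, P i) ^ r * ∏ i, P i := by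
      simp only [Q, u]
      rw [Finset.prod_mul_distrib, Finset.prod_ite_eq', if_pos (Finset.mem_univ _),
        Finset.prod_pow]
      ring
    rw [e]
    exact dvd_mul_right _ _
  choose π hπ using crt_YE Q hQ
  refine ⟨π, fun i j => hd _ fun k => ?_, hd _ fun k => ?_, fun i j => ?_⟩
  · obtain ⟨s, hs⟩ := hπ i k
    obtain ⟨t, ht⟩ := hπ j k
    by_cases e : i = j
    · subst e
      rw [if_pos rfl]
      by_cases e' : i = k
      · rw [if_pos e'] at hs
        exact ⟨π i * s, by linear_combination π i * hs⟩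
      · rw [if_neg e'] at hs
        exact ⟨s * (π i - 1), by linear_combination (π i - 1) * hs⟩
    · rw [if_neg e]
      by_cases e' : i = k
      · rw [if_neg fun h => e (e'.trans h.symm)] at ht
        exact ⟨π i * t, by linear_combination π i * ht⟩
      · rw [if_neg e'] at hs
        exact ⟨s * π j, by linear_combination π j * hs⟩
  · have e : ∑ i, π i - 1 = ∑ i, (π i - if i = k then 1 else 0) := by
      rw [Finset.sum_sub_distrib, Finset.sum_ite_eq', if_pos (Finset.mem_univ _)]
    rw [e]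
    exact Finset.dvd_sum fun i _ => hπ i k
  · exact dvd_trans (Dvd.dvd.mul_left (dvd_pow_self _ (Nat.succ_ne_zero r)) _) (hπ i j)

end Pool.Agent.P.MP_1bf4cb_ag
end
end

-- part Pool.Agent.P.MP_1bf4cb_ag.GE
section

set_option autoImplicit false
set_option linter.unusedSectionVars false
set_option linter.unusedVariables false

open Function Matrix
open scoped TensorProduct

noncomputable section

namespace Pool.Agent.P.MP_1bf4cb_ag

theorem loc_GE {D L : Type} [CommRing D] [IsNoetherianRing D] (s : D) [CommRing L] [Algebra D L]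
    [IsLocalization.Away s L] {Γ : Type 1} [AddCommGroup Γ] (ρ : AddF D Γ)
    (hv : Van ρ (Ideal.span {s})) (ρ' : AddF L Γ) (hi : ∀ y : L, y ∈ den (algebraMap D L) s)
    (hρ' : ∀ (N : Type) [AddCommGroup N] [Module L N] (M : Type) [AddCommGroup M]
      [Module D M] [Module.Finite D M] (h : M →ₛₗ[algebraMap D L] N), Injective h →
      (∀ y : N, ∃ (r : ℕ) (x : M), algebraMap D L s ^ r • y = h x) → ρ'.val N = ρ.val M)
    (K : Ideal D) : ρ'.val (L ⧸ K.map (algebraMap D L)) = ρ.val (D ⧸ K) := by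
  set KL := K.map (algebraMap D L) with hKL
  set K' := KL.comap (algebraMap D L) with hK'
  let h : (D ⧸ K') →ₛₗ[algebraMap D L] (L ⧸ KL) :=
    { toFun := Ideal.quotientMap KL (algebraMap D L) le_rfl
      map_add' := map_add _
      map_smul' := fun c x => by
        obtain ⟨x, rfl⟩ := Ideal.Quotient.mk_surjective x
        have e1 : c • Ideal.Quotient.mk K' x = Ideal.Quotient.mk K' (c * x) := rfl
        rw [e1, Ideal.quotientMap_mk, Ideal.quotientMap_mk, map_mul]
        rfl }
  have h1 : ρ'.val (L ⧸ KL) = ρ.val (D ⧸ K') := by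
    refine hρ' _ _ h Ideal.quotientMap_injective fun y => ?_
    obtain ⟨y, rfl⟩ := Ideal.Quotient.mk_surjective y
    obtain ⟨r, x, hx⟩ := hi y
    refine ⟨r, Ideal.Quotient.mk K' x, ?_⟩
    show Ideal.Quotient.mk KL (algebraMap D L s ^ r * y) =
      Ideal.quotientMap KL (algebraMap D L) le_rfl (Ideal.Quotient.mk K' x)
    rw [Ideal.quotientMap_mk, hx]
  have hle : K ≤ K' := Ideal.le_comap_map
  let f : (D ⧸ K) →ₗ[D] (D ⧸ K') := Submodule.factor hle
  have hf : Surjective f := Submodule.factor_surjective hle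
  have h2 : ρ.val (LinearMap.ker f) = 0 := by
    refine hv.supp fun x hx y => ?_
    obtain ⟨c, rfl⟩ := Ideal.mem_span_singleton'.1 hx
    obtain ⟨y, hy⟩ := y
    obtain ⟨y, rfl⟩ := Ideal.Quotient.mk_surjective y
    have h3 : y ∈ K' := Ideal.Quotient.eq_zero_iff_mem.1 hy
    obtain ⟨_, ⟨N, rfl⟩, h4⟩ := (IsLocalization.algebraMap_mem_map_algebraMap_iff
      (Submonoid.powers s) L K y).1 h3
    refine ⟨N, Subtype.ext ?_⟩
    show Ideal.Quotient.mk K ((c * s) ^ N * y) = 0
    rw [Ideal.Quotient.eq_zero_iff_mem, mul_pow, mul_assoc]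
    exact K.mul_mem_left _ h4
  rw [h1, ρ.add (LinearMap.ker f).subtype f (Submodule.injective_subtype _) hf
    (LinearMap.exact_subtype_ker_map f), h2, zero_add]

/-- ideals whose extension to `L` comes from a cellular ring `U` have classes in a finitely
generated subgroup -/
theorem key {R U L V : Type} [CommRing R] [IsNoetherianRing R] [Finite V] (a : V → R)
    (s : MvPolynomial V R) (hs : MvPolynomial.eval a s = 1) [CommRing L]
    [Algebra (MvPolynomial V R) L] [IsLocalization.Away s L] [CommRing U] [Algebra U L]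
    [Module.Flat U L] (hU : Cell U) : ∃ H : AddSubgroup (G0 R), H.FG ∧ ∀ I : Ideal R,
      (∃ J : Ideal U, J.map (algebraMap U L) =
        (I.map (MvPolynomial.C : R →+* MvPolynomial V R)).map (algebraMap _ L)) → cyc I ∈ H := by
  obtain ⟨χ, hχ⟩ := exists_cls R
  obtain ⟨ρ, hρ1, hρ2⟩ := spec_mv a (G0 R) χ
  have hv : Van ρ (Ideal.span {s}) := hρ1 s (by rw [hs, Ideal.span_singleton_one]; exact van_top χ)
  have hi : ∀ y : L, y ∈ den (algebraMap (MvPolynomial V R) L) s := fun y => by
    obtain ⟨⟨x, _, N, rfl⟩, h⟩ := IsLocalization.surj (Submonoid.powers s) y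
    exact ⟨N, x, by rw [← map_pow, mul_comm]; exact h⟩
  obtain ⟨ρ', hρ'⟩ := lat (algebraMap (MvPolynomial V R) L) {s}
    (fun f hf => by rw [Finset.mem_singleton.1 hf]; exact hi) ρ
    (hv.mono (by rw [Finset.coe_singleton]; exact le_sup_right))
  obtain ⟨ρ'', -, hρ''⟩ := exists_base (A := U) ρ'
  obtain ⟨G, hG⟩ := hU
  let H : AddSubgroup (G0 R) := AddSubgroup.closure {x | x ∈ G.map fun M => ρ''.val M.M}
  refine ⟨H, (AddSubgroup.fg_iff _).2 ⟨_, rfl, List.finite_toSet _⟩, ?_⟩
  rintro I ⟨J, hJ⟩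
  obtain ⟨τ, hτ⟩ := exists_comp ρ'' (QuotientAddGroup.mk' H)
  have h1 : τ.val (U ⧸ J) = 0 := hG _ τ (fun M hM => by
    rw [hτ]
    exact (QuotientAddGroup.eq_zero_iff _).2
      (AddSubgroup.subset_closure (List.mem_map.2 ⟨M, hM, rfl⟩))) _
    (fun x hx y => by rw [Ideal.mem_bot.1 hx, zero_smul])
  rw [hτ] at h1
  have h2 : ρ''.val (U ⧸ J) ∈ H := (QuotientAddGroup.eq_zero_iff _).1 h1
  rw [hρ'', hJ] at h2
  rw [← hχ, ← hρ2, ← loc_GE s ρ hv ρ' hi fun N _ _ M _ _ _ h h3 h4 =>
    hρ' N M h h3 fun f hf => by rw [Finset.mem_singleton.1 hf]; exact h4]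
  exact h2

theorem dep {Γ : Type 1} [AddCommGroup Γ] {H : AddSubgroup Γ} (hH : H.FG) {v : ℕ → Γ}
    {ι : ℕ → ℕ} (hι : Injective ι) (h : ∀ j, v (ι j) ∈ H) : ¬ LinearIndependent ℤ v := by
  intro hv
  have : Module.Finite ℤ H := Module.Finite.iff_addGroup_fg.2 ((AddGroup.fg_iff_addSubgroup_fg H).2 hH)
  have h1 : LinearIndependent ℤ fun j => (⟨v (ι j), h j⟩ : H) :=
    LinearIndependent.of_comp H.subtype.toIntLinearMap (hv.comp ι hι)
  exact Module.Finite.not_linearIndependent_of_infinite _ h1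

/-- an ideal generated by elements with unit denominators is extended -/
theorem map_comap_den {U L : Type} [CommRing U] [CommRing L] (ψ : U →+* L) (t : U)
    (ht : IsUnit (ψ t)) (J : Ideal L) (S : Set L) (hS : ∀ y ∈ S, y ∈ J ∧ y ∈ den ψ t)
    (hJ : J ≤ Ideal.span S) : (J.comap ψ).map ψ = J := by
  refine le_antisymm Ideal.map_comap_le (hJ.trans (Ideal.span_le.2 fun y hy => ?_))
  obtain ⟨h1, N, x, h2⟩ := hS y hy
  refine ((Ideal.unit_mul_mem_iff_mem _ (ht.pow N)).1 ?_)
  rw [h2]
  refine Ideal.mem_map_of_mem ψ (Ideal.mem_comap.2 ?_)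
  rw [← h2]
  exact J.mul_mem_left _ h1

end Pool.Agent.P.MP_1bf4cb_ag
end
end
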