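import Pool.Agent.K.MP_1bf4cb_ag.C0

-- part Pool.Agent.P.MP_1bf4cb_ag.X0
section

set_option autoImplicit false
set_option linter.unusedSectionVars false
set_option linter.unusedVariables false

open Function Matrix
open scoped TensorProduct

noncomputable section

namespace Pool.Agent.P.MP_1bf4cb_ag

/-- the numerical data -/
structure Dat (k : Type) [Field k] where
  n : ℕ
  m : ℕ
  d : ℕ
  q : ℕ
  E : Fin (d + 1) → Fin m → Fin m → Prop
  two : 2 ≤ q
  add : ∀ (C : Type) [CommRing C] [Algebra k C] (x y : C), (x + y) ^ q = x ^ q + y ^ q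

/-- square matrices -/
abbrev Mt (n : ℕ) (C : Type) := Matrix (Fin n) (Fin n) C

/-- the projection onto a coordinate subspace -/
def dg {n : ℕ} (C : Type) [CommRing C] (I : Finset (Fin n)) : Mt n C :=
  Matrix.diagonal fun a => if a ∈ I then 1 else 0

/-- all entries lie in `S` -/
def InS {n : ℕ} {C : Type} [CommRing C] (S : Subring C) (M : Mt n C) : Prop := ∀ a b, M a b ∈ S

/-- the level of a set of rows -/
def lev {n : ℕ} (w : Fin n → ℕ) (I : Finset (Fin n)) : ℕ := ∑ a ∈ I, 2 ^ w a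

/-- the minor with rows `I` and columns `j` -/
def mnr {n : ℕ} {C : Type} [CommRing C] (M : Mt n C) (I : Finset (Fin n)) (j : I → Fin n) : C :=
  (M.submatrix (Subtype.val : I → Fin n) j).det

variable {k : Type} [Field k] (𝒟 : Dat k)

/-- the `q`-th power map -/
def Dat.fr (C : Type) [CommRing C] [Algebra k C] : C →+* C where
  toFun x := x ^ 𝒟.q
  map_one' := one_pow _
  map_mul' x y := mul_pow x y _
  map_zero' := zero_pow (by have := 𝒟.two; omega)
  map_add' := 𝒟.add C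

/-- points of the universal family -/
@[ext] structure Pt (C : Type) where
  e : Ix 𝒟.d 𝒟.m → Mt 𝒟.n C
  γ : Fin (𝒟.d + 1) → Mt 𝒟.n C

variable {𝒟} {C C' : Type} [CommRing C] [CommRing C']

/-- image of a point under a homomorphism -/
def Pt.map (x : Pt 𝒟 C) (φ : C → C') : Pt 𝒟 C' := ⟨fun v => (x.e v).map φ, fun c => (x.γ c).map φ⟩

variable (𝒟)

/-- left factor of an edge equation -/
def LA (c : Fin (𝒟.d + 1)) (M : Mt 𝒟.n C) : Mt 𝒟.n C := if c = Fin.last 𝒟.d then Mᵀ else 1 - M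

/-- right factor of an edge equation -/
def RB (c : Fin (𝒟.d + 1)) (M : Mt 𝒟.n C) : Mt 𝒟.n C :=
  if c = Fin.last 𝒟.d then M.map (· ^ 𝒟.q) else M

/-- left factor of the action -/
def LG (c : Fin (𝒟.d + 1)) (g h : Mt 𝒟.n C) : Mt 𝒟.n C := if c = Fin.last 𝒟.d then hᵀ else g

variable {𝒟}

/-- the equations of the universal family -/
structure Sat0 (x : Pt 𝒟 C) : Prop where
  chain : ∀ s c i j, i ≤ j → x.e (s, c, j) * x.e (s, c, i) = x.e (s, c, i)
  edge : ∀ s c i j, 𝒟.E c i j → LA 𝒟 c (x.e (s, c, i)) * x.γ c * RB 𝒟 c (x.e (s, c + 1, j)) = 0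

/-- the image of `M` is the coordinate subspace `I` -/
def Std {n : ℕ} (I : Finset (Fin n)) (M : Mt n C) : Prop := dg C I * M = M ∧ M * dg C I = dg C I

/-- assignments of coordinate subspaces -/
abbrev Asg (𝒟 : Dat k) := Ix 𝒟.d 𝒟.m → Option (Finset (Fin 𝒟.n))

/-- the equations with some subspaces fixed -/
structure Sat (τ : Asg 𝒟) (x : Pt 𝒟 C) : Prop where
  base : Sat0 x
  std : ∀ v I, τ v = some I → Std I (x.e v)

/-- the equations of the fibre over the standard form -/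
structure Sat1 (x : Pt 𝒟 C) : Prop where
  base : Sat0 x
  one : ∀ c, x.γ c = 1

/-- change of frames -/
def act (g h : Fin (𝒟.d + 1) → Mt 𝒟.n C) (x : Pt 𝒟 C) : Pt 𝒟 C :=
  ⟨fun v => g v.2.1 * x.e v * h v.2.1,
    fun c => LG 𝒟 c (g c) (h c) * x.γ c * RB 𝒟 c (h (c + 1))⟩

/-- `g` and `h` are inverse to each other -/
def Inv {n : ℕ} {ι : Type} (g h : ι → Mt n C) : Prop := ∀ c, g c * h c = 1 ∧ h c * g c = 1

/-- the pair `(R, x)` represents the condition `S` -/
structure Rep (S : ∀ (C : Type) [CommRing C], Pt 𝒟 C → Prop) (R : Type) [CommRing R]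
    [Algebra k R] (x : Pt 𝒟 R) : Prop where
  sat : S R x
  gen : ∀ T : Subring R, (∀ c : k, algebraMap k R c ∈ T) → (∀ v, InS T (x.e v)) →
    (∀ c, InS T (x.γ c)) → T = ⊤
  univ : ∀ (C : Type) [CommRing C] [Algebra k C] (y : Pt 𝒟 C), S C y →
    ∃ φ : R →ₐ[k] C, x.map φ = y
  ft : Algebra.FiniteType k R

/-- representing `Sat τ` -/
abbrev RepT (τ : Asg 𝒟) (R : Type) [CommRing R] [Algebra k R] (x : Pt 𝒟 R) : Prop :=
  Rep (fun C _ y => Sat τ y) R x

/-- representing `Sat1` -/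
abbrev Rep1 (R : Type) [CommRing R] [Algebra k R] (x : Pt 𝒟 R) : Prop :=
  Rep (fun C _ y => Sat1 y) R x

/-- every ring representing `Sat τ` is cellular -/
def CellT (τ : Asg 𝒟) : Prop :=
  ∀ (R : Type) [CommRing R] [Algebra k R] (x : Pt 𝒟 R), RepT τ R x → Cell R

/-- the allowed places for an elimination matrix -/
def Alw (τ : Asg 𝒟) (c₀ : Fin (𝒟.d + 1)) (w : Fin 𝒟.n → ℕ) (I : Finset (Fin 𝒟.n))
    (a' a : Fin 𝒟.n) : Prop :=
  a ∈ I ∧ a' ∉ I ∧ w a' < w a ∧ ∀ v J, v.2.1 = c₀ → τ v = some J → a ∈ J → a' ∈ J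

/-- the family that is `u` at the colour `c₀` and `1` elsewhere -/
def at1 (c₀ : Fin (𝒟.d + 1)) (u : Mt 𝒟.n C) : Fin (𝒟.d + 1) → Mt 𝒟.n C :=
  fun c => if c = c₀ then u else 1

/-- generic frames over `R` -/
def gfr (R : Type) [CommRing R] (c : Fin (𝒟.d + 1)) :
    Mt 𝒟.n (MvPolynomial (Fin (𝒟.d + 1) × Fin 𝒟.n × Fin 𝒟.n) R) :=
  Matrix.of fun a b => MvPolynomial.X (c, a, b)

end Pool.Agent.P.MP_1bf4cb_ag
end
end

-- part Pool.Agent.P.MP_1bf4cb_ag.XA
section

set_option autoImplicit false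
set_option linter.unusedSectionVars false
set_option linter.unusedVariables false

open Function Matrix
open scoped TensorProduct

noncomputable section

namespace Pool.Agent.P.MP_1bf4cb_ag

variable {k : Type} [Field k] {𝒟 : Dat k} {C C' : Type} [CommRing C] [CommRing C']
  {g h : Fin (𝒟.d + 1) → Mt 𝒟.n C} {x : Pt 𝒟 C} {τ : Asg 𝒟}

theorem RB_mul [Algebra k C] (c : Fin (𝒟.d + 1)) (M N : Mt 𝒟.n C) :
    RB 𝒟 c (M * N) = RB 𝒟 c M * RB 𝒟 c N := by
  unfold RB
  split_ifs
  · exact Matrix.map_mul (L := M) (M := N) (f := 𝒟.fr C)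
  · rfl

theorem RB_one (c : Fin (𝒟.d + 1)) : RB 𝒟 c (1 : Mt 𝒟.n C) = 1 := by
  have hq : 𝒟.q ≠ 0 := by have := 𝒟.two; omega
  unfold RB
  split_ifs
  · exact Matrix.map_one _ (zero_pow hq) (one_pow _)
  · rfl

theorem RB_dg (c : Fin (𝒟.d + 1)) (I : Finset (Fin 𝒟.n)) : RB 𝒟 c (dg C I) = dg C I := by
  have hq : 𝒟.q ≠ 0 := by have := 𝒟.two; omega
  unfold RB
  split_ifs
  · ext a b
    simp only [dg, Matrix.map_apply, Matrix.diagonal_apply]
    split_ifs <;> simp [hq]
  · rfl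

theorem dg_map {n : ℕ} (φ : C →+* C') (I : Finset (Fin n)) : (dg C I).map φ = dg C' I := by
  ext a b
  simp only [dg, Matrix.map_apply, Matrix.diagonal_apply]
  split_ifs <;> simp

theorem dg_mul_apply {n : ℕ} (I : Finset (Fin n)) (M : Mt n C) (a b : Fin n) :
    (dg C I * M) a b = if a ∈ I then M a b else 0 := by
  simp only [dg, Matrix.diagonal_mul]
  split_ifs <;> simp

theorem mul_dg_apply {n : ℕ} (I : Finset (Fin n)) (M : Mt n C) (a b : Fin n) :
    (M * dg C I) a b = if b ∈ I then M a b else 0 := by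
  simp only [dg, Matrix.mul_diagonal]
  split_ifs <;> simp

theorem InS.mul {n : ℕ} {S : Subring C} {M N : Mt n C} (hM : InS S M) (hN : InS S N) :
    InS S (M * N) := by
  intro a b
  rw [Matrix.mul_apply]
  exact S.sum_mem fun j _ => S.mul_mem (hM a j) (hN j b)

theorem InS.one {n : ℕ} (S : Subring C) : InS S (1 : Mt n C) := by
  intro a b
  rw [Matrix.one_apply]
  split_ifs
  · exact S.one_mem
  · exact S.zero_mem

theorem InS.add {n : ℕ} {S : Subring C} {M N : Mt n C} (hM : InS S M) (hN : InS S N) :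
    InS S (M + N) := by
  exact fun a b => S.add_mem (hM a b) (hN a b)

theorem InS.sub {n : ℕ} {S : Subring C} {M N : Mt n C} (hM : InS S M) (hN : InS S N) :
    InS S (M - N) := by
  exact fun a b => S.sub_mem (hM a b) (hN a b)

theorem InS.tr {n : ℕ} {S : Subring C} {M : Mt n C} (hM : InS S M) : InS S Mᵀ := by
  exact fun a b => hM b a

theorem InS.pow {n : ℕ} {S : Subring C} {M : Mt n C} (hM : InS S M) (r : ℕ) :
    InS S (M.map (· ^ r)) := by
  exact fun a b => S.pow_mem (hM a b) r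

theorem det_mem_XA {n : ℕ} {S : Subring C} {M : Mt n C} (hM : InS S M) : M.det ∈ S := by
  rw [Matrix.det_apply']
  exact S.sum_mem fun σ _ => S.mul_mem (intCast_mem S _) (S.prod_mem fun i _ => hM _ _)

theorem InS.adj {n : ℕ} {S : Subring C} {M : Mt n C} (hM : InS S M) : InS S M.adjugate := by
  intro a b
  rw [Matrix.adjugate_apply]
  refine det_mem_XA fun i j => ?_
  rw [Matrix.updateRow_apply]
  split_ifs
  · rw [Pi.single_apply]
    split_ifs
    · exact S.one_mem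
    · exact S.zero_mem
  · exact hM i j

theorem InS.det {n : ℕ} {S : Subring C} {M : Mt n C} (hM : InS S M) : M.det ∈ S := by
  exact det_mem_XA hM

end Pool.Agent.P.MP_1bf4cb_ag
end
end

-- part Pool.Agent.P.MP_1bf4cb_ag.YB
section

set_option autoImplicit false
set_option linter.unusedSectionVars false
set_option linter.unusedVariables false

open Function Matrix
open scoped TensorProduct

noncomputable section

namespace Pool.Agent.P.MP_1bf4cb_ag

theorem lift_gen_YB {A A' : Type} [Ring A] [Ring A'] (π : A →+* A') (hπ : Surjective π)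
    (hk : ∀ x y, π x = 0 → π y = 0 → x * y = 0) (m : ℕ) :
    ∀ (a : Fin m → A'), (∀ i j, i ≤ j → a j * a i = a i) → ∀ t : A, t * t = t →
      (∀ i, π t * a i = a i) →
      ∃ e : Fin m → A, (∀ i j, i ≤ j → e j * e i = e i) ∧ (∀ i, π (e i) = a i) ∧
        ∀ i, t * e i = e i := by
  induction m with
  | zero => exact fun a _ t _ _ => ⟨Fin.elim0, fun i => i.elim0, fun i => i.elim0, fun i => i.elim0⟩
  | succ m ih =>
    intro a ha t ht hta
    obtain ⟨b, hb⟩ := hπ (a (Fin.last m))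
    have hid : a (Fin.last m) * a (Fin.last m) = a (Fin.last m) := ha _ _ le_rfl
    obtain ⟨c, hc⟩ : ∃ c, c = t * b := ⟨_, rfl⟩
    have hπc : π c = a (Fin.last m) := by rw [hc, map_mul, hb, hta]
    have htc : t * c = c := by rw [hc, ← mul_assoc, ht]
    have hn : π (c * c - c) = 0 := by rw [map_sub, map_mul, hπc, hid, sub_self]
    have hnn := hk _ _ hn hn
    obtain ⟨u, hu⟩ : ∃ u, u = c * c + c * c + c * c - c * c * c - c * c * c := ⟨_, rfl⟩
    have huu : u * u = u := by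
      have : u * u - u = (c * c - c) * (c * c - c) *
          ((c * c - c) + (c * c - c) + (c * c - c) + (c * c - c) - 1 - 1 - 1) := by
        rw [hu]; noncomm_ring
      rw [hnn, zero_mul] at this
      exact sub_eq_zero.mp this
    have hπu : π u = a (Fin.last m) := by
      rw [hu]
      simp only [map_sub, map_add, map_mul, hπc, hid]
      abel
    have htu : t * u = u := by
      rw [hu]
      simp only [mul_sub, mul_add, ← mul_assoc, htc]
    obtain ⟨e, he1, he2, he3⟩ := ih (fun i => a i.castSucc)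
      (fun i j hij => ha _ _ (Fin.castSucc_le_castSucc_iff.mpr hij)) u huu
      (fun i => by rw [hπu]; exact ha _ _ (Fin.le_last _))
    refine ⟨Fin.snoc (α := fun _ => A) e u, ?_, ?_, ?_⟩
    · intro i j
      refine Fin.lastCases ?_ (fun i => ?_) i <;> refine Fin.lastCases ?_ (fun j => ?_) j <;>
        intro hij
      · simpa using huu
      · exact absurd hij (not_le.mpr (Fin.castSucc_lt_last j))
      · simpa using he3 i
      · simpa using he1 i j (Fin.castSucc_le_castSucc_iff.mp hij)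
    · intro i
      refine Fin.lastCases ?_ (fun i => ?_) i
      · simpa using hπu
      · simpa using he2 i
    · intro i
      refine Fin.lastCases ?_ (fun i => ?_) i
      · simpa using htu
      · have : t * e i = e i := by rw [← he3 i, ← mul_assoc, htu]
        simpa using this

theorem comm_gen_YB {A : Type} [Ring A] (m : ℕ) :
    ∀ (e : Fin m → A), (∀ i j, i ≤ j → e j * e i = e i) → ∀ u : A, u * u = u →
      (∀ i, u * e i = e i) →
      ∃ f : Fin m → A, (∀ i j, i ≤ j → f j * f i = f i ∧ f i * f j = f i) ∧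
        (∀ i, f i * e i = e i ∧ e i * f i = f i) ∧ ∀ i, u * f i = f i ∧ f i * u = f i := by
  induction m with
  | zero => exact fun e _ u _ _ => ⟨Fin.elim0, fun i => i.elim0, fun i => i.elim0, fun i => i.elim0⟩
  | succ m ih =>
    intro e he u hu hue
    have hid : e (Fin.last m) * e (Fin.last m) = e (Fin.last m) := he _ _ le_rfl
    obtain ⟨v, hv⟩ : ∃ v, v = e (Fin.last m) * u := ⟨_, rfl⟩
    have hve : ∀ i, v * e i = e i := fun i => by
      rw [hv, mul_assoc, hue, he _ _ (Fin.le_last _)]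
    have hev : e (Fin.last m) * v = v := by rw [hv, ← mul_assoc, hid]
    have huv : u * v = v := by rw [hv, ← mul_assoc, hue]
    have hvu : v * u = v := by rw [hv, mul_assoc, hu]
    have hvv : v * v = v := by
      calc v * v = v * e (Fin.last m) * u := by rw [mul_assoc, ← hv]
        _ = v := by rw [hve, ← hv]
    obtain ⟨f, hf1, hf2, hf3⟩ := ih (fun i => e i.castSucc)
      (fun i j hij => he _ _ (Fin.castSucc_le_castSucc_iff.mpr hij)) v hvv (fun i => hve _)
    refine ⟨Fin.snoc (α := fun _ => A) f v, ?_, ?_, ?_⟩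
    · intro i j
      refine Fin.lastCases ?_ (fun i => ?_) i <;> refine Fin.lastCases ?_ (fun j => ?_) j <;>
        intro hij
      · simpa using hvv
      · exact absurd hij (not_le.mpr (Fin.castSucc_lt_last j))
      · simpa using hf3 i
      · simpa using hf1 i j (Fin.castSucc_le_castSucc_iff.mp hij)
    · intro i
      refine Fin.lastCases ?_ (fun i => ?_) i
      · simpa using ⟨hve _, hev⟩
      · simpa using hf2 i
    · intro i
      refine Fin.lastCases ?_ (fun i => ?_) i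
      · simpa using ⟨huv, hvu⟩
      · have h1 : u * f i = f i := by rw [← (hf3 i).1, ← mul_assoc, huv]
        have h2 : f i * u = f i := by rw [← (hf3 i).2, mul_assoc, hvu]
        simpa using ⟨h1, h2⟩

/-- chains of idempotents lift along square-zero extensions -/
theorem lift_chain {B : Type} [CommRing B] (I : Ideal B) (hI : I ^ 2 = ⊥) {n m : ℕ}
    (a : Fin m → Mt n (B ⧸ I)) (ha : ∀ i j, i ≤ j → a j * a i = a i) :
    ∃ e : Fin m → Mt n B, (∀ i j, i ≤ j → e j * e i = e i) ∧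
      ∀ i, (e i).map (Ideal.Quotient.mk I) = a i := by
  have hs : Surjective ((Ideal.Quotient.mk I).mapMatrix : Mt n B →+* Mt n (B ⧸ I)) := by
    intro M
    choose N hN using fun p q => Ideal.Quotient.mk_surjective (M p q)
    exact ⟨Matrix.of N, by ext p q; exact hN p q⟩
  have hk : ∀ x y : Mt n B, (Ideal.Quotient.mk I).mapMatrix x = 0 →
      (Ideal.Quotient.mk I).mapMatrix y = 0 → x * y = 0 := by
    intro x y hx hy
    ext p q
    rw [Matrix.mul_apply, Matrix.zero_apply]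
    refine Finset.sum_eq_zero fun r _ => ?_
    have h1 : x p r ∈ I := Ideal.Quotient.eq_zero_iff_mem.mp (congrFun (congrFun hx p) r)
    have h2 : y r q ∈ I := Ideal.Quotient.eq_zero_iff_mem.mp (congrFun (congrFun hy r) q)
    have h3 : x p r * y r q ∈ I ^ 2 := by rw [pow_two]; exact Ideal.mul_mem_mul h1 h2
    rwa [hI, Ideal.mem_bot] at h3
  obtain ⟨e, h1, h2, -⟩ := lift_gen_YB _ hs hk m a ha 1 (mul_one 1)
    (fun i => by rw [map_one, one_mul])
  exact ⟨e, h1, h2⟩

/-- a commuting chain with the same images -/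
theorem comm_chain {A : Type} [Ring A] {m : ℕ} (e : Fin m → A)
    (he : ∀ i j, i ≤ j → e j * e i = e i) : ∃ f : Fin m → A,
      (∀ i j, i ≤ j → f j * f i = f i ∧ f i * f j = f i) ∧ ∀ i, f i * e i = e i ∧ e i * f i = f i := by
  obtain ⟨f, h1, h2, -⟩ := comm_gen_YB m e he 1 (mul_one 1) (fun i => one_mul _)
  exact ⟨f, h1, h2⟩

/-- commuting projections -/
theorem exists_gamma {A A' ι : Type} [Ring A] [Ring A'] [Finite ι] (π : A →+* A') (a b : ι → A)
    (ha : ∀ i j, a i * a j = a j * a i) (hb : ∀ i j, b i * b j = b j * b i)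
    (ha' : ∀ i, a i * a i = a i) (hb' : ∀ i, b i * b i = b i) (h : ∀ i, π (a i * b i) = 0) :
    ∃ γ : A, π γ = 1 ∧ ∀ i, a i * γ * b i = 0 := by
  classical
  have key : ∀ s : Finset ι, ∃ γ : A, π γ = 1 ∧ ∀ i ∈ s, a i * γ * b i = 0 := by
    intro s
    induction s using Finset.induction_on with
    | empty => exact ⟨1, map_one π, fun i hi => absurd hi (Finset.notMem_empty i)⟩
    | insert j s hj ih =>
      obtain ⟨γ, h1, h2⟩ := ih
      refine ⟨γ - a j * γ * b j, ?_, fun i hi => ?_⟩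
      · rw [map_sub, map_mul, map_mul, h1, mul_one, ← map_mul, h, sub_zero]
      · have e1 : a i * (γ - a j * γ * b j) * b i =
            a i * γ * b i - (a i * a j) * γ * (b j * b i) := by noncomm_ring
        rw [e1]
        rcases Finset.mem_insert.mp hi with rfl | hi
        · rw [ha', hb', sub_self]
        · have e2 : (a j * a i) * γ * (b i * b j) = a j * (a i * γ * b i) * b j := by noncomm_ring
          rw [ha i j, hb j i, e2, h2 i hi, mul_zero, zero_mul, sub_zero]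
  have := Fintype.ofFinite ι
  obtain ⟨γ, h1, h2⟩ := key Finset.univ
  exact ⟨γ, h1, fun i => h2 i (Finset.mem_univ i)⟩

end Pool.Agent.P.MP_1bf4cb_ag
end
end

-- part Pool.Agent.P.MP_1bf4cb_ag.XA2
section

set_option autoImplicit false
set_option linter.unusedSectionVars false
set_option linter.unusedVariables false

open Function Matrix
open scoped TensorProduct

noncomputable section

namespace Pool.Agent.P.MP_1bf4cb_ag

variable {k : Type} [Field k] {𝒟 : Dat k} {C C' : Type} [CommRing C] [CommRing C']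
  {g h : Fin (𝒟.d + 1) → Mt 𝒟.n C} {x : Pt 𝒟 C} {τ : Asg 𝒟}

theorem LA_LG_XA2 (c : Fin (𝒟.d + 1)) (a b e : Mt 𝒟.n C) (hba : b * a = 1) :
    LA 𝒟 c (a * e * b) * LG 𝒟 c a b = LG 𝒟 c a b * LA 𝒟 c e := by
  unfold LA LG
  split_ifs with hc
  · rw [← Matrix.transpose_mul, ← Matrix.transpose_mul]
    congr 1
    rw [← Matrix.mul_assoc, ← Matrix.mul_assoc, hba, Matrix.one_mul]
  · rw [Matrix.sub_mul, Matrix.mul_sub, Matrix.one_mul, Matrix.mul_one, Matrix.mul_assoc (a * e), hba,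
      Matrix.mul_one]

theorem LG_LG_XA2 (c : Fin (𝒟.d + 1)) (a b : Mt 𝒟.n C) (hba : b * a = 1) :
    LG 𝒟 c b a * LG 𝒟 c a b = 1 := by
  unfold LG
  split_ifs with hc
  · rw [← Matrix.transpose_mul, hba, Matrix.transpose_one]
  · exact hba

theorem LG_map_XA2 (φ : C →+* C') (c : Fin (𝒟.d + 1)) (a b : Mt 𝒟.n C) :
    (LG 𝒟 c a b).map φ = LG 𝒟 c (a.map φ) (b.map φ) := by
  unfold LG
  split_ifs with hc
  · rfl
  · rfl

theorem RB_map_XA2 (φ : C →+* C') (c : Fin (𝒟.d + 1)) (a : Mt 𝒟.n C) :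
    (RB 𝒟 c a).map φ = RB 𝒟 c (a.map φ) := by
  unfold RB
  split_ifs with hc
  · ext i j
    simp only [Matrix.map_apply, map_pow]
  · rfl

theorem one_map_XA2 {n : ℕ} (φ : C →+* C') : (1 : Mt n C).map φ = 1 :=
  Matrix.map_one _ (map_zero φ) (map_one φ)

theorem LA_map_XA2 (φ : C →+* C') (c : Fin (𝒟.d + 1)) (a : Mt 𝒟.n C) :
    (LA 𝒟 c a).map φ = LA 𝒟 c (a.map φ) := by
  unfold LA
  split_ifs with hc
  · rfl
  · rw [Matrix.map_sub _ (map_sub φ), one_map_XA2]

theorem sat0_act [Algebra k C] (hx : Sat0 x) (hi : Inv g h) : Sat0 (act g h x) := by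
  refine ⟨fun s c i j hij => ?_, fun s c i j hE => ?_⟩
  · show g c * x.e (s, c, j) * h c * (g c * x.e (s, c, i) * h c) = g c * x.e (s, c, i) * h c
    have h1 := hx.chain s c i j hij
    calc g c * x.e (s, c, j) * h c * (g c * x.e (s, c, i) * h c)
        = g c * (x.e (s, c, j) * (h c * g c) * x.e (s, c, i)) * h c := by
          simp only [Matrix.mul_assoc]
      _ = g c * x.e (s, c, i) * h c := by rw [(hi c).2, Matrix.mul_one, h1]
  · show LA 𝒟 c (g c * x.e (s, c, i) * h c) *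
        (LG 𝒟 c (g c) (h c) * x.γ c * RB 𝒟 c (h (c + 1))) *
        RB 𝒟 c (g (c + 1) * x.e (s, c + 1, j) * h (c + 1)) = 0
    have h1 := hx.edge s c i j hE
    have h2 : RB 𝒟 c (h (c + 1)) * RB 𝒟 c (g (c + 1) * x.e (s, c + 1, j) * h (c + 1)) =
        RB 𝒟 c (x.e (s, c + 1, j)) * RB 𝒟 c (h (c + 1)) := by
      rw [← RB_mul, ← RB_mul, ← Matrix.mul_assoc, ← Matrix.mul_assoc, (hi (c + 1)).2,
        Matrix.one_mul]
    calc LA 𝒟 c (g c * x.e (s, c, i) * h c) *
        (LG 𝒟 c (g c) (h c) * x.γ c * RB 𝒟 c (h (c + 1))) *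
        RB 𝒟 c (g (c + 1) * x.e (s, c + 1, j) * h (c + 1))
        = (LA 𝒟 c (g c * x.e (s, c, i) * h c) * LG 𝒟 c (g c) (h c)) * x.γ c *
          (RB 𝒟 c (h (c + 1)) * RB 𝒟 c (g (c + 1) * x.e (s, c + 1, j) * h (c + 1))) := by
          simp only [Matrix.mul_assoc]
      _ = LG 𝒟 c (g c) (h c) *
          (LA 𝒟 c (x.e (s, c, i)) * x.γ c * RB 𝒟 c (x.e (s, c + 1, j))) * RB 𝒟 c (h (c + 1)) := by
          rw [LA_LG_XA2 c _ _ _ (hi c).2, h2]
          simp only [Matrix.mul_assoc]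
      _ = 0 := by rw [h1, Matrix.mul_zero, Matrix.zero_mul]

theorem act_act [Algebra k C] (hi : Inv g h) (x : Pt 𝒟 C) : act h g (act g h x) = x := by
  refine Pt.ext (funext fun v => ?_) (funext fun c => ?_)
  · show h v.2.1 * (g v.2.1 * x.e v * h v.2.1) * g v.2.1 = x.e v
    calc h v.2.1 * (g v.2.1 * x.e v * h v.2.1) * g v.2.1
        = (h v.2.1 * g v.2.1) * x.e v * (h v.2.1 * g v.2.1) := by simp only [Matrix.mul_assoc]
      _ = x.e v := by rw [(hi _).2, Matrix.one_mul, Matrix.mul_one]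
  · show LG 𝒟 c (h c) (g c) * (LG 𝒟 c (g c) (h c) * x.γ c * RB 𝒟 c (h (c + 1))) *
        RB 𝒟 c (g (c + 1)) = x.γ c
    calc LG 𝒟 c (h c) (g c) * (LG 𝒟 c (g c) (h c) * x.γ c * RB 𝒟 c (h (c + 1))) *
        RB 𝒟 c (g (c + 1))
        = (LG 𝒟 c (h c) (g c) * LG 𝒟 c (g c) (h c)) * x.γ c *
          (RB 𝒟 c (h (c + 1)) * RB 𝒟 c (g (c + 1))) := by simp only [Matrix.mul_assoc]
      _ = x.γ c := by
          rw [LG_LG_XA2 c _ _ (hi c).2, ← RB_mul, (hi (c + 1)).2, RB_one, Matrix.one_mul,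
            Matrix.mul_one]

theorem act_map (φ : C →+* C') (g h : Fin (𝒟.d + 1) → Mt 𝒟.n C) (x : Pt 𝒟 C) :
    (act g h x).map φ = act (fun c => (g c).map φ) (fun c => (h c).map φ) (x.map φ) := by
  refine Pt.ext (funext fun v => ?_) (funext fun c => ?_)
  · show (g v.2.1 * x.e v * h v.2.1).map φ =
      (g v.2.1).map φ * (x.e v).map φ * (h v.2.1).map φ
    rw [Matrix.map_mul, Matrix.map_mul]
  · show (LG 𝒟 c (g c) (h c) * x.γ c * RB 𝒟 c (h (c + 1))).map φ =
      LG 𝒟 c ((g c).map φ) ((h c).map φ) * (x.γ c).map φ * RB 𝒟 c ((h (c + 1)).map φ)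
    rw [Matrix.map_mul, Matrix.map_mul, LG_map_XA2, RB_map_XA2]

theorem Sat0.map (hx : Sat0 x) (φ : C →+* C') : Sat0 (x.map φ) := by
  refine ⟨fun s c i j hij => ?_, fun s c i j hE => ?_⟩
  · show (x.e (s, c, j)).map φ * (x.e (s, c, i)).map φ = (x.e (s, c, i)).map φ
    rw [← Matrix.map_mul, hx.chain s c i j hij]
  · show LA 𝒟 c ((x.e (s, c, i)).map φ) * (x.γ c).map φ * RB 𝒟 c ((x.e (s, c + 1, j)).map φ) = 0
    rw [← LA_map_XA2, ← RB_map_XA2, ← Matrix.map_mul, ← Matrix.map_mul, hx.edge s c i j hE]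
    exact Matrix.map_zero _ (map_zero φ)

theorem Sat.map (hx : Sat τ x) (φ : C →+* C') : Sat τ (x.map φ) := by
  refine ⟨hx.base.map φ, fun v I hv => ?_⟩
  obtain ⟨h1, h2⟩ := hx.std v I hv
  refine ⟨?_, ?_⟩
  · show dg C' I * (x.e v).map φ = (x.e v).map φ
    rw [← dg_map φ I, ← Matrix.map_mul, h1]
  · show (x.e v).map φ * dg C' I = dg C' I
    rw [← dg_map φ I, ← Matrix.map_mul, h2]

theorem Sat1.map (hx : Sat1 x) (φ : C →+* C') : Sat1 (x.map φ) := by
  refine ⟨hx.base.map φ, fun c => ?_⟩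
  show (x.γ c).map φ = 1
  rw [hx.one c, one_map_XA2]

theorem Pt.map_map {C'' : Type} (x : Pt 𝒟 C) (φ : C → C') (φ' : C' → C'') :
    (x.map φ).map φ' = x.map (φ' ∘ φ) := by
  rfl

theorem act_InS {S : Subring C} (hg : ∀ c, InS S (g c)) (hh : ∀ c, InS S (h c))
    (he : ∀ v, InS S (x.e v)) (hγ : ∀ c, InS S (x.γ c)) :
    (∀ v, InS S ((act g h x).e v)) ∧ ∀ c, InS S ((act g h x).γ c) := by
  refine ⟨fun v => ((hg _).mul (he v)).mul (hh _), fun c => ?_⟩
  show InS S (LG 𝒟 c (g c) (h c) * x.γ c * RB 𝒟 c (h (c + 1)))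
  refine (InS.mul ?_ (hγ c)).mul ?_
  · unfold LG
    split_ifs
    · exact (hh c).tr
    · exact hg c
  · unfold RB
    split_ifs
    · exact (hh _).pow _
    · exact hh _

theorem sq_zero_XA2 {c₁ : Fin (𝒟.d + 1)} {w : Fin 𝒟.n → ℕ} {I : Finset (Fin 𝒟.n)}
    {z : Mt 𝒟.n C} (hz : ∀ a' a, ¬ Alw τ c₁ w I a' a → z a' a = 0) : z * z = 0 := by
  ext a b
  rw [Matrix.mul_apply, Matrix.zero_apply]
  refine Finset.sum_eq_zero fun t _ => ?_
  by_cases ht : t ∈ I
  · rw [hz t b (fun hA => hA.2.1 ht), mul_zero]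
  · rw [hz a t (fun hA => ht hA.1), zero_mul]

theorem pm_XA2 {n : ℕ} {z : Mt n C} (hz : z * z = 0) :
    (1 + z) * (1 - z) = 1 ∧ (1 - z) * (1 + z) = 1 := by
  constructor
  · rw [Matrix.add_mul, Matrix.mul_sub, Matrix.mul_sub, hz]
    simp
  · rw [Matrix.sub_mul, Matrix.mul_add, Matrix.mul_add, hz]
    simp

theorem dg_dg_XA2 {n : ℕ} (J : Finset (Fin n)) : dg C J * dg C J = dg C J := by
  ext a b
  rw [dg_mul_apply]
  split_ifs with ha
  · rfl
  · unfold dg
    rw [Matrix.diagonal_apply]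
    split_ifs <;> simp_all

theorem std_conj_XA2 {n : ℕ} {J : Finset (Fin n)} {e u u' : Mt n C} (he : Std J e)
    (hu : dg C J * (u * dg C J) = u * dg C J) (hu' : dg C J * (u' * dg C J) = u' * dg C J)
    (huu : u * u' = 1) : Std J (u * e * u') := by
  obtain ⟨h1, h2⟩ := he
  constructor
  · have h3 : u * e = u * dg C J * e := by rw [Matrix.mul_assoc, h1]
    rw [h3, ← Matrix.mul_assoc, ← Matrix.mul_assoc, hu]
  · calc u * e * u' * dg C J = u * (e * dg C J) * (u' * dg C J) := by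
          simp only [Matrix.mul_assoc]
          rw [hu']
      _ = u * (dg C J * (u' * dg C J)) := by rw [h2, Matrix.mul_assoc]
      _ = dg C J := by rw [hu', ← Matrix.mul_assoc, huu, Matrix.one_mul]

theorem zD_XA2 {c₀ : Fin (𝒟.d + 1)} {w : Fin 𝒟.n → ℕ} {I : Finset (Fin 𝒟.n)}
    {z : Mt 𝒟.n C} (hz : ∀ a' a, ¬ Alw τ c₀ w I a' a → z a' a = 0) {v : Ix 𝒟.d 𝒟.m}
    {J : Finset (Fin 𝒟.n)} (hv : v.2.1 = c₀) (hJ : τ v = some J) :
    dg C J * (z * dg C J) = z * dg C J := by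
  ext a b
  rw [dg_mul_apply, mul_dg_apply]
  by_cases ha : a ∈ J
  · rw [if_pos ha]
  · rw [if_neg ha]
    split_ifs with hb
    · exact (hz a b fun hA => ha (hA.2.2.2 v J hv hJ hb)).symm
    · rfl

/-- an elimination matrix has square zero -/
theorem inv_at1 {c₀ c₁ : Fin (𝒟.d + 1)} {w : Fin 𝒟.n → ℕ} {I : Finset (Fin 𝒟.n)} {z : Mt 𝒟.n C}
    (hz : ∀ a' a, ¬ Alw τ c₁ w I a' a → z a' a = 0) :
    Inv (at1 c₀ (1 + z)) (at1 c₀ (1 - z)) ∧ Inv (at1 c₀ (1 - z)) (at1 c₀ (1 + z)) := by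
  have h1 := pm_XA2 (sq_zero_XA2 hz)
  constructor
  · intro c
    unfold at1
    split_ifs
    · exact h1
    · exact ⟨Matrix.one_mul _, Matrix.one_mul _⟩
  · intro c
    unfold at1
    split_ifs
    · exact h1.symm
    · exact ⟨Matrix.one_mul _, Matrix.one_mul _⟩

/-- elimination matrices preserve the fixed subspaces -/
theorem sat_at1 [Algebra k C] {c₀ : Fin (𝒟.d + 1)} {w : Fin 𝒟.n → ℕ} {I : Finset (Fin 𝒟.n)}
    {z : Mt 𝒟.n C} (hz : ∀ a' a, ¬ Alw τ c₀ w I a' a → z a' a = 0) (hx : Sat τ x) :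
    Sat τ (act (at1 c₀ (1 + z)) (at1 c₀ (1 - z)) x) ∧
      Sat τ (act (at1 c₀ (1 - z)) (at1 c₀ (1 + z)) x) := by
  have h1 := pm_XA2 (sq_zero_XA2 hz)
  have hi := inv_at1 (c₀ := c₀) hz
  have hp : ∀ v J, v.2.1 = c₀ → τ v = some J →
      dg C J * ((1 + z) * dg C J) = (1 + z) * dg C J := fun v J hv hJ => by
    rw [Matrix.add_mul, Matrix.mul_add, Matrix.one_mul, dg_dg_XA2, zD_XA2 hz hv hJ]
  have hm : ∀ v J, v.2.1 = c₀ → τ v = some J →
      dg C J * ((1 - z) * dg C J) = (1 - z) * dg C J := fun v J hv hJ => by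
    rw [Matrix.sub_mul, Matrix.mul_sub, Matrix.one_mul, dg_dg_XA2, zD_XA2 hz hv hJ]
  constructor
  · refine ⟨sat0_act hx.base hi.1, fun v J hJ => ?_⟩
    show Std J (at1 c₀ (1 + z) v.2.1 * x.e v * at1 c₀ (1 - z) v.2.1)
    unfold at1
    split_ifs with hv
    · exact std_conj_XA2 (hx.std v J hJ) (hp v J hv hJ) (hm v J hv hJ) h1.1
    · rw [Matrix.one_mul, Matrix.mul_one]
      exact hx.std v J hJ
  · refine ⟨sat0_act hx.base hi.2, fun v J hJ => ?_⟩
    show Std J (at1 c₀ (1 - z) v.2.1 * x.e v * at1 c₀ (1 + z) v.2.1)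
    unfold at1
    split_ifs with hv
    · exact std_conj_XA2 (hx.std v J hJ) (hm v J hv hJ) (hp v J hv hJ) h1.2
    · rw [Matrix.one_mul, Matrix.mul_one]
      exact hx.std v J hJ

end Pool.Agent.P.MP_1bf4cb_ag
end
end

-- part Pool.Agent.P.MP_1bf4cb_ag.XC
section

set_option autoImplicit false
set_option linter.unusedSectionVars false
set_option linter.unusedVariables false

open Function Matrix
open scoped TensorProduct

noncomputable section

namespace Pool.Agent.P.MP_1bf4cb_ag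

variable {n : ℕ} {w : Fin n → ℕ} {I I' : Finset (Fin n)}

theorem lev_inj (hw : Injective w) : Injective (lev w) := by
  intro I J h
  have key : ∀ K : Finset (Fin n), lev w K = ∑ i ∈ K.image w, 2 ^ i := fun K => by
    rw [Finset.sum_image (fun a _ b _ hab => hw hab)]
    rfl
  rw [key, key] at h
  exact Finset.image_injective hw (Finset.geomSum_injective (le_refl 2) h)

theorem mnr_map {C C' : Type} [CommRing C] [CommRing C'] (φ : C →+* C') (M : Mt n C)
    (j : I → Fin n) : φ (mnr M I j) = mnr (M.map φ) I j := by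
  unfold mnr
  rw [RingHom.map_det]
  rfl

/-- minors of higher level vanish on a cell -/
theorem mnr_tri {C : Type} [CommRing C] (N M : Mt n C)
    (hN : ∀ a' a, N a' a ≠ 0 → a ∈ I ∧ w a' ≤ w a) (hl : lev w I < lev w I') (j : I' → Fin n) :
    mnr (N * M) I' j = 0 := by
  have e1 : ((N * M).submatrix (Subtype.val : I' → Fin n) j : I' → I' → C) =
      fun s : I' => ∑ a : Fin n, N s a • (fun b : I' => M a (j b)) := by
    funext s b
    simp [Matrix.mul_apply, Finset.sum_apply]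
  have e2 : mnr (N * M) I' j = (Matrix.detRowAlternating (n := I') (R := C)).toMultilinearMap
      (fun s : I' => ∑ a : Fin n, N s a • (fun b : I' => M a (j b))) := by
    rw [← e1]
    rfl
  rw [e2, MultilinearMap.map_sum]
  refine Finset.sum_eq_zero fun f _ => ?_
  rw [MultilinearMap.map_smul_univ]
  by_cases hf : Injective f
  · have hz : ∃ s : I', N s (f s) = 0 := by
      by_contra hcon
      push Not at hcon
      have h1 : lev w I' ≤ ∑ s : I', 2 ^ w (f s) := by
        unfold lev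
        rw [← Finset.sum_coe_sort]
        exact Finset.sum_le_sum fun s _ => Nat.pow_le_pow_right (by norm_num) (hN _ _ (hcon s)).2
      have h2 : ∑ s : I', 2 ^ w (f s) = ∑ a ∈ Finset.univ.image f, 2 ^ w a := by
        rw [Finset.sum_image (fun a _ b _ hab => hf hab)]
      have h3 : ∑ a ∈ Finset.univ.image f, 2 ^ w a ≤ lev w I := by
        refine Finset.sum_le_sum_of_subset fun a ha => ?_
        obtain ⟨s, -, rfl⟩ := Finset.mem_image.1 ha
        exact (hN _ _ (hcon s)).1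
      omega
    obtain ⟨s, hs⟩ := hz
    rw [Finset.prod_eq_zero (Finset.mem_univ s) hs, zero_smul]
  · have h0 : (Matrix.detRowAlternating (n := I') (R := C))
        (fun s : I' => fun b : I' => M (f s) (j b)) = 0 := by
      refine AlternatingMap.map_eq_zero_of_not_injective _ _ fun hinj => hf fun s t hst => ?_
      exact hinj (by simp only [hst])
    have h1 : (Matrix.detRowAlternating (n := I') (R := C)).toMultilinearMap
        (fun s : I' => fun b : I' => M (f s) (j b)) = 0 := h0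
    rw [h1, smul_zero]

theorem det_mem_XC {C : Type} [CommRing C] (S : Subring C) {ι : Type} [Fintype ι] [DecidableEq ι]
    (A : Matrix ι ι C) (hA : ∀ a b, A a b ∈ S) : A.det ∈ S := by
  rw [Matrix.det_apply']
  exact sum_mem fun σ _ => mul_mem (intCast_mem S _) (prod_mem fun i _ => hA _ _)

/-- Cramer's rule for the elimination matrix -/
theorem den_elim {C : Type} [CommRing C] (S : Subring C) {e z : Mt n C} (he : InS S e)
    (hz : ∀ a' a, z a' a ≠ 0 → a ∈ I ∧ a' ∉ I) (h : e = (1 + z) * (dg C I * e)) (j : I → Fin n)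
    (a' a : Fin n) : mnr e I j * z a' a ∈ S := by
  by_cases h0 : z a' a = 0
  · rw [h0, mul_zero]
    exact zero_mem S
  obtain ⟨ha, ha'⟩ := hz a' a h0
  have hrow : ∀ c, e a' c = ∑ b : I, z a' b * e b c := fun c => by
    have h1 : e a' c = ((1 + z) * (dg C I * e)) a' c := by rw [← h]
    rw [h1, add_mul, one_mul, Matrix.add_apply, dg_mul_apply, if_neg ha', zero_add,
      Matrix.mul_apply, Finset.sum_coe_sort I (fun b => z a' b * e b c)]
    symm
    refine Finset.sum_subset_zero_on_sdiff (Finset.subset_univ I) (fun b hb => ?_) fun b hb => ?_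
    · rw [dg_mul_apply, if_neg (Finset.mem_sdiff.1 hb).2, mul_zero]
    · rw [dg_mul_apply, if_pos hb]
  have key := Matrix.det_updateRow_sum (e.submatrix (Subtype.val : I → Fin n) j) ⟨a, ha⟩
    (fun b : I => z a' b)
  have e2 : (∑ b : I, z a' b • (e.submatrix (Subtype.val : I → Fin n) j) b) =
      fun c : I => e a' (j c) := by
    funext c
    rw [hrow, Finset.sum_apply]
    rfl
  rw [e2] at key
  have e3 : mnr e I j * z a' a =
      ((e.submatrix (Subtype.val : I → Fin n) j).updateRow ⟨a, ha⟩ fun c : I => e a' (j c)).det := by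
    rw [key, smul_eq_mul, mul_comm]
    rfl
  rw [e3]
  refine det_mem_XC S _ fun b c => ?_
  rw [Matrix.updateRow_apply]
  split_ifs
  · exact he _ _
  · exact he _ _

end Pool.Agent.P.MP_1bf4cb_ag
end
end

-- part Pool.Agent.P.MP_1bf4cb_ag.XB
section

set_option autoImplicit false
set_option linter.unusedSectionVars false
set_option linter.unusedVariables false

open Function Matrix
open scoped TensorProduct

noncomputable section

namespace Pool.Agent.P.MP_1bf4cb_ag

variable {k : Type} [Field k] {𝒟 : Dat k}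

theorem Rep.ext {S : ∀ (C : Type) [CommRing C], Pt 𝒟 C → Prop} {R C : Type} [CommRing R]
    [Algebra k R] [CommRing C] {x : Pt 𝒟 R} (h : Rep S R x) {φ φ' : R →+* C}
    (hk : ∀ c : k, φ (algebraMap k R c) = φ' (algebraMap k R c)) (e : x.map φ = x.map φ') :
    φ = φ' := by
  refine RingHom.ext fun r => ?_
  have h1 := h.gen (φ.eqLocus φ') hk (fun v a b => congrFun (congrFun (congrFun
    (congrArg Pt.e e) v) a) b) fun c a b => congrFun (congrFun (congrFun (congrArg Pt.γ e) c) a) b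
  exact (h1 ▸ Subring.mem_top r : r ∈ φ.eqLocus φ')

theorem Rep.noeth {S : ∀ (C : Type) [CommRing C], Pt 𝒟 C → Prop} {R : Type} [CommRing R]
    [Algebra k R] {x : Pt 𝒟 R} (h : Rep S R x) : IsNoetherianRing R := by
  have := h.ft
  exact Algebra.FiniteType.isNoetherianRing k R

theorem rep_quot_XB {S : ∀ (C : Type) [CommRing C], Pt 𝒟 C → Prop} {σ : Type} [Finite σ]
    (x : Pt 𝒟 (MvPolynomial σ k)) (Z : Set (Mt 𝒟.n (MvPolynomial σ k)))
    (hS : ∀ (C : Type) [CommRing C] (φ : MvPolynomial σ k →+* C),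
      S C (x.map φ) ↔ ∀ M ∈ Z, M.map φ = 0)
    (hX : ∀ v, (∃ w a b, MvPolynomial.X v = x.e w a b) ∨ ∃ c a b, MvPolynomial.X v = x.γ c a b)
    (hU : ∀ (C : Type) [CommRing C] [Algebra k C] (y : Pt 𝒟 C), S C y →
      ∃ f : σ → C, x.map (MvPolynomial.aeval f : MvPolynomial σ k →ₐ[k] C) = y) :
    Rep S (MvPolynomial σ k ⧸ ents Z) (x.map (Ideal.Quotient.mk _)) := by
  refine ⟨(hS _ _).2 fun M hM => ?_, fun T h1 h2 h3 => ?_, fun C _ _ y hy => ?_, inferInstance⟩
  · ext a b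
    exact Ideal.Quotient.eq_zero_iff_mem.2 (Ideal.subset_span ⟨M, hM, a, b, rfl⟩)
  · refine eq_top_iff.2 fun r _ => ?_
    obtain ⟨r, rfl⟩ := Ideal.Quotient.mk_surjective r
    induction r using MvPolynomial.induction_on with
    | C c => exact h1 c
    | add p q hp hq => exact map_add (Ideal.Quotient.mk (ents Z)) p q ▸ T.add_mem (hp trivial) (hq trivial)
    | mul_X p v hp =>
      rw [map_mul]
      refine T.mul_mem (hp trivial) ?_
      rcases hX v with ⟨w, a, b, h⟩ | ⟨c, a, b, h⟩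
      · rw [h]
        exact h2 w a b
      · rw [h]
        exact h3 c a b
  · obtain ⟨f, rfl⟩ := hU C y hy
    have h := (hS C (MvPolynomial.aeval f : MvPolynomial σ k →ₐ[k] C)).1 hy
    refine ⟨Ideal.Quotient.liftₐ _ (MvPolynomial.aeval f) fun r hr => ?_, rfl⟩
    refine (show ents Z ≤ RingHom.ker (MvPolynomial.aeval f : MvPolynomial σ k →ₐ[k] C) from
      Ideal.span_le.2 ?_) hr
    rintro _ ⟨M, hM, a, b, rfl⟩
    exact congrFun (congrFun (h M hM) a) b

theorem pow_map_XB {n : ℕ} {C C' : Type} [CommRing C] [CommRing C'] (φ : C →+* C') (q : ℕ)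
    (M : Mt n C) : (M.map (· ^ q)).map φ = (M.map φ).map (· ^ q) := by
  ext a b
  simp

theorem sub_map_XB {n : ℕ} {C C' : Type} [CommRing C] [CommRing C'] (φ : C →+* C')
    (M N : Mt n C) : (M - N).map φ = M.map φ - N.map φ := by
  ext a b
  simp

theorem LA_map_XB {C C' : Type} [CommRing C] [CommRing C'] (φ : C →+* C') (c : Fin (𝒟.d + 1))
    (M : Mt 𝒟.n C) : (LA 𝒟 c M).map φ = LA 𝒟 c (M.map φ) := by
  unfold LA
  split_ifs
  · rfl
  · rw [sub_map_XB, Matrix.map_one _ (map_zero φ) (map_one φ)]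

theorem RB_map_XB {C C' : Type} [CommRing C] [CommRing C'] (φ : C →+* C') (c : Fin (𝒟.d + 1))
    (M : Mt 𝒟.n C) : (RB 𝒟 c M).map φ = RB 𝒟 c (M.map φ) := by
  unfold RB
  split_ifs
  · exact pow_map_XB φ _ M
  · rfl

theorem exists_rep (τ : Asg 𝒟) :
    ∃ (R : Type) (_ : CommRing R) (_ : Algebra k R) (x : Pt 𝒟 R), RepT τ R x := by
  let x : Pt 𝒟 (MvPolynomial ((Ix 𝒟.d 𝒟.m ⊕ Fin (𝒟.d + 1)) × Fin 𝒟.n × Fin 𝒟.n) k) :=
    ⟨fun v => Matrix.of fun a b => MvPolynomial.X (Sum.inl v, a, b),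
      fun c => Matrix.of fun a b => MvPolynomial.X (Sum.inr c, a, b)⟩
  refine ⟨_, _, _, _, rep_quot_XB x {M | (∃ s c i j, i ≤ j ∧
    M = x.e (s, c, j) * x.e (s, c, i) - x.e (s, c, i)) ∨ (∃ s c i j, 𝒟.E c i j ∧
    M = LA 𝒟 c (x.e (s, c, i)) * x.γ c * RB 𝒟 c (x.e (s, c + 1, j))) ∨ ∃ v I, τ v = some I ∧
    (M = dg _ I * x.e v - x.e v ∨ M = x.e v * dg _ I - dg _ I)} (fun C _ φ => ⟨?_, fun h => ?_⟩)
    ?_ fun C _ _ y _ => ?_⟩
  · rintro h M (⟨s, c, i, j, h1, rfl⟩ | ⟨s, c, i, j, h1, rfl⟩ | ⟨v, I, h1, rfl | rfl⟩)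
    · rw [sub_map_XB, Matrix.map_mul, sub_eq_zero]
      exact h.base.chain s c i j h1
    · rw [Matrix.map_mul, Matrix.map_mul, LA_map_XB, RB_map_XB]
      exact h.base.edge s c i j h1
    · rw [sub_map_XB, Matrix.map_mul, sub_eq_zero, dg_map]
      exact (h.std v I h1).1
    · rw [sub_map_XB, Matrix.map_mul, sub_eq_zero, dg_map]
      exact (h.std v I h1).2
  · refine ⟨⟨fun s c i j h1 => ?_, fun s c i j h1 => ?_⟩, fun v I h1 => ⟨?_, ?_⟩⟩
    · have := h _ (Or.inl ⟨s, c, i, j, h1, rfl⟩)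
      rwa [sub_map_XB, Matrix.map_mul, sub_eq_zero] at this
    · have := h _ (Or.inr (Or.inl ⟨s, c, i, j, h1, rfl⟩))
      rwa [Matrix.map_mul, Matrix.map_mul, LA_map_XB, RB_map_XB] at this
    · have := h _ (Or.inr (Or.inr ⟨v, I, h1, Or.inl rfl⟩))
      rwa [sub_map_XB, Matrix.map_mul, sub_eq_zero, dg_map] at this
    · have := h _ (Or.inr (Or.inr ⟨v, I, h1, Or.inr rfl⟩))
      rwa [sub_map_XB, Matrix.map_mul, sub_eq_zero, dg_map] at this
  · rintro ⟨v | c, a, b⟩
    · exact Or.inl ⟨v, a, b, rfl⟩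
    · exact Or.inr ⟨c, a, b, rfl⟩
  · refine ⟨fun p => Sum.elim y.e y.γ p.1 p.2.1 p.2.2, ?_⟩
    ext <;> simp [x, Pt.map]

theorem rep_crd (𝒟 : Dat k) :
    Rep1 (𝒟 := 𝒟) (Crd k 𝒟.n 𝒟.q 𝒟.E) ⟨univ k 𝒟.n 𝒟.q 𝒟.E, fun _ => 1⟩ := by
  have key : ∀ (C : Type) [CommRing C] (c : Fin (𝒟.d + 1)) (M N : Mt 𝒟.n C), c ≠ Fin.last _ →
      (LA 𝒟 c M * 1 * RB 𝒟 c N = 0 ↔ M * N - N = 0) := by
    intro C _ c M N hc
    rw [LA, RB, if_neg hc, if_neg hc, mul_one, sub_mul, one_mul, sub_eq_zero, sub_eq_zero, eq_comm]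
  have key' : ∀ (C : Type) [CommRing C] (M N : Mt 𝒟.n C),
      LA 𝒟 (Fin.last _) M * 1 * RB 𝒟 (Fin.last _) N = Mᵀ * N.map (· ^ 𝒟.q) := by
    intro C _ M N
    rw [LA, RB, if_pos rfl, if_pos rfl, mul_one]
  have h0 : ∀ (C : Type) [CommRing C] (φ : _ →+* C),
      (⟨gen k 𝒟.n, fun _ => 1⟩ : Pt 𝒟 _).map φ = ⟨fun v => (gen k 𝒟.n v).map φ, fun _ => 1⟩ :=
    fun C _ φ => Pt.ext rfl (funext fun _ => Matrix.map_one _ (map_zero φ) (map_one φ))
  have h := rep_quot_XB (𝒟 := 𝒟) (S := fun C _ y => Sat1 y) ⟨gen k 𝒟.n, fun _ => 1⟩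
    (eqs 𝒟.q 𝒟.E (gen k 𝒟.n)) (fun C _ φ => ?_)
    (fun v => Or.inl ⟨v.1, v.2.1, v.2.2, rfl⟩) fun C _ _ y hy => ?_
  · rwa [h0] at h
  · rw [h0]
    refine ⟨?_, fun h => ⟨⟨fun s c i j h1 => ?_, fun s c i j h1 => ?_⟩, fun _ => rfl⟩⟩
    · rintro h M ⟨s, c, i, j, ⟨h1, rfl⟩ | ⟨h1, h2, rfl⟩ | ⟨h1, rfl, rfl⟩⟩
      · rw [sub_map_XB, Matrix.map_mul, sub_eq_zero]
        exact h.base.chain s c i j h1
      · rw [sub_map_XB, Matrix.map_mul]
        exact (key C c _ _ h2).1 (h.base.edge s c i j h1)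
      · have := h.base.edge s _ i j h1
        rw [key', Fin.last_add_one] at this
        rwa [Matrix.map_mul, pow_map_XB]
    · have := h _ ⟨s, c, i, j, Or.inl ⟨h1, rfl⟩⟩
      rwa [sub_map_XB, Matrix.map_mul, sub_eq_zero] at this
    · by_cases hc : c = Fin.last _
      · have := h _ ⟨s, c, i, j, Or.inr (Or.inr ⟨h1, hc, rfl⟩)⟩
        subst hc
        rw [Matrix.map_mul, pow_map_XB] at this
        rw [key', Fin.last_add_one]
        exact this
      · have := h _ ⟨s, c, i, j, Or.inr (Or.inl ⟨h1, hc, rfl⟩)⟩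
        rw [sub_map_XB, Matrix.map_mul] at this
        exact (key C c _ _ hc).2 this
  · refine ⟨fun p => y.e p.1 p.2.1 p.2.2, (h0 C _).trans (Pt.ext ?_ (funext fun c => (hy.one c).symm))⟩
    ext v a b
    simp [gen]

end Pool.Agent.P.MP_1bf4cb_ag
end
end

-- part Pool.Agent.P.MP_1bf4cb_ag.XC2
section

set_option autoImplicit false
set_option linter.unusedSectionVars false
set_option linter.unusedVariables false

open Function Matrix
open scoped TensorProduct

noncomputable section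

namespace Pool.Agent.P.MP_1bf4cb_ag

variable {n : ℕ} {w : Fin n → ℕ} {I I' : Finset (Fin n)}

theorem ind_of_mnr_XC2 {K : Type} [Field K] {e : Mt n K} {j : I → Fin n} (h0 : mnr e I j ≠ 0) :
    LinearIndepOn K (fun a => e a) (I : Set (Fin n)) := by
  have h : LinearIndependent K (e.submatrix (Subtype.val : I → Fin n) j).row :=
    linearIndependent_rows_iff_isUnit.2 ((isUnit_iff_isUnit_det _).2 (isUnit_iff_ne_zero.2 h0))
  exact LinearIndependent.of_comp (LinearMap.funLeft K K j) h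

theorem mnr_of_ind_XC2 {K : Type} [Field K] {e : Mt n K}
    (h : LinearIndepOn K (fun a => e a) (I : Set (Fin n))) : ∃ j, mnr e I j ≠ 0 := by
  set A : Matrix I (Fin n) K := e.submatrix Subtype.val id with hA
  have h1 : LinearIndependent K A.row := h
  have h2 := h1.rank_matrix
  obtain ⟨κ, a, ha, hs, hi⟩ := exists_linearIndependent' K A.col
  have : Finite κ := Finite.of_injective a ha
  have := Fintype.ofFinite κ
  rw [rank_eq_finrank_span_cols, ← hs, finrank_span_eq_card hi] at h2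
  let σ : I ≃ κ := Fintype.equivOfCardEq h2.symm
  refine ⟨a ∘ σ, ?_⟩
  have h3 : LinearIndependent K (e.submatrix (Subtype.val : I → Fin n) (a ∘ σ)).col :=
    hi.comp σ σ.injective
  exact isUnit_iff_ne_zero.1 ((isUnit_iff_isUnit_det _).1 (linearIndependent_cols_iff_isUnit.1 h3))

theorem eq_zero_XC2 {K : Type} [Field K] {e M : Mt n K}
    (h : LinearIndepOn K (fun a => e a) (I : Set (Fin n))) (h1 : M * dg K I * e = 0) :
    M * dg K I = 0 := by
  ext a b
  rw [mul_dg_apply, Matrix.zero_apply]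
  split_ifs with hb
  · refine linearIndepOn_finset_iff.1 h (M a) ?_ b hb
    funext c
    have h2 := congrFun (congrFun h1 a) c
    rw [Matrix.mul_apply, Matrix.zero_apply] at h2
    simp only [mul_dg_apply, ite_mul, zero_mul, Finset.sum_ite_mem, Finset.univ_inter] at h2
    rw [Finset.sum_apply]
    exact h2
  · rfl

theorem dg_dg_XC2 {K : Type} [Field K] : dg K I * dg K I = dg K I := by
  ext a b
  rw [dg_mul_apply]
  split_ifs with ha
  · rfl
  · by_cases hab : a = b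
    · subst hab
      simp [dg, ha]
    · simp [dg, diagonal_apply_ne _ hab]

/-- echelon form over a field -/
theorem echelon {K : Type} [Field K] (hw : Injective w) {e : Mt n K} (he : e * e = e)
    {j : I → Fin n} (h0 : mnr e I j ≠ 0)
    (h1 : ∀ I' : Finset (Fin n), lev w I < lev w I' → ∀ j', mnr e I' j' = 0) :
    ∃ z : Mt n K, (∀ a' a, z a' a ≠ 0 → a ∈ I ∧ a' ∉ I ∧ w a' < w a) ∧
      e = (1 + z) * (dg K I * e) ∧ Std I ((1 - z) * e * (1 + z)) ∧
      ∀ J : Finset (Fin n), e * dg K J = dg K J → ∀ a ∈ J, ∀ a', z a' a = 0 := by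
  have hI := ind_of_mnr_XC2 h0
  have hlev : ∀ J : Finset (Fin n), LinearIndepOn K (fun a => e a) (J : Set (Fin n)) →
      lev w J ≤ lev w I := fun J hJ => by
    obtain ⟨j', hj'⟩ := mnr_of_ind_XC2 hJ
    exact not_lt.1 fun hl => hj' (h1 J hl j')
  have hsp : ∀ a', ∃ c : Fin n → K, a' ∉ I → ∑ a ∈ I, c a • e a = e a' := fun a' => by
    by_cases ha : a' ∈ I
    · exact ⟨0, fun h => absurd ha h⟩
    have hm : e a' ∈ Submodule.span K ((fun a => e a) '' (I : Set (Fin n))) := by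
      by_contra hm
      have h2 := hI.insert hm
      rw [← Finset.coe_insert] at h2
      have h3 := hlev _ h2
      rw [lev, Finset.sum_insert ha] at h3
      have h4 : 0 < 2 ^ w a' := by positivity
      unfold lev at h3
      omega
    obtain ⟨c, hc⟩ := (Submodule.mem_span_image_finset_iff_exists_fun' K).1 hm
    exact ⟨c, fun _ => hc⟩
  choose c hc using hsp
  have hlt : ∀ a' a, a ∈ I → a' ∉ I → c a' a ≠ 0 → w a' < w a := fun a' a ha ha' hne => by
    have h2 : e a' ∉ Submodule.span K ((fun a => e a) '' (I.erase a : Set (Fin n))) := by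
      intro hm
      refine hI.notMem_span (i := a) ha ?_
      rw [← Finset.coe_erase, ← Submodule.smul_mem_iff _ hne]
      have h3 := hc a' ha'
      rw [← Finset.add_sum_erase I _ ha] at h3
      rw [eq_sub_of_add_eq h3]
      exact Submodule.sub_mem _ hm (Submodule.sum_mem _ fun b hb =>
        Submodule.smul_mem _ _ (Submodule.subset_span ⟨b, hb, rfl⟩))
    have h3 := (hI.mono (Finset.coe_subset.2 (I.erase_subset a))).insert h2
    rw [← Finset.coe_insert] at h3
    have h4 := hlev _ h3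
    rw [lev, lev, Finset.sum_insert fun h => ha' (Finset.mem_of_mem_erase h),
      ← Finset.add_sum_erase I _ ha, add_le_add_iff_right,
      Nat.pow_le_pow_iff_right (by norm_num)] at h4
    exact lt_of_le_of_ne h4 fun h => ha' (hw h ▸ ha)
  let z : Mt n K := Matrix.of fun a' a => if a ∈ I ∧ a' ∉ I then c a' a else 0
  have hz : ∀ a' a, z a' a = if a ∈ I ∧ a' ∉ I then c a' a else 0 := fun _ _ => rfl
  have hDz : dg K I * z = 0 := by
    ext a b
    rw [dg_mul_apply, hz, Matrix.zero_apply]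
    by_cases ha : a ∈ I <;> simp [ha]
  have hzD : z * dg K I = z := by
    ext a b
    rw [mul_dg_apply, hz]
    by_cases hb : b ∈ I <;> simp [hb]
  have hzz : z * z = 0 := by
    calc z * z = z * dg K I * z := by rw [hzD]
      _ = 0 := by rw [mul_assoc, hDz, mul_zero]
  have hee : e = (1 + z) * (dg K I * e) := by
    rw [add_mul, one_mul, ← mul_assoc, hzD]
    ext a' b
    rw [Matrix.add_apply, dg_mul_apply, Matrix.mul_apply]
    by_cases ha : a' ∈ I
    · simp [hz, ha]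
    · rw [if_neg ha, zero_add, ← hc a' ha, Finset.sum_apply]
      simp [hz, ha]
  have hDD : dg K I * dg K I = dg K I := dg_dg_XC2
  have hm : (1 - z) * e = dg K I * e := by
    have h2 : (1 - z) * (1 + z) = 1 := by
      rw [sub_mul, mul_add, mul_add, hzz]
      simp
    conv_lhs => rw [hee, ← mul_assoc, h2, one_mul]
  refine ⟨z, fun a' a h => ?_, hee, ⟨?_, ?_⟩, fun J hJ a ha a' => ?_⟩
  · rw [hz] at h
    split_ifs at h with h'
    · exact ⟨h'.1, h'.2, hlt a' a h'.1 h'.2 h⟩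
    · exact absurd rfl h
  · rw [hm, ← mul_assoc, ← mul_assoc, hDD]
  · rw [hm]
    have h2 := eq_zero_XC2 (M := dg K I * e * (1 + z) - 1 * dg K I) hI (by
      rw [sub_mul, sub_mul, mul_assoc (dg K I * e * (1 + z)), mul_assoc (dg K I * e), ← hee,
        one_mul, hDD, mul_assoc, he, sub_self])
    rwa [sub_mul, one_mul, hDD, sub_eq_zero] at h2
  · rw [hz]
    split_ifs with h'
    · have h2 : dg K J = (1 + z) * dg K I * dg K J := by
        conv_lhs => rw [← hJ, hee, mul_assoc, mul_assoc, hJ, ← mul_assoc]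
      have hne : a' ≠ a := fun h => h'.2 (h ▸ h'.1)
      have h3 := congrFun (congrFun h2 a') a
      rw [mul_dg_apply, mul_dg_apply, if_pos ha, if_pos h'.1, Matrix.add_apply,
        one_apply_ne hne, zero_add, hz, if_pos h', dg, diagonal_apply_ne _ hne] at h3
      exact h3.symm
    · rfl

end Pool.Agent.P.MP_1bf4cb_ag
end
end

-- part Pool.Agent.P.MP_1bf4cb_ag.XI
section

set_option autoImplicit false
set_option linter.unusedSectionVars false
set_option linter.unusedVariables false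

open Function Matrix
open scoped TensorProduct

noncomputable section

namespace Pool.Agent.P.MP_1bf4cb_ag

variable {k : Type} [Field k] {𝒟 : Dat k} {L : Type} [CommRing L] [Algebra k L]
  {g h : Fin (𝒟.d + 1) → Mt 𝒟.n L} {x : Pt 𝒟 L}

theorem hom_XI (r : ℕ) : ∃ ψ : L →+* L, ⇑ψ = (· ^ 𝒟.q ^ r) := by
  induction r with
  | zero => exact ⟨RingHom.id L, funext fun y => by simp⟩
  | succ r ih =>
    obtain ⟨ψ, hψ⟩ := ih
    refine ⟨(𝒟.fr L).comp ψ, funext fun y => ?_⟩
    change (ψ y) ^ 𝒟.q = _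
    rw [hψ, pow_succ, pow_mul]

theorem pow_mul_mat (r : ℕ) (M N : Mt 𝒟.n L) :
    (M * N).map (· ^ 𝒟.q ^ r) = M.map (· ^ 𝒟.q ^ r) * N.map (· ^ 𝒟.q ^ r) := by
  obtain ⟨ψ, hψ⟩ := hom_XI (𝒟 := 𝒟) (L := L) r
  rw [← hψ, Matrix.map_mul]

theorem one_XI (r : ℕ) : (1 : Mt 𝒟.n L).map (· ^ 𝒟.q ^ r) = 1 := by
  obtain ⟨ψ, hψ⟩ := hom_XI (𝒟 := 𝒟) (L := L) r
  rw [← hψ, Matrix.map_one _ (map_zero ψ) (map_one ψ)]

theorem add_XI (r s : ℕ) (M : Mt 𝒟.n L) :
    (M.map (· ^ 𝒟.q ^ r)).map (· ^ 𝒟.q ^ s) = M.map (· ^ 𝒟.q ^ (r + s)) := by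
  ext a b
  simp only [Matrix.map_apply]
  rw [← pow_mul, ← pow_add]

/-- invertible over `S` -/
def Gd_XI (S : Subring L) (M : Mt 𝒟.n L) : Prop :=
  InS S M ∧ ∃ N, InS S N ∧ M * N = 1 ∧ N * M = 1

theorem mul_XI {S : Subring L} {M N : Mt 𝒟.n L} (hM : Gd_XI S M) (hN : Gd_XI S N) :
    Gd_XI S (M * N) := by
  obtain ⟨a, M', b, c, d⟩ := hM
  obtain ⟨a', N', b', c', d'⟩ := hN
  refine ⟨a.mul a', N' * M', b'.mul b, ?_, ?_⟩
  · rw [Matrix.mul_assoc, ← Matrix.mul_assoc N, c', Matrix.one_mul, c]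
  · rw [Matrix.mul_assoc, ← Matrix.mul_assoc M', d, Matrix.one_mul, d']

theorem tr_XI {S : Subring L} {M : Mt 𝒟.n L} (hM : Gd_XI S M) : Gd_XI S Mᵀ := by
  obtain ⟨a, M', b, c, d⟩ := hM
  refine ⟨a.tr, M'ᵀ, b.tr, ?_, ?_⟩
  · rw [← Matrix.transpose_mul, d, Matrix.transpose_one]
  · rw [← Matrix.transpose_mul, c, Matrix.transpose_one]

theorem pw_XI {S : Subring L} {M : Mt 𝒟.n L} (hM : Gd_XI S M) (r : ℕ) :
    Gd_XI S (M.map (· ^ 𝒟.q ^ r)) := by
  obtain ⟨a, M', b, c, d⟩ := hM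
  refine ⟨a.pow _, M'.map (· ^ 𝒟.q ^ r), b.pow _, ?_, ?_⟩
  · rw [← pow_mul_mat, c, one_XI]
  · rw [← pow_mul_mat, d, one_XI]

theorem id_XI (S : Subring L) : Gd_XI S (1 : Mt 𝒟.n L) :=
  ⟨InS.one S, 1, InS.one S, Matrix.one_mul _, Matrix.one_mul _⟩

theorem canc_XI {S : Subring L} {M A : Mt 𝒟.n L} (hM : Gd_XI S M) (hA : Gd_XI S (M * A)) :
    Gd_XI S A := by
  obtain ⟨a, M', b, c, d⟩ := hM
  have h1 := mul_XI (⟨b, M, a, d, c⟩ : Gd_XI S M') hA
  rwa [← Matrix.mul_assoc, d, Matrix.one_mul] at h1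

theorem inv_XI {S : Subring L} {M A : Mt 𝒟.n L} (hM : Gd_XI S M) (hA : M * A = 1) :
    Gd_XI S A := canc_XI hM (by rw [hA]; exact id_XI S)

/-- the twisted powers of the frames are defined over the base -/
theorem coc_InS (S : Subring L) (hi : Inv g h) (hx : ∀ c, x.γ c = 1)
    (hγ : ∀ c, InS S ((act h g x).γ c)) (hd : ∀ c, ∃ u ∈ S, u * ((act h g x).γ c).det = 1)
    (b : ℕ) (c : Fin (𝒟.d + 1)) :
    InS S (h c * (g c).map (· ^ 𝒟.q ^ (2 * b))) ∧ InS S ((h c).map (· ^ 𝒟.q ^ (2 * b)) * g c) := by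
  have g1 : ∀ c, Gd_XI S ((act h g x).γ c) := by
    intro c
    obtain ⟨u, hu, e⟩ := hd c
    refine ⟨hγ c, u • ((act h g x).γ c).adjugate, fun a b => S.mul_mem hu ((hγ c).adj a b), ?_, ?_⟩
    · rw [Matrix.mul_smul, Matrix.mul_adjugate, smul_smul, e, one_smul]
    · rw [Matrix.smul_mul, Matrix.adjugate_mul, smul_smul, e, one_smul]
  have cg : ∀ c (M : Mt 𝒟.n L), g c * (h c * M) = M := fun c M => by
    rw [← Matrix.mul_assoc, (hi c).1, Matrix.one_mul]
  have cF : ∀ r c (M : Mt 𝒟.n L),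
      (g c).map (· ^ 𝒟.q ^ r) * ((h c).map (· ^ 𝒟.q ^ r) * M) = M := fun r c M => by
    rw [← Matrix.mul_assoc, ← pow_mul_mat, (hi c).1, one_XI, Matrix.one_mul]
  have g2 : ∀ c, Gd_XI S (h 0 * g c) := by
    intro c
    induction c using Fin.induction with
    | zero => rw [(hi 0).2]; exact id_XI S
    | succ c ih =>
      have h1 := g1 c.castSucc
      have ne : c.castSucc ≠ Fin.last 𝒟.d := (Fin.castSucc_lt_last c).ne
      simp only [act, LG, RB, hx, if_neg ne, Matrix.mul_one, Fin.coeSucc_eq_succ] at h1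
      have h2 := mul_XI ih h1
      rwa [Matrix.mul_assoc, cg] at h2
  have g3 : Gd_XI S ((g 0)ᵀ * (g 0).map (· ^ 𝒟.q ^ 1)) := by
    have h1 := g1 (Fin.last 𝒟.d)
    simp only [act, LG, RB, hx, if_true, Matrix.mul_one, Fin.last_add_one] at h1
    refine canc_XI (tr_XI (g2 (Fin.last 𝒟.d))) ?_
    rw [← Matrix.mul_assoc, ← Matrix.transpose_mul, cg, pow_one]
    exact h1
  have g4 : Gd_XI S (h 0 * (g 0).map (· ^ 𝒟.q ^ 2)) := by
    refine canc_XI (tr_XI g3) ?_
    have h1 := pw_XI g3 1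
    rw [pow_mul_mat, add_XI] at h1
    rw [Matrix.transpose_mul, Matrix.transpose_transpose, Matrix.mul_assoc, cg]
    exact h1
  have g5 : ∀ b, Gd_XI S (h 0 * (g 0).map (· ^ 𝒟.q ^ (2 * b))) := by
    intro b
    induction b with
    | zero =>
      have e : (g 0).map (· ^ 𝒟.q ^ (2 * 0)) = g 0 := by ext a b; simp
      rw [e]; exact g2 0
    | succ b ih =>
      have h1 := mul_XI ih (pw_XI g4 (2 * b))
      rw [pow_mul_mat, add_XI, Matrix.mul_assoc, cF] at h1
      rw [show 2 * (b + 1) = 2 + 2 * b by ring]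
      exact h1
  have g6 : Gd_XI S (h c * (g c).map (· ^ 𝒟.q ^ (2 * b))) := by
    have h0 : Gd_XI S (h c * g 0) := inv_XI (g2 c) (by rw [Matrix.mul_assoc, cg, (hi 0).2])
    have h1 := mul_XI h0 (mul_XI (g5 b) (pw_XI (g2 c) (2 * b)))
    rwa [pow_mul_mat, Matrix.mul_assoc, Matrix.mul_assoc, cg, cF] at h1
  exact ⟨g6.1, (inv_XI g6 (by rw [Matrix.mul_assoc, cF, (hi c).2])).1⟩

end Pool.Agent.P.MP_1bf4cb_ag
end
end

-- part Pool.Agent.P.MP_1bf4cb_ag.XD
section

set_option autoImplicit false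
set_option linter.unusedSectionVars false
set_option linter.unusedVariables false

open Function Matrix
open scoped TensorProduct

noncomputable section

namespace Pool.Agent.P.MP_1bf4cb_ag

variable {k : Type} [Field k] {𝒟 : Dat k} {τ : Asg 𝒟} {v₀ : Ix 𝒟.d 𝒟.m} {w : Fin 𝒟.n → ℕ}
  {R : Type} [CommRing R] [Algebra k R] {x : Pt 𝒟 R}

/-- the ideal of the minors of level at least `l` -/
def lid (M : Mt 𝒟.n R) (w : Fin 𝒟.n → ℕ) (l : ℕ) : Ideal R :=
  Ideal.span {y | ∃ I j, l ≤ lev w I ∧ y = mnr M I j}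

/-- the fixed subspaces of the colour of `v₀` are lower members of its flag or initial segments -/
def Adm (τ : Asg 𝒟) (v₀ : Ix 𝒟.d 𝒟.m) (w : Fin 𝒟.n → ℕ) : Prop :=
  ∀ v J, v.2.1 = v₀.2.1 → τ v = some J →
    (v.1 = v₀.1 ∧ v.2.2 ≤ v₀.2.2) ∨ ∀ a ∈ J, ∀ a', w a' < w a → a' ∈ J

theorem at1_map_XD {C C' : Type} [CommRing C] [CommRing C'] (θ : C →+* C')
    (c₀ : Fin (𝒟.d + 1)) (u : Mt 𝒟.n C) :
    (fun c => (at1 c₀ u c).map θ) = at1 c₀ (u.map θ) := by
  funext c
  simp only [at1]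
  split_ifs
  · rfl
  · exact Matrix.map_one _ (map_zero θ) (map_one θ)

theorem at1_InS_XD {C : Type} [CommRing C] {S : Subring C} (c₀ : Fin (𝒟.d + 1)) {u : Mt 𝒟.n C}
    (hu : InS S u) (c : Fin (𝒟.d + 1)) : InS S (at1 c₀ u c) := by
  simp only [at1]
  split_ifs
  · exact hu
  · exact InS.one S

theorem act_e_XD {C : Type} [CommRing C] (u u' : Mt 𝒟.n C) (y : Pt 𝒟 C) :
    (act (at1 v₀.2.1 u) (at1 v₀.2.1 u') y).e v₀ = u * y.e v₀ * u' := by
  simp only [act, at1, if_true]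

theorem sat_forget_XD {C : Type} [CommRing C] {y : Pt 𝒟 C} (h0 : τ v₀ = none)
    {I : Finset (Fin 𝒟.n)} (hy : Sat (Function.update τ v₀ (some I)) y) : Sat τ y := by
  refine ⟨hy.base, fun v J hv => hy.std v J ?_⟩
  have hne : v ≠ v₀ := by
    rintro rfl
    rw [h0] at hv
    cases hv
  rw [Function.update_of_ne hne, hv]

theorem elim_form_XD {C : Type} [CommRing C] {n : ℕ} {I : Finset (Fin n)} {z e u : Mt n C}
    (hz : ∀ a' a, z a' a ≠ 0 → a' ∉ I) (he : Std I e) :
    (1 + z) * e * u = (1 + z) * (dg C I * ((1 + z) * e * u)) := by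
  have h1 : dg C I * z = 0 := by
    ext a' a
    rw [dg_mul_apply]
    split_ifs with h
    · by_contra hne
      exact hz a' a hne h
    · rfl
  rw [← Matrix.mul_assoc (dg C I), ← Matrix.mul_assoc (dg C I), Matrix.mul_add (dg C I), h1,
    add_zero, Matrix.mul_one, he.1, Matrix.mul_assoc]

/-- points with values in a field -/
theorem field_pt_XD {K : Type} [Field K] [Algebra k K] (hw : Injective w) (ha : Adm τ v₀ w)
    {y : Pt 𝒟 K} (hy : Sat τ y) {I : Finset (Fin 𝒟.n)} {j : I → Fin 𝒟.n}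
    (h0 : mnr (y.e v₀) I j ≠ 0)
    (h1 : ∀ I' : Finset (Fin 𝒟.n), lev w I < lev w I' → ∀ j', mnr (y.e v₀) I' j' = 0) :
    ∃ z : Mt 𝒟.n K, (∀ a' a, ¬ Alw τ v₀.2.1 w I a' a → z a' a = 0) ∧
      Sat (Function.update τ v₀ (some I)) (act (at1 v₀.2.1 (1 - z)) (at1 v₀.2.1 (1 + z)) y) := by
  obtain ⟨z, hz1, -, hz3, hz4⟩ :=
    echelon hw (hy.base.chain v₀.1 v₀.2.1 v₀.2.2 v₀.2.2 le_rfl) h0 h1
  have hz : ∀ a' a, ¬ Alw τ v₀.2.1 w I a' a → z a' a = 0 := by
    intro a' a hn
    by_contra hne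
    obtain ⟨g1, g2, g3⟩ := hz1 a' a hne
    refine hn ⟨g1, g2, g3, fun v J hv hJ haJ => ?_⟩
    rcases ha v J hv hJ with ⟨g4, g5⟩ | g4
    · refine absurd (hz4 J ?_ a haJ a') hne
      obtain ⟨s, c, i⟩ := v
      simp only at hv g4 g5
      subst hv g4
      have g6 := hy.base.chain v₀.1 v₀.2.1 i v₀.2.2 g5
      have g7 := (hy.std _ J hJ).2
      rw [← g7, ← Matrix.mul_assoc, g6]
    · exact g4 a haJ a' g3
  have hs := (sat_at1 hz hy).2
  refine ⟨z, hz, hs.base, fun v J hv => ?_⟩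
  by_cases hne : v = v₀
  · subst hne
    rw [Function.update_self] at hv
    cases hv
    rw [act_e_XD]
    exact hz3
  · rw [Function.update_of_ne hne] at hv
    exact hs.std v J hv

/-- one cell -/
theorem cell_step (hw : Injective w) (h0 : τ v₀ = none) (ha : Adm τ v₀ w) (hx : RepT τ R x)
    (I : Finset (Fin 𝒟.n)) (hI : CellT (Function.update τ v₀ (some I)))
    (h : CellI R (lid (x.e v₀) w (lev w I + 1) ⊔
      Ideal.span (Set.range fun j : I → Fin 𝒟.n => mnr (x.e v₀) I j))) :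
    CellI R (lid (x.e v₀) w (lev w I + 1)) := by
  classical
  obtain ⟨R', _, _, x', hx'⟩ := exists_rep (Function.update τ v₀ (some I))
  have := hx.noeth
  have := hx'.noeth
  obtain ⟨z, hz, hzX⟩ : ∃ z : Mt 𝒟.n
      (MvPolynomial {p : Fin 𝒟.n × Fin 𝒟.n // Alw τ v₀.2.1 w I p.1 p.2} R'),
      (∀ a' a, ¬ Alw τ v₀.2.1 w I a' a → z a' a = 0) ∧ ∀ p, z p.1.1 p.1.2 = MvPolynomial.X p :=
    ⟨Matrix.of fun a' a => if h : Alw τ v₀.2.1 w I a' a then MvPolynomial.X ⟨(a', a), h⟩ else 0,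
      fun a' a h => dif_neg h, fun p => dif_pos p.2⟩
  have hz' : ∀ a' a, z a' a ≠ 0 → Alw τ v₀.2.1 w I a' a := fun a' a h =>
    by_contra fun hn => h (hz a' a hn)
  have hy0 := hx'.sat.map (MvPolynomial.C :
    R' →+* MvPolynomial {p : Fin 𝒟.n × Fin 𝒟.n // Alw τ v₀.2.1 w I p.1 p.2} R')
  obtain ⟨ψ, hψ⟩ := hx.univ _ _ (sat_at1 hz (sat_forget_XD h0 hy0)).1
  have he : (x.e v₀).map ψ = (1 + z) * (dg _ I * (x.e v₀).map ψ) := by
    have h1 : (x.e v₀).map ψ = _ := congrArg (fun y : Pt 𝒟 _ => y.e v₀) hψ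
    rw [h1, act_e_XD]
    exact elim_form_XD (fun a' a h => (hz' a' a h).2.1) (hy0.std v₀ I (Function.update_self ..))
  refine step ψ.toRingHom (Finset.univ.image fun j : I → Fin 𝒟.n => mnr (x.e v₀) I j) _
    ?_ ?_ ?_ (cell_mv (hI R' x' hx') _)
    (by rwa [Finset.coe_image, Finset.coe_univ, Set.image_univ])
  · intro f hf
    obtain ⟨j, -, rfl⟩ := Finset.mem_image.1 hf
    have h1 : InS (den ψ.toRingHom (mnr (x.e v₀) I j)) z := by
      intro a' a
      obtain ⟨r, hr⟩ := den_elim ψ.toRingHom.range (e := (x.e v₀).map ψ)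
        (fun a b => ⟨x.e v₀ a b, rfl⟩) (fun a' a h => ⟨(hz' a' a h).1, (hz' a' a h).2.1⟩) he j a' a
      refine ⟨1, r, ?_⟩
      rw [pow_one, mnr_map, hr]
      rfl
    have h2 := act_InS (S := den ψ.toRingHom (mnr (x.e v₀) I j)) (x := x.map ψ)
      (at1_InS_XD v₀.2.1 ((InS.one _).sub h1)) (at1_InS_XD v₀.2.1 ((InS.one _).add h1))
      (fun v a b => map_mem_den _ _ _) (fun c a b => map_mem_den _ _ _)
    rw [hψ, act_act (inv_at1 hz).1] at h2
    have h3 := hx'.gen ((den ψ.toRingHom (mnr (x.e v₀) I j)).comap MvPolynomial.C)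
      (fun c => by
        have h4 := map_mem_den ψ.toRingHom (mnr (x.e v₀) I j) (algebraMap k R c)
        rw [AlgHom.toRingHom_eq_coe, AlgHom.coe_toRingHom, AlgHom.commutes] at h4
        exact h4)
      (fun v a b => h2.1 v a b) (fun c a b => h2.2 c a b)
    intro y
    induction y using MvPolynomial.induction_on with
    | C a =>
      have h4 : a ∈ (den ψ.toRingHom (mnr (x.e v₀) I j)).comap MvPolynomial.C := by
        rw [h3]; trivial
      exact h4
    | add p q hp hq => exact add_mem hp hq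
    | mul_X p i hp => exact mul_mem hp (hzX i ▸ h1 _ _)
  · refine Ideal.span_le.2 ?_
    rintro _ ⟨I', j, hl, rfl⟩
    have h1 : ψ.toRingHom (mnr (x.e v₀) I' j) = mnr ((x.e v₀).map ψ) I' j := mnr_map _ _ _
    refine (RingHom.mem_ker).2 ?_
    rw [h1, he, ← Matrix.mul_assoc]
    refine mnr_tri (w := w) (I := I) _ _ (fun a' a h => ?_) hl j
    rw [mul_dg_apply] at h
    split_ifs at h with h2
    · refine ⟨h2, ?_⟩
      by_cases h3 : a' = a
      · rw [h3]
      · rw [Matrix.add_apply, Matrix.one_apply_ne h3, zero_add] at h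
        exact (hz' a' a h).2.2.1.le
    · exact absurd rfl h
  · rintro 𝔭 hpr hb ⟨f, hf, hfp⟩
    obtain ⟨j, -, rfl⟩ := Finset.mem_image.1 hf
    have hs := hx.sat.map (algebraMap R 𝔭.ResidueField)
    obtain ⟨zK, hK, hsK⟩ := field_pt_XD (I := I) (j := j) hw ha hs
      (by
        have h1 := mnr_map (algebraMap R 𝔭.ResidueField) (x.e v₀) j
        exact fun h2 => hfp (Ideal.algebraMap_residueField_eq_zero.1 (h1.trans h2)))
      (fun I' hl j' => by
        have h1 := mnr_map (algebraMap R 𝔭.ResidueField) (x.e v₀) j'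
        exact h1.symm.trans (Ideal.algebraMap_residueField_eq_zero.2
          (hb (Ideal.subset_span ⟨I', j', hl, rfl⟩))))
    obtain ⟨φ, hφ⟩ := hx'.univ _ _ hsK
    obtain ⟨θ, hC, hX⟩ : ∃ θ : MvPolynomial {p : Fin 𝒟.n × Fin 𝒟.n // Alw τ v₀.2.1 w I p.1 p.2} R'
        →+* 𝔭.ResidueField, (∀ a, θ (MvPolynomial.C a) = φ a) ∧
          ∀ p, θ (MvPolynomial.X p) = zK p.1.1 p.1.2 :=
      ⟨MvPolynomial.eval₂Hom φ.toRingHom fun p => zK p.1.1 p.1.2,
        fun a => MvPolynomial.eval₂Hom_C _ _ _, fun p => MvPolynomial.eval₂Hom_X' _ _ _⟩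
    have hzθ : θ.mapMatrix z = zK := by
      ext a' a
      change θ (z a' a) = zK a' a
      by_cases h1 : Alw τ v₀.2.1 w I a' a
      · rw [hzX ⟨(a', a), h1⟩, hX]
      · rw [hz a' a h1, hK a' a h1, map_zero]
    have h1 : (1 + z).map θ = 1 + zK := by
      rw [← hzθ, ← RingHom.mapMatrix_apply, map_add, map_one]
    have h2 : (1 - z).map θ = 1 - zK := by
      rw [← hzθ, ← RingHom.mapMatrix_apply, map_sub, map_one]
    have h3 : (θ ∘ (MvPolynomial.C : R' →+* _)) = φ := funext hC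
    have h4 : θ.comp ψ.toRingHom = algebraMap R 𝔭.ResidueField := by
      refine hx.ext (fun c => ?_) ?_
      · rw [RingHom.comp_apply, AlgHom.toRingHom_eq_coe, AlgHom.coe_toRingHom, AlgHom.commutes,
          MvPolynomial.algebraMap_apply, hC, AlgHom.commutes, ← IsScalarTower.algebraMap_apply]
      · have h5 : x.map (θ.comp ψ.toRingHom) = (x.map ψ).map θ := (Pt.map_map x ψ θ).symm
        rw [h5, hψ, act_map, at1_map_XD, at1_map_XD, h1, h2, Pt.map_map, h3, hφ,
          act_act (inv_at1 hK).2]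
    intro r hr
    have h5 : ψ.toRingHom r = 0 := hr
    rw [← Ideal.algebraMap_residueField_eq_zero, ← h4, RingHom.comp_apply, h5, map_zero]

end Pool.Agent.P.MP_1bf4cb_ag
end
end

-- part Pool.Agent.P.MP_1bf4cb_ag.XG
section

set_option autoImplicit false
set_option linter.unusedSectionVars false
set_option linter.unusedVariables false

open Function Matrix
open scoped TensorProduct

noncomputable section

namespace Pool.Agent.P.MP_1bf4cb_ag

variable {k : Type} [Field k] {𝒟 : Dat k}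

theorem unit_XG {B : Type} [CommRing B] {n : ℕ} {I : Ideal B} (hI : I ^ 2 = ⊥) {M : Mt n B}
    {N : Mt n (B ⧸ I)} (h : M.map (Ideal.Quotient.mk I) * N = 1) :
    M * M⁻¹ = 1 ∧ M⁻¹ * M = 1 ∧ M⁻¹.map (Ideal.Quotient.mk I) = N := by
  have h1 : IsUnit (Ideal.Quotient.mk I M.det) := by
    rw [RingHom.map_det, RingHom.mapMatrix_apply]
    exact Matrix.isUnit_det_of_right_inverse h
  have h2 : IsUnit M.det := (IsNilpotent.isUnit_quotient_mk_iff ⟨2, hI⟩).1 h1
  have h3 := Matrix.mul_nonsing_inv M h2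
  have h4 := Matrix.nonsing_inv_mul M h2
  refine ⟨h3, h4, ?_⟩
  have h5 : M⁻¹.map (Ideal.Quotient.mk I) * M.map (Ideal.Quotient.mk I) = 1 := by
    rw [← Matrix.map_mul, h4, Matrix.map_one _ (map_zero _) (map_one _)]
  rw [← mul_one (M⁻¹.map _), ← h, ← mul_assoc, h5, one_mul]

theorem pow_XG {B : Type} [CommRing B] [Algebra k B] {I : Ideal B} (hI : I ^ 2 = ⊥) {a b : B}
    (h : Ideal.Quotient.mk I a = Ideal.Quotient.mk I b) : a ^ 𝒟.q = b ^ 𝒟.q := by
  have h1 : (a - b) ^ 2 = 0 := by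
    have h2 := Ideal.pow_mem_pow (Ideal.Quotient.eq.1 h) 2
    rwa [hI, Ideal.mem_bot] at h2
  have h3 := 𝒟.add B b (a - b)
  rwa [pow_eq_zero_of_le 𝒟.two h1, add_zero, add_sub_cancel] at h3

theorem fr_XG {B : Type} [CommRing B] [Algebra k B] {M N : Mt 𝒟.n B} (h : M * N = 1) :
    M.map (· ^ 𝒟.q) * N.map (· ^ 𝒟.q) = 1 := by
  have h1 : (M * N).map (𝒟.fr B) = M.map (𝒟.fr B) * N.map (𝒟.fr B) := Matrix.map_mul
  rw [h, Matrix.map_one _ (map_zero _) (map_one _)] at h1
  exact h1.symm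

/-- frames lift along square-zero extensions -/
theorem lift_frames {B : Type} [CommRing B] [Algebra k B] (I : Ideal B) (hI : I ^ 2 = ⊥)
    (y : Pt 𝒟 B) {g h : Fin (𝒟.d + 1) → Mt 𝒟.n (B ⧸ I)} (hi : Inv g h)
    (hy : ∀ c, (act g h (y.map (Ideal.Quotient.mk I))).γ c = 1) :
    ∃ G H : Fin (𝒟.d + 1) → Mt 𝒟.n B, Inv G H ∧ (∀ c, (G c).map (Ideal.Quotient.mk I) = g c) ∧
      ∀ c, (act G H y).γ c = 1 := by
  obtain ⟨g₀, hg₀⟩ : ∃ g₀ : Mt 𝒟.n B, g₀.map (Ideal.Quotient.mk I) = g 0 := by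
    choose u hu using fun a b => Ideal.Quotient.mk_surjective (g 0 a b)
    exact ⟨Matrix.of u, Matrix.ext hu⟩
  obtain ⟨W, hW⟩ : ∃ W : Mt 𝒟.n B, W = g₀.map (· ^ 𝒟.q) := ⟨_, rfl⟩
  have hW1 : W.map (Ideal.Quotient.mk I) * (h 0).map (· ^ 𝒟.q) = 1 := by
    have e : W.map (Ideal.Quotient.mk I) = (g 0).map (· ^ 𝒟.q) := by
      rw [hW, ← hg₀]
      ext a b
      simp only [Matrix.map_apply, map_pow]
    rw [e]
    exact fr_XG (hi 0).1
  have hl : (h (Fin.last 𝒟.d))ᵀ * (y.γ (Fin.last 𝒟.d)).map (Ideal.Quotient.mk I) *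
      (h 0).map (· ^ 𝒟.q) = 1 := by
    simpa only [act, Pt.map, LG, RB, if_true, Fin.last_add_one] using hy (Fin.last 𝒟.d)
  have hc : ∀ i : Fin 𝒟.d, (y.γ i.castSucc).map (Ideal.Quotient.mk I) *
      (h i.succ * g i.castSucc) = 1 := fun i => by
    have h1 : g i.castSucc * (y.γ i.castSucc).map (Ideal.Quotient.mk I) * h i.succ = 1 := by
      simpa only [act, Pt.map, LG, RB, if_neg (Fin.castSucc_ne_last i), Fin.coeSucc_eq_succ]
        using hy i.castSucc
    rw [mul_assoc] at h1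
    rw [← mul_assoc]
    exact mul_eq_one_comm.1 h1
  obtain ⟨G, hGl, hGc⟩ : ∃ G : Fin (𝒟.d + 1) → Mt 𝒟.n B,
      G (Fin.last 𝒟.d) = (y.γ (Fin.last 𝒟.d) * W⁻¹)ᵀ ∧
        ∀ i : Fin 𝒟.d, G i.castSucc = G i.succ * (y.γ i.castSucc)⁻¹ :=
    ⟨Fin.reverseInduction (motive := fun _ => Mt 𝒟.n B) (y.γ (Fin.last 𝒟.d) * W⁻¹)ᵀ
      fun i M => M * (y.γ i.castSucc)⁻¹, Fin.reverseInduction_last,
      fun i => Fin.reverseInduction_castSucc i⟩
  have hG : ∀ c, (G c).map (Ideal.Quotient.mk I) = g c := fun c => by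
    induction c using Fin.reverseInduction with
    | last =>
      rw [hGl, Matrix.transpose_map, Matrix.map_mul, (unit_XG hI hW1).2.2]
      have h1 : (g (Fin.last 𝒟.d))ᵀ * (h (Fin.last 𝒟.d))ᵀ = 1 := by
        rw [← Matrix.transpose_mul, (hi _).2, Matrix.transpose_one]
      rw [mul_assoc] at hl
      rw [← one_mul (_ * (h 0).map _), ← h1, mul_assoc, hl, mul_one, Matrix.transpose_transpose]
    | cast i ih =>
      rw [hGc, Matrix.map_mul, ih, (unit_XG hI (hc i)).2.2, ← mul_assoc, (hi _).1, one_mul]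
  have hU := fun c => unit_XG hI (M := G c) (N := h c) (by rw [hG]; exact (hi c).1)
  refine ⟨G, fun c => (G c)⁻¹, fun c => ⟨(hU c).1, (hU c).2.1⟩, hG, fun c => ?_⟩
  induction c using Fin.lastCases with
  | last =>
    have h1 : (G 0).map (· ^ 𝒟.q) = W := by
      rw [hW]
      ext a b
      exact pow_XG hI (congrFun (congrFun ((hG 0).trans hg₀.symm) a) b)
    have h2 : W⁻¹ = (G 0)⁻¹.map (· ^ 𝒟.q) :=
      Matrix.inv_eq_left_inv (by rw [← h1]; exact fr_XG (hU 0).2.1)
    simp only [act, LG, RB, if_true, Fin.last_add_one]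
    rw [← h2, mul_assoc, ← Matrix.transpose_transpose (_ * W⁻¹), ← hGl, ← Matrix.transpose_mul,
      (hU _).1, Matrix.transpose_one]
  | cast i =>
    simp only [act, LG, RB, if_neg (Fin.castSucc_ne_last i), Fin.coeSucc_eq_succ]
    rw [hGc, mul_assoc (G _), (unit_XG hI (hc i)).2.1, mul_one, (hU _).1]

end Pool.Agent.P.MP_1bf4cb_ag
end
end

-- part Pool.Agent.P.MP_1bf4cb_ag.XJ
section

set_option autoImplicit false
set_option linter.unusedSectionVars false
set_option linter.unusedVariables false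

open Function Matrix
open scoped TensorProduct

noncomputable section

namespace Pool.Agent.P.MP_1bf4cb_ag

variable {k : Type} [Field k] {𝒟 : Dat k} {L : Type} [CommRing L] [Algebra k L]
  {g h : Fin (𝒟.d + 1) → Mt 𝒟.n L} {x : Pt 𝒟 L}

theorem graph_map {A B : Type} [CommRing A] [CommRing B] {d m n : ℕ} (φ : A →+* B) (Q : ℕ)
    (e : Ix d m → Mt n A) : (graph Q e).map φ = graph Q fun v => (e v).map φ := by
  have e1 : ∀ M : Mt n A, (M.map φ).map (· ^ Q) = (M.map (· ^ Q)).map φ := fun M => by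
    ext a b
    simp
  have e2 : ∀ M N P : Mt n A, M.map φ * N.map φ - P.map φ = (M * N - P).map φ := fun M N P => by
    ext a b
    simp [Matrix.mul_apply]
  unfold graph ents
  rw [Ideal.map_span]
  congr 1
  ext z
  simp only [e1, e2]
  constructor
  · rintro ⟨_, ⟨Z, ⟨c, i, hZ⟩, a, b, rfl⟩, rfl⟩
    exact ⟨Z.map φ, ⟨c, i, hZ.imp (fun h => by rw [h]) fun h => by rw [h]⟩, a, b, rfl⟩
  · rintro ⟨_, ⟨c, i, rfl | rfl⟩, a, b, rfl⟩
    · exact ⟨_, ⟨_, ⟨c, i, Or.inl rfl⟩, a, b, rfl⟩, rfl⟩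
    · exact ⟨_, ⟨_, ⟨c, i, Or.inr rfl⟩, a, b, rfl⟩, rfl⟩

theorem mul_mem_XJ {n : ℕ} {I : Ideal L} {Z : Mt n L} (hZ : ∀ a b, Z a b ∈ I) (P R : Mt n L)
    (a b : Fin n) : (P * Z * R) a b ∈ I := by
  simp only [Matrix.mul_apply]
  exact I.sum_mem fun _ _ => I.mul_mem_right _ (I.sum_mem fun _ _ => I.mul_mem_left _ (hZ _ _))

/-- the ideal of the graph comes from the universal family -/
theorem graph_ext {U : Type} [CommRing U] (ψ : U →+* L) (y : Pt 𝒟 U) (hi : Inv g h)
    (hx : ∀ c, x.γ c = 1) (e : y.map ψ = act h g x) (b : ℕ) :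
    ((graph (𝒟.q ^ (2 * b)) x.e).comap ψ).map ψ = graph (𝒟.q ^ (2 * b)) x.e := by
  have eγ : ∀ c, (y.γ c).map ψ = (act h g x).γ c := fun c => congrArg (fun z => z.γ c) e
  have ee : ∀ v, (y.e v).map ψ = h v.2.1 * x.e v * g v.2.1 := fun v => congrArg (fun z => z.e v) e
  have hu : ∀ c, IsUnit (ψ (y.γ c).det) := fun c => by
    have h1 : ψ (y.γ c).det = ((act h g x).γ c).det := by
      rw [← eγ]
      exact RingHom.map_det ψ _
    have h2 : IsUnit (LG 𝒟 c (h c) (g c)).det := by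
      unfold LG
      split_ifs
      · rw [Matrix.det_transpose]
        exact Matrix.isUnit_det_of_right_inverse (hi c).1
      · exact Matrix.isUnit_det_of_right_inverse (hi c).2
    have h3 : IsUnit (RB 𝒟 c (g (c + 1))).det :=
      Matrix.isUnit_det_of_right_inverse (B := RB 𝒟 c (h (c + 1)))
        (by rw [← RB_mul, (hi _).1, RB_one])
    rw [h1]
    show IsUnit (LG 𝒟 c (h c) (g c) * x.γ c * RB 𝒟 c (g (c + 1))).det
    rw [hx, mul_one, Matrix.det_mul]
    exact h2.mul h3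
  let t : U := ∏ c, (y.γ c).det
  have hS : ∀ M : Mt 𝒟.n U, InS (den ψ t) (M.map ψ) := fun M a b => map_mem_den ψ t _
  have hc := coc_InS (den ψ t) hi hx (fun c => eγ c ▸ hS _) (fun c => by
    obtain ⟨u, hu'⟩ := (hu c).exists_left_inv
    refine ⟨u, ⟨1, ∏ c' ∈ Finset.univ.erase c, (y.γ c').det, ?_⟩, ?_⟩
    · rw [pow_one, show t = _ from (Finset.mul_prod_erase _ _ (Finset.mem_univ c)).symm, map_mul,
        mul_right_comm, mul_comm _ u, hu', one_mul]
    · rw [← eγ, ← hu']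
      exact congrArg (u * ·) (RingHom.map_det ψ _).symm) b
  refine map_comap_den ψ t (by rw [map_prod]; exact IsUnit.prod_univ_iff.2 hu) _
    {z | z ∈ graph (𝒟.q ^ (2 * b)) x.e ∧ z ∈ den ψ t} (fun _ hz => hz) (Ideal.span_le.2 ?_)
  rintro _ ⟨Z, ⟨c, i, hZ⟩, a, a', rfl⟩
  have h1 : ∀ a b', Z a b' ∈ graph (𝒟.q ^ (2 * b)) x.e := fun a b' =>
    Ideal.subset_span ⟨Z, ⟨c, i, hZ⟩, a, b', rfl⟩
  have h2 : Z = g c * (h c * Z * g c) * h c := by
    rw [← mul_assoc, ← mul_assoc, (hi c).1, one_mul, mul_assoc, (hi c).1, mul_one]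
  have h3 : InS (den ψ t) (h c * x.e (true, c, i) * g c) := ee (true, c, i) ▸ hS _
  have h4 : InS (den ψ t) (h c * (x.e (false, c, i)).map (· ^ 𝒟.q ^ (2 * b)) * g c) := by
    have h5 : InS (den ψ t) (h c * x.e (false, c, i) * g c) := ee (false, c, i) ▸ hS _
    have h6 : x.e (false, c, i) = g c * (h c * x.e (false, c, i) * g c) * h c := by
      rw [← mul_assoc, ← mul_assoc, (hi c).1, one_mul, mul_assoc, (hi c).1, mul_one]
    rw [h6, pow_mul_mat, pow_mul_mat, ← mul_assoc, ← mul_assoc, mul_assoc _ _ (g c)]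
    exact ((hc c).1.mul (h5.pow _)).mul (hc c).2
  have h7 : ∀ M N P : Mt 𝒟.n L, h c * (M * N - P) * g c =
      h c * M * g c * (h c * N * g c) - h c * P * g c := fun M N P => by
    rw [mul_sub, sub_mul, mul_assoc (h c) N, ← mul_assoc _ (h c), mul_assoc _ (g c), (hi c).1,
      mul_one]
    simp only [mul_assoc]
  have h8 : InS (den ψ t) (h c * Z * g c) := by
    rcases hZ with rfl | rfl <;> rw [h7]
    exacts [(h4.mul h3).sub h3, (h3.mul h4).sub h4]
  have h9 : ∀ a b', (h c * Z * g c) a b' ∈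
      Ideal.span {z | z ∈ graph (𝒟.q ^ (2 * b)) x.e ∧ z ∈ den ψ t} := fun a b' =>
    Ideal.subset_span ⟨mul_mem_XJ h1 _ _ a b', h8 a b'⟩
  have h10 := mul_mem_XJ h9 (g c) (h c) a a'
  rwa [← h2] at h10

end Pool.Agent.P.MP_1bf4cb_ag
end
end

-- part Pool.Agent.P.MP_1bf4cb_ag.XE
section

set_option autoImplicit false
set_option linter.unusedSectionVars false
set_option linter.unusedVariables false

open Function Matrix
open scoped TensorProduct

noncomputable section

namespace Pool.Agent.P.MP_1bf4cb_ag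

variable {k : Type} [Field k] {𝒟 : Dat k} {τ : Asg 𝒟} {v₀ : Ix 𝒟.d 𝒟.m} {w : Fin 𝒟.n → ℕ}

theorem mono_XE {A : Type} [CommRing A] {b b' : Ideal A} (h : CellI A b) (hb : b ≤ b') :
    CellI A b' := by
  obtain ⟨G, hG⟩ := h
  exact ⟨G, fun Γ _ χ h => (hG Γ χ h).mono hb⟩

/-- elimination of one subspace -/
theorem elim (hw : Injective w) (h0 : τ v₀ = none) (ha : Adm τ v₀ w)
    (h : ∀ I, CellT (Function.update τ v₀ (some I))) : CellT τ := by
  intro R _ _ x hx
  have key : ∀ l, CellI R (lid (x.e v₀) w l) := by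
    intro l
    induction l with
    | zero =>
      refine mono_XE (cellI_top R) (top_le_iff.2 ((Ideal.eq_top_iff_one _).2
        (Ideal.subset_span ⟨∅, fun a => a.1, Nat.zero_le _, ?_⟩)))
      exact Matrix.det_isEmpty.symm
    | succ l ih =>
      by_cases hl : ∃ I, lev w I = l
      · obtain ⟨I, rfl⟩ := hl
        refine cell_step hw h0 ha hx I (h I) (mono_XE ih (Ideal.span_le.2 ?_))
        rintro _ ⟨I', j, h1, rfl⟩
        rcases h1.eq_or_lt with e | e
        · obtain rfl := lev_inj hw e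
          exact Ideal.mem_sup_right (Ideal.subset_span ⟨j, rfl⟩)
        · exact Ideal.mem_sup_left (Ideal.subset_span ⟨I', j, e, rfl⟩)
      · refine mono_XE ih (Ideal.span_mono ?_)
        rintro _ ⟨I', j, h1, rfl⟩
        exact ⟨I', j, lt_of_le_of_ne h1 fun e => hl ⟨I', e.symm⟩, rfl⟩
  refine mono_XE (key (lev w Finset.univ + 1)) (Ideal.span_le.2 ?_)
  rintro _ ⟨I', j, h1, rfl⟩
  exact absurd (Finset.sum_le_sum_of_subset (Finset.subset_univ I')) (Nat.not_le.2 h1)

/-- fixed subspaces are nested -/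
theorem Sat.nest {C : Type} [CommRing C] [Nontrivial C] {x : Pt 𝒟 C} (hx : Sat τ x) {s : Bool}
    {c : Fin (𝒟.d + 1)} {i j : Fin 𝒟.m} (hij : i ≤ j) {I J : Finset (Fin 𝒟.n)}
    (hI : τ (s, c, i) = some I) (hJ : τ (s, c, j) = some J) : I ⊆ J := by
  intro a ha
  have h1 := (hx.std _ I hI).2
  have h2 := (hx.std _ J hJ).1
  have h3 : x.e (s, c, j) * dg C I = dg C I := by
    rw [← h1, ← Matrix.mul_assoc, hx.base.chain s c i j hij]
  have h4 : dg C J * dg C I = dg C I := by rw [← h3, ← Matrix.mul_assoc, h2]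
  by_contra hn
  have h5 := dg_mul_apply J (dg C I) a a
  rw [h4, if_neg hn, dg, Matrix.diagonal_apply_eq, if_pos ha] at h5
  exact one_ne_zero h5

/-- an order for which a chain of sets consists of initial segments -/
theorem exists_wt {n m : ℕ} (T : Fin m → Finset (Fin n)) (hT : Monotone T) :
    ∃ w : Fin n → ℕ, Injective w ∧ ∀ i, ∀ a ∈ T i, ∀ a', w a' < w a → a' ∈ T i := by
  refine ⟨fun a => n * (Finset.univ.filter fun i => a ∉ T i).card + a, fun a b e => ?_,
    fun i a ha a' h => ?_⟩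
  · have h := congrArg (· % n) e
    simp only [Nat.mul_add_mod, Nat.mod_eq_of_lt a.2, Nat.mod_eq_of_lt b.2] at h
    exact Fin.ext h
  · by_contra hn
    have h1 : (Finset.univ.filter fun i => a ∉ T i).card <
        (Finset.univ.filter fun i => a' ∉ T i).card := by
      refine Finset.card_lt_card ((Finset.ssubset_iff_of_subset fun i' hi' => ?_).2
        ⟨i, by simpa using hn, by simpa using ha⟩)
      rw [Finset.mem_filter] at hi' ⊢
      rcases le_total i i' with e | e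
      · exact absurd (hT e ha) hi'.2
      · exact ⟨hi'.1, fun h2 => hn (hT e h2)⟩
    have h2 := Nat.mul_le_mul_left n h1
    have h3 := a.2
    rw [Nat.mul_succ] at h2
    simp only at h
    omega

/-- the order of elimination -/
def rk_XE {d m : ℕ} (v : Ix d m) : ℕ := (if v.1 then m else 0) + v.2.2

open Classical in
theorem ind_XE (h : ∀ T : Ix 𝒟.d 𝒟.m → Finset (Fin 𝒟.n), CellT (𝒟 := 𝒟) fun v => some (T v))
    (N : ℕ) : ∀ τ : Asg 𝒟, (Finset.univ.filter fun v => τ v = none).card = N →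
      (∀ v v', rk_XE v' < rk_XE v → τ v' = none → τ v = none) → CellT τ := by
  induction N with
  | zero =>
    intro τ hN _
    have e : τ = fun v => some ((τ v).getD ∅) := funext fun v => by
      have := Finset.filter_eq_empty_iff.1 (Finset.card_eq_zero.1 hN) (Finset.mem_univ v)
      obtain ⟨I, hI⟩ := Option.ne_none_iff_exists'.1 this
      rw [hI, Option.getD_some]
    rw [e]
    exact h _
  | succ N ih =>
    intro τ hN hd R _ _ x hx
    rcases subsingleton_or_nontrivial R with _ | _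
    · exact cell_trivial R
    obtain ⟨v₀, h0, hm⟩ := Finset.exists_min_image _ rk_XE
      (Finset.card_pos.1 ((Nat.succ_pos N).trans_eq hN.symm))
    have h1 : τ v₀ = none := (Finset.mem_filter.1 h0).2
    have h2 : ∀ v, τ v = none → rk_XE v₀ ≤ rk_XE v := fun v hv =>
      hm v (Finset.mem_filter.2 ⟨Finset.mem_univ _, hv⟩)
    have h3 : ∀ v J, τ v = some J → rk_XE v ≤ rk_XE v₀ := fun v J hv => by
      by_contra hn
      rw [hd v v₀ (not_le.1 hn) h1] at hv
      cases hv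
    obtain ⟨w, hw, ha⟩ : ∃ w : Fin 𝒟.n → ℕ, Injective w ∧ Adm τ v₀ w := by
      obtain ⟨s₀, c₀, i₀⟩ := v₀
      have hi₀ := i₀.2
      cases s₀ with
      | false =>
        refine ⟨Fin.val, Fin.val_injective, ?_⟩
        rintro ⟨s, c, i⟩ J - hv
        have h4 := h3 _ J hv
        cases s <;> simp only [rk_XE, if_true, Bool.false_eq_true, if_false] at h4
        · exact Or.inl ⟨rfl, Fin.le_def.2 (by simpa using h4)⟩
        · omega
      | true =>
        have h4 : ∀ i, τ (false, c₀, i) = some ((τ (false, c₀, i)).getD ∅) := fun i => by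
          have h5 : τ (false, c₀, i) ≠ none := fun e => by
            have h6 := h2 _ e
            have h7 := i.2
            simp only [rk_XE, if_true, Bool.false_eq_true, if_false] at h6
            omega
          obtain ⟨I, hI⟩ := Option.ne_none_iff_exists'.1 h5
          rw [hI, Option.getD_some]
        obtain ⟨w, hw, h5⟩ := exists_wt (fun i => (τ (false, c₀, i)).getD ∅)
          fun i j hij => Sat.nest hx.sat hij (h4 i) (h4 j)
        refine ⟨w, hw, ?_⟩
        rintro ⟨s, c, i⟩ J (rfl : c = c₀) hv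
        cases s
        · refine Or.inr fun a ha a' h6 => ?_
          have h7 := h5 i
          simp only [hv, Option.getD_some] at h7
          exact h7 a ha a' h6
        · have h6 := h3 _ J hv
          simp only [rk_XE, if_true] at h6
          exact Or.inl ⟨rfl, Fin.le_def.2 (by simpa using h6)⟩
    refine elim hw h1 ha (fun I => ih _ ?_ fun v v' hv h4 => ?_) R x hx
    · have e : (Finset.univ.filter fun v => Function.update τ v₀ (some I) v = none) =
          (Finset.univ.filter fun v => τ v = none).erase v₀ := by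
        ext v
        by_cases hv : v = v₀
        · simp [hv]
        · simp [hv]
      rw [e, Finset.card_erase_of_mem h0, hN, Nat.add_sub_cancel]
    · have h5 : v' ≠ v₀ := fun e => by simp [e] at h4
      rw [Function.update_of_ne h5] at h4
      have h6 : v ≠ v₀ := fun e => (h2 v' h4).not_gt (e ▸ hv)
      rw [Function.update_of_ne h6]
      exact hd v v' hv h4

theorem cell_of_all (h : ∀ T : Ix 𝒟.d 𝒟.m → Finset (Fin 𝒟.n), CellT (𝒟 := 𝒟) fun v => some (T v)) :
    CellT (𝒟 := 𝒟) fun _ => none :=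
  ind_XE h _ _ rfl fun _ _ _ _ => rfl

end Pool.Agent.P.MP_1bf4cb_ag
end
end

-- part Pool.Agent.P.MP_1bf4cb_ag.XH
section

set_option autoImplicit false
set_option linter.unusedSectionVars false
set_option linter.unusedVariables false

open Function Matrix
open scoped TensorProduct

noncomputable section

namespace Pool.Agent.P.MP_1bf4cb_ag

variable {k : Type} [Field k] {𝒟 : Dat k}

theorem inv_map_XH {n : ℕ} {ι C C' : Type} [CommRing C] [CommRing C'] {g h : ι → Mt n C}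
    (hi : Inv g h) (φ : C →+* C') : Inv (fun c => (g c).map φ) (fun c => (h c).map φ) := by
  intro c
  refine ⟨?_, ?_⟩
  · show (g c).map φ * (h c).map φ = 1
    rw [← Matrix.map_mul, (hi c).1, Matrix.map_one _ (map_zero φ) (map_one φ)]
  · show (h c).map φ * (g c).map φ = 1
    rw [← Matrix.map_mul, (hi c).2, Matrix.map_one _ (map_zero φ) (map_one φ)]

theorem inv_symm_XH {n : ℕ} {ι C : Type} [CommRing C] {g h : ι → Mt n C}
    (hi : Inv g h) : Inv h g := fun c => ⟨(hi c).2, (hi c).1⟩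

theorem inv_unique_XH {n : ℕ} {ι C : Type} [CommRing C] {g h h' : ι → Mt n C}
    (hi : Inv g h) (hi' : Inv g h') : h = h' := by
  funext c
  calc h c = h c * (g c * h' c) := by rw [(hi' c).1, Matrix.mul_one]
    _ = h' c := by rw [← Matrix.mul_assoc, (hi c).2, Matrix.one_mul]

/-- the Lang map is flat -/
theorem flat_lang {R U L : Type} [CommRing R] [Algebra k R] {x : Pt 𝒟 R} (hx : Rep1 R x)
    [CommRing U] [Algebra k U] {y : Pt 𝒟 U} (hy : RepT (fun _ => none) U y) [CommRing L]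
    [Algebra k L] [Algebra (MvPolynomial (Fin (𝒟.d + 1) × Fin 𝒟.n × Fin 𝒟.n) R) L]
    [IsScalarTower k (MvPolynomial (Fin (𝒟.d + 1) × Fin 𝒟.n × Fin 𝒟.n) R) L]
    [IsLocalization.Away (∏ c, (gfr (𝒟 := 𝒟) R c).det) L] [Algebra U L] [IsScalarTower k U L]
    {g h : Fin (𝒟.d + 1) → Mt 𝒟.n L} (hg : ∀ c, g c = (gfr R c).map (algebraMap _ L))
    (hi : Inv g h) (e : y.map (algebraMap U L) = act h g
      (x.map ((algebraMap (MvPolynomial (Fin (𝒟.d + 1) × Fin 𝒟.n × Fin 𝒟.n) R) L).comp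
        MvPolynomial.C))) : Module.Flat U L := by
  classical
  have hR : Algebra.FiniteType k R := hx.ft
  have hP : Algebra.FiniteType k (MvPolynomial (Fin (𝒟.d + 1) × Fin 𝒟.n × Fin 𝒟.n) R) :=
    Algebra.FiniteType.trans hR inferInstance
  have hPL : Algebra.FiniteType (MvPolynomial (Fin (𝒟.d + 1) × Fin 𝒟.n × Fin 𝒟.n) R) L :=
    IsLocalization.finiteType_of_monoid_fg (Submonoid.powers (∏ c, (gfr (𝒟 := 𝒟) R c).det)) L
  have hL : Algebra.FiniteType k L := Algebra.FiniteType.trans hP hPL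
  have hUL : Algebra.FiniteType U L := Algebra.FiniteType.of_restrictScalars_finiteType k U L
  have hU : IsNoetherianRing U := hy.noeth
  have hsm : Algebra.FormallySmooth U L := by
    refine Algebra.FormallySmooth.of_comp_surjective fun B _ _ I hI f => ?_
    let _ : Algebra k B := ((algebraMap U B).comp (algebraMap k U)).toAlgebra
    have hkB : ∀ c : k, algebraMap k B c = algebraMap U B (algebraMap k U c) := fun c => rfl
    set ι := algebraMap (MvPolynomial (Fin (𝒟.d + 1) × Fin 𝒟.n × Fin 𝒟.n) R) L with hι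
    have hi' : Inv (fun c => (g c).map (f : L →+* B ⧸ I)) (fun c => (h c).map (f : L →+* B ⧸ I)) :=
      inv_map_XH hi (f : L →+* B ⧸ I)
    have e1 : (y.map (algebraMap U B)).map (Ideal.Quotient.mk I) =
        act (fun c => (h c).map (f : L →+* B ⧸ I)) (fun c => (g c).map (f : L →+* B ⧸ I))
          ((x.map (ι.comp MvPolynomial.C)).map (f : L →+* B ⧸ I)) := by
      rw [← act_map, ← e, Pt.map_map, Pt.map_map]
      congr 1
      funext u
      exact (f.commutes u).symm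
    have e2 : act (fun c => (g c).map (f : L →+* B ⧸ I)) (fun c => (h c).map (f : L →+* B ⧸ I))
        ((y.map (algebraMap U B)).map (Ideal.Quotient.mk I)) =
        (x.map (ι.comp MvPolynomial.C)).map (f : L →+* B ⧸ I) := by
      rw [e1]
      exact act_act (inv_symm_XH hi') _
    have hs1 : Sat1 ((x.map (ι.comp MvPolynomial.C)).map (f : L →+* B ⧸ I)) :=
      (Sat1.map hx.sat _).map _
    obtain ⟨G, H, hGH, hG, hγ⟩ := lift_frames I hI (y.map (algebraMap U B)) hi'
      (by rw [e2]; exact hs1.one)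
    have hz : Sat1 (act G H (y.map (algebraMap U B))) :=
      ⟨sat0_act (Sat0.map hy.sat.base _) hGH, hγ⟩
    obtain ⟨φ, hφ⟩ := hx.univ B _ hz
    let ψ : MvPolynomial (Fin (𝒟.d + 1) × Fin 𝒟.n × Fin 𝒟.n) R →+* B :=
      MvPolynomial.eval₂Hom (φ : R →+* B) fun p => G p.1 p.2.1 p.2.2
    have hψG : ∀ c, (gfr (𝒟 := 𝒟) R c).map ψ = G c := by
      intro c
      ext a b
      simp [gfr, ψ]
    have hunit : IsUnit (ψ (∏ c, (gfr (𝒟 := 𝒟) R c).det)) := by
      rw [map_prod]
      refine IsUnit.prod_iff.mpr fun c _ => ?_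
      rw [RingHom.map_det, RingHom.mapMatrix_apply, hψG]
      exact Matrix.isUnit_det_of_right_inverse (hGH c).1
    let F : L →+* B := IsLocalization.Away.lift (∏ c, (gfr (𝒟 := 𝒟) R c).det) hunit
    have hF : ∀ p, F (ι p) = ψ p := fun p => IsLocalization.Away.lift_eq _ hunit p
    have hFg : (fun c => (g c).map F) = G := by
      funext c
      rw [hg c, Matrix.map_map, ← hψG c]
      congr 1
      funext p
      exact hF p
    have hFh : (fun c => (h c).map F) = H := by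
      have := inv_map_XH hi F
      rw [hFg] at this
      exact inv_unique_XH this hGH
    have hFx : (x.map (ι.comp MvPolynomial.C)).map F = act G H (y.map (algebraMap U B)) := by
      rw [← hφ, Pt.map_map]
      congr 1
      funext r
      show F (ι (MvPolynomial.C r)) = φ r
      rw [hF]
      simp [ψ]
    have hkL : ∀ c : k, algebraMap U L (algebraMap k U c) =
        ι (MvPolynomial.C (algebraMap k R c)) := by
      intro c
      rw [← IsScalarTower.algebraMap_apply k U L,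
        IsScalarTower.algebraMap_apply k (MvPolynomial (Fin (𝒟.d + 1) × Fin 𝒟.n × Fin 𝒟.n) R) L]
      rfl
    have hFU : F.comp (algebraMap U L) = algebraMap U B := by
      refine hy.ext (fun c => ?_) ?_
      · rw [RingHom.comp_apply, hkL, hF]
        simp only [ψ, MvPolynomial.eval₂Hom_C]
        exact φ.commutes c
      · have : y.map (F.comp (algebraMap U L)) = (y.map (algebraMap U L)).map F := by
          rw [Pt.map_map]; rfl
        rw [this, e, act_map, hFg, hFh, hFx]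
        exact act_act hGH _
    have hH : (fun c => (H c).map (Ideal.Quotient.mk I)) =
        fun c => (h c).map (f : L →+* B ⧸ I) := by
      have := inv_map_XH hGH (Ideal.Quotient.mk I)
      rw [funext hG] at this
      exact inv_unique_XH this hi'
    have hfin : (Ideal.Quotient.mk I).comp F = (f : L →+* B ⧸ I) := by
      refine IsLocalization.ringHom_ext (Submonoid.powers (∏ c, (gfr (𝒟 := 𝒟) R c).det)) ?_
      refine MvPolynomial.ringHom_ext' ?_ ?_
      · have h1 : (((Ideal.Quotient.mk I).comp F).comp ι).comp MvPolynomial.C =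
            (Ideal.Quotient.mk I).comp (φ : R →+* B) := by
          ext r
          show Ideal.Quotient.mk I (F (ι (MvPolynomial.C r))) = Ideal.Quotient.mk I (φ r)
          rw [hF]
          simp [ψ]
        rw [h1]
        refine hx.ext (fun c => ?_) ?_
        · show Ideal.Quotient.mk I (φ (algebraMap k R c)) =
            f (ι (MvPolynomial.C (algebraMap k R c)))
          rw [← hkL, f.commutes, φ.commutes, hkB]
          rfl
        · have h2 : x.map ((Ideal.Quotient.mk I).comp (φ : R →+* B)) =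
              (x.map φ).map (Ideal.Quotient.mk I) := by
            rw [Pt.map_map]; rfl
          have h3 : x.map (((f : L →+* B ⧸ I).comp ι).comp MvPolynomial.C) =
              (x.map (ι.comp MvPolynomial.C)).map (f : L →+* B ⧸ I) := by
            rw [Pt.map_map]; rfl
          rw [h2, h3, hφ, act_map, funext hG, hH, e2]
      · rintro ⟨c, a, b⟩
        show Ideal.Quotient.mk I (F (ι (MvPolynomial.X (c, a, b)))) =
          f (ι (MvPolynomial.X (c, a, b)))
        rw [hF]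
        have h4 := congrFun (congrFun (hG c) a) b
        simp only [Matrix.map_apply, hg c, gfr, Matrix.of_apply] at h4
        simpa [ψ] using h4
    refine ⟨{ F with commutes' := fun u => DFunLike.congr_fun hFU u }, ?_⟩
    ext l
    exact DFunLike.congr_fun hfin l
  obtain ⟨m, f, hf⟩ := (Algebra.FiniteType.iff_quotient_mvPolynomial'' (R := U) (S := L)).mp hUL
  exact Algebra.FormallySmooth.flat_of_algHom_of_isNoetherianRing f hf

end Pool.Agent.P.MP_1bf4cb_ag
end
end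

-- part Pool.Agent.P.MP_1bf4cb_ag.YC
section

set_option autoImplicit false
set_option linter.unusedSectionVars false
set_option linter.unusedVariables false

open Function Matrix
open scoped TensorProduct

noncomputable section

namespace Pool.Agent.P.MP_1bf4cb_ag

variable {k : Type} [Field k] {𝒟 : Dat k}

/-- both sides agree -/
def Dia {C : Type} (y : Pt 𝒟 C) : Prop := ∀ c i, y.e (true, c, i) = y.e (false, c, i)

theorem LA_abs_YC {C : Type} [CommRing C] (c : Fin (𝒟.d + 1)) {e f : Mt 𝒟.n C} (h1 : f * e = e)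
    (h2 : e * f = f) : LA 𝒟 c e * LA 𝒟 c f = LA 𝒟 c e := by
  unfold LA
  split_ifs
  · rw [← transpose_mul, h1]
  · rw [mul_sub, mul_one, sub_mul, one_mul, h2, sub_self, sub_zero]

theorem LA_comm_YC {C : Type} [CommRing C] (c : Fin (𝒟.d + 1)) {e f : Mt 𝒟.n C}
    (h : e * f = f * e) : LA 𝒟 c e * LA 𝒟 c f = LA 𝒟 c f * LA 𝒟 c e := by
  unfold LA
  split_ifs
  · rw [← transpose_mul, ← transpose_mul, h]
  · simp only [mul_sub, sub_mul, mul_one, one_mul, h]
    abel

theorem LA_map_YC {C C' : Type} [CommRing C] [CommRing C'] (φ : C →+* C') (c : Fin (𝒟.d + 1))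
    (M : Mt 𝒟.n C) : (LA 𝒟 c M).map φ = LA 𝒟 c (M.map φ) := by
  unfold LA
  split_ifs
  · rfl
  · rw [Matrix.map_sub _ (map_sub φ), Matrix.map_one _ (map_zero φ) (map_one φ)]

theorem RB_map_YC {C C' : Type} [CommRing C] [CommRing C'] (φ : C →+* C') (c : Fin (𝒟.d + 1))
    (M : Mt 𝒟.n C) : (RB 𝒟 c M).map φ = RB 𝒟 c (M.map φ) := by
  unfold RB
  split_ifs
  · ext a b
    simp
  · rfl

theorem act_one_YC {C : Type} [CommRing C] (x : Pt 𝒟 C) :
    act (fun _ => 1) (fun _ => 1) x = x := by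
  refine Pt.ext (funext fun v => ?_) (funext fun c => ?_)
  · show 1 * x.e v * 1 = x.e v
    rw [one_mul, mul_one]
  · show LG 𝒟 c 1 1 * x.γ c * RB 𝒟 c 1 = x.γ c
    rw [RB_one, mul_one, LG, transpose_one, ite_self, one_mul]

theorem Dia.map_YC {C C' : Type} [CommRing C] [CommRing C'] {y : Pt 𝒟 C} (h : Dia y) (φ : C → C') :
    Dia (y.map φ) := fun c i => congrArg (fun M : Mt 𝒟.n C => M.map φ) (h c i)

theorem map_id_YC {C : Type} (y : Pt 𝒟 C) {φ : C → C} (h : ∀ a, φ a = a) : y.map φ = y := by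
  obtain rfl : φ = id := funext h
  rfl

theorem lift_sq {B : Type} [CommRing B] [Algebra k B] (I : Ideal B) (hI : I ^ 2 = ⊥)
    (y : Pt 𝒟 (B ⧸ I)) (hy : Sat1 y) (hd : Dia y) :
    ∃ x : Pt 𝒟 B, Sat1 x ∧ Dia x ∧ x.map (Ideal.Quotient.mk I) = y := by
  choose e he hπ using fun c => lift_chain I hI (fun i => y.e (false, c, i)) (hy.base.chain false c)
  choose f hf hfe using fun c => comm_chain (e c) (he c)
  have fc : ∀ c i j, f c i * f c j = f c j * f c i := fun c i j => by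
    rcases le_total i j with h | h
    · rw [(hf c i j h).1, (hf c i j h).2]
    · rw [(hf c j i h).1, (hf c j i h).2]
  have ff : ∀ c i, f c i * f c i = f c i := fun c i => (hf c i i le_rfl).1
  have hγ : ∀ c, ∃ γ : Mt 𝒟.n B, γ.map (Ideal.Quotient.mk I) = 1 ∧ ∀ i j, 𝒟.E c i j →
      LA 𝒟 c (e c i) * γ * RB 𝒟 c (e (c + 1) j) = 0 := fun c => by
    obtain ⟨γ, h1, h2⟩ := exists_gamma (ι := {p : Fin 𝒟.m × Fin 𝒟.m // 𝒟.E c p.1 p.2})
      (Ideal.Quotient.mk I).mapMatrix (fun p => LA 𝒟 c (f c p.1.1))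
      (fun p => RB 𝒟 c (f (c + 1) p.1.2)) (fun p p' => LA_comm_YC c (fc c _ _))
      (fun p p' => by rw [← RB_mul, ← RB_mul, fc]) (fun p => LA_abs_YC c (ff c _) (ff c _))
      (fun p => by rw [← RB_mul, ff]) (fun p => by
        have h3 := hy.base.edge false c p.1.1 p.1.2 p.2
        rw [hy.one, mul_one, ← hπ, ← hπ, ← LA_map_YC, ← RB_map_YC] at h3
        rw [← LA_abs_YC c (hfe c p.1.1).2 (hfe c p.1.1).1, ← (hfe (c + 1) p.1.2).2, RB_mul,
          mul_assoc, ← mul_assoc (LA 𝒟 c (e c p.1.1)), map_mul, map_mul, map_mul]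
        simp only [RingHom.mapMatrix_apply]
        rw [h3, zero_mul, mul_zero])
    refine ⟨γ, h1, fun i j hij => ?_⟩
    have h3 := h2 ⟨(i, j), hij⟩
    rw [← LA_abs_YC c (hfe c i).1 (hfe c i).2, ← (hfe (c + 1) j).1, RB_mul, mul_assoc (LA 𝒟 c _),
      mul_assoc (LA 𝒟 c _), ← mul_assoc (LA 𝒟 c (f c i) * γ), h3, zero_mul, mul_zero]
  choose γ hγ1 hγ2 using hγ
  let x0 : Pt 𝒟 B := ⟨fun v => e v.2.1 v.2.2, γ⟩
  have s0 : Sat0 x0 := ⟨fun _ c i j h => he c i j h, fun _ c i j h => hγ2 c i j h⟩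
  have m0 : x0.map (Ideal.Quotient.mk I) = y := by
    refine Pt.ext (funext fun v => ?_) (funext fun c => (hγ1 c).trans (hy.one c).symm)
    obtain ⟨s, c, i⟩ := v
    cases s
    · exact hπ c i
    · exact (hπ c i).trans (hd c i).symm
  obtain ⟨G, H, hi, hG, h1⟩ := lift_frames I hI x0 (g := fun _ => 1) (h := fun _ => 1)
    (fun _ => ⟨one_mul _, one_mul _⟩) (fun c => by rw [act_one_YC, m0, hy.one])
  have hH : ∀ c, (H c).map (Ideal.Quotient.mk I) = 1 := fun c => by
    have := congrArg (fun M => M.map (Ideal.Quotient.mk I)) (hi c).1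
    simp only [Matrix.map_mul, hG, one_mul] at this
    rw [this]
    exact Matrix.map_one _ (map_zero _) (map_one _)
  refine ⟨act G H x0, ⟨sat0_act s0 hi, h1⟩, fun _ _ => rfl, ?_⟩
  rw [act_map]
  simp only [hG, hH]
  rw [act_one_YC, m0]

theorem lift_nil {B C : Type} [CommRing B] [Algebra k B] [CommRing C] (π : B →+* C)
    (hπ : Surjective π) (hI : IsNilpotent (RingHom.ker π)) (y : Pt 𝒟 C) (hy : Sat1 y)
    (hd : Dia y) : ∃ x : Pt 𝒟 B, Sat1 x ∧ Dia x ∧ x.map π = y := by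
  have key : ∀ [Algebra k B] (y : Pt 𝒟 (B ⧸ RingHom.ker π)), Sat1 y → Dia y →
      ∃ x : Pt 𝒟 B, Sat1 x ∧ Dia x ∧ x.map (Ideal.Quotient.mk (RingHom.ker π)) = y := by
    refine Ideal.IsNilpotent.induction_on (RingHom.ker π) hI
      (P := fun S _ J => ∀ [Algebra k S] (y : Pt 𝒟 (S ⧸ J)), Sat1 y → Dia y →
        ∃ x : Pt 𝒟 S, Sat1 x ∧ Dia x ∧ x.map (Ideal.Quotient.mk J) = y) ?_ ?_
    · intro S _ J hJ _ y hy hd
      exact lift_sq J hJ y hy hd
    · intro S _ I J hIJ h1 h2 _ y hy hd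
      let ε := DoubleQuot.quotQuotEquivQuotOfLE hIJ
      obtain ⟨x1, s1, d1, m1⟩ := h2 (y.map (ε.symm : S ⧸ J →+* _)) (hy.map _) (hd.map_YC _)
      obtain ⟨x, s2, d2, m2⟩ := h1 x1 s1 d1
      refine ⟨x, s2, d2, ?_⟩
      have := congrArg (fun z => Pt.map z ε) m1
      simp only [← m2, Pt.map_map] at this
      exact this.trans (map_id_YC y fun a => ε.apply_symm_apply a)
  let ε := RingHom.quotientKerEquivOfSurjective hπ
  obtain ⟨x, s1, d1, m1⟩ := key (y.map (ε.symm : C →+* _)) (hy.map _) (hd.map_YC _)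
  refine ⟨x, s1, d1, ?_⟩
  have := congrArg (fun z => Pt.map z ε) m1
  simp only [Pt.map_map] at this
  exact this.trans (map_id_YC y fun a => ε.apply_symm_apply a)

end Pool.Agent.P.MP_1bf4cb_ag
end
end

-- part Pool.Agent.P.MP_1bf4cb_ag.XF
section

set_option autoImplicit false
set_option linter.unusedSectionVars false
set_option linter.unusedVariables false

open Function Matrix
open scoped TensorProduct

noncomputable section

namespace Pool.Agent.P.MP_1bf4cb_ag

variable {k : Type} [Field k] {𝒟 : Dat k}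

section

variable {C : Type} [CommRing C]

theorem dg_apply_XF {n : ℕ} (I : Finset (Fin n)) (a b : Fin n) :
    dg C I a b = if a = b then (if a ∈ I then 1 else 0) else 0 := by
  unfold dg
  rw [Matrix.diagonal_apply]

theorem dg_tr_XF {n : ℕ} (I : Finset (Fin n)) : (dg C I)ᵀ = dg C I := by
  unfold dg
  exact Matrix.diagonal_transpose _

theorem dg_dg_XF {n : ℕ} {I J : Finset (Fin n)} (h : I ⊆ J) : dg C J * dg C I = dg C I := by
  ext a b
  rw [dg_mul_apply, dg_apply_XF]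
  by_cases ha : a ∈ J
  · rw [if_pos ha]
  · rw [if_neg ha, if_neg (fun h' : a ∈ I => ha (h h')), ite_self]

theorem std_iff_XF {n : ℕ} (I : Finset (Fin n)) (M : Mt n C) :
    Std I M ↔ ∀ a b, ¬ (a ∈ I ∧ b ∉ I) → M a b = dg C I a b := by
  constructor
  · rintro ⟨h1, h2⟩ a b h
    by_cases hb : b ∈ I
    · have := congrFun (congrFun h2 a) b
      rwa [mul_dg_apply, if_pos hb] at this
    · have ha : a ∉ I := fun ha => h ⟨ha, hb⟩
      have := congrFun (congrFun h1 a) b
      rw [dg_mul_apply, if_neg ha] at this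
      rw [← this, dg_apply_XF, if_neg ha, ite_self]
  · intro h
    constructor
    · ext a b
      rw [dg_mul_apply]
      by_cases ha : a ∈ I
      · rw [if_pos ha]
      · rw [if_neg ha, h a b (fun h' => ha h'.1), dg_apply_XF, if_neg ha, ite_self]
    · ext a b
      rw [mul_dg_apply]
      by_cases hb : b ∈ I
      · rw [if_pos hb, h a b (fun h' => h'.2 hb)]
      · rw [if_neg hb, dg_apply_XF]
        by_cases hab : a = b
        · rw [if_pos hab, if_neg (by rw [hab]; exact hb)]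
        · rw [if_neg hab]

theorem chain_XF {n : ℕ} {I J : Finset (Fin n)} (h : I ⊆ J) {M N : Mt n C} (hM : Std I M)
    (hN : Std J N) : N * M = M := by
  calc N * M = N * (dg C J * dg C I * M) := by rw [dg_dg_XF h, hM.1]
    _ = N * dg C J * (dg C I * M) := by simp only [Matrix.mul_assoc]
    _ = dg C J * dg C I * M := by rw [hN.2, Matrix.mul_assoc]
    _ = M := by rw [dg_dg_XF h, hM.1]

theorem LA_l_XF (c : Fin (𝒟.d + 1)) {I : Finset (Fin 𝒟.n)} {M : Mt 𝒟.n C} (h : Std I M) :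
    LA 𝒟 c (dg C I) * LA 𝒟 c M = LA 𝒟 c (dg C I) := by
  unfold LA
  split_ifs
  · rw [← Matrix.transpose_mul, h.2]
  · rw [sub_mul, mul_sub, mul_sub, h.1]
    simp

theorem LA_r_XF (c : Fin (𝒟.d + 1)) {I : Finset (Fin 𝒟.n)} {M : Mt 𝒟.n C} (h : Std I M) :
    LA 𝒟 c M * LA 𝒟 c (dg C I) = LA 𝒟 c M := by
  unfold LA
  split_ifs
  · rw [← Matrix.transpose_mul, h.1]
  · rw [sub_mul, mul_sub, mul_sub, h.2]
    simp

theorem edge_iff_XF [Algebra k C] (c : Fin (𝒟.d + 1)) {I J : Finset (Fin 𝒟.n)} {M N : Mt 𝒟.n C}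
    (hM : Std I M) (hN : Std J N) (γ : Mt 𝒟.n C) :
    LA 𝒟 c M * γ * RB 𝒟 c N = 0 ↔ LA 𝒟 c (dg C I) * γ * dg C J = 0 := by
  have h1 : RB 𝒟 c N * dg C J = dg C J := by
    have := RB_mul c N (dg C J)
    rw [hN.2, RB_dg] at this
    exact this.symm
  have h2 : dg C J * RB 𝒟 c N = RB 𝒟 c N := by
    have := RB_mul c (dg C J) N
    rw [hN.1, RB_dg] at this
    exact this.symm
  constructor
  · intro h
    calc LA 𝒟 c (dg C I) * γ * dg C J
        = LA 𝒟 c (dg C I) * LA 𝒟 c M * γ * (RB 𝒟 c N * dg C J) := by rw [LA_l_XF c hM, h1]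
      _ = LA 𝒟 c (dg C I) * (LA 𝒟 c M * γ * RB 𝒟 c N) * dg C J := by
        simp only [Matrix.mul_assoc]
      _ = 0 := by rw [h, Matrix.mul_zero, Matrix.zero_mul]
  · intro h
    calc LA 𝒟 c M * γ * RB 𝒟 c N
        = LA 𝒟 c M * LA 𝒟 c (dg C I) * γ * (dg C J * RB 𝒟 c N) := by rw [LA_r_XF c hM, h2]
      _ = LA 𝒟 c M * (LA 𝒟 c (dg C I) * γ * dg C J) * RB 𝒟 c N := by
        simp only [Matrix.mul_assoc]
      _ = 0 := by rw [h, Matrix.mul_zero, Matrix.zero_mul]

/-- the rows that an edge equation sees -/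
def row_XF (c : Fin (𝒟.d + 1)) (I : Finset (Fin 𝒟.n)) (a : Fin 𝒟.n) : Prop :=
  if c = Fin.last 𝒟.d then a ∈ I else a ∉ I

theorem zero_iff_XF (c : Fin (𝒟.d + 1)) (I J : Finset (Fin 𝒟.n)) (γ : Mt 𝒟.n C) :
    LA 𝒟 c (dg C I) * γ * dg C J = 0 ↔ ∀ a b, row_XF c I a → b ∈ J → γ a b = 0 := by
  unfold LA row_XF
  split_ifs
  · rw [dg_tr_XF]
    constructor
    · intro h a b ha hb
      have := congrFun (congrFun h a) b
      rwa [mul_dg_apply, if_pos hb, dg_mul_apply, if_pos ha] at this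
    · intro h
      ext a b
      rw [mul_dg_apply, dg_mul_apply, Matrix.zero_apply]
      split_ifs with hb ha
      · exact h a b ha hb
      · rfl
      · rfl
  · rw [sub_mul, Matrix.one_mul]
    constructor
    · intro h a b ha hb
      have := congrFun (congrFun h a) b
      rwa [mul_dg_apply, if_pos hb, Matrix.sub_apply, dg_mul_apply, if_neg ha, sub_zero] at this
    · intro h
      ext a b
      rw [mul_dg_apply, Matrix.sub_apply, dg_mul_apply, Matrix.zero_apply]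
      split_ifs with hb ha
      · exact sub_self _
      · rw [sub_zero]
        exact h a b ha hb
      · rfl

end

/-- the entries that an edge equation forces to vanish -/
def frc_XF (T : Ix 𝒟.d 𝒟.m → Finset (Fin 𝒟.n)) (c : Fin (𝒟.d + 1)) (a b : Fin 𝒟.n) : Prop :=
  ∃ s i j, 𝒟.E c i j ∧ row_XF c (T (s, c, i)) a ∧ b ∈ T (s, c + 1, j)

/-- the free entries -/
abbrev Var_XF (T : Ix 𝒟.d 𝒟.m → Finset (Fin 𝒟.n)) : Type :=
  {p : Ix 𝒟.d 𝒟.m × Fin 𝒟.n × Fin 𝒟.n // p.2.1 ∈ T p.1 ∧ p.2.2 ∉ T p.1} ⊕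
    {p : Fin (𝒟.d + 1) × Fin 𝒟.n × Fin 𝒟.n // ¬ frc_XF T p.1 p.2.1 p.2.2}

open Classical in
/-- the point with given free entries -/
def pt_XF (T : Ix 𝒟.d 𝒟.m → Finset (Fin 𝒟.n)) {C : Type} [CommRing C] (f : Var_XF T → C) :
    Pt 𝒟 C :=
  ⟨fun v => Matrix.of fun a b =>
      if h : a ∈ T v ∧ b ∉ T v then f (Sum.inl ⟨(v, a, b), h⟩) else dg C (T v) a b,
    fun c => Matrix.of fun a b => if h : frc_XF T c a b then 0 else f (Sum.inr ⟨(c, a, b), h⟩)⟩

/-- the free entries of a point -/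
def crd_XF (T : Ix 𝒟.d 𝒟.m → Finset (Fin 𝒟.n)) {C : Type} (x : Pt 𝒟 C) : Var_XF T → C :=
  Sum.elim (fun p => x.e p.1.1 p.1.2.1 p.1.2.2) (fun p => x.γ p.1.1 p.1.2.1 p.1.2.2)

variable {T : Ix 𝒟.d 𝒟.m → Finset (Fin 𝒟.n)} {C C' : Type} [CommRing C] [CommRing C']

theorem crd_pt_XF (f : Var_XF T → C) : crd_XF T (pt_XF T f) = f := by
  funext p
  rcases p with ⟨⟨v, a, b⟩, h⟩ | ⟨⟨c, a, b⟩, h⟩
  · exact dif_pos h
  · exact dif_neg h

theorem pt_map_XF (f : Var_XF T → C) (φ : C →+* C') :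
    (pt_XF T f).map φ = pt_XF T (φ ∘ f) := by
  apply Pt.ext
  · funext v
    ext a b
    simp only [pt_XF, Pt.map, Matrix.map_apply, Matrix.of_apply]
    split_ifs
    · rfl
    · exact congrFun (congrFun (dg_map φ (T v)) a) b
  · funext c
    ext a b
    simp only [pt_XF, Pt.map, Matrix.map_apply, Matrix.of_apply]
    split_ifs
    · exact map_zero φ
    · rfl

theorem pt_crd_XF [Algebra k C] {x : Pt 𝒟 C} (hx : Sat (fun v => some (T v)) x) :
    pt_XF T (crd_XF T x) = x := by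
  apply Pt.ext
  · funext v
    ext a b
    simp only [pt_XF, Matrix.of_apply]
    split_ifs with h
    · rfl
    · exact ((std_iff_XF _ _).1 (hx.std v _ rfl) a b h).symm
  · funext c
    ext a b
    simp only [pt_XF, Matrix.of_apply]
    split_ifs with h
    · obtain ⟨s, i, j, hE, ha, hb⟩ := h
      exact ((zero_iff_XF c _ _ _).1 ((edge_iff_XF c (hx.std (s, c, i) _ rfl)
        (hx.std (s, c + 1, j) _ rfl) _).1 (hx.base.edge s c i j hE)) a b ha hb).symm
    · rfl

theorem sat_pt_XF [Algebra k C] (hT : ∀ s c i j, i ≤ j → T (s, c, i) ⊆ T (s, c, j))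
    (f : Var_XF T → C) : Sat (fun v => some (T v)) (pt_XF T f) := by
  have h : ∀ v, Std (T v) ((pt_XF T f).e v) := fun v =>
    (std_iff_XF _ _).2 fun a b h => dif_neg h
  refine ⟨⟨fun s c i j hij => chain_XF (hT s c i j hij) (h _) (h _), fun s c i j hE => ?_⟩,
    fun v I hI => ?_⟩
  · exact (edge_iff_XF c (h _) (h _) _).2 ((zero_iff_XF c _ _ _).2 fun a b ha hb =>
      dif_pos (show frc_XF T c a b from ⟨s, i, j, hE, ha, hb⟩))
  · rw [← Option.some.inj hI]
    exact h v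

/-- all subspaces fixed: an affine space or empty -/
theorem cell_all (T : Ix 𝒟.d 𝒟.m → Finset (Fin 𝒟.n)) : CellT (𝒟 := 𝒟) fun v => some (T v) := by
  intro R _ _ x hx
  rcases subsingleton_or_nontrivial R with hR | hR
  · exact cell_trivial R
  have hT : ∀ s c i j, i ≤ j → T (s, c, i) ⊆ T (s, c, j) := fun s c i j hij =>
    Sat.nest hx.sat hij rfl rfl
  obtain ⟨ψ, hψ⟩ := hx.univ (MvPolynomial (Var_XF T) k) (pt_XF T MvPolynomial.X)
    (sat_pt_XF hT _)
  let φ : MvPolynomial (Var_XF T) k →ₐ[k] R := MvPolynomial.aeval (crd_XF T x)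
  have hφ : (pt_XF T MvPolynomial.X).map φ = x := by
    have := pt_map_XF (T := T) (MvPolynomial.X : Var_XF T → MvPolynomial (Var_XF T) k)
      (φ : MvPolynomial (Var_XF T) k →+* R)
    refine this.trans ?_
    have h2 : ((φ : MvPolynomial (Var_XF T) k →+* R) ∘ MvPolynomial.X) = crd_XF T x := by
      funext p
      exact MvPolynomial.aeval_X _ p
    rw [h2]
    exact pt_crd_XF hx.sat
  have h1 : φ.comp ψ = AlgHom.id k R := by
    apply AlgHom.coe_ringHom_injective
    apply Rep.ext hx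
    · intro c
      exact ((φ.comp ψ).commutes c).trans ((AlgHom.id k R).commutes c).symm
    · have := Pt.map_map x ψ φ
      rw [hψ, hφ] at this
      exact this.symm
  have h2 : ψ.comp φ = AlgHom.id k _ := by
    apply MvPolynomial.algHom_ext
    intro p
    have h3 : φ (MvPolynomial.X p) = crd_XF T x p := MvPolynomial.aeval_X _ p
    have h4 : ψ (crd_XF T x p) = crd_XF T (x.map ψ) p := by
      rcases p with p | p <;> rfl
    rw [AlgHom.comp_apply, h3, h4, hψ, crd_pt_XF]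
    rfl
  exact cell_equiv (AlgEquiv.ofAlgHom φ ψ h1 h2).toRingEquiv (cell_mv (cell_field k) _)

end Pool.Agent.P.MP_1bf4cb_ag
end
end

-- part Pool.Agent.P.MP_1bf4cb_ag.YD
section

set_option autoImplicit false
set_option linter.unusedSectionVars false
set_option linter.unusedVariables false

open Function Matrix
open scoped TensorProduct

noncomputable section

namespace Pool.Agent.P.MP_1bf4cb_ag

variable {k : Type} [Field k] (𝒟 : Dat k)

/-- the `Q`-th power map -/
def pw_YD (Q : ℕ) (hQ : 0 < Q) (C : Type) [CommRing C] (hadd : ∀ x y : C, (x + y) ^ Q = x ^ Q + y ^ Q) :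
    C →+* C where
  toFun x := x ^ Q
  map_one' := one_pow _
  map_mul' x y := mul_pow x y _
  map_zero' := zero_pow hQ.ne'
  map_add' := hadd

/-- the equations on one side -/
def eqs1_YD {A : Type} [CommRing A] (s : Bool) (e : Ix 𝒟.d 𝒟.m → Mt 𝒟.n A) : Set (Mt 𝒟.n A) :=
  {Z | ∃ c i j, (i ≤ j ∧ Z = e (s, c, j) * e (s, c, i) - e (s, c, i)) ∨
    (𝒟.E c i j ∧ c ≠ Fin.last 𝒟.d ∧ Z = e (s, c, i) * e (s, c + 1, j) - e (s, c + 1, j)) ∨
    (𝒟.E c i j ∧ c = Fin.last 𝒟.d ∧ Z = (e (s, c, i))ᵀ * (e (s, 0, j)).map (· ^ 𝒟.q))}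

theorem eqs1_map_YD {A A' : Type} [CommRing A] [CommRing A'] (s : Bool)
    (e : Ix 𝒟.d 𝒟.m → Mt 𝒟.n A) (φ φ' : A →+* A')
    (h : ∀ c i, (e (s, c, i)).map φ = (e (s, c, i)).map φ') {Z : Mt 𝒟.n A}
    (hZ : Z ∈ eqs1_YD 𝒟 s e) : Z.map φ = Z.map φ' := by
  have hp : ∀ (ψ : A →+* A') (M : Mt 𝒟.n A),
      (M.map (· ^ 𝒟.q)).map ψ = (M.map ψ).map (· ^ 𝒟.q) := fun ψ M => by
    ext a b
    simp
  obtain ⟨c, i, j, ⟨-, rfl⟩ | ⟨-, -, rfl⟩ | ⟨-, -, rfl⟩⟩ := hZ
  · rw [Matrix.map_sub _ (map_sub φ), Matrix.map_sub _ (map_sub φ'), Matrix.map_mul, Matrix.map_mul,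
      h, h]
  · rw [Matrix.map_sub _ (map_sub φ), Matrix.map_sub _ (map_sub φ'), Matrix.map_mul, Matrix.map_mul,
      h, h]
  · rw [Matrix.map_mul, Matrix.map_mul, hp, hp, transpose_map, transpose_map, h, h]

/-- a point glued from two points -/
theorem sat1_glue_YD {C : Type} [CommRing C] {x y : Pt 𝒟 C} (hx : Sat1 x)
    (hy : ∀ Z ∈ eqs1_YD 𝒟 true y.e, Z = 0) :
    Sat1 (𝒟 := 𝒟) ⟨fun v => if v.1 = true then y.e v else x.e v, fun _ => 1⟩ := by
  refine ⟨⟨fun s c i j hij => ?_, fun s c i j hE => ?_⟩, fun _ => rfl⟩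
  · cases s
    · simpa using hx.base.chain false c i j hij
    · simpa [sub_eq_zero] using hy _ ⟨c, i, j, Or.inl ⟨hij, rfl⟩⟩
  · cases s
    · have := hx.base.edge false c i j hE
      rw [hx.one] at this
      simpa using this
    · by_cases hc : c = Fin.last 𝒟.d
      · have := hy _ ⟨c, i, j, Or.inr (Or.inr ⟨hE, hc, rfl⟩)⟩
        subst hc
        simpa [LA, RB] using this
      · have := hy _ ⟨c, i, j, Or.inr (Or.inl ⟨hE, hc, rfl⟩)⟩
        rw [sub_eq_zero] at this
        simp [LA, RB, hc, sub_mul, this]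

/-- the Frobenius of the first factor is flat -/
theorem flat_frob (Q : ℕ) (hQ : 0 < Q)
    (hadd : ∀ (C : Type) [CommRing C] [Algebra k C] (x y : C), (x + y) ^ Q = x ^ Q + y ^ Q) :
    ∃ φ : Crd k 𝒟.n 𝒟.q 𝒟.E →+* Crd k 𝒟.n 𝒟.q 𝒟.E, φ.Flat ∧
      (∀ c i, (univ k 𝒟.n 𝒟.q 𝒟.E (false, c, i)).map φ =
        (univ k 𝒟.n 𝒟.q 𝒟.E (false, c, i)).map (· ^ Q)) ∧
      ∀ c i, (univ k 𝒟.n 𝒟.q 𝒟.E (true, c, i)).map φ = univ k 𝒟.n 𝒟.q 𝒟.E (true, c, i) := by
  classical
  let S := MvPolynomial (Ix 𝒟.d 𝒟.m × Fin 𝒟.n × Fin 𝒟.n) k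
  let J : Ideal S := ents (eqs 𝒟.q 𝒟.E (gen k 𝒟.n))
  let r : Ix 𝒟.d 𝒟.m × Fin 𝒟.n × Fin 𝒟.n → ℕ := fun v => if v.1.1 = true then 1 else Q
  let φS : S →+* S := (MvPolynomial.aeval (R := k) fun v => (MvPolynomial.X v : S) ^ r v).toRingHom
  have hφS : φS.Flat := flat_pexp k _ r fun v => by
    simp only [r]
    split_ifs
    · exact one_pos
    · exact hQ
  have hφX : ∀ v, φS (MvPolynomial.X v) = MvPolynomial.X v ^ r v := fun v => MvPolynomial.aeval_X _ _
  have g0 : ∀ c i, (gen k 𝒟.n (false, c, i) : Mt 𝒟.n S).map φS =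
      (gen k 𝒟.n (false, c, i) : Mt 𝒟.n S).map (pw_YD Q hQ S (hadd S)) := fun c i =>
    Matrix.ext fun a b => hφX ((false, c, i), a, b)
  have g1 : ∀ c i, (gen k 𝒟.n (true, c, i) : Mt 𝒟.n S).map φS =
      (gen k 𝒟.n (true, c, i) : Mt 𝒟.n S).map (RingHom.id S) := fun c i =>
    Matrix.ext fun a b => (hφX ((true, c, i), a, b)).trans (pow_one _)
  have hgen : ∀ y ∈ {x | ∃ Z ∈ eqs 𝒟.q 𝒟.E (gen k 𝒟.n : _ → Mt 𝒟.n S), ∃ a b, x = Z a b},
      φS y = y ^ Q ∨ φS y = y := by
    rintro _ ⟨Z, ⟨s, hZ⟩, a, b, rfl⟩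
    cases s
    · exact Or.inl (congrFun₂ (eqs1_map_YD 𝒟 false _ _ _ g0 hZ) a b)
    · exact Or.inr (congrFun₂ (eqs1_map_YD 𝒟 true _ _ _ g1 hZ) a b)
  have hle : J.map φS ≤ J := by
    rw [Ideal.map_le_iff_le_comap]
    refine Ideal.span_le.2 fun y hy => ?_
    have hy' : y ∈ J := Ideal.subset_span hy
    rcases hgen y hy with h | h
    · exact show φS y ∈ J from h ▸ J.pow_mem_of_mem hy' Q hQ
    · exact show φS y ∈ J from h.symm ▸ hy'
  let B := S ⧸ J.map φS
  let π : B →+* S ⧸ J := Ideal.Quotient.factor hle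
  let j : S ⧸ J →+* B := Ideal.quotientMap (J.map φS) φS Ideal.le_comap_map
  have hker : ∀ i : B, π i = 0 → i ^ Q = 0 := by
    intro i hi
    obtain ⟨y, rfl⟩ := Ideal.Quotient.mk_surjective i
    have hy : y ∈ J := Ideal.Quotient.eq_zero_iff_mem.1 hi
    have : J ≤ RingHom.ker ((pw_YD Q hQ B (hadd B)).comp (Ideal.Quotient.mk _)) := by
      refine Ideal.span_le.2 fun y hy => ?_
      have hy' : φS y ∈ J.map φS := Ideal.mem_map_of_mem _ (Ideal.subset_span hy)
      show (Ideal.Quotient.mk (J.map φS) y) ^ Q = 0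
      rcases hgen y hy with h | h
      · rw [← map_pow, ← h]
        exact Ideal.Quotient.eq_zero_iff_mem.2 hy'
      · rw [h] at hy'
        rw [Ideal.Quotient.eq_zero_iff_mem.2 hy', zero_pow hQ.ne']
    exact this hy
  have hnil : IsNilpotent (RingHom.ker π) :=
    (Ideal.FG.isNilpotent_iff_le_nilradical (IsNoetherian.noetherian _)).2
      fun i hi => ⟨Q, hker i hi⟩
  have hx := rep_crd 𝒟
  let u := univ k 𝒟.n 𝒟.q 𝒟.E
  have hd : Sat1 (𝒟 := 𝒟) ⟨fun v => u (false, v.2), fun _ => 1⟩ :=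
    ⟨⟨fun s c i j hij => hx.sat.base.chain false c i j hij,
      fun s c i j hE => hx.sat.base.edge false c i j hE⟩, fun _ => rfl⟩
  obtain ⟨x, hx1, -, hx2⟩ := lift_nil π (Ideal.Quotient.factor_surjective hle) hnil _ hd
    fun _ _ => rfl
  let y : Pt 𝒟 B := ⟨fun v => (gen k 𝒟.n v : Mt 𝒟.n S).map (Ideal.Quotient.mk _), fun _ => 1⟩
  have hy : ∀ Z ∈ eqs1_YD 𝒟 true y.e, Z = 0 := by
    have key : ∀ Z ∈ eqs1_YD 𝒟 true (gen k 𝒟.n : _ → Mt 𝒟.n S),
        Z.map (Ideal.Quotient.mk (J.map φS)) = 0 := fun Z hZ => by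
      ext a b
      have h1 : φS (Z a b) = Z a b := congrFun₂ (eqs1_map_YD 𝒟 true _ _ _ g1 hZ) a b
      have h2 : Z a b ∈ J := Ideal.subset_span ⟨Z, ⟨true, hZ⟩, a, b, rfl⟩
      exact Ideal.Quotient.eq_zero_iff_mem.2 (h1 ▸ Ideal.mem_map_of_mem _ h2)
    rintro Z ⟨c, i, j, ⟨h, rfl⟩ | ⟨h, h', rfl⟩ | ⟨h, h', rfl⟩⟩
    · have := key _ ⟨c, i, j, Or.inl ⟨h, rfl⟩⟩
      rwa [Matrix.map_sub _ (map_sub _), Matrix.map_mul] at this
    · have := key _ ⟨c, i, j, Or.inr (Or.inl ⟨h, h', rfl⟩)⟩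
      rwa [Matrix.map_sub _ (map_sub _), Matrix.map_mul] at this
    · have := key _ ⟨c, i, j, Or.inr (Or.inr ⟨h, h', rfl⟩)⟩
      rw [Matrix.map_mul, transpose_map] at this
      refine Eq.trans ?_ this
      congr 1
  obtain ⟨g, hg⟩ := hx.univ B _ (sat1_glue_YD 𝒟 hx1 hy)
  have hgX : ∀ v a b, g (Ideal.Quotient.mk J (MvPolynomial.X (v, a, b))) =
      (if v.1 = true then y.e v else x.e v) a b := fun v a b =>
    congrFun₂ (congrFun (congrArg Pt.e hg) v) a b
  have hπx : ∀ c i a b, π (x.e (false, c, i) a b) =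
      Ideal.Quotient.mk J (MvPolynomial.X ((false, c, i), a, b)) := fun c i a b =>
    congrFun₂ (congrFun (congrArg Pt.e hx2) (false, c, i)) a b
  have hext : ∀ {T : Type} [CommRing T] (f f' : S ⧸ J →+* T),
      (∀ c : k, f (algebraMap k _ c) = f' (algebraMap k _ c)) →
      (∀ v, f (Ideal.Quotient.mk J (MvPolynomial.X v)) = f' (Ideal.Quotient.mk J (MvPolynomial.X v))) →
      f = f' := fun f f' h1 h2 =>
    Ideal.Quotient.ringHom_ext (MvPolynomial.ringHom_ext h1 h2)
  have hφk : ∀ c : k, φS (algebraMap k S c) = algebraMap k S c := fun c => AlgHom.commutes _ c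
  have hjk : ∀ c : k, j (algebraMap k _ c) = algebraMap k B c := fun c =>
    congrArg (Ideal.Quotient.mk (J.map φS)) (hφk c)
  have hjX : ∀ v, j (Ideal.Quotient.mk J (MvPolynomial.X v)) =
      Ideal.Quotient.mk (J.map φS) (MvPolynomial.X v) ^ r v := fun v =>
    (congrArg (Ideal.Quotient.mk (J.map φS)) (hφX v)).trans (map_pow _ _ _)
  have hπX : ∀ z : S, π (Ideal.Quotient.mk (J.map φS) z) = Ideal.Quotient.mk J z := fun z => rfl
  refine ⟨π.comp j, flat_of_retract j (g : S ⧸ J →+* B) π _ (flat_quot φS hφS J) ?_ rfl ?_, ?_, ?_⟩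
  · refine hext _ _ (fun c => congrArg π (g.commutes c)) ?_
    rintro ⟨⟨s, c, i⟩, a, b⟩
    refine (congrArg π (hgX _ a b)).trans ?_
    cases s
    · exact hπx c i a b
    · rfl
  · refine hext _ _ (fun c => ?_) ?_
    · exact (congrArg (fun t => g (π t)) (hjk c)).trans ((g.commutes c).trans (hjk c).symm)
    · rintro ⟨⟨s, c, i⟩, a, b⟩
      refine (congrArg (fun t => g (π t)) (hjX _)).trans (Eq.trans ?_ (hjX _).symm)
      refine (congrArg g (map_pow π _ _)).trans ((map_pow g _ _).trans ?_)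
      refine (congrArg (· ^ r ((s, c, i), a, b)) (hgX (s, c, i) a b)).trans ?_
      cases s
      · have h1 := hker (x.e (false, c, i) a b -
          Ideal.Quotient.mk (J.map φS) (MvPolynomial.X ((false, c, i), a, b)))
          (by rw [map_sub, hπx, hπX, sub_self])
        have h2 := map_sub (pw_YD Q hQ B (hadd B)) (x.e (false, c, i) a b)
          (Ideal.Quotient.mk (J.map φS) (MvPolynomial.X ((false, c, i), a, b)))
        exact sub_eq_zero.1 (h2.symm.trans h1)
      · rfl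
  · intro c i
    ext a b
    exact (congrArg π (hjX ((false, c, i), a, b))).trans (map_pow π _ _)
  · intro c i
    ext a b
    exact (congrArg π (hjX ((true, c, i), a, b))).trans ((map_pow π _ _).trans (pow_one _))

end Pool.Agent.P.MP_1bf4cb_ag
end
end

-- part Pool.Agent.P.MP_1bf4cb_ag.Main
section

set_option autoImplicit false
set_option linter.unusedSectionVars false
set_option linter.unusedVariables false

open Function Matrix
open scoped TensorProduct

noncomputable section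

namespace Pool.Agent.P.MP_1bf4cb_ag

theorem fg_graph {k : Type} [Field k] (𝒟 : Dat k) :
    ∃ H : AddSubgroup (G0 (Crd k 𝒟.n 𝒟.q 𝒟.E)), H.FG ∧
      ∀ b : ℕ, cyc (graph (𝒟.q ^ (2 * b)) (univ k 𝒟.n 𝒟.q 𝒟.E)) ∈ H := by
  classical
  set R := Crd k 𝒟.n 𝒟.q 𝒟.E with hR
  have hx := rep_crd 𝒟
  set x : Pt 𝒟 R := ⟨univ k 𝒟.n 𝒟.q 𝒟.E, fun _ => 1⟩ with hxdef
  have := hx.noeth
  obtain ⟨U, _, _, y, hy⟩ := exists_rep (𝒟 := 𝒟) fun _ => none
  have hU : Cell U := cell_of_all cell_all U y hy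
  let D := MvPolynomial (Fin (𝒟.d + 1) × Fin 𝒟.n × Fin 𝒟.n) R
  let s : D := ∏ c, (gfr (𝒟 := 𝒟) R c).det
  let L := Localization.Away s
  let g : Fin (𝒟.d + 1) → Mt 𝒟.n L := fun c => (gfr R c).map (algebraMap D L)
  have hs : IsUnit (algebraMap D L s) := IsLocalization.Away.algebraMap_isUnit s
  have hg : ∀ c, IsUnit (g c).det := fun c => by
    have h1 : (g c).det = algebraMap D L (gfr (𝒟 := 𝒟) R c).det :=
      (RingHom.map_det (algebraMap D L) _).symm
    rw [h1]
    exact isUnit_of_dvd_unit (map_dvd _ (Finset.dvd_prod_of_mem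
      (fun c => (gfr (𝒟 := 𝒟) R c).det) (Finset.mem_univ c))) hs
  let h : Fin (𝒟.d + 1) → Mt 𝒟.n L := fun c => (g c)⁻¹
  have hi : Inv g h := fun c => ⟨mul_nonsing_inv _ (hg c), nonsing_inv_mul _ (hg c)⟩
  have hi' : Inv h g := fun c => (hi c).symm
  let ι : R →+* L := (algebraMap D L).comp MvPolynomial.C
  have h1 : Sat1 (x.map ι) := hx.sat.map ι
  obtain ⟨ψ, hψ⟩ := hy.univ L (act h g (x.map ι))
    ⟨sat0_act h1.base hi', fun v I hv => by cases hv⟩
  let : Algebra U L := (ψ : U →+* L).toAlgebra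
  have : IsScalarTower k U L := IsScalarTower.of_algebraMap_eq fun c => (ψ.commutes c).symm
  have : Module.Flat U L := flat_lang hx hy (fun c => rfl) hi hψ
  have he : MvPolynomial.eval (fun v : Fin (𝒟.d + 1) × Fin 𝒟.n × Fin 𝒟.n =>
      (1 : Mt 𝒟.n R) v.2.1 v.2.2) s = 1 := by
    rw [map_prod]
    refine Finset.prod_eq_one fun c _ => ?_
    rw [RingHom.map_det]
    have : (MvPolynomial.eval (fun v : Fin (𝒟.d + 1) × Fin 𝒟.n × Fin 𝒟.n =>
        (1 : Mt 𝒟.n R) v.2.1 v.2.2)).mapMatrix (gfr (𝒟 := 𝒟) R c) = 1 := by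
      ext a b
      simp [gfr]
    rw [this, det_one]
  obtain ⟨H, hH, hm⟩ := key (L := L) _ s he hU
  refine ⟨H, hH, fun b => hm _ ⟨(graph (𝒟.q ^ (2 * b)) (x.map ι).e).comap (ψ : U →+* L), ?_⟩⟩
  rw [Ideal.map_map, graph_map]
  exact graph_ext (ψ : U →+* L) y hi h1.one hψ b

theorem add_pow_card (k : Type) [Field k] (p : ℕ) [hp : Fact p.Prime] [CharP k p] (r : ℕ)
    (C : Type) [CommRing C] [Algebra k C] (x y : C) : (x + y) ^ p ^ r = x ^ p ^ r + y ^ p ^ r := by
  cases subsingleton_or_nontrivial C with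
  | inl h => exact Subsingleton.elim _ _
  | inr h =>
    have : CharP C p := charP_of_injective_algebraMap (algebraMap k C).injective p
    exact add_pow_char_pow x y p r

/-- the data attached to the parameters -/
def dat (k : Type) [Field k] (p e : ℕ) [hp : Fact p.Prime] [CharP k p] (he : 0 < e) (n m d : ℕ)
    (E : Fin (d + 1) → Fin m → Fin m → Prop) : Dat k :=
  ⟨n, m, d, p ^ e, E, Nat.one_lt_pow he.ne' hp.out.one_lt, add_pow_card k p e⟩

theorem not_indep (k : Type) [Field k] [Finite k] (p e : ℕ) [CharP k p] (he : 0 < e) (n m d : ℕ)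
    (E : Fin (d + 1) → Fin m → Fin m → Prop) :
    ¬ LinearIndependent ℤ fun a : ℕ => cyc (graph (Nat.card k ^ a) (univ k n (p ^ e) E)) := by
  have hp : Fact p.Prime := ⟨CharP.char_is_prime k p⟩
  cases nonempty_fintype k
  obtain ⟨f, -, hf⟩ := FiniteField.card k p
  obtain ⟨H, hH, hm⟩ := fg_graph (dat k p e he n m d E)
  refine dep hH (ι := fun j => 2 * e * j) (mul_right_injective₀ (by omega)) fun j => ?_
  have h1 : Nat.card k ^ (2 * e * j) = (p ^ e) ^ (2 * (f * j)) := by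
    rw [Nat.card_eq_fintype_card, hf, ← pow_mul, ← pow_mul]
    congr 1
    ring
  rw [h1]
  exact hm (f * j)

theorem graph_shift {A : Type} [CommRing A] {d m n : ℕ} (φ : A →+* A) (Q a : ℕ)
    (u : Ix d m → Mt n A) (h0 : ∀ c i, (u (false, c, i)).map φ = (u (false, c, i)).map (· ^ Q))
    (h1 : ∀ c i, (u (true, c, i)).map φ = u (true, c, i)) :
    (graph (Q ^ a) u).map φ = graph (Q ^ (a + 1)) u := by
  rw [graph_map]
  unfold graph
  congr 1
  ext Z
  refine exists_congr fun c => exists_congr fun i => ?_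
  have e2 : ((u (false, c, i)).map φ).map (· ^ Q ^ a) = (u (false, c, i)).map (· ^ Q ^ (a + 1)) := by
    rw [h0]
    ext s t
    simp only [Matrix.map_apply]
    rw [← pow_mul, ← pow_succ']
  simp only [e2, h1]

theorem main (k : Type) [Field k] [Finite k] (p e : ℕ) [CharP k p] (he : 0 < e) (n m d : ℕ)
    (E : Fin (d + 1) → Fin m → Fin m → Prop) (N : ℕ) (P : Fin (N + 1) → Polynomial ℚ)
    (hP : Pairwise fun i j => IsCoprime (P i) (P j)) :
    ∃ π : Fin (N + 1) → Polynomial ℚ, (∀ i j, P j ∣ π i - if i = j then 1 else 0) ∧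
      (∀ i j, ev (Nat.card k) (univ k n (p ^ e) E) (π i * π j) =
        if i = j then ev (Nat.card k) (univ k n (p ^ e) E) (π i) else 0) ∧
      ∑ i, ev (Nat.card k) (univ k n (p ^ e) E) (π i) = ev (Nat.card k) (univ k n (p ^ e) E) 1 := by
  have hp : Fact p.Prime := ⟨CharP.char_is_prime k p⟩
  have hd := not_indep k p e he n m d E
  cases nonempty_fintype k
  obtain ⟨f, -, hf⟩ := FiniteField.card k p
  rw [← Nat.card_eq_fintype_card] at hf
  have hadd : ∀ (C : Type) [CommRing C] [Algebra k C] (x y : C),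
      (x + y) ^ Nat.card k = x ^ Nat.card k + y ^ Nat.card k := fun C _ _ x y => by
    rw [hf]
    exact add_pow_card k p f C x y
  have := (rep_crd (dat k p e he n m d E)).noeth
  obtain ⟨φ, hφ, h0, h1⟩ := flat_frob (dat k p e he n m d E) (Nat.card k) Nat.card_pos hadd
  obtain ⟨Φ, hΦ⟩ := exists_shift φ hφ
  obtain ⟨c, hc, hann⟩ := exists_ann Φ
    (fun a : ℕ => cyc (graph (Nat.card k ^ a) (univ k n (p ^ e) E))) (fun a => by
      refine (hΦ _).trans (congrArg cyc ?_)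
      exact graph_shift φ _ a _ h0 h1) hd
  obtain ⟨π, h2, h3, h4⟩ := exists_crt P hP c hc
  let ℓ : Polynomial ℚ →+ ℚ ⊗[ℤ] G0 (Crd k n (p ^ e) E) :=
    { toFun := ev (Nat.card k) (univ k n (p ^ e) E)
      map_zero' := Polynomial.sum_zero_index _
      map_add' := fun f g => Polynomial.sum_add_index f g _ (fun _ => TensorProduct.zero_tmul _ _)
        fun _ _ _ => TensorProduct.add_tmul _ _ _ }
  have hz : ∀ u v : Polynomial ℚ, c ∣ u - v → ℓ u = ℓ v := by
    rintro u v ⟨w, hw⟩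
    rw [← sub_eq_zero, ← map_sub, hw]
    exact hann w
  refine ⟨π, h4, fun i j => ?_, ?_⟩
  · have := hz _ _ (h2 i j)
    split_ifs at this ⊢
    · exact this
    · exact this.trans (map_zero ℓ)
  · exact (map_sum ℓ π Finset.univ).symm.trans (hz _ _ h3)

end Pool.Agent.P.MP_1bf4cb_ag
end
end
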