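import Pool.Agent.P.MP_1bf4cb_ag.RDefs
import Pool.Agent.K.MP_1bf4cb_ag.C0

-- part Pool.Agent.P.MP_1bf4cb_ag.NsA
section

/-! Bruhat decomposition of square matrices over commutative rings, through minors. -/

namespace Pool.Agent.P.MP_1bf4cb_ag.RG.In

open Matrix Equiv

variable {n : ℕ} {C : Type} [CommRing C]

/-- The leading corner up to `j`, completed by the identity. -/
def cor (j : Fin n) (g : Mx n C) : Mx n C :=
  Matrix.of fun a b => if a ≤ j ∧ b ≤ j then g a b else (1 : Mx n C) a b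

/-- The minor with columns up to `j` and rows `σ a` for `a < j` and `i`. -/
def Dm (σ : Perm (Fin n)) (j i : Fin n) (g : Mx n C) : C :=
  (cor j (g.submatrix (Function.update σ j i) id)).det

/-- The rows `σ a` with `a < t` have a pivot in column `a`. -/
def Piv (σ : Perm (Fin n)) (t : ℕ) (m : Mx n C) : Prop :=
  ∀ a : Fin n, a.val < t → m (σ a) a = 1 ∧ ∀ c, a < c → m (σ a) c = 0

lemma cor_mul (j : Fin n) (g : Mx n C) {b : Mx n C} (hb : b.IsUpperTriangular) :
    cor j (g * b) = cor j g * cor j b := by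
  ext a c
  simp only [cor, of_apply, mul_apply]
  by_cases ha : a ≤ j
  · by_cases hc : c ≤ j
    · simp only [ha, hc, and_self, if_true, true_and, and_true]
      refine Finset.sum_congr rfl fun x _ => ?_
      by_cases hx : x ≤ j
      · simp [hx]
      · have h1 : b x c = 0 := hb (show c < x from hc.trans_lt (not_le.1 hx))
        have h2 : x ≠ c := by rintro rfl; exact hx hc
        simp [hx, h1, one_apply_ne h2]
    · have h2 : a ≠ c := by rintro rfl; exact hc ha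
      simp only [ha, hc, and_false, if_false, true_and, one_apply_ne h2]
      rw [Finset.sum_eq_single c (fun x _ hx => by simp [one_apply_ne hx]) (by simp)]
      simp [hc, one_apply_ne h2]
  · simp only [ha, false_and, if_false]
    rw [Finset.sum_eq_single a (fun x _ hx => by simp [one_apply_ne hx.symm]) (by simp)]
    simp [ha]

lemma Dm_mul (σ : Perm (Fin n)) (j i : Fin n) (g : Mx n C) {b : Mx n C}
    (hb : b.IsUpperTriangular) : Dm σ j i (g * b) = Dm σ j i g * (cor j b).det := by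
  have : (g * b).submatrix (Function.update σ j i) id
      = g.submatrix (Function.update σ j i) id * b := by
    ext a c; simp [mul_apply]
  rw [Dm, this, cor_mul _ _ hb, det_mul, Dm]

lemma diag_unit {b : Mx n C} (hb : b.IsUpperTriangular) (hd : IsUnit b.det) (a : Fin n) :
    IsUnit (b a a) := by
  rw [det_of_isUpperTriangular hb] at hd
  exact isUnit_of_dvd_unit (Finset.dvd_prod_of_mem (fun i => b i i) (Finset.mem_univ a)) hd

lemma cor_unit (j : Fin n) {b : Mx n C} (hb : b.IsUpperTriangular) (hd : IsUnit b.det) :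
    IsUnit (cor j b).det := by
  have h1 : (cor j b).IsUpperTriangular := fun a c h => by
    have h2 : c < a := h
    simp [cor, hb h, one_apply_ne h2.ne']
  rw [det_of_isUpperTriangular h1]
  refine IsUnit.prod_univ_iff.2 fun a => ?_
  by_cases h : a ≤ j
  · simpa [cor, h] using diag_unit hb hd a
  · simp [cor, h]

lemma Dm_piv {σ : Perm (Fin n)} {j : Fin n} {m : Mx n C} (h : Piv σ j m) (i : Fin n) :
    Dm σ j i m = m i j := by
  have h1 : (cor j (m.submatrix (Function.update σ j i) id)).IsLowerTriangular := fun a c hac => by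
    have h2 : a < c := hac
    by_cases h3 : a ≤ j ∧ c ≤ j
    · have h4 : a < j := h2.trans_le h3.2
      simp [cor, h3, Function.update_of_ne h4.ne, (h a h4).2 c h2]
    · simp [cor, h3, one_apply_ne h2.ne]
  rw [Dm, det_of_isLowerTriangular _ h1, Finset.prod_eq_single j (fun a _ ha => ?_) (by simp)]
  · simp [cor]
  · by_cases h3 : a ≤ j
    · simp [cor, h3, Function.update_of_ne ha, (h a (show a < j from lt_of_le_of_ne h3 ha)).1]
    · simp [cor, h3]

lemma Dm_map {C' : Type} [CommRing C'] (φ : C →+* C') (σ : Perm (Fin n)) (j i : Fin n)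
    (g : Mx n C) : φ (Dm σ j i g) = Dm σ j i (g.map φ) := by
  rw [Dm, Dm, RingHom.map_det]
  congr 1
  ext a b
  simp [cor, one_apply, apply_ite φ]

/-- One step of column elimination. -/
lemma elim (m : Mx n C) (j i : Fin n) (hu : IsUnit (m i j)) : ∃ m' E : Mx n C, m = m' * E ∧
    E.IsUpperTriangular ∧ IsUnit E.det ∧ m' i j = 1 ∧ (∀ c, j < c → m' i c = 0) ∧
    (∀ x c, c < j → m' x c = m x c) ∧ (∀ x, m x j = 0 → ∀ c, m' x c = m x c) := by
  obtain ⟨u, hu⟩ := hu
  let E : Mx n C := Matrix.of fun a c => if a = j ∧ j ≤ c then m i c else (1 : Mx n C) a c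
  have hE : E.IsUpperTriangular := fun a c h => by
    have h2 : c < a := h
    have h3 : ¬ (a = j ∧ j ≤ c) := fun h3 => absurd (h3.1 ▸ h2) (not_lt.2 h3.2)
    simp [E, h3, one_apply_ne h2.ne']
  refine ⟨Matrix.of fun x c => if c = j then m x j * ↑u⁻¹ else if j < c then
    m x c - m x j * ↑u⁻¹ * m i c else m x c, E, ?_, hE, ?_, ?_, ?_, ?_, ?_⟩
  · ext x c
    rw [mul_apply]
    rcases lt_trichotomy c j with h | rfl | h
    · rw [Finset.sum_eq_single c (fun y _ hy => by simp [E, not_le.2 h, one_apply_ne hy]) (by simp)]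
      simp [E, h.ne, not_lt.2 h.le]
    · rw [Finset.sum_eq_single c (fun y _ hy => by simp [E, hy, one_apply_ne hy]) (by simp)]
      simp [E, ← hu]
    · rw [Finset.sum_eq_add c j h.ne' (fun y _ hy => by simp [E, hy.2, one_apply_ne hy.1])
        (by simp) (by simp)]
      simp [E, h, h.ne', h.le]
  · rw [det_of_isUpperTriangular hE]
    refine IsUnit.prod_univ_iff.2 fun a => ?_
    by_cases h : a = j
    · simp [E, h, ← hu]
    · simp [E, h]
  · simp [← hu]
  · intro c hc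
    simp [hc, hc.ne', ← hu]
  · intro x c hc
    simp [hc.ne, not_lt.2 hc.le]
  · intro x hx c
    by_cases h : c = j <;> simp [h, hx]

lemma piv_step {σ : Perm (Fin n)} {j : Fin n} {m m' : Mx n C} (h : Piv σ j m)
    (h1 : m' (σ j) j = 1) (h2 : ∀ c, j < c → m' (σ j) c = 0)
    (h3 : ∀ x, m x j = 0 → ∀ c, m' x c = m x c) : Piv σ (j + 1) m' := fun a ha => by
  rcases (show a ≤ j from Nat.lt_succ_iff.1 ha).eq_or_lt with rfl | ha
  · exact ⟨h1, h2⟩
  · simpa only [h3 _ ((h a ha).2 j ha)] using h a ha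

/-- Unit pivots give the factorisation. -/
lemma fac_ring {σ : Perm (Fin n)} {g : Mx n C} (h : ∀ j, IsUnit (Dm σ j (σ j) g)) :
    ∃ m b : Mx n C, g = m * b ∧ b.IsUpperTriangular ∧ IsUnit b.det ∧ Piv σ n m := by
  suffices H : ∀ t ≤ n, ∃ m b : Mx n C, g = m * b ∧ b.IsUpperTriangular ∧ IsUnit b.det ∧
      Piv σ t m from H n le_rfl
  intro t
  induction t with
  | zero => exact fun _ => ⟨g, 1, by simp, blockTriangular_one, by simp, fun a ha => by omega⟩
  | succ t ih =>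
    intro ht
    obtain ⟨m, b, rfl, h1, h2, h3⟩ := ih (by omega)
    have h4 := h ⟨t, ht⟩
    rw [Dm_mul _ _ _ _ h1, Dm_piv (j := ⟨t, ht⟩) h3] at h4
    obtain ⟨m', E, rfl, e1, e2, e3, e4, -, e6⟩ := elim m ⟨t, ht⟩ _ (isUnit_of_mul_isUnit_left h4)
    exact ⟨m', E * b, by rw [mul_assoc], e1.mul h1, by rw [det_mul]; exact e2.mul h2,
      piv_step (j := ⟨t, ht⟩) h3 e3 e4 e6⟩

/-- Bruhat decomposition over a field. -/
lemma fac_field {K : Type} [Field K] {g : Mx n K} (h : g.det ≠ 0) :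
    ∃ (σ : Perm (Fin n)) (m b : Mx n K), g = m * b ∧ b.IsUpperTriangular ∧ IsUnit b.det ∧
      Piv σ n m ∧ ∀ a i, σ a < i → m i a = 0 := by
  classical
  suffices H : ∀ t ≤ n, ∃ (σ : Perm (Fin n)) (m b : Mx n K), g = m * b ∧ b.IsUpperTriangular ∧
      IsUnit b.det ∧ Piv σ t m ∧ ∀ a i, a.val < t → σ a < i → m i a = 0 by
    obtain ⟨σ, m, b, h1, h2, h3, h4, h5⟩ := H n le_rfl
    exact ⟨σ, m, b, h1, h2, h3, h4, fun a i => h5 a i a.2⟩
  intro t
  induction t with
  | zero => exact fun _ => ⟨1, g, 1, by simp, blockTriangular_one, by simp, fun a ha => by omega,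
      fun a i ha => by omega⟩
  | succ t ih =>
    intro ht
    obtain ⟨σ, m, b, rfl, h1, h2, h3, h4⟩ := ih (by omega)
    set j : Fin n := ⟨t, ht⟩ with hj
    have h5 : (Finset.univ.filter fun i => m i j ≠ 0).Nonempty := by
      by_contra h5
      rw [Finset.not_nonempty_iff_eq_empty, Finset.filter_eq_empty_iff] at h5
      exact h (by rw [det_mul, det_eq_zero_of_column_eq_zero j
        fun i => not_not.1 (h5 (Finset.mem_univ i)), zero_mul])
    obtain ⟨i, hi, hi'⟩ := Finset.exists_max_image _ id h5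
    have hi0 : m i j ≠ 0 := (Finset.mem_filter.1 hi).2
    have h6 : ∀ a, a < j → (σ * swap j (σ.symm i)) a = σ a := fun a ha => by
      rw [Perm.mul_apply, swap_apply_of_ne_of_ne ha.ne]
      rintro rfl
      exact hi0 (by simpa using (h3 _ ha).2 j ha)
    have h7 : (σ * swap j (σ.symm i)) j = i := by simp
    obtain ⟨m', E, hm, e1, e2, e3, e4, e5, e6⟩ := elim m j i (Ne.isUnit hi0)
    refine ⟨σ * swap j (σ.symm i), m', E * b, by rw [← mul_assoc, ← hm], e1.mul h1,
      by rw [det_mul]; exact e2.mul h2, piv_step (j := j) (m := m)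
        (fun a ha => by rw [h6 a ha]; exact h3 a ha) (by rwa [h7]) (by rwa [h7]) e6,
      fun a x ha hx => ?_⟩
    rcases (show a ≤ j from Nat.lt_succ_iff.1 ha).eq_or_lt with rfl | ha
    · have : m x j = 0 := by
        by_contra h8
        exact absurd (hi' x (by simpa using h8)) (not_le.2 (h7 ▸ hx))
      rw [e6 x this, this]
    · rw [e5 x a ha]
      exact h4 a x ha (h6 a ha ▸ hx)

/-- The lexicographic order on permutations. -/
@[reducible] noncomputable def lexP (n : ℕ) : LinearOrder (Perm (Fin n)) :=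
  LinearOrder.lift' (fun σ => toLex (σ : Fin n → Fin n))
    fun _ _ h => DFunLike.coe_injective (toLex.injective h)

/-- `σ` comes before `τ` in the lexicographic order. -/
def Lt (σ τ : Perm (Fin n)) : Prop := ∃ j, (∀ a < j, σ a = τ a) ∧ σ j < τ j

lemma lexP_lt (σ τ : Perm (Fin n)) : (lexP n).lt σ τ ↔ Lt σ τ := Iff.rfl

lemma Lt_minor {σ τ : Perm (Fin n)} (h : Lt σ τ) : ∃ j i, σ j < i ∧ j < σ.symm i ∧
    ∀ (C : Type) [CommRing C] (g : Mx n C), Dm σ j i g = Dm τ j (τ j) g := by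
  obtain ⟨j, h1, h2⟩ := h
  refine ⟨j, τ j, h2, ?_, fun C _ g => ?_⟩
  · rcases lt_trichotomy j (σ.symm (τ j)) with h | h | h
    · exact h
    · exact absurd (by rw [eq_symm_apply] at h; exact h) h2.ne
    · have := h1 _ h
      rw [apply_symm_apply] at this
      exact absurd (τ.injective this) h.ne'
  · unfold Dm
    congr 1
    ext a b
    by_cases h : a ≤ j ∧ b ≤ j
    · rcases h.1.eq_or_lt with rfl | h3
      · simp [cor]
      · simp [cor, h, Function.update_of_ne h3.ne, h1 a h3]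
    · simp [cor, h]

/-- The minors that vanish on the cell of `σ`. -/
def Mn (σ : Perm (Fin n)) (g : Mx n C) : Set C :=
  {x | ∃ j i, σ j < i ∧ j < σ.symm i ∧ x = Dm σ j i g}

lemma piv_iff {σ : Perm (Fin n)} {g : Mx n C} (hd : IsUnit g.det) (h0 : ∀ x ∈ Mn σ g, x = 0) :
    (∀ τ, Lt τ σ → Ideal.span (Mn τ g) = ⊤) ↔ ∀ j, IsUnit (Dm σ j (σ j) g) := by
  refine ⟨fun h j => ?_, fun h τ hτ => ?_⟩
  · by_contra hu
    obtain ⟨I, hI, hx⟩ := exists_max_ideal_of_mem_nonunits hu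
    let _ := Ideal.Quotient.field I
    have h1 : (g.map (Ideal.Quotient.mk I)).det ≠ 0 := by
      have := hd.map (Ideal.Quotient.mk I)
      rw [RingHom.map_det] at this
      exact this.ne_zero
    obtain ⟨τ, m, b, e1, e2, e3, e4, e5⟩ := fac_field h1
    have h2 : ∀ a i, Ideal.Quotient.mk I (Dm τ a i g) = m i a * (cor a b).det := fun a i => by
      rw [Dm_map, e1, Dm_mul _ _ _ _ e2, Dm_piv fun x _ => e4 x x.2]
    have h3 : ∀ a, Ideal.Quotient.mk I (Dm τ a (τ a) g) ≠ 0 := fun a => by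
      rw [h2, (e4 a a.2).1, one_mul]
      exact (cor_unit a e2 e3).ne_zero
    rcases @lt_trichotomy _ (lexP n) τ σ with h4 | rfl | h4
    · refine hI.ne_top (top_le_iff.1 (h τ h4 ▸ Ideal.span_le.2 ?_))
      rintro _ ⟨a, i, h5, -, rfl⟩
      exact Ideal.Quotient.eq_zero_iff_mem.1 (by rw [h2, e5 a i h5, zero_mul])
    · exact h3 j (Ideal.Quotient.eq_zero_iff_mem.2 hx)
    · obtain ⟨a, i, h5, h6, h7⟩ := Lt_minor h4
      exact h3 a (by rw [← h7, h0 _ ⟨a, i, h5, h6, rfl⟩, map_zero])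
  · obtain ⟨a, i, h5, h6, h7⟩ := Lt_minor hτ
    exact Ideal.eq_top_of_isUnit_mem _ (Ideal.subset_span ⟨a, i, h5, h6, (h7 C g).symm⟩) (h a)

lemma Mn_max {σ : Perm (Fin n)} (h : ∀ τ, ¬ Lt σ τ) (g : Mx n C) : Mn σ g = ∅ := by
  refine Set.eq_empty_of_forall_notMem ?_
  rintro _ ⟨j, i, h1, h2, -⟩
  refine h (σ * swap j (σ.symm i)) ⟨j, fun a ha => ?_, by simpa using h1⟩
  rw [Perm.mul_apply, swap_apply_of_ne_of_ne ha.ne (ha.trans h2).ne]

end Pool.Agent.P.MP_1bf4cb_ag.RG.In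
end

-- part Pool.Agent.P.MP_1bf4cb_ag.RA
section

set_option autoImplicit false
set_option linter.unusedSectionVars false
set_option linter.unusedVariables false

open Function Matrix
open scoped TensorProduct

noncomputable section

namespace Pool.Agent.P.MP_1bf4cb_ag.RG

/-- functors of points -/
structure Fn (k : Type) [Field k] where
  obj : (C : Type) → [CommRing C] → [Algebra k C] → Type
  map : {C C' : Type} → [CommRing C] → [Algebra k C] → [CommRing C'] → [Algebra k C'] →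
    (C →ₐ[k] C') → obj C → obj C'
  map_id : ∀ {C : Type} [CommRing C] [Algebra k C] (x : obj C), map (AlgHom.id k C) x = x
  map_comp : ∀ {C C' C'' : Type} [CommRing C] [Algebra k C] [CommRing C'] [Algebra k C']
    [CommRing C''] [Algebra k C''] (φ : C →ₐ[k] C') (ψ : C' →ₐ[k] C'') (x : obj C),
    map ψ (map φ x) = map (ψ.comp φ) x

variable {k : Type} [Field k]

/-- the pair `(R, x)` represents the functor -/
structure Rp (X : Fn k) (R : Type) [CommRing R] [Algebra k R] (x : X.obj R) : Prop where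
  ft : Algebra.FiniteType k R
  ex : ∀ (C : Type) [CommRing C] [Algebra k C] (y : X.obj C), ∃ φ : R →ₐ[k] C, X.map φ x = y
  ext : ∀ (C : Type) [CommRing C] [Algebra k C] (φ ψ : R →ₐ[k] C), X.map φ x = X.map ψ x → φ = ψ

/-- representable by an algebra of finite type -/
def Ex (X : Fn k) : Prop := ∃ (R : Type) (_ : CommRing R) (_ : Algebra k R) (x : X.obj R), Rp X R x

/-- the representing algebra has finitely generated Grothendieck group -/
def CF (X : Fn k) : Prop :=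
  ∀ (R : Type) [CommRing R] [Algebra k R] (x : X.obj R), Rp X R x → Cell R

/-- product -/
def Fn.prod (X Y : Fn k) : Fn k where
  obj C _ _ := X.obj C × Y.obj C
  map φ x := (X.map φ x.1, Y.map φ x.2)
  map_id x := by rw [X.map_id, Y.map_id]
  map_comp φ ψ x := by rw [X.map_comp, Y.map_comp]

/-- a condition on points -/
structure Cnd (X : Fn k) where
  p : (C : Type) → [CommRing C] → [Algebra k C] → X.obj C → Prop
  st : ∀ {C C' : Type} [CommRing C] [Algebra k C] [CommRing C'] [Algebra k C'] (φ : C →ₐ[k] C')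
    (x : X.obj C), p C x → p C' (X.map φ x)

/-- subfunctor -/
def Fn.sub (X : Fn k) (q : Cnd X) : Fn k where
  obj C _ _ := {x : X.obj C // q.p C x}
  map φ x := ⟨X.map φ x.1, q.st φ x.1 x.2⟩
  map_id x := Subtype.ext (X.map_id x.1)
  map_comp φ ψ x := Subtype.ext (X.map_comp φ ψ x.1)

/-- points of an algebra -/
def hF (k : Type) [Field k] (D : Type) [CommRing D] [Algebra k D] : Fn k where
  obj C _ _ := D →ₐ[k] C
  map φ x := φ.comp x
  map_id x := AlgHom.id_comp x
  map_comp φ ψ x := (AlgHom.comp_assoc ψ φ x).symm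

/-- affine space -/
def aff (k : Type) [Field k] (κ : Type) : Fn k where
  obj C _ _ := κ → C
  map φ x := fun i => φ (x i)
  map_id x := rfl
  map_comp φ ψ x := rfl

/-- natural functions -/
structure NF (X : Fn k) where
  f : (C : Type) → [CommRing C] → [Algebra k C] → X.obj C → C
  nat : ∀ {C C' : Type} [CommRing C] [Algebra k C] [CommRing C'] [Algebra k C'] (φ : C →ₐ[k] C')
    (x : X.obj C), f C' (X.map φ x) = φ (f C x)

/-- the locus where a function is invertible -/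
def Fn.loc (X : Fn k) (f : NF X) : Fn k :=
  X.sub ⟨fun C _ _ x => IsUnit (f.f C x), fun φ x h => by rw [f.nat]; exact h.map φ⟩

/-- natural isomorphisms -/
structure NI (X Y : Fn k) where
  ap : (C : Type) → [CommRing C] → [Algebra k C] → X.obj C → Y.obj C
  bij : ∀ (C : Type) [CommRing C] [Algebra k C], Bijective (ap C)
  nat : ∀ {C C' : Type} [CommRing C] [Algebra k C] [CommRing C'] [Algebra k C'] (φ : C →ₐ[k] C')
    (x : X.obj C), ap C' (X.map φ x) = Y.map φ (ap C x)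

variable {X Y Z W : Fn k}

/-- inverse -/
def NI.symm (e : NI X Y) : NI Y X where
  ap C _ _ := (Equiv.ofBijective _ (e.bij C)).symm
  bij C _ _ := (Equiv.ofBijective _ (e.bij C)).symm.bijective
  nat {C C'} _ _ _ _ φ y := by
    apply (e.bij C').1
    rw [e.nat, Equiv.ofBijective_apply_symm_apply _ (e.bij C'),
      Equiv.ofBijective_apply_symm_apply _ (e.bij C)]

theorem NI.ap_symm (e : NI X Y) (C : Type) [CommRing C] [Algebra k C] (y : Y.obj C) :
    e.ap C (e.symm.ap C y) = y := Equiv.ofBijective_apply_symm_apply _ (e.bij C) y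

/-- composition -/
def NI.trans (e : NI X Y) (e' : NI Y Z) : NI X Z where
  ap C _ _ x := e'.ap C (e.ap C x)
  bij C _ _ := (e'.bij C).comp (e.bij C)
  nat φ x := by rw [e.nat, e'.nat]

/-- identity -/
def NI.refl (X : Fn k) : NI X X where
  ap C _ _ x := x
  bij C _ _ := bijective_id
  nat φ x := rfl

/-- product of isomorphisms -/
def NI.prod (e : NI X Y) (e' : NI Z W) : NI (X.prod Z) (Y.prod W) where
  ap C _ _ x := (e.ap C x.1, e'.ap C x.2)
  bij C _ _ := (e.bij C).prodMap (e'.bij C)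
  nat φ x := Prod.ext (e.nat φ x.1) (e'.nat φ x.2)

/-- associativity -/
def NI.assoc (X Y Z : Fn k) : NI ((X.prod Y).prod Z) (X.prod (Y.prod Z)) where
  ap C _ _ x := (x.1.1, x.1.2, x.2)
  bij C _ _ := (Equiv.prodAssoc _ _ _).bijective
  nat φ x := rfl

/-- commutativity -/
def NI.comm (X Y : Fn k) : NI (X.prod Y) (Y.prod X) where
  ap C _ _ x := (x.2, x.1)
  bij C _ _ := (Equiv.prodComm _ _).bijective
  nat φ x := rfl

section
variable {R : Type} [CommRing R] [Algebra k R]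

theorem Rp.iso {x : X.obj R} (h : Rp X R x) (e : NI X Y) : Rp Y R (e.ap R x) := by
  refine ⟨h.ft, fun C _ _ y => ?_, fun C _ _ φ ψ h1 => ?_⟩
  · obtain ⟨z, rfl⟩ := (e.bij C).2 y
    obtain ⟨φ, rfl⟩ := h.ex C z
    exact ⟨φ, (e.nat φ x).symm⟩
  · refine h.ext C φ ψ ((e.bij C).1 ?_)
    rw [e.nat, e.nat, h1]

theorem Rp.noeth {x : X.obj R} (h : Rp X R x) : IsNoetherianRing R :=
  have := h.ft
  Algebra.FiniteType.isNoetherianRing k R

theorem Rp.equiv {x : X.obj R} (h : Rp X R x) {R' : Type} [CommRing R'] [Algebra k R']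
    {x' : X.obj R'} (h' : Rp X R' x') : ∃ e : R ≃ₐ[k] R', X.map (e : R →ₐ[k] R') x = x' := by
  obtain ⟨φ, hφ⟩ := h.ex R' x'
  obtain ⟨ψ, hψ⟩ := h'.ex R x
  refine ⟨AlgEquiv.ofAlgHom φ ψ (h'.ext _ _ _ ?_) (h.ext _ _ _ ?_), hφ⟩
  · rw [← X.map_comp, hψ, hφ, X.map_id]
  · rw [← X.map_comp, hφ, hψ, X.map_id]

theorem Rp.cf {x : X.obj R} (h : Rp X R x) (hR : Cell R) : CF X := by
  intro R' _ _ x' h'
  obtain ⟨e, -⟩ := h.equiv h'
  exact cell_equiv e.toRingEquiv hR

/-- the Yoneda isomorphism -/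
def Rp.yon {x : X.obj R} (h : Rp X R x) : NI (hF k R) X where
  ap C _ _ φ := X.map φ x
  bij C _ _ := ⟨fun φ ψ => h.ext C φ ψ, h.ex C⟩
  nat φ ψ := (X.map_comp ψ φ x).symm

theorem rp_hF (h : Algebra.FiniteType k R) : Rp (hF k R) R (AlgHom.id k R) :=
  ⟨h, fun C _ _ y => ⟨y, AlgHom.comp_id y⟩, fun C _ _ φ ψ h1 => by
    rw [← AlgHom.comp_id φ, ← AlgHom.comp_id ψ]; exact h1⟩

end

theorem Ex.iso (h : Ex X) (e : NI X Y) : Ex Y := by
  obtain ⟨R, _, _, x, h⟩ := h
  exact ⟨R, _, _, _, h.iso e⟩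

theorem CF.iso (h : CF X) (e : NI X Y) : CF Y := fun R _ _ y hy => h R _ (hy.iso e.symm)

theorem ex_hF {R : Type} [CommRing R] [Algebra k R] (h : Algebra.FiniteType k R) : Ex (hF k R) :=
  ⟨R, _, _, _, rp_hF h⟩

theorem rp_tensor {R S : Type} [CommRing R] [Algebra k R] [CommRing S] [Algebra k S] {x : X.obj R}
    {y : Y.obj S} (h : Rp X R x) (h' : Rp Y S y) : Rp (X.prod Y) (R ⊗[k] S)
      (X.map Algebra.TensorProduct.includeLeft x, Y.map Algebra.TensorProduct.includeRight y) := by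
  refine ⟨?_, fun C _ _ z => ?_, fun C _ _ φ ψ h1 => ?_⟩
  · have := h.ft
    have := h'.ft
    exact Algebra.FiniteType.trans (S := R) inferInstance inferInstance
  · obtain ⟨φ, hφ⟩ := h.ex C z.1
    obtain ⟨ψ, hψ⟩ := h'.ex C z.2
    refine ⟨Algebra.TensorProduct.lift φ ψ fun _ _ => Commute.all _ _, Prod.ext ?_ ?_⟩
    · show X.map _ (X.map _ x) = z.1
      rw [X.map_comp, Algebra.TensorProduct.lift_comp_includeLeft, hφ]
    · show Y.map _ (Y.map _ y) = z.2
      rw [Y.map_comp, ← hψ]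
      congr 1
      ext s
      simp
  · have h2 : X.map φ (X.map _ x) = X.map ψ (X.map _ x) := congrArg Prod.fst h1
    have h3 : Y.map φ (Y.map _ y) = Y.map ψ (Y.map _ y) := congrArg Prod.snd h1
    rw [X.map_comp, X.map_comp] at h2
    rw [Y.map_comp, Y.map_comp] at h3
    have h4 := h.ext _ _ _ h2
    have h5 := h'.ext _ _ _ h3
    refine Algebra.TensorProduct.ext h4 ?_
    ext s
    exact DFunLike.congr_fun h5 s

theorem Ex.prod (h : Ex X) (h' : Ex Y) : Ex (X.prod Y) := by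
  obtain ⟨R, _, _, x, h⟩ := h
  obtain ⟨S, _, _, y, h'⟩ := h'
  exact ⟨R ⊗[k] S, _, _, _, rp_tensor h h'⟩

/-- closed conditions -/
def Cnd.Cl (q : Cnd X) : Prop :=
  ∀ (R : Type) [CommRing R] [Algebra k R] (x : X.obj R), ∃ I : Ideal R,
    ∀ (C : Type) [CommRing C] [Algebra k C] (φ : R →ₐ[k] C), q.p C (X.map φ x) ↔ ∀ i ∈ I, φ i = 0

theorem rp_quot {R : Type} [CommRing R] [Algebra k R] {x : X.obj R} (h : Rp X R x) (q : Cnd X)
    (I : Ideal R) (hI : ∀ (C : Type) [CommRing C] [Algebra k C] (φ : R →ₐ[k] C),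
      q.p C (X.map φ x) ↔ ∀ i ∈ I, φ i = 0) :
    Rp (X.sub q) (R ⧸ I) ⟨X.map (Ideal.Quotient.mkₐ k I) x,
      (hI _ _).2 fun i hi => Ideal.Quotient.eq_zero_iff_mem.2 hi⟩ := by
  refine ⟨?_, fun C _ _ z => ?_, fun C _ _ φ ψ h1 => ?_⟩
  · have := h.ft
    infer_instance
  · obtain ⟨φ, hφ⟩ := h.ex C z.1
    refine ⟨Ideal.Quotient.liftₐ I φ ((hI C φ).1 (by rw [hφ]; exact z.2)), Subtype.ext ?_⟩
    show X.map _ (X.map _ x) = z.1
    rw [X.map_comp, Ideal.Quotient.liftₐ_comp, hφ]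
  · have h2 : X.map φ (X.map _ x) = X.map ψ (X.map _ x) := congrArg Subtype.val h1
    rw [X.map_comp, X.map_comp] at h2
    exact Ideal.Quotient.algHom_ext k (h.ext _ _ _ h2)

theorem Ex.sub (h : Ex X) {q : Cnd X} (hq : q.Cl) : Ex (X.sub q) := by
  obtain ⟨R, _, _, x, h⟩ := h
  obtain ⟨I, hI⟩ := hq R x
  exact ⟨R ⧸ I, _, _, _, rp_quot h q I hI⟩

theorem rp_mv {R : Type} [CommRing R] [Algebra k R] {x : X.obj R} (h : Rp X R x) (κ : Type)
    [Finite κ] : Rp (X.prod (aff k κ)) (MvPolynomial κ R)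
      (X.map (IsScalarTower.toAlgHom k R (MvPolynomial κ R)) x, MvPolynomial.X) := by
  refine ⟨?_, fun C _ _ z => ?_, fun C _ _ φ ψ h1 => ?_⟩
  · have := h.ft
    exact Algebra.FiniteType.trans (S := R) inferInstance inferInstance
  · obtain ⟨φ, hφ⟩ := h.ex C z.1
    refine ⟨MvPolynomial.aevalTower φ z.2, Prod.ext ?_ ?_⟩
    · show X.map _ (X.map _ x) = z.1
      rw [X.map_comp, MvPolynomial.aevalTower_comp_toAlgHom, hφ]
    · funext i
      exact MvPolynomial.aevalTower_X φ z.2 i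
  · have h2 : X.map φ (X.map _ x) = X.map ψ (X.map _ x) := congrArg Prod.fst h1
    rw [X.map_comp, X.map_comp] at h2
    have h4 := h.ext _ _ _ h2
    have h3 : ∀ i, φ (MvPolynomial.X i) = ψ (MvPolynomial.X i) :=
      fun i => congrFun (congrArg Prod.snd h1) i
    exact MvPolynomial.algHom_ext' h4 h3

theorem rp_aff (κ : Type) [Finite κ] : Rp (aff k κ) (MvPolynomial κ k) MvPolynomial.X := by
  refine ⟨inferInstance, fun C _ _ z => ⟨MvPolynomial.aeval z, ?_⟩, fun C _ _ φ ψ h1 => ?_⟩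
  · funext i
    exact MvPolynomial.aeval_X z i
  · exact MvPolynomial.algHom_ext fun i => congrFun h1 i

theorem ex_aff (κ : Type) [Finite κ] : Ex (aff k κ) := ⟨_, _, _, _, rp_aff κ⟩

theorem rp_loc {R : Type} [CommRing R] [Algebra k R] {x : X.obj R} (h : Rp X R x) (f : NF X) :
    Rp (X.loc f) (Localization.Away (f.f R x))
      ⟨X.map (IsScalarTower.toAlgHom k R (Localization.Away (f.f R x))) x, by
        show IsUnit (f.f _ _)
        rw [f.nat]
        exact IsLocalization.Away.algebraMap_isUnit (f.f R x)⟩ := by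
  refine ⟨?_, fun C _ _ z => ?_, fun C _ _ φ ψ h1 => ?_⟩
  · have := h.ft
    have : Algebra.FiniteType R (Localization.Away (f.f R x)) :=
      IsLocalization.finiteType_of_monoid_fg (Submonoid.powers (f.f R x)) _
    exact Algebra.FiniteType.trans (S := R) inferInstance inferInstance
  · obtain ⟨φ, hφ⟩ := h.ex C z.1
    have hu : IsUnit (φ (f.f R x)) := by
      rw [← f.nat, hφ]
      exact z.2
    refine ⟨IsLocalization.Away.liftAlgHom (f.f R x) (f := φ) hu, Subtype.ext ?_⟩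
    show X.map _ (X.map _ x) = z.1
    rw [X.map_comp, ← hφ]
    congr 1
    ext s
    simp [IsLocalization.Away.liftAlgHom]
  · have h2 : X.map φ (X.map _ x) = X.map ψ (X.map _ x) := congrArg Subtype.val h1
    rw [X.map_comp, X.map_comp] at h2
    have h4 := h.ext _ _ _ h2
    apply AlgHom.coe_ringHom_injective
    refine IsLocalization.ringHom_ext (Submonoid.powers (f.f R x)) ?_
    ext s
    exact DFunLike.congr_fun h4 s

theorem Ex.loc (h : Ex X) (f : NF X) : Ex (X.loc f) := by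
  obtain ⟨R, _, _, x, h⟩ := h
  exact ⟨_, _, _, _, rp_loc h f⟩

end Pool.Agent.P.MP_1bf4cb_ag.RG
end
end

-- part Pool.Agent.P.MP_1bf4cb_ag.TDefs
section

/-! The group `G₂` as automorphisms of the split octonions, and chains of flags. -/

namespace Pool.Agent.P.MP_1bf4cb_ag.RG

open Matrix MvPolynomial

variable {k : Type} [Field k] {n r m : ℕ}

/-- The product of the split octonions: Zorn's vector matrices `(α, u; v, β)` with coordinates
`(u₁, v₃, v₂, α, β, u₂, u₃, v₁)`. -/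
def om {C : Type} [CommRing C] (x y : Fin 8 → C) : Fin 8 → C :=
  ![x 3 * y 0 + x 0 * y 4 - x 2 * y 1 + x 1 * y 2, x 1 * y 3 + x 4 * y 1 + x 0 * y 5 - x 5 * y 0,
    x 2 * y 3 + x 4 * y 2 + x 6 * y 0 - x 0 * y 6, x 3 * y 3 + x 0 * y 7 + x 5 * y 2 + x 6 * y 1,
    x 4 * y 4 + x 7 * y 0 + x 2 * y 5 + x 1 * y 6, x 3 * y 5 + x 5 * y 4 - x 1 * y 7 + x 7 * y 1,
    x 3 * y 6 + x 6 * y 4 - x 7 * y 2 + x 2 * y 7, x 7 * y 3 + x 4 * y 7 + x 5 * y 6 - x 6 * y 5]

/-- The equations of the automorphism group `G₂` of the split octonions. -/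
def eG (k : Type) [Field k] : Set (Pn k 8) :=
  {f | f = (mvPolynomialX _ _ k).det - 1 ∨ ∃ i j l, f =
    (mvPolynomialX _ _ k *ᵥ om (Pi.single i 1) (Pi.single j 1)) l -
      om (fun a => X (a, i)) (fun a => X (a, j)) l}

/-- The two parabolic subgroups: the stabilisers of the line `e₀` and of the plane `e₀, e₁`. -/
def eP (k : Type) [Field k] (s : Bool) : Set (Pn k 8) :=
  eG k ∪ {f | ∃ a b : Fin 8, b ≤ cond s 1 0 ∧ cond s 1 0 < a ∧ f = X (a, b)}

/-- `G₂` with its Borel subgroup, the Frobenius of `k` and the weights of the torus; the fields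
`Pa`, `N`, `u`, `M`, `l`, `c`, `w`, `Z` are not used. -/
noncomputable def g2 (k : Type) [Field k] : Bru k 8 2 where
  G := eG k
  B := eP k false ∪ eP k true
  Pa := ∅
  F := (mvPolynomialX _ _ k).map (· ^ Nat.card k)
  wt := ![![1, 1], ![1, 0], ![0, 1], ![0, 0], ![0, 0], ![0, -1], ![-1, 0], ![-1, -1]]
  N := 0
  u := 1
  M := 0
  l := 0
  c := 1
  w := 1
  Z := fun _ => ∅

/-- The `c`-th diagonal block. -/
def blk {C : Type} (c : Fin m) (g : Mx (n * m) C) : Mx n C :=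
  g.submatrix (fun a => finProdFinEquiv (a, c)) fun a => finProdFinEquiv (a, c)

/-- The block diagonal matrix with given blocks. -/
def bd {C : Type} [Zero C] (x : Fin m → Mx n C) : Mx (n * m) C :=
  Matrix.of fun a b => if a.modNat = b.modNat then x a.modNat a.divNat b.divNat else 0

/-- The equations of block diagonal matrices whose `c`-th block solves `S c`. -/
def pe (S : Fin m → Set (Pn k n)) : Set (Pn k (n * m)) :=
  {f | (∃ a b : Fin (n * m), a.modNat ≠ b.modNat ∧ f = X (a, b)) ∨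
    ∃ c, f ∈ vl (blk c (mvPolynomialX _ _ k)) '' S c}

/-- Chains `g₀, …, g_m` in `G` with `g_c⁻¹ g_(c+1) ∈ P c` and `g_m⁻¹ F(g₀) ∈ P m`, written as one
block diagonal matrix; the fields `N`, `u`, `M`, `l`, `c`, `w`, `Z` are not used. -/
noncomputable def chn (D : Bru k n r) (m : ℕ) (P : Fin (m + 1) → Set (Pn k n)) :
    Bru k (n * (m + 1)) (r * (m + 1)) where
  G := pe fun _ => D.G
  B := pe fun _ => D.B
  Pa := pe P
  F := bd fun c => if c = Fin.last m then D.fr (blk 0 (mvPolynomialX _ _ k))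
    else blk (c + 1) (mvPolynomialX _ _ k)
  wt := fun a i => if a.modNat = i.modNat then D.wt a.divNat i.divNat else 0
  N := 0
  u := 1
  M := 0
  l := 0
  c := 1
  w := 1
  Z := fun _ => ∅

end Pool.Agent.P.MP_1bf4cb_ag.RG
end

-- part Pool.Agent.P.MP_1bf4cb_ag.NsB
section

/-! Block triangular subgroups of the special linear group: equations, smoothness, charts. -/

namespace Pool.Agent.P.MP_1bf4cb_ag.RG.In

open Matrix Equiv MvPolynomial

variable {k : Type} [Field k] {n r : ℕ} {C : Type} [CommRing C]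

/-- The generic matrix. -/
noncomputable def gX (k : Type) [Field k] (n : ℕ) : Mx n (Pn k n) :=
  Matrix.of fun a b => X (a, b)

/-- The equations of block triangular matrices of determinant one. -/
def eqs (k : Type) [Field k] (β : Fin n → ℕ) : Set (Pn k n) :=
  {f | f = (gX k n).det - 1 ∨ ∃ a b, β b < β a ∧ f = X (a, b)}

/-- Evaluation at a matrix as a ring map. -/
noncomputable def vlR (k : Type) [Field k] [Algebra k C] (g : Mx n C) : Pn k n →+* C :=
  (aeval (fun ab : Fin n × Fin n => g ab.1 ab.2) : Pn k n →ₐ[k] C)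

lemma vl_eq [Algebra k C] (g : Mx n C) : vl g = vlR k g := rfl

lemma gX_map [Algebra k C] (g : Mx n C) : (gX k n).map (vlR k g) = g := by
  ext a b; simp [gX, vlR]

lemma sol_eqs [Algebra k C] {β : Fin n → ℕ} {g : Mx n C} :
    Sol (eqs k β) g ↔ g.det = 1 ∧ g.BlockTriangular β := by
  have h0 : vl g ((gX k n).det - 1) = g.det - 1 := by
    rw [vl_eq, map_sub, RingHom.map_det, map_one, RingHom.mapMatrix_apply, gX_map]
  refine ⟨fun h => ⟨?_, fun a b hab => ?_⟩, fun h f hf => ?_⟩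
  · exact sub_eq_zero.1 (h0 ▸ h _ (Or.inl rfl))
  · simpa [vl] using h _ (Or.inr ⟨a, b, hab, rfl⟩)
  · rcases hf with rfl | ⟨a, b, hab, rfl⟩
    · rw [h0, h.1, sub_self]
    · simpa [vl] using h.2 hab

lemma inv_tri {α : Type} [LinearOrder α] {β : Fin n → α} {b : Mx n C} (hb : b.BlockTriangular β)
    (hd : IsUnit b.det) : b⁻¹.BlockTriangular β := by
  let _ := invertibleOfIsUnitDet b hd
  exact blockTriangular_inv_of_blockTriangular hb

lemma adj_eq {h : Mx n C} (hd : h.det = 1) : h.adjugate = h⁻¹ := by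
  rw [Matrix.inv_def, hd, Ring.inverse_one, one_smul]

lemma det_adj {h : Mx n C} (hd : h.det = 1) : h.adjugate.det = 1 := by
  have := congrArg det (mul_adjugate h)
  simpa [hd] using this

lemma adj_tri {α : Type} [LinearOrder α] {β : Fin n → α} {b : Mx n C} (hb : b.BlockTriangular β)
    (hd : b.det = 1) : b.adjugate.BlockTriangular β :=
  adj_eq hd ▸ inv_tri hb (by simp [hd])

lemma grp_eqs (β : Fin n → ℕ) : Grp (eqs k β) := fun C _ _ =>
  ⟨sol_eqs.2 ⟨det_one, blockTriangular_one⟩, fun g h hg hh => by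
    rw [sol_eqs] at hg hh ⊢
    exact ⟨hg.1, by rw [det_mul, hg.1, det_adj hh.1, one_mul], hg.2.mul (adj_tri hh.2 hh.1)⟩⟩

lemma eqs_fin (β : Fin n → ℕ) : (eqs k β).Finite := by
  refine ((Set.finite_range fun ab : Fin n × Fin n => (X ab : Pn k n)).insert
    ((gX k n).det - 1)).subset ?_
  rintro f (rfl | ⟨a, b, -, rfl⟩)
  · exact Or.inl rfl
  · exact Or.inr ⟨_, rfl⟩

/-- The diagonal matrix with first entry `s` and other entries one. -/
def dg (r : ℕ) (s : C) : Mx (r + 1) C := diagonal (Function.update 1 0 s)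

lemma det_dg (s : C) : (dg r s).det = s := by
  rw [dg, det_diagonal, Finset.prod_update_of_mem (Finset.mem_univ _)]
  simp

lemma dg_tri {α : Type} [Preorder α] (β : Fin (r + 1) → α) (s : C) :
    (dg r s).BlockTriangular β := blockTriangular_diagonal _

lemma dg_map {C' : Type} [CommRing C'] (φ : C →+* C') (s : C) :
    (dg r s).map φ = dg r (φ s) := by
  rw [dg, dg, diagonal_map (map_zero φ)]
  congr 1
  ext a
  by_cases h : a = 0 <;> simp [h]

lemma dg_one : dg r (1 : C) = 1 := by simp [dg]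

lemma dg_mul (s t : C) : dg r s * dg r t = dg r (s * t) := by
  rw [dg, dg, dg, diagonal_mul_diagonal]
  congr 1
  ext a
  by_cases h : a = 0 <;> simp [h]

lemma smooth_eqs (β : Fin (r + 1) → ℕ) :
    Algebra.Smooth k (Pn k (r + 1) ⧸ Ideal.span (eqs k β)) := by
  refine ⟨Algebra.FormallySmooth.of_comp_surjective fun B _ _ I hI f => ?_,
    Algebra.FinitePresentation.quotient (Submodule.fg_span (eqs_fin β))⟩
  let g : Mx (r + 1) (B ⧸ I) := Matrix.of fun a b => f (Ideal.Quotient.mk _ (X (a, b)))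
  have h1 : ∀ x, vl g x = f (Ideal.Quotient.mk _ x) := fun x => by
    have : (aeval (fun ab : Fin (r + 1) × Fin (r + 1) => g ab.1 ab.2) : Pn k (r + 1) →ₐ[k] B ⧸ I)
        = f.comp (Ideal.Quotient.mkₐ k _) := MvPolynomial.algHom_ext fun ab => by simp [g]
    exact DFunLike.congr_fun this x
  have h2 : Sol (eqs k β) g := fun x hx => by
    rw [h1, Ideal.Quotient.eq_zero_iff_mem.2 (Ideal.subset_span hx), map_zero]
  rw [sol_eqs] at h2
  choose s hs using Ideal.Quotient.mk_surjective (I := I)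
  let m : Mx (r + 1) B := Matrix.of fun a b => if β b < β a then 0 else s (g a b)
  have h3 : m.map (Ideal.Quotient.mk I) = g := by
    ext a b
    by_cases h : β b < β a
    · simp [m, h, h2.2 h]
    · simp [m, h, hs]
  have h4 : Ideal.Quotient.mk I m.det = 1 := by
    rw [RingHom.map_det, RingHom.mapMatrix_apply, h3, h2.1]
  have h5 : (m.det - 1) ^ 2 = 0 := by
    have : m.det - 1 ∈ I := Ideal.Quotient.eq_zero_iff_mem.1 (by rw [map_sub, h4, map_one, sub_self])
    simpa [hI] using Ideal.pow_mem_pow this 2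
  have h6 : Sol (eqs k β) (dg r (2 - m.det) * m) := sol_eqs.2
    ⟨by rw [det_mul, det_dg]; linear_combination -h5,
      (dg_tri β _).mul fun a b h => by simp [m, show β b < β a from h]⟩
  have h7 : (dg r (2 - m.det) * m).map (Ideal.Quotient.mk I) = g := by
    rw [Matrix.map_mul, dg_map, map_sub, h4, map_ofNat, h3,
      show (2 - 1 : B ⧸ I) = 1 by norm_num, dg_one, one_mul]
  generalize dg r (2 - m.det) * m = m' at h6 h7
  have h8 : ∀ x ∈ Ideal.span (eqs k β), aeval (fun ab => m' ab.1 ab.2) x = 0 := fun x hx =>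
    (Ideal.span_le (I := RingHom.ker (vlR k m'))).2 h6 hx
  refine ⟨Ideal.Quotient.liftₐ _ _ h8, Ideal.Quotient.algHom_ext _ ?_⟩
  rw [AlgHom.comp_assoc, Ideal.Quotient.liftₐ_comp]
  exact MvPolynomial.algHom_ext fun ab => by simpa [g] using congrFun (congrFun h7 ab.1) ab.2

/-- The generic matrix that agrees with the identity outside `S`. -/
noncomputable def gU (k : Type) [Field k] (S : Fin n → Fin n → Prop) [DecidableRel S] :
    Mx n (MvPolynomial (Fin (Fintype.card {p : Fin n × Fin n // S p.1 p.2})) k) :=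
  Matrix.of fun a b => if h : S a b then X (Fintype.equivFin _ (⟨(a, b), h⟩ :
    {p : Fin n × Fin n // S p.1 p.2})) else (1 : Mx n _) a b

/-- The matrix agrees with the identity outside `S`. -/
def Off (S : Fin n → Fin n → Prop) (m : Mx n C) : Prop := ∀ a b, ¬ S a b → m a b = (1 : Mx n C) a b

lemma gU_bij [Algebra k C] (S : Fin n → Fin n → Prop) [DecidableRel S] :
    Set.BijOn (fun x : Fin _ → C => (gU k S).map (aeval x)) Set.univ {m | Off S m} := by
  refine ⟨fun x _ a b h => ?_, fun x _ y _ h => funext fun i => ?_, fun m hm => ?_⟩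
  · simp [gU, h, one_apply, apply_ite (aeval _)]
  · obtain ⟨⟨⟨a, b⟩, hab⟩, rfl⟩ := (Fintype.equivFin _).surjective i
    simpa [gU, show S a b from hab] using congrFun (congrFun h a) b
  · refine ⟨fun i => m ((Fintype.equivFin _).symm i).1.1 ((Fintype.equivFin _).symm i).1.2,
      trivial, ?_⟩
    ext a b
    by_cases h : S a b
    · simp [gU, h]
    · simp [gU, h, hm a b h, one_apply, apply_ite (aeval _)]

lemma Off.tri {S : Fin n → Fin n → Prop} {m : Mx n C} (h : Off S m) (hS : ∀ a b, S a b → a < b) :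
    m.IsUpperTriangular ∧ m.det = 1 ∧ ∀ a, m a a = 1 := by
  have h1 : m.IsUpperTriangular := fun a b hab => by
    have h2 : b < a := hab
    rw [h a b fun h3 => absurd (hS a b h3) (not_lt.2 h2.le), one_apply_ne h2.ne']
  have h2 : ∀ a, m a a = 1 := fun a => by rw [h a a fun h3 => absurd (hS a a h3) (lt_irrefl a), one_apply_eq]
  exact ⟨h1, by simp [det_of_isUpperTriangular h1, h2], h2⟩

/-- The weights of the diagonal torus of the special linear group. -/
def wts (r : ℕ) : Fin (r + 1) → Fin r → ℤ := Fin.cons (fun _ => -1) fun a => Pi.single a 1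

lemma wts_span : AddSubgroup.closure (Set.range (wts r)) = ⊤ := by
  refine eq_top_iff.2 fun x _ => ?_
  rw [← Finset.univ_sum_single x]
  refine sum_mem fun a _ => ?_
  have : Pi.single a (x a) = x a • wts r a.succ := by
    ext b
    by_cases h : b = a <;> simp [wts, h]
  rw [this]
  exact zsmul_mem (AddSubgroup.subset_closure (Set.mem_range_self _)) _

lemma wts_succ (t : Fin r → Cˣ) (a : Fin r) : ∏ i, t i ^ wts r a.succ i = t a := by
  rw [Finset.prod_eq_single a (fun b _ h => by simp [wts, h]) (by simp)]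
  simp [wts]

lemma wts_zero (t : Fin r → Cˣ) : ∏ i, t i ^ wts r 0 i = (∏ i, t i)⁻¹ := by
  simp [wts]

lemma bor_bij : Set.BijOn (fun x : Mx (r + 1) C × (Fin r → Cˣ) =>
      x.1 * diagonal fun a => ((∏ i, x.2 i ^ wts r a i : Cˣ) : C))
    {x | Off (· < ·) x.1} {g | g.det = 1 ∧ g.IsUpperTriangular} := by
  refine ⟨fun x hx => ?_, fun x hx y hy h => ?_, fun g hg => ?_⟩
  · obtain ⟨h1, h2, -⟩ := Off.tri hx fun _ _ h => h
    refine ⟨?_, h1.mul (blockTriangular_diagonal _)⟩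
    rw [det_mul, h2, det_diagonal, ← Units.coe_prod, Fin.prod_univ_succ, wts_zero]
    simp [wts_succ]
  · have h1 : ∀ a, (∏ i, x.2 i ^ wts r a i) = ∏ i, y.2 i ^ wts r a i := fun a => by
      have := congrFun (congrFun h a) a
      simp only [mul_diagonal, (Off.tri hx fun _ _ h => h).2.2, (Off.tri hy fun _ _ h => h).2.2,
        one_mul] at this
      exact Units.ext this
    refine Prod.ext ?_ (funext fun a => by simpa [wts_succ] using h1 a.succ)
    ext a b
    have := congrFun (congrFun h a) b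
    simp only [mul_diagonal, h1] at this
    exact (Units.mul_left_inj _).1 this
  · choose u hu using diag_unit hg.2 (by simp [hg.1])
    have h1 : ∀ a, (∏ i, u (Fin.succ i) ^ wts r a i) = u a := by
      refine Fin.cases ?_ fun a => wts_succ _ a
      have := hg.1
      rw [det_of_isUpperTriangular hg.2] at this
      simp only [← hu, ← Units.coe_prod, Units.val_eq_one, Fin.prod_univ_succ] at this
      rw [wts_zero, eq_inv_of_mul_eq_one_left this]
    refine ⟨(Matrix.of fun a b => g a b * ↑(u b)⁻¹, fun i => u i.succ), fun a b h => ?_, ?_⟩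
    · rcases (not_lt.1 h).eq_or_lt with rfl | h
      · simp [← hu]
      · simp [hg.2 h, one_apply_ne h.ne']
    · ext a b
      simp [h1]

end Pool.Agent.P.MP_1bf4cb_ag.RG.In
end

-- part Pool.Agent.P.MP_1bf4cb_ag.RB
section

set_option autoImplicit false
set_option linter.unusedSectionVars false
set_option linter.unusedVariables false

open Function Matrix
open scoped TensorProduct

noncomputable section

namespace Pool.Agent.P.MP_1bf4cb_ag.RG

variable {A B : Type} [CommRing A] [CommRing B]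

/-- additive functions factor through the Grothendieck group -/
theorem exists_lift {Γ : Type 1} [AddCommGroup Γ] (χ : AddF A Γ) : ∃ Φ : G0 A →+ Γ,
    ∀ M : FG A, Φ (QuotientAddGroup.mk (FreeAbelianGroup.of M)) = χ.val M.M := by
  refine ⟨QuotientAddGroup.lift _ (FreeAbelianGroup.lift fun M : FG A => χ.val M.M) ?_,
    fun M => ?_⟩
  · refine (AddSubgroup.closure_le _).2 ?_
    rintro _ ⟨M, N, P, f, g, hf, hg, h, rfl⟩
    show FreeAbelianGroup.lift (fun M : FG A => χ.val M.M) _ = 0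
    rw [map_sub, map_sub, FreeAbelianGroup.lift_apply_of, FreeAbelianGroup.lift_apply_of,
      FreeAbelianGroup.lift_apply_of, χ.add f g hf hg h]
    abel
  · rw [QuotientAddGroup.lift_mk, FreeAbelianGroup.lift_apply_of]

theorem list_RB (z : G0 A) : ∃ G : List (FG A), ∀ (Γ : Type 1) [AddCommGroup Γ] (Φ : G0 A →+ Γ),
    (∀ M ∈ G, Φ (QuotientAddGroup.mk (FreeAbelianGroup.of M)) = 0) → Φ z = 0 := by
  obtain ⟨z, rfl⟩ := QuotientAddGroup.mk_surjective z
  induction z using FreeAbelianGroup.induction_on with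
  | zero => exact ⟨[], fun Γ _ Φ _ => map_zero Φ⟩
  | of M => exact ⟨[M], fun Γ _ Φ h => h M (List.mem_singleton_self M)⟩
  | neg M h =>
    obtain ⟨G, hG⟩ := h
    exact ⟨G, fun Γ _ Φ h => by rw [QuotientAddGroup.mk_neg, map_neg, hG Γ Φ h, neg_zero]⟩
  | add x y hx hy =>
    obtain ⟨G, hG⟩ := hx
    obtain ⟨G', hG'⟩ := hy
    refine ⟨G ++ G', fun Γ _ Φ h => ?_⟩
    rw [QuotientAddGroup.mk_add, map_add, hG Γ Φ fun M hM => h M (List.mem_append_left _ hM),
      hG' Γ Φ fun M hM => h M (List.mem_append_right _ hM), add_zero]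

theorem cell_of_fg [IsNoetherianRing A] {H : AddSubgroup (G0 A)} (hH : H.FG)
    (h : ∀ I : Ideal A, cyc I ∈ H) : Cell A := by
  classical
  obtain ⟨s, hs⟩ := hH
  choose L hL using fun z : G0 A => list_RB z
  refine ⟨s.toList.flatMap L, fun Γ _ χ h0 => van_of_primes fun 𝔭 _ _ => ?_⟩
  obtain ⟨Φ, hΦ⟩ := exists_lift χ
  have h1 : H ≤ Φ.ker := by
    rw [← hs]
    refine (AddSubgroup.closure_le _).2 fun z hz => hL z Γ Φ fun M hM => ?_
    rw [hΦ]
    exact h0 M (List.mem_flatMap.2 ⟨z, Finset.mem_toList.2 hz, hM⟩)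
  exact (hΦ ⟨A ⧸ 𝔭⟩).symm.trans (h1 (h 𝔭))

theorem cell_away [IsNoetherianRing A] (f : A) (h : Cell A) : Cell (Localization.Away f) := by
  obtain ⟨G, hG⟩ := h
  have : IsNoetherianRing (Localization.Away f) :=
    IsLocalization.isNoetherianRing (Submonoid.powers f) _ inferInstance
  refine ⟨G.map fun M => ⟨Localization.Away f ⊗[A] M.M⟩, fun Γ _ χ h0 =>
    van_of_primes fun 𝔭 _ _ => ?_⟩
  obtain ⟨χ', h1, h2⟩ := exists_base (A := A) χ
  have h3 := hG Γ χ' (fun M hM => by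
    rw [h1]
    exact h0 _ (List.mem_map_of_mem hM)) (A ⧸ 𝔭.comap (algebraMap A _))
    (fun x hx y => by rw [Ideal.mem_bot.1 hx, zero_smul])
  have h4 : (𝔭.comap (algebraMap A (Localization.Away f))).map (algebraMap A _) = 𝔭 :=
    IsLocalization.map_under (Submonoid.powers f) _ 𝔭
  rw [h2, h4] at h3
  exact h3

theorem spec_away [IsNoetherianRing B] {φ : A →+* B} {ε : B →+* A} (h : Spec φ ε) (s : B)
    (hs : IsUnit (ε s)) (ε' : Localization.Away s →+* A)
    (he : ∀ b, ε' (algebraMap B _ b) = ε b) :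
    Spec ((algebraMap B (Localization.Away s)).comp φ) ε' := by
  intro Γ _ χ
  obtain ⟨ρ, hρ1, hρ2⟩ := h Γ χ
  have hv : Van ρ (Ideal.span {s}) :=
    hρ1 s (by rw [Ideal.span_singleton_eq_top.2 hs]; exact van_top χ)
  have hi : ∀ y : Localization.Away s, y ∈ den (algebraMap B (Localization.Away s)) s := fun y => by
    obtain ⟨⟨x, _, N, rfl⟩, h⟩ := IsLocalization.surj (Submonoid.powers s) y
    exact ⟨N, x, by rw [← map_pow, mul_comm]; exact h⟩
  have hi' : ∀ f ∈ ({s} : Finset B), ∀ y, y ∈ den (algebraMap B (Localization.Away s)) f :=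
    fun f hf => by rw [Finset.mem_singleton.1 hf]; exact hi
  obtain ⟨ρ', hρ'⟩ := lat (algebraMap B (Localization.Away s)) {s} hi' ρ
    (hv.mono (by rw [Finset.coe_singleton]; exact le_sup_right))
  refine ⟨ρ', fun t ht N _ _ _ hN => ?_, fun I => ?_⟩
  · obtain ⟨m, b, hb⟩ := hi t
    have h1 : Van ρ (Ideal.span {b}) := by
      refine hρ1 b (ht.mono ?_)
      rw [Ideal.span_singleton_le_iff_mem, ← he, ← hb, map_mul, map_pow, he]
      exact (Ideal.unit_mul_mem_iff_mem _ (hs.pow m)).1 (Ideal.mem_span_singleton_self _)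
    obtain ⟨M, g, hg, hM⟩ := exists_lat (algebraMap B (Localization.Away s)) {s} hi' N
    rw [hρ' N M.M g hg hM]
    refine h1 _ fun x hx y => hg ?_
    obtain ⟨c, rfl⟩ := Ideal.mem_span_singleton'.1 hx
    rw [map_smulₛₗ, map_zero, map_mul, ← hb]
    exact hN _ (Ideal.mul_mem_left _ _ (Ideal.mul_mem_left _ _ (Ideal.mem_span_singleton_self t))) _
  · rw [← Ideal.map_map, loc_GE s ρ hv ρ' hi fun N _ _ M _ _ _ h h3 h4 =>
      hρ' N M h h3 fun f hf => by rw [Finset.mem_singleton.1 hf]; exact h4, hρ2]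

theorem key_spec {R U L : Type} [CommRing R] [IsNoetherianRing R] [CommRing L] {φ : R →+* L}
    {ε : L →+* R} (h : Spec φ ε) [CommRing U] (θ : U →+* L) (hθ : θ.Flat) (hU : Cell U) :
    ∃ H : AddSubgroup (G0 R), H.FG ∧ ∀ I : Ideal R,
      (∃ J : Ideal U, J.map θ = I.map φ) → cyc I ∈ H := by
  let : Algebra U L := θ.toAlgebra
  have : Module.Flat U L := hθ
  obtain ⟨χ, hχ⟩ := exists_cls R
  obtain ⟨ρ, -, hρ2⟩ := h (G0 R) χ
  obtain ⟨ρ'', -, hρ''⟩ := exists_base (A := U) ρ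
  obtain ⟨G, hG⟩ := hU
  let H : AddSubgroup (G0 R) := AddSubgroup.closure {x | x ∈ G.map fun M => ρ''.val M.M}
  refine ⟨H, (AddSubgroup.fg_iff _).2 ⟨_, rfl, List.finite_toSet _⟩, ?_⟩
  rintro I ⟨J, hJ⟩
  obtain ⟨τ, hτ⟩ := exists_comp ρ'' (QuotientAddGroup.mk' H)
  have h1 : τ.val (U ⧸ J) = 0 := hG _ τ (fun M hM => by
    rw [hτ]
    exact (QuotientAddGroup.eq_zero_iff _).2
      (AddSubgroup.subset_closure (List.mem_map.2 ⟨M, hM, rfl⟩))) _
    (fun x hx y => by rw [Ideal.mem_bot.1 hx, zero_smul])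
  rw [hτ] at h1
  have h2 : ρ''.val (U ⧸ J) ∈ H := (QuotientAddGroup.eq_zero_iff _).1 h1
  have h3 : J.map (algebraMap U L) = I.map φ := hJ
  rw [hρ'', h3, hρ2, hχ] at h2
  exact h2

theorem cell_of_spec [IsNoetherianRing A] {φ : A →+* B} {ε : B →+* A} (h : Spec φ ε)
    (hB : Cell B) : Cell A := by
  obtain ⟨H, hH, h1⟩ := key_spec h (RingHom.id B) (RingHom.Flat.id B) hB
  exact cell_of_fg hH fun I => h1 I ⟨I.map φ, Ideal.map_id _⟩

theorem spec_congr {φ φ' : A →+* B} {ε ε' : B →+* A} (h : Spec φ ε) (h1 : φ = φ') (h2 : ε = ε') :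
    Spec φ' ε' := h1 ▸ h2 ▸ h

theorem mono_RB {b b' : Ideal A} (h : CellI A b) (hb : b ≤ b') : CellI A b' := by
  obtain ⟨G, hG⟩ := h
  exact ⟨G, fun Γ _ χ h => (hG Γ χ h).mono hb⟩

end Pool.Agent.P.MP_1bf4cb_ag.RG
end
end

-- part Pool.Agent.P.MP_1bf4cb_ag.NsC
section

/-! Bruhat cells and double cosets in the special linear group. -/

namespace Pool.Agent.P.MP_1bf4cb_ag.RG.In

open Matrix Equiv MvPolynomial Pointwise

variable {k : Type} [Field k] {n r : ℕ} {C : Type} [CommRing C]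

/-- The permutation matrix with entry one in row `σ a` of column `a`. -/
def Pm (C : Type) [CommRing C] (σ : Perm (Fin n)) : Mx n C := (1 : Mx n C).submatrix id σ

lemma mul_Pm (c : Mx n C) (σ : Perm (Fin n)) (i a : Fin n) : (c * Pm C σ) i a = c i (σ a) := by
  simp [Pm, mul_apply, one_apply]

lemma Pm_mul (c : Mx n C) (σ : Perm (Fin n)) (a b : Fin n) : (Pm C σ * c) (σ a) b = c a b := by
  simp [Pm, mul_apply, one_apply]

lemma det_Pm (σ : Perm (Fin n)) : (Pm C σ).det = Perm.sign σ := by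
  simp [Pm, det_permute']

lemma Pm_map {C' : Type} [CommRing C'] (φ : C →+* C') (σ : Perm (Fin n)) :
    (Pm C σ).map φ = Pm C' σ := by
  ext a b; simp [Pm, one_apply, apply_ite φ]

lemma sign_sq (σ : Perm (Fin n)) : ((Perm.sign σ : ℤ) : C) * (Perm.sign σ : ℤ) = 1 := by
  rw [← Int.cast_mul, ← Units.val_mul, Int.units_mul_self]; simp

/-- The representative of determinant one of a permutation. -/
def Wm (C : Type) [CommRing C] (σ : Perm (Fin (r + 1))) : Mx (r + 1) C :=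
  Pm C σ * dg r ((Perm.sign σ : ℤ) : C)

lemma det_Wm (σ : Perm (Fin (r + 1))) : (Wm C σ).det = 1 := by
  rw [Wm, det_mul, det_Pm, det_dg, sign_sq]

lemma Wm_map {C' : Type} [CommRing C'] (φ : C →+* C') (σ : Perm (Fin (r + 1))) :
    (Wm C σ).map φ = Wm C' σ := by
  rw [Wm, Wm, Matrix.map_mul, Pm_map, dg_map, map_intCast]

/-- The inversions of a permutation. -/
def Iv (σ : Perm (Fin n)) (a b : Fin n) : Prop := a < b ∧ σ.symm b < σ.symm a

instance (σ : Perm (Fin n)) : DecidableRel (Iv σ) := fun _ _ => by unfold Iv; infer_instance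

lemma Off.piv {σ : Perm (Fin n)} {c : Mx n C} (h : Off (Iv σ) c) : Piv σ n (c * Pm C σ) :=
  fun a _ => ⟨by rw [mul_Pm, (h.tri fun _ _ h => h.1).2.2], fun b hb => by
    rw [mul_Pm, h _ _ fun h2 => absurd h2.2 (by simpa using hb.le),
      one_apply_ne (σ.injective.ne hb.ne)]⟩

lemma cell_bij (σ : Perm (Fin (r + 1))) :
    Set.BijOn (fun x : Mx (r + 1) C × Mx (r + 1) C => x.1 * Wm C σ * x.2)
      {x | Off (Iv σ) x.1 ∧ x.2.det = 1 ∧ x.2.IsUpperTriangular}
      {g | g.det = 1 ∧ (∀ x ∈ Mn σ g, x = 0) ∧ ∀ τ, Lt τ σ → Ideal.span (Mn τ g) = ⊤} := by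
  have key : ∀ x : Mx (r + 1) C × Mx (r + 1) C,
      Off (Iv σ) x.1 ∧ x.2.det = 1 ∧ x.2.IsUpperTriangular → (x.1 * Wm C σ * x.2).det = 1 ∧
        ∀ j, ∃ u : Cˣ, ∀ i, Dm σ j i (x.1 * Wm C σ * x.2) = x.1 i (σ j) * u := fun x hx => by
    refine ⟨by rw [det_mul, det_mul, (hx.1.tri fun _ _ h => h.1).2.1, det_Wm, hx.2.1]; simp,
      fun j => ?_⟩
    have h1 : (dg r ((Perm.sign σ : ℤ) : C) * x.2).IsUpperTriangular := (dg_tri _ _).mul hx.2.2
    obtain ⟨u, hu⟩ := cor_unit j h1 (by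
      rw [det_mul, det_dg, hx.2.1, mul_one]; exact IsUnit.of_mul_eq_one _ (sign_sq σ))
    refine ⟨u, fun i => ?_⟩
    rw [Wm, ← mul_assoc, mul_assoc _ (dg _ _), Dm_mul _ _ _ _ h1,
      Dm_piv fun a _ => hx.1.piv a a.2, mul_Pm, hu]
  refine ⟨fun x hx => ?_, fun x hx y hy h => ?_, fun g hg => ?_⟩
  · obtain ⟨h1, h2⟩ := key x hx
    have h3 : ∀ y ∈ Mn σ (x.1 * Wm C σ * x.2), y = 0 := by
      rintro _ ⟨j, i, h4, -, rfl⟩
      obtain ⟨u, hu⟩ := h2 j
      rw [hu, (hx.1.tri fun _ _ h => h.1).1 h4, zero_mul]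
    refine ⟨h1, h3, (piv_iff (by simp [h1]) h3).2 fun j => ?_⟩
    obtain ⟨u, hu⟩ := h2 j
    rw [hu, (hx.1.tri fun _ _ h => h.1).2.2, one_mul]
    exact u.isUnit
  · have h1 : x.1 = y.1 := by
      ext i a
      obtain ⟨j, rfl⟩ := σ.surjective a
      obtain ⟨u, hu⟩ := (key x hx).2 j
      obtain ⟨v, hv⟩ := (key y hy).2 j
      have h2 : ∀ i, x.1 i (σ j) * u = y.1 i (σ j) * v := fun i => by
        rw [← hu, ← hv, show x.1 * Wm C σ * x.2 = y.1 * Wm C σ * y.2 from h]
      have h3 := h2 (σ j)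
      rw [(hx.1.tri fun _ _ h => h.1).2.2, (hy.1.tri fun _ _ h => h.1).2.2, one_mul, one_mul] at h3
      exact (Units.mul_left_inj u).1 (by rw [h2, h3])
    refine Prod.ext h1 ?_
    have h2 : IsUnit (y.1 * Wm C σ) := (isUnit_iff_isUnit_det _).2 (by
      rw [det_mul, (hy.1.tri fun _ _ h => h.1).2.1, det_Wm]; simp)
    exact h2.mul_left_cancel (by simpa only [h1] using h)
  · obtain ⟨m, b, rfl, h1, h2, h3⟩ := fac_ring ((piv_iff (by simp [hg.1]) hg.2.1).1 hg.2.2)
    have h4 : Off (Iv σ) (m.submatrix id σ.symm) := fun a c h => by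
      obtain ⟨a, rfl⟩ := σ.surjective a
      obtain ⟨j, rfl⟩ := σ.surjective c
      simp only [Iv, symm_apply_apply, submatrix_apply, id, not_and] at h ⊢
      rcases lt_trichotomy a j with h5 | rfl | h5
      · rw [(h3 a a.2).2 j h5, one_apply_ne (σ.injective.ne h5.ne)]
      · rw [(h3 a a.2).1, one_apply_eq]
      · have h6 : σ j < σ a := lt_of_le_of_ne (not_lt.1 fun h6 => h h6 h5) (σ.injective.ne h5.ne)
        have h7 := hg.2.1 _ ⟨j, σ a, h6, by simpa using h5, rfl⟩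
        rw [Dm_mul _ _ _ _ h1, Dm_piv fun a _ => h3 a a.2] at h7
        rw [(cor_unit j h1 h2).mul_left_eq_zero.1 h7, one_apply_ne h6.ne']
    have h5 : m.submatrix id σ.symm * Wm C σ * (dg r ((Perm.sign σ : ℤ) : C) * b) = m * b := by
      rw [Wm, ← mul_assoc (m.submatrix id σ.symm), mul_assoc _ (dg _ _), ← mul_assoc (dg _ _),
        dg_mul, sign_sq, dg_one, one_mul]
      congr 1
      ext i a
      simp [mul_Pm]
    refine ⟨(m.submatrix id σ.symm, dg r ((Perm.sign σ : ℤ) : C) * b),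
      ⟨h4, ?_, (dg_tri _ _).mul h1⟩, h5⟩
    have h6 := hg.1
    rwa [← h5, det_mul, det_mul, (h4.tri fun _ _ h => h.1).2.1, det_Wm, one_mul, one_mul] at h6

/-- The products of the minors of the first cells. -/
def Zr (en : ℕ → Perm (Fin n)) (g : Mx n C) : ℕ → Set C
  | 0 => {1}
  | j + 1 => Zr en g j * Mn (en j) g

lemma Mn_map {C' : Type} [CommRing C'] (φ : C →+* C') (σ : Perm (Fin n)) (g : Mx n C) :
    φ '' Mn σ g = Mn σ (g.map φ) := by
  ext x
  constructor
  · rintro ⟨_, ⟨j, i, h1, h2, rfl⟩, rfl⟩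
    exact ⟨j, i, h1, h2, Dm_map ..⟩
  · rintro ⟨j, i, h1, h2, rfl⟩
    exact ⟨_, ⟨j, i, h1, h2, rfl⟩, Dm_map ..⟩

lemma Zr_map {C' : Type} [CommRing C'] (φ : C →+* C') (en : ℕ → Perm (Fin n)) (g : Mx n C)
    (j : ℕ) : φ '' Zr en g j = Zr en (g.map φ) j := by
  induction j with
  | zero => simp [Zr]
  | succ j ih => rw [Zr, Zr, Set.image_mul, ih, Mn_map]

lemma Zr_top (en : ℕ → Perm (Fin n)) (g : Mx n C) (j : ℕ) :
    Ideal.span (Zr en g j) = ⊤ ↔ ∀ i < j, Ideal.span (Mn (en i) g) = ⊤ := by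
  induction j with
  | zero => simp [Zr]
  | succ j ih =>
    rw [Zr, ← Ideal.span_mul_span', Nat.forall_lt_succ_right, ← ih]
    exact ⟨fun h => ⟨top_le_iff.1 (h.ge.trans Ideal.mul_le_left),
      top_le_iff.1 (h.ge.trans Ideal.mul_le_right)⟩,
      fun h => by rw [h.1, h.2, Ideal.top_mul]⟩

lemma Zr_zero {en : ℕ → Perm (Fin n)} {g : Mx n C} {j : ℕ} (h : Ideal.span (Zr en g j) = ⊤) :
    (∀ x ∈ Zr en g (j + 1), x = 0) ↔ ∀ x ∈ Mn (en j) g, x = 0 := by
  refine ⟨fun h1 x hx => ?_, ?_⟩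
  · have : Ideal.span (Zr en g j) ≤ LinearMap.ker (LinearMap.toSpanSingleton C C x) :=
      Ideal.span_le.2 fun z hz => h1 _ (Set.mul_mem_mul hz hx)
    exact (one_mul x).symm.trans (this (h ▸ Submodule.mem_top (x := (1 : C))))
  · rintro h1 _ ⟨z, -, x, hx, rfl⟩
    simp [h1 x hx]

lemma exists_en (n : ℕ) : ∃ (M : ℕ) (en : ℕ → Perm (Fin n)),
    (∀ j < M + 1, ∀ τ, Lt τ (en j) ↔ ∃ i < j, τ = en i) ∧ ∀ τ, ¬ Lt (en M) τ := by
  let _ := lexP n
  obtain ⟨M, hM⟩ : ∃ M, Fintype.card (Perm (Fin n)) = M + 1 :=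
    Nat.exists_eq_succ_of_ne_zero Fintype.card_ne_zero
  let e := monoEquivOfFin _ hM
  refine ⟨M, fun j => if h : j < M + 1 then e ⟨j, h⟩ else 1, fun j hj τ => ?_, fun τ h => ?_⟩
  · obtain ⟨i, rfl⟩ := e.surjective τ
    simp only [← lexP_lt, dif_pos hj]
    refine e.lt_iff_lt.trans ⟨fun h => ⟨i, h, by rw [dif_pos i.2]⟩, ?_⟩
    rintro ⟨i', h1, h2⟩
    rw [dif_pos (h1.trans hj)] at h2
    rw [e.injective h2]
    exact h1
  · obtain ⟨i, rfl⟩ := e.surjective τ
    simp only [← lexP_lt, dif_pos M.lt_succ_self] at h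
    exact absurd (e.lt_iff_lt.1 h) (not_lt.2 (Nat.lt_succ_iff.1 i.2))

lemma fac_three {g : Mx n k} (h : g.det = 1) : ∃ (σ : Perm (Fin n)) (c b : Mx n k),
    g = c * Pm k σ * b ∧ c.IsUpperTriangular ∧ IsUnit c.det ∧ b.IsUpperTriangular ∧
      IsUnit b.det := by
  obtain ⟨σ, m, b, rfl, h1, h2, h3, h4⟩ := fac_field (g := g) (by simp [h])
  have h5 : m.submatrix id σ.symm * Pm k σ = m := by
    ext i a
    simp [mul_Pm]
  refine ⟨σ, m.submatrix id σ.symm, b, by rw [h5], fun a c hc => h4 _ _ (by simpa using hc), ?_,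
    h1, h2⟩
  rw [← h5, det_mul, det_mul, mul_assoc] at h
  exact IsUnit.of_mul_eq_one _ h

lemma dbl_eqs {β : Fin (r + 1) → ℕ} (hβ : Monotone β) {x y : Mx (r + 1) k} (hx : x.det = 1)
    (hy : y.det = 1) [Nontrivial C] (φ : k →+* C) {p q : Mx (r + 1) C}
    (hp : p.BlockTriangular β) (hq : q.BlockTriangular β) (hd : q.det = 1)
    (h : x.map φ * q = p * y.map φ) : ∃ p q : Mx (r + 1) k, (p.det = 1 ∧ p.BlockTriangular β) ∧
      (q.det = 1 ∧ q.BlockTriangular β) ∧ x * q = p * y := by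
  have up : ∀ {m : Mx (r + 1) k}, m.IsUpperTriangular → m.BlockTriangular β :=
    fun hm a b hab => hm (hβ.reflect_lt hab)
  obtain ⟨σ, c, b, e, c1, c2, b1, b2⟩ := fac_three hx
  obtain ⟨τ, c', b', e', c1', c2', b1', b2'⟩ := fac_three hy
  have h1 : Pm C σ * (b.map φ * q * b'⁻¹.map φ) = c⁻¹.map φ * p * c'.map φ * Pm C τ := by
    have e1 : Pm k σ * b = c⁻¹ * x := by
      rw [e, mul_assoc c, nonsing_inv_mul_cancel_left _ _ c2]
    have e2 : c' * Pm k τ = y * b'⁻¹ := by rw [e', mul_nonsing_inv_cancel_right _ _ b2']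
    rw [← Pm_map φ σ, ← Pm_map φ τ, ← mul_assoc, ← mul_assoc, ← Matrix.map_mul, e1, mul_assoc _ (c'.map φ),
      ← Matrix.map_mul, e2, Matrix.map_mul, Matrix.map_mul, mul_assoc _ _ q, h]
    simp only [mul_assoc]
  have hQ : (b.map φ * q * b'⁻¹.map φ).BlockTriangular β :=
    (((up b1).map φ).mul hq).mul ((up (inv_tri b1' b2')).map φ)
  have hP : (c⁻¹.map φ * p * c'.map φ).BlockTriangular β :=
    (((up (inv_tri c1 c2)).map φ).mul hp).mul ((up c1').map φ)
  have hQd : (b.map φ * q * b'⁻¹.map φ).det ≠ 0 := by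
    rw [det_mul, det_mul, hd, mul_one, ← RingHom.mapMatrix_apply, ← RingHom.mapMatrix_apply,
      ← RingHom.map_det, ← RingHom.map_det, ← map_mul]
    exact ((b2.mul (isUnit_nonsing_inv_det _ b2')).map φ).ne_zero
  generalize b.map φ * q * b'⁻¹.map φ = Q at h1 hQ hQd
  generalize c⁻¹.map φ * p * c'.map φ = P at h1 hP
  rw [det_apply] at hQd
  obtain ⟨π, -, hπ⟩ := Finset.exists_ne_zero_of_sum_ne_zero hQd
  have h2 : ∀ a, Q (π a) a ≠ 0 := fun a h2 =>
    hπ (smul_eq_zero_of_right _ (Finset.prod_eq_zero (Finset.mem_univ a) h2))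
  have h3 : ∀ a, P (σ (π a)) (τ a) ≠ 0 := fun a => by
    rw [← mul_Pm P, ← h1, Pm_mul]; exact h2 a
  obtain ⟨s, hs⟩ : ∃ s, (b⁻¹ * (Pm k π * dg r s) * b').det = 1 := by
    obtain ⟨s, hs⟩ := ((isUnit_nonsing_inv_det _ b2).mul
      ((IsUnit.of_mul_eq_one _ (sign_sq (C := k) π)).mul b2')).exists_right_inv
    exact ⟨s, by rw [det_mul, det_mul, det_mul, det_Pm, det_dg, ← hs]; ring⟩
  have h4 : (Pm k π * dg r s).BlockTriangular β :=
    BlockTriangular.mul (fun a a' ha => one_apply_ne (by rintro rfl; exact h2 a' (hQ ha)))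
      (dg_tri β s)
  have h5 : (Pm k σ * (Pm k π * dg r s) * (Pm k τ)⁻¹).BlockTriangular β := fun a a' ha => by
    have h6 : (Pm k τ)⁻¹ = Pm k τ⁻¹ := inv_eq_right_inv (by
      ext i j; rw [mul_Pm]; simp [Pm, one_apply])
    obtain ⟨a, rfl⟩ := σ.surjective a
    obtain ⟨a', rfl⟩ := τ.surjective a'
    rw [h6, mul_Pm, Pm_mul, dg, mul_diagonal, show τ⁻¹ (τ a') = a' by simp]
    refine mul_eq_zero_of_left (one_apply_ne ?_) _
    rintro rfl
    exact h3 a' (hP ha)
  have h6 : IsUnit (Pm k τ).det := det_Pm (C := k) τ ▸ IsUnit.of_mul_eq_one _ (sign_sq τ)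
  have h7 : x * (b⁻¹ * (Pm k π * dg r s) * b') =
      c * (Pm k σ * (Pm k π * dg r s) * (Pm k τ)⁻¹) * c'⁻¹ * y := by
    rw [e, e']
    simp only [mul_assoc, mul_nonsing_inv_cancel_left _ _ b2, nonsing_inv_mul_cancel_left _ _ c2',
      nonsing_inv_mul_cancel_left _ _ h6]
  refine ⟨_, _, ⟨?_, ((up c1).mul h5).mul (up (inv_tri c1' c2'))⟩,
    ⟨hs, ((up (inv_tri b1 b2)).mul h4).mul (up b1')⟩, h7⟩
  have h8 := congrArg det h7
  rw [det_mul, hx, hs, det_mul _ y, hy, mul_one, mul_one] at h8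
  exact h8.symm

end Pool.Agent.P.MP_1bf4cb_ag.RG.In
end

-- part Pool.Agent.P.MP_1bf4cb_ag.RC
section

set_option autoImplicit false
set_option linter.unusedSectionVars false
set_option linter.unusedVariables false

open Function Matrix
open scoped TensorProduct

noncomputable section

namespace Pool.Agent.P.MP_1bf4cb_ag.RG

variable {k : Type} [Field k] {X Y Z : Fn k}

theorem CF.aff (hE : Ex X) (h : CF X) (κ : Type) [Finite κ] : CF (X.prod (aff k κ)) := by
  obtain ⟨R, _, _, x, hx⟩ := hE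
  have := hx.noeth
  exact (rp_mv hx κ).cf (cell_mv (h R x hx) κ)

theorem CF.loc (hE : Ex X) (h : CF X) (f : NF X) : CF (X.loc f) := by
  obtain ⟨R, _, _, x, hx⟩ := hE
  have := hx.noeth
  exact (rp_loc hx f).cf (cell_away _ (h R x hx))

theorem cf_empty (h : ∀ (C : Type) [CommRing C] [Algebra k C], X.obj C → Subsingleton C) : CF X :=
  fun R _ _ x _ => have := h R x; cell_trivial R

/-- stably cellular -/
def SC (X : Fn k) : Prop := ∀ Y : Fn k, Ex Y → CF Y → CF (Y.prod X)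

theorem SC.iso (h : SC X) (e : NI X Y) : SC Y :=
  fun W h1 h2 => (h W h1 h2).iso ((NI.refl W).prod e)

theorem SC.prod (h : SC X) (hX : Ex X) (h' : SC Y) : SC (X.prod Y) :=
  fun W h1 h2 => (h' _ (h1.prod hX) (h W h1 h2)).iso (NI.assoc W X Y)

theorem sc_aff (κ : Type) [Finite κ] : SC (aff k κ) := fun W h1 h2 => h2.aff h1 κ

/-- a function of the second factor -/
def NF.snd (f : NF X) (Y : Fn k) : NF (Y.prod X) :=
  ⟨fun C _ _ x => f.f C x.2, fun φ x => f.nat φ x.2⟩

/-- localisation commutes with products -/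
def NI.locProd (f : NF X) (Y : Fn k) : NI ((Y.prod X).loc (f.snd Y)) (Y.prod (X.loc f)) where
  ap C _ _ x := (x.1.1, ⟨x.1.2, x.2⟩)
  bij C _ _ := ⟨fun x y h => Subtype.ext (Prod.ext (congrArg (fun z => z.1) h :)
    (congrArg (fun z => z.2.1) h :)), fun y => ⟨⟨(y.1, y.2.1), y.2.2⟩, rfl⟩⟩
  nat φ x := rfl

theorem SC.loc (h : SC X) (hX : Ex X) (f : NF X) : SC (X.loc f) :=
  fun W h1 h2 => ((h W h1 h2).loc (h1.prod hX) (f.snd W)).iso (NI.locProd f W)

theorem sc_empty (h : ∀ (C : Type) [CommRing C] [Algebra k C], X.obj C → Subsingleton C) : SC X :=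
  fun W _ _ => cf_empty fun C _ _ x => h C x.2

theorem SC.cf (h : SC X) : CF X := by
  have h1 : Rp (hF k k) k (AlgHom.id k k) := rp_hF inferInstance
  refine (h (hF k k) ⟨k, _, _, _, h1⟩ (h1.cf (cell_field k))).iso
    ⟨fun C _ _ x => x.2, fun C _ _ => ⟨fun x y h => Prod.ext ?_ h,
      fun y => ⟨(Algebra.ofId k C, y), rfl⟩⟩, fun φ x => rfl⟩
  exact Subsingleton.elim (α := k →ₐ[k] C) _ _

/-- specialisation at a rational point -/
def PO (X : Fn k) (s : X.obj k) : Prop :=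
  ∀ (D : Type) [CommRing D] [Algebra k D], Algebra.FiniteType k D →
    ∃ (R : Type) (_ : CommRing R) (_ : Algebra k R) (δ : D →ₐ[k] R) (x : X.obj R) (ε : R →ₐ[k] D),
      Rp ((hF k D).prod X) R (δ, x) ∧ ε.comp δ = AlgHom.id k D ∧
        X.map ε x = X.map (Algebra.ofId k D) s ∧ Spec (δ : D →+* R) (ε : R →+* D)

theorem po_aff (κ : Type) [Finite κ] (s : κ → k) : PO (aff k κ) s := by
  intro D _ _ hD
  have := Algebra.FiniteType.isNoetherianRing k D
  refine ⟨MvPolynomial κ D, _, _, _, _,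
    MvPolynomial.aevalTower (AlgHom.id k D) fun i => algebraMap k D (s i),
    rp_mv (rp_hF hD) κ, ?_, ?_, spec_congr (spec_mv fun i => algebraMap k D (s i)) ?_ ?_⟩
  · ext d
    simp [hF]
  · funext i
    exact MvPolynomial.aevalTower_X _ _ i
  · ext d
    rfl
  · refine MvPolynomial.ringHom_ext (fun d => ?_) fun i => ?_
    · simp
    · simp

theorem PO.iso {s : X.obj k} (h : PO X s) (e : NI X Y) : PO Y (e.ap k s) := by
  intro D _ _ hD
  obtain ⟨R, _, _, δ, x, ε, h1, h2, h3, h4⟩ := h D hD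
  exact ⟨R, _, _, δ, e.ap R x, ε, h1.iso ((NI.refl _).prod e), h2, by
    rw [← e.nat, h3, e.nat], h4⟩

theorem PO.loc {s : X.obj k} (h : PO X s) (f : NF X) (hs : IsUnit (f.f k s)) :
    PO (X.loc f) ⟨s, hs⟩ := by
  intro D _ _ hD
  obtain ⟨R, _, _, δ, x, ε, h1, h2, h3, h4⟩ := h D hD
  have := h1.noeth
  have hu : IsUnit (ε (f.f R x)) := by
    rw [← f.nat, h3, f.nat]
    exact hs.map _
  have he : ∀ b, IsLocalization.Away.liftAlgHom (S := Localization.Away (f.f R x)) (f.f R x)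
      (f := ε) hu (algebraMap R _ b) = ε b := fun b => by
    simp [IsLocalization.Away.liftAlgHom]
  refine ⟨Localization.Away (f.f R x), _, _, _, _,
    IsLocalization.Away.liftAlgHom (f.f R x) (f := ε) hu,
    (rp_loc h1 (f.snd _)).iso (NI.locProd f _), ?_, Subtype.ext ?_,
    spec_congr (spec_away h4 (f.f R x) hu _ he) rfl rfl⟩
  · ext d
    exact (he _).trans (DFunLike.congr_fun h2 d)
  · show X.map _ (X.map _ x) = X.map _ s
    rw [X.map_comp, ← h3]
    congr 1
    ext b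
    exact he b

theorem PO.prod {s : X.obj k} {t : Y.obj k} (h : PO X s) (h' : PO Y t) : PO (X.prod Y) (s, t) := by
  intro D _ _ hD
  obtain ⟨R, _, _, δ, x, ε, h1, h2, h3, h4⟩ := h D hD
  obtain ⟨R', _, _, δ', y, ε', h1', h2', h3', h4'⟩ := h' R h1.ft
  refine ⟨R', _, _, δ'.comp δ, (X.map δ' x, y), ε.comp ε',
    (h1'.iso (h1.yon.prod (NI.refl Y))).iso (NI.assoc _ _ _), ?_, Prod.ext ?_ ?_,
    spec_trans h4 h4'⟩
  · rw [AlgHom.comp_assoc, ← AlgHom.comp_assoc ε', h2', AlgHom.id_comp, h2]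
  · show X.map _ (X.map _ x) = X.map _ s
    rw [X.map_comp, AlgHom.comp_assoc, h2', AlgHom.comp_id, h3]
  · show Y.map _ y = Y.map _ t
    rw [← Y.map_comp, h3', Y.map_comp]
    congr 1
    exact Subsingleton.elim _ _

theorem PO.back {s : X.obj k} (h : PO X s) (h1 : CF (Y.prod X)) : CF Y := by
  intro D _ _ y hy
  obtain ⟨R, _, _, δ, x, ε, h2, -, -, h4⟩ := h D hy.ft
  have := hy.noeth
  exact cell_of_spec h4 (h1 R _ (h2.iso (hy.yon.prod (NI.refl X))))

end Pool.Agent.P.MP_1bf4cb_ag.RG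
end
end

-- part Pool.Agent.P.MP_1bf4cb_ag.RK
section

set_option autoImplicit false
set_option maxHeartbeats 400000
set_option linter.unusedSectionVars false
set_option linter.unusedVariables false

open Function
open scoped TensorProduct

noncomputable section

namespace Pool.Agent.P.MP_1bf4cb_ag.RG

section
variable {A : Type} [CommRing A]

theorem euler_RK {Γ : Type 1} [AddCommGroup Γ] (χ : AddF A Γ) {M N P M' N' P' : Type}
    [AddCommGroup M] [Module A M] [AddCommGroup N] [Module A N] [AddCommGroup P] [Module A P]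
    [AddCommGroup M'] [Module A M'] [AddCommGroup N'] [Module A N'] [AddCommGroup P'] [Module A P']
    (f : M →ₗ[A] N) (g : N →ₗ[A] P) (hf : Injective f) (hg : Surjective g) (h : Exact f g)
    (f' : M' →ₗ[A] N') (g' : N' →ₗ[A] P') (hf' : Injective f') (hg' : Surjective g')
    (h' : Exact f' g') (i₁ : M' →ₗ[A] M) (i₂ : N' →ₗ[A] N) (i₃ : P' →ₗ[A] P)
    (h₁ : ∀ y, f (i₁ y) = i₂ (f' y)) (h₂ : ∀ y, g (i₂ y) = i₃ (g' y))
    [Module.Finite A (LinearMap.ker i₁)] [Module.Finite A (LinearMap.ker i₂)]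
    [Module.Finite A (LinearMap.ker i₃)] [Module.Finite A (M ⧸ LinearMap.range i₁)]
    [Module.Finite A (N ⧸ LinearMap.range i₂)] [Module.Finite A (P ⧸ LinearMap.range i₃)] :
    χ.val (N ⧸ LinearMap.range i₂) - χ.val (LinearMap.ker i₂) =
      (χ.val (M ⧸ LinearMap.range i₁) - χ.val (LinearMap.ker i₁)) +
        (χ.val (P ⧸ LinearMap.range i₃) - χ.val (LinearMap.ker i₃)) := by
  let F1 : LinearMap.ker i₁ →ₗ[A] LinearMap.ker i₂ := f'.restrict (fun y hy => by
    rw [LinearMap.mem_ker] at hy ⊢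
    rw [← h₁, hy, map_zero])
  let F2 : LinearMap.ker i₂ →ₗ[A] LinearMap.ker i₃ := g'.restrict (fun y hy => by
    rw [LinearMap.mem_ker] at hy ⊢
    rw [← h₂, hy, map_zero])
  let G1 : (M ⧸ LinearMap.range i₁) →ₗ[A] (N ⧸ LinearMap.range i₂) :=
    Submodule.mapQ _ _ f (by
      rintro _ ⟨y, rfl⟩
      exact ⟨f' y, (h₁ y).symm⟩)
  let G2 : (N ⧸ LinearMap.range i₂) →ₗ[A] (P ⧸ LinearMap.range i₃) :=
    Submodule.mapQ _ _ g (by
      rintro _ ⟨y, rfl⟩
      exact ⟨g' y, (h₂ y).symm⟩)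
  have k1 : f.comp i₁ = i₂.comp f' := LinearMap.ext h₁
  have k2 : g.comp i₂ = i₃.comp g' := LinearMap.ext h₂
  have eF : Exact F1 F2 := by
    intro y
    constructor
    · intro hy
      have h0 : g' y.1 = 0 := congrArg Subtype.val hy
      obtain ⟨z, hz⟩ := (h' _).1 h0
      refine ⟨⟨z, ?_⟩, Subtype.ext hz⟩
      rw [LinearMap.mem_ker]
      apply hf
      rw [h₁, hz, map_zero]
      exact y.2
    · rintro ⟨z, rfl⟩
      exact Subtype.ext (h'.apply_apply_eq_zero z.1)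
  have eG : Exact G1 G2 := by
    intro y
    obtain ⟨y, rfl⟩ := Submodule.Quotient.mk_surjective _ y
    constructor
    · intro hy
      have h0 : g y ∈ LinearMap.range i₃ := (Submodule.Quotient.mk_eq_zero _).1 hy
      obtain ⟨w, hw⟩ := h0
      obtain ⟨v, rfl⟩ := hg' w
      obtain ⟨z, hz⟩ := (h (y - i₂ v)).1 (by rw [map_sub, h₂, hw, sub_self])
      refine ⟨Submodule.Quotient.mk z, ?_⟩
      refine (Submodule.Quotient.eq _).2 ⟨-v, ?_⟩
      rw [hz, map_neg]
      abel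
    · rintro ⟨z, hz⟩
      obtain ⟨z, rfl⟩ := Submodule.Quotient.mk_surjective _ z
      rw [← hz]
      refine (Submodule.Quotient.mk_eq_zero _).2 ?_
      rw [h.apply_apply_eq_zero z]
      exact zero_mem _
  have e2 := SnakeLemma.exact_δ'_right i₁ i₂ i₃ f' g' h' f g h k1 k2
    (LinearMap.ker i₂).subtype (LinearMap.exact_subtype_ker_map i₂)
    (LinearMap.ker i₃).subtype (LinearMap.exact_subtype_ker_map i₃)
    (LinearMap.range i₁).mkQ (LinearMap.exact_map_mkQ_range i₁) hg' hf F2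
    (LinearMap.ext fun _ => rfl) (Submodule.subtype_injective _)
  have e3 := SnakeLemma.exact_δ'_left i₁ i₂ i₃ f' g' h' f g h k1 k2
    (LinearMap.ker i₃).subtype (LinearMap.exact_subtype_ker_map i₃)
    (LinearMap.range i₁).mkQ (LinearMap.exact_map_mkQ_range i₁)
    (LinearMap.range i₂).mkQ (LinearMap.exact_map_mkQ_range i₂) hg' hf G1
    (LinearMap.ext fun _ => rfl) (Submodule.mkQ_surjective _)
  have iF : Injective F1 := fun y z hyz => Subtype.ext (hf' (congrArg Subtype.val hyz))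
  have sG : Surjective G2 := by
    intro y
    obtain ⟨y, rfl⟩ := Submodule.Quotient.mk_surjective _ y
    obtain ⟨z, rfl⟩ := hg y
    exact ⟨Submodule.Quotient.mk z, rfl⟩
  have a1 := χ.congr (LinearEquiv.ofInjective F1 iF)
  have a2 := exact_GD χ _ _ eF
  have a3 := exact_GD χ _ _ e2
  have a4 := exact_GD χ _ _ e3
  have a5 := exact_GD χ _ _ eG
  have a6 := χ.congr (LinearEquiv.ofTop (LinearMap.range G2) (LinearMap.range_eq_top.2 sG))
  rw [a1, a2, a3, a4, a5, a6]
  abel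

theorem exists_cls' (A : Type) [CommRing A] [IsNoetherianRing A] :
    ∃ χ : AddF A (G0 A), ∀ M : FG A,
      χ.val M.M = QuotientAddGroup.mk (FreeAbelianGroup.of M) := by
  classical
  refine ⟨⟨fun M _ _ => if h : Module.Finite A M then
    QuotientAddGroup.mk (FreeAbelianGroup.of (@FG.mk A _ M _ _ h)) else 0, ?_⟩, fun M => ?_⟩
  · intro M N P _ _ _ _ _ _ hN f g hf hg h
    have hM : Module.Finite A M := Module.Finite.of_injective f hf
    have hP : Module.Finite A P := Module.Finite.of_surjective g hg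
    rw [dif_pos hM, dif_pos hN, dif_pos hP, ← QuotientAddGroup.mk_add, eq_comm,
      QuotientAddGroup.eq]
    refine AddSubgroup.subset_closure ⟨⟨M⟩, ⟨N⟩, ⟨P⟩, f, g, hf, hg, h, ?_⟩
    abel
  · exact dif_pos M.fin

theorem zero_of_FG {Γ : Type 1} [AddCommGroup Γ] (Φ : G0 A →+ Γ)
    (h : ∀ M : FG A, Φ (QuotientAddGroup.mk (FreeAbelianGroup.of M)) = 0) (z : G0 A) : Φ z = 0 := by
  obtain ⟨G, hG⟩ := list_RB z
  exact hG Γ Φ fun M _ => h M

theorem zero_of_cyc [IsNoetherianRing A] {Γ : Type 1} [AddCommGroup Γ] (Φ : G0 A →+ Γ)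
    (h : ∀ I : Ideal A, Φ (cyc I) = 0) (z : G0 A) : Φ z = 0 := by
  obtain ⟨χ, hχ⟩ := exists_cls' A
  obtain ⟨τ, hτ⟩ := exists_comp χ Φ
  have h1 : Van τ ⊥ := van_of_primes fun 𝔭 _ _ => by
    rw [hτ, hχ ⟨A ⧸ 𝔭⟩]
    exact h 𝔭
  refine zero_of_FG Φ (fun M => ?_) z
  rw [← hχ, ← hτ]
  exact h1 _ fun x hx y => by rw [Ideal.mem_bot.1 hx, zero_smul]

theorem iter_hom {Γ : Type 1} [AddCommGroup Γ] (ν : Γ →+ Γ) (m : ℕ) :
    ∃ μ : Γ →+ Γ, ∀ z, μ z = ν^[m] z := by
  induction m with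
  | zero => exact ⟨AddMonoidHom.id _, fun z => rfl⟩
  | succ m ih =>
    obtain ⟨μ, h⟩ := ih
    exact ⟨μ.comp ν, fun z => h _⟩

theorem fg_of_nil {Γ : Type 1} [AddCommGroup Γ] (ν : Γ →+ Γ) (m : ℕ) (hm : ∀ z, ν^[m] z = 0)
    {H : AddSubgroup Γ} (hH : H.FG) (h : ∀ z, ∃ a ∈ H, ∃ z', z = a + ν z') :
    (⊤ : AddSubgroup Γ).FG := by
  have h1 : ∀ i, ∃ K : AddSubgroup Γ, K.FG ∧ ∀ z, ∃ a ∈ K, ∃ z', z = a + ν^[i] z' := fun i => by
    induction i with
    | zero => exact ⟨H, hH, fun z => ⟨0, H.zero_mem, z, by simp⟩⟩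
    | succ i ih =>
      obtain ⟨K, hK, ih⟩ := ih
      refine ⟨H ⊔ K.map ν, hH.sup ?_, fun z => ?_⟩
      · obtain ⟨s, hs, hf⟩ := (AddSubgroup.fg_iff _).1 hK
        exact (AddSubgroup.fg_iff _).2 ⟨ν '' s, by rw [← hs, AddMonoidHom.map_closure], hf.image _⟩
      · obtain ⟨a, ha, z', rfl⟩ := h z
        obtain ⟨b, hb, z'', rfl⟩ := ih z'
        exact ⟨a + ν b, add_mem (AddSubgroup.mem_sup_left ha)
          (AddSubgroup.mem_sup_right ⟨b, hb, rfl⟩), z'', by
            rw [iterate_succ_apply', map_add, add_assoc]⟩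
  obtain ⟨K, hK, h2⟩ := h1 m
  have : K = ⊤ := eq_top_iff.2 fun z _ => by
    obtain ⟨a, ha, z', rfl⟩ := h2 z
    rw [hm, add_zero]
    exact ha
  exact this ▸ hK

end

variable {R A : Type} [CommRing R] [CommRing A] [Algebra R A]

theorem pr_mem (pr : A →ₗ[R] R) (I : Ideal R) {z : A} (hz : z ∈ I.map (algebraMap R A)) :
    pr z ∈ I := by
  have h : z ∈ I • (⊤ : Submodule R A) := by
    rw [Ideal.smul_top_eq_map]
    exact hz
  refine Submodule.smul_induction_on h (fun i hi a _ => ?_) fun a b ha hb => ?_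
  · rw [map_smul]
    exact I.mul_mem_right _ hi
  · rw [map_add]
    exact I.add_mem ha hb

theorem comap_map_pr (pr : A →ₗ[R] R) (hp : ∀ a, pr (algebraMap R A a) = a) (I : Ideal R) :
    (I.map (algebraMap R A)).comap (algebraMap R A) = I :=
  le_antisymm (fun a ha => hp a ▸ pr_mem pr I ha) Ideal.le_comap_map

theorem noeth_pr [IsNoetherianRing A] (pr : A →ₗ[R] R) (hp : ∀ a, pr (algebraMap R A a) = a) :
    IsNoetherianRing R := by
  refine monotone_stabilizes_iff_noetherian.1 fun f => ?_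
  obtain ⟨m, hm⟩ := monotone_stabilizes_iff_noetherian.2 (inferInstance : IsNoetherian A A)
    ⟨fun i => Ideal.map (algebraMap R A) (f i), fun a b h => Ideal.map_mono (f.monotone h)⟩
  refine ⟨m, fun i hi => ?_⟩
  have h1 : Ideal.map (algebraMap R A) (f m) = Ideal.map (algebraMap R A) (f i) := hm i hi
  rw [← comap_map_pr pr hp (f m), h1, comap_map_pr pr hp]

section
variable {m : ℕ} (e : Fin m → Fin m → R) (M N : Type) [AddCommGroup M] [Module R M]
  [AddCommGroup N] [Module R N]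

/-- the twist of a module by an idempotent matrix -/
def TW : Submodule R (Fin m → M) where
  carrier := {v | ∀ i, ∑ j, e i j • v j = v i}
  zero_mem' i := by simp
  add_mem' {v w} hv hw i := by
    simp only [Pi.add_apply, smul_add, Finset.sum_add_distrib, hv i, hw i]
  smul_mem' c v hv i := by
    simp only [Pi.smul_apply, smul_comm (e i _) c, ← Finset.smul_sum, hv i]

variable {M N}

/-- functoriality of the twist -/
def TWm (f : M →ₗ[R] N) : TW e M →ₗ[R] TW e N :=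
  (f.compLeft (Fin m)).restrict fun v hv i => by
    simp only [LinearMap.compLeft_apply, comp_apply, ← map_smul, ← map_sum, hv i]

theorem TWm_apply (f : M →ₗ[R] N) (v : TW e M) (i : Fin m) : (TWm e f v).1 i = f (v.1 i) := rfl

variable {e}

theorem mem_TW (he : ∀ i l, ∑ j, e i j * e j l = e i l) (v : Fin m → M) :
    (fun i => ∑ j, e i j • v j) ∈ TW e M := fun i => by
  simp only [Finset.smul_sum, smul_smul]
  rw [Finset.sum_comm]
  simp only [← Finset.sum_smul, he]

theorem TW_inj {f : M →ₗ[R] N} (hf : Injective f) : Injective (TWm e f) :=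
  fun v w h => Subtype.ext (funext fun i => hf (congrFun (congrArg Subtype.val h) i))

theorem TW_surj (he : ∀ i l, ∑ j, e i j * e j l = e i l) {f : M →ₗ[R] N} (hf : Surjective f) :
    Surjective (TWm e f) := fun w => by
  choose v hv using fun i => hf (w.1 i)
  refine ⟨⟨_, mem_TW he v⟩, Subtype.ext (funext fun i => ?_)⟩
  rw [TWm_apply]
  simp only [map_sum, map_smul, hv, w.2 i]

theorem TW_exact {P : Type} [AddCommGroup P] [Module R P] {f : M →ₗ[R] N} {g : N →ₗ[R] P}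
    (hf : Injective f) (h : Exact f g) : Exact (TWm e f) (TWm e g) := fun w => by
  constructor
  · intro hw
    choose v hv using fun i => (h (w.1 i)).1 (congrFun (congrArg Subtype.val hw) i)
    refine ⟨⟨v, fun i => hf ?_⟩, Subtype.ext (funext hv)⟩
    simp only [map_sum, map_smul, hv, w.2 i]
  · rintro ⟨v, rfl⟩
    exact Subtype.ext (funext fun i => h.apply_apply_eq_zero _)

variable {Γ : Type 1} [AddCommGroup Γ]

/-- the twisted additive function -/
def twF [IsNoetherianRing R] (he : ∀ i l, ∑ j, e i j * e j l = e i l) (χ : AddF R Γ) : AddF R Γ :=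
  ⟨fun M _ _ => χ.val (TW e M), fun f g hf hg h =>
    χ.add _ _ (TW_inj hf) (TW_surj he hg) (TW_exact hf h)⟩

theorem tw_step [IsNoetherianRing R] (he : ∀ i l, ∑ j, e i j * e j l = e i l)
    (h2 : ∀ i j l, e j j * e i l = e i j * e j l) (χ : AddF R Γ) (b : Ideal R) (j : Fin m)
    (h : Van χ (b ⊔ Ideal.span {e j j})) [Module.Finite R M] (hM : ∀ x ∈ b, ∀ y : M, x • y = 0) :
    χ.val (TW e M) = χ.val M := by
  let α : TW e M →ₗ[R] M := (LinearMap.proj j).comp (TW e M).subtype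
  have h3 : χ.val (LinearMap.ker α) = 0 := by
    refine h _ fun x hx v => ?_
    obtain ⟨x, hxb, _, hy, rfl⟩ := Submodule.mem_sup.1 hx
    obtain ⟨c, rfl⟩ := Ideal.mem_span_singleton'.1 hy
    refine Subtype.ext (Subtype.ext (funext fun i => ?_))
    have h4 : v.1.1 j = 0 := v.2
    have h5 : e j j • v.1.1 i = 0 := by
      rw [← v.1.2 i, Finset.smul_sum]
      have h6 : ∀ l, e j j • e i l • v.1.1 l = e i j • e j l • v.1.1 l := fun l => by
        rw [smul_smul, smul_smul, h2]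
      rw [Finset.sum_congr rfl fun l _ => h6 l, ← Finset.smul_sum, v.1.2 j, h4, smul_zero]
    show (x + c * e j j) • v.1.1 i = 0
    rw [add_smul, hM x hxb, mul_smul, h5, smul_zero, add_zero]
  have h4 : χ.val (M ⧸ LinearMap.range α) = 0 := by
    refine h _ fun x hx v => ?_
    obtain ⟨x, hxb, _, hy, rfl⟩ := Submodule.mem_sup.1 hx
    obtain ⟨c, rfl⟩ := Ideal.mem_span_singleton'.1 hy
    obtain ⟨v, rfl⟩ := Submodule.Quotient.mk_surjective _ v
    rw [← Submodule.Quotient.mk_smul, Submodule.Quotient.mk_eq_zero, add_smul, hM x hxb, zero_add,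
      mul_comm, mul_smul]
    refine ⟨⟨fun i => e i j • c • v, fun i => ?_⟩, rfl⟩
    simp only [smul_smul (e _ _) (e _ _), ← Finset.sum_smul, he]
  rw [χ.ker_range α, χ.sub_quot (LinearMap.range α), h3, h4, zero_add, add_zero]

theorem fg_of_tw [IsNoetherianRing R] (he : ∀ i l, ∑ j, e i j * e j l = e i l)
    (h2 : ∀ i j l, e j j * e i l = e i j * e j l) (h1 : ∑ j, e j j = 1)
    (h : ∀ (Γ : Type 1) [AddCommGroup Γ] (χ : AddF R Γ), (∀ M : FG R, χ.val (TW e M.M) = χ.val M.M) →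
      ∃ H : AddSubgroup Γ, H.FG ∧ ∀ I : Ideal R, χ.val (R ⧸ I) ∈ H) : Cell R := by
  obtain ⟨χ, hχ⟩ := exists_cls' R
  obtain ⟨τ, hτ⟩ := exists_lift (twF he χ)
  let ν : G0 R →+ G0 R := AddMonoidHom.id _ - τ
  have hν : ∀ M : FG R, ν (χ.val M.M) = χ.val M.M - χ.val (TW e M.M) := fun M => by
    show χ.val M.M - τ (χ.val M.M) = _
    rw [hχ, hτ]
    rfl
  have h3 : ∀ i t, t + i = m → ∀ M : FG R,
      (∀ x ∈ Ideal.span {x | ∃ j : Fin m, j.1 < t ∧ x = e j j}, ∀ y : M.M, x • y = 0) →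
      ν^[i] (χ.val M.M) = 0 := by
    intro i
    induction i with
    | zero =>
      intro t ht M hM
      refine van_top χ _ fun x _ y => ?_
      have h4 : (1 : R) ∈ Ideal.span {x | ∃ j : Fin m, j.1 < t ∧ x = e j j} := by
        rw [← h1]
        exact Ideal.sum_mem _ fun j _ => Ideal.subset_span ⟨j, by omega, rfl⟩
      rw [← one_smul R y, hM 1 h4, smul_zero]
    | succ i ih =>
      intro t ht M hM
      obtain ⟨νi, h5⟩ := iter_hom ν i
      obtain ⟨χ', hχ'⟩ := exists_comp χ νi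
      have h4 := tw_step he h2 χ' (Ideal.span {x | ∃ j : Fin m, j.1 < t ∧ x = e j j})
        ⟨t, by omega⟩ (fun N _ _ _ hN => by
          rw [hχ', h5]
          refine ih (t + 1) (by omega) ⟨N⟩ fun x hx => hN x (Ideal.span_le.2 ?_ hx)
          rintro _ ⟨j, hj, rfl⟩
          rcases Nat.lt_succ_iff_lt_or_eq.1 hj with h6 | h6
          · exact Ideal.mem_sup_left (Ideal.subset_span ⟨j, h6, rfl⟩)
          · have : j = ⟨t, by omega⟩ := Fin.ext h6
            rw [this]
            exact Ideal.mem_sup_right (Ideal.mem_span_singleton_self _)) hM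
      rw [iterate_succ_apply, hν, ← h5, map_sub, ← hχ', ← hχ', h4, sub_self]
  have h4 : ∀ z, ν^[m] z = 0 := fun z => by
    obtain ⟨νi, h5⟩ := iter_hom ν m
    rw [← h5]
    refine zero_of_FG _ (fun M => ?_) z
    rw [h5, ← hχ]
    refine h3 m 0 (zero_add m) M fun x hx y => ?_
    have : x = 0 := by simpa using hx
    rw [this, zero_smul]
  obtain ⟨χ', hχ'⟩ := exists_comp χ (QuotientAddGroup.mk' ν.range)
  obtain ⟨H, hH, h5⟩ := h _ χ' fun M => by
    rw [hχ', hχ', eq_comm, ← sub_eq_zero, ← map_sub, ← hν]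
    exact (QuotientAddGroup.eq_zero_iff _).2 ⟨_, rfl⟩
  obtain ⟨s, hs, hf⟩ := (AddSubgroup.fg_iff _).1 hH
  obtain ⟨σ, hσ⟩ := (QuotientAddGroup.mk'_surjective ν.range).hasRightInverse
  refine cell_of_fg (fg_of_nil ν m h4 (H := AddSubgroup.closure (σ '' s))
    ((AddSubgroup.fg_iff _).2 ⟨_, rfl, hf.image _⟩) fun z => ?_) fun I => AddSubgroup.mem_top _
  have h6 : QuotientAddGroup.mk' ν.range z ∈ H := by
    refine (QuotientAddGroup.eq_zero_iff _).1 (zero_of_cyc
      ((QuotientAddGroup.mk' H).comp (QuotientAddGroup.mk' ν.range)) (fun I => ?_) z)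
    refine (QuotientAddGroup.eq_zero_iff _).2 ?_
    have h7 := h5 I
    rw [hχ', hχ ⟨R ⧸ I⟩] at h7
    exact h7
  have h7 : H = (AddSubgroup.closure (σ '' s)).map (QuotientAddGroup.mk' ν.range) := by
    rw [AddMonoidHom.map_closure, Set.image_image, ← hs]
    simp only [hσ _, Set.image_id']
  rw [h7] at h6
  obtain ⟨a, ha, h8⟩ := h6
  obtain ⟨z', hz'⟩ := (QuotientAddGroup.eq (s := ν.range)).1 h8
  exact ⟨a, ha, z', by rw [hz']; abel⟩

end

end Pool.Agent.P.MP_1bf4cb_ag.RG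
end
end

-- part Pool.Agent.P.MP_1bf4cb_ag.NsD
section

/-! The special linear and special unitary groups, with every standard parabolic subgroup, are
instances of `Bru.Ok`. -/

namespace Pool.Agent.P.MP_1bf4cb_ag.RG.In

open Matrix Equiv MvPolynomial

variable {k : Type} [Field k] {n r : ℕ} {C : Type} [CommRing C]

/-- The Bruhat datum of `SL_(r+1)` with block structure `β`, map `F` and cells listed by `en`. -/
noncomputable def slD (β : Fin (r + 1) → ℕ) (F : Mx (r + 1) (Pn k (r + 1))) (M : ℕ)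
    (en : ℕ → Perm (Fin (r + 1))) : Bru k (r + 1) r where
  G := eqs k fun _ => 0
  B := eqs k Fin.val
  Pa := eqs k β
  F := F
  wt := wts r
  N := _
  u := gU k (· < ·)
  M := M + 1
  l := fun _ => _
  c := fun j => gU k (Iv (en j))
  w := fun j => Wm k (en j)
  Z := Zr en (gX k (r + 1))

lemma sol_G [Algebra k C] {g : Mx n C} : Sol (eqs k fun _ => 0) g ↔ g.det = 1 :=
  sol_eqs.trans ⟨fun h => h.1, fun h => ⟨h, fun _ _ h => absurd h (lt_irrefl 0)⟩⟩

lemma sol_B [Algebra k C] {g : Mx n C} :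
    Sol (eqs k Fin.val) g ↔ g.det = 1 ∧ g.IsUpperTriangular := sol_eqs

lemma bij_prod {α α' β γ : Type} {f : α → α'} {s : Set α'} (hf : Set.BijOn f Set.univ s)
    {t : Set β} {g : α' × β → γ} {u : Set γ} (hg : Set.BijOn g {x | x.1 ∈ s ∧ x.2 ∈ t} u) :
    Set.BijOn (fun x : α × β => g (f x.1, x.2)) {x | x.2 ∈ t} u := by
  refine hg.comp (f := fun x : α × β => (f x.1, x.2))
    ⟨fun x hx => ⟨hf.1 trivial, hx⟩, fun x _ y _ h => ?_, fun x hx => ?_⟩
  · exact Prod.ext (hf.2.1 trivial trivial (Prod.mk.inj h).1) (Prod.mk.inj h).2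
  · obtain ⟨a, -, ha⟩ := hf.2.2 hx.1
    exact ⟨(a, x.2), hx.2, Prod.ext ha rfl⟩

theorem slD_ok {β : Fin (r + 1) → ℕ} (hβ : Monotone β) {F : Mx (r + 1) (Pn k (r + 1))} {M : ℕ}
    {en : ℕ → Perm (Fin (r + 1))} (h1 : ∀ j < M + 1, ∀ τ, Lt τ (en j) ↔ ∃ i < j, τ = en i)
    (h2 : ∀ τ, ¬ Lt (en M) τ) (hH : (slD β F M en).Hom) (hP : (slD β F M en).Pow) :
    (slD β F M en).Ok where
  grp := ⟨grp_eqs _, grp_eqs _, grp_eqs _⟩
  sub := ⟨fun _ h => h.imp id fun ⟨_, _, h, _⟩ => absurd h (lt_irrefl 0),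
    fun _ h => h.imp id fun ⟨a, b, h, e⟩ => ⟨a, b, hβ.reflect_lt h, e⟩⟩
  smo := ⟨smooth_eqs _, smooth_eqs _⟩
  hom := hH
  pow := hP
  bor := fun C _ _ => by
    have := bij_prod (gU_bij (k := k) (C := C) (n := r + 1) (· < ·)) (t := Set.univ)
      (by simp only [Set.mem_univ, and_true]; exact bor_bij (r := r) (C := C))
    simp only [Set.mem_univ, Set.ofPred_true] at this
    simp only [slD, sol_B]
    exact this
  span := wts_span
  ends := ⟨rfl, by simp [slD, Zr, Mn_max h2]⟩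
  cel := fun j hj => ⟨sol_G.2 (det_Wm _), fun C _ _ => ⟨fun a => by
    have := Off.tri ((gU_bij (k := k) (C := C) (Iv (en j))).1 (Set.mem_univ a)) fun _ _ h => h.1
    exact sol_B.2 ⟨this.2.1, this.1⟩, by
    have h3 := bij_prod (gU_bij (k := k) (C := C) (Iv (en j)))
      (t := {b : Mx (r + 1) C | b.det = 1 ∧ b.IsUpperTriangular}) (cell_bij (C := C) (en j))
    have h4 : ∀ (g : Mx (r + 1) C) i, vl g '' Zr en (gX k (r + 1)) i = Zr en g i := fun g i => by
      rw [vl_eq, Zr_map, gX_map]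
    have h5 : {g : Mx (r + 1) C | Sol (eqs k fun _ => 0) g ∧ Sol (Zr en (gX k (r + 1)) (j + 1)) g ∧
        Ideal.span (vl g '' Zr en (gX k (r + 1)) j) = ⊤} = {g | g.det = 1 ∧
        (∀ x ∈ Mn (en j) g, x = 0) ∧ ∀ τ, Lt τ (en j) → Ideal.span (Mn τ g) = ⊤} := by
      ext g
      have h6 : Sol (Zr en (gX k (r + 1)) (j + 1)) g ↔ ∀ x ∈ Zr en g (j + 1), x = 0 := by
        rw [← h4, Set.forall_mem_image]; rfl
      have h7 : Ideal.span (Zr en g j) = ⊤ ↔ ∀ τ, Lt τ (en j) → Ideal.span (Mn τ g) = ⊤ := by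
        rw [Zr_top]
        refine ⟨fun h τ hτ => ?_, fun h i hi => h _ ((h1 j hj _).2 ⟨i, hi, rfl⟩)⟩
        obtain ⟨i, hi, rfl⟩ := (h1 j hj τ).1 hτ
        exact h i hi
      simp only [Set.mem_ofPred_eq, sol_G, h6, h4, ← h7]
      exact and_congr_right fun _ => and_congr_left fun h => Zr_zero h
    simp only [slD, sol_B, Wm_map]
    rw [h5]
    exact h3⟩⟩
  dbl := fun x y hx hy C _ _ _ p q hp hq h => by
    obtain ⟨p, q, e1, e2, e3⟩ := dbl_eqs hβ (sol_G.1 hx) (sol_G.1 hy) (algebraMap k C)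
      (sol_eqs.1 hp).2 (sol_eqs.1 hq).2 (sol_eqs.1 hq).1 h
    exact ⟨p, q, sol_eqs.2 e1, sol_eqs.2 e2, e3⟩

lemma exists_frob (k : Type) [Field k] (p : ℕ) [Fact p.Prime] [CharP k p] (e : ℕ) (C : Type)
    [CommRing C] [Algebra k C] : ∃ φ : C →+* C, ⇑φ = (· ^ p ^ e) := by
  rcases subsingleton_or_nontrivial C with _ | _
  · exact ⟨RingHom.id C, Subsingleton.elim _ _⟩
  · have := charP_of_injective_algebraMap (algebraMap k C).injective p
    exact ⟨iterateFrobenius C p e, rfl⟩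

lemma pow_of {D : Bru k n r} [Finite k] (p : ℕ) [Fact p.Prime] [CharP k p] (hH : D.Hom)
    {s e : ℕ} (he : 0 < e) (h : ∀ (C : Type) [CommRing C] [Algebra k C] (g : Mx n C),
      Sol D.G g → D.fr^[s] g = g.map (· ^ p ^ e)) : D.Pow := by
  let _ := Fintype.ofFinite k
  obtain ⟨f, -, hf⟩ := FiniteField.card k p
  refine ⟨s * f, e, he, fun C _ _ g hg => ?_⟩
  have h1 : ∀ t, Sol D.G (D.fr^[t] g) := fun t => by
    induction t with
    | zero => exact hg
    | succ t ih => rw [Function.iterate_succ_apply']; exact (hH C _ _ ih ih).1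
  have h2 : ∀ t, D.fr^[s * t] g = g.map (· ^ (p ^ e) ^ t) := fun t => by
    induction t with
    | zero => ext a b; simp
    | succ t ih =>
      rw [mul_add, mul_one, add_comm, Function.iterate_add_apply, h C _ (h1 _), ih]
      ext a b
      simp [pow_succ, pow_mul]
  rw [h2, Nat.card_eq_fintype_card, hf, ← pow_mul, ← pow_mul, mul_comm]

/-- The twisted inverse transpose. -/
def tw (g : Mx n C) : Mx n C := g.adjugateᵀ.submatrix Fin.revPerm Fin.revPerm

lemma tw_map {C' : Type} [CommRing C'] (φ : C →+* C') (g : Mx n C) :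
    (tw g).map φ = tw (g.map φ) := by
  rw [tw, tw, ← RingHom.mapMatrix_apply φ g, ← RingHom.map_adjugate]
  rfl

lemma tw_mul (g h : Mx n C) : tw (g * h) = tw g * tw h := by
  rw [tw, tw, tw, adjugate_mul_distrib, transpose_mul, submatrix_mul_equiv]

lemma det_tw {g : Mx n C} (h : g.det = 1) : (tw g).det = 1 := by
  rw [tw, det_submatrix_equiv_self, det_transpose, det_adj h]

lemma tw_tri {g : Mx n C} (h : g.det = 1) (h' : g.IsUpperTriangular) :
    (tw g).IsUpperTriangular := fun _ _ hab => adj_tri h' h (Fin.rev_lt_rev.2 hab)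

lemma tw_tw {g : Mx n C} (h : g.det = 1) : tw (tw g) = g := by
  have h1 : g.adjugate.adjugate = g := by
    rw [adj_eq (det_adj h), adj_eq h, nonsing_inv_nonsing_inv _ (by simp [h])]
  rw [tw, tw, adjugate_submatrix_equiv_self, ← adjugate_transpose, h1]
  ext a b
  simp

/-- `SL_(r+1)` with the Frobenius map `g ↦ g^(q)` and `SU_(r+1)` with the twisted Frobenius map,
`q = p^e`, with the parabolic subgroup of any block structure `β`, satisfy `Bru.Ok`. -/
theorem exists_ok [Finite k] (p : ℕ) [Fact p.Prime] [CharP k p] {e : ℕ} (he : 0 < e)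
    {β : Fin (r + 1) → ℕ} (hβ : Monotone β) (u : Bool) : ∃ D : Bru k (r + 1) r, D.Ok ∧
      ∀ (C : Type) [CommRing C] [Algebra k C] (g : Mx (r + 1) C), (Sol D.G g ↔ g.det = 1) ∧
        (Sol D.B g ↔ g.det = 1 ∧ g.IsUpperTriangular) ∧
        (Sol D.Pa g ↔ g.det = 1 ∧ g.BlockTriangular β) ∧
        D.fr g = if u then tw (g.map (· ^ p ^ e)) else g.map (· ^ p ^ e) := by
  obtain ⟨M, en, h1, h2⟩ := exists_en (r + 1)
  let D := slD β (if u then tw ((gX k (r + 1)).map (· ^ p ^ e)) else (gX k (r + 1)).map (· ^ p ^ e))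
    M en
  have h3 : ∀ (C : Type) [CommRing C] [Algebra k C] (g : Mx (r + 1) C),
      D.fr g = if u then tw (g.map (· ^ p ^ e)) else g.map (· ^ p ^ e) := fun C _ _ g => by
    have h4 : ((gX k (r + 1)).map (· ^ p ^ e)).map (vlR k g) = g.map (· ^ p ^ e) := by
      ext a b; simp [gX, vlR]
    cases u
    · exact h4
    · exact (tw_map (vlR k g) _).trans (congrArg tw h4)
  have h4 : ∀ (C : Type) [CommRing C] (φ : C →+* C) (g : Mx (r + 1) C), g.det = 1 →
      (g.map φ).det = 1 := fun C _ φ g hg => by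
    rw [← RingHom.mapMatrix_apply, ← RingHom.map_det, hg, map_one]
  have hH : D.Hom := fun C _ _ g h hg hh => by
    obtain ⟨φ, hφ⟩ := exists_frob k p e C
    have h5 := h4 C φ g (sol_G.1 hg)
    simp only [h3, ← hφ]
    cases u
    · exact ⟨sol_G.2 h5, Matrix.map_mul, fun hb => sol_B.2 ⟨h5, (sol_B.1 hb).2.map φ⟩⟩
    · exact ⟨sol_G.2 (det_tw h5), (congrArg tw Matrix.map_mul).trans (tw_mul _ _),
        fun hb => sol_B.2 ⟨det_tw h5, tw_tri h5 ((sol_B.1 hb).2.map φ)⟩⟩
  refine ⟨D, slD_ok hβ h1 h2 hH (pow_of p hH (s := 2) (e := e * 2) (by omega) fun C _ _ g hg => ?_),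
    fun C _ _ g => ⟨sol_G, sol_B, sol_eqs, h3 C g⟩⟩
  obtain ⟨φ, hφ⟩ := exists_frob k p e C
  have h5 : (g.map φ).map φ = g.map (· ^ p ^ (e * 2)) := by
    ext a b; simp [hφ, ← pow_mul, ← pow_add, mul_two]
  change D.fr (D.fr g) = _
  simp only [h3, ← hφ]
  cases u
  · exact h5
  · exact ((congrArg tw (tw_map φ _)).trans
      (tw_tw (h4 C φ _ (h4 C φ g (sol_G.1 hg))))).trans h5

end Pool.Agent.P.MP_1bf4cb_ag.RG.In
end

-- part Pool.Agent.P.MP_1bf4cb_ag.RD
section

set_option autoImplicit false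
set_option maxHeartbeats 400000
set_option linter.unusedSectionVars false
set_option linter.unusedVariables false

open Function Matrix
open scoped TensorProduct

noncomputable section

namespace Pool.Agent.P.MP_1bf4cb_ag.RG

variable {k : Type} [Field k] {n r : ℕ} {C C' : Type} [CommRing C] [Algebra k C] [CommRing C']
  [Algebra k C']

theorem vl_map (φ : C →ₐ[k] C') (g : Mx n C) (f : Pn k n) : vl (g.map φ) f = φ (vl g f) := by
  unfold vl
  rw [MvPolynomial.comp_aeval_apply]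
  rfl

theorem Sol.map {S : Set (Pn k n)} {g : Mx n C} (h : Sol S g) (φ : C →ₐ[k] C') :
    Sol S (g.map φ) := fun f hf => by rw [vl_map, h f hf, map_zero]

theorem Sol.mono {S T : Set (Pn k n)} {g : Mx n C} (h : Sol S g) (hT : T ⊆ S) : Sol T g :=
  fun f hf => h f (hT hf)

theorem sol_map_iff (S : Set (Pn k n)) (g : Mx n C) (φ : C →ₐ[k] C') :
    Sol S (g.map φ) ↔ ∀ i ∈ Ideal.span (vl g '' S), φ i = 0 := by
  constructor
  · intro h i hi
    have : Ideal.span (vl g '' S) ≤ RingHom.ker φ := Ideal.span_le.2 (by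
      rintro _ ⟨f, hf, rfl⟩
      exact (vl_map φ g f).symm.trans (h f hf))
    exact this hi
  · intro h f hf
    rw [vl_map]
    exact h _ (Ideal.subset_span ⟨f, hf, rfl⟩)

theorem span_map_vl (S : Set (Pn k n)) (g : Mx n C) (φ : C →ₐ[k] C') :
    (Ideal.span (vl g '' S)).map φ = Ideal.span (vl (g.map φ) '' S) := by
  rw [Ideal.map_span, Set.image_image]
  simp only [vl_map]

/-- the group of points -/
def sg {S : Set (Pn k n)} (hS : Grp S) (C : Type) [CommRing C] [Algebra k C] :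
    Subgroup (SpecialLinearGroup (Fin n) C) where
  carrier := {g | Sol S g.1}
  one_mem' := (hS C).1
  inv_mem' {g} hg := by
    have := ((hS C).2 1 g.1 (hS C).1 hg).2
    rw [Matrix.one_mul] at this
    exact this
  mul_mem' {g h} hg hh := by
    have h1 := ((hS C).2 1 h.1 (hS C).1 hh).2
    rw [Matrix.one_mul] at h1
    have h2 := ((hS C).2 g.1 _ hg h1).2
    have h3 : (adjugate h.1).adjugate = h.1 := congrArg Subtype.val (inv_inv h)
    rw [h3] at h2
    exact h2

/-- a datum with its axioms -/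
structure OB (k : Type) [Field k] (n r : ℕ) extends Bru k n r where
  ok : toBru.Ok

variable (E : OB k n r)

/-- the group `G(C)` -/
abbrev OB.Γ (C : Type) [CommRing C] [Algebra k C] : Type := sg E.ok.grp.1 C

variable {E}

/-- the matrix of a point -/
def mx (g : E.Γ C) : Mx n C := g.1.1

theorem mx_sol (g : E.Γ C) : Sol E.G (mx g) := g.2

theorem mx_inj {g h : E.Γ C} (e : mx g = mx h) : g = h := Subtype.ext (Subtype.ext e)

theorem mx_mul (g h : E.Γ C) : mx (g * h) = mx g * mx h := rfl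

theorem mx_inv (g : E.Γ C) : mx g⁻¹ = (mx g).adjugate := rfl

theorem mx_one : mx (1 : E.Γ C) = 1 := rfl

/-- the point of a matrix -/
def mkG (g : Mx n C) (hg : Sol E.G g) : E.Γ C := ⟨⟨g, ((E.ok.grp.1 C).2 g g hg hg).1⟩, hg⟩

theorem mx_mkG (g : Mx n C) (hg : Sol E.G g) : mx (mkG g hg) = g := rfl

/-- functoriality -/
def mp (φ : C →ₐ[k] C') : E.Γ C →* E.Γ C' :=
  MonoidHom.mk' (fun g => mkG ((mx g).map φ) ((mx_sol g).map φ)) fun g h =>
    mx_inj (Matrix.map_mul (f := (φ : C →+* C')))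

theorem mx_mp (φ : C →ₐ[k] C') (g : E.Γ C) : mx (mp φ g) = (mx g).map φ := rfl

theorem mp_mp {C'' : Type} [CommRing C''] [Algebra k C''] (φ : C →ₐ[k] C') (ψ : C' →ₐ[k] C'')
    (g : E.Γ C) : mp ψ (mp φ g) = mp (ψ.comp φ) g := rfl

/-- rational points -/
abbrev rt (C : Type) [CommRing C] [Algebra k C] : E.Γ k →* E.Γ C := mp (Algebra.ofId k C)

theorem mp_rt (φ : C →ₐ[k] C') (g : E.Γ k) : mp φ (rt C g) = rt C' g := by
  rw [mp_mp]
  congr 2
  exact Subsingleton.elim _ _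

theorem rt_self (g : E.Γ k) : rt k g = g := rfl

variable (E)

/-- the subgroup `B(C)` -/
def OB.BB (C : Type) [CommRing C] [Algebra k C] : Subgroup (E.Γ C) :=
  (sg E.ok.grp.2.1 C).subgroupOf _

/-- the subgroup `P(C)` -/
def OB.PP (C : Type) [CommRing C] [Algebra k C] : Subgroup (E.Γ C) :=
  (sg E.ok.grp.2.2 C).subgroupOf _

/-- the endomorphism `F` -/
def OB.FF (C : Type) [CommRing C] [Algebra k C] : E.Γ C →* E.Γ C :=
  MonoidHom.mk' (fun g => mkG (E.fr (mx g)) (E.ok.hom C _ _ (mx_sol g) (mx_sol g)).1) fun g h =>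
    mx_inj (E.ok.hom C _ _ (mx_sol g) (mx_sol h)).2.1

/-- the functor of `G` -/
def OB.fG : Fn k where
  obj C _ _ := E.Γ C
  map φ g := mp φ g
  map_id g := rfl
  map_comp φ ψ g := rfl

variable {E}

theorem mem_BB {g : E.Γ C} : g ∈ E.BB C ↔ Sol E.B (mx g) := Iff.rfl

theorem mem_PP {g : E.Γ C} : g ∈ E.PP C ↔ Sol E.Pa (mx g) := Iff.rfl

theorem BB_le {g : E.Γ C} (h : g ∈ E.BB C) : g ∈ E.PP C := Sol.mono h E.ok.sub.2

theorem mp_BB (φ : C →ₐ[k] C') {g : E.Γ C} (h : g ∈ E.BB C) : mp φ g ∈ E.BB C' := Sol.map h φ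

theorem mp_PP (φ : C →ₐ[k] C') {g : E.Γ C} (h : g ∈ E.PP C) : mp φ g ∈ E.PP C' := Sol.map h φ

theorem mx_FF (g : E.Γ C) : mx (E.FF C g) = E.fr (mx g) := rfl

theorem fr_map (D : Bru k n r) (φ : C →ₐ[k] C') (g : Mx n C) :
    D.fr (g.map φ) = (D.fr g).map φ := by
  ext a b
  exact vl_map φ g _

theorem mp_FF (φ : C →ₐ[k] C') (g : E.Γ C) : mp φ (E.FF C g) = E.FF C' (mp φ g) :=
  mx_inj (fr_map _ φ _).symm

theorem FF_BB {g : E.Γ C} (h : g ∈ E.BB C) : E.FF C g ∈ E.BB C :=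
  (E.ok.hom C _ _ (mx_sol g) (mx_sol g)).2.2 h

theorem sol_B_G {g : Mx n C} (h : Sol E.B g) : Sol E.G g := (h.mono E.ok.sub.2).mono E.ok.sub.1

theorem sol_P_G {g : Mx n C} (h : Sol E.Pa g) : Sol E.G g := h.mono E.ok.sub.1

variable {j : ℕ}

/-- the unipotent part of a cell -/
def cc (hj : j < E.M) (a : Fin (E.l j) → C) : E.Γ C :=
  mkG ((E.c j).map (MvPolynomial.aeval a)) (sol_B_G (((E.ok.cel j hj).2 C).1 a))

/-- the rational point of a cell -/
def ww (hj : j < E.M) : E.Γ k := mkG (E.w j) (E.ok.cel j hj).1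

theorem cc_BB (hj : j < E.M) (a : Fin (E.l j) → C) : cc hj a ∈ E.BB C := ((E.ok.cel j hj).2 C).1 a

theorem mp_cc (hj : j < E.M) (φ : C →ₐ[k] C') (a : Fin (E.l j) → C) :
    mp φ (cc hj a) = cc hj fun i => φ (a i) := by
  refine mx_inj ?_
  ext s t
  exact MvPolynomial.comp_aeval_apply a φ _

theorem mx_cel (hj : j < E.M) (a : Fin (E.l j) → C) (b : E.Γ C) :
    mx (cc hj a * rt C (ww hj) * b) =
      (E.c j).map (MvPolynomial.aeval a) * (E.w j).map (algebraMap k C) * mx b := rfl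

theorem cel_ex (hj : j < E.M) {g : E.Γ C} (h1 : Sol (E.Z (j + 1)) (mx g))
    (h2 : Ideal.span (vl (mx g) '' E.Z j) = ⊤) :
    ∃ (a : Fin (E.l j) → C) (b : E.Γ C), b ∈ E.BB C ∧ g = cc hj a * rt C (ww hj) * b := by
  obtain ⟨⟨a, b⟩, hb, e⟩ := ((E.ok.cel j hj).2 C).2.surjOn ⟨mx_sol g, h1, h2⟩
  exact ⟨a, mkG b (sol_B_G hb), hb, mx_inj e.symm⟩

theorem cel_uniq (hj : j < E.M) {a a' : Fin (E.l j) → C} {b b' : E.Γ C} (hb : b ∈ E.BB C)
    (hb' : b' ∈ E.BB C) (e : cc hj a * rt C (ww hj) * b = cc hj a' * rt C (ww hj) * b') :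
    a = a' ∧ b = b' := by
  have e0 := congrArg mx e
  rw [mx_cel, mx_cel] at e0
  have hb1 : (a, mx b) ∈ {x : (Fin (E.l j) → C) × Mx n C | Sol E.B x.2} := mem_BB.1 hb
  have hb2 : (a', mx b') ∈ {x : (Fin (E.l j) → C) × Mx n C | Sol E.B x.2} := mem_BB.1 hb'
  have h0 := ((E.ok.cel j hj).2 C).2.injOn hb1 hb2
  dsimp only at h0
  have h := h0 e0
  exact ⟨congrArg Prod.fst h, mx_inj (congrArg Prod.snd h)⟩

theorem cel_mem (hj : j < E.M) (a : Fin (E.l j) → C) {b : E.Γ C} (hb : b ∈ E.BB C) :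
    Sol (E.Z (j + 1)) (mx (cc hj a * rt C (ww hj) * b)) ∧
      Ideal.span (vl (mx (cc hj a * rt C (ww hj) * b)) '' E.Z j) = ⊤ :=
  (((E.ok.cel j hj).2 C).2.mapsTo (x := (a, mx b)) hb).2

theorem dbl_pt (x y : E.Γ k) [Nontrivial C] {p q : E.Γ C} (hp : p ∈ E.PP C) (hq : q ∈ E.PP C)
    (e : rt C x * q = p * rt C y) : ∃ p q : E.Γ k, p ∈ E.PP k ∧ q ∈ E.PP k ∧ x * q = p * y := by
  obtain ⟨p', q', h1, h2, h3⟩ := E.ok.dbl _ _ (mx_sol x) (mx_sol y) C _ _ hp hq (congrArg mx e)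
  exact ⟨mkG p' (sol_P_G h1), mkG q' (sol_P_G h2), h1, h2, mx_inj h3⟩

/-- natural maps to the group -/
structure NG (X : Fn k) (E : OB k n r) where
  g : (C : Type) → [CommRing C] → [Algebra k C] → X.obj C → E.Γ C
  nat : ∀ {C C' : Type} [CommRing C] [Algebra k C] [CommRing C'] [Algebra k C'] (φ : C →ₐ[k] C')
    (x : X.obj C), g C' (X.map φ x) = mp φ (g C x)

variable {X : Fn k}

/-- the condition of solving equations -/
def cS (S : Set (Pn k n)) (h : NG X E) : Cnd X :=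
  ⟨fun C _ _ x => Sol S (mx (h.g C x)), fun φ x hx => by rw [h.nat]; exact hx.map φ⟩

/-- the condition of equality -/
def cE (h h' : NG X E) : Cnd X :=
  ⟨fun C _ _ x => h.g C x = h'.g C x, fun φ x hx => by rw [h.nat, h'.nat, hx]⟩

/-- conjunction -/
def Cnd.and (q q' : Cnd X) : Cnd X :=
  ⟨fun C _ _ x => q.p C x ∧ q'.p C x, fun φ x hx => ⟨q.st φ x hx.1, q'.st φ x hx.2⟩⟩

theorem cl_cS (S : Set (Pn k n)) (h : NG X E) : (cS S h).Cl := fun R _ _ x =>
  ⟨Ideal.span (vl (mx (h.g R x)) '' S), fun C _ _ φ => by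
    show Sol S (mx (h.g C _)) ↔ _
    rw [h.nat]
    exact sol_map_iff S _ φ⟩

theorem cl_cE (h h' : NG X E) : (cE h h').Cl := fun R _ _ x =>
  ⟨Ideal.span (Set.range fun ab : Fin n × Fin n =>
    mx (h.g R x) ab.1 ab.2 - mx (h'.g R x) ab.1 ab.2), fun C _ _ φ => by
    show h.g C _ = h'.g C _ ↔ _
    rw [h.nat, h'.nat]
    constructor
    · intro e i hi
      refine (Ideal.span_le (I := RingHom.ker φ)).2 ?_ hi
      rintro _ ⟨ab, rfl⟩
      exact (map_sub φ _ _).trans (sub_eq_zero.2 (congrFun (congrFun (congrArg mx e) ab.1) ab.2))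
    · intro e
      refine mx_inj ?_
      ext a b
      exact sub_eq_zero.1 ((map_sub φ _ _).symm.trans (e _ (Ideal.subset_span ⟨(a, b), rfl⟩)))⟩

theorem Cnd.Cl.and {q q' : Cnd X} (h : q.Cl) (h' : q'.Cl) : (q.and q').Cl := fun R _ _ x => by
  obtain ⟨I, hI⟩ := h R x
  obtain ⟨J, hJ⟩ := h' R x
  refine ⟨I ⊔ J, fun C _ _ φ => (and_congr (hI C φ) (hJ C φ)).trans ⟨fun e i hi => ?_,
    fun e => ⟨fun i hi => e i (Ideal.mem_sup_left hi), fun i hi => e i (Ideal.mem_sup_right hi)⟩⟩⟩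
  exact (sup_le (c := RingHom.ker φ) e.1 e.2) hi

/-- the value of a polynomial on a natural point -/
def nv (h : NG X E) (f : Pn k n) : NF X :=
  ⟨fun C _ _ x => vl (mx (h.g C x)) f, fun φ x => by rw [h.nat]; exact vl_map φ _ f⟩

end Pool.Agent.P.MP_1bf4cb_ag.RG
end
end

-- part Pool.Agent.P.MP_1bf4cb_ag.RL
section

set_option autoImplicit false
set_option maxHeartbeats 400000
set_option linter.unusedSectionVars false
set_option linter.unusedVariables false

open Function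
open scoped TensorProduct

noncomputable section

namespace Pool.Agent.P.MP_1bf4cb_ag.RG

/-- a strongly graded ring over its part of degree zero -/
structure SG (R A : Type) [CommRing R] [CommRing A] [Algebra R A] where
  H : ℤ → Submodule R A
  mul : ∀ {a b : ℤ} {x y : A}, x ∈ H a → y ∈ H b → x * y ∈ H (a + b)
  one : 1 ∈ H 0
  pr : A →ₗ[R] R
  pr_zero : ∀ {x}, x ∈ H 0 → algebraMap R A (pr x) = x
  pr_alg : ∀ a, pr (algebraMap R A a) = a
  pr_ne : ∀ {a x}, x ∈ H a → a ≠ 0 → pr x = 0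
  span : ∀ x, x ∈ ⨆ a, H a
  m : ℕ
  x : Fin m → A
  y : Fin m → A
  hx : ∀ i, x i ∈ H 1
  hy : ∀ i, y i ∈ H (-1)
  sum : ∑ i, x i * y i = 1

variable {R A : Type} [CommRing R] [CommRing A] [Algebra R A] (S : SG R A)

/-- the idempotent matrix -/
def SG.e (i j : Fin S.m) : R := S.pr (S.y i * S.x j)

include S in
theorem SG.inj : Injective (algebraMap R A) := LeftInverse.injective S.pr_alg

theorem SG.alg_e (i j : Fin S.m) : algebraMap R A (S.e i j) = S.y i * S.x j :=
  S.pr_zero (by simpa using S.mul (S.hy i) (S.hx j))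

theorem SG.he (i l : Fin S.m) : ∑ j, S.e i j * S.e j l = S.e i l := by
  apply S.inj
  simp only [map_sum, map_mul, S.alg_e]
  calc ∑ j, S.y i * S.x j * (S.y j * S.x l) = S.y i * (∑ j, S.x j * S.y j) * S.x l := by
        rw [Finset.mul_sum, Finset.sum_mul]
        exact Finset.sum_congr rfl fun j _ => by ring
    _ = _ := by rw [S.sum, mul_one]

theorem SG.he2 (i j l : Fin S.m) : S.e j j * S.e i l = S.e i j * S.e j l := by
  apply S.inj
  simp only [map_mul, S.alg_e]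
  ring

theorem SG.he1 : ∑ j, S.e j j = 1 := by
  apply S.inj
  simp only [map_sum, S.alg_e, map_one, mul_comm (S.y _), S.sum]

/-- the part of nonnegative degree -/
abbrev SG.Pos : Subalgebra R A := Algebra.adjoin R (Set.range S.x)

/-- the generators -/
def SG.xp (i : Fin S.m) : S.Pos := ⟨S.x i, Algebra.subset_adjoin ⟨i, rfl⟩⟩

theorem SG.mem_pos (c : ℕ) {z : A} (hz : z ∈ S.H c) : z ∈ S.Pos := by
  induction c generalizing z with
  | zero =>
    rw [← S.pr_zero hz]
    exact S.Pos.algebraMap_mem _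
  | succ c ih =>
    rw [← one_mul z, ← S.sum, Finset.sum_mul]
    refine sum_mem fun i _ => ?_
    rw [mul_assoc]
    refine mul_mem (S.xp i).2 (ih ?_)
    have := S.mul (S.hy i) hz
    rwa [show (-1 : ℤ) + ((c + 1 : ℕ) : ℤ) = c by push_cast; ring] at this

theorem SG.den (i : Fin S.m) (z : A) : z ∈ den (S.Pos.val : S.Pos →+* A) (S.xp i) := by
  refine Submodule.iSup_induction S.H
    (motive := fun z => z ∈ Pool.Agent.P.MP_1bf4cb_ag.den (S.Pos.val : S.Pos →+* A) (S.xp i))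
    (S.span z) (fun a z hz => ?_) (zero_mem _) fun _ _ => add_mem
  have h1 : ∀ N : ℕ, S.x i ^ N * z ∈ S.H (N + a) := fun N => by
    induction N with
    | zero => simpa using hz
    | succ N ih =>
      have := S.mul (S.hx i) ih
      rwa [← mul_assoc, ← pow_succ', show (1 : ℤ) + (N + a) = ((N + 1 : ℕ) : ℤ) + a by
        push_cast; ring] at this
  have h2 := h1 (-a).toNat
  rw [show (((-a).toNat : ℕ) : ℤ) + a = (((-a).toNat + a).toNat : ℕ) by omega] at h2
  exact ⟨(-a).toNat, ⟨_, S.mem_pos _ h2⟩, rfl⟩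

theorem SG.dec (p : S.Pos) : ∃ (r : R) (q : Fin S.m → S.Pos),
    p = algebraMap R S.Pos r + ∑ j, S.xp j * q j := by
  obtain ⟨p, hp⟩ := p
  induction hp using Algebra.adjoin_induction with
  | mem _ h =>
    obtain ⟨i, rfl⟩ := h
    refine ⟨0, Pi.single i 1, ?_⟩
    rw [map_zero, zero_add, Finset.sum_eq_single i (fun j _ hj => by
      rw [Pi.single_eq_of_ne hj, mul_zero]) (fun h => absurd (Finset.mem_univ _) h),
      Pi.single_eq_same, mul_one]
    rfl
  | algebraMap r => exact ⟨r, 0, by simp⟩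
  | add a b ha hb iha ihb =>
    obtain ⟨r, q, e⟩ := iha
    obtain ⟨r', q', e'⟩ := ihb
    refine ⟨r + r', q + q', ?_⟩
    show (⟨a, ha⟩ : S.Pos) + ⟨b, hb⟩ = _
    rw [e, e', map_add]
    simp only [Pi.add_apply, mul_add, Finset.sum_add_distrib]
    ring
  | mul a b ha hb iha ihb =>
    obtain ⟨r, q, e⟩ := iha
    obtain ⟨r', q', e'⟩ := ihb
    refine ⟨r * r', fun j => q j * ⟨b, hb⟩ + algebraMap R S.Pos r * q' j, ?_⟩
    show (⟨a, ha⟩ : S.Pos) * ⟨b, hb⟩ = _
    rw [e, add_mul, Finset.sum_mul]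
    nth_rewrite 1 [e']
    rw [mul_add, Finset.mul_sum, map_mul]
    simp only [mul_add, Finset.sum_add_distrib]
    rw [add_assoc, add_comm (∑ _, _)]
    congr 2 <;> exact Finset.sum_congr rfl fun j _ => by ring

theorem SG.pr_pos (p : S.Pos) (j : Fin S.m) : S.pr (S.x j * p) = 0 := by
  have h1 : ∀ z ∈ S.Pos, z ∈ ⨆ c : ℕ, S.H c := by
    intro z hz
    induction hz using Algebra.adjoin_induction with
    | mem _ h =>
      obtain ⟨i, rfl⟩ := h
      exact Submodule.mem_iSup_of_mem 1 (S.hx i)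
    | algebraMap r =>
      rw [Algebra.algebraMap_eq_smul_one]
      exact Submodule.mem_iSup_of_mem 0 (Submodule.smul_mem _ _ S.one)
    | add a b _ _ iha ihb => exact add_mem iha ihb
    | mul a b _ _ iha ihb =>
      refine Submodule.iSup_induction _ (motive := fun a => a * b ∈ ⨆ c : ℕ, S.H c) iha
        (fun c a ha => ?_) (by simp) fun _ _ h h' => by rw [add_mul]; exact add_mem h h'
      refine Submodule.iSup_induction _ (motive := fun b => a * b ∈ ⨆ c : ℕ, S.H c) ihb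
        (fun c' b hb => ?_) (by simp) fun _ _ h h' => by rw [mul_add]; exact add_mem h h'
      exact Submodule.mem_iSup_of_mem (c + c') (by push_cast; exact S.mul ha hb)
  refine Submodule.iSup_induction _ (motive := fun z => S.pr (S.x j * z) = 0) (h1 p.1 p.2)
    (fun c a ha => S.pr_ne (S.mul (S.hx j) ha) (by omega)) (by simp)
    fun _ _ h h' => by rw [mul_add, map_add, h, h', add_zero]

theorem SG.xe (j : Fin S.m) : ∑ i, S.xp i * algebraMap R S.Pos (S.e i j) = S.xp j := by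
  refine Subtype.ext ?_
  show S.Pos.val _ = S.x j
  simp only [map_sum, map_mul, AlgHom.commutes, S.alg_e]
  show ∑ i, S.x i * (S.y i * S.x j) = S.x j
  simp only [← mul_assoc, ← Finset.sum_mul, S.sum, one_mul]

section
variable (M : Type) [AddCommGroup M] [Module R M] [Module S.Pos M] [IsScalarTower R S.Pos M]

theorem SG.fin_quot [Module.Finite S.Pos M] (T : Submodule R M) (hT : ∀ j z, S.xp j • z ∈ T) :
    Module.Finite R (M ⧸ T) := by
  obtain ⟨s, hs⟩ := Module.Finite.fg_top (R := S.Pos) (M := M)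
  have h1 : ∀ z : M, z ∈ Submodule.span R (s : Set M) ⊔ T := fun z => by
    have hz : z ∈ Submodule.span S.Pos (s : Set M) := hs ▸ Submodule.mem_top
    have h2 : ∀ (p : S.Pos) (z : M), z ∈ Submodule.span R (s : Set M) ⊔ T →
        p • z ∈ Submodule.span R (s : Set M) ⊔ T := fun p z hz => by
      obtain ⟨r, q, rfl⟩ := S.dec p
      rw [add_smul, algebraMap_smul, Finset.sum_smul]
      refine add_mem (Submodule.smul_mem _ _ hz) (sum_mem fun j _ => ?_)
      rw [mul_smul]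
      exact Submodule.mem_sup_right (hT _ _)
    induction hz using Submodule.span_induction with
    | mem z hz => exact Submodule.mem_sup_left (Submodule.subset_span hz)
    | zero => exact zero_mem _
    | add a b _ _ ha hb => exact add_mem ha hb
    | smul p a _ ha => exact h2 p a ha
  have : Module.Finite R (Submodule.span R (s : Set M)) :=
    Module.Finite.span_of_finite R s.finite_toSet
  refine Module.Finite.of_surjective (T.mkQ.comp (Submodule.span R (s : Set M)).subtype) fun z => ?_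
  obtain ⟨z, rfl⟩ := T.mkQ_surjective z
  obtain ⟨a, ha, b, hb, rfl⟩ := Submodule.mem_sup.1 (h1 z)
  refine ⟨⟨a, ha⟩, ?_⟩
  rw [map_add, show T.mkQ b = 0 from (Submodule.Quotient.mk_eq_zero _).2 hb, add_zero]
  rfl

/-- the multiplication map -/
def SG.mu : TW S.e M →ₗ[R] M where
  toFun v := ∑ j, S.xp j • v.1 j
  map_add' v w := by simp [Finset.sum_add_distrib]
  map_smul' c v := by
    simp only [SetLike.val_smul, Pi.smul_apply, RingHom.id_apply, Finset.smul_sum,
      smul_comm c (S.xp _)]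

theorem SG.mu_apply (v : TW S.e M) : S.mu M v = ∑ j, S.xp j • v.1 j := rfl

theorem SG.mem_range (j : Fin S.m) (z : M) : S.xp j • z ∈ LinearMap.range (S.mu M) := by
  refine ⟨⟨fun i => S.e i j • z, fun i => ?_⟩, ?_⟩
  · simp only [smul_smul, ← Finset.sum_smul, S.he]
  · rw [S.mu_apply, ← S.xe j, Finset.sum_smul]
    simp only [mul_smul, algebraMap_smul]

theorem SG.fin_ker [IsNoetherianRing S.Pos] [Module.Finite S.Pos M] :
    Module.Finite R (LinearMap.ker (S.mu M)) := by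
  let K : Submodule S.Pos (Fin S.m → M) :=
    { carrier := {v | v ∈ TW S.e M ∧ ∑ j, S.xp j • v j = 0}
      zero_mem' := ⟨zero_mem _, by simp⟩
      add_mem' := fun {v w} hv hw => ⟨add_mem hv.1 hw.1, by
        simp only [Pi.add_apply, smul_add, Finset.sum_add_distrib, hv.2, hw.2, add_zero]⟩
      smul_mem' := fun c v hv => ⟨fun i => by
        simp only [Pi.smul_apply, smul_comm (S.e i _) c, ← Finset.smul_sum, hv.1 i], by
        simp only [Pi.smul_apply, smul_comm (S.xp _) c, ← Finset.smul_sum, hv.2, smul_zero]⟩ }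
  have h1 := S.fin_quot K ⊥ fun j v => by
    refine (Submodule.mem_bot R).2 (Subtype.ext (funext fun i => ?_))
    show S.xp j • v.1 i = 0
    have h2 : ∀ l, S.xp j • S.e i l • v.1 l = S.e i j • S.xp l • v.1 l := fun l => by
      rw [← algebraMap_smul S.Pos (S.e i l), ← algebraMap_smul S.Pos (S.e i j), smul_smul,
        smul_smul]
      congr 1
      refine Subtype.ext ?_
      show S.x j * algebraMap R A _ = algebraMap R A _ * S.x l
      rw [S.alg_e, S.alg_e]
      ring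
    rw [← v.2.1 i, Finset.smul_sum, Finset.sum_congr rfl fun l _ => h2 l, ← Finset.smul_sum,
      v.2.2, smul_zero]
  have h2 : Module.Finite R K := Module.Finite.equiv (Submodule.quotEquivOfEqBot _ rfl)
  let f : K →ₗ[R] LinearMap.ker (S.mu M) :=
    { toFun := fun v => ⟨⟨v.1, v.2.1⟩, v.2.2⟩
      map_add' := fun _ _ => rfl
      map_smul' := fun _ _ => rfl }
  exact Module.Finite.of_surjective f fun v => ⟨⟨v.1.1, v.1.2, v.2⟩, rfl⟩

theorem SG.val_cyc {Γ : Type 1} [AddCommGroup Γ] (χ : AddF R Γ) (I : Ideal R)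
    (π : S.Pos →ₗ[S.Pos] M) (hs : Surjective π)
    (hπ : ∀ p, π p = 0 ↔ S.Pos.val p ∈ I.map (algebraMap R A)) :
    χ.val (M ⧸ LinearMap.range (S.mu M)) - χ.val (LinearMap.ker (S.mu M)) = χ.val (R ⧸ I) := by
  have h0 : ∀ q : Fin S.m → S.Pos, π (∑ j, S.xp j * q j) = ∑ j, S.xp j • π (q j) := fun q => by
    rw [map_sum]
    exact Finset.sum_congr rfl fun j _ => π.map_smul _ _
  have h1 : LinearMap.ker (S.mu M) = ⊥ := by
    refine (Submodule.eq_bot_iff _).2 fun v hv => Subtype.ext (funext fun i => ?_)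
    choose q hq using fun j => hs (v.1 j)
    have h2 : π (∑ j, S.xp j * q j) = 0 := by
      rw [h0]
      simp only [hq]
      exact hv
    have h3 : π (∑ j, algebraMap R S.Pos (S.e i j) * q j) = 0 := by
      rw [hπ] at h2 ⊢
      have h4 := Ideal.mul_mem_left _ (S.y i) h2
      simp only [map_sum, map_mul, AlgHom.commutes, S.alg_e, Finset.mul_sum, mul_assoc] at h4 ⊢
      exact h4
    show v.1 i = 0
    rw [← v.2 i, ← h3, map_sum]
    refine Finset.sum_congr rfl fun j _ => ?_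
    rw [← smul_eq_mul, map_smul, algebraMap_smul, hq]
  have : Subsingleton (LinearMap.ker (S.mu M)) := by
    rw [h1]
    infer_instance
  rw [χ.zero (LinearMap.ker _), sub_zero]
  let κ : R →ₗ[R] M ⧸ LinearMap.range (S.mu M) :=
    LinearMap.toSpanSingleton R _ (Submodule.Quotient.mk (π 1))
  have hκ : ∀ a, κ a = Submodule.Quotient.mk (π (algebraMap R S.Pos a)) := fun a => by
    rw [← mul_one (algebraMap R S.Pos a), ← smul_eq_mul, map_smul, algebraMap_smul]
    rfl
  have hs' : Surjective κ := fun z => by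
    obtain ⟨z, rfl⟩ := Submodule.Quotient.mk_surjective _ z
    obtain ⟨p, rfl⟩ := hs z
    obtain ⟨a, q, rfl⟩ := S.dec p
    refine ⟨a, ?_⟩
    rw [hκ, eq_comm, Submodule.Quotient.eq, map_add, add_sub_cancel_left, h0]
    exact sum_mem fun j _ => S.mem_range _ j _
  have hk : LinearMap.ker κ = I := by
    ext a
    rw [LinearMap.mem_ker, hκ, Submodule.Quotient.mk_eq_zero]
    constructor
    · rintro ⟨v, hv⟩
      choose q hq using fun j => hs (v.1 j)
      have h2 : π (∑ j, S.xp j * q j - algebraMap R S.Pos a) = 0 := by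
        rw [map_sub, h0, ← hv, S.mu_apply]
        simp only [hq, sub_self]
      have h4 := pr_mem S.pr I ((hπ _).1 h2)
      have h5 : ∀ j, S.pr (S.Pos.val (S.xp j * q j)) = 0 := fun j => S.pr_pos (q j) j
      rw [map_sub, map_sub, AlgHom.commutes, S.pr_alg, map_sum, map_sum,
        Finset.sum_eq_zero fun j _ => h5 j, zero_sub] at h4
      exact (neg_mem_iff).1 h4
    · intro ha
      rw [(hπ _).2 (Ideal.mem_map_of_mem (algebraMap R A) ha)]
      exact zero_mem _
  exact χ.congr ((κ.quotKerEquivOfSurjective hs').symm.trans (Submodule.quotEquivOfEq _ _ hk))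

end

theorem SG.tower (M : Type) [AddCommGroup M] [Module S.Pos M] :
    @IsScalarTower R S.Pos M _ _ (Module.compHom M (algebraMap R S.Pos)).toSMul :=
  letI : Module R M := Module.compHom M (algebraMap R S.Pos)
  IsScalarTower.of_algebraMap_smul fun _ _ => rfl

theorem SG.noeth [IsNoetherianRing R] : IsNoetherianRing S.Pos := by
  have : Algebra.FiniteType R S.Pos :=
    Algebra.FiniteType.adjoin_of_finite (Set.finite_range S.x)
  exact Algebra.FiniteType.isNoetherianRing R _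

theorem SG.ext [IsNoetherianRing R] {Γ : Type 1} [AddCommGroup Γ] (χ : AddF R Γ)
    (h : ∀ M : FG R, χ.val (TW S.e M.M) = χ.val M.M) :
    ∃ χ' : AddF A Γ, ∀ I : Ideal R, χ'.val (A ⧸ I.map (algebraMap R A)) = χ.val (R ⧸ I) := by
  classical
  have := S.noeth
  let ρ : AddF S.Pos Γ := ⟨fun M _ _ =>
    letI : Module R M := Module.compHom M (algebraMap R S.Pos)
    haveI := S.tower M
    χ.val (M ⧸ LinearMap.range (S.mu M)) - χ.val (LinearMap.ker (S.mu M)), by
      intro M N P _ _ _ _ _ _ _ f g hf hg hfg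
      let _ : Module R M := Module.compHom M (algebraMap R S.Pos)
      let _ : Module R N := Module.compHom N (algebraMap R S.Pos)
      let _ : Module R P := Module.compHom P (algebraMap R S.Pos)
      have := S.tower M
      have := S.tower N
      have := S.tower P
      have : Module.Finite S.Pos M := Module.Finite.of_injective f hf
      have : Module.Finite S.Pos P := Module.Finite.of_surjective g hg
      have := S.fin_ker M
      have := S.fin_ker N
      have := S.fin_ker P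
      have := S.fin_quot M _ (S.mem_range M)
      have := S.fin_quot N _ (S.mem_range N)
      have := S.fin_quot P _ (S.mem_range P)
      exact euler_RK χ (f.restrictScalars R) (g.restrictScalars R) hf hg hfg
        (TWm S.e (f.restrictScalars R)) (TWm S.e (g.restrictScalars R)) (TW_inj hf)
        (TW_surj S.he hg) (TW_exact hf hfg) (S.mu M) (S.mu N) (S.mu P)
        (fun v => by simp [S.mu_apply, TWm_apply]) (fun v => by simp [S.mu_apply, TWm_apply])⟩
  have hi : ∀ f ∈ Finset.univ.image S.xp, ∀ y, y ∈ Pool.Agent.P.MP_1bf4cb_ag.den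
      (S.Pos.val : S.Pos →+* A) f := fun f hf => by
    obtain ⟨i, -, rfl⟩ := Finset.mem_image.1 hf
    exact S.den i
  obtain ⟨χ', hχ'⟩ := lat (S.Pos.val : S.Pos →+* A) (Finset.univ.image S.xp) hi ρ (by
    intro M _ _ _ hM
    let _ : Module R M := Module.compHom M (algebraMap R S.Pos)
    have := S.tower M
    have h0 : ∀ j (z : M), S.xp j • z = 0 := fun j z => hM _ (Ideal.mem_sup_right
      (Ideal.subset_span (Finset.mem_coe.2 (Finset.mem_image_of_mem _ (Finset.mem_univ j))))) z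
    have h1 : S.mu M = 0 := LinearMap.ext fun v => by simp [S.mu_apply, h0]
    have := S.fin_quot M ⊥ fun j z => (Submodule.mem_bot R).2 (h0 j z)
    have : Module.Finite R M := Module.Finite.equiv (Submodule.quotEquivOfEqBot _ rfl)
    show χ.val (M ⧸ LinearMap.range (S.mu M)) - χ.val (LinearMap.ker (S.mu M)) = 0
    rw [χ.congr (Submodule.quotEquivOfEqBot _ (by rw [h1, LinearMap.range_zero])),
      χ.congr (LinearEquiv.ofTop _ (by rw [h1, LinearMap.ker_zero])), h ⟨M⟩, sub_self])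
  refine ⟨χ', fun I => ?_⟩
  set IA := I.map (algebraMap R A) with hIA
  set J := IA.comap (S.Pos.val : S.Pos →+* A) with hJ
  let g : (S.Pos ⧸ J) →ₛₗ[(S.Pos.val : S.Pos →+* A)] (A ⧸ IA) :=
    { toFun := Ideal.quotientMap IA (S.Pos.val : S.Pos →+* A) le_rfl
      map_add' := map_add _
      map_smul' := fun c x => by
        obtain ⟨x, rfl⟩ := Ideal.Quotient.mk_surjective x
        have e1 : c • Ideal.Quotient.mk J x = Ideal.Quotient.mk J (c * x) := rfl
        rw [e1, Ideal.quotientMap_mk, Ideal.quotientMap_mk, map_mul]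
        rfl }
  have hg : Injective g := Ideal.quotientMap_injective
  rw [hχ' _ _ g hg fun f hf y => ?_]
  swap
  · obtain ⟨y, rfl⟩ := Ideal.Quotient.mk_surjective y
    obtain ⟨N, p, hp⟩ := hi f hf y
    refine ⟨N, Ideal.Quotient.mk J p, ?_⟩
    show Ideal.Quotient.mk IA (_ * y) = Ideal.quotientMap IA _ le_rfl (Ideal.Quotient.mk J p)
    rw [Ideal.quotientMap_mk, hp]
  exact @SG.val_cyc R A _ _ _ S (S.Pos ⧸ J) _ (Module.compHom _ (algebraMap R S.Pos)) _
    (S.tower _) Γ _ χ I J.mkQ J.mkQ_surjective fun p => Submodule.Quotient.mk_eq_zero _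

include S in
/-- descent along a torsor under the multiplicative group -/
theorem SG.cell [IsNoetherianRing R] (hA : Cell A) : Cell R := by
  refine fg_of_tw S.he S.he2 S.he1 fun Γ _ χ h => ?_
  obtain ⟨χ', h1⟩ := S.ext χ h
  obtain ⟨G, hG⟩ := hA
  let H : AddSubgroup Γ := AddSubgroup.closure {x | x ∈ G.map fun M => χ'.val M.M}
  refine ⟨H, (AddSubgroup.fg_iff _).2 ⟨_, rfl, List.finite_toSet _⟩, fun I => ?_⟩
  obtain ⟨τ, hτ⟩ := exists_comp χ' (QuotientAddGroup.mk' H)
  have h2 : τ.val (A ⧸ I.map (algebraMap R A)) = 0 := hG _ τ (fun M hM => by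
    rw [hτ]
    exact (QuotientAddGroup.eq_zero_iff _).2
      (AddSubgroup.subset_closure (List.mem_map.2 ⟨M, hM, rfl⟩))) _
    (fun x hx y => by rw [Ideal.mem_bot.1 hx, zero_smul])
  rw [hτ, h1] at h2
  exact (QuotientAddGroup.eq_zero_iff _).1 h2

end Pool.Agent.P.MP_1bf4cb_ag.RG
end
end

-- part Pool.Agent.P.MP_1bf4cb_ag.RE
section

set_option autoImplicit false
set_option maxHeartbeats 400000
set_option linter.unusedSectionVars false
set_option linter.unusedVariables false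

open Function Matrix
open scoped TensorProduct

noncomputable section

namespace Pool.Agent.P.MP_1bf4cb_ag.RG

variable {k : Type} [Field k] {n r : ℕ} {C C' : Type} [CommRing C] [Algebra k C] [CommRing C']
  [Algebra k C'] {E : OB k n r}

/-- families of points of the group -/
def OB.pw (E : OB k n r) (ι : Type) : Fn k where
  obj C _ _ := ι → E.Γ C
  map φ g := fun s => mp φ (g s)
  map_id g := rfl
  map_comp φ ψ g := rfl

/-- the entries of a family of points -/
def ent {ι : Type} (x : ι → E.Γ C) (v : ι × Fin n × Fin n) : C := mx (x v.1) v.2.1 v.2.2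

theorem rp_span {ι : Type} [Finite ι] (q : Cnd (E.pw ι))
    (T : Set (MvPolynomial (ι × Fin n × Fin n) k))
    (h1 : ∀ (C : Type) [CommRing C] [Algebra k C] (ψ : MvPolynomial (ι × Fin n × Fin n) k →ₐ[k] C),
      (∀ t ∈ T, ψ t = 0) → ∃ x : ι → E.Γ C, (∀ v, ent x v = ψ (MvPolynomial.X v)) ∧ q.p C x)
    (h2 : ∀ (C : Type) [CommRing C] [Algebra k C] (x : ι → E.Γ C), q.p C x →
      ∀ t ∈ T, MvPolynomial.aeval (ent x) t = 0) :
    ∃ x, Rp ((E.pw ι).sub q) (MvPolynomial (ι × Fin n × Fin n) k ⧸ Ideal.span T) x ∧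
      ∀ v, ent x.1 v = Ideal.Quotient.mk _ (MvPolynomial.X v) := by
  obtain ⟨x, hx, hq⟩ := h1 _ (Ideal.Quotient.mkₐ k (Ideal.span T))
    fun t ht => Ideal.Quotient.eq_zero_iff_mem.2 (Ideal.subset_span ht)
  refine ⟨⟨x, hq⟩, ⟨inferInstance, fun C _ _ y => ?_, fun C _ _ φ ψ h => ?_⟩, hx⟩
  · have hk0 : Ideal.span T ≤ RingHom.ker (MvPolynomial.aeval (ent y.1) : _ →ₐ[k] C) :=
      Ideal.span_le.2 fun t ht => h2 C y.1 y.2 t ht
    have hk : ∀ a ∈ Ideal.span T, (MvPolynomial.aeval (ent y.1) : _ →ₐ[k] C) a = 0 :=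
      fun a ha => hk0 ha
    refine ⟨Ideal.Quotient.liftₐ _ (MvPolynomial.aeval (ent y.1)) hk,
      Subtype.ext (funext fun s => mx_inj ?_)⟩
    ext a b
    show Ideal.Quotient.liftₐ _ (MvPolynomial.aeval (ent y.1)) hk
      (ent x (s, a, b)) = ent y.1 (s, a, b)
    rw [hx]
    simp
  · refine Ideal.Quotient.algHom_ext k (MvPolynomial.algHom_ext fun v => ?_)
    show φ (Ideal.Quotient.mkₐ k _ _) = ψ (Ideal.Quotient.mkₐ k _ _)
    rw [← hx]
    exact congrArg (fun z : ((E.pw ι).sub q).obj C => ent z.1 v) h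

/-- generic matrices -/
def gm (k : Type) [Field k] (n : ℕ) {ι : Type} (s : ι) :
    Mx n (MvPolynomial (ι × Fin n × Fin n) k) := Matrix.of fun a b => MvPolynomial.X (s, a, b)

theorem gm_map {ι : Type} (x : ι → E.Γ C) (s : ι) :
    (gm k n s).map (MvPolynomial.aeval (ent x) : _ →ₐ[k] C) = mx (x s) := by
  ext a b
  exact MvPolynomial.aeval_X _ _

theorem ex_gen {ι : Type} [Finite ι] {q : Cnd (E.pw ι)} (hq : q.Cl) :
    ∃ (R : Type) (_ : CommRing R) (_ : Algebra k R) (x : ((E.pw ι).sub q).obj R),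
      Rp ((E.pw ι).sub q) R x ∧ Surjective (MvPolynomial.aeval (ent x.1) : _ →ₐ[k] R) := by
  obtain ⟨x, hx, hv⟩ := rp_span (E := E) (ι := ι) ⟨fun _ _ _ _ => True, fun _ _ _ => trivial⟩
    {t | ∃ s, t ∈ vl (gm k n s) '' E.G}
    (fun C _ _ ψ h => ⟨fun s => mkG ((gm k n s).map ψ) fun f hf =>
      (vl_map ψ _ f).trans (h _ ⟨s, f, hf, rfl⟩), fun v => rfl, trivial⟩)
    (by
      rintro C _ _ x - _ ⟨s, f, hf, rfl⟩
      rw [← vl_map, gm_map]
      exact mx_sol _ f hf)
  have h1 := hx.iso (Y := E.pw ι) ⟨fun C _ _ y => y.1, fun C _ _ =>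
    ⟨Subtype.val_injective, fun y => ⟨⟨y, trivial⟩, rfl⟩⟩, fun φ y => rfl⟩
  obtain ⟨I, hI⟩ := hq _ x.1
  refine ⟨_, _, _, _, rp_quot h1 q I hI, ?_⟩
  have e : (MvPolynomial.aeval (ent ((E.pw ι).map (Ideal.Quotient.mkₐ k I) x.1)) : _ →ₐ[k] _) =
      (Ideal.Quotient.mkₐ k I).comp (Ideal.Quotient.mkₐ k _) := by
    refine MvPolynomial.algHom_ext fun v => ?_
    rw [MvPolynomial.aeval_X]
    exact congrArg (Ideal.Quotient.mkₐ k I) (hv v)
  show Surjective (MvPolynomial.aeval (ent ((E.pw ι).map (Ideal.Quotient.mkₐ k I) x.1)) : _ →ₐ[k] _)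
  rw [e]
  exact (Ideal.Quotient.mkₐ_surjective k I).comp (Ideal.Quotient.mkₐ_surjective k _)

theorem ex_fG : Ex E.fG := by
  obtain ⟨R, _, _, x, h, -⟩ := ex_gen (E := E) (ι := Unit)
    (q := ⟨fun _ _ _ _ => True, fun _ _ _ => trivial⟩)
    fun R _ _ x => ⟨⊥, fun C _ _ φ => ⟨fun _ i hi => by rw [Ideal.mem_bot.1 hi, map_zero],
      fun _ => trivial⟩⟩
  exact ⟨R, _, _, _, h.iso ⟨fun C _ _ y => y.1 (), fun C _ _ =>
    ⟨fun a b e => Subtype.ext (funext fun _ => e), fun y => ⟨⟨fun _ => y, trivial⟩, rfl⟩⟩,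
    fun φ y => rfl⟩⟩

/-- the tautological point -/
def nId (E : OB k n r) : NG E.fG E := ⟨fun C _ _ g => g, fun φ g => rfl⟩

/-- the functor of `B` -/
def OB.fB (E : OB k n r) : Fn k := E.fG.sub (cS E.B (nId E))

/-- the functor of `P` -/
def OB.fP (E : OB k n r) : Fn k := E.fG.sub (cS E.Pa (nId E))

theorem ex_fB : Ex E.fB := ex_fG.sub (cl_cS _ _)

theorem ex_fP : Ex E.fP := ex_fG.sub (cl_cS _ _)

/-- the split torus -/
def fT (k : Type) [Field k] (r : ℕ) : Fn k where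
  obj C _ _ := Fin r → Cˣ
  map φ t := fun i => Units.map (φ : _ →* _) (t i)
  map_id t := rfl
  map_comp φ ψ t := rfl

/-- the product of the coordinates -/
def nP (k : Type) [Field k] (r : ℕ) : NF (aff k (Fin r)) :=
  ⟨fun C _ _ t => ∏ i, t i, fun φ t => (map_prod φ t _).symm⟩

/-- the torus as an open part of affine space -/
def niT (k : Type) [Field k] (r : ℕ) : NI (fT k r) ((aff k (Fin r)).loc (nP k r)) where
  ap C _ _ t := ⟨fun i => (t i : C),
    show IsUnit (∏ i, (t i : C)) from IsUnit.prod_iff.2 fun i _ => (t i).isUnit⟩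
  bij C _ _ := ⟨fun s t h => funext fun i => Units.ext (congrFun (congrArg Subtype.val h) i),
    fun t => ⟨fun i => ((IsUnit.prod_iff.1 (show IsUnit (∏ i, (t.1 i : C)) from t.2)) i
      (Finset.mem_univ i)).unit, rfl⟩⟩
  nat φ t := rfl

theorem ex_fT : Ex (fT k r) := ((ex_aff _).loc _).iso (niT k r).symm

theorem sc_fT : SC (fT k r) := ((sc_aff _).loc (ex_aff _) _).iso (niT k r).symm

theorem po_fT (t : (fT k r).obj k) : PO (fT k r) t := by
  have h := ((po_aff (Fin r) _).loc (nP k r) ((niT k r).ap k t).2).iso (niT k r).symm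
  have e : (niT k r).symm.ap k ((niT k r).ap k t) = t :=
    ((niT k r).bij k).1 ((niT k r).ap_symm k _)
  exact e ▸ h

/-- the diagonal matrix of a point of the torus -/
def dT (E : OB k n r) (t : Fin r → Cˣ) : Mx n C :=
  diagonal fun a => ((∏ i, t i ^ E.wt a i : Cˣ) : C)

theorem dT_map (φ : C →ₐ[k] C') (t : Fin r → Cˣ) :
    (dT E t).map φ = dT E fun i => Units.map (φ : C →* C') (t i) := by
  unfold dT
  rw [diagonal_map (map_zero φ)]
  congr 1
  funext a
  have : φ ((∏ i, t i ^ E.wt a i : Cˣ) : C) =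
    ((Units.map (φ : C →* C') (∏ i, t i ^ E.wt a i) : C'ˣ) : C') := rfl
  rw [this, map_prod]
  simp only [map_zpow]

theorem sol_uT (a : Fin E.N → C) (t : Fin r → Cˣ) :
    Sol E.B (E.u.map (MvPolynomial.aeval a) * dT E t) :=
  (E.ok.bor C).mapsTo (x := (a, t)) (Set.mem_univ _)

/-- the structure of `B` -/
def niB (E : OB k n r) : NI ((aff k (Fin E.N)).prod (fT k r)) E.fB where
  ap C _ _ x := ⟨mkG (E.u.map (MvPolynomial.aeval x.1) * dT E x.2) (sol_B_G (sol_uT _ _)),
    sol_uT _ _⟩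
  bij C _ _ := by
    constructor
    · intro x y h
      have h1 : E.u.map (MvPolynomial.aeval x.1) * dT E x.2 =
        E.u.map (MvPolynomial.aeval y.1) * dT E y.2 := congrArg (fun z : E.fB.obj C => mx z.1) h
      exact (E.ok.bor C).injOn (Set.mem_univ x) (Set.mem_univ y) h1
    · intro b
      obtain ⟨x, -, hx⟩ := (E.ok.bor C).surjOn (show mx b.1 ∈ {g | Sol E.B g} from b.2)
      exact ⟨x, Subtype.ext (mx_inj hx)⟩
  nat {C C'} _ _ _ _ φ x := by
    refine Subtype.ext (mx_inj ?_)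
    show _ = (E.u.map (MvPolynomial.aeval x.1) * dT E x.2).map (φ : C →+* C')
    rw [Matrix.map_mul]
    show E.u.map (MvPolynomial.aeval fun i => φ (x.1 i)) *
      dT E (fun i => Units.map (φ : C →* C') (x.2 i)) = _
    rw [← dT_map]
    congr 1
    ext s t
    exact (MvPolynomial.comp_aeval_apply x.1 φ _).symm

theorem sc_fB : SC E.fB := ((sc_aff _).prod (ex_aff _) sc_fT).iso (niB E)

theorem po_fB (b : E.fB.obj k) : PO E.fB b := by
  obtain ⟨x, rfl⟩ := ((niB E).bij k).2 b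
  exact ((po_aff _ x.1).prod (po_fT x.2)).iso (niB E)

/-- the point of `B` with given parameters -/
def bG (E : OB k n r) (a : Fin E.N → C) (t : Fin r → Cˣ) : E.Γ C :=
  mkG (E.u.map (MvPolynomial.aeval a) * dT E t) (sol_B_G (sol_uT _ _))

/-- the point of the torus in the group -/
def tG (E : OB k n r) (t : Fin r → Cˣ) : E.Γ C := (bG E 0 1)⁻¹ * bG E 0 t

theorem tG_BB (t : Fin r → Cˣ) : tG E t ∈ E.BB C :=
  mul_mem (inv_mem (mem_BB.2 (sol_uT _ _))) (mem_BB.2 (sol_uT _ _))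

theorem mx_tG (t : Fin r → Cˣ) : mx (tG E t) = dT E t := by
  have h1 : dT E (1 : Fin r → Cˣ) = 1 := by
    unfold dT
    simp
  have h2 : mx (bG E 0 t) = mx (bG E (C := C) 0 1) * dT E t := by
    show _ = E.u.map (MvPolynomial.aeval (0 : Fin E.N → C)) * dT E 1 * dT E t
    rw [h1, Matrix.mul_one]
    rfl
  unfold tG
  rw [mx_mul, h2, ← Matrix.mul_assoc, ← mx_mul, inv_mul_cancel, mx_one, Matrix.one_mul]

end Pool.Agent.P.MP_1bf4cb_ag.RG
end
end

-- part Pool.Agent.P.MP_1bf4cb_ag.RM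
section

set_option autoImplicit false
set_option maxHeartbeats 400000
set_option linter.unusedSectionVars false
set_option linter.unusedVariables false

open Function
open scoped TensorProduct

noncomputable section

namespace Pool.Agent.P.MP_1bf4cb_ag.RG

variable {k : Type} [Field k] {ι A : Type} [CommRing A] [Algebra k A]

/-- homogeneous elements for a coaction -/
def hm (ρ : A →ₐ[k] AddMonoidAlgebra A (ι → ℤ)) (l : ι → ℤ) : Submodule k A where
  carrier := {x | ρ x = AddMonoidAlgebra.single l x}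
  zero_mem' := by simp
  add_mem' {x y} hx hy := by
    show ρ (x + y) = _
    rw [map_add, hx, hy, AddMonoidAlgebra.single_add]
  smul_mem' c x hx := by
    show ρ (c • x) = _
    rw [map_smul, hx, AddMonoidAlgebra.smul_single]

/-- a strong grading by a lattice -/
structure MG (k : Type) [Field k] (ι A : Type) [CommRing A] [Algebra k A] where
  ρ : A →ₐ[k] AddMonoidAlgebra A (ι → ℤ)
  gen : ∀ a, a ∈ ⨆ l, hm ρ l
  str : ∀ l, ∃ (m : ℕ) (x y : Fin m → A), (∀ i, x i ∈ hm ρ l) ∧ (∀ i, y i ∈ hm ρ (-l)) ∧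
    ∑ i, x i * y i = 1

theorem hm_mul {ρ : A →ₐ[k] AddMonoidAlgebra A (ι → ℤ)} {l l' : ι → ℤ} {x y : A} (hx : x ∈ hm ρ l)
    (hy : y ∈ hm ρ l') : x * y ∈ hm ρ (l + l') := by
  show ρ (x * y) = _
  rw [map_mul, hx, hy, AddMonoidAlgebra.single_mul_single]

theorem hm_one (ρ : A →ₐ[k] AddMonoidAlgebra A (ι → ℤ)) : 1 ∈ hm ρ 0 := map_one ρ

/-- homogeneous components -/
def cp (ρ : A →ₐ[k] AddMonoidAlgebra A (ι → ℤ)) (l : ι → ℤ) : A →ₗ[k] A where
  toFun a := (ρ a).coeff l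
  map_add' a b := by simp
  map_smul' c a := by simp

theorem cp_eq {ρ : A →ₐ[k] AddMonoidAlgebra A (ι → ℤ)} {l : ι → ℤ} {x : A} (hx : x ∈ hm ρ l) :
    cp ρ l x = x := by
  show (ρ x).coeff l = x
  rw [hx, AddMonoidAlgebra.coeff_single, Finsupp.single_eq_same]

theorem cp_ne {ρ : A →ₐ[k] AddMonoidAlgebra A (ι → ℤ)} {l l' : ι → ℤ} {x : A} (hx : x ∈ hm ρ l)
    (h : l' ≠ l) : cp ρ l' x = 0 := by
  show (ρ x).coeff l' = 0
  rw [hx, AddMonoidAlgebra.coeff_single, Finsupp.single_eq_of_ne h]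

theorem cp_mul {ρ : A →ₐ[k] AddMonoidAlgebra A (ι → ℤ)} {l : ι → ℤ} {x : A} (hx : x ∈ hm ρ l)
    (l' : ι → ℤ) (a : A) : cp ρ l' (x * a) = x * cp ρ (-l + l') a := by
  show (ρ (x * a)).coeff l' = _
  rw [map_mul, hx, AddMonoidAlgebra.coeff_single_mul_apply]
  rfl

variable (G : MG k ι A)

theorem MG.cp_mem (l : ι → ℤ) (a : A) : cp G.ρ l a ∈ hm G.ρ l := by
  refine Submodule.iSup_induction _ (motive := fun a => cp G.ρ l a ∈ hm G.ρ l) (G.gen a)
    (fun l' x hx => ?_) (by simp) fun _ _ h h' => by rw [map_add]; exact add_mem h h'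
  by_cases e : l = l'
  · subst e
    rwa [cp_eq hx]
  · rw [cp_ne hx e]
    exact zero_mem _

/-- the degrees that occur -/
def MG.sp (a : A) : Finset (ι → ℤ) := (G.ρ a).coeff.support

theorem MG.not_sp {a : A} {l : ι → ℤ} (h : l ∉ G.sp a) : cp G.ρ l a = 0 :=
  Finsupp.notMem_support_iff.1 h

theorem MG.dec (a : A) : ∑ l ∈ G.sp a, cp G.ρ l a = a := by
  show (G.ρ a).coeff.sum (fun _ x => x) = a
  refine Submodule.iSup_induction _ (motive := fun a => (G.ρ a).coeff.sum (fun _ x => x) = a)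
    (G.gen a) (fun l x hx => ?_) (by simp) fun _ _ h h' => ?_
  · rw [show G.ρ x = _ from hx, AddMonoidAlgebra.coeff_single, Finsupp.sum_single_index rfl]
  · rw [map_add, AddMonoidAlgebra.coeff_add, Finsupp.sum_add_index' (fun _ => rfl)
      (fun _ _ _ => rfl), h, h']

theorem MG.dec' (a : A) {s : Finset (ι → ℤ)} (hs : G.sp a ⊆ s) : ∑ l ∈ s, cp G.ρ l a = a := by
  rw [← Finset.sum_subset hs fun l _ h => G.not_sp h, G.dec]

theorem MG.ext0 {a : A} (h : ∀ l, cp G.ρ l a = 0) : a = 0 := by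
  rw [← G.dec a]
  exact Finset.sum_eq_zero fun l _ => h l

theorem MG.ext {a b : A} (h : ∀ l, cp G.ρ l a = cp G.ρ l b) : a = b :=
  sub_eq_zero.1 (G.ext0 fun l => by rw [map_sub, h, sub_self])

theorem MG.cp_mul_zero {a b : A} {l : ι → ℤ}
    (h : ∀ l', cp G.ρ l' a = 0 ∨ cp G.ρ (-l' + l) b = 0) : cp G.ρ l (a * b) = 0 := by
  rw [← G.dec a, Finset.sum_mul, map_sum]
  refine Finset.sum_eq_zero fun l' _ => ?_
  rw [cp_mul (G.cp_mem l' a)]
  rcases h l' with h | h <;> rw [h] <;> simp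

open Classical in
/-- truncation -/
def MG.tr (p : (ι → ℤ) → Prop) (a : A) : A := ∑ l ∈ (G.sp a).filter p, cp G.ρ l a

open Classical in
theorem MG.cp_tr (p : (ι → ℤ) → Prop) (a : A) (l : ι → ℤ) :
    cp G.ρ l (G.tr p a) = if p l then cp G.ρ l a else 0 := by
  unfold MG.tr
  rw [map_sum]
  by_cases h : l ∈ (G.sp a).filter p
  · rw [Finset.sum_eq_single_of_mem l h (fun l' _ h => cp_ne (G.cp_mem l' a) h.symm),
      cp_eq (G.cp_mem l a), if_pos (Finset.mem_filter.1 h).2]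
  · rw [Finset.sum_eq_zero fun l' h' => cp_ne (G.cp_mem l' a) fun e : l = l' => h (e ▸ h')]
    split_ifs with hp
    · exact (G.not_sp fun h' => h (Finset.mem_filter.2 ⟨h', hp⟩)).symm
    · rfl

/-- the invariants of a coordinate subtorus -/
def MG.sub (S : Finset ι) : Subalgebra k A where
  carrier := {a | ∀ l, (∃ i ∈ S, l i ≠ 0) → cp G.ρ l a = 0}
  add_mem' {a b} ha hb l h := by rw [map_add, ha l h, hb l h, add_zero]
  mul_mem' {a b} ha hb l := by
    rintro ⟨i, hi, h⟩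
    refine G.cp_mul_zero fun l' => ?_
    by_cases e : l' i = 0
    · exact Or.inr (hb _ ⟨i, hi, by simpa [e] using h⟩)
    · exact Or.inl (ha _ ⟨i, hi, e⟩)
  algebraMap_mem' c l := by
    rintro ⟨i, hi, h⟩
    rw [Algebra.algebraMap_eq_smul_one, map_smul, cp_ne (hm_one G.ρ) fun e => h (by rw [e]; rfl),
      smul_zero]

theorem MG.hm_sub {S : Finset ι} {l : ι → ℤ} {x : A} (hx : x ∈ hm G.ρ l) (h : ∀ i ∈ S, l i = 0) :
    x ∈ G.sub S := by
  rintro l' ⟨i, hi, h'⟩
  exact cp_ne hx fun e => h' (e ▸ h i hi)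

theorem MG.step [DecidableEq ι] {S : Finset ι} {i : ι} (hi : i ∉ S)
    (h : IsNoetherianRing (G.sub S) ∧ Cell (G.sub S)) :
    IsNoetherianRing (G.sub (insert i S)) ∧ Cell (G.sub (insert i S)) := by
  have hle : G.sub (insert i S) ≤ G.sub S := fun a ha l ⟨j, hj, h⟩ =>
    ha l ⟨j, Finset.mem_insert_of_mem hj, h⟩
  let _ : Algebra (G.sub (insert i S)) (G.sub S) := (Subalgebra.inclusion hle).toRingHom.toAlgebra
  have hsm : ∀ (c : G.sub (insert i S)) (a : G.sub S), ((c • a : G.sub S) : A) = c * a :=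
    fun c a => rfl
  let H : ℤ → Submodule (G.sub (insert i S)) (G.sub S) := fun n =>
    { carrier := {a | ∀ l, l i ≠ n → cp G.ρ l a = 0}
      zero_mem' := fun l _ => map_zero _
      add_mem' := fun {a b} ha hb l h => by
        rw [Subalgebra.coe_add, map_add, ha l h, hb l h, add_zero]
      smul_mem' := fun c a ha l h => by
        rw [hsm]
        refine G.cp_mul_zero fun l' => ?_
        by_cases e : l' i = 0
        · exact Or.inr (ha _ (by simpa [e] using h))
        · exact Or.inl (c.2 _ ⟨i, Finset.mem_insert_self _ _, e⟩) }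
  have hH : ∀ {l : ι → ℤ} {x : G.sub S}, x.1 ∈ hm G.ρ l → x ∈ H (l i) := fun hx l' h' =>
    cp_ne hx fun e => h' (by rw [e])
  have hp : ∀ a : G.sub S, G.tr (fun l => l i = 0) a ∈ G.sub (insert i S) := by
    rintro a l ⟨j, hj, h⟩
    rw [G.cp_tr]
    split_ifs with e
    · rcases Finset.mem_insert.1 hj with rfl | hj
      · exact absurd e h
      · exact a.2 l ⟨j, hj, h⟩
    · rfl
  let pr : G.sub S →ₗ[G.sub (insert i S)] G.sub (insert i S) :=
    { toFun := fun a => ⟨_, hp a⟩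
      map_add' := fun a b => Subtype.ext (G.ext fun l => by
        show cp G.ρ l (G.tr _ (a + b)) = cp G.ρ l (G.tr _ a + G.tr _ b)
        rw [map_add, G.cp_tr, G.cp_tr, G.cp_tr, map_add]
        split_ifs <;> simp)
      map_smul' := fun c a => Subtype.ext (G.ext fun l => by
        show cp G.ρ l (G.tr _ (c * a)) = cp G.ρ l (c * G.tr _ a)
        rw [G.cp_tr, ← G.dec c, Finset.sum_mul, Finset.sum_mul, map_sum, map_sum]
        simp only [cp_mul (G.cp_mem _ _), G.cp_tr]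
        have h1 : ∀ l', l' i ≠ 0 → cp G.ρ l' c = 0 := fun l' e =>
          c.2 _ ⟨i, Finset.mem_insert_self _ _, e⟩
        split_ifs with e
        · refine Finset.sum_congr rfl fun l' _ => ?_
          by_cases e' : l' i = 0
          · rw [if_pos (by simp [e, e'])]
          · rw [h1 l' e', zero_mul, zero_mul]
        · refine (Finset.sum_eq_zero fun l' _ => ?_).symm
          by_cases e' : l' i = 0
          · rw [if_neg (by simpa [e'] using e), mul_zero]
          · rw [h1 l' e', zero_mul]) }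
  obtain ⟨m, x, y, hx, hy, hs⟩ := G.str (Pi.single i 1)
  have h0 : ∀ j ∈ S, (Pi.single i 1 : ι → ℤ) j = 0 := fun j hj =>
    Pi.single_eq_of_ne (fun e : j = i => hi (e ▸ hj)) _
  let T : SG (G.sub (insert i S)) (G.sub S) :=
    { H := H
      mul := fun {a b x y} hx hy l h => G.cp_mul_zero fun l' => by
        by_cases e : l' i = a
        · exact Or.inr (hy _ fun e' => h (by simp [e] at e'; omega))
        · exact Or.inl (hx _ e)
      one := hH (l := 0) (x := 1) (hm_one G.ρ)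
      pr := pr
      pr_zero := fun {x} hx => Subtype.ext (G.ext fun l => by
        show cp G.ρ l (G.tr _ x) = _
        rw [G.cp_tr]
        split_ifs with e
        · rfl
        · exact (hx l e).symm)
      pr_alg := fun a => Subtype.ext (G.ext fun l => by
        show cp G.ρ l (G.tr _ a) = _
        rw [G.cp_tr]
        split_ifs with e
        · rfl
        · exact (a.2 l ⟨i, Finset.mem_insert_self _ _, e⟩).symm)
      pr_ne := fun {a x} hx ha => Subtype.ext (G.ext0 fun l => by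
        show cp G.ρ l (G.tr _ x) = _
        rw [G.cp_tr]
        split_ifs with e
        · exact hx l fun e' => ha (e'.symm.trans e)
        · rfl)
      span := fun a => by
        have h1 : ∀ l, cp G.ρ l a ∈ G.sub S := fun l l' h' => by
          by_cases e : l' = l
          · subst e
            rw [cp_eq (G.cp_mem _ _)]
            exact a.2 _ h'
          · exact cp_ne (G.cp_mem _ _) e
        have h2 : a = ∑ l ∈ G.sp a, (⟨_, h1 l⟩ : G.sub S) := Subtype.ext (by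
          rw [AddSubmonoidClass.coe_finsetSum]
          exact (G.dec a).symm)
        rw [h2]
        exact sum_mem fun l _ => Submodule.mem_iSup_of_mem (l i) (hH (G.cp_mem l a))
      m := m
      x := fun j => ⟨x j, G.hm_sub (hx j) h0⟩
      y := fun j => ⟨y j, G.hm_sub (hy j) fun j hj => by rw [Pi.neg_apply, h0 j hj, neg_zero]⟩
      hx := fun j => by simpa using hH (x := ⟨x j, G.hm_sub (hx j) h0⟩) (hx j)
      hy := fun j => by
        simpa using hH (x := ⟨y j, G.hm_sub (hy j) fun j hj => by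
          rw [Pi.neg_apply, h0 j hj, neg_zero]⟩) (hy j)
      sum := Subtype.ext (by
        rw [AddSubmonoidClass.coe_finsetSum]
        exact hs) }
  have := h.1
  have := noeth_pr T.pr T.pr_alg
  exact ⟨this, T.cell h.2⟩

section
variable {Z : Subalgebra k A} (hZ : ∀ a, a ∈ Z ↔ a ∈ hm G.ρ 0)
include hZ

theorem MG.cell [Fintype ι] [IsNoetherianRing A] (hA : Cell A) : Cell Z := by
  classical
  have h1 : ∀ S : Finset ι, IsNoetherianRing (G.sub S) ∧ Cell (G.sub S) := fun S => by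
    induction S using Finset.induction_on with
    | empty =>
      have e : G.sub ∅ = ⊤ := eq_top_iff.2 fun a _ l ⟨i, hi, _⟩ => absurd hi (Finset.notMem_empty i)
      rw [e]
      exact ⟨isNoetherianRing_of_ringEquiv A Subalgebra.topEquiv.symm.toRingEquiv,
        cell_equiv Subalgebra.topEquiv.symm.toRingEquiv hA⟩
    | insert i S hi ih => exact G.step hi ih
  have e : G.sub Finset.univ = Z := by
    ext a
    rw [hZ]
    refine ⟨fun h => ?_, fun h => G.hm_sub h fun _ _ => rfl⟩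
    have h2 : a = cp G.ρ 0 a := G.ext fun l => by
      by_cases e : l = 0
      · rw [e, cp_eq (G.cp_mem 0 a)]
      · rw [cp_ne (G.cp_mem 0 a) e]
        refine h l ?_
        by_contra hn
        push Not at hn
        exact e (funext fun i => hn i (Finset.mem_univ i))
    rw [h2]
    exact G.cp_mem 0 a
  exact e ▸ (h1 _).2

/-- the projection onto the invariants -/
def MG.pr : A →ₗ[Z] Z where
  toFun a := ⟨cp G.ρ 0 a, (hZ _).2 (G.cp_mem 0 a)⟩
  map_add' a b := Subtype.ext (map_add _ a b)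
  map_smul' c a := Subtype.ext (by
    show cp G.ρ 0 (c * a) = c * cp G.ρ 0 a
    rw [cp_mul ((hZ _).1 c.2), neg_zero, add_zero])

theorem MG.pr_alg (a : Z) : G.pr hZ (algebraMap Z A a) = a := Subtype.ext (cp_eq ((hZ _).1 a.2))

theorem MG.flat : Module.Flat Z A := by
  classical
  refine Module.Flat.of_forall_isTrivialRelation fun {N f a} h => ?_
  choose m x y hx hy hs using G.str
  let s : Finset (ι → ℤ) := Finset.univ.biUnion fun i => G.sp (a i)
  let e := (Fintype.equivFin (Σ l : s, Fin (m l))).symm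
  refine ⟨_, fun i j => G.pr hZ (y _ (e j).2 * a i), fun j => x _ (e j).2, fun i => ?_, fun j => ?_⟩
  · rw [e.sum_comp fun j => G.pr hZ (y _ j.2 * a i) • x _ j.2, Fintype.sum_sigma]
    refine (G.dec' (a i) (s := s) (Finset.subset_biUnion_of_mem (fun i => G.sp (a i))
        (Finset.mem_univ i))).symm.trans ?_
    rw [← Finset.sum_coe_sort]
    refine Finset.sum_congr rfl fun l _ => ?_
    rw [← one_mul (cp G.ρ l (a i)), ← hs l, Finset.sum_mul]
    refine Finset.sum_congr rfl fun j _ => ?_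
    show _ = cp G.ρ 0 (y _ j * a i) * x _ j
    rw [cp_mul (hy _ j), neg_neg, add_zero]
    ring
  · have h1 : ∀ i, f i * G.pr hZ (y _ (e j).2 * a i) = G.pr hZ (y _ (e j).2 * f i • a i) :=
      fun i => by rw [mul_smul_comm, map_smul, smul_eq_mul]
    rw [Finset.sum_congr rfl fun i _ => h1 i, ← map_sum, ← Finset.mul_sum, h, mul_zero, map_zero]

theorem MG.map_comap (I : Ideal A) (hI : ∀ l, ∀ a ∈ I, cp G.ρ l a ∈ I) :
    (I.comap (algebraMap Z A)).map (algebraMap Z A) = I := by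
  refine le_antisymm Ideal.map_comap_le fun a ha => ?_
  rw [← G.dec a]
  refine sum_mem fun l _ => ?_
  obtain ⟨m, x, y, hx, hy, hs⟩ := G.str l
  rw [← one_mul (cp G.ρ l a), ← hs, Finset.sum_mul]
  refine sum_mem fun j _ => ?_
  rw [mul_assoc]
  refine Ideal.mul_mem_left _ _ (Ideal.mem_map_of_mem (algebraMap Z A)
    (x := ⟨y j * cp G.ρ l a, (hZ _).2 ?_⟩) (I.mul_mem_left _ (hI l a ha)))
  simpa using hm_mul (hy j) (G.cp_mem l a)

end

section
variable {σ : Type} {ρ : A →ₐ[k] AddMonoidAlgebra A (ι → ℤ)} {v : σ → A} {deg : σ → ι → ℤ}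

theorem mon_mem (K : (ι → ℤ) → Submodule k A) (h1 : 1 ∈ K 0)
    (h2 : ∀ l l' x y, x ∈ K l → y ∈ K l' → x * y ∈ K (l + l')) (h3 : ∀ s, v s ∈ K (deg s))
    (m : σ →₀ ℕ) : MvPolynomial.aeval v (MvPolynomial.monomial m (1 : k)) ∈
      K (Finsupp.weight deg m) := by
  induction m using Finsupp.induction_linear with
  | zero => simpa using h1
  | add f g hf hg =>
    rw [map_add, ← mul_one (1 : k), ← MvPolynomial.monomial_mul, map_mul]
    exact h2 _ _ _ _ hf hg
  | single s c =>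
    rw [Finsupp.weight_single, ← MvPolynomial.X_pow_eq_monomial, map_pow, MvPolynomial.aeval_X]
    induction c with
    | zero => simpa using h1
    | succ c ih =>
      rw [pow_succ, succ_nsmul]
      exact h2 _ _ _ _ ih (h3 s)

theorem gen_of_surj (hv : Surjective (MvPolynomial.aeval v : _ →ₐ[k] A))
    (h : ∀ s, v s ∈ hm ρ (deg s)) (a : A) : a ∈ ⨆ l, hm ρ l := by
  obtain ⟨P, rfl⟩ := hv a
  rw [P.as_sum, map_sum]
  refine sum_mem fun m _ => ?_
  rw [← mul_one (MvPolynomial.coeff m P), ← smul_eq_mul, ← MvPolynomial.smul_monomial, map_smul]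
  exact Submodule.smul_mem _ _ (Submodule.mem_iSup_of_mem _
    (mon_mem (hm ρ) (hm_one ρ) (fun _ _ _ _ => hm_mul) h m))

theorem mem_of_mon (hv : Surjective (MvPolynomial.aeval v : _ →ₐ[k] A))
    (h : ∀ s, v s ∈ hm ρ (deg s)) {l : ι → ℤ} (K : Submodule k A)
    (hK : ∀ m, Finsupp.weight deg m = l →
      MvPolynomial.aeval v (MvPolynomial.monomial m (1 : k)) ∈ K) {a : A} (ha : a ∈ hm ρ l) :
    a ∈ K := by
  rw [← cp_eq ha]
  obtain ⟨P, rfl⟩ := hv a
  rw [P.as_sum, map_sum, map_sum]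
  refine sum_mem fun m _ => ?_
  rw [← mul_one (MvPolynomial.coeff m P), ← smul_eq_mul, ← MvPolynomial.smul_monomial, map_smul,
    map_smul]
  refine Submodule.smul_mem _ _ ?_
  have h1 := mon_mem (hm ρ) (hm_one ρ) (fun _ _ _ _ => hm_mul) h m
  by_cases e : l = Finsupp.weight deg m
  · rw [e, cp_eq h1]
    exact hK m e.symm
  · rw [cp_ne h1 e]
    exact zero_mem _

theorem hm_le (hv : Surjective (MvPolynomial.aeval v : _ →ₐ[k] A)) (h : ∀ s, v s ∈ hm ρ (deg s))
    (K : (ι → ℤ) → Submodule k A) (h1 : 1 ∈ K 0)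
    (h2 : ∀ l l' x y, x ∈ K l → y ∈ K l' → x * y ∈ K (l + l')) (h3 : ∀ s, v s ∈ K (deg s))
    {l : ι → ℤ} {a : A} (ha : a ∈ hm ρ l) : a ∈ K l :=
  mem_of_mon hv h (K l) (fun m e => by rw [← e]; exact mon_mem K h1 h2 h3 m) ha

end

end Pool.Agent.P.MP_1bf4cb_ag.RG
end
end

-- part Pool.Agent.P.MP_1bf4cb_ag.RF
section

set_option autoImplicit false
set_option maxHeartbeats 400000
set_option linter.unusedSectionVars false
set_option linter.unusedVariables false

open Function Matrix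
open scoped TensorProduct

noncomputable section

namespace Pool.Agent.P.MP_1bf4cb_ag.RG

variable {k : Type} [Field k] {n r : ℕ} {C C' : Type} [CommRing C] [Algebra k C] [CommRing C']
  [Algebra k C'] {E : OB k n r} {X Y : Fn k} {j : ℕ}

/-- a point depending on the first factor -/
def NG.fst (h : NG X E) (Y : Fn k) : NG (X.prod Y) E :=
  ⟨fun C _ _ x => h.g C x.1, fun φ x => h.nat φ x.1⟩

/-- a point depending on the second factor -/
def NG.snd (h : NG X E) (Y : Fn k) : NG (Y.prod X) E :=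
  ⟨fun C _ _ x => h.g C x.2, fun φ x => h.nat φ x.2⟩

/-- the parameters of a cell -/
def OB.fC (E : OB k n r) (j : ℕ) : Fn k := (aff k (Fin (E.l j))).prod E.fB

/-- the group element underlying a point of `B` -/
def gB (b : E.fB.obj C) : E.Γ C := b.1

theorem gB_mem (b : E.fB.obj C) : gB b ∈ E.BB C := b.2

/-- the point of a cell -/
def cel (hj : j < E.M) (y : (E.fC j).obj C) : E.Γ C := cc hj y.1 * rt C (ww hj) * gB y.2

theorem mp_cel (hj : j < E.M) (φ : C →ₐ[k] C') (y : (E.fC j).obj C) :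
    mp φ (cel hj y) = cel hj ((E.fC j).map φ y) := by
  unfold cel
  rw [map_mul, map_mul, mp_cc, mp_rt]
  rfl

theorem cel_inj (hj : j < E.M) {y y' : (E.fC j).obj C} (e : cel hj y = cel hj y') : y = y' := by
  obtain ⟨h1, h2⟩ := cel_uniq hj (gB_mem y.2) (gB_mem y'.2) e
  exact Prod.ext h1 (Subtype.ext h2)

theorem cel_surj (hj : j < E.M) {g : E.Γ C} (h1 : Sol (E.Z (j + 1)) (mx g))
    (h2 : Ideal.span (vl (mx g) '' E.Z j) = ⊤) : ∃ y, cel hj y = g := by
  obtain ⟨a, b, hb, e⟩ := cel_ex hj h1 h2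
  exact ⟨(a, ⟨b, hb⟩), e.symm⟩

theorem cel_sol (hj : j < E.M) (y : (E.fC j).obj C) :
    Sol (E.Z (j + 1)) (mx (cel hj y)) ∧ Ideal.span (vl (mx (cel hj y)) '' E.Z j) = ⊤ :=
  cel_mem hj y.1 (gB_mem y.2)

/-- the point of a cell as a natural map -/
def nC (hj : j < E.M) : NG (E.fC j) E := ⟨fun C _ _ y => cel hj y, fun φ y => (mp_cel hj φ y).symm⟩

theorem ex_fC : Ex (E.fC j) := (ex_aff _).prod ex_fB

theorem sc_fC : SC (E.fC j) := (sc_aff _).prod (ex_aff _) sc_fB

theorem po_fC (y : (E.fC j).obj k) : PO (E.fC j) y := (po_aff _ y.1).prod (po_fB y.2)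

/-- the stratum over a cell -/
def Cel (h : NG X E) (hj : j < E.M) : Fn k :=
  (X.prod (E.fC j)).sub (cE (h.fst _) ((nC hj).snd _))

theorem step_RF {R : Type} [CommRing R] [Algebra k R] {x : X.obj R} (hx : Rp X R x) (h : NG X E)
    (hj : j < E.M) (hc : CF (Cel h hj)) (hA : CellI R (Ideal.span (vl (mx (h.g R x)) '' E.Z j))) :
    CellI R (Ideal.span (vl (mx (h.g R x)) '' E.Z (j + 1))) := by
  classical
  have := hx.noeth
  obtain ⟨P, _, _, z, hz⟩ : Ex (Cel h hj) :=
    (Ex.prod ⟨R, _, _, x, hx⟩ ex_fC).sub (cl_cE _ _)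
  obtain ⟨ψ, hψ⟩ := hx.ex P z.1.1
  have hz2 : h.g P z.1.1 = cel hj z.1.2 := z.2
  obtain ⟨F, hF1, hF2⟩ := (Submodule.fg_span_iff_fg_span_finset_subset
    (vl (mx (h.g R x)) '' E.Z j)).1 (IsNoetherian.noetherian (R := R) _)
  set b := Ideal.span (vl (mx (h.g R x)) '' E.Z (j + 1)) with hb
  have hbk : ∀ i ∈ b, ψ i = 0 := by
    refine (sol_map_iff _ _ ψ).1 ?_
    rw [← mx_mp, ← h.nat, hψ, hz2]
    exact (cel_sol hj _).1
  have key : ∀ f ∈ F, ∃ θ : P →ₐ[k] Localization.Away (Ideal.Quotient.mk b f),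
      θ.comp ψ = (IsScalarTower.toAlgHom k (R ⧸ b) _).comp (Ideal.Quotient.mkₐ k b) := by
    intro f hf
    set π : R →ₐ[k] Localization.Away (Ideal.Quotient.mk b f) :=
      (IsScalarTower.toAlgHom k (R ⧸ b) _).comp (Ideal.Quotient.mkₐ k b) with hπ
    have h1 : Sol (E.Z (j + 1)) (mx (h.g _ (X.map π x))) := by
      rw [h.nat, mx_mp]
      refine (sol_map_iff _ _ π).2 fun i hi => ?_
      show algebraMap (R ⧸ b) _ (Ideal.Quotient.mk b i) = 0
      rw [Ideal.Quotient.eq_zero_iff_mem.2 hi, map_zero]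
    have h2 : Ideal.span (vl (mx (h.g _ (X.map π x))) '' E.Z j) = ⊤ := by
      rw [h.nat, mx_mp, ← span_map_vl]
      exact Ideal.eq_top_of_isUnit_mem _ (Ideal.mem_map_of_mem π (Ideal.subset_span (hF1 hf)))
        (IsLocalization.Away.algebraMap_isUnit (Ideal.Quotient.mk b f))
    obtain ⟨y, hy⟩ := cel_surj hj h1 h2
    obtain ⟨θ, hθ⟩ := hz.ex _ ⟨(X.map π x, y), hy.symm⟩
    refine ⟨θ, hx.ext _ _ _ ?_⟩
    rw [← X.map_comp, hψ]
    exact congrArg (fun w : (Cel h hj).obj _ => w.1.1) hθ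
  refine step (ψ : R →+* P) F b (fun f hf y => ?_) (fun i hi => hbk i hi)
    (fun 𝔭 h𝔭 hb𝔭 ⟨f, hf, hf𝔭⟩ i hi => ?_) (hc P z hz) (mono_RB hA ?_)
  · obtain ⟨θ, hθ⟩ := key f hf
    let ι : P →ₐ[k] Localization.Away (ψ f) := IsScalarTower.toAlgHom k P _
    let ψ' : (R ⧸ b) →ₐ[k] Localization.Away (ψ f) :=
      ι.comp (Ideal.Quotient.liftₐ b ψ hbk)
    have hu : IsUnit (ψ' (Ideal.Quotient.mk b f)) :=
      IsLocalization.Away.algebraMap_isUnit (ψ f)
    let θ' : Localization.Away (Ideal.Quotient.mk b f) →ₐ[k] Localization.Away (ψ f) :=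
      IsLocalization.Away.liftAlgHom (Ideal.Quotient.mk b f) (f := ψ') hu
    have hθ' : ∀ i : R, θ' (algebraMap (R ⧸ b) _ (Ideal.Quotient.mk b i)) = ι (ψ i) := fun i => by
      simp [θ', IsLocalization.Away.liftAlgHom, ψ']
    have e1 : (θ'.comp θ).comp ψ = ι.comp ψ := by
      rw [AlgHom.comp_assoc, hθ]
      ext i
      exact hθ' i
    have e2 : X.map (θ'.comp θ) z.1.1 = X.map ι z.1.1 := by
      rw [← hψ, X.map_comp, X.map_comp, e1]
    have e3 : θ'.comp θ = ι := by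
      refine hz.ext _ _ _ (Subtype.ext (Prod.ext e2 (cel_inj hj ?_)))
      show cel hj ((E.fC j).map _ z.1.2) = cel hj ((E.fC j).map _ z.1.2)
      rw [← mp_cel, ← mp_cel, ← hz2, ← h.nat, ← h.nat, e2]
    obtain ⟨⟨s, _, N, rfl⟩, hs⟩ :=
      IsLocalization.surj (Submonoid.powers (Ideal.Quotient.mk b f)) (θ y)
    obtain ⟨s, rfl⟩ := Ideal.Quotient.mk_surjective s
    have e4 : ι (ψ f ^ N * y) = ι (ψ s) := by
      have := congrArg θ' hs
      rw [map_mul, hθ'] at this
      have h5 : θ' (θ y) = ι y := DFunLike.congr_fun e3 y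
      have h6 : θ' (algebraMap (R ⧸ b) _ (Ideal.Quotient.mk b f ^ N)) = ι (ψ f ^ N) := by
        rw [← map_pow, hθ', map_pow]
      rw [← this, h5, map_mul, mul_comm]
      exact congrArg _ h6.symm
    obtain ⟨⟨_, m, rfl⟩, hm⟩ := (IsLocalization.eq_iff_exists (Submonoid.powers (ψ f)) _).1 e4
    refine ⟨m + N, f ^ m * s, ?_⟩
    show ψ f ^ (m + N) * y = ψ (f ^ m * s)
    rw [map_mul, map_pow, pow_add, mul_assoc]
    exact hm
  · obtain ⟨θ, hθ⟩ := key f hf
    have h1 : algebraMap (R ⧸ b) (Localization.Away (Ideal.Quotient.mk b f))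
        (Ideal.Quotient.mk b i) = 0 := by
      have h2 := DFunLike.congr_fun hθ i
      have h3 : ψ i = 0 := hi
      rw [AlgHom.comp_apply, h3, map_zero] at h2
      exact h2.symm
    obtain ⟨⟨_, m, rfl⟩, hm⟩ :=
      (IsLocalization.map_eq_zero_iff (Submonoid.powers (Ideal.Quotient.mk b f)) _ _).1 h1
    have h4 : f ^ m * i ∈ b := by
      rw [← Ideal.Quotient.eq_zero_iff_mem, map_mul, map_pow]
      exact hm
    exact (h𝔭.mem_or_mem (hb𝔭 h4)).resolve_left fun h5 => hf𝔭 (h𝔭.mem_of_pow_mem m h5)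
  · exact le_sup_of_le_right (le_of_eq hF2)

/-- stratification by cells -/
theorem strat (h : NG X E) (hc : ∀ j (hj : j < E.M), CF (Cel h hj)) : CF X := by
  intro R _ _ x hx
  have h1 : ∀ j ≤ E.M, CellI R (Ideal.span (vl (mx (h.g R x)) '' E.Z j)) := by
    intro j
    induction j with
    | zero =>
      intro _
      rw [E.ok.ends.1, Set.image_singleton, vl, map_one, Ideal.span_singleton_one]
      exact cellI_top R
    | succ j ih => exact fun hj => step_RF hx h hj (hc j hj) (ih (le_of_lt hj))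
  have h2 := h1 E.M le_rfl
  rwa [E.ok.ends.2, Set.image_empty, Ideal.span_empty] at h2

/-- strata of a product -/
def niCel (h : NG X E) (hj : j < E.M) (W : Fn k) : NI (W.prod (Cel h hj)) (Cel (h.snd W) hj) where
  ap C _ _ x := ⟨((x.1, x.2.1.1), x.2.1.2), x.2.2⟩
  bij C _ _ := ⟨fun x y e => Prod.ext (congrArg (fun z => z.1.1.1) e :)
    (Subtype.ext (Prod.ext (congrArg (fun z => z.1.1.2) e :) (congrArg (fun z => z.1.2) e :))),
    fun y => ⟨(y.1.1.1, ⟨(y.1.1.2, y.1.2), y.2⟩), rfl⟩⟩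
  nat φ x := rfl

theorem sc_strat (h : NG X E) (hc : ∀ j (hj : j < E.M), SC (Cel h hj)) : SC X :=
  fun W h1 h2 => strat (h.snd W) fun j hj => (hc j hj W h1 h2).iso (niCel h hj W)

end Pool.Agent.P.MP_1bf4cb_ag.RG
end
end

-- part Pool.Agent.P.MP_1bf4cb_ag.RH
section

set_option autoImplicit false
set_option maxHeartbeats 400000
set_option linter.unusedSectionVars false
set_option linter.unusedVariables false

open Function Matrix
open scoped TensorProduct

noncomputable section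

namespace Pool.Agent.P.MP_1bf4cb_ag.RG

variable {k : Type} [Field k] {n r : ℕ} {C C' : Type} [CommRing C] [Algebra k C] [CommRing C']
  [Algebra k C'] {E : OB k n r} {X Y : Fn k}

/-- points lift along square-zero extensions -/
def FS (X : Fn k) : Prop :=
  ∀ (C : Type) [CommRing C] [Algebra k C] (I : Ideal C), I ^ 2 = ⊥ →
    Surjective (X.map (Ideal.Quotient.mkₐ k I))

theorem FS.smooth (h : FS X) {R : Type} [CommRing R] [Algebra k R] {x : X.obj R} (hx : Rp X R x) :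
    Algebra.FormallySmooth k R := by
  refine Algebra.FormallySmooth.of_comp_surjective fun B _ _ I hI f => ?_
  obtain ⟨y, hy⟩ := h B I hI (X.map f x)
  obtain ⟨φ, rfl⟩ := hx.ex B y
  exact ⟨φ, hx.ext _ _ _ (by rw [← X.map_comp, hy])⟩

theorem FS.prod (h : FS X) (h' : FS Y) : FS (X.prod Y) :=
  fun C _ _ I hI => (h C I hI).prodMap (h' C I hI)

theorem sol_lift (S : Set (Pn k n)) [Algebra.FormallySmooth k (Pn k n ⧸ Ideal.span S)]
    (I : Ideal C) (hI : I ^ 2 = ⊥) (g : Mx n (C ⧸ I)) (hg : Sol S g) :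
    ∃ g' : Mx n C, Sol S g' ∧ g'.map (Ideal.Quotient.mkₐ k I) = g := by
  have hk0 : Ideal.span S ≤
      RingHom.ker (MvPolynomial.aeval (fun ab => g ab.1 ab.2) : Pn k n →ₐ[k] C ⧸ I) :=
    Ideal.span_le.2 fun t ht => hg t ht
  have hk : ∀ a ∈ Ideal.span S,
      (MvPolynomial.aeval (fun ab => g ab.1 ab.2) : Pn k n →ₐ[k] C ⧸ I) a = 0 := fun a ha => hk0 ha
  obtain ⟨φ, hφ⟩ := Algebra.FormallySmooth.comp_surjective k (Pn k n ⧸ Ideal.span S) I hI
    (Ideal.Quotient.liftₐ _ _ hk)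
  refine ⟨Matrix.of fun a b => φ (Ideal.Quotient.mk _ (MvPolynomial.X (a, b))), fun f hf => ?_, ?_⟩
  · have e : (MvPolynomial.aeval (fun ab : Fin n × Fin n =>
        φ (Ideal.Quotient.mk _ (MvPolynomial.X (ab.1, ab.2)))) : Pn k n →ₐ[k] C) =
        φ.comp (Ideal.Quotient.mkₐ k _) := MvPolynomial.algHom_ext fun v => by simp
    show MvPolynomial.aeval (fun ab : Fin n × Fin n =>
        φ (Ideal.Quotient.mk _ (MvPolynomial.X (ab.1, ab.2)))) f = 0
    rw [e, AlgHom.comp_apply, Ideal.Quotient.mkₐ_eq_mk,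
      Ideal.Quotient.eq_zero_iff_mem.2 (Ideal.subset_span hf), map_zero]
  · ext a b
    have := DFunLike.congr_fun hφ (Ideal.Quotient.mk _ (MvPolynomial.X (a, b)))
    simpa using this

theorem lift_G (I : Ideal C) (hI : I ^ 2 = ⊥) (g : E.Γ (C ⧸ I)) :
    ∃ g' : E.Γ C, mp (Ideal.Quotient.mkₐ k I) g' = g := by
  have := E.ok.smo.1
  obtain ⟨g', h1, h2⟩ := sol_lift E.G I hI (mx g) (mx_sol g)
  exact ⟨mkG g' h1, mx_inj h2⟩

theorem lift_P (I : Ideal C) (hI : I ^ 2 = ⊥) {g : E.Γ (C ⧸ I)} (hg : g ∈ E.PP _) :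
    ∃ g' : E.Γ C, g' ∈ E.PP C ∧ mp (Ideal.Quotient.mkₐ k I) g' = g := by
  have := E.ok.smo.2
  obtain ⟨g', h1, h2⟩ := sol_lift E.Pa I hI (mx g) hg
  exact ⟨mkG g' (sol_P_G h1), h1, mx_inj h2⟩

theorem fs_fP : FS E.fP := fun C _ _ I hI g => by
  obtain ⟨g', h1, h2⟩ := lift_P I hI (g := g.1) g.2
  exact ⟨⟨g', h1⟩, Subtype.ext h2⟩

variable [Fintype k]

/-- the Frobenius of `k` -/
abbrev fro (k : Type) [Field k] [Fintype k] (C : Type) [CommRing C] [Algebra k C] : C →ₐ[k] C :=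
  FiniteField.frobeniusAlgHom k C

theorem fro_apply (x : C) : fro k C x = x ^ Fintype.card k := rfl

theorem fro_nat (φ : C →ₐ[k] C') : φ.comp (fro k C) = (fro k C').comp φ :=
  AlgHom.ext fun x => map_pow φ x _

theorem flat_fro_quot (m : ℕ) (J : Ideal (MvPolynomial (Fin m) k))
    [Algebra.FormallySmooth k (MvPolynomial (Fin m) k ⧸ J)] :
    (fro k (MvPolynomial (Fin m) k ⧸ J)).toRingHom.Flat := by
  set S := MvPolynomial (Fin m) k
  let φ : S →+* S := (fro k S : S →+* S)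
  have hφ : φ.Flat := by
    have h := flat_pexp k (Fin m) (fun _ => Fintype.card k) fun _ => Fintype.card_pos
    have e : (MvPolynomial.aeval (R := k) fun v : Fin m =>
        (MvPolynomial.X v : S) ^ Fintype.card k) = fro k S :=
      MvPolynomial.algHom_ext fun v => by rw [MvPolynomial.aeval_X]; rfl
    rw [e] at h
    exact h
  have hle : J.map φ ≤ J := Ideal.map_le_iff_le_comap.2 fun x hx =>
    J.pow_mem_of_mem hx _ Fintype.card_pos
  let π : (S ⧸ J.map φ) →ₐ[k] S ⧸ J := Ideal.Quotient.factorₐ k hle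
  have hπ : Surjective π := Ideal.Quotient.factor_surjective hle
  have hker : ∀ y, π y = 0 → fro k _ y = 0 := by
    intro y hy
    obtain ⟨t, rfl⟩ := Ideal.Quotient.mk_surjective y
    have ht : t ∈ J := Ideal.Quotient.eq_zero_iff_mem.1 hy
    rw [fro_apply, ← map_pow]
    exact Ideal.Quotient.eq_zero_iff_mem.2 (Ideal.mem_map_of_mem φ ht)
  have hnil : IsNilpotent (RingHom.ker (π : (S ⧸ J.map φ) →+* S ⧸ J)) :=
    (Ideal.FG.isNilpotent_iff_le_nilradical (IsNoetherian.noetherian _)).2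
      fun y hy => ⟨_, hker y hy⟩
  let g := Algebra.FormallySmooth.liftOfSurjective (AlgHom.id k (S ⧸ J)) π hπ hnil
  have hg : ∀ x, π (g x) = x := fun x => DFunLike.congr_fun
    (Algebra.FormallySmooth.comp_liftOfSurjective (AlgHom.id k (S ⧸ J)) π hπ hnil) x
  refine flat_of_retract_YA _ (g : (S ⧸ J) →+* _) (π : _ →+* S ⧸ J) _ (flat_quot φ hφ J)
    (RingHom.ext hg) (Ideal.Quotient.ringHom_ext (RingHom.ext fun s => rfl))
    (Ideal.Quotient.ringHom_ext (RingHom.ext fun s => ?_))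
  have h1 := hker (g (Ideal.Quotient.mk J s) - Ideal.Quotient.mk _ s) (by
    rw [map_sub, hg]
    exact sub_self _)
  rw [map_sub, sub_eq_zero] at h1
  exact (map_pow g _ _).trans h1

theorem flat_fro (R : Type) [CommRing R] [Algebra k R] [Algebra.FiniteType k R]
    [Algebra.FormallySmooth k R] : (fro k R : R →+* R).Flat := by
  obtain ⟨m, f, hf⟩ := Algebra.FiniteType.iff_quotient_mvPolynomial''.1
    (inferInstance : Algebra.FiniteType k R)
  let e := Ideal.quotientKerAlgEquivOfSurjective hf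
  have : Algebra.FormallySmooth k (MvPolynomial (Fin m) k ⧸ RingHom.ker f) :=
    Algebra.FormallySmooth.of_equiv e.symm
  have h := (flat_fro_quot m (RingHom.ker f)).comp
    (RingHom.Flat.of_bijective (f := (e : _ →+* R)) e.bijective)
  have h2 : (e : _ →+* R).comp (fro k (MvPolynomial (Fin m) k ⧸ RingHom.ker f)).toRingHom =
      (fro k R : R →+* R).comp (e : _ →+* R) := RingHom.ext fun x => map_pow e x _
  rw [h2] at h
  exact (RingHom.Flat.comp_iff_of_bijective_right e.bijective).1 h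

theorem reduced_of_smooth (R : Type) [CommRing R] [Algebra k R] [Algebra.FiniteType k R]
    [Algebra.FormallySmooth k R] : IsReduced R := by
  have h : Injective (fro k R : R →+* R) := by
    refine RingHom.FaithfullyFlat.injective
      (RingHom.FaithfullyFlat.iff_flat_and_comap_surjective.2 ⟨flat_fro R, fun 𝔭 => ⟨𝔭, ?_⟩⟩)
    ext x
    exact 𝔭.2.pow_mem_iff_mem _ Fintype.card_pos
  refine (isReduced_iff_pow_one_lt (Fintype.card k) Fintype.one_lt_card).2 fun x hx => h ?_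
  rw [map_zero]
  exact hx

end Pool.Agent.P.MP_1bf4cb_ag.RG
end
end

-- part Pool.Agent.P.MP_1bf4cb_ag.RI
section

set_option autoImplicit false
set_option maxHeartbeats 400000
set_option linter.unusedSectionVars false
set_option linter.unusedVariables false

open Function Matrix
open scoped TensorProduct

noncomputable section

namespace Pool.Agent.P.MP_1bf4cb_ag.RG

variable {k : Type} [Field k] {n r : ℕ} {C C' : Type} [CommRing C] [Algebra k C] [CommRing C']
  [Algebra k C'] {E : OB k n r} {X Y : Fn k} {j : ℕ}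

theorem sc_fG : SC E.fG := by
  refine sc_strat (nId E) fun j hj => sc_fC.iso
    ⟨fun C _ _ y => ⟨(cel hj y, y), rfl⟩, fun C _ _ => ⟨fun y y' e => (congrArg (fun z => z.1.2) e :),
      fun z => ⟨z.1.2, Subtype.ext (Prod.ext z.2.symm rfl)⟩⟩, fun φ y => ?_⟩
  exact Subtype.ext (Prod.ext (mp_cel hj φ y).symm rfl)

/-- the group element underlying a point of `P` -/
def gP (p : E.fP.obj C) : E.Γ C := p.1

theorem gP_mem (p : E.fP.obj C) : gP p ∈ E.PP C := p.2

theorem rt_PP [Nontrivial C] {x : E.Γ k} (h : rt C x ∈ E.PP C) : x ∈ E.PP k := fun f hf =>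
  (algebraMap k C).injective (((vl_map (Algebra.ofId k C) _ f).symm.trans (h f hf)).trans
    (map_zero _).symm)

theorem sc_fP : SC E.fP := by
  refine sc_strat ⟨fun C _ _ p => gP p, fun φ p => rfl⟩ fun j hj => ?_
  by_cases h : ww hj ∈ E.PP k
  · refine sc_fC.iso ⟨fun C _ _ y => ⟨(⟨cel hj y, (mul_mem (mul_mem (BB_le (cc_BB hj y.1))
      (mp_PP _ h)) (BB_le (gB_mem y.2)) : cel hj y ∈ E.PP C)⟩, y), rfl⟩,
      fun C _ _ => ⟨fun y y' e => (congrArg (fun z => z.1.2) e :),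
      fun z => ⟨z.1.2, Subtype.ext (Prod.ext (Subtype.ext z.2.symm) rfl)⟩⟩, fun φ y => ?_⟩
    exact Subtype.ext (Prod.ext (Subtype.ext (mp_cel hj φ y).symm) rfl)
  · refine sc_empty fun C _ _ z => ?_
    by_contra hn
    have : Nontrivial C := not_subsingleton_iff_nontrivial.1 hn
    have h1 : gP z.1.1 = cel hj z.1.2 := z.2
    have h2 := gP_mem z.1.1
    rw [h1, cel, mul_mem_cancel_right (BB_le (gB_mem _)), mul_mem_cancel_left (BB_le (cc_BB hj _))]
      at h2
    exact h (rt_PP h2)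

/-- the transporter -/
def fV (x y : E.Γ k) : Fn k :=
  E.fG.sub ((cS E.Pa (nId E)).and (cS E.Pa ⟨fun C _ _ (v : E.Γ C) => (rt C x)⁻¹ * v * rt C y,
    fun φ v => by rw [map_mul, map_mul, map_inv, mp_rt, mp_rt]; rfl⟩))

theorem ex_fV (x y : E.Γ k) : Ex (fV x y) := ex_fG.sub ((cl_cS _ _).and (cl_cS _ _))

/-- the group element underlying a point of the transporter -/
def gV {x y : E.Γ k} (v : (fV x y).obj C) : E.Γ C := v.1

theorem gV_mem {x y : E.Γ k} (v : (fV x y).obj C) :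
    gV v ∈ E.PP C ∧ (rt C x)⁻¹ * gV v * rt C y ∈ E.PP C := v.2

/-- a point of the transporter -/
def mkV {x y : E.Γ k} (v : E.Γ C) (h1 : v ∈ E.PP C) (h2 : (rt C x)⁻¹ * v * rt C y ∈ E.PP C) :
    (fV x y).obj C := ⟨v, h1, h2⟩

/-- translation of transporters -/
def niV {x y p q : E.Γ k} (hp : p ∈ E.PP k) (hq : q ∈ E.PP k) (e : x * q = p * y) :
    NI (fV x x) (fV x y) where
  ap C _ _ v := mkV (gV v * rt C p) (mul_mem (gV_mem v).1 (mp_PP _ hp)) (by
    rw [mul_assoc, mul_assoc, ← map_mul, ← e, map_mul, ← mul_assoc, ← mul_assoc]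
    exact mul_mem (gV_mem v).2 (mp_PP _ hq))
  bij C _ _ := by
    refine ⟨fun v v' h => Subtype.ext (mul_right_cancel (b := rt C p)
      (congrArg gV h : gV v * rt C p = gV v' * rt C p)), fun v => ?_⟩
    refine ⟨mkV (gV v * (rt C p)⁻¹) (mul_mem (gV_mem v).1 (inv_mem (mp_PP _ hp))) ?_,
      Subtype.ext (inv_mul_cancel_right (gV v) (rt C p))⟩
    have h1 : rt C x * rt C q = rt C p * rt C y := by rw [← map_mul, e, map_mul]
    have h2 : (rt C x)⁻¹ * (gV v * (rt C p)⁻¹) * rt C x =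
        (rt C x)⁻¹ * gV v * rt C y * (rt C q)⁻¹ := by
      rw [eq_mul_inv_iff_mul_eq, mul_assoc, h1]
      group
    rw [h2]
    exact mul_mem (gV_mem v).2 (inv_mem (mp_PP _ hq))
  nat {C C'} _ _ _ _ φ v := by
    refine Subtype.ext ?_
    show mp φ (gV v) * rt C' p = mp φ (gV v * rt C p)
    rw [map_mul, mp_rt]

/-- the double coset map -/
def nM (x : E.Γ k) : NG (E.fP.prod E.fP) E :=
  ⟨fun C _ _ z => (gP z.1)⁻¹ * rt C x * gP z.2, fun φ z => by
    rw [map_mul, map_mul, map_inv, mp_rt]; rfl⟩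

/-- the open part of `P × P` over a cell -/
def niO (x : E.Γ k) (hj : j < E.M) {f : Pn k n} (hf : f ∈ E.Z j)
    (h : ∀ (C : Type) [CommRing C] [Algebra k C] (z : (E.fP.prod E.fP).obj C),
      Sol (E.Z (j + 1)) (mx ((nM x).g C z))) :
    NI ((fV x (ww hj)).prod ((E.fC j).loc (nv (nC hj) f))) ((E.fP.prod E.fP).loc (nv (nM x) f)) where
  ap C _ _ z := ⟨(⟨gV z.1 * (cc hj z.2.1.1)⁻¹,
      (mul_mem (gV_mem z.1).1 (inv_mem (BB_le (cc_BB hj _))) : _ ∈ E.PP C)⟩,
    ⟨(rt C x)⁻¹ * gV z.1 * rt C (ww hj) * gB z.2.1.2,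
      (mul_mem (gV_mem z.1).2 (BB_le (gB_mem _)) : _ ∈ E.PP C)⟩), by
    have e : (gV z.1 * (cc hj z.2.1.1)⁻¹)⁻¹ * rt C x *
        ((rt C x)⁻¹ * gV z.1 * rt C (ww hj) * gB z.2.1.2) = cel hj z.2.1 := by
      unfold cel
      group
    show IsUnit (vl (mx ((gV z.1 * (cc hj z.2.1.1)⁻¹)⁻¹ * rt C x *
        ((rt C x)⁻¹ * gV z.1 * rt C (ww hj) * gB z.2.1.2))) f)
    rw [e]
    exact z.2.2⟩
  bij C _ _ := by
    constructor
    · intro z z' e
      have e1 : gV z.1 * (cc hj z.2.1.1)⁻¹ = gV z'.1 * (cc hj z'.2.1.1)⁻¹ :=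
        (congrArg (fun w => gP w.1.1) e :)
      have e2 : (rt C x)⁻¹ * gV z.1 * rt C (ww hj) * gB z.2.1.2 =
          (rt C x)⁻¹ * gV z'.1 * rt C (ww hj) * gB z'.2.1.2 := (congrArg (fun w => gP w.1.2) e :)
      have e3 : z.2.1 = z'.2.1 := by
        refine cel_inj hj ?_
        calc cel hj z.2.1 = (gV z.1 * (cc hj z.2.1.1)⁻¹)⁻¹ * rt C x *
              ((rt C x)⁻¹ * gV z.1 * rt C (ww hj) * gB z.2.1.2) := by unfold cel; group
          _ = cel hj z'.2.1 := by rw [e1, e2]; unfold cel; group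
      rw [e3] at e1
      have e4 : gV z.1 = gV z'.1 := mul_right_cancel e1
      exact Prod.ext (Subtype.ext e4) (Subtype.ext e3)
    · intro z
      have hu : IsUnit (vl (mx ((nM x).g C z.1)) f) := z.2
      obtain ⟨y, hy⟩ := cel_surj hj (h C z.1)
        (Ideal.eq_top_of_isUnit_mem _ (Ideal.subset_span ⟨f, hf, rfl⟩) hu)
      have hy' : cc hj y.1 * rt C (ww hj) * gB y.2 = (gP z.1.1)⁻¹ * rt C x * gP z.1.2 := hy
      have e : (rt C x)⁻¹ * (gP z.1.1 * cc hj y.1) * rt C (ww hj) * gB y.2 = gP z.1.2 := by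
        calc _ = (rt C x)⁻¹ * gP z.1.1 * (cc hj y.1 * rt C (ww hj) * gB y.2) := by group
          _ = _ := by rw [hy']; group
      refine ⟨(mkV (gP z.1.1 * cc hj y.1) (mul_mem (gP_mem _) (BB_le (cc_BB hj _))) ?_,
        ⟨y, show IsUnit (vl (mx (cel hj y)) f) by rw [hy]; exact hu⟩),
        Subtype.ext (Prod.ext (Subtype.ext (mul_inv_cancel_right (gP z.1.1) _)) (Subtype.ext e))⟩
      rw [← mul_mem_cancel_right (BB_le (gB_mem y.2)), e]
      exact gP_mem _
  nat {C C'} _ _ _ _ φ z := by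
    refine Subtype.ext (Prod.ext (Subtype.ext ?_) (Subtype.ext ?_))
    · show mp φ (gV z.1) * (cc hj fun i => φ (z.2.1.1 i))⁻¹ = mp φ (gV z.1 * (cc hj z.2.1.1)⁻¹)
      rw [map_mul, map_inv, mp_cc]
    · show (rt C' x)⁻¹ * mp φ (gV z.1) * rt C' (ww hj) * mp φ (gB z.2.1.2) =
        mp φ ((rt C x)⁻¹ * gV z.1 * rt C (ww hj) * gB z.2.1.2)
      rw [map_mul, map_mul, map_mul, map_inv, mp_rt, mp_rt]

/-- the base point of a cell -/
def y0 (E : OB k n r) (j : ℕ) : (E.fC j).obj k := (fun _ => 0, ⟨(1 : E.Γ k), (E.BB k).one_mem⟩)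

theorem ex_unit (hj : j < E.M) : ∃ f ∈ E.Z j, IsUnit (vl (mx (cel hj (y0 E j))) f) := by
  by_contra hn
  push Not at hn
  have h := (cel_sol hj (y0 E j)).2
  have h1 : Ideal.span (vl (mx (cel hj (y0 E j))) '' E.Z j) = ⊥ := Ideal.span_eq_bot.2 (by
    rintro _ ⟨f, hf, rfl⟩
    by_contra h0
    exact hn f hf (IsUnit.mk0 _ h0))
  exact bot_ne_top (h1.symm.trans h)

variable [Fintype k]

theorem sc_fV_self (x : E.Γ k) : SC (fV x x) := by
  classical
  obtain ⟨A, _, _, z, hz⟩ : Ex (E.fP.prod E.fP) := ex_fP.prod ex_fP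
  have := hz.ft
  have := (fs_fP.prod fs_fP).smooth hz
  have := reduced_of_smooth (k := k) A
  obtain ⟨φ₀, -⟩ := hz.ex k (⟨(1 : E.Γ k), (E.PP k).one_mem⟩, ⟨(1 : E.Γ k), (E.PP k).one_mem⟩)
  have : Nontrivial A := φ₀.toRingHom.domain_nontrivial
  have hM : Sol (E.Z E.M) (mx ((nM x).g A z)) := by
    rw [E.ok.ends.2]
    exact fun f hf => hf.elim
  have hex : ∃ i, Sol (E.Z i) (mx ((nM x).g A z)) := ⟨_, hM⟩
  have h0 : Nat.find hex ≠ 0 := fun h => by
    have h1 := Nat.find_spec hex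
    rw [h, E.ok.ends.1] at h1
    have h2 := h1 1 rfl
    rw [vl, map_one] at h2
    exact one_ne_zero h2
  obtain ⟨j, hj0⟩ := Nat.exists_eq_succ_of_ne_zero h0
  have hj : j < E.M := by
    have := Nat.find_min' hex hM
    omega
  have h1 : ∀ (C : Type) [CommRing C] [Algebra k C] (w : (E.fP.prod E.fP).obj C),
      Sol (E.Z (j + 1)) (mx ((nM x).g C w)) := fun C _ _ w => by
    obtain ⟨φ, rfl⟩ := hz.ex C w
    have h2 := Nat.find_spec hex
    rw [hj0] at h2
    rw [(nM x).nat]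
    exact h2.map φ
  have h2 : ¬ Sol (E.Z j) (mx ((nM x).g A z)) := Nat.find_min hex (by omega)
  unfold Sol at h2
  push Not at h2
  obtain ⟨f', hf', hne⟩ := h2
  have hL := rp_loc hz (nv (nM x) f')
  have : Nontrivial (Localization.Away ((nv (nM x) f').f A z)) := by
    rw [← not_subsingleton_iff_nontrivial,
      IsLocalization.subsingleton_iff (M := Submonoid.powers ((nv (nM x) f').f A z))]
    rintro ⟨m, hm⟩
    exact hne (IsNilpotent.eq_zero ⟨m, hm⟩)
  obtain ⟨w, -⟩ := ((niO x hj hf' h1).bij _).2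
    ⟨_, show ((nv (nM x) f').f (Localization.Away ((nv (nM x) f').f A z))
      ((E.fP.prod E.fP).map (IsScalarTower.toAlgHom k A _) z) |> IsUnit) by
        rw [NF.nat]
        exact IsLocalization.Away.algebraMap_isUnit _⟩
  obtain ⟨p, q, hp, hq, e⟩ := dbl_pt x (ww hj) (gV_mem w.1).1 (gV_mem w.1).2 (by group)
  obtain ⟨f, hf, hu⟩ := ex_unit hj
  have h3 := ((sc_fP.prod ex_fP sc_fP).loc (ex_fP.prod ex_fP) (nv (nM x) f)).iso
    (niO x hj hf h1).symm
  refine SC.iso (fun W hW hW' => ?_) (niV hp hq e).symm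
  exact ((po_fC (y0 E j)).loc (nv (nC hj) f) hu).back ((h3 W hW hW').iso (NI.assoc _ _ _).symm)

theorem sc_fV (x y : E.Γ k) : SC (fV x y) := by
  by_cases h : ∀ (C : Type) [CommRing C] [Algebra k C], (fV x y).obj C → Subsingleton C
  · exact sc_empty h
  · push Not at h
    obtain ⟨C, _, _, v, hC⟩ := h
    obtain ⟨p, q, hp, hq, e⟩ := dbl_pt x y (gV_mem v).1 (gV_mem v).2 (by group)
    exact (sc_fV_self x).iso (niV hp hq e)

end Pool.Agent.P.MP_1bf4cb_ag.RG
end
end

-- part Pool.Agent.P.MP_1bf4cb_ag.RJ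
section

set_option autoImplicit false
set_option maxHeartbeats 400000
set_option linter.unusedSectionVars false
set_option linter.unusedVariables false

open Function Matrix
open scoped TensorProduct

noncomputable section

namespace Pool.Agent.P.MP_1bf4cb_ag.RG

variable {k : Type} [Field k] {n r : ℕ} {C C' : Type} [CommRing C] [Algebra k C] [CommRing C']
  [Algebra k C'] {E : OB k n r} {X Y : Fn k} {j : ℕ}

theorem flat_of_lift {U L : Type} [CommRing U] [Algebra k U] [CommRing L] [Algebra k L]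
    {x : X.obj U} {y : Y.obj L} (hx : Rp X U x) (hy : Rp Y L y)
    (Λ : ∀ (C : Type) [CommRing C] [Algebra k C], Y.obj C → X.obj C)
    (hΛ : ∀ {C C' : Type} [CommRing C] [Algebra k C] [CommRing C'] [Algebra k C'] (φ : C →ₐ[k] C')
      (z : Y.obj C), Λ C' (Y.map φ z) = X.map φ (Λ C z))
    (hl : ∀ (C : Type) [CommRing C] [Algebra k C] (I : Ideal C), I ^ 2 = ⊥ →
      ∀ (u : X.obj C) (z : Y.obj (C ⧸ I)), X.map (Ideal.Quotient.mkₐ k I) u = Λ _ z →
        ∃ z', Λ C z' = u ∧ Y.map (Ideal.Quotient.mkₐ k I) z' = z)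
    (θ : U →ₐ[k] L) (hθ : X.map θ x = Λ L y) : (θ : U →+* L).Flat := by
  let : Algebra U L := (θ : U →+* L).toAlgebra
  have : IsScalarTower k U L := IsScalarTower.of_algebraMap_eq fun c => (θ.commutes c).symm
  have := hy.ft
  have hUL : Algebra.FiniteType U L := Algebra.FiniteType.of_restrictScalars_finiteType k U L
  have := hx.noeth
  have hsm : Algebra.FormallySmooth U L := by
    refine Algebra.FormallySmooth.of_comp_surjective fun B _ _ I hI f => ?_
    let _ : Algebra k B := ((algebraMap U B).comp (algebraMap k U)).toAlgebra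
    let β : U →ₐ[k] B := { algebraMap U B with commutes' := fun c => rfl }
    let f' : L →ₐ[k] B ⧸ I := { (f : L →+* B ⧸ I) with
      commutes' := fun c =>
        (congrArg f (IsScalarTower.algebraMap_apply k U L c)).trans (f.commutes _) }
    have e1 : f'.comp θ = (Ideal.Quotient.mkₐ k I).comp β := AlgHom.ext fun u => f.commutes u
    obtain ⟨z', h1, h2⟩ := hl B I hI (X.map β x) (Y.map f' y) (by
      rw [hΛ, ← hθ, X.map_comp, X.map_comp, e1])
    obtain ⟨φ, rfl⟩ := hy.ex B z'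
    have e2 : φ.comp θ = β := hx.ext _ _ _ (by rw [← X.map_comp, hθ, ← hΛ, h1])
    have e3 : (Ideal.Quotient.mkₐ k I).comp φ = f' := hy.ext _ _ _ (by rw [← Y.map_comp, h2])
    refine ⟨{ (φ : L →+* B) with commutes' := fun u => DFunLike.congr_fun e2 u }, ?_⟩
    ext l
    exact DFunLike.congr_fun e3 l
  obtain ⟨m, f, hf⟩ := (Algebra.FiniteType.iff_quotient_mvPolynomial'' (R := U) (S := L)).mp hUL
  exact Algebra.FormallySmooth.flat_of_algHom_of_isNoetherianRing f hf

/-- the relative position in the universal family -/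
def nU (E : OB k n r) (s : Bool) : NG (E.pw (Option Bool)) E :=
  ⟨fun C _ _ (x : Option Bool → E.Γ C) => (x (some s))⁻¹ * x none * E.FF C (x (some s)),
    fun φ x => by rw [map_mul, map_mul, map_inv, mp_FF]; rfl⟩

/-- the condition of the universal family -/
def cU (E : OB k n r) : Cnd (E.pw (Option Bool)) :=
  (cS E.Pa (nU E false)).and (cS E.Pa (nU E true))

/-- the universal family -/
def OB.fU (E : OB k n r) : Fn k := (E.pw (Option Bool)).sub (cU E)

/-- the frames of a point of the universal family -/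
def gU (x : E.fU.obj C) : Option Bool → E.Γ C := x.1

theorem gU_mem (x : E.fU.obj C) (s : Bool) :
    (gU x (some s))⁻¹ * gU x none * E.FF C (gU x (some s)) ∈ E.PP C := by
  cases s
  · exact x.2.1
  · exact x.2.2

/-- a point of the universal family -/
def mkU (g : Bool → E.Γ C) (γ : E.Γ C) (h : ∀ s, (g s)⁻¹ * γ * E.FF C (g s) ∈ E.PP C) :
    E.fU.obj C := ⟨fun o => o.elim γ g, h false, h true⟩

theorem ext_U {x y : E.fU.obj C} (h1 : ∀ s, gU x (some s) = gU y (some s))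
    (h2 : gU x none = gU y none) : x = y :=
  Subtype.ext (funext fun o => by
    cases o with
    | none => exact h2
    | some s => exact h1 s)

/-- the relative position of the two frames -/
def nH (E : OB k n r) : NG E.fU E :=
  ⟨fun C _ _ x => (gU x (some false))⁻¹ * gU x (some true),
    fun φ x => by rw [map_mul, map_inv]; rfl⟩

/-- the group element underlying a point of `G` -/
def gG (g : E.fG.obj C) : E.Γ C := g

theorem rt_FF (x : E.Γ k) : rt C (E.FF k x) = E.FF C (rt C x) := mp_FF _ x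

/-- the strata of the universal family -/
def niU (hj : j < E.M) :
    NI ((E.fG.prod (E.fC j)).prod (fV (ww hj) (E.FF k (ww hj)))) (Cel (nH E) hj) where
  ap C _ _ z := ⟨(mkU (fun s => cond s (gG z.1.1 * rt C (ww hj) * gB z.1.2.2)
      (gG z.1.1 * (cc hj z.1.2.1)⁻¹)) (gG z.1.1 * gV z.2 * (E.FF C (gG z.1.1))⁻¹) (fun s => by
        cases s
        · have e : (gG z.1.1 * (cc hj z.1.2.1)⁻¹)⁻¹ * (gG z.1.1 * gV z.2 * (E.FF C (gG z.1.1))⁻¹) *
              E.FF C (gG z.1.1 * (cc hj z.1.2.1)⁻¹) =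
              cc hj z.1.2.1 * gV z.2 * (E.FF C (cc hj z.1.2.1))⁻¹ := by
            rw [map_mul, map_inv]
            group
          exact e ▸ mul_mem (mul_mem (BB_le (cc_BB hj _)) (gV_mem z.2).1)
            (inv_mem (BB_le (FF_BB (cc_BB hj _))))
        · have e : (gG z.1.1 * rt C (ww hj) * gB z.1.2.2)⁻¹ *
              (gG z.1.1 * gV z.2 * (E.FF C (gG z.1.1))⁻¹) *
              E.FF C (gG z.1.1 * rt C (ww hj) * gB z.1.2.2) =
              (gB z.1.2.2)⁻¹ * ((rt C (ww hj))⁻¹ * gV z.2 * rt C (E.FF k (ww hj))) *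
                E.FF C (gB z.1.2.2) := by
            rw [map_mul, map_mul, rt_FF]
            group
          exact e ▸ mul_mem (mul_mem (inv_mem (BB_le (gB_mem _))) (gV_mem z.2).2)
            (BB_le (FF_BB (gB_mem _)))), z.1.2), by
    show (gG z.1.1 * (cc hj z.1.2.1)⁻¹)⁻¹ * (gG z.1.1 * rt C (ww hj) * gB z.1.2.2) = cel hj z.1.2
    unfold cel
    group⟩
  bij C _ _ := by
    constructor
    · intro z z' e
      have e1 : z.1.2 = z'.1.2 := (congrArg (fun w => w.1.2) e :)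
      have e2 : gG z.1.1 * (cc hj z.1.2.1)⁻¹ = gG z'.1.1 * (cc hj z'.1.2.1)⁻¹ :=
        (congrArg (fun w => gU w.1.1 (some false)) e :)
      have e3 : gG z.1.1 * gV z.2 * (E.FF C (gG z.1.1))⁻¹ =
          gG z'.1.1 * gV z'.2 * (E.FF C (gG z'.1.1))⁻¹ := (congrArg (fun w => gU w.1.1 none) e :)
      rw [e1] at e2
      have e4 : gG z.1.1 = gG z'.1.1 := mul_right_cancel e2
      rw [e4] at e3
      have e5 : gV z.2 = gV z'.2 := mul_left_cancel (mul_right_cancel e3)
      exact Prod.ext (Prod.ext e4 e1) (Subtype.ext e5)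
    · intro w
      have e : (gU w.1.1 (some false))⁻¹ * gU w.1.1 (some true) =
        cc hj w.1.2.1 * rt C (ww hj) * gB w.1.2.2 := w.2
      have e1 : gU w.1.1 (some false) * cc hj w.1.2.1 * rt C (ww hj) * gB w.1.2.2 =
          gU w.1.1 (some true) := by
        calc _ = gU w.1.1 (some false) * (cc hj w.1.2.1 * rt C (ww hj) * gB w.1.2.2) := by group
          _ = _ := by rw [← e]; group
      refine ⟨((gU w.1.1 (some false) * cc hj w.1.2.1, w.1.2),
        mkV ((gU w.1.1 (some false) * cc hj w.1.2.1)⁻¹ * gU w.1.1 none *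
          E.FF C (gU w.1.1 (some false) * cc hj w.1.2.1)) ?_ ?_),
        Subtype.ext (Prod.ext (ext_U (fun s => ?_) ?_) rfl)⟩
      · have e2 : (gU w.1.1 (some false) * cc hj w.1.2.1)⁻¹ * gU w.1.1 none *
            E.FF C (gU w.1.1 (some false) * cc hj w.1.2.1) = (cc hj w.1.2.1)⁻¹ *
            ((gU w.1.1 (some false))⁻¹ * gU w.1.1 none * E.FF C (gU w.1.1 (some false))) *
            E.FF C (cc hj w.1.2.1) := by
          rw [map_mul]
          group
        rw [e2]
        exact mul_mem (mul_mem (inv_mem (BB_le (cc_BB hj _))) (gU_mem _ _))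
          (BB_le (FF_BB (cc_BB hj _)))
      · have e2 : (rt C (ww hj))⁻¹ * ((gU w.1.1 (some false) * cc hj w.1.2.1)⁻¹ * gU w.1.1 none *
            E.FF C (gU w.1.1 (some false) * cc hj w.1.2.1)) * rt C (E.FF k (ww hj)) = gB w.1.2.2 *
            ((gU w.1.1 (some true))⁻¹ * gU w.1.1 none * E.FF C (gU w.1.1 (some true))) *
            (E.FF C (gB w.1.2.2))⁻¹ := by
          rw [← e1, rt_FF]
          simp only [map_mul]
          group
        rw [e2]
        exact mul_mem (mul_mem (BB_le (gB_mem _)) (gU_mem _ _)) (inv_mem (BB_le (FF_BB (gB_mem _))))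
      · cases s
        · exact mul_inv_cancel_right (gU w.1.1 (some false)) _
        · exact e1
      · show gU w.1.1 (some false) * cc hj w.1.2.1 * ((gU w.1.1 (some false) * cc hj w.1.2.1)⁻¹ *
          gU w.1.1 none * E.FF C (gU w.1.1 (some false) * cc hj w.1.2.1)) *
          (E.FF C (gU w.1.1 (some false) * cc hj w.1.2.1))⁻¹ = gU w.1.1 none
        group
  nat {C C'} _ _ _ _ φ z := by
    refine Subtype.ext (Prod.ext (ext_U (fun s => ?_) ?_) rfl)
    · cases s
      · show mp φ (gG z.1.1) * (cc hj fun i => φ (z.1.2.1 i))⁻¹ =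
          mp φ (gG z.1.1 * (cc hj z.1.2.1)⁻¹)
        rw [map_mul, map_inv, mp_cc]
      · show mp φ (gG z.1.1) * rt C' (ww hj) * mp φ (gB z.1.2.2) =
          mp φ (gG z.1.1 * rt C (ww hj) * gB z.1.2.2)
        rw [map_mul, map_mul, mp_rt]
    · show mp φ (gG z.1.1) * mp φ (gV z.2) * (E.FF C' (mp φ (gG z.1.1)))⁻¹ =
        mp φ (gG z.1.1 * gV z.2 * (E.FF C (gG z.1.1))⁻¹)
      rw [map_mul, map_mul, map_inv, mp_FF]

variable [Fintype k]

theorem cf_fU : CF E.fU := strat (nH E) fun j hj =>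
  (((sc_fG.prod ex_fG sc_fC).prod (ex_fG.prod ex_fC) (sc_fV _ _)).iso (niU hj)).cf

theorem fro_pow_apply (e : ℕ) (x : C) : (fro k C ^ e) x = x ^ Fintype.card k ^ e := by
  induction e generalizing x with
  | zero => simp
  | succ e ih => rw [pow_succ, AlgHom.mul_apply, ih, fro_apply, ← pow_mul, ← pow_succ']

theorem FF_iter : ∃ ρ e : ℕ, 0 < e ∧ ∀ (C : Type) [CommRing C] [Algebra k C] (g : E.Γ C),
    (E.FF C)^[ρ] g = mp (fro k C ^ e) g := by
  obtain ⟨ρ, e, he, h⟩ := E.ok.pow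
  refine ⟨ρ, e, he, fun C _ _ g => mx_inj ?_⟩
  have h1 : ∀ m, mx ((E.FF C)^[m] g) = E.fr^[m] (mx g) := fun m => by
    induction m with
    | zero => rfl
    | succ m ih => rw [iterate_succ_apply', iterate_succ_apply', mx_FF, ih]
  rw [h1, h C _ (mx_sol g), Nat.card_eq_fintype_card]
  ext a b
  exact (fro_pow_apply e _).symm

theorem lang_fix (I : Ideal C) (hI : I ^ 2 = ⊥) (a b : E.Γ C) (g : E.Γ (C ⧸ I))
    (h : mp (Ideal.Quotient.mkₐ k I) a * E.FF _ g * mp (Ideal.Quotient.mkₐ k I) b = g) :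
    ∃ g' : E.Γ C, a * E.FF C g' * b = g' ∧ mp (Ideal.Quotient.mkₐ k I) g' = g := by
  obtain ⟨ρ, e, he, hρ⟩ := FF_iter (E := E)
  obtain ⟨g0, h0⟩ := lift_G I hI g
  let Φ : E.Γ C → E.Γ C := fun z => a * E.FF C z * b
  have h1 : ∀ z, mp (Ideal.Quotient.mkₐ k I) z = g → mp (Ideal.Quotient.mkₐ k I) (Φ z) = g :=
    fun z hz => by
      show mp _ (a * E.FF C z * b) = g
      rw [map_mul, map_mul, mp_FF, hz, h]
  have h2 : ∀ m, mp (Ideal.Quotient.mkₐ k I) (Φ^[m] g0) = g := fun m => by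
    induction m with
    | zero => exact h0
    | succ m ih => rw [iterate_succ_apply']; exact h1 _ ih
  have h3 : ∀ m, ∃ A B : E.Γ C, ∀ z, Φ^[m] z = A * (E.FF C)^[m] z * B := fun m => by
    induction m with
    | zero => exact ⟨1, 1, fun z => by simp⟩
    | succ m ih =>
      obtain ⟨A, B, ih⟩ := ih
      refine ⟨a * E.FF C A, E.FF C B * b, fun z => ?_⟩
      rw [iterate_succ_apply', iterate_succ_apply', ih]
      show a * E.FF C _ * b = _
      rw [map_mul, map_mul]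
      group
  have h4 : mp (fro k C ^ e) (Φ g0) = mp (fro k C ^ e) g0 := by
    refine mx_inj ?_
    ext s t
    have h5 : mx (Φ g0) s t - mx g0 s t ∈ I := Ideal.Quotient.eq.1
      (congrFun (congrFun (congrArg mx ((h1 g0 h0).trans h0.symm)) s) t)
    have h6 : (fro k C ^ e) (mx (Φ g0) s t - mx g0 s t) = 0 := by
      rw [fro_pow_apply]
      have h7 : 2 ≤ Fintype.card k ^ e := Nat.one_lt_pow he.ne' Fintype.one_lt_card
      have h8 := Ideal.pow_le_pow_right h7 (Ideal.pow_mem_pow h5 _)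
      rwa [hI, Ideal.mem_bot] at h8
    rw [map_sub, sub_eq_zero] at h6
    exact h6
  refine ⟨Φ^[ρ] g0, ?_, h2 ρ⟩
  obtain ⟨A, B, h5⟩ := h3 ρ
  calc _ = Φ (Φ^[ρ] g0) := rfl
    _ = Φ^[ρ] (Φ g0) := by rw [← iterate_succ_apply' Φ, iterate_succ_apply]
    _ = Φ^[ρ] g0 := by rw [h5, h5, hρ, hρ, h4]

end Pool.Agent.P.MP_1bf4cb_ag.RG
end
end

-- part Pool.Agent.P.MP_1bf4cb_ag.RN
section

set_option autoImplicit false
set_option maxHeartbeats 400000
set_option linter.unusedSectionVars false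
set_option linter.unusedVariables false

open Function Matrix
open scoped TensorProduct

noncomputable section

namespace Pool.Agent.P.MP_1bf4cb_ag.RG

variable {k : Type} [Field k] {n r : ℕ} {C C' : Type} [CommRing C] [Algebra k C] [CommRing C']
  [Algebra k C'] {E : OB k n r} {κ : Type}

/-- functions on the torus -/
abbrev Lt (C : Type) [CommRing C] (r : ℕ) := AddMonoidAlgebra C (Bool × Fin r → ℤ)

/-- the characters of one factor -/
def emb (r : ℕ) (s : Bool) : (Fin r → ℤ) →+ (Bool × Fin r → ℤ) where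
  toFun w p := if p.1 = s then w p.2 else 0
  map_zero' := by funext p; simp
  map_add' w w' := by funext p; by_cases h : p.1 = s <;> simp [h]

/-- the tautological point of the torus -/
def tau (C : Type) [CommRing C] (r : ℕ) (s : Bool) (i : Fin r) : (Lt C r)ˣ :=
  (AddMonoidAlgebra.of C (Bool × Fin r → ℤ)).toHomUnits
    (Multiplicative.ofAdd (emb r s (Pi.single i 1)))

theorem tau_prod (s : Bool) (w : Fin r → ℤ) :
    ((∏ i, tau C r s i ^ w i : (Lt C r)ˣ) : Lt C r) = AddMonoidAlgebra.single (emb r s w) 1 := by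
  unfold tau
  simp only [← map_zpow, ← map_prod, ← ofAdd_zsmul, ← ofAdd_sum, ← map_zsmul, ← map_sum]
  have : ∑ i, w i • (Pi.single i 1 : Fin r → ℤ) = w := by
    funext j
    simp [Finset.sum_apply, Pi.single_apply]
  rw [this]
  rfl

/-- constants -/
abbrev cst (k : Type) [Field k] (C : Type) [CommRing C] [Algebra k C] (r : ℕ) : C →ₐ[k] Lt C r :=
  IsScalarTower.toAlgHom k C (Lt C r)

/-- degrees of the entries -/
def dg (E : OB k n r) (sel : κ → Option Bool) (v : κ × Fin n × Fin n) : Bool × Fin r → ℤ :=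
  (sel v.1).elim 0 fun s => emb r s (E.wt v.2.2)

/-- right translation of frames -/
def rtr (sel : κ → Option Bool) (x : κ → E.Γ C) (b : Bool → E.Γ C) : κ → E.Γ C :=
  fun s => x s * (sel s).elim 1 b

/-- translation by the tautological point -/
def twp (sel : κ → Option Bool) (x : κ → E.Γ C) : κ → E.Γ (Lt C r) :=
  rtr sel (fun s => mp (cst k C r) (x s)) fun s => tG E (tau C r s)

theorem ent_twp (sel : κ → Option Bool) (x : κ → E.Γ C) (v : κ × Fin n × Fin n) :
    ent (twp sel x) v = AddMonoidAlgebra.single (dg E sel v) (ent x v) := by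
  unfold ent twp rtr dg
  cases sel v.1 with
  | none =>
    rw [Option.elim_none, Option.elim_none, mul_one]
    rfl
  | some s =>
    rw [Option.elim_some, Option.elim_some, mx_mul, mx_tG, dT, mul_diagonal, tau_prod]
    show AddMonoidAlgebra.single 0 _ * _ = _
    rw [AddMonoidAlgebra.single_mul_single, zero_add, mul_one]
    rfl

theorem ent_ext {x y : κ → E.Γ C} (h : ∀ v, ent x v = ent y v) : x = y :=
  funext fun s => mx_inj (Matrix.ext fun a b => h (s, a, b))

theorem mx_tG_inv (t : Fin r → Cˣ) : mx (tG E t)⁻¹ = dT E t⁻¹ := by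
  have h1 : dT E t * dT E t⁻¹ = 1 := by
    unfold dT
    rw [diagonal_mul_diagonal, ← diagonal_one]
    congr 1
    funext a
    rw [← Units.val_mul, ← Finset.prod_mul_distrib]
    simp
  rw [← Matrix.mul_one (mx _), ← h1, ← Matrix.mul_assoc, ← mx_tG, ← mx_mul, inv_mul_cancel, mx_one,
    Matrix.one_mul]

/-- conditions invariant under `B` -/
def Inv (sel : κ → Option Bool) (q : Cnd (E.pw κ)) : Prop :=
  ∀ (C : Type) [CommRing C] [Algebra k C] (x : κ → E.Γ C) (b : Bool → E.Γ C),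
    (∀ s, b s ∈ E.BB C) → q.p C x → q.p C (rtr sel x b)

theorem Inv.twp {sel : κ → Option Bool} {q : Cnd (E.pw κ)} (h : Inv sel q) {x : κ → E.Γ C}
    (hx : q.p C x) : q.p _ (twp sel x) :=
  h _ _ _ (fun s => tG_BB _) (q.st (cst k C r) x hx)

theorem ex_MG {sel : κ → Option Bool} (hsel : ∀ s, ∃ s', sel s' = some s) {q : Cnd (E.pw κ)}
    (hq : Inv sel q) {R : Type} [CommRing R] [Algebra k R] {x : ((E.pw κ).sub q).obj R}
    (hx : Rp ((E.pw κ).sub q) R x)
    (hv : Surjective (MvPolynomial.aeval (ent x.1) : _ →ₐ[k] R)) :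
    ∃ G : MG k (Bool × Fin r) R, ∀ v, ent x.1 v ∈ hm G.ρ (dg E sel v) := by
  obtain ⟨ρ, hρ⟩ := hx.ex _ ⟨twp sel x.1, hq.twp x.2⟩
  have hρ' : ∀ s, mp ρ (x.1 s) = twp sel x.1 s := fun s => congrFun (congrArg Subtype.val hρ) s
  have h1 : ∀ v, ent x.1 v ∈ hm ρ (dg E sel v) := fun v => by
    show ρ _ = _
    rw [← ent_twp]
    exact congrFun (congrFun (congrArg mx (hρ' v.1)) v.2.1) v.2.2
  let St : AddSubgroup (Bool × Fin r → ℤ) :=
    { carrier := {l | (1 : R) ∈ hm ρ l * hm ρ (-l)}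
      zero_mem' := by
        show (1 : R) ∈ hm ρ 0 * hm ρ (-0)
        rw [neg_zero, ← mul_one (1 : R)]
        exact Submodule.mul_mem_mul (hm_one ρ) (hm_one ρ)
      add_mem' := fun {l l'} h h' => by
        have h2 := Submodule.mul_mem_mul (show (1 : R) ∈ hm ρ l * hm ρ (-l) from h)
          (show (1 : R) ∈ hm ρ l' * hm ρ (-l') from h')
        rw [mul_one, mul_mul_mul_comm] at h2
        refine mul_le_mul' (Submodule.mul_le.2 fun _ h _ h' => hm_mul h h')
          (Submodule.mul_le.2 fun _ h _ h' => ?_) h2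
        rw [neg_add]
        exact hm_mul h h'
      neg_mem' := fun {l} h => by
        show (1 : R) ∈ hm ρ (-l) * hm ρ (- -l)
        rw [neg_neg, mul_comm]
        exact h }
  have h2 : ∀ s w, emb r s w ∈ St := fun s w => by
    obtain ⟨s', hs'⟩ := hsel s
    have h3 : AddSubgroup.closure (Set.range E.wt) ≤ St.comap (emb r s) := by
      refine (AddSubgroup.closure_le _).2 ?_
      rintro _ ⟨b, rfl⟩
      show (1 : R) ∈ hm ρ (emb r s (E.wt b)) * hm ρ (-emb r s (E.wt b))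
      have h4 : (1 : R) = ∑ a, mx (x.1 s') a b * mx (x.1 s' : E.Γ R)⁻¹ b a := by
        have h5 := congrFun (congrFun (congrArg mx (inv_mul_cancel (x.1 s' : E.Γ R))) b) b
        rw [mx_mul, mx_one, one_apply_eq, mul_apply] at h5
        rw [← h5]
        exact Finset.sum_congr rfl fun a _ => mul_comm _ _
      rw [h4]
      refine sum_mem fun a _ => Submodule.mul_mem_mul ?_ ?_
      · have h5 := h1 (s', a, b)
        unfold dg at h5
        rw [hs'] at h5
        exact h5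
      · have h5 : mp ρ (x.1 s' : E.Γ R)⁻¹ =
            (tG E (tau R r s))⁻¹ * mp (cst k R r) (x.1 s' : E.Γ R)⁻¹ := by
          rw [map_inv, hρ', map_inv, ← _root_.mul_inv_rev]
          unfold twp rtr
          rw [hs']
          rfl
        have h6 := congrFun (congrFun (congrArg mx h5) b) a
        rw [mx_mul, mx_tG_inv, dT, diagonal_mul] at h6
        refine h6.trans ?_
        simp only [Pi.inv_apply, _root_.inv_zpow']
        rw [tau_prod]
        show _ * AddMonoidAlgebra.single 0 _ = _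
        rw [AddMonoidAlgebra.single_mul_single, add_zero, one_mul, ← map_neg]
        rfl
    rw [E.ok.span] at h3
    exact h3 (AddSubgroup.mem_top w)
  refine ⟨⟨ρ, gen_of_surj hv h1, fun l => ?_⟩, h1⟩
  have h3 : l ∈ St := by
    have e : l = emb r false (fun i => l (false, i)) + emb r true (fun i => l (true, i)) := by
      funext p
      obtain ⟨s, i⟩ := p
      cases s <;> simp [emb]
    rw [e]
    exact add_mem (h2 _ _) (h2 _ _)
  have h4 : (1 : R) ∈ hm ρ l * hm ρ (-l) := h3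
  rw [Submodule.mul_eq_span_mul_set] at h4
  obtain ⟨m, c, g, hg⟩ := Submodule.mem_span_set'.1 h4
  choose a ha b hb hab using fun i => Set.mem_mul.1 (g i).2
  refine ⟨m, fun i => c i • a i, b, fun i => Submodule.smul_mem _ _ (ha i), hb, ?_⟩
  rw [← hg]
  exact Finset.sum_congr rfl fun i _ => by rw [smul_mul_assoc, hab]

theorem homog {sel : κ → Option Bool} {R : Type} [CommRing R] [Algebra k R] {x : κ → E.Γ R}
    (hv : Surjective (MvPolynomial.aeval (ent x) : _ →ₐ[k] R))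
    {ρ : R →ₐ[k] Lt R r} (hρ : ∀ v, ent x v ∈ hm ρ (dg E sel v)) {q : Cnd (E.pw κ)} (hq : Inv sel q)
    (I : Ideal R) (hI : ∀ (C : Type) [CommRing C] [Algebra k C] (φ : R →ₐ[k] C),
      q.p C ((E.pw κ).map φ x) ↔ ∀ i ∈ I, φ i = 0) (l : Bool × Fin r → ℤ) (a : R) (ha : a ∈ I) :
    cp ρ l a ∈ I := by
  have h1 := hq.twp ((hI _ (Ideal.Quotient.mkₐ k I)).2 fun i hi =>
    Ideal.Quotient.eq_zero_iff_mem.2 hi)
  have h2 : twp sel ((E.pw κ).map (Ideal.Quotient.mkₐ k I) x) = (E.pw κ).map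
      ((AddMonoidAlgebra.mapAlgHom _ (Ideal.Quotient.mkₐ k I)).comp ρ) x := ent_ext fun v => by
    rw [ent_twp]
    show _ = AddMonoidAlgebra.mapAlgHom _ (Ideal.Quotient.mkₐ k I) (ρ (ent x v))
    rw [hρ v, AddMonoidAlgebra.mapAlgHom_single]
    rfl
  rw [h2] at h1
  have h3 := congrArg (fun z => z.coeff l) ((hI _ _).1 h1 a ha)
  rw [← Ideal.Quotient.eq_zero_iff_mem]
  exact (AddMonoidAlgebra.coeff_mapAlgHom (Ideal.Quotient.mkₐ k I) (ρ a) l).symm.trans h3

end Pool.Agent.P.MP_1bf4cb_ag.RG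
end
end

-- part Pool.Agent.P.MP_1bf4cb_ag.RX
section

set_option autoImplicit false
set_option maxHeartbeats 400000
set_option linter.unusedSectionVars false
set_option linter.unusedVariables false

open Function Matrix

noncomputable section

namespace Pool.Agent.P.MP_1bf4cb_ag.RG

variable {k : Type} [Field k] {n r : ℕ} {C C' : Type} [CommRing C] [Algebra k C] [CommRing C']
  [Algebra k C']

theorem vl_X (g : Mx n C) (a b : Fin n) : vl g (MvPolynomial.X (a, b) : Pn k n) = g a b :=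
  MvPolynomial.aeval_X _ _

theorem gen_map (g : Mx n C) : (mvPolynomialX (Fin n) (Fin n) k).map (vl g) = g := by
  ext a b
  exact vl_X g a b

theorem vl_det (g : Mx n C) : vl g ((mvPolynomialX (Fin n) (Fin n) k).det - 1) = g.det - 1 := by
  unfold vl
  rw [map_sub, map_one, AlgHom.map_det]
  congr 2
  exact gen_map g

theorem smooth_of_lift {S : Set (Pn k n)} (hS : S.Finite)
    (h : ∀ (C : Type) [CommRing C] [Algebra k C] (I : Ideal C), I ^ 2 = ⊥ → ∀ g : Mx n (C ⧸ I),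
      Sol S g → ∃ g' : Mx n C, Sol S g' ∧ g'.map (Ideal.Quotient.mk I) = g) :
    Algebra.Smooth k (Pn k n ⧸ Ideal.span S) := by
  have : Algebra.FinitePresentation k (Pn k n ⧸ Ideal.span S) :=
    Algebra.FinitePresentation.quotient (Submodule.fg_span hS)
  have : Algebra.FormallySmooth k (Pn k n ⧸ Ideal.span S) := by
    refine Algebra.FormallySmooth.of_comp_surjective fun B _ _ I hI f => ?_
    let ψ : Pn k n →ₐ[k] B ⧸ I := f.comp (Ideal.Quotient.mkₐ k _)
    obtain ⟨g', h1, h2⟩ := h B I hI ((mvPolynomialX (Fin n) (Fin n) k).map ψ) fun t ht => by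
      rw [vl_map]
      have e : vl (mvPolynomialX (Fin n) (Fin n) k) t = t := MvPolynomial.aeval_X_left_apply t
      rw [e]
      show f (Ideal.Quotient.mk _ t) = 0
      rw [Ideal.Quotient.eq_zero_iff_mem.2 (Ideal.subset_span ht), map_zero]
    have hk0 : Ideal.span S ≤
        RingHom.ker (MvPolynomial.aeval (fun ab => g' ab.1 ab.2) : Pn k n →ₐ[k] B) :=
      Ideal.span_le.2 fun t ht => h1 t ht
    refine ⟨Ideal.Quotient.liftₐ _ _ fun a ha => hk0 ha, ?_⟩
    refine Ideal.Quotient.algHom_ext k (MvPolynomial.algHom_ext fun v => ?_)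
    have := congrFun (congrFun h2 v.1) v.2
    simpa [ψ] using this
  exact ⟨inferInstance, inferInstance⟩

theorem Grp.det {S : Set (Pn k n)} (hS : Grp S) {g : Mx n C} (hg : Sol S g) : g.det = 1 :=
  ((hS C).2 g g hg hg).1

theorem Grp.adj {S : Set (Pn k n)} (hS : Grp S) {g : Mx n C} (hg : Sol S g) :
    Sol S g.adjugate := by
  have := ((hS C).2 1 g (hS C).1 hg).2
  rwa [Matrix.one_mul] at this

theorem Grp.mul {S : Set (Pn k n)} (hS : Grp S) {g h : Mx n C} (hg : Sol S g) (hh : Sol S h) :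
    Sol S (g * h) := by
  have h2 := ((hS C).2 g _ hg (hS.adj hh)).2
  have h3 : (adjugate h).adjugate = h :=
    congrArg Subtype.val (inv_inv (G := SpecialLinearGroup (Fin n) C) ⟨h, hS.det hh⟩)
  rwa [h3] at h2

theorem cel_of {D : Bru k n r} (hG : Grp D.G) (hB : D.G ⊆ D.B) {j : ℕ} (hw : Sol D.G (D.w j))
    (q : (C : Type) → [CommRing C] → Mx n C → Prop)
    (hq : ∀ (C : Type) [CommRing C] [Algebra k C] (g : Mx n C),
      (Sol (D.Z (j + 1)) g ∧ Ideal.span (vl g '' D.Z j) = ⊤) ↔ q C g)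
    (h1 : ∀ (C : Type) [CommRing C] [Algebra k C] (a : Fin (D.l j) → C),
      Sol D.B ((D.c j).map (MvPolynomial.aeval a)))
    (h2 : ∀ (C : Type) [CommRing C] [Algebra k C] (a : Fin (D.l j) → C) (b : Mx n C), Sol D.B b →
      q C ((D.c j).map (MvPolynomial.aeval a) * (D.w j).map (algebraMap k C) * b))
    (h3 : ∀ (C : Type) [CommRing C] [Algebra k C] (g : Mx n C), Sol D.G g → q C g →
      ∃! a : Fin (D.l j) → C, Sol D.B
        (((D.c j).map (MvPolynomial.aeval a) * (D.w j).map (algebraMap k C)).adjugate * g)) :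
    D.Cel j := by
  refine ⟨hw, fun C _ _ => ⟨h1 C, ?_⟩⟩
  have h4 : ∀ a : Fin (D.l j) → C,
      Sol D.G ((D.c j).map (MvPolynomial.aeval a) * (D.w j).map (algebraMap k C)) := fun a =>
    hG.mul ((h1 C a).mono hB) (hw.map (Algebra.ofId k C))
  have h5 : ∀ a : Fin (D.l j) → C,
      ((D.c j).map (MvPolynomial.aeval a) * (D.w j).map (algebraMap k C)).det = 1 := fun a =>
    hG.det (h4 a)
  have h6 : ∀ (a : Fin (D.l j) → C) (b : Mx n C), Sol D.B b →
      Sol D.G ((D.c j).map (MvPolynomial.aeval a) * (D.w j).map (algebraMap k C) * b) :=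
    fun a b hb => hG.mul (h4 a) (hb.mono hB)
  have h7 : ∀ (a : Fin (D.l j) → C) (b : Mx n C),
      ((D.c j).map (MvPolynomial.aeval a) * (D.w j).map (algebraMap k C)).adjugate *
        ((D.c j).map (MvPolynomial.aeval a) * (D.w j).map (algebraMap k C) * b) = b := fun a b => by
    rw [← Matrix.mul_assoc, adjugate_mul, h5, one_smul, Matrix.one_mul]
  refine ⟨fun x hx => ⟨h6 _ _ hx, (hq C _).2 (h2 C _ _ hx)⟩, fun x hx y hy e => ?_, fun g hg => ?_⟩
  · have e' : (D.c j).map (MvPolynomial.aeval x.1) * (D.w j).map (algebraMap k C) * x.2 =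
        (D.c j).map (MvPolynomial.aeval y.1) * (D.w j).map (algebraMap k C) * y.2 := e
    have e1 : x.1 = y.1 := (h3 C _ (h6 _ _ hx) (h2 C x.1 _ hx)).unique (by rw [h7]; exact hx)
      (by rw [e', h7]; exact hy)
    refine Prod.ext e1 ?_
    rw [← h7 x.1 x.2, e', e1, h7]
  · obtain ⟨a, ha, -⟩ := h3 C g hg.1 ((hq C g).1 hg.2)
    refine ⟨(a, _), ha, ?_⟩
    show _ * (_ * g) = g
    rw [← Matrix.mul_assoc, mul_adjugate, h5, one_smul, Matrix.one_mul]

theorem span_top_iff {S : Set (Pn k n)} {g : Mx n C} {f : Pn k n} (hf : f ∈ S)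
    (h : ∀ z ∈ S, z = f ∨ vl g z = 0) : Ideal.span (vl g '' S) = ⊤ ↔ IsUnit (vl g f) := by
  refine ⟨fun e => Ideal.span_singleton_eq_top.1 (top_le_iff.1 (e.ge.trans (Ideal.span_le.2 ?_))),
    Ideal.eq_top_of_isUnit_mem _ (Ideal.subset_span ⟨f, hf, rfl⟩)⟩
  rintro _ ⟨z, hz, rfl⟩
  rcases h z hz with e | e
  · rw [e]
    exact Ideal.mem_span_singleton_self _
  · rw [e]
    exact zero_mem _

end Pool.Agent.P.MP_1bf4cb_ag.RG
end
end

-- part Pool.Agent.P.MP_1bf4cb_ag.RO
section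

set_option autoImplicit false
set_option maxHeartbeats 400000
set_option linter.unusedSectionVars false
set_option linter.unusedVariables false

open Function Matrix
open scoped TensorProduct

noncomputable section

namespace Pool.Agent.P.MP_1bf4cb_ag.RG

section
variable {U L M : Type} [CommRing U] [CommRing L] [CommRing M] (j : L →+* M) (pr : M →+ L)
  (h1 : ∀ u y, pr (j u * y) = u * pr y) (h2 : pr 1 = 1)
include h1 h2

theorem flat_of_pr (θ : U →+* L) (h : (j.comp θ).Flat) : θ.Flat := by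
  let _ : Algebra U M := (j.comp θ).toAlgebra
  let _ : Algebra U L := θ.toAlgebra
  have : Module.Flat U M := h
  exact Module.Flat.of_retract (R := U) (M := M) (N := L)
    { toFun := j, map_add' := j.map_add, map_smul' := fun c y => j.map_mul _ _ }
    { toFun := pr, map_add' := pr.map_add, map_smul' := fun c y => h1 _ _ }
    (LinearMap.ext fun u => by
      show pr (j u) = u
      rw [← mul_one (j u), h1, h2, mul_one])

theorem map_inj_pr {I I' : Ideal L} (h : I.map j = I'.map j) : I = I' := by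
  let _ : Algebra L M := j.toAlgebra
  let p : M →ₗ[L] L := { toFun := pr, map_add' := pr.map_add, map_smul' := fun c y => h1 _ _ }
  have hp : ∀ u, p (algebraMap L M u) = u := fun u => by
    show pr (j u) = u
    rw [← mul_one (j u), h1, h2, mul_one]
  have h3 : I.map (algebraMap L M) = I'.map (algebraMap L M) := h
  rw [← comap_map_pr p hp I, h3, comap_map_pr p hp I']

end

variable {k : Type} [Field k] {n r : ℕ} {C C' : Type} [CommRing C] [Algebra k C] [CommRing C']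
  [Algebra k C'] {E : OB k n r} {κ : Type}

/-- the elements of degree zero -/
def hm0 {ι : Type} (ρ : C →ₐ[k] AddMonoidAlgebra C (ι → ℤ)) : Subalgebra k C :=
  (hm ρ 0).toSubalgebra (hm_one ρ) fun x y hx hy => by simpa using hm_mul hx hy

theorem mem_hm0 {ι : Type} (ρ : C →ₐ[k] AddMonoidAlgebra C (ι → ℤ)) (a : C) :
    a ∈ hm0 ρ ↔ a ∈ hm ρ 0 := Iff.rfl

theorem hm_pow {ι : Type} {ρ : C →ₐ[k] AddMonoidAlgebra C (ι → ℤ)} {l : ι → ℤ} {x : C}
    (hx : x ∈ hm ρ l) (c : ℕ) : x ^ c ∈ hm ρ (c • l) := by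
  induction c with
  | zero => simpa using hm_one ρ
  | succ c ih =>
    rw [pow_succ, succ_nsmul]
    exact hm_mul ih hx

theorem MG.ex_pr {ι : Type} (G : MG k ι C) {Z : Subalgebra k C} (hZ : ∀ a, a ∈ Z ↔ a ∈ hm G.ρ 0) :
    ∃ pr : C →ₗ[k] Z, (∀ (u : Z) y, pr (u * y) = u * pr y) ∧ pr 1 = 1 :=
  ⟨(G.pr hZ).restrictScalars k, fun u y => (G.pr hZ).map_smul u y, G.pr_alg hZ 1⟩

theorem MG.flat_val {ι : Type} (G : MG k ι C) {Z : Subalgebra k C}
    (hZ : ∀ a, a ∈ Z ↔ a ∈ hm G.ρ 0) : (Z.val : Z →+* C).Flat :=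
  RingHom.flat_algebraMap_iff.2 (G.flat hZ)

/-- the relative position of a frame and its image -/
def nR (E : OB k n r) (s : κ) : NG (E.pw κ) E :=
  ⟨fun C _ _ (x : κ → E.Γ C) => (x s)⁻¹ * E.FF C (x s),
    fun φ x => by rw [map_mul, map_inv, mp_FF]; rfl⟩

/-- the condition on the two frames -/
def cR (E : OB k n r) : Cnd (E.pw Bool) := (cS E.Pa (nR E false)).and (cS E.Pa (nR E true))

/-- pairs of frames -/
def OB.fR (E : OB k n r) : Fn k := (E.pw Bool).sub (cR E)

/-- the frames of a point -/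
def gR (x : E.fR.obj C) : Bool → E.Γ C := x.1

theorem cR_iff (x : Bool → E.Γ C) : (cR E).p C x ↔ ∀ s, (x s)⁻¹ * E.FF C (x s) ∈ E.PP C :=
  ⟨fun h s => by
    cases s
    · exact h.1
    · exact h.2, fun h => ⟨h false, h true⟩⟩

theorem gR_mem (x : E.fR.obj C) (s : Bool) : (gR x s)⁻¹ * E.FF C (gR x s) ∈ E.PP C :=
  (cR_iff x.1).1 x.2 s

/-- a pair of frames -/
def mkR (x : Bool → E.Γ C) (h : ∀ s, (x s)⁻¹ * E.FF C (x s) ∈ E.PP C) : E.fR.obj C :=
  ⟨x, (cR_iff x).2 h⟩

theorem adj_mul_map (φ : C →+* C') (g h : Mx n C) :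
    (g.adjugate * h).map φ = (g.map φ).adjugate * h.map φ := by
  rw [Matrix.map_mul]
  congr 1
  exact φ.map_adjugate g

theorem adj_fr_map (φ : C →ₐ[k] C') (g : Mx n C) :
    (g.adjugate * E.fr g).map φ = (g.map φ).adjugate * E.fr (g.map φ) := by
  rw [fr_map]
  exact adj_mul_map (φ : C →+* C') g _

theorem rp_Frm (E : OB k n r) : ∃ x : E.fR.obj E.Frm, Rp E.fR E.Frm x ∧
    ∀ v, ent (gR x) v = Ideal.Quotient.mk _ (MvPolynomial.X v) := by
  refine rp_span (cR E) _ (fun C _ _ ψ h => ?_) ?_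
  · refine ⟨fun s => mkG ((gn k n s).map ψ) fun f hf =>
      (vl_map ψ _ f).trans (h _ ⟨s, Or.inl ⟨f, hf, rfl⟩⟩), fun v => rfl, (cR_iff _).2 fun s f hf => ?_⟩
    show vl (((gn k n s).map ψ).adjugate * E.fr ((gn k n s).map ψ)) f = 0
    rw [← adj_fr_map, vl_map]
    exact h _ ⟨s, Or.inr ⟨f, hf, rfl⟩⟩
  · rintro C _ _ x hx _ ⟨s, ⟨f, hf, rfl⟩ | ⟨f, hf, rfl⟩⟩
    · rw [← vl_map]
      exact (congrArg (vl · f) (gm_map x s)).trans (mx_sol _ f hf)
    · rw [← vl_map, adj_fr_map]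
      exact (congrArg (fun g => vl (adjugate g * E.fr g) f) (gm_map x s)).trans
        ((cR_iff x).1 hx s f hf)

theorem inv_cR : Inv some (cR E) := fun C _ _ x b hb hx => (cR_iff _).2 fun s => by
  show (x s * b s)⁻¹ * E.FF C (x s * b s) ∈ _
  have e : (x s * b s)⁻¹ * E.FF C (x s * b s) =
      (b s)⁻¹ * ((x s)⁻¹ * E.FF C (x s)) * E.FF C (b s) := by
    rw [map_mul]
    group
  rw [e]
  exact mul_mem (mul_mem (inv_mem (BB_le (hb s))) ((cR_iff x).1 hx s)) (BB_le (FF_BB (hb s)))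

theorem inv_cU : Inv id (cU E) := fun C _ _ x b hb hx => by
  have h : ∀ s, (x (some s) * b s)⁻¹ * (x none * 1) * E.FF C (x (some s) * b s) ∈ E.PP C := fun s => by
    have e : (x (some s) * b s)⁻¹ * (x none * 1) * E.FF C (x (some s) * b s) =
        (b s)⁻¹ * ((x (some s))⁻¹ * x none * E.FF C (x (some s))) * E.FF C (b s) := by
      rw [map_mul]
      group
    rw [e]
    exact mul_mem (mul_mem (inv_mem (BB_le (hb s))) (gU_mem ⟨x, hx⟩ s)) (BB_le (FF_BB (hb s)))
  exact ⟨h false, h true⟩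

theorem weight_iff (m : Bool × Fin n × Fin n →₀ ℕ) :
    Finsupp.weight (dg E some) m = 0 ↔ ∀ s, ∑ a, ∑ b, m (s, a, b) • E.wt b = 0 := by
  have h : Finsupp.weight (dg E some) m = ∑ s, emb r s (∑ a, ∑ b, m (s, a, b) • E.wt b) := by
    rw [Finsupp.weight_apply, Finsupp.sum_fintype m (fun i c => c • dg E some i)
      (fun _ => zero_smul _ _), Fintype.sum_prod_type]
    refine Finset.sum_congr rfl fun s _ => ?_
    rw [Fintype.sum_prod_type, map_sum]
    refine Finset.sum_congr rfl fun a _ => ?_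
    rw [map_sum]
    exact Finset.sum_congr rfl fun b _ => (map_nsmul _ _ _).symm
  rw [h]
  constructor
  · intro h0 s
    funext i
    have := congrFun h0 (s, i)
    rw [Fintype.sum_bool] at this
    cases s <;> simpa [emb] using this
  · intro h0
    simp only [h0, map_zero, Finset.sum_const_zero]

theorem aeval_Frm {x : Bool → E.Γ E.Frm}
    (hv : ∀ v, ent x v = Ideal.Quotient.mk _ (MvPolynomial.X v)) :
    (MvPolynomial.aeval (ent x) : _ →ₐ[k] E.Frm) = Ideal.Quotient.mkₐ k _ :=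
  MvPolynomial.algHom_ext fun v => (MvPolynomial.aeval_X _ _).trans (hv v)

theorem surj_Frm {x : Bool → E.Γ E.Frm}
    (hv : ∀ v, ent x v = Ideal.Quotient.mk _ (MvPolynomial.X v)) :
    Surjective (MvPolynomial.aeval (ent x) : _ →ₐ[k] E.Frm) := by
  rw [aeval_Frm hv]
  exact Ideal.Quotient.mkₐ_surjective k _

theorem inv_iff {x : Bool → E.Γ E.Frm}
    (hv : ∀ v, ent x v = Ideal.Quotient.mk _ (MvPolynomial.X v)) {ρ : E.Frm →ₐ[k] Lt E.Frm r}
    (hρ : ∀ v, ent x v ∈ hm ρ (dg E some v)) (a : E.Frm) : a ∈ E.Inv ↔ a ∈ hm ρ 0 := by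
  constructor
  · intro ha
    refine (Algebra.adjoin_le (S := hm0 ρ) ?_ : E.Inv ≤ hm0 ρ) ha
    rintro _ ⟨m, hm, rfl⟩
    have h := mon_mem (RG.hm ρ) (hm_one ρ) (fun _ _ _ _ => hm_mul) hρ m
    rw [(weight_iff m).2 hm, aeval_Frm hv] at h
    exact h
  · intro ha
    refine mem_of_mon (A := E.Frm) (v := ent x) (surj_Frm hv) hρ
      (Subalgebra.toSubmodule E.Inv) (fun m hm => ?_) ha
    rw [aeval_Frm hv, Subalgebra.mem_toSubmodule, Ideal.Quotient.mkₐ_eq_mk]
    unfold Bru.Inv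
    exact Algebra.subset_adjoin ⟨m, (weight_iff m).1 hm, rfl⟩

theorem ft_Inv (E : OB k n r) : Algebra.FiniteType k E.Inv := by
  obtain ⟨S, hS, hf⟩ := (AddSubmonoid.fg_iff _).1
    (AddSubmonoid.fg_eqLocusM (Finsupp.weight (R := ℕ) (dg E some)) 0)
  let f : (Bool × Fin n × Fin n →₀ ℕ) → E.Frm :=
    fun m => Ideal.Quotient.mk _ (MvPolynomial.monomial m 1)
  have e : E.Inv = Algebra.adjoin k (f '' S) := by
    refine le_antisymm (Algebra.adjoin_le ?_) (Algebra.adjoin_mono ?_)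
    · rintro _ ⟨m, hm, rfl⟩
      have h1 : m ∈ AddSubmonoid.closure S := by
        rw [hS]
        exact (weight_iff m).2 hm
      clear hm
      induction h1 using AddSubmonoid.closure_induction with
      | mem m hm => exact Algebra.subset_adjoin ⟨m, hm, rfl⟩
      | zero => exact one_mem _
      | add a b _ _ ha hb =>
        rw [← mul_one (1 : k), ← MvPolynomial.monomial_mul, map_mul]
        exact mul_mem ha hb
    · rintro _ ⟨m, hm, rfl⟩
      have h1 : m ∈ AddSubmonoid.closure S := AddSubmonoid.subset_closure hm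
      rw [hS] at h1
      exact ⟨m, (weight_iff m).1 h1, rfl⟩
  rw [e]
  exact Algebra.FiniteType.adjoin_of_finite (hf.image f)

end Pool.Agent.P.MP_1bf4cb_ag.RG
end
end

-- part Pool.Agent.P.MP_1bf4cb_ag.RY
section

set_option autoImplicit false
set_option maxHeartbeats 400000
set_option linter.unusedSectionVars false
set_option linter.unusedVariables false
set_option linter.unusedSimpArgs false

open Function Matrix MvPolynomial

noncomputable section

namespace Pool.Agent.P.MP_1bf4cb_ag.RG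

/-- The datum of the unitary group in three variables with a minimal parabolic subgroup. -/
def su3 (k : Type) [Field k] : Bru k 3 2 where
  G := {(mvPolynomialX _ _ k).det - 1}
  B := {(mvPolynomialX _ _ k).det - 1, X (2, 0), X (2, 1), X (1, 0)}
  Pa := {(mvPolynomialX _ _ k).det - 1, X (2, 0), X (2, 1)}
  F := !![0, 0, 1; 0, 1, 0; 1, 0, 0] * ((mvPolynomialX _ _ k).map (· ^ Nat.card k)).adjugateᵀ *
    !![0, 0, 1; 0, 1, 0; 1, 0, 0]
  wt := ![![1, 0], ![0, 1], ![-1, -1]]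
  N := 3
  u := !![1, X 0, X 1; 0, 1, X 2; 0, 0, 1]
  M := 6
  l := fun
    | 0 => 0 | 1 => 1 | 2 => 1 | 3 => 2 | 4 => 2 | _ + 5 => 3
  c := fun
    | 0 => 1
    | 1 => !![1, X (0 : Fin 1), 0; 0, 1, 0; 0, 0, 1]
    | 2 => !![1, 0, 0; 0, 1, X (0 : Fin 1); 0, 0, 1]
    | 3 => !![1, X (0 : Fin 2), X (1 : Fin 2); 0, 1, 0; 0, 0, 1]
    | 4 => !![1, 0, X (0 : Fin 2); 0, 1, X (1 : Fin 2); 0, 0, 1]
    | _ + 5 => !![1, X (0 : Fin 3), X (1 : Fin 3); 0, 1, X (2 : Fin 3); 0, 0, 1]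
  w := fun
    | 0 => 1
    | 1 => !![0, -1, 0; 1, 0, 0; 0, 0, 1]
    | 2 => !![1, 0, 0; 0, 0, -1; 0, 1, 0]
    | 3 => !![0, 0, 1; 1, 0, 0; 0, 1, 0]
    | 4 => !![0, 1, 0; 0, 0, 1; 1, 0, 0]
    | _ + 5 => !![0, 0, 1; 0, -1, 0; 1, 0, 0]
  Z := fun
    | 0 => {1}
    | 1 => {X (2, 0), X (2, 1), X (1, 0)}
    | 2 => {X (2, 0), X (2, 1)}
    | 3 => {X (2, 0), X (1, 0) * X (2, 1)}
    | 4 => {X (2, 0)}
    | 5 => {X (2, 0) * (X (1, 0) * X (2, 1) - X (1, 1) * X (2, 0))}
    | _ + 6 => ∅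

variable {k : Type} [Field k] {C C' : Type} [CommRing C] [Algebra k C] [CommRing C'] [Algebra k C']

theorem s3G (g : Mx 3 C) : Sol (su3 k).G g ↔ g.det = 1 := by
  simp only [Sol, su3, Set.mem_singleton_iff, forall_eq, vl_det, sub_eq_zero]

theorem s3P (g : Mx 3 C) : Sol (su3 k).Pa g ↔ g.det = 1 ∧ g 2 0 = 0 ∧ g 2 1 = 0 := by
  simp only [Sol, su3, Set.mem_insert_iff, Set.mem_singleton_iff, forall_eq_or_imp, forall_eq,
    vl_det, vl_X, sub_eq_zero]

theorem s3B (g : Mx 3 C) : Sol (su3 k).B g ↔ g.det = 1 ∧ g 2 0 = 0 ∧ g 2 1 = 0 ∧ g 1 0 = 0 := by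
  simp only [Sol, su3, Set.mem_insert_iff, Set.mem_singleton_iff, forall_eq_or_imp, forall_eq,
    vl_det, vl_X, sub_eq_zero]

theorem det_adj3 {g : Mx 3 C} (h : g.det = 1) : g.adjugate.det = 1 := by
  rw [det_adjugate, h, one_pow]

theorem s3_grp : Grp (su3 k).G ∧ Grp (su3 k).B ∧ Grp (su3 k).Pa := by
  refine ⟨fun C _ _ => ⟨(s3G _).2 det_one, fun g h hg hh => ?_⟩,
    fun C _ _ => ⟨(s3B _).2 ⟨det_one, by simp, by simp, by simp⟩, fun g h hg hh => ?_⟩,
    fun C _ _ => ⟨(s3P _).2 ⟨det_one, by simp, by simp⟩, fun g h hg hh => ?_⟩⟩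
  · rw [s3G] at *
    exact ⟨hg, by rw [det_mul, hg, det_adj3 hh, one_mul]⟩
  · rw [s3B] at *
    obtain ⟨h1, h2, h3, h4⟩ := hg
    obtain ⟨h5, h6, h7, h8⟩ := hh
    refine ⟨h1, by rw [det_mul, h1, det_adj3 h5, one_mul], ?_, ?_, ?_⟩ <;>
      simp [mul_apply, Fin.sum_univ_three, adjugate_fin_three, h2, h3, h4, h6, h7, h8]
  · rw [s3P] at *
    obtain ⟨h1, h2, h3⟩ := hg
    obtain ⟨h5, h6, h7⟩ := hh
    refine ⟨h1, by rw [det_mul, h1, det_adj3 h5, one_mul], ?_, ?_⟩ <;>
      simp [mul_apply, Fin.sum_univ_three, adjugate_fin_three, h2, h3, h6, h7]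

theorem lift3 (I : Ideal C) (hI : I ^ 2 = ⊥) (g : Mx 3 (C ⧸ I)) (hg : g.det = 1) :
    ∃ g' : Mx 3 C, g'.det = 1 ∧ g'.map (Ideal.Quotient.mk I) = g ∧ ∀ a b, g a b = 0 → g' a b = 0 := by
  classical
  have h0 : ∀ y : C ⧸ I, ∃ x, Ideal.Quotient.mk I x = y ∧ (y = 0 → x = 0) := fun y => by
    by_cases h : y = 0
    · exact ⟨0, h.symm, fun _ => rfl⟩
    · obtain ⟨x, hx⟩ := Ideal.Quotient.mk_surjective y
      exact ⟨x, hx, fun e => absurd e h⟩
  choose σ h1 h2 using h0
  have h3 : (g.map σ).map (Ideal.Quotient.mk I) = g := by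
    ext a b
    exact h1 _
  have h4 : Ideal.Quotient.mk I (g.map σ).det = 1 := by
    rw [RingHom.map_det]
    exact (congrArg det h3).trans hg
  have h5 : (g.map σ).det - 1 ∈ I := Ideal.Quotient.eq.1 h4
  have h6 : ((g.map σ).det - 1) ^ 2 = 0 := by
    have := Ideal.pow_mem_pow h5 2
    rwa [hI, Ideal.mem_bot] at this
  refine ⟨g.map σ * diagonal ![2 - (g.map σ).det, 1, 1], ?_, ?_, fun a b h => ?_⟩
  · rw [det_mul, det_diagonal, Fin.prod_univ_three]
    simp only [cons_val_zero, cons_val_one, cons_val]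
    linear_combination (-1 : C) * h6
  · rw [Matrix.map_mul, h3, diagonal_map (map_zero _)]
    have : (fun m => Ideal.Quotient.mk I (![2 - (g.map σ).det, 1, 1] m)) = fun _ => 1 := by
      funext m
      fin_cases m
      · show Ideal.Quotient.mk I (2 - _) = 1
        rw [map_sub, h4, map_ofNat]
        norm_num
      · exact map_one _
      · exact map_one _
    rw [this, diagonal_one, Matrix.mul_one]
  · rw [mul_diagonal, map_apply, h2 _ h, zero_mul]

theorem s3_smo : Algebra.Smooth k (Pn k 3 ⧸ Ideal.span (su3 k).G) ∧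
    Algebra.Smooth k (Pn k 3 ⧸ Ideal.span (su3 k).Pa) := by
  refine ⟨smooth_of_lift (Set.finite_singleton _) fun C _ _ I hI g hg => ?_,
    smooth_of_lift (((Set.finite_singleton _).insert _).insert _) fun C _ _ I hI g hg => ?_⟩
  · obtain ⟨g', h1, h2, -⟩ := lift3 I hI g ((s3G g).1 hg)
    exact ⟨g', (s3G _).2 h1, h2⟩
  · obtain ⟨h3, h4, h5⟩ := (s3P g).1 hg
    obtain ⟨g', h1, h2, h6⟩ := lift3 I hI g h3
    exact ⟨g', (s3P _).2 ⟨h1, h6 _ _ h4, h6 _ _ h5⟩, h2⟩

theorem s3_bor : (su3 k).Bor := by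
  intro C _ _
  have h : ∀ x : (Fin 3 → C) × (Fin 2 → Cˣ), (su3 k).u.map (aeval x.1) *
      (diagonal fun a => ((∏ i, x.2 i ^ (su3 k).wt a i : Cˣ) : C)) =
      !![(x.2 0 : C), x.1 0 * x.2 1, x.1 1 * ((x.2 0)⁻¹ * (x.2 1)⁻¹ : Cˣ); 0, (x.2 1 : C),
        x.1 2 * ((x.2 0)⁻¹ * (x.2 1)⁻¹ : Cˣ); 0, 0, (((x.2 0)⁻¹ * (x.2 1)⁻¹ : Cˣ) : C)] := fun x => by
    ext a b
    rw [mul_diagonal]
    fin_cases a <;> fin_cases b <;> simp [su3, Fin.prod_univ_two]
  refine ⟨fun x _ => ?_, fun x _ y _ e => ?_, fun g hg => ?_⟩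
  · refine (congrArg (Sol (su3 k).B) (h x)).mpr ?_
    rw [s3B, det_fin_three]
    simp
    rw [mul_comm (x.2 0 : C), mul_assoc, Units.mul_inv_cancel_left, Units.mul_inv]
  · have e' := (h x).symm.trans (e.trans (h y))
    have e0 : x.2 0 = y.2 0 := Units.ext (congrFun (congrFun e' 0) 0)
    have e1 : x.2 1 = y.2 1 := Units.ext (congrFun (congrFun e' 1) 1)
    rw [e0, e1] at e'
    refine Prod.ext (funext fun i => ?_) (funext fun i => ?_)
    · fin_cases i
      · exact (Units.mul_left_inj _).1 (congrFun (congrFun e' 0) 1)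
      · exact (Units.mul_left_inj _).1 (congrFun (congrFun e' 0) 2)
      · exact (Units.mul_left_inj _).1 (congrFun (congrFun e' 1) 2)
    · fin_cases i
      · exact e0
      · exact e1
  · obtain ⟨h1, h2, h3, h4⟩ := (s3B g).1 hg
    rw [det_fin_three, h2, h3, h4] at h1
    let t0 : Cˣ := Units.mkOfMulEqOne (g 0 0) (g 1 1 * g 2 2) (by linear_combination h1)
    let t1 : Cˣ := Units.mkOfMulEqOne (g 1 1) (g 0 0 * g 2 2) (by linear_combination h1)
    refine ⟨(![g 0 1 * g 0 0 * g 2 2, g 0 2 * g 0 0 * g 1 1, g 1 2 * g 0 0 * g 1 1], ![t0, t1]),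
      Set.mem_univ _, (h _).trans ?_⟩
    have e0 : ((t0⁻¹ * t1⁻¹ : Cˣ) : C) = g 2 2 := by
      show g 1 1 * g 2 2 * (g 0 0 * g 2 2) = _
      linear_combination g 2 2 * h1
    ext a b
    fin_cases a <;> fin_cases b <;> simp only [cons_val_zero, cons_val_one, cons_val, e0, of_apply,
      Fin.zero_eta, Fin.mk_one, Fin.reduceFinMk, cons_val', cons_val_fin_one]
    · rfl
    · show g 0 1 * g 0 0 * g 2 2 * g 1 1 = _
      linear_combination g 0 1 * h1
    · linear_combination g 0 2 * h1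
    · exact h4.symm
    · rfl
    · linear_combination g 1 2 * h1
    · exact h2.symm
    · exact h3.symm

theorem s3_span : AddSubgroup.closure (Set.range (su3 k).wt) = ⊤ := by
  refine eq_top_iff.2 fun v _ => ?_
  have e : v = v 0 • (su3 k).wt 0 + v 1 • (su3 k).wt 1 := by
    funext i
    fin_cases i <;> simp [su3]
  rw [e]
  exact add_mem (AddSubgroup.zsmul_mem _ (AddSubgroup.subset_closure (Set.mem_range_self 0)) _)
    (AddSubgroup.zsmul_mem _ (AddSubgroup.subset_closure (Set.mem_range_self 1)) _)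

theorem ex_q3 {x : Mx 3 k} (hx : x.det = 1) (h : ¬ (x 2 0 = 0 ∧ x 2 1 = 0)) :
    ∃ p q : Mx 3 k, Sol (su3 k).Pa p ∧ Sol (su3 k).Pa q ∧
      x * q = p * !![1, 0, 0; 0, 0, -1; 0, 1, 0] := by
  have h1 : ∀ q : Mx 3 k, Sol (su3 k).Pa q → (x * q) 2 0 = 0 → (x * q) 2 2 = 0 →
      ∃ p q : Mx 3 k, Sol (su3 k).Pa p ∧ Sol (su3 k).Pa q ∧
        x * q = p * !![1, 0, 0; 0, 0, -1; 0, 1, 0] := fun q hq h2 h3 => by
    refine ⟨x * q * !![1, 0, 0; 0, 0, 1; 0, -1, 0], q, (s3P _).2 ⟨?_, ?_, ?_⟩, hq, ?_⟩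
    · rw [det_mul, det_mul, hx, ((s3P q).1 hq).1, det_fin_three]
      simp
    · rw [mul_apply, Fin.sum_univ_three, h2]
      simp
    · rw [mul_apply, Fin.sum_univ_three, h3]
      simp
    · rw [Matrix.mul_assoc (x * q)]
      have : (!![1, 0, 0; 0, 0, 1; 0, -1, 0] : Mx 3 k) * !![1, 0, 0; 0, 0, -1; 0, 1, 0] = 1 := by
        rw [one_fin_three]
        simp
      rw [this, Matrix.mul_one]
  by_cases h2 : x 2 1 = 0
  · have h3 : x 2 0 ≠ 0 := fun e => h ⟨e, h2⟩
    refine h1 !![0, (x 2 0)⁻¹, -x 2 2; -1, 0, 0; 0, 0, x 2 0] ((s3P _).2 ⟨?_, rfl, rfl⟩) ?_ ?_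
    · rw [det_fin_three]
      simp [h3]
    · simp [mul_apply, Fin.sum_univ_three, h2]
    · simp [mul_apply, Fin.sum_univ_three, h2, mul_comm]
  · refine h1 !![1, 0, 0; -(x 2 0 * (x 2 1)⁻¹), (x 2 1)⁻¹, -x 2 2; 0, 0, x 2 1]
      ((s3P _).2 ⟨?_, rfl, rfl⟩) ?_ ?_
    · rw [det_fin_three]
      simp [h2]
    · simp [mul_apply, Fin.sum_univ_three]
      field_simp
      ring
    · simp [mul_apply, Fin.sum_univ_three, mul_comm]

theorem s3_dbl : (su3 k).Dbl := by
  intro x y hx hy C _ _ _ p q hp hq e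
  have hP := (s3_grp (k := k)).2.2
  have h0 : ∀ z : Mx 3 k, z.det = 1 → (Sol (su3 k).Pa (z.map (algebraMap k C)) ↔ Sol (su3 k).Pa z) :=
    fun z hz => ⟨fun h => (s3P z).2 ⟨hz, (map_eq_zero (algebraMap k C)).1 ((s3P _).1 h).2.1,
      (map_eq_zero (algebraMap k C)).1 ((s3P _).1 h).2.2⟩, fun h => h.map (Algebra.ofId k C)⟩
  rw [s3G] at hx hy
  have h1 : Sol (su3 k).Pa x ↔ Sol (su3 k).Pa y := by
    rw [← h0 x hx, ← h0 y hy]
    constructor
    · intro h
      have := hP.mul (hP.adj hp) (hP.mul h hq)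
      rwa [e, ← Matrix.mul_assoc, adjugate_mul, hP.det hp, one_smul, Matrix.one_mul] at this
    · intro h
      have := hP.mul (hP.mul hp h) (hP.adj hq)
      rwa [← e, Matrix.mul_assoc, mul_adjugate, hP.det hq, one_smul, Matrix.mul_one] at this
  by_cases h : Sol (su3 k).Pa x
  · exact ⟨x, y, h, h1.1 h, rfl⟩
  · obtain ⟨p1, q1, h2, h3, h4⟩ := ex_q3 hx fun e => h ((s3P x).2 ⟨hx, e⟩)
    obtain ⟨p2, q2, h5, h6, h7⟩ := ex_q3 hy fun e => h (h1.2 ((s3P y).2 ⟨hy, e⟩))
    refine ⟨p1 * p2.adjugate, q1 * q2.adjugate, hP.mul h2 (hP.adj h5), hP.mul h3 (hP.adj h6), ?_⟩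
    have h8 : y = p2 * !![1, 0, 0; 0, 0, -1; 0, 1, 0] * q2.adjugate := by
      rw [← h7, Matrix.mul_assoc, mul_adjugate, hP.det h6, one_smul, Matrix.mul_one]
    rw [← Matrix.mul_assoc, h4, h8, Matrix.mul_assoc p1 _ (_ * _), Matrix.mul_assoc p2,
      ← Matrix.mul_assoc p2.adjugate, adjugate_mul, hP.det h5, one_smul, Matrix.one_mul,
      Matrix.mul_assoc]

theorem s3_fr [Fintype k] (g : Mx 3 C) : (su3 k).fr g = !![0, 0, 1; 0, 1, 0; 1, 0, 0] *
    (g.map (fro k C)).adjugateᵀ * !![0, 0, 1; 0, 1, 0; 1, 0, 0] := by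
  let φ : Pn k 3 →+* C := (aeval (fun ab : Fin 3 × Fin 3 => g ab.1 ab.2) : Pn k 3 →ₐ[k] C)
  have h1 : (!![0, 0, 1; 0, 1, 0; 1, 0, 0] : Mx 3 (Pn k 3)).map φ =
      !![0, 0, 1; 0, 1, 0; 1, 0, 0] := by
    ext a b
    fin_cases a <;> fin_cases b <;> simp
  have h2 : ((mvPolynomialX (Fin 3) (Fin 3) k).map (· ^ Nat.card k)).map φ = g.map (fro k C) := by
    ext a b
    show φ (X (a, b) ^ _) = g a b ^ _
    rw [map_pow, Nat.card_eq_fintype_card]
    exact congrArg (· ^ _) (vl_X g a b)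
  show (_ * _ * _ : Mx 3 (Pn k 3)).map φ = _
  rw [Matrix.map_mul, Matrix.map_mul, h1, ← h2, transpose_map]
  congr 3
  exact φ.map_adjugate _

theorem J3_sq : (!![0, 0, 1; 0, 1, 0; 1, 0, 0] : Mx 3 C) * !![0, 0, 1; 0, 1, 0; 1, 0, 0] = 1 := by
  rw [one_fin_three]
  simp

theorem det_fro [Fintype k] {g : Mx 3 C} (h : g.det = 1) : (g.map (fro k C)).det = 1 := by
  have := (fro k C).map_det g
  rw [h, map_one] at this
  exact this.symm

theorem s3_hom [Fintype k] : (su3 k).Hom := by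
  intro C _ _ g h hg hh
  rw [s3G] at *
  have h0 : ((su3 k).fr g).det = 1 := by
    rw [s3_fr, det_mul, mul_comm, det_mul, ← mul_assoc, ← det_mul, J3_sq, det_one, one_mul,
      det_transpose, det_adj3 (det_fro hg)]
  refine ⟨h0, ?_, fun hb => ?_⟩
  · rw [s3_fr, s3_fr, s3_fr]
    have e : (g * h).map (fro k C) = g.map (fro k C) * h.map (fro k C) :=
      Matrix.map_mul (f := (fro k C : C →+* C))
    rw [e, adjugate_mul_distrib, transpose_mul]
    simp only [Matrix.mul_assoc]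
    rw [← Matrix.mul_assoc !![0, 0, 1; 0, 1, 0; 1, 0, 0] !![0, 0, 1; 0, 1, 0; 1, 0, 0], J3_sq,
      Matrix.one_mul]
  · obtain ⟨-, h2, h3, h4⟩ := (s3B g).1 hb
    refine (s3B _).2 ⟨h0, ?_, ?_, ?_⟩ <;>
      simp [s3_fr, mul_apply, Fin.sum_univ_three, adjugate_fin_three, h2, h3, h4] <;> rfl

theorem s3_pow [Fintype k] : (su3 k).Pow := by
  refine ⟨2, 2, two_pos, fun C _ _ g hg => ?_⟩
  rw [s3G] at hg
  show (su3 k).fr ((su3 k).fr g) = _
  have h1 : (!![0, 0, 1; 0, 1, 0; 1, 0, 0] : Mx 3 C).map (fro k C : C →+* C) =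
      !![0, 0, 1; 0, 1, 0; 1, 0, 0] := by
    ext a b
    fin_cases a <;> fin_cases b <;> simp
  have h2 : ((su3 k).fr g).map (fro k C) = (su3 k).fr (g.map (fro k C)) := (fr_map _ _ _).symm
  have h3 : (!![0, 0, 1; 0, 1, 0; 1, 0, 0] : Mx 3 C).adjugate = -!![0, 0, 1; 0, 1, 0; 1, 0, 0] := by
    rw [adjugate_fin_three]
    simp
  have h4 : (!![0, 0, 1; 0, 1, 0; 1, 0, 0] : Mx 3 C)ᵀ = !![0, 0, 1; 0, 1, 0; 1, 0, 0] := by
    ext a b
    fin_cases a <;> fin_cases b <;> rfl
  have h5 := det_fro (k := k) (det_fro (k := k) hg)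
  have h6 : ((g.map (fro k C)).map (fro k C)).adjugate.adjugate = (g.map (fro k C)).map (fro k C) :=
    congrArg Subtype.val (inv_inv (G := SpecialLinearGroup (Fin 3) C) ⟨_, h5⟩)
  rw [s3_fr ((su3 k).fr g), h2, s3_fr, adjugate_mul_distrib, adjugate_mul_distrib, h3,
    ← adjugate_transpose, h6]
  simp only [Matrix.neg_mul, Matrix.mul_neg, neg_neg, transpose_mul, transpose_transpose, h4,
    Matrix.mul_assoc, J3_sq, Matrix.mul_one]
  rw [← Matrix.mul_assoc, J3_sq, Matrix.one_mul]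
  ext a b
  show (g a b ^ _) ^ _ = g a b ^ _
  rw [← pow_mul, Nat.card_eq_fintype_card, pow_two]

end Pool.Agent.P.MP_1bf4cb_ag.RG
end
end

-- part Pool.Agent.P.MP_1bf4cb_ag.RP
section

set_option autoImplicit false
set_option maxHeartbeats 400000
set_option linter.unusedSectionVars false
set_option linter.unusedVariables false

open Function Matrix
open scoped TensorProduct

noncomputable section

namespace Pool.Agent.P.MP_1bf4cb_ag.RG

variable {k : Type} [Field k] {n r : ℕ} {C C' : Type} [CommRing C] [Algebra k C] [CommRing C']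
  [Algebra k C'] {E : OB k n r} {κ : Type}

/-- the ideal saying that a point lies in `B` -/
def bI (g : E.Γ C) : Ideal C := Ideal.span (vl (mx g) '' E.B)

theorem bI_map (φ : C →ₐ[k] C') (g : E.Γ C) : (bI g).map (φ : C →+* C') = bI (mp φ g) :=
  span_map_vl E.B _ φ

theorem bI_hom {sel : κ → Option Bool} {x : κ → E.Γ C}
    (hv : Surjective (MvPolynomial.aeval (ent x) : _ →ₐ[k] C)) (G : MG k (Bool × Fin r) C)
    (hρ : ∀ v, ent x v ∈ hm G.ρ (dg E sel v)) {Z : Subalgebra k C}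
    (hZ : ∀ a, a ∈ Z ↔ a ∈ hm G.ρ 0) (h : NG (E.pw κ) E) (hq : Inv sel (cS E.B h)) :
    ((bI (h.g C x)).comap (Z.val : Z →+* C)).map (Z.val : Z →+* C) = bI (h.g C x) :=
  G.map_comap hZ _ fun l a ha => homog hv hρ hq _ (fun C' _ _ φ => by
    show Sol E.B (mx (h.g C' _)) ↔ _
    rw [h.nat]
    exact sol_map_iff E.B _ φ) l a ha

variable [Fintype k]

theorem fro_pow_nat (φ : C →ₐ[k] C') (a : ℕ) : φ.comp (fro k C ^ a) = (fro k C' ^ a).comp φ :=
  AlgHom.ext fun x => by
    rw [AlgHom.comp_apply, AlgHom.comp_apply, fro_pow_apply, fro_pow_apply, map_pow]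

/-- the relative position of the second frame and the Frobenius image of the first -/
def nF (E : OB k n r) (a : ℕ) : NG (E.pw Bool) E :=
  ⟨fun C _ _ (x : Bool → E.Γ C) => (mp (fro k C ^ a) (x false))⁻¹ * x true, fun φ x => by
    rw [map_mul, map_inv, mp_mp _ φ, fro_pow_nat]
    rfl⟩

theorem inv_nF (a : ℕ) : Inv some (cS E.B (nF E a)) := fun C _ _ x b hb hx => by
  show (mp (fro k C ^ a) (x false * b false))⁻¹ * (x true * b true) ∈ E.BB C
  have e : (mp (fro k C ^ a) (x false * b false))⁻¹ * (x true * b true) =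
      (mp (fro k C ^ a) (b false))⁻¹ * ((mp (fro k C ^ a) (x false))⁻¹ * x true) * b true := by
    rw [map_mul]
    group
  rw [e]
  exact mul_mem (mul_mem (inv_mem (mp_BB _ (hb _))) hx) (hb _)

/-- single frames -/
def OB.f1 (E : OB k n r) : Fn k := (E.pw Unit).sub (cS E.Pa (nR E ()))

/-- the frame of a point -/
def g1 (x : E.f1.obj C) : E.Γ C := x.1 ()

theorem g1_mem (x : E.f1.obj C) : (g1 x)⁻¹ * E.FF C (g1 x) ∈ E.PP C := x.2

/-- a single frame -/
def mk1 (g : E.Γ C) (h : g⁻¹ * E.FF C g ∈ E.PP C) : E.f1.obj C := ⟨fun _ => g, h⟩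

theorem fs_f1 : FS E.f1 := fun C _ _ I hI g => by
  obtain ⟨p, hp, h1⟩ := lift_P I hI (g1_mem g)
  obtain ⟨g', h2, h3⟩ := lang_fix I hI 1 p⁻¹ (g1 g) (by rw [map_one, map_inv, h1]; group)
  refine ⟨mk1 g' ?_, Subtype.ext (funext fun _ => h3)⟩
  have e : g'⁻¹ * E.FF C g' = p := by
    calc _ = (1 * E.FF C g' * p⁻¹)⁻¹ * E.FF C g' := by rw [h2]
      _ = p := by group
  rw [e]
  exact hp

/-- pairs of frames as a product -/
def ni1 (E : OB k n r) : NI (E.f1.prod E.f1) E.fR where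
  ap C _ _ z := mkR (fun s => cond s (g1 z.2) (g1 z.1)) fun s => by
    cases s
    · exact g1_mem z.1
    · exact g1_mem z.2
  bij C _ _ := ⟨fun z z' e => Prod.ext
      (Subtype.ext (funext fun _ => (congrArg (fun w => gR w false) e :)))
      (Subtype.ext (funext fun _ => (congrArg (fun w => gR w true) e :))),
    fun w => ⟨(mk1 (gR w false) (gR_mem w _), mk1 (gR w true) (gR_mem w _)),
      Subtype.ext (funext fun s => by cases s <;> rfl)⟩⟩
  nat φ z := Subtype.ext (funext fun s => by cases s <;> rfl)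

theorem ex_pfrob {R : Type} [CommRing R] [Algebra k R] {x : E.fR.obj R} (hx : Rp E.fR R x) :
    ∃ φ : R →ₐ[k] R, (φ : R →+* R).Flat ∧ mp φ (gR x false) = mp (fro k R) (gR x false) ∧
      mp φ (gR x true) = gR x true := by
  obtain ⟨A, _, _, y, hy, -⟩ := ex_gen (E := E) (cl_cS E.Pa (nR E ()))
  have := hy.ft
  have := fs_f1.smooth hy
  obtain ⟨e, he⟩ := ((rp_tensor hy hy).iso (ni1 E)).equiv hx
  let ψ : A ⊗[k] A →ₐ[k] A ⊗[k] A := Algebra.TensorProduct.map (fro k A) (AlgHom.id k A)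
  have hψ : (ψ : A ⊗[k] A →+* A ⊗[k] A).Flat :=
    RingHom.Flat.tensorProductMap (flat_fro A) (RingHom.Flat.id A)
  have h1 : gR x false = mp ((e : A ⊗[k] A →ₐ[k] R).comp Algebra.TensorProduct.includeLeft) (g1 y) :=
    (congrArg (fun w => gR w false) he).symm
  have h2 : gR x true = mp ((e : A ⊗[k] A →ₐ[k] R).comp Algebra.TensorProduct.includeRight) (g1 y) :=
    (congrArg (fun w => gR w true) he).symm
  refine ⟨(e : A ⊗[k] A →ₐ[k] R).comp (ψ.comp (e.symm : R →ₐ[k] A ⊗[k] A)), ?_, ?_, ?_⟩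
  · exact ((RingHom.Flat.of_bijective (f := (e.symm : R →+* A ⊗[k] A)) e.symm.bijective).comp
      hψ).comp (RingHom.Flat.of_bijective (f := (e : A ⊗[k] A →+* R)) e.bijective)
  · rw [h1, mp_mp, mp_mp, ← fro_nat]
    congr 2
    ext a
    simp [ψ]
  · rw [h2, mp_mp]
    congr 2
    ext a
    simp [ψ]

/-- scaling the degrees of the first frame -/
def scl (r Q : ℕ) : (Bool × Fin r → ℤ) →+ (Bool × Fin r → ℤ) where
  toFun l p := cond p.1 (l p) (Q • l p)
  map_zero' := by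
    funext p
    cases p.1 <;> simp
  map_add' l l' := by
    funext p
    obtain ⟨s, i⟩ := p
    cases s <;> simp [mul_add]

theorem ex_shift {R : Type} [CommRing R] [Algebra k R] {x : E.fR.obj R} (hx : Rp E.fR R x)
    (hv : Surjective (MvPolynomial.aeval (ent (gR x)) : _ →ₐ[k] R)) (G : MG k (Bool × Fin r) R)
    (hρ : ∀ v, ent (gR x) v ∈ hm G.ρ (dg E some v)) {Z : Subalgebra k R}
    (hZ : ∀ a, a ∈ Z ↔ a ∈ hm G.ρ 0) : ∃ φ : Z →+* Z, φ.Flat ∧ ∀ a,
      ((bI ((nF E a).g R (gR x))).comap (Z.val : Z →+* R)).map φ =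
        (bI ((nF E (a + 1)).g R (gR x))).comap (Z.val : Z →+* R) := by
  obtain ⟨φ, hφ, h0, h1⟩ := ex_pfrob hx
  have h2 : ∀ a ∈ Z, φ a ∈ Z := fun a ha => by
    have h3 := hm_le hv hρ (fun l => (hm G.ρ (scl r (Fintype.card k) l)).comap φ.toLinearMap)
      (by
        show φ 1 ∈ hm G.ρ (scl r _ 0)
        rw [map_one, map_zero]
        exact hm_one _)
      (fun l l' a b ha hb => by
        show φ (a * b) ∈ hm G.ρ (scl r _ (l + l'))
        rw [map_mul, map_add]
        exact hm_mul ha hb)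
      (by
        rintro ⟨s, a, b⟩
        show φ (ent (gR x) (s, a, b)) ∈ hm G.ρ (scl r _ (dg E some (s, a, b)))
        cases s
        · have e1 : φ (ent (gR x) (false, a, b)) = ent (gR x) (false, a, b) ^ Fintype.card k :=
            congrFun (congrFun (congrArg mx h0) a) b
          have e2 : scl r (Fintype.card k) (dg E some (false, a, b)) =
              Fintype.card k • dg E some (false, a, b) := by
            funext p
            obtain ⟨s, i⟩ := p
            cases s <;> simp [scl, dg, emb]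
          rw [e1, e2]
          exact hm_pow (hρ _) _
        · have e1 : φ (ent (gR x) (true, a, b)) = ent (gR x) (true, a, b) :=
            congrFun (congrFun (congrArg mx h1) a) b
          have e2 : scl r (Fintype.card k) (dg E some (true, a, b)) = dg E some (true, a, b) := by
            funext p
            obtain ⟨s, i⟩ := p
            cases s <;> simp [scl, dg, emb]
          rw [e1, e2]
          exact hρ _) ((hZ a).1 ha)
    rw [hZ, ← map_zero (scl r (Fintype.card k))]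
    exact h3
  let φ0 : Z →+* Z := (φ : R →+* R).restrict Z Z h2
  have h3 : (Z.val : Z →+* R).comp φ0 = (φ : R →+* R).comp (Z.val : Z →+* R) := rfl
  obtain ⟨pr, hp1, hp2⟩ := G.ex_pr hZ
  refine ⟨φ0, flat_of_pr (Z.val : Z →+* R) pr.toAddMonoidHom hp1 hp2 φ0 ?_, fun a =>
    map_inj_pr (Z.val : Z →+* R) pr.toAddMonoidHom hp1 hp2 ?_⟩
  · rw [h3]
    exact (G.flat_val hZ).comp hφ
  · rw [Ideal.map_map, h3, ← Ideal.map_map, bI_hom hv G hρ hZ _ (inv_nF a),
      bI_hom hv G hρ hZ _ (inv_nF (a + 1)), bI_map]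
    congr 1
    show mp φ ((mp (fro k R ^ a) (gR x false))⁻¹ * gR x true) =
      (mp (fro k R ^ (a + 1)) (gR x false))⁻¹ * gR x true
    rw [map_mul, map_inv, h1, mp_mp, fro_pow_nat, ← mp_mp, h0, mp_mp, pow_succ]
    rfl

end Pool.Agent.P.MP_1bf4cb_ag.RG
end
end

-- part Pool.Agent.P.MP_1bf4cb_ag.RZ
section

set_option autoImplicit false
set_option maxHeartbeats 400000
set_option linter.unusedSectionVars false
set_option linter.unusedVariables false
set_option linter.unusedSimpArgs false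

open Function Matrix MvPolynomial

noncomputable section

namespace Pool.Agent.P.MP_1bf4cb_ag.RG

variable {k : Type} [Field k] {C : Type} [CommRing C] [Algebra k C]

theorem vl_mul {n : ℕ} (g : Mx n C) (a b : Pn k n) : vl g (a * b) = vl g a * vl g b := map_mul _ a b

theorem vl_sub {n : ℕ} (g : Mx n C) (a b : Pn k n) : vl g (a - b) = vl g a - vl g b := map_sub _ a b

theorem s3_sub : (su3 k).G ⊆ (su3 k).Pa ∧ (su3 k).Pa ⊆ (su3 k).B := by
  refine ⟨fun x hx => Or.inl hx, fun x hx => ?_⟩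
  rcases hx with h | h | h
  · exact Or.inl h
  · exact Or.inr (Or.inl h)
  · exact Or.inr (Or.inr (Or.inl h))

theorem cel3 {j : ℕ} (hw : ((su3 k).w j).det = 1)
    (q : (C : Type) → [CommRing C] → Mx 3 C → Prop)
    (hq : ∀ (C : Type) [CommRing C] [Algebra k C] (g : Mx 3 C),
      (Sol ((su3 k).Z (j + 1)) g ∧ Ideal.span (vl g '' (su3 k).Z j) = ⊤) ↔ q C g)
    (h1 : ∀ (C : Type) [CommRing C] [Algebra k C] (a : Fin ((su3 k).l j) → C),
      Sol (su3 k).B (((su3 k).c j).map (aeval a)))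
    (m m' : (C : Type) → [CommRing C] → (Fin ((su3 k).l j) → C) → Mx 3 C)
    (hm : ∀ (C : Type) [CommRing C] [Algebra k C] (a : Fin ((su3 k).l j) → C),
      ((su3 k).c j).map (aeval a) * ((su3 k).w j).map (algebraMap k C) = m C a)
    (hm' : ∀ (C : Type) [CommRing C] (a : Fin ((su3 k).l j) → C), (m C a).adjugate = m' C a)
    (h2 : ∀ (C : Type) [CommRing C] (a : Fin ((su3 k).l j) → C) (b : Mx 3 C),
      b 0 0 * b 1 1 * b 2 2 = 1 → b 2 0 = 0 → b 2 1 = 0 → b 1 0 = 0 → q C (m C a * b))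
    (h3 : ∀ (C : Type) [CommRing C] (g : Mx 3 C), q C g →
      ∃! a : Fin ((su3 k).l j) → C, (m' C a * g) 2 0 = 0 ∧ (m' C a * g) 2 1 = 0 ∧
        (m' C a * g) 1 0 = 0) : (su3 k).Cel j := by
  refine cel_of s3_grp.1 (s3_sub.1.trans s3_sub.2) ((s3G _).2 hw) q hq h1 (fun C _ _ a b hb => ?_)
    fun C _ _ g hg h => ?_
  · obtain ⟨h4, h5, h6, h7⟩ := (s3B b).1 hb
    rw [det_fin_three, h5, h6, h7] at h4
    rw [hm]
    exact h2 C a b (by linear_combination h4) h5 h6 h7
  · refine (existsUnique_congr fun a => ?_).1 (h3 C g h)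
    rw [s3B, ← hm', ← hm, det_mul, det_adj3, (s3G g).1 hg]
    · simp only [one_mul, true_and]
    · rw [det_mul, ((s3B _).1 (h1 C a)).1, one_mul]
      exact (s3G _).1 (((s3G _).2 hw).map (Algebra.ofId k C))

theorem s3_c0 : (su3 k).Cel 0 := by
  refine cel3 det_one (fun C _ g => g 2 0 = 0 ∧ g 2 1 = 0 ∧ g 1 0 = 0) (fun C _ _ g => ?_)
    (fun C _ _ a => ?_) (fun C _ a => 1) (fun C _ a => 1) (fun C _ _ a => ?_)
    (fun C _ a => adjugate_one) (fun C _ a b h1 h2 h3 h4 => ?_) fun C _ g h => ?_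
  · simp [Sol, su3, vl_X, vl]
  · have e : ((su3 k).c 0).map (aeval a) = 1 := Matrix.map_one _ (map_zero _) (map_one _)
    rw [e]
    exact (s3_grp.2.1 C).1
  · have e : ((su3 k).c 0).map (aeval a) = 1 := Matrix.map_one _ (map_zero _) (map_one _)
    have e' : ((su3 k).w 0).map (algebraMap k C) = 1 := Matrix.map_one _ (map_zero _) (map_one _)
    rw [e, e', Matrix.one_mul]
  · rw [Matrix.one_mul]
    exact ⟨h2, h3, h4⟩
  · exact ⟨Fin.elim0, by rw [Matrix.one_mul]; exact h, fun y _ => funext fun i => i.elim0⟩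

theorem s3_m1 (a : Fin 1 → C) : ((su3 k).c 1).map (aeval a) = !![1, a 0, 0; 0, 1, 0; 0, 0, 1] := by
  show (!![1, X 0, 0; 0, 1, 0; 0, 0, 1] : Mx 3 (MvPolynomial (Fin 1) k)).map (aeval a) = _
  ext s t
  fin_cases s <;> fin_cases t <;> simp

theorem s3_c1 : (su3 k).Cel 1 := by
  refine cel3 (by simp [su3, det_fin_three])
    (fun C _ g => (g 2 0 = 0 ∧ g 2 1 = 0) ∧ IsUnit (g 1 0)) (fun C _ _ g => ?_)
    (fun C _ _ a => ?_) (fun C _ (a : Fin 1 → C) => !![a 0, -1, 0; 1, 0, 0; 0, 0, 1])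
    (fun C _ (a : Fin 1 → C) => !![0, 1, 0; -1, a 0, 0; 0, 0, 1]) (fun C _ _ a => ?_)
    (fun C _ a => by simp [adjugate_fin_three]) (fun C _ a b h1 h2 h3 h4 => ?_) fun C _ g h => ?_
  · have e : Sol ((su3 k).Z 2) g ↔ g 2 0 = 0 ∧ g 2 1 = 0 := by simp [Sol, su3, vl_X]
    rw [e]
    refine and_congr_right fun h => ?_
    rw [span_top_iff (f := X (1, 0)) (by simp [su3]) (by simp [su3, vl_X, h.1, h.2]), vl_X]
  · refine (congrArg (Sol (su3 k).B) (s3_m1 a)).mpr ?_
    simp [s3B, det_fin_three]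
  · refine (congrArg (· * _) (s3_m1 a)).trans ?_
    ext s t
    fin_cases s <;> fin_cases t <;> simp [su3, mul_apply, Fin.sum_univ_three]
  · simp only [mul_apply, Fin.sum_univ_three]
    simp [h2, h3]
    exact IsUnit.of_mul_eq_one (b 1 1 * b 2 2) (by linear_combination h1)
  · obtain ⟨⟨h1, h2⟩, h3⟩ := h
    obtain ⟨v, hv⟩ := h3.exists_right_inv
    simp only [mul_apply, Fin.sum_univ_three]
    refine ⟨fun _ => g 0 0 * v, ?_, fun y hy => funext fun i => ?_⟩
    · simp [h1, h2]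
      linear_combination g 0 0 * hv
    · simp [h1, h2] at hy
      rw [Subsingleton.elim (α := Fin 1) i 0]
      linear_combination v * hy - y (0 : Fin 1) * hv

theorem s3_m2 (a : Fin 1 → C) : ((su3 k).c 2).map (aeval a) = !![1, 0, 0; 0, 1, a 0; 0, 0, 1] := by
  show (!![1, 0, 0; 0, 1, X 0; 0, 0, 1] : Mx 3 (MvPolynomial (Fin 1) k)).map (aeval a) = _
  ext s t
  fin_cases s <;> fin_cases t <;> simp

theorem s3_c2 : (su3 k).Cel 2 := by
  refine cel3 (by simp [su3, det_fin_three])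
    (fun C _ g => (g 2 0 = 0 ∧ g 1 0 * g 2 1 = 0) ∧ IsUnit (g 2 1)) (fun C _ _ g => ?_)
    (fun C _ _ a => ?_) (fun C _ (a : Fin 1 → C) => !![1, 0, 0; 0, a 0, -1; 0, 1, 0])
    (fun C _ (a : Fin 1 → C) => !![1, 0, 0; 0, 0, 1; 0, -1, a 0]) (fun C _ _ a => ?_)
    (fun C _ a => by simp [adjugate_fin_three]) (fun C _ a b h1 h2 h3 h4 => ?_) fun C _ g h => ?_
  · have e : Sol ((su3 k).Z 3) g ↔ g 2 0 = 0 ∧ g 1 0 * g 2 1 = 0 := by
      simp [Sol, su3, vl_X, vl_mul]
    rw [e]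
    refine and_congr_right fun h => ?_
    rw [span_top_iff (f := X (2, 1)) (by simp [su3]) (by simp [su3, vl_X, h.1]), vl_X]
  · refine (congrArg (Sol (su3 k).B) (s3_m2 a)).mpr ?_
    simp [s3B, det_fin_three]
  · refine (congrArg (· * _) (s3_m2 a)).trans ?_
    ext s t
    fin_cases s <;> fin_cases t <;> simp [su3, mul_apply, Fin.sum_univ_three]
  · simp only [mul_apply, Fin.sum_univ_three]
    simp [h2, h4]
    exact IsUnit.of_mul_eq_one (b 0 0 * b 2 2) (by linear_combination h1)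
  · obtain ⟨⟨h1, h2⟩, h3⟩ := h
    obtain ⟨v, hv⟩ := h3.exists_right_inv
    have h4 : g 1 0 = 0 := by linear_combination v * h2 - g 1 0 * hv
    simp only [mul_apply, Fin.sum_univ_three]
    refine ⟨fun _ => g 1 1 * v, ?_, fun y hy => funext fun i => ?_⟩
    · simp [h1, h4]
      linear_combination g 1 1 * hv
    · simp [h1, h4] at hy
      rw [Subsingleton.elim (α := Fin 1) i 0]
      linear_combination v * hy - y (0 : Fin 1) * hv

theorem s3_m3 (a : Fin 2 → C) : ((su3 k).c 3).map (aeval a) = !![1, a 0, a 1; 0, 1, 0; 0, 0, 1] := by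
  show (!![1, X 0, X 1; 0, 1, 0; 0, 0, 1] : Mx 3 (MvPolynomial (Fin 2) k)).map (aeval a) = _
  ext s t
  fin_cases s <;> fin_cases t <;> simp

theorem s3_c3 : (su3 k).Cel 3 := by
  refine cel3 (by simp [su3, det_fin_three])
    (fun C _ g => g 2 0 = 0 ∧ IsUnit (g 1 0 * g 2 1)) (fun C _ _ g => ?_)
    (fun C _ _ a => ?_) (fun C _ (a : Fin 2 → C) => !![a 0, a 1, 1; 1, 0, 0; 0, 1, 0])
    (fun C _ (a : Fin 2 → C) => !![0, 1, 0; 0, 0, 1; 1, -a 0, -a 1]) (fun C _ _ a => ?_)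
    (fun C _ a => by simp [adjugate_fin_three]) (fun C _ a b h1 h2 h3 h4 => ?_) fun C _ g h => ?_
  · have e : Sol ((su3 k).Z 4) g ↔ g 2 0 = 0 := by simp [Sol, su3, vl_X]
    rw [e]
    refine and_congr_right fun h => ?_
    rw [span_top_iff (f := X (1, 0) * X (2, 1)) (by simp [su3]) (by simp [su3, vl_X, h]), vl_mul,
      vl_X, vl_X]
  · refine (congrArg (Sol (su3 k).B) (s3_m3 a)).mpr ?_
    simp [s3B, det_fin_three]
  · refine (congrArg (· * _) (s3_m3 a)).trans ?_
    ext s t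
    fin_cases s <;> fin_cases t <;> simp [su3, mul_apply, Fin.sum_univ_three]
  · simp only [mul_apply, Fin.sum_univ_three]
    simp [-IsUnit.mul_iff, h4]
    exact IsUnit.of_mul_eq_one (b 2 2) h1
  · obtain ⟨h1, h3⟩ := h
    obtain ⟨v, hv⟩ := h3.exists_right_inv
    simp only [mul_apply, Fin.sum_univ_three]
    refine ⟨![g 0 0 * g 2 1 * v, (g 0 1 - g 0 0 * g 2 1 * v * g 1 1) * g 1 0 * v], ?_,
      fun y hy => ?_⟩
    · simp [h1]
      exact ⟨by linear_combination -g 0 0 * hv,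
        by linear_combination -(g 0 1 - g 0 0 * g 2 1 * v * g 1 1) * hv⟩
    · simp [h1] at hy
      obtain ⟨h4, h5⟩ := hy
      have e0 : y (0 : Fin 2) = g 0 0 * g 2 1 * v := by
        linear_combination -g 2 1 * v * h4 - y (0 : Fin 2) * hv
      have e1 : y (1 : Fin 2) = (g 0 1 - g 0 0 * g 2 1 * v * g 1 1) * g 1 0 * v := by
        rw [← e0]
        linear_combination -g 1 0 * v * h5 - y (1 : Fin 2) * hv
      funext i
      fin_cases i
      · exact e0
      · exact e1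

theorem s3_m4 (a : Fin 2 → C) : ((su3 k).c 4).map (aeval a) = !![1, 0, a 0; 0, 1, a 1; 0, 0, 1] := by
  show (!![1, 0, X 0; 0, 1, X 1; 0, 0, 1] : Mx 3 (MvPolynomial (Fin 2) k)).map (aeval a) = _
  ext s t
  fin_cases s <;> fin_cases t <;> simp

theorem s3_c4 : (su3 k).Cel 4 := by
  refine cel3 (by simp [su3, det_fin_three])
    (fun C _ g => g 2 0 * (g 1 0 * g 2 1 - g 1 1 * g 2 0) = 0 ∧ IsUnit (g 2 0)) (fun C _ _ g => ?_)
    (fun C _ _ a => ?_) (fun C _ (a : Fin 2 → C) => !![a 0, 1, 0; a 1, 0, 1; 1, 0, 0])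
    (fun C _ (a : Fin 2 → C) => !![0, 0, 1; 1, 0, -a 0; 0, 1, -a 1]) (fun C _ _ a => ?_)
    (fun C _ a => by simp [adjugate_fin_three]) (fun C _ a b h1 h2 h3 h4 => ?_) fun C _ g h => ?_
  · have e : Sol ((su3 k).Z 5) g ↔ g 2 0 * (g 1 0 * g 2 1 - g 1 1 * g 2 0) = 0 := by
      simp [Sol, su3, vl_X, vl_mul, vl_sub]
    rw [e]
    refine and_congr_right fun h => ?_
    rw [span_top_iff (f := X (2, 0)) (by simp [su3]) (by simp [su3]), vl_X]
  · refine (congrArg (Sol (su3 k).B) (s3_m4 a)).mpr ?_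
    simp [s3B, det_fin_three]
  · refine (congrArg (· * _) (s3_m4 a)).trans ?_
    ext s t
    fin_cases s <;> fin_cases t <;> simp [su3, mul_apply, Fin.sum_univ_three]
  · simp only [mul_apply, Fin.sum_univ_three]
    simp [h2, h3]
    exact ⟨by ring, IsUnit.of_mul_eq_one (b 1 1 * b 2 2) (by linear_combination h1)⟩
  · obtain ⟨h1, h3⟩ := h
    obtain ⟨v, hv⟩ := h3.exists_right_inv
    simp only [mul_apply, Fin.sum_univ_three]
    refine ⟨![g 0 0 * v, g 1 0 * v], ?_, fun y hy => ?_⟩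
    · simp
      exact ⟨by linear_combination -g 1 0 * hv,
        by linear_combination -v * v * h1 + (v * g 1 0 * g 2 1 - g 1 1 - g 1 1 * g 2 0 * v) * hv,
        by linear_combination -g 0 0 * hv⟩
    · simp at hy
      obtain ⟨h4, -, h5⟩ := hy
      funext i
      fin_cases i
      · show y (0 : Fin 2) = g 0 0 * v
        linear_combination -v * h5 - y (0 : Fin 2) * hv
      · show y (1 : Fin 2) = g 1 0 * v
        linear_combination -v * h4 - y (1 : Fin 2) * hv

theorem s3_m5 (a : Fin 3 → C) : ((su3 k).c 5).map (aeval a) = !![1, a 0, a 1; 0, 1, a 2; 0, 0, 1] := by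
  show (!![1, X 0, X 1; 0, 1, X 2; 0, 0, 1] : Mx 3 (MvPolynomial (Fin 3) k)).map (aeval a) = _
  ext s t
  fin_cases s <;> fin_cases t <;> simp

theorem s3_c5 : (su3 k).Cel 5 := by
  refine cel3 (by simp [su3, det_fin_three])
    (fun C _ g => IsUnit (g 2 0 * (g 1 0 * g 2 1 - g 1 1 * g 2 0))) (fun C _ _ g => ?_)
    (fun C _ _ a => ?_) (fun C _ (a : Fin 3 → C) => !![a 1, -a 0, 1; a 2, -1, 0; 1, 0, 0])
    (fun C _ (a : Fin 3 → C) => !![0, 0, 1; 0, -1, a 2; 1, -a 0, a 0 * a 2 - a 1])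
    (fun C _ _ a => ?_)
    (fun C _ a => ?_) (fun C _ a b h1 h2 h3 h4 => ?_) fun C _ g h => ?_
  · have e : Sol ((su3 k).Z 6) g := fun f hf => hf.elim
    rw [and_iff_right e, span_top_iff (S := (su3 k).Z 5)
      (f := X (2, 0) * (X (1, 0) * X (2, 1) - X (1, 1) * X (2, 0))) rfl fun z hz => Or.inl hz]
    simp only [vl_mul, vl_sub, vl_X]
  · refine (congrArg (Sol (su3 k).B) (s3_m5 a)).mpr ?_
    simp [s3B, det_fin_three]
  · refine (congrArg (· * _) (s3_m5 a)).trans ?_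
    ext s t
    fin_cases s <;> fin_cases t <;> simp [su3, mul_apply, Fin.sum_univ_three]
  · simp [adjugate_fin_three]
    ring
  · simp only [mul_apply, Fin.sum_univ_three]
    simp [-IsUnit.mul_iff, h4]
    exact IsUnit.of_mul_eq_one (b 1 1 * b 2 2 * b 2 2) (by
      linear_combination (b 0 0 * b 1 1 * b 2 2 + 1) * h1)
  · obtain ⟨h1, h2⟩ := IsUnit.mul_iff.1 h
    obtain ⟨v, hv⟩ := h1.exists_right_inv
    obtain ⟨w, hw⟩ := h2.exists_right_inv
    simp only [mul_apply, Fin.sum_univ_three]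
    refine ⟨![(g 0 0 * g 2 1 - g 0 1 * g 2 0) * w, g 0 0 * v, g 1 0 * v], ?_, fun y hy => ?_⟩
    · simp
      exact ⟨by linear_combination ((g 0 0 * g 2 1 - g 0 1 * g 2 0) * w * g 1 0 - g 0 0) * hv,
        by linear_combination (v * (g 0 0 * g 2 1 - g 0 1 * g 2 0) * hw +
          ((g 0 0 * g 2 1 - g 0 1 * g 2 0) * w * g 1 1 - g 0 1) * hv),
        by linear_combination g 1 0 * hv⟩
    · simp at hy
      obtain ⟨h4, h5, h6⟩ := hy
      funext i
      fin_cases i
      · show y (0 : Fin 3) = (g 0 0 * g 2 1 - g 0 1 * g 2 0) * w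
        linear_combination w * g 2 0 * h5 - w * g 2 1 * h4 - y (0 : Fin 3) * hw
      · show y (1 : Fin 3) = g 0 0 * v
        linear_combination -v * h4 + v * y (0 : Fin 3) * h6 - y (1 : Fin 3) * hv
      · show y (2 : Fin 3) = g 1 0 * v
        linear_combination v * h6 - y (2 : Fin 3) * hv

theorem su3_ok (k : Type) [Field k] [Finite k] : (su3 k).Ok := by
  cases nonempty_fintype k
  refine ⟨s3_grp, s3_sub, s3_smo, s3_hom, s3_pow, s3_bor, s3_span, ⟨rfl, rfl⟩, fun j hj => ?_,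
    s3_dbl⟩
  have h : j < 6 := hj
  interval_cases j
  exacts [s3_c0, s3_c1, s3_c2, s3_c3, s3_c4, s3_c5]

end Pool.Agent.P.MP_1bf4cb_ag.RG
end
end

-- part Pool.Agent.P.MP_1bf4cb_ag.RQ
section

set_option autoImplicit false
set_option maxHeartbeats 400000
set_option linter.unusedSectionVars false
set_option linter.unusedVariables false

open Function Matrix
open scoped TensorProduct

noncomputable section

namespace Pool.Agent.P.MP_1bf4cb_ag.RG

variable {k : Type} [Field k] {n r : ℕ} {C C' : Type} [CommRing C] [Algebra k C] [CommRing C']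
  [Algebra k C'] {E : OB k n r} {κ : Type} {j : ℕ}

/-- the twisted endomorphism -/
def psi (γ : E.Γ C) (g : E.Γ C) : E.Γ C := γ * E.FF C g

theorem psi_map (φ : C →ₐ[k] C') (γ g : E.Γ C) (m : ℕ) :
    mp φ ((psi γ)^[m] g) = (psi (mp φ γ))^[m] (mp φ g) := by
  induction m with
  | zero => rfl
  | succ m ih =>
    rw [iterate_succ_apply', iterate_succ_apply', ← ih]
    unfold psi
    rw [map_mul, mp_FF]

theorem psi_mul (γ g b : E.Γ C) (m : ℕ) :
    (psi γ)^[m] (g * b) = (psi γ)^[m] g * (E.FF C)^[m] b := by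
  induction m with
  | zero => rfl
  | succ m ih =>
    rw [iterate_succ_apply', iterate_succ_apply', iterate_succ_apply', ih]
    unfold psi
    rw [map_mul, mul_assoc]

theorem psi_lang (z g : E.Γ C) (m : ℕ) :
    (psi (z * (E.FF C z)⁻¹))^[m] (z * g) = z * (E.FF C)^[m] g := by
  rw [psi_mul, iterate_fixed]
  exact inv_mul_cancel_right _ _

theorem FF_iter_BB {b : E.Γ C} (h : b ∈ E.BB C) (m : ℕ) : (E.FF C)^[m] b ∈ E.BB C := by
  induction m with
  | zero => exact h
  | succ m ih =>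
    rw [iterate_succ_apply']
    exact FF_BB ih

/-- the universal graphs -/
def nJ (E : OB k n r) (m : ℕ) : NG (E.pw (Option Bool)) E :=
  ⟨fun C _ _ (x : Option Bool → E.Γ C) =>
    ((psi (x none))^[m] (x (some false)))⁻¹ * x (some true), fun φ x => by
    rw [map_mul, map_inv, psi_map]
    rfl⟩

theorem inv_nJ (m : ℕ) : Inv id (cS E.B (nJ E m)) := fun C _ _ x b hb hx => by
  show ((psi (x none * 1))^[m] (x (some false) * b false))⁻¹ * (x (some true) * b true) ∈ E.BB C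
  have e : ((psi (x none * 1))^[m] (x (some false) * b false))⁻¹ * (x (some true) * b true) =
      ((E.FF C)^[m] (b false))⁻¹ * (((psi (x none))^[m] (x (some false)))⁻¹ * x (some true)) *
        b true := by
    rw [mul_one, psi_mul]
    group
  rw [e]
  exact mul_mem (mul_mem (inv_mem (FF_iter_BB (hb _) m)) hx) (hb _)

theorem ex_top (E : OB k n r) : ∃ j, j + 1 = E.M := by
  refine Nat.exists_eq_add_one.2 (Nat.pos_of_ne_zero fun h => ?_) |>.imp fun _ h => h.symm
  have h1 := E.ok.ends.2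
  rw [h, E.ok.ends.1] at h1
  exact Set.singleton_ne_empty _ h1

/-- an open part of a cell -/
def fO (hj : j < E.M) (f : Pn k n) : Fn k := (E.fC j).loc (nv (nC hj) f)

/-- the group element of a point of the open part -/
def gO {hj : j < E.M} {f : Pn k n} (y : (fO hj f).obj C) : E.Γ C := cel hj y.1

theorem mp_gO {hj : j < E.M} {f : Pn k n} (φ : C →ₐ[k] C') (y : (fO hj f).obj C) :
    mp φ (gO y) = gO ((fO hj f).map φ y) := mp_cel hj φ y.1

/-- the Lang map -/
def lam (hj : j < E.M) (f : Pn k n) (C : Type) [CommRing C] [Algebra k C]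
    (z : (E.fR.prod (fO hj f)).obj C) : E.fU.obj C :=
  mkU (fun s => gO z.2 * gR z.1 s) (gO z.2 * (E.FF C (gO z.2))⁻¹) fun s => by
    have e : (gO z.2 * gR z.1 s)⁻¹ * (gO z.2 * (E.FF C (gO z.2))⁻¹) * E.FF C (gO z.2 * gR z.1 s) =
        (gR z.1 s)⁻¹ * E.FF C (gR z.1 s) := by
      rw [map_mul]
      group
    rw [e]
    exact gR_mem _ _

theorem lam_nat (hj : j < E.M) (f : Pn k n) (φ : C →ₐ[k] C') (z : (E.fR.prod (fO hj f)).obj C) :
    lam hj f C' ((E.fR.prod (fO hj f)).map φ z) = E.fU.map φ (lam hj f C z) := by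
  refine ext_U (fun s => ?_) ?_
  · show gO ((fO hj f).map φ z.2) * mp φ (gR z.1 s) = mp φ (gO z.2 * gR z.1 s)
    rw [map_mul, mp_gO]
  · show gO ((fO hj f).map φ z.2) * (E.FF C' (gO ((fO hj f).map φ z.2)))⁻¹ =
      mp φ (gO z.2 * (E.FF C (gO z.2))⁻¹)
    rw [map_mul, map_inv, mp_FF, mp_gO]

variable [Fintype k]

theorem lam_lift (hj : j < E.M) (hM : j + 1 = E.M) {f : Pn k n} (hf : f ∈ E.Z j) (C : Type)
    [CommRing C] [Algebra k C] (I : Ideal C) (hI : I ^ 2 = ⊥) (u : E.fU.obj C)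
    (z : (E.fR.prod (fO hj f)).obj (C ⧸ I))
    (h : E.fU.map (Ideal.Quotient.mkₐ k I) u = lam hj f _ z) :
    ∃ z', lam hj f C z' = u ∧ (E.fR.prod (fO hj f)).map (Ideal.Quotient.mkₐ k I) z' = z := by
  have h1 : mp (Ideal.Quotient.mkₐ k I) (gU u none) = gO z.2 * (E.FF _ (gO z.2))⁻¹ :=
    congrArg (fun w => gU w none) h
  have h2 : ∀ s, mp (Ideal.Quotient.mkₐ k I) (gU u (some s)) = gO z.2 * gR z.1 s := fun s =>
    congrArg (fun w => gU w (some s)) h
  obtain ⟨c, h3, h4⟩ := lang_fix I hI (gU u none) 1 (gO z.2) (by rw [h1, map_one]; group)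
  have hu : IsUnit (vl (mx c) f) := by
    rw [← IsNilpotent.isUnit_quotient_mk_iff (I := I) ⟨2, hI⟩, ← Ideal.Quotient.mkₐ_eq_mk k,
      ← vl_map, ← mx_mp, h4]
    exact z.2.2
  obtain ⟨y, hy⟩ := cel_surj hj (g := c) (by
      rw [hM, E.ok.ends.2]
      exact fun f hf => hf.elim)
    (Ideal.eq_top_of_isUnit_mem _ (Ideal.subset_span ⟨f, hf, rfl⟩) hu)
  subst hy
  have h5 : gU u none = cel hj y * (E.FF C (cel hj y))⁻¹ := by
    rw [mul_one] at h3
    exact eq_mul_inv_of_mul_eq h3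
  refine ⟨(mkR (fun s => (cel hj y)⁻¹ * gU u (some s)) fun s => ?_, ⟨y, hu⟩),
    ext_U (fun s => mul_inv_cancel_left (cel hj y) _) h5.symm,
    Prod.ext (Subtype.ext (funext fun s => ?_)) (Subtype.ext (cel_inj hj ?_))⟩
  · have e : ((cel hj y)⁻¹ * gU u (some s))⁻¹ * E.FF C ((cel hj y)⁻¹ * gU u (some s)) =
        (gU u (some s))⁻¹ * gU u none * E.FF C (gU u (some s)) := by
      rw [h5, map_mul, map_inv]
      group
    rw [e]
    exact gU_mem u s
  · show mp (Ideal.Quotient.mkₐ k I) ((cel hj y)⁻¹ * gU u (some s)) = gR z.1 s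
    rw [map_mul, map_inv, h4, h2, inv_mul_cancel_left]
  · exact (mp_cel hj _ y).symm.trans h4

theorem ex_fgH {R : Type} [CommRing R] [Algebra k R] {x : E.fR.obj R} (hx : Rp E.fR R x)
    (hv : Surjective (MvPolynomial.aeval (ent (gR x)) : _ →ₐ[k] R)) (G : MG k (Bool × Fin r) R)
    (hρ : ∀ v, ent (gR x) v ∈ hm G.ρ (dg E some v)) {Z : Subalgebra k R}
    (hZ : ∀ a, a ∈ Z ↔ a ∈ hm G.ρ 0) (hft : Algebra.FiniteType k Z) :
    ∃ (H : AddSubgroup (G0 Z)) (e : ℕ), H.FG ∧ 0 < e ∧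
      ∀ i, cyc ((bI ((nF E (e * i)).g R (gR x))).comap (Z.val : Z →+* R)) ∈ H := by
  have := Algebra.FiniteType.isNoetherianRing k Z
  obtain ⟨j, hM⟩ := ex_top E
  have hj : j < E.M := by omega
  obtain ⟨f, hf, hu⟩ := ex_unit hj
  obtain ⟨L, _, _, δ, ω, ε, hL, -, -, hS⟩ := (po_fC (y0 E j)).loc (nv (nC hj) f) hu Z hft
  obtain ⟨O, _, _, y, hy⟩ : Ex (fO hj f) := ex_fC.loc _
  obtain ⟨eq, heq⟩ := (rp_tensor (rp_hF hft) hy).equiv hL
  have heq1 : (eq : Z ⊗[k] O →ₐ[k] L).comp Algebra.TensorProduct.includeLeft = δ :=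
    congrArg Prod.fst heq
  obtain ⟨U, _, _, u, hU, hUs⟩ := ex_gen (E := E) ((cl_cS E.Pa (nU E false)).and (cl_cS _ (nU E true)))
  obtain ⟨GU, hGU⟩ := ex_MG (sel := id) (fun s => ⟨some s, rfl⟩) inv_cU hU hUs
  have := hU.noeth
  have hc : Cell (hm0 GU.ρ) := GU.cell (mem_hm0 _) (cf_fU U u hU)
  have hT := rp_tensor hx hy
  obtain ⟨θ, hθ⟩ := hU.ex (R ⊗[k] O) (lam hj f _ (E.fR.map Algebra.TensorProduct.includeLeft x,
    (fO hj f).map Algebra.TensorProduct.includeRight y))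
  have hθf := flat_of_lift hU hT (lam hj f) (fun φ z => lam_nat hj f φ z)
    (lam_lift hj hM hf) θ hθ
  let ι : Z ⊗[k] O →ₐ[k] R ⊗[k] O := Algebra.TensorProduct.map Z.val (AlgHom.id k O)
  have hι : Injective ι := Module.Flat.rTensor_preserves_injective_linearMap (M := O)
    Z.val.toLinearMap Subtype.val_injective
  obtain ⟨pr, hp1, hp2⟩ := G.ex_pr hZ
  have hq1 : ∀ a b, pr.rTensor O (ι a * b) = a * pr.rTensor O b := fun a b => by
    induction a using TensorProduct.induction_on with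
    | zero => simp
    | add a a' h h' => rw [map_add, add_mul, map_add, h, h', add_mul]
    | tmul a o =>
      induction b using TensorProduct.induction_on with
      | zero => simp
      | add b b' h h' => rw [mul_add, map_add, h, h', map_add, mul_add]
      | tmul b o' =>
        rw [Algebra.TensorProduct.map_tmul, Algebra.TensorProduct.tmul_mul_tmul,
          LinearMap.rTensor_tmul, LinearMap.rTensor_tmul, Algebra.TensorProduct.tmul_mul_tmul,
          ← hp1]
        rfl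
  have hq2 : pr.rTensor O 1 = 1 := by
    rw [Algebra.TensorProduct.one_def, LinearMap.rTensor_tmul, hp2]
    rfl
  have h1 : ∀ s, mp θ (gU u (some s)) = mp Algebra.TensorProduct.includeRight (gO y) *
      mp Algebra.TensorProduct.includeLeft (gR x s) := fun s => by
    rw [mp_gO]
    exact congrArg (fun w => gU w (some s)) hθ
  have h2 : mp θ (gU u none) = mp Algebra.TensorProduct.includeRight (gO y) *
      (E.FF _ (mp Algebra.TensorProduct.includeRight (gO y)))⁻¹ := by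
    rw [mp_gO]
    exact congrArg (fun w => gU w none) hθ
  have h3 : ∀ a ∈ hm0 GU.ρ, θ a ∈ ι.range := fun a ha => by
    let K : (Bool × Fin r → ℤ) → Submodule k (R ⊗[k] O) := fun l =>
      Submodule.span k {t | ∃ a ∈ hm G.ρ l, ∃ o, t = a ⊗ₜ[k] o}
    have h4 := hm_le hUs hGU (fun l => (K l).comap θ.toLinearMap)
      (by
        show θ 1 ∈ K 0
        rw [map_one]
        exact Submodule.subset_span ⟨1, hm_one _, 1, rfl⟩)
      (fun l l' a b ha hb => by
        show θ (a * b) ∈ K (l + l')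
        rw [map_mul]
        have h5 := Submodule.mul_mem_mul (show θ a ∈ K l from ha) (show θ b ∈ K l' from hb)
        rw [Submodule.span_mul_span] at h5
        refine Submodule.span_mono ?_ h5
        rintro _ ⟨_, ⟨a, ha, o, rfl⟩, _, ⟨b, hb, o', rfl⟩, rfl⟩
        exact ⟨_, hm_mul ha hb, _, Algebra.TensorProduct.tmul_mul_tmul _ _ _ _⟩)
      (by
        rintro ⟨s, a, b⟩
        show mx (mp θ (gU u s)) a b ∈ K (dg E id (s, a, b))
        cases s with
        | none =>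
          rw [h2, ← mp_FF, ← map_inv, ← map_mul]
          exact Submodule.subset_span ⟨1, hm_one _, _, rfl⟩
        | some s =>
          rw [h1, mx_mul, mul_apply]
          refine sum_mem fun c _ => Submodule.subset_span ⟨_, hρ (s, c, b), mx (gO y) a c, ?_⟩
          show ((1 : R) ⊗ₜ[k] _) * (_ ⊗ₜ[k] (1 : O)) = _
          rw [Algebra.TensorProduct.tmul_mul_tmul, one_mul, mul_one]
          rfl) ha
    refine (Submodule.span_le (p := Subalgebra.toSubmodule ι.range)).2 ?_ h4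
    rintro _ ⟨a, ha, o, rfl⟩
    exact ⟨(⟨a, (hZ a).2 ha⟩ : Z) ⊗ₜ[k] o, rfl⟩
  let θ0 : hm0 GU.ρ →ₐ[k] Z ⊗[k] O := ((AlgEquiv.ofInjective ι hι).symm : _ →ₐ[k] _).comp
    ((θ.comp (hm0 GU.ρ).val).codRestrict ι.range fun a => h3 a a.2)
  have h4 : (ι : Z ⊗[k] O →+* R ⊗[k] O).comp (θ0 : hm0 GU.ρ →+* Z ⊗[k] O) =
      (θ : U →+* R ⊗[k] O).comp ((hm0 GU.ρ).val : hm0 GU.ρ →+* U) :=
    RingHom.ext fun a => congrArg Subtype.val
      ((AlgEquiv.ofInjective ι hι).apply_symm_apply ⟨θ a, h3 a a.2⟩)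
  have h5 : (θ0 : hm0 GU.ρ →+* Z ⊗[k] O).Flat := by
    refine flat_of_pr (ι : Z ⊗[k] O →+* R ⊗[k] O) (pr.rTensor O).toAddMonoidHom hq1 hq2 _ ?_
    rw [h4]
    exact (GU.flat_val (mem_hm0 _)).comp hθf
  obtain ⟨H, hH, h6⟩ := key_spec hS ((eq : Z ⊗[k] O →+* L).comp (θ0 : hm0 GU.ρ →+* Z ⊗[k] O))
    (h5.comp (RingHom.Flat.of_bijective (f := (eq : Z ⊗[k] O →+* L)) eq.bijective)) hc
  obtain ⟨ρ, e, he, h7⟩ := FF_iter (E := E)
  refine ⟨H, e, hH, he, fun i => h6 _
    ⟨(bI ((nJ E (ρ * i)).g U u.1)).comap ((hm0 GU.ρ).val : hm0 GU.ρ →+* U), ?_⟩⟩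
  have h8 : (δ : Z →+* L) = (eq : Z ⊗[k] O →+* L).comp
      ((Algebra.TensorProduct.includeLeft : Z →ₐ[k] Z ⊗[k] O) : Z →+* Z ⊗[k] O) := by
    rw [← heq1]
    rfl
  have h9 : (ι : Z ⊗[k] O →+* R ⊗[k] O).comp
      ((Algebra.TensorProduct.includeLeft : Z →ₐ[k] Z ⊗[k] O) : Z →+* Z ⊗[k] O) =
      ((Algebra.TensorProduct.includeLeft : R →ₐ[k] R ⊗[k] O) : R →+* R ⊗[k] O).comp
        (Z.val : Z →+* R) := rfl
  rw [h8, ← Ideal.map_map, ← Ideal.map_map]
  congr 1
  refine map_inj_pr (ι : Z ⊗[k] O →+* R ⊗[k] O) (pr.rTensor O).toAddMonoidHom hq1 hq2 ?_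
  rw [Ideal.map_map, Ideal.map_map, h4, h9, ← Ideal.map_map, ← Ideal.map_map,
    bI_hom hUs GU hGU (mem_hm0 _) _ (inv_nJ _), bI_hom hv G hρ hZ _ (inv_nF _), bI_map, bI_map]
  congr 1
  show mp θ (((psi (gU u none))^[ρ * i] (gU u (some false)))⁻¹ * gU u (some true)) =
    mp _ ((mp (fro k R ^ (e * i)) (gR x false))⁻¹ * gR x true)
  have h10 : ∀ (i : ℕ) (g : E.Γ (R ⊗[k] O)),
      (E.FF _)^[ρ * i] g = mp (fro k _ ^ (e * i)) g := fun i => by
    induction i with
    | zero => exact fun g => rfl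
    | succ i ih =>
      intro g
      rw [mul_add_one, iterate_add_apply, h7, ih, mp_mp, mul_add_one, pow_add]
      rfl
  rw [map_mul, map_inv, psi_map, h1, h1, h2, psi_lang, h10, map_mul, map_inv, mp_mp, mp_mp,
    fro_pow_nat]
  group

end Pool.Agent.P.MP_1bf4cb_ag.RG
end
end

-- part Pool.Agent.P.MP_1bf4cb_ag.TA
section

set_option autoImplicit false
set_option maxHeartbeats 800000
set_option linter.unusedSectionVars false
set_option linter.unusedVariables false
set_option linter.unusedSimpArgs false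

open Function Matrix MvPolynomial

noncomputable section

namespace Pool.Agent.P.MP_1bf4cb_ag.RG

variable {k : Type} [Field k] {C C' : Type} [CommRing C] [CommRing C']

/-- basis vectors -/
abbrev bv (C : Type) [CommRing C] (i : Fin 8) : Fin 8 → C := Pi.single i 1

/-- the norm -/
def nm (x : Fin 8 → C) : C := x 3 * x 4 - x 0 * x 7 - x 5 * x 2 - x 6 * x 1

/-- the polar form -/
def pf (x y : Fin 8 → C) : C := x 3 * y 4 + x 4 * y 3 - x 0 * y 7 - x 7 * y 0 - x 5 * y 2 -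
  x 2 * y 5 - x 6 * y 1 - x 1 * y 6

/-- automorphisms -/
def Au (g : Mx 8 C) : Prop := g.det = 1 ∧ ∀ x y, g *ᵥ om x y = om (g *ᵥ x) (g *ᵥ y)

theorem om_add_l (x x' y : Fin 8 → C) : om (x + x') y = om x y + om x' y := by
  funext l
  fin_cases l <;> simp [om] <;> ring

theorem om_add_r (x y y' : Fin 8 → C) : om x (y + y') = om x y + om x y' := by
  funext l
  fin_cases l <;> simp [om] <;> ring

theorem om_smul_l (c : C) (x y : Fin 8 → C) : om (c • x) y = c • om x y := by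
  funext l
  fin_cases l <;> simp [om] <;> ring

theorem om_smul_r (c : C) (x y : Fin 8 → C) : om x (c • y) = c • om x y := by
  funext l
  fin_cases l <;> simp [om] <;> ring

theorem om_map (φ : C →+* C') (x y : Fin 8 → C) : φ ∘ om x y = om (φ ∘ x) (φ ∘ y) := by
  funext l
  fin_cases l <;> simp [om]

theorem bv_map (φ : C →+* C') (i : Fin 8) : φ ∘ bv C i = bv C' i := by
  funext l
  simp [Pi.single_apply, apply_ite φ]

/-- the product as a bilinear map -/
def omL (C : Type) [CommRing C] : (Fin 8 → C) →ₗ[C] (Fin 8 → C) →ₗ[C] Fin 8 → C :=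
  LinearMap.mk₂ C om om_add_l om_smul_l om_add_r om_smul_r

theorem au_of_bv {g : Mx 8 C} (h1 : g.det = 1)
    (h : ∀ i j, g *ᵥ om (bv C i) (bv C j) = om (g *ᵥ bv C i) (g *ᵥ bv C j)) : Au g := by
  refine ⟨h1, fun x y => ?_⟩
  have e : (omL C).compr₂ (mulVecLin g) = (omL C).compl₁₂ (mulVecLin g) (mulVecLin g) :=
    LinearMap.ext_basis (Pi.basisFun C _) (Pi.basisFun C _) fun i j => by
      rw [Pi.basisFun_apply, Pi.basisFun_apply]
      exact h i j
  exact DFunLike.congr_fun (DFunLike.congr_fun e x) y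

theorem mv_bv (g : Mx 8 C) (j a : Fin 8) : (g *ᵥ bv C j) a = g a j := by
  rw [mulVec_single_one]
  rfl

theorem mv_map (φ : C →+* C') (g : Mx 8 C) (x : Fin 8 → C) :
    g.map φ *ᵥ (φ ∘ x) = φ ∘ (g *ᵥ x) := funext fun a => (φ.map_mulVec g x a).symm

theorem Au.map {g : Mx 8 C} (h : Au g) (φ : C →+* C') : Au (g.map φ) := by
  refine au_of_bv ?_ fun i j => ?_
  · have := φ.map_det g
    rw [h.1, map_one] at this
    exact this.symm
  · rw [← bv_map φ, ← bv_map φ, ← om_map, mv_map, mv_map, mv_map, h.2, om_map]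

theorem sG [Algebra k C] (g : Mx 8 C) : Sol (eG k) g ↔ Au g := by
  let φ : Pn k 8 →+* C := (aeval (fun ab : Fin 8 × Fin 8 => g ab.1 ab.2) : Pn k 8 →ₐ[k] C)
  have h0 : ∀ i j l, vl g ((mvPolynomialX _ _ k *ᵥ om (Pi.single i 1) (Pi.single j 1)) l -
      om (fun a => X (a, i)) (fun a => X (a, j)) l) =
      (g *ᵥ om (bv C i) (bv C j)) l - om (g *ᵥ bv C i) (g *ᵥ bv C j) l := fun i j l => by
    have e1 : ∀ i, φ ∘ (fun a => (X (a, i) : Pn k 8)) = g *ᵥ bv C i := fun i => funext fun a =>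
      (vl_X g a i).trans (mv_bv g i a).symm
    have e2 := congrFun (om_map φ (fun a => X (a, i)) fun a => X (a, j)) l
    have e3 := congrFun (mv_map φ (mvPolynomialX _ _ k) (om (bv _ i) (bv _ j))) l
    have e4 : (mvPolynomialX (Fin 8) (Fin 8) k).map φ = g := gen_map g
    rw [e1, e1] at e2
    rw [om_map, bv_map, bv_map, e4] at e3
    rw [vl_sub, ← e2, e3]
    rfl
  constructor
  · intro h
    refine au_of_bv ?_ fun i j => funext fun l => ?_
    · rw [← sub_eq_zero, ← vl_det (k := k)]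
      exact h _ (Or.inl rfl)
    · rw [← sub_eq_zero, ← h0]
      exact h _ (Or.inr ⟨i, j, l, rfl⟩)
  · rintro h _ (rfl | ⟨i, j, l, rfl⟩)
    · rw [vl_det, h.1, sub_self]
    · rw [h0, h.2, sub_self]

theorem au_one : Au (1 : Mx 8 C) := ⟨det_one, fun x y => by simp only [one_mulVec]⟩

theorem Au.mul {g h : Mx 8 C} (hg : Au g) (hh : Au h) : Au (g * h) :=
  ⟨by rw [det_mul, hg.1, hh.1, one_mul], fun x y => by simp only [← mulVec_mulVec, hh.2, hg.2]⟩

theorem Au.adj_mul {g : Mx 8 C} (hg : Au g) : g.adjugate * g = 1 := by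
  rw [adjugate_mul, hg.1, one_smul]

theorem Au.mul_adj {g : Mx 8 C} (hg : Au g) : g * g.adjugate = 1 := by
  rw [mul_adjugate, hg.1, one_smul]

theorem Au.adj_mv {g : Mx 8 C} (hg : Au g) (x : Fin 8 → C) : g.adjugate *ᵥ (g *ᵥ x) = x := by
  rw [mulVec_mulVec, hg.adj_mul, one_mulVec]

theorem Au.mv_adj {g : Mx 8 C} (hg : Au g) (x : Fin 8 → C) : g *ᵥ (g.adjugate *ᵥ x) = x := by
  rw [mulVec_mulVec, hg.mul_adj, one_mulVec]

theorem Au.adj {g : Mx 8 C} (hg : Au g) : Au g.adjugate :=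
  ⟨by rw [det_adjugate, hg.1, one_pow], fun x y => by
    rw [← hg.mv_adj x, ← hg.mv_adj y, ← hg.2, hg.adj_mv, hg.adj_mv, hg.adj_mv]⟩

theorem om_one_r (x : Fin 8 → C) : om x (bv C 3 + bv C 4) = x := by
  funext l
  fin_cases l <;> simp [om]

theorem om_one_l (x : Fin 8 → C) : om (bv C 3 + bv C 4) x = x := by
  funext l
  fin_cases l <;> simp [om]

theorem om_sq (x : Fin 8 → C) : om x x = (x 3 + x 4) • x - nm x • (bv C 3 + bv C 4) := by
  funext l
  fin_cases l <;> simp [om, nm] <;> ring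

theorem Au.one {g : Mx 8 C} (hg : Au g) : g *ᵥ (bv C 3 + bv C 4) = bv C 3 + bv C 4 := by
  have := hg.2 (bv C 3 + bv C 4) (g.adjugate *ᵥ (bv C 3 + bv C 4))
  rw [om_one_l, hg.mv_adj, om_one_r] at this
  exact this.symm

theorem Au.key {g : Mx 8 C} (hg : Au g) (x : Fin 8 → C) :
    ((g *ᵥ x) 3 + (g *ᵥ x) 4 - (x 3 + x 4)) • x = (nm (g *ᵥ x) - nm x) • (bv C 3 + bv C 4) := by
  have h := hg.2 x x
  rw [om_sq, om_sq, mulVec_sub, mulVec_smul, mulVec_smul, hg.one] at h
  have h2 := congrArg (g.adjugate *ᵥ ·) h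
  simp only [mulVec_sub, mulVec_smul, hg.adj_mv, hg.adj.one] at h2
  rw [sub_smul, sub_smul]
  linear_combination -h2

theorem Au.tr {g : Mx 8 C} (hg : Au g) (x : Fin 8 → C) :
    (g *ᵥ x) 3 + (g *ᵥ x) 4 = x 3 + x 4 := by
  have h : ∀ i, g 3 i + g 4 i = bv C i 3 + bv C i 4 := fun i => by
    have h1 := hg.key (bv C i)
    rw [mv_bv, mv_bv] at h1
    have h2 := congrFun h1 i
    have h3 := congrFun h1 3
    have h4 := congrFun h1 4
    fin_cases i <;> simp at h2 h3 h4 ⊢ <;>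
      first | exact h2 | linear_combination h3 - h4 | linear_combination h4 - h3
  simp only [mulVec, dotProduct, ← Finset.sum_add_distrib, ← add_mul, h]
  simp [Fin.sum_univ_eight]

theorem Au.nm {g : Mx 8 C} (hg : Au g) (x : Fin 8 → C) : nm (g *ᵥ x) = nm x := by
  have h := congrFun (hg.key x) 3
  rw [hg.tr, sub_self, zero_smul] at h
  simpa [sub_eq_zero] using h.symm

theorem pf_eq (x y : Fin 8 → C) : pf x y = nm (x + y) - nm x - nm y := by
  simp only [pf, nm, Pi.add_apply]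
  ring

theorem Au.pf {g : Mx 8 C} (hg : Au g) (x y : Fin 8 → C) : pf (g *ᵥ x) (g *ᵥ y) = pf x y := by
  rw [pf_eq, pf_eq, ← mulVec_add, hg.nm, hg.nm, hg.nm]

theorem mx_ext {g h : Mx 8 C} (e : ∀ j, g *ᵥ bv C j = h *ᵥ bv C j) : g = h :=
  Matrix.ext fun a j => by rw [← mv_bv g, e, mv_bv]

theorem Au.ext {g h : Mx 8 C} (hg : Au g) (hh : Au h) (e1 : g *ᵥ bv C 1 = h *ᵥ bv C 1)
    (e2 : g *ᵥ bv C 2 = h *ᵥ bv C 2) (e7 : g *ᵥ bv C 7 = h *ᵥ bv C 7) : g = h := by
  have k0 : ∀ i j l, om (bv C i) (bv C j) = bv C l → g *ᵥ bv C i = h *ᵥ bv C i →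
      g *ᵥ bv C j = h *ᵥ bv C j → g *ᵥ bv C l = h *ᵥ bv C l := fun i j l a b c => by
    rw [← a, hg.2, hh.2, b, c]
  have e0 := k0 1 2 0 (by funext l; fin_cases l <;> simp [om]) e1 e2
  have e3 := k0 0 7 3 (by funext l; fin_cases l <;> simp [om]) e0 e7
  have e4 := k0 7 0 4 (by funext l; fin_cases l <;> simp [om]) e7 e0
  have e5 := k0 7 1 5 (by funext l; fin_cases l <;> simp [om]) e7 e1
  have e6 := k0 2 7 6 (by funext l; fin_cases l <;> simp [om]) e2 e7
  refine mx_ext fun j => ?_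
  fin_cases j
  exacts [e0, e1, e2, e3, e4, e5, e6, e7]

end Pool.Agent.P.MP_1bf4cb_ag.RG
end
end

-- part Pool.Agent.P.MP_1bf4cb_ag.RS
section

set_option autoImplicit false
set_option maxHeartbeats 400000
set_option linter.unusedSectionVars false
set_option linter.unusedVariables false

open Function Matrix
open scoped TensorProduct

noncomputable section

namespace Pool.Agent.P.MP_1bf4cb_ag.RG

variable {k : Type} [Field k] {n r : ℕ}

theorem gph_eq [Fintype k] (E : OB k n r) {x : Bool → E.Γ E.Frm}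
    (hv : ∀ v, ent x v = Ideal.Quotient.mk _ (MvPolynomial.X v)) (a : ℕ) :
    E.gph (Nat.card k ^ a) = (bI ((nF E a).g E.Frm x)).comap (E.Inv.val : E.Inv →+* E.Frm) := by
  have h : (((gn k n false).map (· ^ Nat.card k ^ a)).adjugate * gn k n true).map
      (Ideal.Quotient.mk _ : _ →+* E.Frm) = mx ((nF E a).g E.Frm x) := by
    rw [adj_mul_map]
    show _ = ((mx (x false)).map (fro k E.Frm ^ a)).adjugate * mx (x true)
    congr 2
    · ext s t
      show Ideal.Quotient.mk _ (MvPolynomial.X (false, s, t) ^ _) =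
        (fro k E.Frm ^ a) (ent x (false, s, t))
      rw [fro_pow_apply, hv, map_pow, Nat.card_eq_fintype_card]
    · ext s t
      exact (hv (true, s, t)).symm
  unfold Bru.gph bI
  rw [h]
  rfl

theorem main (k : Type) [Field k] [Finite k] (n r : ℕ) (D : Bru k n r) (h : D.Ok) (N : ℕ)
    (P : Fin (N + 1) → Polynomial ℚ) (hP : Pairwise fun i j => IsCoprime (P i) (P j)) :
    ∃ π : Fin (N + 1) → Polynomial ℚ, (∀ i j, P j ∣ π i - if i = j then 1 else 0) ∧
      Ort (fun a => D.gph (Nat.card k ^ a)) π := by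
  cases nonempty_fintype k
  let E : OB k n r := ⟨D, h⟩
  obtain ⟨x, hx, hv⟩ := rp_Frm E
  have hs := surj_Frm hv
  obtain ⟨G, hG⟩ := ex_MG (sel := some) (fun s => ⟨s, rfl⟩) inv_cR hx hs
  have hZ := inv_iff hv hG
  have hft := ft_Inv E
  have : IsNoetherianRing D.Inv := Algebra.FiniteType.isNoetherianRing k E.Inv
  obtain ⟨H, e, hH, he, h1⟩ := ex_fgH hx hs G hG hZ hft
  have hd : ¬ LinearIndependent ℤ fun a : ℕ => cyc (D.gph (Nat.card k ^ a)) :=
    dep hH (ι := fun j => e * j) (mul_right_injective₀ he.ne') fun j => by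
      have h2 := h1 j
      rw [← gph_eq E hv] at h2
      exact h2
  obtain ⟨φ, hφ, h2⟩ := ex_shift hx hs G hG hZ
  obtain ⟨Φ, hΦ⟩ := exists_shift (A := D.Inv) φ hφ
  obtain ⟨c, hc, hann⟩ := exists_ann Φ (fun a : ℕ => cyc (D.gph (Nat.card k ^ a))) (fun a => by
    refine (hΦ _).trans (congrArg cyc ?_)
    have h3 := h2 a
    rw [← gph_eq E hv, ← gph_eq E hv] at h3
    exact h3) hd
  obtain ⟨π, h3, h4, h5⟩ := exists_crt P hP c hc
  let ℓ : Polynomial ℚ →+ ℚ ⊗[ℤ] G0 D.Inv :=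
    { toFun := evl fun a => D.gph (Nat.card k ^ a)
      map_zero' := Polynomial.sum_zero_index _
      map_add' := fun f g => Polynomial.sum_add_index f g _ (fun _ => TensorProduct.zero_tmul _ _)
        fun _ _ _ => TensorProduct.add_tmul _ _ _ }
  have hz : ∀ u v : Polynomial ℚ, c ∣ u - v → ℓ u = ℓ v := by
    rintro u v ⟨w, hw⟩
    rw [← sub_eq_zero, ← map_sub, hw]
    exact hann w
  refine ⟨π, h5, fun i j => ?_, ?_⟩
  · have := hz _ _ (h3 i j)
    split_ifs at this ⊢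
    · exact this
    · exact this.trans (map_zero ℓ)
  · exact (map_sum ℓ π Finset.univ).symm.trans (hz _ _ h4)

end Pool.Agent.P.MP_1bf4cb_ag.RG
end
end

-- part Pool.Agent.P.MP_1bf4cb_ag.TB
section

set_option autoImplicit false
set_option maxHeartbeats 1600000
set_option linter.unusedSectionVars false
set_option linter.unusedVariables false
set_option linter.unusedSimpArgs false

open Function Matrix MvPolynomial

noncomputable section

namespace Pool.Agent.P.MP_1bf4cb_ag.RG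

variable {k : Type} [Field k] {C C' : Type} [CommRing C] [CommRing C']

/-- upper unitriangular -/
def UT (g : Mx 8 C) : Prop := (∀ a b : Fin 8, b < a → g a b = 0) ∧ ∀ a, g a a = 1

theorem UT.det {g : Mx 8 C} (h : UT g) : g.det = 1 := by
  rw [det_of_isUpperTriangular (fun a b e => h.1 a b e)]
  exact Finset.prod_eq_one fun a _ => h.2 a

/-- a root element -/
def r0 (t : C) : Mx 8 C :=
  !![1, -t, 0, 0, 0, 0, 0, 0;
      0, 1, 0, 0, 0, 0, 0, 0;
      0, 0, 1, -t, t, -t ^ 2, 0, 0;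
      0, 0, 0, 1, 0, t, 0, 0;
      0, 0, 0, 0, 1, -t, 0, 0;
      0, 0, 0, 0, 0, 1, 0, 0;
      0, 0, 0, 0, 0, 0, 1, t;
      0, 0, 0, 0, 0, 0, 0, 1]

theorem r0_mv (t : C) (x : Fin 8 → C) : r0 t *ᵥ x =
    ![x 0 - t * x 1,
      x 1,
      x 2 - t * x 3 + t * x 4 - t ^ 2 * x 5,
      x 3 + t * x 5,
      x 4 - t * x 5,
      x 5,
      x 6 + t * x 7,
      x 7] := by
  funext l
  fin_cases l <;> simp [r0, mulVec, dotProduct, Fin.sum_univ_eight] <;> ring

theorem r0_ut (t : C) : UT (r0 t) := by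
  refine ⟨fun a b h => ?_, fun a => ?_⟩
  · fin_cases a <;> fin_cases b <;> first | rfl | exact absurd h (by decide)
  · fin_cases a <;> rfl

theorem r0_au (t : C) : Au (r0 t) := by
  refine ⟨(r0_ut t).det, fun x y => ?_⟩
  rw [r0_mv, r0_mv, r0_mv]
  funext l
  fin_cases l <;> simp [om] <;> ring

theorem r0_map (φ : C →+* C') (t : C) : (r0 t).map φ = r0 (φ t) := by
  ext a b
  fin_cases a <;> fin_cases b <;> simp [r0]

theorem r0_neg (t : C) : r0 t * r0 (-t) = 1 := by
  refine mx_ext fun j => ?_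
  rw [← mulVec_mulVec, one_mulVec]
  generalize bv C j = x
  rw [r0_mv, r0_mv]
  funext l
  fin_cases l <;> simp <;> ring

/-- a root element -/
def r1 (t : C) : Mx 8 C :=
  !![1, 0, 0, 0, 0, 0, 0, 0;
      0, 1, -t, 0, 0, 0, 0, 0;
      0, 0, 1, 0, 0, 0, 0, 0;
      0, 0, 0, 1, 0, 0, 0, 0;
      0, 0, 0, 0, 1, 0, 0, 0;
      0, 0, 0, 0, 0, 1, t, 0;
      0, 0, 0, 0, 0, 0, 1, 0;
      0, 0, 0, 0, 0, 0, 0, 1]

theorem r1_mv (t : C) (x : Fin 8 → C) : r1 t *ᵥ x =
    ![x 0,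
      x 1 - t * x 2,
      x 2,
      x 3,
      x 4,
      x 5 + t * x 6,
      x 6,
      x 7] := by
  funext l
  fin_cases l <;> simp [r1, mulVec, dotProduct, Fin.sum_univ_eight] <;> ring

theorem r1_ut (t : C) : UT (r1 t) := by
  refine ⟨fun a b h => ?_, fun a => ?_⟩
  · fin_cases a <;> fin_cases b <;> first | rfl | exact absurd h (by decide)
  · fin_cases a <;> rfl

theorem r1_au (t : C) : Au (r1 t) := by
  refine ⟨(r1_ut t).det, fun x y => ?_⟩
  rw [r1_mv, r1_mv, r1_mv]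
  funext l
  fin_cases l <;> simp [om] <;> ring

theorem r1_map (φ : C →+* C') (t : C) : (r1 t).map φ = r1 (φ t) := by
  ext a b
  fin_cases a <;> fin_cases b <;> simp [r1]

theorem r1_neg (t : C) : r1 t * r1 (-t) = 1 := by
  refine mx_ext fun j => ?_
  rw [← mulVec_mulVec, one_mulVec]
  generalize bv C j = x
  rw [r1_mv, r1_mv]
  funext l
  fin_cases l <;> simp <;> ring

/-- a root element -/
def r2 (t : C) : Mx 8 C :=
  !![1, 0, t, 0, 0, 0, 0, 0;
      0, 1, 0, -t, t, 0, -t ^ 2, 0;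
      0, 0, 1, 0, 0, 0, 0, 0;
      0, 0, 0, 1, 0, 0, t, 0;
      0, 0, 0, 0, 1, 0, -t, 0;
      0, 0, 0, 0, 0, 1, 0, -t;
      0, 0, 0, 0, 0, 0, 1, 0;
      0, 0, 0, 0, 0, 0, 0, 1]

theorem r2_mv (t : C) (x : Fin 8 → C) : r2 t *ᵥ x =
    ![x 0 + t * x 2,
      x 1 - t * x 3 + t * x 4 - t ^ 2 * x 6,
      x 2,
      x 3 + t * x 6,
      x 4 - t * x 6,
      x 5 - t * x 7,
      x 6,
      x 7] := by
  funext l
  fin_cases l <;> simp [r2, mulVec, dotProduct, Fin.sum_univ_eight] <;> ring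

theorem r2_ut (t : C) : UT (r2 t) := by
  refine ⟨fun a b h => ?_, fun a => ?_⟩
  · fin_cases a <;> fin_cases b <;> first | rfl | exact absurd h (by decide)
  · fin_cases a <;> rfl

theorem r2_au (t : C) : Au (r2 t) := by
  refine ⟨(r2_ut t).det, fun x y => ?_⟩
  rw [r2_mv, r2_mv, r2_mv]
  funext l
  fin_cases l <;> simp [om] <;> ring

theorem r2_map (φ : C →+* C') (t : C) : (r2 t).map φ = r2 (φ t) := by
  ext a b
  fin_cases a <;> fin_cases b <;> simp [r2]

theorem r2_neg (t : C) : r2 t * r2 (-t) = 1 := by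
  refine mx_ext fun j => ?_
  rw [← mulVec_mulVec, one_mulVec]
  generalize bv C j = x
  rw [r2_mv, r2_mv]
  funext l
  fin_cases l <;> simp <;> ring

/-- a root element -/
def r3 (t : C) : Mx 8 C :=
  !![1, 0, 0, t, -t, 0, 0, -t ^ 2;
      0, 1, 0, 0, 0, t, 0, 0;
      0, 0, 1, 0, 0, 0, -t, 0;
      0, 0, 0, 1, 0, 0, 0, -t;
      0, 0, 0, 0, 1, 0, 0, t;
      0, 0, 0, 0, 0, 1, 0, 0;
      0, 0, 0, 0, 0, 0, 1, 0;
      0, 0, 0, 0, 0, 0, 0, 1]

theorem r3_mv (t : C) (x : Fin 8 → C) : r3 t *ᵥ x =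
    ![x 0 + t * x 3 - t * x 4 - t ^ 2 * x 7,
      x 1 + t * x 5,
      x 2 - t * x 6,
      x 3 - t * x 7,
      x 4 + t * x 7,
      x 5,
      x 6,
      x 7] := by
  funext l
  fin_cases l <;> simp [r3, mulVec, dotProduct, Fin.sum_univ_eight] <;> ring

theorem r3_ut (t : C) : UT (r3 t) := by
  refine ⟨fun a b h => ?_, fun a => ?_⟩
  · fin_cases a <;> fin_cases b <;> first | rfl | exact absurd h (by decide)
  · fin_cases a <;> rfl

theorem r3_au (t : C) : Au (r3 t) := by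
  refine ⟨(r3_ut t).det, fun x y => ?_⟩
  rw [r3_mv, r3_mv, r3_mv]
  funext l
  fin_cases l <;> simp [om] <;> ring

theorem r3_map (φ : C →+* C') (t : C) : (r3 t).map φ = r3 (φ t) := by
  ext a b
  fin_cases a <;> fin_cases b <;> simp [r3]

theorem r3_neg (t : C) : r3 t * r3 (-t) = 1 := by
  refine mx_ext fun j => ?_
  rw [← mulVec_mulVec, one_mulVec]
  generalize bv C j = x
  rw [r3_mv, r3_mv]
  funext l
  fin_cases l <;> simp <;> ring

/-- a root element -/
def r4 (t : C) : Mx 8 C :=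
  !![1, 0, 0, 0, 0, t, 0, 0;
      0, 1, 0, 0, 0, 0, 0, 0;
      0, 0, 1, 0, 0, 0, 0, -t;
      0, 0, 0, 1, 0, 0, 0, 0;
      0, 0, 0, 0, 1, 0, 0, 0;
      0, 0, 0, 0, 0, 1, 0, 0;
      0, 0, 0, 0, 0, 0, 1, 0;
      0, 0, 0, 0, 0, 0, 0, 1]

theorem r4_mv (t : C) (x : Fin 8 → C) : r4 t *ᵥ x =
    ![x 0 + t * x 5,
      x 1,
      x 2 - t * x 7,
      x 3,
      x 4,
      x 5,
      x 6,
      x 7] := by
  funext l
  fin_cases l <;> simp [r4, mulVec, dotProduct, Fin.sum_univ_eight] <;> ring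

theorem r4_ut (t : C) : UT (r4 t) := by
  refine ⟨fun a b h => ?_, fun a => ?_⟩
  · fin_cases a <;> fin_cases b <;> first | rfl | exact absurd h (by decide)
  · fin_cases a <;> rfl

theorem r4_au (t : C) : Au (r4 t) := by
  refine ⟨(r4_ut t).det, fun x y => ?_⟩
  rw [r4_mv, r4_mv, r4_mv]
  funext l
  fin_cases l <;> simp [om] <;> ring

theorem r4_map (φ : C →+* C') (t : C) : (r4 t).map φ = r4 (φ t) := by
  ext a b
  fin_cases a <;> fin_cases b <;> simp [r4]

theorem r4_neg (t : C) : r4 t * r4 (-t) = 1 := by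
  refine mx_ext fun j => ?_
  rw [← mulVec_mulVec, one_mulVec]
  generalize bv C j = x
  rw [r4_mv, r4_mv]
  funext l
  fin_cases l <;> simp <;> ring

/-- a root element -/
def r5 (t : C) : Mx 8 C :=
  !![1, 0, 0, 0, 0, 0, t, 0;
      0, 1, 0, 0, 0, 0, 0, -t;
      0, 0, 1, 0, 0, 0, 0, 0;
      0, 0, 0, 1, 0, 0, 0, 0;
      0, 0, 0, 0, 1, 0, 0, 0;
      0, 0, 0, 0, 0, 1, 0, 0;
      0, 0, 0, 0, 0, 0, 1, 0;
      0, 0, 0, 0, 0, 0, 0, 1]

theorem r5_mv (t : C) (x : Fin 8 → C) : r5 t *ᵥ x =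
    ![x 0 + t * x 6,
      x 1 - t * x 7,
      x 2,
      x 3,
      x 4,
      x 5,
      x 6,
      x 7] := by
  funext l
  fin_cases l <;> simp [r5, mulVec, dotProduct, Fin.sum_univ_eight] <;> ring

theorem r5_ut (t : C) : UT (r5 t) := by
  refine ⟨fun a b h => ?_, fun a => ?_⟩
  · fin_cases a <;> fin_cases b <;> first | rfl | exact absurd h (by decide)
  · fin_cases a <;> rfl

theorem r5_au (t : C) : Au (r5 t) := by
  refine ⟨(r5_ut t).det, fun x y => ?_⟩
  rw [r5_mv, r5_mv, r5_mv]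
  funext l
  fin_cases l <;> simp [om] <;> ring

theorem r5_map (φ : C →+* C') (t : C) : (r5 t).map φ = r5 (φ t) := by
  ext a b
  fin_cases a <;> fin_cases b <;> simp [r5]

theorem r5_neg (t : C) : r5 t * r5 (-t) = 1 := by
  refine mx_ext fun j => ?_
  rw [← mulVec_mulVec, one_mulVec]
  generalize bv C j = x
  rw [r5_mv, r5_mv]
  funext l
  fin_cases l <;> simp <;> ring

/-- the root elements -/
def rr (i : Fin 6) (t : C) : Mx 8 C := ![r0 t, r1 t, r2 t, r3 t, r4 t, r5 t] i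

theorem rr_ut (i : Fin 6) (t : C) : UT (rr i t) := by
  fin_cases i
  exacts [r0_ut t, r1_ut t, r2_ut t, r3_ut t, r4_ut t, r5_ut t]

theorem rr_au (i : Fin 6) (t : C) : Au (rr i t) := by
  fin_cases i
  exacts [r0_au t, r1_au t, r2_au t, r3_au t, r4_au t, r5_au t]

theorem rr_map (φ : C →+* C') (i : Fin 6) (t : C) : (rr i t).map φ = rr i (φ t) := by
  fin_cases i
  exacts [r0_map φ t, r1_map φ t, r2_map φ t, r3_map φ t, r4_map φ t, r5_map φ t]

/-- the short simple reflection -/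
def sa (C : Type) [CommRing C] : Mx 8 C :=
  Equiv.Perm.permMatrix C (Equiv.swap 0 1 * Equiv.swap 2 5 * Equiv.swap 3 4 * Equiv.swap 6 7)

/-- the long simple reflection -/
def sb (C : Type) [CommRing C] : Mx 8 C :=
  Equiv.Perm.permMatrix C (Equiv.swap 1 2 * Equiv.swap 5 6) * diagonal ![1, 1, -1, 1, 1, -1, 1, 1]

theorem sa_mv (x : Fin 8 → C) : sa C *ᵥ x = ![x 1, x 0, x 5, x 4, x 3, x 2, x 7, x 6] := by
  rw [sa, permMatrix_mulVec]
  funext l
  fin_cases l <;> rfl

theorem sb_mv (x : Fin 8 → C) : sb C *ᵥ x = ![x 0, -x 2, x 1, x 3, x 4, x 6, -x 5, x 7] := by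
  have e : (diagonal ![1, 1, -1, 1, 1, -1, 1, 1] : Mx 8 C) *ᵥ x =
      ![x 0, x 1, -x 2, x 3, x 4, -x 5, x 6, x 7] := by
    funext l
    rw [mulVec_diagonal]
    fin_cases l <;> simp
  rw [sb, ← mulVec_mulVec, permMatrix_mulVec, e]
  funext l
  fin_cases l <;> rfl

theorem sa_au : Au (sa C) := by
  refine ⟨?_, fun x y => ?_⟩
  · rw [sa, det_permutation]
    simp
  · rw [sa_mv, sa_mv, sa_mv]
    funext l
    fin_cases l <;> simp [om] <;> ring

theorem sb_au : Au (sb C) := by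
  refine ⟨?_, fun x y => ?_⟩
  · rw [sb, det_mul, det_permutation, det_diagonal, Fin.prod_univ_eight]
    simp
  · rw [sb_mv, sb_mv, sb_mv]
    funext l
    fin_cases l <;> simp [om] <;> ring

theorem map_of_mv (φ : C →+* C') {g : Mx 8 C} {h : Mx 8 C'}
    (e : ∀ x, h *ᵥ (φ ∘ x) = φ ∘ (g *ᵥ x)) : g.map φ = h :=
  mx_ext fun j => by rw [← bv_map φ, mv_map, e]

theorem sa_map (φ : C →+* C') : (sa C).map φ = sa C' := map_of_mv φ fun x => by
  rw [sa_mv, sa_mv]
  funext l
  fin_cases l <;> rfl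

theorem sb_map (φ : C →+* C') : (sb C).map φ = sb C' := map_of_mv φ fun x => by
  rw [sb_mv, sb_mv]
  funext l
  fin_cases l <;> simp

end Pool.Agent.P.MP_1bf4cb_ag.RG
end
end

-- part Pool.Agent.P.MP_1bf4cb_ag.TC
section

set_option autoImplicit false
set_option maxHeartbeats 800000
set_option linter.unusedSectionVars false
set_option linter.unusedVariables false
set_option linter.unusedSimpArgs false

open Function Matrix MvPolynomial

noncomputable section

namespace Pool.Agent.P.MP_1bf4cb_ag.RG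

variable {k : Type} [Field k] {C C' : Type} [CommRing C] [CommRing C'] {g h : Mx 8 C}

/-- the stabiliser of the line -/
def Q1 (g : Mx 8 C) : Prop := Au g ∧ ∀ a : Fin 8, 0 < a → g a 0 = 0

/-- the stabiliser of the plane -/
def Q2 (g : Mx 8 C) : Prop := Au g ∧ ∀ a : Fin 8, 1 < a → g a 0 = 0 ∧ g a 1 = 0

/-- the stabiliser of the flag -/
def QB (g : Mx 8 C) : Prop := Q1 g ∧ Q2 g

theorem sol_union [Algebra k C] {n : ℕ} {S T : Set (Pn k n)} {g : Mx n C} :
    Sol (S ∪ T) g ↔ Sol S g ∧ Sol T g :=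
  ⟨fun h => ⟨h.mono Set.subset_union_left, h.mono Set.subset_union_right⟩,
    fun h f hf => hf.elim (h.1 f) (h.2 f)⟩

theorem sP1 [Algebra k C] (g : Mx 8 C) : Sol (eP k false) g ↔ Q1 g := by
  rw [eP, sol_union, sG]
  refine and_congr_right fun _ => ⟨fun h a ha => (vl_X g a 0).symm.trans
    (h _ ⟨a, 0, le_rfl, ha, rfl⟩), ?_⟩
  rintro h _ ⟨a, b, hb, ha, rfl⟩
  rw [vl_X, le_zero_iff.1 hb]
  exact h a ha

theorem sP2 [Algebra k C] (g : Mx 8 C) : Sol (eP k true) g ↔ Q2 g := by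
  rw [eP, sol_union, sG]
  refine and_congr_right fun _ => ⟨fun h a ha => ⟨(vl_X g a 0).symm.trans
    (h _ ⟨a, 0, Fin.zero_le _, ha, rfl⟩), (vl_X g a 1).symm.trans (h _ ⟨a, 1, le_rfl, ha, rfl⟩)⟩, ?_⟩
  rintro h _ ⟨a, b, hb, ha, rfl⟩
  rw [vl_X]
  have : b = 0 ∨ b = 1 := by
    have h1 : b ≤ 1 := hb
    omega
  rcases this with rfl | rfl
  exacts [(h a ha).1, (h a ha).2]

theorem sB [Algebra k C] (g : Mx 8 C) : Sol (eP k false ∪ eP k true) g ↔ QB g := by
  rw [sol_union, sP1, sP2, QB]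

theorem mul_col (g h : Mx 8 C) (a j : Fin 8) : (g * h) a j = (g *ᵥ (h *ᵥ bv C j)) a := by
  rw [mulVec_mulVec, mv_bv]

theorem Q1.col (hg : Q1 g) : g *ᵥ bv C 0 = g 0 0 • bv C 0 := by
  funext a
  rw [mv_bv]
  rcases (Fin.zero_le a).eq_or_lt with rfl | ha
  · simp
  · simp [hg.2 a ha, ha.ne']

theorem Q1.adj_col (hg : Q1 g) (a : Fin 8) : g 0 0 * g.adjugate a 0 = bv C 0 a := by
  have := congrFun (hg.1.adj_mv (bv C 0)) a
  rwa [hg.col, mulVec_smul, Pi.smul_apply, mv_bv] at this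

theorem Q1.unit (hg : Q1 g) : IsUnit (g 0 0) :=
  IsUnit.of_mul_eq_one _ ((hg.adj_col 0).trans (Pi.single_eq_same _ _))

theorem Q1.adj (hg : Q1 g) : Q1 g.adjugate := ⟨hg.1.adj, fun a ha =>
  hg.unit.mul_right_eq_zero.1 ((hg.adj_col a).trans (Pi.single_eq_of_ne ha.ne' _))⟩

theorem Q1.mul (hg : Q1 g) (hh : Q1 h) : Q1 (g * h) := ⟨hg.1.mul hh.1, fun a ha => by
  rw [mul_col, hh.col, mulVec_smul, Pi.smul_apply, mv_bv, hg.2 a ha, smul_zero]⟩

theorem Q1.w3 (hg : Q1 g) {y : Fin 8 → C} (hy : ∀ a : Fin 8, 2 < a → y a = 0) (a : Fin 8)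
    (ha : 2 < a) : (g *ᵥ y) a = 0 := by
  have h3 := hy 3 (by decide)
  have h4 := hy 4 (by decide)
  have h5 := hy 5 (by decide)
  have h6 := hy 6 (by decide)
  have h7 := hy 7 (by decide)
  have e1 : om (bv C 0) y = 0 := by
    funext l
    fin_cases l <;> simp [om, h4, h5, h6, h7]
  have e2 : om y (bv C 0) = 0 := by
    funext l
    fin_cases l <;> simp [om, h3, h5, h6, h7]
  have e3 := hg.1.2 (bv C 0) y
  have e4 := hg.1.2 y (bv C 0)
  rw [e1, mulVec_zero, hg.col] at e3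
  rw [e2, mulVec_zero, hg.col] at e4
  have a0 := congrFun e3 0
  have a1 := congrFun e3 1
  have a2 := congrFun e3 2
  have a3 := congrFun e3 3
  have a4 := congrFun e4 0
  simp [om] at a0 a1 a2 a3 a4
  refine hg.unit.mul_right_eq_zero.1 ?_
  fin_cases a
  · exact absurd ha (by decide)
  · exact absurd ha (by decide)
  · exact absurd ha (by decide)
  · exact (mul_comm _ _).trans a4.symm
  · exact a0.symm
  · exact a1.symm
  · exact a2
  · exact a3.symm

theorem Q1.w7 (hg : Q1 g) (y : Fin 8 → C) : g 0 0 * (g *ᵥ y) 7 = y 7 := by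
  have := hg.1.pf (bv C 0) y
  rw [hg.col] at this
  simpa [pf] using this

theorem Q2.col (hg : Q2 g) : g *ᵥ bv C 0 = g 0 0 • bv C 0 + g 1 0 • bv C 1 ∧
    g *ᵥ bv C 1 = g 0 1 • bv C 0 + g 1 1 • bv C 1 := by
  have h2 := hg.2 2 (by decide)
  have h3 := hg.2 3 (by decide)
  have h4 := hg.2 4 (by decide)
  have h5 := hg.2 5 (by decide)
  have h6 := hg.2 6 (by decide)
  have h7 := hg.2 7 (by decide)
  constructor <;> funext a <;> rw [mv_bv] <;> fin_cases a <;> simp [h2, h3, h4, h5, h6, h7]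

theorem Q2.adj_col (hg : Q2 g) (a : Fin 8) :
    g 0 0 * g.adjugate a 0 + g 1 0 * g.adjugate a 1 = bv C 0 a ∧
      g 0 1 * g.adjugate a 0 + g 1 1 * g.adjugate a 1 = bv C 1 a := by
  have h0 := congrFun (hg.1.adj_mv (bv C 0)) a
  have h1 := congrFun (hg.1.adj_mv (bv C 1)) a
  rw [hg.col.1] at h0
  rw [hg.col.2] at h1
  simp only [mulVec_add, mulVec_smul, Pi.add_apply, Pi.smul_apply, mv_bv, smul_eq_mul] at h0 h1
  exact ⟨h0, h1⟩

theorem Q2.unit (hg : Q2 g) : IsUnit (g 0 0 * g 1 1 - g 0 1 * g 1 0) := by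
  obtain ⟨h1, h2⟩ := hg.adj_col 0
  obtain ⟨h3, h4⟩ := hg.adj_col 1
  simp at h1 h2 h3 h4
  refine IsUnit.of_mul_eq_one (g.adjugate 0 0 * g.adjugate 1 1 - g.adjugate 0 1 * g.adjugate 1 0) ?_
  linear_combination (g 0 1 * g.adjugate 1 0 + g 1 1 * g.adjugate 1 1) * h1 + h4 -
    (g 0 0 * g.adjugate 1 0 + g 1 0 * g.adjugate 1 1) * h2

theorem Q2.adj (hg : Q2 g) : Q2 g.adjugate := ⟨hg.1.adj, fun a ha => by
  obtain ⟨h1, h2⟩ := hg.adj_col a
  rw [show bv C 0 a = 0 from Pi.single_eq_of_ne (by omega) _] at h1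
  rw [show bv C 1 a = 0 from Pi.single_eq_of_ne ha.ne' _] at h2
  exact ⟨hg.unit.mul_right_eq_zero.1 (by linear_combination g 1 1 * h1 - g 1 0 * h2),
    hg.unit.mul_right_eq_zero.1 (by linear_combination g 0 0 * h2 - g 0 1 * h1)⟩⟩

theorem Q2.mul (hg : Q2 g) (hh : Q2 h) : Q2 (g * h) := ⟨hg.1.mul hh.1, fun a ha => by
  rw [mul_col, mul_col, hh.col.1, hh.col.2]
  simp only [mulVec_add, mulVec_smul, Pi.add_apply, Pi.smul_apply, mv_bv, (hg.2 a ha).1,
    (hg.2 a ha).2, smul_zero, add_zero, and_self]⟩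

theorem Q2.w6 (hg : Q2 g) (y : Fin 8 → C) : g 0 0 * (g *ᵥ y) 7 + g 1 0 * (g *ᵥ y) 6 = y 7 ∧
    g 0 1 * (g *ᵥ y) 7 + g 1 1 * (g *ᵥ y) 6 = y 6 := by
  have h0 := hg.1.pf (bv C 0) y
  have h1 := hg.1.pf (bv C 1) y
  rw [hg.col.1] at h0
  rw [hg.col.2] at h1
  simp [pf] at h0 h1
  exact ⟨by linear_combination -h0, by linear_combination -h1⟩

theorem QB.mul (hg : QB g) (hh : QB h) : QB (g * h) := ⟨hg.1.mul hh.1, hg.2.mul hh.2⟩

theorem QB.adj (hg : QB g) : QB g.adjugate := ⟨hg.1.adj, hg.2.adj⟩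

theorem QB.au (hg : QB g) : Au g := hg.1.1

theorem qb_of_ut (h1 : Au g) (h2 : ∀ a b : Fin 8, b < a → g a b = 0) : QB g :=
  ⟨⟨h1, fun a ha => h2 a 0 ha⟩, h1, fun a ha => ⟨h2 a 0 (by omega), h2 a 1 ha⟩⟩

theorem qb_one : QB (1 : Mx 8 C) := qb_of_ut au_one fun a b h => one_apply_ne h.ne'

theorem rr_qb (i : Fin 6) (t : C) : QB (rr i t) := qb_of_ut (rr_au i t) (rr_ut i t).1

theorem Q1.qb (hg : Q1 g) (h : g 2 1 = 0) : QB g := ⟨hg, hg.1, fun a ha =>
  ⟨hg.2 a (by omega), by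
    rcases (show a = 2 ∨ 2 < a by omega) with rfl | h2
    · exact h
    · rw [← mv_bv g]
      exact hg.w3 (fun b hb => Pi.single_eq_of_ne (by omega) _) a h2⟩⟩

theorem QB.unit1 (hg : QB g) : IsUnit (g 1 1) := by
  have := hg.2.unit
  rw [hg.1.2 1 (by decide), mul_zero, sub_zero] at this
  exact (IsUnit.mul_iff.1 this).2

theorem g2_grp : Grp (eG k) ∧ Grp (eP k false ∪ eP k true) ∧ ∀ s, Grp (eP k s) := by
  refine ⟨fun C _ _ => ⟨(sG _).2 au_one, fun g h hg hh => ?_⟩,
    fun C _ _ => ⟨(sB _).2 qb_one, fun g h hg hh => ?_⟩, fun s => ?_⟩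
  · rw [sG] at *
    exact ⟨hg.1, hg.mul hh.adj⟩
  · rw [sB] at *
    exact ⟨hg.au.1, hg.mul hh.adj⟩
  · cases s
    · refine fun C _ _ => ⟨(sP1 _).2 qb_one.1, fun g h hg hh => ?_⟩
      rw [sP1] at *
      exact ⟨hg.1.1, hg.mul hh.adj⟩
    · refine fun C _ _ => ⟨(sP2 _).2 qb_one.2, fun g h hg hh => ?_⟩
      rw [sP2] at *
      exact ⟨hg.1.1, hg.mul hh.adj⟩

/-- the torus -/
def tt (s t : Cˣ) : Mx 8 C :=
  diagonal ![s * t, s, t, 1, 1, (t⁻¹ : Cˣ), (s⁻¹ : Cˣ), (s⁻¹ : Cˣ) * (t⁻¹ : Cˣ)]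

theorem tt_mv (s t : Cˣ) (x : Fin 8 → C) : tt s t *ᵥ x = ![s * t * x 0, s * x 1, t * x 2, x 3, x 4,
    (t⁻¹ : Cˣ) * x 5, (s⁻¹ : Cˣ) * x 6, (s⁻¹ : Cˣ) * (t⁻¹ : Cˣ) * x 7] := by
  funext l
  rw [tt, mulVec_diagonal]
  fin_cases l <;> simp

theorem tt_qb (s t : Cˣ) : QB (tt s t) := by
  have h1 := s.mul_inv
  have h2 := t.mul_inv
  refine qb_of_ut ⟨?_, fun x y => ?_⟩ fun a b h => diagonal_apply_ne _ h.ne'
  · rw [tt, det_diagonal, Fin.prod_univ_eight]
    simp only [cons_val_zero, cons_val_one, cons_val]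
    generalize ((s⁻¹ : Cˣ) : C) = s' at *
    generalize ((t⁻¹ : Cˣ) : C) = t' at *
    linear_combination (s * s' + 1) * (t * t') ^ 2 * h1 + (t * t' + 1) * h2
  · rw [tt_mv, tt_mv, tt_mv]
    generalize ((s⁻¹ : Cˣ) : C) = s' at *
    generalize ((t⁻¹ : Cˣ) : C) = t' at *
    funext l
    fin_cases l <;> simp only [om, cons_val_zero, cons_val_one, cons_val, Fin.zero_eta, Fin.mk_one,
      Fin.reduceFinMk]
    · ring
    · linear_combination (-s * x 0 * y 5 + s * x 5 * y 0) * h2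
    · linear_combination (-t * x 6 * y 0 + t * x 0 * y 6) * h1
    · linear_combination -(t * t' * x 0 * y 7 + x 6 * y 1) * h1 - (x 0 * y 7 + x 5 * y 2) * h2
    · linear_combination -(t * t' * x 7 * y 0 + x 1 * y 6) * h1 - (x 7 * y 0 + x 2 * y 5) * h2
    · linear_combination (t' * x 1 * y 7 - t' * x 7 * y 1) * h1
    · linear_combination (s' * x 7 * y 2 - s' * x 2 * y 7) * h2
    · ring

/-- the unipotent radical -/
def uu (a : Fin 6 → C) : Mx 8 C :=
  r5 (a 5) * r4 (a 4) * r3 (a 3) * (r2 (a 2) * r1 (a 1) * r0 (a 0))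

theorem uu_qb (a : Fin 6 → C) : QB (uu a) :=
  (((rr_qb 5 _).mul (rr_qb 4 _)).mul (rr_qb 3 _)).mul
    (((rr_qb 2 _).mul (rr_qb 1 _)).mul (rr_qb 0 _))

theorem uu_map (φ : C →+* C') (a : Fin 6 → C) : (uu a).map φ = uu fun i => φ (a i) := by
  simp only [uu, Matrix.map_mul, r0_map, r1_map, r2_map, r3_map, r4_map, r5_map]

theorem uu_mv1 (a : Fin 6 → C) (c : C) : uu a *ᵥ (c • bv C 1) = ![-(c * a 0), c, 0, 0, 0, 0, 0, 0] := by
  simp only [uu, ← mulVec_mulVec, r0_mv, r1_mv, r2_mv, r3_mv, r4_mv, r5_mv]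
  simp [mul_comm]

theorem uu_mv2 (a : Fin 6 → C) (c : C) :
    uu a *ᵥ (c • bv C 2) = ![c * a 2, -(c * a 1), c, 0, 0, 0, 0, 0] := by
  simp only [uu, ← mulVec_mulVec, r0_mv, r1_mv, r2_mv, r3_mv, r4_mv, r5_mv]
  simp [mul_comm]

theorem top_mv (a b c : C) : (r5 a * r4 b * r3 c) *ᵥ bv C 7 =
    ![-c ^ 2, -a, -b, -c, c, 0, 0, 1] := by
  simp only [← mulVec_mulVec, r3_mv, r4_mv, r5_mv]
  simp

theorem top_fix (a b c : C) : (r5 a * r4 b * r3 c) *ᵥ bv C 1 = bv C 1 ∧
    (r5 a * r4 b * r3 c) *ᵥ bv C 2 = bv C 2 := by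
  simp only [← mulVec_mulVec, r3_mv, r4_mv, r5_mv]
  constructor <;> funext l <;> fin_cases l <;> simp

theorem tt_bv (s t : Cˣ) : tt s t *ᵥ bv C 1 = (s : C) • bv C 1 ∧ tt s t *ᵥ bv C 2 = (t : C) • bv C 2 := by
  rw [tt_mv, tt_mv]
  constructor <;> funext l <;> fin_cases l <;> simp

theorem Au.cancel {g h m : Mx 8 C} (hm : Au m) (e : g * m = h * m) : g = h := by
  rw [← Matrix.mul_one g, ← hm.mul_adj, ← Matrix.mul_assoc, e, Matrix.mul_assoc, hm.mul_adj,
    Matrix.mul_one]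

theorem ut_inj {a a' : Fin 6 → C} {s t s' t' : Cˣ} (e : uu a * tt s t = uu a' * tt s' t') :
    a = a' ∧ s = s' ∧ t = t' := by
  have e1 := congrArg (· *ᵥ bv C 1) e
  have e2 := congrArg (· *ᵥ bv C 2) e
  simp only [← mulVec_mulVec, tt_bv, uu_mv1, uu_mv2] at e1 e2
  have hs : s = s' := Units.ext (congrFun e1 1)
  have ht : t = t' := Units.ext (congrFun e2 2)
  subst hs ht
  have h0 : a 0 = a' 0 := (Units.mul_right_inj s).1 (neg_injective (congrFun e1 0))
  have h1 : a 1 = a' 1 := (Units.mul_right_inj t).1 (neg_injective (congrFun e2 1))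
  have h2 : a 2 = a' 2 := (Units.mul_right_inj t).1 (congrFun e2 0)
  have e3 := (tt_qb s t).au.cancel e
  rw [uu, uu, h0, h1, h2] at e3
  have e4 := congrArg (· *ᵥ bv C 7)
    ((((rr_qb 2 _).mul (rr_qb 1 _)).mul (rr_qb 0 _)).au.cancel e3)
  simp only [top_mv] at e4
  refine ⟨funext fun i => ?_, rfl, rfl⟩
  fin_cases i
  exacts [h0, h1, h2, congrFun e4 4, neg_injective (congrFun e4 2), neg_injective (congrFun e4 1)]

theorem ut_surj (hg : QB g) : ∃ (a : Fin 6 → C) (s t : Cˣ), uu a * tt s t = g := by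
  have h2 : ∀ a : Fin 8, 2 < a → g a 2 = 0 := fun a ha => by
    rw [← mv_bv g]
    exact hg.1.w3 (fun b hb => Pi.single_eq_of_ne (by omega) _) a ha
  have h00 : g 0 0 = g 1 1 * g 2 2 := by
    have e : om (bv C 1) (bv C 2) = bv C 0 := by
      funext l
      fin_cases l <;> simp [om]
    have := congrFun (hg.au.2 (bv C 1) (bv C 2)) 0
    rw [e] at this
    simpa [om, mv_bv, h2 4 (by decide), (hg.2.2 2 (by decide)).2, (hg.2.2 3 (by decide)).2]
      using this
  obtain ⟨s, hs⟩ := hg.unit1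
  obtain ⟨t, ht⟩ : IsUnit (g 2 2) := (IsUnit.mul_iff.1 (h00 ▸ hg.1.unit)).2
  let a0 : C := -((s⁻¹ : Cˣ) * g 0 1)
  let a1 : C := -((t⁻¹ : Cˣ) * g 1 2)
  let a2 : C := (t⁻¹ : Cˣ) * g 0 2
  have hm : QB (uu ![a0, a1, a2, 0, 0, 0] * tt s t) := (uu_qb _).mul (tt_qb s t)
  have e1 : g *ᵥ bv C 1 = (uu ![a0, a1, a2, 0, 0, 0] * tt s t) *ᵥ bv C 1 := by
    rw [← mulVec_mulVec, (tt_bv s t).1, uu_mv1]
    funext l
    rw [mv_bv]
    fin_cases l
    · simp [a0]
    · exact hs.symm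
    all_goals exact (hg.2.2 _ (by decide)).2
  have e2 : g *ᵥ bv C 2 = (uu ![a0, a1, a2, 0, 0, 0] * tt s t) *ᵥ bv C 2 := by
    rw [← mulVec_mulVec, (tt_bv s t).2, uu_mv2]
    funext l
    rw [mv_bv]
    fin_cases l
    · simp [a2]
    · simp [a1]
    · exact ht.symm
    all_goals exact h2 _ (by decide)
  set m := uu ![a0, a1, a2, 0, 0, 0] * tt s t with hmd
  have hz : QB (g * m.adjugate) := hg.mul hm.adj
  have k1 : m *ᵥ bv C 1 = (s : C) • (bv C 1 - a0 • bv C 0) := by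
    rw [hmd, ← mulVec_mulVec, (tt_bv s t).1, uu_mv1]
    funext l
    fin_cases l <;> simp
  have k2 : m *ᵥ bv C 2 = (t : C) • (bv C 2 - a1 • bv C 1 + a2 • bv C 0) := by
    rw [hmd, ← mulVec_mulVec, (tt_bv s t).2, uu_mv2]
    funext l
    fin_cases l <;> simp
  have f1 : (g * m.adjugate) *ᵥ (m *ᵥ bv C 1) = m *ᵥ bv C 1 := by
    rw [← mulVec_mulVec, hm.au.adj_mv, e1]
  have f2 : (g * m.adjugate) *ᵥ (m *ᵥ bv C 2) = m *ᵥ bv C 2 := by
    rw [← mulVec_mulVec, hm.au.adj_mv, e2]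
  set z := g * m.adjugate with hzd
  have e : om (bv C 1) (bv C 2) = bv C 0 := by
    funext l
    fin_cases l <;> simp [om]
  have f0 : z *ᵥ (m *ᵥ bv C 0) = m *ᵥ bv C 0 := by
    rw [← e, hm.au.2, hz.au.2, f1, f2]
  have un : ∀ (u : C) (y : Fin 8 → C), IsUnit u → z *ᵥ (u • y) = u • y → z *ᵥ y = y :=
    fun u y hu h => hu.smul_left_cancel.1 ((mulVec_smul _ _ _).symm.trans h)
  have g0 : z *ᵥ bv C 0 = bv C 0 := un _ _ hm.1.unit (hm.1.col ▸ f0)
  have g1 : z *ᵥ bv C 1 = bv C 1 := by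
    have := un _ _ s.isUnit (k1 ▸ f1)
    rw [mulVec_sub, mulVec_smul, g0] at this
    exact sub_left_injective this
  have g2 : z *ᵥ bv C 2 = bv C 2 := by
    have := un _ _ t.isUnit (k2 ▸ f2)
    rw [mulVec_add, mulVec_sub, mulVec_smul, mulVec_smul, g0, g1] at this
    exact sub_left_injective (add_right_cancel this)
  have p0 := hz.au.pf (bv C 0) (bv C 7)
  have p1 := hz.au.pf (bv C 1) (bv C 7)
  have p2 := hz.au.pf (bv C 2) (bv C 7)
  have p3 := hz.au.tr (bv C 7)
  have p4 := hz.au.nm (bv C 7)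
  rw [g0] at p0
  rw [g1] at p1
  rw [g2] at p2
  generalize hy : z *ᵥ bv C 7 = y at p0 p1 p2 p3 p4
  simp [pf, nm] at p0 p1 p2 p3 p4
  have e7 : z = r5 (-y 1) * r4 (-y 2) * r3 (y 4) := by
    refine hz.au.ext (((rr_au 5 _).mul (rr_au 4 _)).mul (rr_au 3 _))
      (g1.trans (top_fix _ _ _).1.symm) (g2.trans (top_fix _ _ _).2.symm) ?_
    rw [hy, top_mv]
    funext l
    fin_cases l <;> simp only [cons_val_zero, cons_val_one, cons_val, Fin.zero_eta, Fin.mk_one,
      Fin.reduceFinMk, neg_neg]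
    · linear_combination -p4 - y 0 * p0 - y 2 * p2 - y 1 * p1 + y 4 * p3
    · linear_combination p3
    · exact p2
    · exact p1
    · exact p0
  refine ⟨![a0, a1, a2, y 4, -y 2, -y 1], s, t, ?_⟩
  have e8 : g = z * m := by
    rw [hzd, Matrix.mul_assoc, hm.au.adj_mul, Matrix.mul_one]
  have z0 : ∀ i, rr i (0 : C) = 1 := fun i => by
    ext a b
    fin_cases i <;> fin_cases a <;> fin_cases b <;> simp [rr, r0, r1, r2, r3, r4, r5]
  rw [e8, e7, hmd, ← Matrix.mul_assoc]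
  congr 1
  show _ = _ * (rr 5 0 * rr 4 0 * rr 3 0 * _)
  rw [z0, z0, z0, Matrix.one_mul, Matrix.one_mul, Matrix.one_mul]
  rfl

end Pool.Agent.P.MP_1bf4cb_ag.RG
end
end

-- part Pool.Agent.P.MP_1bf4cb_ag.TD
section

set_option autoImplicit false
set_option maxHeartbeats 800000
set_option linter.unusedSectionVars false
set_option linter.unusedVariables false
set_option linter.unusedSimpArgs false

open Function Matrix MvPolynomial

noncomputable section

namespace Pool.Agent.P.MP_1bf4cb_ag.RG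

variable {k : Type} [Field k] {C C' : Type} [CommRing C] [CommRing C'] {g h : Mx 8 C}

/-- one cell -/
def CelS {n l : ℕ} (G B : Set (Pn k n)) (c : Mx n (MvPolynomial (Fin l) k)) (w : Mx n k)
    (Z0 Z1 : Set (Pn k n)) : Prop :=
  Sol G w ∧ ∀ (C : Type) [CommRing C] [Algebra k C],
    (∀ a : Fin l → C, Sol B (c.map (aeval a))) ∧ Set.BijOn
      (fun x : (Fin l → C) × Mx n C => c.map (aeval x.1) * w.map (algebraMap k C) * x.2)
      {x | Sol B x.2} {g | Sol G g ∧ Sol Z1 g ∧ Ideal.span (vl g '' Z0) = ⊤}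

theorem celS_of {n l : ℕ} {G B : Set (Pn k n)} {c : Mx n (MvPolynomial (Fin l) k)} {w : Mx n k}
    {Z0 Z1 : Set (Pn k n)} (hG : Grp G) (hB : G ⊆ B) (hw : Sol G w)
    (h1 : ∀ (C : Type) [CommRing C] [Algebra k C] (a : Fin l → C), Sol B (c.map (aeval a)))
    (h2 : ∀ (C : Type) [CommRing C] [Algebra k C] (a : Fin l → C) (b : Mx n C), Sol B b →
      Sol Z1 (c.map (aeval a) * w.map (algebraMap k C) * b) ∧
        Ideal.span (vl (c.map (aeval a) * w.map (algebraMap k C) * b) '' Z0) = ⊤)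
    (h3 : ∀ (C : Type) [CommRing C] [Algebra k C] (g : Mx n C), Sol G g → Sol Z1 g →
      Ideal.span (vl g '' Z0) = ⊤ →
      ∃! a : Fin l → C, Sol B ((c.map (aeval a) * w.map (algebraMap k C)).adjugate * g)) :
    CelS G B c w Z0 Z1 := by
  refine ⟨hw, fun C _ _ => ⟨h1 C, ?_⟩⟩
  have h4 : ∀ a : Fin l → C, Sol G (c.map (aeval a) * w.map (algebraMap k C)) := fun a =>
    hG.mul ((h1 C a).mono hB) (hw.map (Algebra.ofId k C))
  have h6 : ∀ (a : Fin l → C) (b : Mx n C), Sol B b →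
      Sol G (c.map (aeval a) * w.map (algebraMap k C) * b) :=
    fun a b hb => hG.mul (h4 a) (hb.mono hB)
  have h7 : ∀ (a : Fin l → C) (b : Mx n C), (c.map (aeval a) * w.map (algebraMap k C)).adjugate *
      (c.map (aeval a) * w.map (algebraMap k C) * b) = b := fun a b => by
    rw [← Matrix.mul_assoc, adjugate_mul, hG.det (h4 a), one_smul, Matrix.one_mul]
  refine ⟨fun x hx => ⟨h6 _ _ hx, h2 C _ _ hx⟩, fun x hx y hy e => ?_, fun g hg => ?_⟩
  · have e' : c.map (aeval x.1) * w.map (algebraMap k C) * x.2 =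
        c.map (aeval y.1) * w.map (algebraMap k C) * y.2 := e
    have e1 : x.1 = y.1 := (h3 C _ (h6 _ _ hx) (h2 C x.1 _ hx).1 (h2 C x.1 _ hx).2).unique
      (by rw [h7]; exact hx) (by rw [e', h7]; exact hy)
    refine Prod.ext e1 ?_
    rw [← h7 x.1 x.2, e', e1, h7]
  · obtain ⟨a, ha, -⟩ := h3 C g hg.1 hg.2.1 hg.2.2
    refine ⟨(a, _), ha, ?_⟩
    show _ * (_ * g) = g
    rw [← Matrix.mul_assoc, mul_adjugate, hG.det (h4 a), one_smul, Matrix.one_mul]

theorem UT.mul (hg : UT g) (hh : UT h) : UT (g * h) := by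
  refine ⟨fun a b e => ?_, fun a => ?_⟩
  · rw [mul_apply]
    refine Finset.sum_eq_zero fun c _ => ?_
    rcases lt_or_ge c a with h1 | h1
    · rw [hg.1 a c h1, zero_mul]
    · rw [hh.1 c b (e.trans_le h1), mul_zero]
  · rw [mul_apply, Finset.sum_eq_single a, hg.2, hh.2, one_mul]
    · intro c _ hc
      rcases lt_or_gt_of_ne hc with h1 | h1
      · rw [hg.1 a c h1, zero_mul]
      · rw [hh.1 c a h1, mul_zero]
    · exact fun h => absurd (Finset.mem_univ a) h

theorem ut_one : UT (1 : Mx 8 C) := ⟨fun a b h => one_apply_ne h.ne', fun a => one_apply_eq a⟩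

/-- a minor of two vectors -/
def mnr (i j : Fin 8) (x y : Fin 8 → C) : C := x i * y j - x j * y i

/-- the data of two neighbouring cells -/
structure Stp (i j : Fin 8) (l : ℕ) where
  U : (C : Type) → [CommRing C] → (Fin l → C) → Mx 8 C
  W : (C : Type) → [CommRing C] → Mx 8 C
  γ : Fin 6
  σ : ℤ
  τ : ℤ
  ε : ℤ
  hσ : σ * σ = 1
  hτ : τ * τ = 1
  hε : ε * ε = 1
  ut : ∀ (C : Type) [CommRing C] (a : Fin l → C), UT (U C a) ∧ Au (U C a)
  U_map : ∀ (C C' : Type) [CommRing C] [CommRing C'] (φ : C →+* C') (a : Fin l → C),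
    (U C a).map φ = U C' fun s => φ (a s)
  au : ∀ (C : Type) [CommRing C], Au (W C)
  W_map : ∀ (C C' : Type) [CommRing C] [CommRing C'] (φ : C →+* C'), (W C).map φ = W C'
  w0 : ∀ (C : Type) [CommRing C], W C *ᵥ bv C 0 = (σ : C) • bv C i
  hA : ∀ (C : Type) [CommRing C] (x : Fin 8 → C), x 3 + x 4 = 0 → nm x = 0 →
    (∀ a, i < a → x a = 0) → x i = 1 → ∃! a, U C a *ᵥ bv C i = x
  hB : ∀ (C : Type) [CommRing C] (a : Fin l → C),
    mnr i j (U C a *ᵥ (W C *ᵥ bv C 0)) (U C a *ᵥ (W C *ᵥ bv C 1)) = 0 ∧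
      mnr i j (U C a *ᵥ (W C *ᵥ bv C 0)) (U C a *ᵥ (W C *ᵥ bv C 2)) = τ
  hC : ∀ (C : Type) [CommRing C] (t : C), rr γ t * W C = W C * r1 (ε * t)

theorem sq_unit {σ : ℤ} (h : σ * σ = 1) : (σ : C) * σ = 1 := by
  rw [← Int.cast_mul, h, Int.cast_one]

variable {i j : Fin 8} {l : ℕ} (S : Stp i j l)

theorem Stp.mau (a : Fin l → C) : Au (S.U C a * S.W C) := (S.ut C a).2.mul (S.au C)

theorem Stp.col (a : Fin l → C) (hg : Q1 g) :
    (S.U C a * S.W C * g) *ᵥ bv C 0 = (g 0 0 * S.σ) • (S.U C a *ᵥ bv C i) := by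
  rw [← mulVec_mulVec, hg.col, mulVec_smul, ← mulVec_mulVec, S.w0, mulVec_smul, smul_smul]

theorem Stp.cond (a : Fin l → C) (hg : Q1 g) : (∀ b, i < b → (S.U C a * S.W C * g) b 0 = 0) ∧
    (S.U C a * S.W C * g) i 0 = g 0 0 * S.σ := by
  refine ⟨fun b hb => ?_, ?_⟩
  · rw [← mv_bv (_ * g), S.col a hg, Pi.smul_apply, mv_bv, (S.ut C a).1.1 b i hb, smul_zero]
  · rw [← mv_bv (_ * g), S.col a hg, Pi.smul_apply, mv_bv, (S.ut C a).1.2, smul_eq_mul, mul_one]

theorem Q1.col1 (hg : Q1 g) :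
    g *ᵥ bv C 1 = g 0 1 • bv C 0 + g 1 1 • bv C 1 + g 2 1 • bv C 2 := by
  have h := hg.w3 (y := bv C 1) fun b hb => Pi.single_eq_of_ne (by omega) _
  simp only [mv_bv] at h
  have h3 := h 3 (by decide)
  have h4 := h 4 (by decide)
  have h5 := h 5 (by decide)
  have h6 := h 6 (by decide)
  have h7 := h 7 (by decide)
  funext a
  rw [mv_bv]
  fin_cases a <;> simp [h3, h4, h5, h6, h7]

/-- the minor of the first two columns -/
def mn2 (i j : Fin 8) (g : Mx 8 C) : C := g i 0 * g j 1 - g j 0 * g i 1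

theorem mn2_mul (i j : Fin 8) (m : Mx 8 C) (hg : Q1 g) : mn2 i j (m * g) =
    g 0 0 * (g 1 1 * mnr i j (m *ᵥ bv C 0) (m *ᵥ bv C 1) +
      g 2 1 * mnr i j (m *ᵥ bv C 0) (m *ᵥ bv C 2)) := by
  unfold mn2 mnr
  simp only [mul_col m g, hg.col, hg.col1, mulVec_add, mulVec_smul, Pi.add_apply, Pi.smul_apply,
    smul_eq_mul]
  ring

theorem Stp.mn (a : Fin l → C) (hg : Q1 g) :
    mn2 i j (S.U C a * S.W C * g) = g 0 0 * g 2 1 * S.τ := by
  rw [mn2_mul i j _ hg]
  simp only [← mulVec_mulVec, (S.hB C a).1, (S.hB C a).2]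
  ring

theorem Stp.ex (hg : Au g) (h1 : ∀ b, i < b → g b 0 = 0) (h2 : IsUnit (g i 0)) :
    ∃! a, Q1 ((S.U C a * S.W C).adjugate * g) := by
  obtain ⟨u, hu⟩ := h2
  have e3 := hg.tr (bv C 0)
  have e4 := hg.nm (bv C 0)
  have h3 := S.hA C ((u⁻¹ : Cˣ) • (g *ᵥ bv C 0))
    (by
      simp only [Units.smul_def, Pi.smul_apply, smul_eq_mul, ← mul_add, e3]
      simp)
    (by
      have : nm ((u⁻¹ : Cˣ) • (g *ᵥ bv C 0)) = ((u⁻¹ : Cˣ) : C) ^ 2 * nm (g *ᵥ bv C 0) := by
        simp only [nm, Units.smul_def, Pi.smul_apply, smul_eq_mul]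
        ring
      rw [this, e4]
      simp [nm])
    (fun b hb => by rw [Pi.smul_apply, mv_bv, h1 b hb, smul_zero])
    (by rw [Pi.smul_apply, mv_bv, ← hu, Units.smul_def, smul_eq_mul, Units.inv_mul])
  refine (existsUnique_congr (q := fun a => Q1 ((S.U C a * S.W C).adjugate * g))
    fun a => ⟨fun e => ⟨(S.mau a).adj.mul hg, fun b hb => ?_⟩, fun e => ?_⟩).1 h3
  · have e1 : g *ᵥ bv C 0 = (S.U C a * S.W C) *ᵥ (((u : C) * S.σ) • bv C 0) := by
      rw [mulVec_smul, ← mulVec_mulVec, S.w0, mulVec_smul, smul_smul, mul_assoc, sq_unit S.hσ,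
        mul_one, e, Units.smul_def, smul_smul, Units.mul_inv, one_smul]
    rw [mul_col, e1, (S.mau a).adj_mv, Pi.smul_apply,
      show bv C 0 b = 0 from Pi.single_eq_of_ne hb.ne' _, smul_zero]
  · have e1 := S.col a e
    have e2 := (S.cond a e).2
    rw [← Matrix.mul_assoc, (S.mau a).mul_adj, Matrix.one_mul] at e1 e2
    rw [e1, ← e2, ← hu, Units.smul_def, smul_smul, Units.inv_mul, one_smul]

theorem n1_mv (t : C) (x : Fin 8 → C) : (r1 t * sb C) *ᵥ x =
    ![x 0, -x 2 - t * x 1, x 1, x 3, x 4, x 6 - t * x 5, -x 5, x 7] := by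
  rw [← mulVec_mulVec, sb_mv, r1_mv]
  funext a
  fin_cases a <;> simp <;> ring

theorem n1_q1 (t : C) : Q1 (r1 t * sb C) := ⟨(r1_au t).mul sb_au, fun a ha => by
  rw [← mv_bv (_ * _), n1_mv]
  fin_cases a <;> first | exact absurd ha (by decide) | simp⟩

theorem n1_mul (t : C) (g : Mx 8 C) : (r1 t * sb C * g) 2 1 = g 1 1 ∧
    (r1 t * sb C * g) 1 1 = -g 2 1 - t * g 1 1 := by
  rw [mul_col, mul_col, n1_mv]
  exact ⟨mv_bv g 1 1, by simp only [cons_val_one, cons_val_zero, mv_bv]⟩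

theorem n1_ex (hg : Q1 g) (h : IsUnit (g 2 1)) : ∃! t : C, QB ((r1 t * sb C).adjugate * g) := by
  obtain ⟨v, hv⟩ := h.exists_right_inv
  have h1 : ∀ t : C, QB ((r1 t * sb C).adjugate * g) ↔ t = -(g 1 1 * v) := fun t => by
    obtain ⟨h2, h3⟩ := n1_mul t ((r1 t * sb C).adjugate * g)
    rw [← Matrix.mul_assoc, (n1_q1 t).1.mul_adj, Matrix.one_mul] at h2 h3
    constructor
    · intro e
      rw [(e.2.2 2 (by decide)).2, ← h2] at h3
      linear_combination v * h3 - t * hv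
    · intro e
      refine ((n1_q1 t).adj.mul hg).qb ?_
      rw [← h2] at h3
      linear_combination h3 - g 2 1 * e + g 1 1 * hv
  exact ⟨_, (h1 _).2 rfl, fun t ht => (h1 t).1 ht⟩

/-- vanishing of the first column below row `i` -/
def Zg (k : Type) [Field k] (i : Fin 8) : Set (Pn k 8) := {f | ∃ a, i < a ∧ f = X (a, 0)}

/-- the function that separates two neighbouring cells -/
def fm (k : Type) [Field k] (i j : Fin 8) : Pn k 8 :=
  X (i, 0) * (X (i, 0) * X (j, 1) - X (j, 0) * X (i, 1))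

/-- the equations of the smaller of two neighbouring cells -/
def Zm (k : Type) [Field k] (i j : Fin 8) : Set (Pn k 8) := insert (fm k i j) (Zg k i)

variable [Algebra k C]

theorem sZg (g : Mx 8 C) : Sol (Zg k i) g ↔ ∀ a, i < a → g a 0 = 0 :=
  ⟨fun h a ha => (vl_X g a 0).symm.trans (h _ ⟨a, ha, rfl⟩), by
    rintro h _ ⟨a, ha, rfl⟩
    rw [vl_X]
    exact h a ha⟩

theorem vl_fm (g : Mx 8 C) : vl g (fm k i j) = g i 0 * mn2 i j g := by
  simp only [fm, vl_mul, vl_sub, vl_X, mn2]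

theorem sZm (g : Mx 8 C) :
    Sol (Zm k i j) g ↔ g i 0 * mn2 i j g = 0 ∧ ∀ a, i < a → g a 0 = 0 := by
  rw [← sZg (k := k), ← vl_fm (k := k)]
  exact Set.forall_mem_insert

theorem span_Zm (h : ∀ a, i < a → g a 0 = 0) :
    Ideal.span (vl g '' Zm k i j) = ⊤ ↔ IsUnit (g i 0 * mn2 i j g) := by
  rw [← vl_fm (k := k)]
  exact span_top_iff (Set.mem_insert _ _) fun z hz => hz.imp_right fun e => (sZg g).2 h z e

/-- the chart of the smaller cell -/
def Stp.c0 (k : Type) [Field k] : Mx 8 (MvPolynomial (Fin l) k) := S.U _ X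

/-- the chart of the larger cell -/
def Stp.c1 (k : Type) [Field k] : Mx 8 (MvPolynomial (Fin (l + 1)) k) :=
  S.U _ (fun s => X s.castSucc) * rr S.γ (X (Fin.last l))

theorem Stp.c0_map (a : Fin l → C) : (S.c0 k).map (aeval a) = S.U C a := by
  have := S.U_map _ C ((aeval a : MvPolynomial (Fin l) k →ₐ[k] C) :
    MvPolynomial (Fin l) k →+* C) X
  simp only [RingHom.coe_coe, aeval_X] at this
  exact this

theorem Stp.c1_map (a : Fin (l + 1) → C) : (S.c1 k).map (aeval a) =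
    S.U C (fun s => a s.castSucc) * rr S.γ (a (Fin.last l)) := by
  let φ : MvPolynomial (Fin (l + 1)) k →+* C := (aeval a : MvPolynomial (Fin (l + 1)) k →ₐ[k] C)
  have h1 := S.U_map _ C φ fun s => X s.castSucc
  have h2 := rr_map φ S.γ (X (Fin.last l))
  have h3 := Matrix.map_mul (L := S.U _ fun s => X s.castSucc) (M := rr S.γ (X (Fin.last l)))
    (f := φ)
  rw [h1, h2] at h3
  simp only [φ, RingHom.coe_coe, aeval_X] at h3
  exact h3

theorem eG_sub (s : Bool) : eG k ⊆ eP k s := Set.subset_union_left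

theorem eP_sub (s : Bool) : eP k s ⊆ eP k false ∪ eP k true := by
  cases s
  exacts [Set.subset_union_left, Set.subset_union_right]

theorem Stp.uqb (a : Fin l → C) : QB (S.U C a) := qb_of_ut (S.ut C a).2 (S.ut C a).1.1

theorem Stp.cel0 {Z0 : Set (Pn k 8)}
    (hZ : ∀ (C : Type) [CommRing C] [Algebra k C] (g : Mx 8 C), Au g → (∀ a, i < a → g a 0 = 0) →
      (Ideal.span (vl g '' Z0) = ⊤ ↔ IsUnit (g i 0))) :
    CelS (eG k) (eP k false ∪ eP k true) (S.c0 k) (S.W k) Z0 (Zm k i j) := by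
  refine celS_of g2_grp.1 ((eG_sub false).trans (eP_sub false)) ((sG _).2 (S.au k))
    (fun C _ _ a => ?_) (fun C _ _ a b hb => ?_) fun C _ _ g hg h1 h2 => ?_
  · rw [S.c0_map, sB]
    exact S.uqb a
  · rw [sB] at hb
    rw [S.c0_map, S.W_map, sZm, hZ C _ ((S.mau a).mul hb.au) (S.cond a hb.1).1, (S.cond a hb.1).2,
      S.mn a hb.1, (hb.2.2 2 (by decide)).2]
    exact ⟨⟨by ring, (S.cond a hb.1).1⟩,
      hb.1.unit.mul (IsUnit.of_mul_eq_one _ (sq_unit S.hσ))⟩
  · rw [sG] at hg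
    rw [sZm] at h1
    rw [hZ C g hg h1.2] at h2
    refine (existsUnique_congr fun a => ?_).1 (S.ex hg h1.2 h2)
    rw [S.c0_map, S.W_map, sB]
    refine ⟨fun e => e.qb ?_, fun e => e.1⟩
    have e1 := S.mn a e
    rw [← Matrix.mul_assoc, (S.mau a).mul_adj, Matrix.one_mul, h2.mul_right_eq_zero.1 h1.1] at e1
    exact e.unit.mul_right_eq_zero.1
      ((IsUnit.of_mul_eq_one _ (sq_unit S.hτ)).mul_left_eq_zero.1 e1.symm)

theorem Stp.cw (a : Fin (l + 1) → C) :
    (S.c1 k).map (aeval a) * (S.W k * sb k).map (algebraMap k C) =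
      S.U C (fun s => a s.castSucc) * S.W C * (r1 (S.ε * a (Fin.last l)) * sb C) := by
  rw [S.c1_map, Matrix.map_mul, S.W_map, sb_map, Matrix.mul_assoc, ← Matrix.mul_assoc (rr _ _),
    S.hC]
  simp only [Matrix.mul_assoc]

theorem Stp.cel1 {Z2 : Set (Pn k 8)}
    (hZ : ∀ (C : Type) [CommRing C] [Algebra k C] (g : Mx 8 C),
      Sol Z2 g ↔ ∀ a, i < a → g a 0 = 0) :
    CelS (eG k) (eP k false ∪ eP k true) (S.c1 k) (S.W k * sb k) (Zm k i j) Z2 := by
  refine celS_of g2_grp.1 ((eG_sub false).trans (eP_sub false)) ((sG _).2 ((S.au k).mul sb_au))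
    (fun C _ _ a => ?_) (fun C _ _ a b hb => ?_) fun C _ _ g hg h1 h2 => ?_
  · rw [S.c1_map, sB]
    exact (S.uqb _).mul (rr_qb _ _)
  · rw [sB] at hb
    have h3 := (n1_q1 (S.ε * a (Fin.last l))).mul hb.1
    rw [S.cw, Matrix.mul_assoc _ _ b, hZ, span_Zm (S.cond _ h3).1, (S.cond _ h3).2, S.mn _ h3,
      (n1_mul _ b).1]
    exact ⟨(S.cond _ h3).1, (h3.unit.mul (IsUnit.of_mul_eq_one _ (sq_unit S.hσ))).mul
      ((h3.unit.mul hb.unit1).mul (IsUnit.of_mul_eq_one _ (sq_unit S.hτ)))⟩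
  · rw [sG] at hg
    rw [hZ] at h1
    rw [span_Zm h1, IsUnit.mul_iff] at h2
    obtain ⟨a, ha, hu⟩ := S.ex hg h1 h2.1
    have e1 := S.mn a ha
    rw [← Matrix.mul_assoc, (S.mau a).mul_adj, Matrix.one_mul] at e1
    obtain ⟨t, ht, hu'⟩ := n1_ex ha (IsUnit.mul_iff.1 (IsUnit.mul_iff.1 (e1 ▸ h2.2)).1).2
    refine ⟨Fin.snoc a (S.ε * t), ?_, fun y hy => ?_⟩
    · show Sol _ _
      rw [S.cw, sB, adjugate_mul_distrib, Matrix.mul_assoc]
      simp only [Fin.snoc_castSucc, Fin.snoc_last, ← mul_assoc (S.ε : C), sq_unit S.hε, one_mul]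
      exact ht
    · replace hy : Sol _ _ := hy
      rw [S.cw, sB, adjugate_mul_distrib, Matrix.mul_assoc] at hy
      have h4 := (n1_q1 (S.ε * y (Fin.last l))).mul hy.1
      rw [← Matrix.mul_assoc, (n1_q1 _).1.mul_adj, Matrix.one_mul] at h4
      have h5 := hu _ h4
      rw [h5] at hy
      rw [← hu' _ hy, ← h5, ← mul_assoc, sq_unit S.hε, one_mul]
      exact (Fin.snoc_init_self y).symm

end Pool.Agent.P.MP_1bf4cb_ag.RG
end
end

-- part Pool.Agent.P.MP_1bf4cb_ag.TE
section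

set_option autoImplicit false
set_option maxHeartbeats 1600000
set_option linter.unusedSectionVars false
set_option linter.unusedVariables false
set_option linter.unusedSimpArgs false

open Function Matrix MvPolynomial

noncomputable section

namespace Pool.Agent.P.MP_1bf4cb_ag.RG

variable {C : Type} [CommRing C]

theorem vec8 {x y : Fin 8 → C} (h0 : x 0 = y 0) (h1 : x 1 = y 1) (h2 : x 2 = y 2) (h3 : x 3 = y 3)
    (h4 : x 4 = y 4) (h5 : x 5 = y 5) (h6 : x 6 = y 6) (h7 : x 7 = y 7) : x = y := by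
  funext l
  fin_cases l
  exacts [h0, h1, h2, h3, h4, h5, h6, h7]

/-- a pair of cells -/
def st0 : Stp 0 2 0 where
  U := fun C _ a => 1
  W := fun C _ => 1
  γ := 1
  σ := 1
  τ := 1
  ε := 1
  hσ := rfl
  hτ := rfl
  hε := rfl
  ut := fun C _ a => ⟨ut_one,
    au_one⟩
  U_map := fun C C' _ _ φ a => Matrix.map_one _ (map_zero φ) (map_one φ)
  au := fun C _ => au_one
  W_map := fun C C' _ _ φ => Matrix.map_one _ (map_zero φ) (map_one φ)
  w0 := fun C _ => by
    simp only [← mulVec_mulVec, one_mulVec, sa_mv, sb_mv, r0_mv, r1_mv, r2_mv, r3_mv, r4_mv, r5_mv]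
    refine vec8 ?_ ?_ ?_ ?_ ?_ ?_ ?_ ?_ <;> simp
  hA := fun C _ x h1 h2 h3 h4 => by
    refine ⟨![], ?_, fun a _ => Subsingleton.elim _ _⟩
    show (1 : Mx 8 C) *ᵥ _ = _
    rw [one_mulVec]
    exact vec8 h4.symm (h3 1 (by decide)).symm (h3 2 (by decide)).symm (h3 3 (by decide)).symm
      (h3 4 (by decide)).symm (h3 5 (by decide)).symm (h3 6 (by decide)).symm
      (h3 7 (by decide)).symm
  hB := fun C _ a => by
    simp only [← mulVec_mulVec, one_mulVec, sa_mv, sb_mv, r0_mv, r1_mv, r2_mv, r3_mv, r4_mv, r5_mv]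
    constructor <;> simp [mnr]
  hC := fun C _ t => by
    refine mx_ext fun j => ?_
    generalize bv C j = x
    show (r1 t * _) *ᵥ x = _
    simp only [← mulVec_mulVec, one_mulVec, sa_mv, sb_mv, r0_mv, r1_mv, r2_mv, r3_mv, r4_mv, r5_mv]
    refine vec8 ?_ ?_ ?_ ?_ ?_ ?_ ?_ ?_ <;> simp <;> ring

/-- a pair of cells -/
def st1 : Stp 1 5 1 where
  U := fun C _ a => r0 (a 0)
  W := fun C _ => sa C
  γ := 4
  σ := 1
  τ := 1
  ε := -1
  hσ := rfl
  hτ := rfl
  hε := rfl
  ut := fun C _ a => ⟨r0_ut _,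
    r0_au _⟩
  U_map := fun C C' _ _ φ a => by
    simp only [Matrix.map_mul, r0_map, r1_map, r2_map, r3_map, r4_map, r5_map]
  au := fun C _ => sa_au
  W_map := fun C C' _ _ φ => by simp only [Matrix.map_mul, sa_map, sb_map]
  w0 := fun C _ => by
    simp only [← mulVec_mulVec, one_mulVec, sa_mv, sb_mv, r0_mv, r1_mv, r2_mv, r3_mv, r4_mv, r5_mv]
    refine vec8 ?_ ?_ ?_ ?_ ?_ ?_ ?_ ?_ <;> simp
  hA := fun C _ x h1 h2 h3 h4 => by
    have e : ∀ a : Fin 1 → C, (r0 (a 0)) *ᵥ bv C 1 = ![-a 0, 1, 0, 0, 0, 0, 0, 0] := fun a => by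
      simp only [← mulVec_mulVec, one_mulVec, sa_mv, sb_mv, r0_mv, r1_mv, r2_mv, r3_mv, r4_mv, r5_mv]
      refine vec8 ?_ ?_ ?_ ?_ ?_ ?_ ?_ ?_ <;> simp <;> ring
    have z2 := h3 2 (by decide)
    have z3 := h3 3 (by decide)
    have z4 := h3 4 (by decide)
    have z5 := h3 5 (by decide)
    have z6 := h3 6 (by decide)
    have z7 := h3 7 (by decide)
    unfold nm at h2
    refine ⟨![-x 0], (e _).trans (vec8 ?_ ?_ ?_ ?_ ?_ ?_ ?_ ?_), fun a ha => ?_⟩
    · simp only [cons_val_zero, cons_val_one, cons_val] <;> ring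
    · simp only [cons_val_zero, cons_val_one, cons_val] <;> linear_combination -h4
    · simp only [cons_val_zero, cons_val_one, cons_val] <;> linear_combination -z2
    · simp only [cons_val_zero, cons_val_one, cons_val] <;> linear_combination -z3
    · simp only [cons_val_zero, cons_val_one, cons_val] <;> linear_combination -z4
    · simp only [cons_val_zero, cons_val_one, cons_val] <;> linear_combination -z5
    · simp only [cons_val_zero, cons_val_one, cons_val] <;> linear_combination -z6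
    · simp only [cons_val_zero, cons_val_one, cons_val] <;> linear_combination -z7
    · have hb := (e a).symm.trans ha
      have y0 := congrFun hb 0
      have y1 := congrFun hb 1
      have y2 := congrFun hb 2
      have y3 := congrFun hb 3
      have y4 := congrFun hb 4
      have y5 := congrFun hb 5
      have y6 := congrFun hb 6
      have y7 := congrFun hb 7
      simp only [cons_val_zero, cons_val_one, cons_val] at y0 y1 y2 y3 y4 y5 y6 y7
      funext s
      fin_cases s <;> simp only [cons_val_zero, cons_val_one, cons_val, Fin.zero_eta, Fin.mk_one,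
        Fin.reduceFinMk]
      · linear_combination -y0
  hB := fun C _ a => by
    simp only [← mulVec_mulVec, one_mulVec, sa_mv, sb_mv, r0_mv, r1_mv, r2_mv, r3_mv, r4_mv, r5_mv]
    constructor <;> simp [mnr]
  hC := fun C _ t => by
    refine mx_ext fun j => ?_
    generalize bv C j = x
    show (r4 t * _) *ᵥ x = _
    simp only [← mulVec_mulVec, one_mulVec, sa_mv, sb_mv, r0_mv, r1_mv, r2_mv, r3_mv, r4_mv, r5_mv]
    refine vec8 ?_ ?_ ?_ ?_ ?_ ?_ ?_ ?_ <;> simp <;> ring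

/-- a pair of cells -/
def st2 : Stp 2 6 2 where
  U := fun C _ a => r2 (a 1) * r1 (a 0)
  W := fun C _ => sb C * sa C
  γ := 5
  σ := 1
  τ := -1
  ε := 1
  hσ := rfl
  hτ := rfl
  hε := rfl
  ut := fun C _ a => ⟨(r2_ut _).mul (r1_ut _),
    (r2_au _).mul (r1_au _)⟩
  U_map := fun C C' _ _ φ a => by
    simp only [Matrix.map_mul, r0_map, r1_map, r2_map, r3_map, r4_map, r5_map]
  au := fun C _ => (sb_au).mul (sa_au)
  W_map := fun C C' _ _ φ => by simp only [Matrix.map_mul, sa_map, sb_map]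
  w0 := fun C _ => by
    simp only [← mulVec_mulVec, one_mulVec, sa_mv, sb_mv, r0_mv, r1_mv, r2_mv, r3_mv, r4_mv, r5_mv]
    refine vec8 ?_ ?_ ?_ ?_ ?_ ?_ ?_ ?_ <;> simp
  hA := fun C _ x h1 h2 h3 h4 => by
    have e : ∀ a : Fin 2 → C, (r2 (a 1) * r1 (a 0)) *ᵥ bv C 2 = ![a 1, -a 0, 1, 0, 0, 0, 0, 0] := fun a => by
      simp only [← mulVec_mulVec, one_mulVec, sa_mv, sb_mv, r0_mv, r1_mv, r2_mv, r3_mv, r4_mv, r5_mv]
      refine vec8 ?_ ?_ ?_ ?_ ?_ ?_ ?_ ?_ <;> simp <;> ring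
    have z3 := h3 3 (by decide)
    have z4 := h3 4 (by decide)
    have z5 := h3 5 (by decide)
    have z6 := h3 6 (by decide)
    have z7 := h3 7 (by decide)
    unfold nm at h2
    refine ⟨![-x 1, x 0], (e _).trans (vec8 ?_ ?_ ?_ ?_ ?_ ?_ ?_ ?_), fun a ha => ?_⟩
    · simp only [cons_val_zero, cons_val_one, cons_val] <;> ring
    · simp only [cons_val_zero, cons_val_one, cons_val] <;> ring
    · simp only [cons_val_zero, cons_val_one, cons_val] <;> linear_combination -h4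
    · simp only [cons_val_zero, cons_val_one, cons_val] <;> linear_combination -z3
    · simp only [cons_val_zero, cons_val_one, cons_val] <;> linear_combination -z4
    · simp only [cons_val_zero, cons_val_one, cons_val] <;> linear_combination -z5
    · simp only [cons_val_zero, cons_val_one, cons_val] <;> linear_combination -z6
    · simp only [cons_val_zero, cons_val_one, cons_val] <;> linear_combination -z7
    · have hb := (e a).symm.trans ha
      have y0 := congrFun hb 0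
      have y1 := congrFun hb 1
      have y2 := congrFun hb 2
      have y3 := congrFun hb 3
      have y4 := congrFun hb 4
      have y5 := congrFun hb 5
      have y6 := congrFun hb 6
      have y7 := congrFun hb 7
      simp only [cons_val_zero, cons_val_one, cons_val] at y0 y1 y2 y3 y4 y5 y6 y7
      funext s
      fin_cases s <;> simp only [cons_val_zero, cons_val_one, cons_val, Fin.zero_eta, Fin.mk_one,
        Fin.reduceFinMk]
      · linear_combination -y1
      · linear_combination y0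
  hB := fun C _ a => by
    simp only [← mulVec_mulVec, one_mulVec, sa_mv, sb_mv, r0_mv, r1_mv, r2_mv, r3_mv, r4_mv, r5_mv]
    constructor <;> simp [mnr]
  hC := fun C _ t => by
    refine mx_ext fun j => ?_
    generalize bv C j = x
    show (r5 t * _) *ᵥ x = _
    simp only [← mulVec_mulVec, one_mulVec, sa_mv, sb_mv, r0_mv, r1_mv, r2_mv, r3_mv, r4_mv, r5_mv]
    refine vec8 ?_ ?_ ?_ ?_ ?_ ?_ ?_ ?_ <;> simp <;> ring

/-- a pair of cells -/
def st5 : Stp 5 7 3 where
  U := fun C _ a => r4 (a 2) * r3 (a 1) * r0 (a 0)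
  W := fun C _ => sa C * sb C * sa C
  γ := 5
  σ := 1
  τ := -1
  ε := -1
  hσ := rfl
  hτ := rfl
  hε := rfl
  ut := fun C _ a => ⟨((r4_ut _).mul (r3_ut _)).mul (r0_ut _),
    ((r4_au _).mul (r3_au _)).mul (r0_au _)⟩
  U_map := fun C C' _ _ φ a => by
    simp only [Matrix.map_mul, r0_map, r1_map, r2_map, r3_map, r4_map, r5_map]
  au := fun C _ => ((sa_au).mul (sb_au)).mul (sa_au)
  W_map := fun C C' _ _ φ => by simp only [Matrix.map_mul, sa_map, sb_map]
  w0 := fun C _ => by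
    simp only [← mulVec_mulVec, one_mulVec, sa_mv, sb_mv, r0_mv, r1_mv, r2_mv, r3_mv, r4_mv, r5_mv]
    refine vec8 ?_ ?_ ?_ ?_ ?_ ?_ ?_ ?_ <;> simp
  hA := fun C _ x h1 h2 h3 h4 => by
    have e : ∀ a : Fin 3 → C, (r4 (a 2) * r3 (a 1) * r0 (a 0)) *ᵥ bv C 5 = ![2 * a 0 * a 1 + a 2, a 1, -a 0 ^ 2, a 0, -a 0, 1, 0, 0] := fun a => by
      simp only [← mulVec_mulVec, one_mulVec, sa_mv, sb_mv, r0_mv, r1_mv, r2_mv, r3_mv, r4_mv, r5_mv]
      refine vec8 ?_ ?_ ?_ ?_ ?_ ?_ ?_ ?_ <;> simp <;> ring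
    have z6 := h3 6 (by decide)
    have z7 := h3 7 (by decide)
    unfold nm at h2
    refine ⟨![x 3, x 1, x 0 - 2 * x 3 * x 1], (e _).trans (vec8 ?_ ?_ ?_ ?_ ?_ ?_ ?_ ?_), fun a ha => ?_⟩
    · simp only [cons_val_zero, cons_val_one, cons_val] <;> ring
    · simp only [cons_val_zero, cons_val_one, cons_val] <;> ring
    · simp only [cons_val_zero, cons_val_one, cons_val] <;> linear_combination h2 - x 3 * h1 + x 0 * z7 + x 1 * z6 + x 2 * h4
    · simp only [cons_val_zero, cons_val_one, cons_val] <;> ring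
    · simp only [cons_val_zero, cons_val_one, cons_val] <;> linear_combination -h1
    · simp only [cons_val_zero, cons_val_one, cons_val] <;> linear_combination -h4
    · simp only [cons_val_zero, cons_val_one, cons_val] <;> linear_combination -z6
    · simp only [cons_val_zero, cons_val_one, cons_val] <;> linear_combination -z7
    · have hb := (e a).symm.trans ha
      have y0 := congrFun hb 0
      have y1 := congrFun hb 1
      have y2 := congrFun hb 2
      have y3 := congrFun hb 3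
      have y4 := congrFun hb 4
      have y5 := congrFun hb 5
      have y6 := congrFun hb 6
      have y7 := congrFun hb 7
      simp only [cons_val_zero, cons_val_one, cons_val] at y0 y1 y2 y3 y4 y5 y6 y7
      funext s
      fin_cases s <;> simp only [cons_val_zero, cons_val_one, cons_val, Fin.zero_eta, Fin.mk_one,
        Fin.reduceFinMk]
      · linear_combination y3
      · linear_combination y1
      · linear_combination y0 - 2 * a 1 * y3 - 2 * x 3 * y1
  hB := fun C _ a => by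
    simp only [← mulVec_mulVec, one_mulVec, sa_mv, sb_mv, r0_mv, r1_mv, r2_mv, r3_mv, r4_mv, r5_mv]
    constructor <;> simp [mnr]
  hC := fun C _ t => by
    refine mx_ext fun j => ?_
    generalize bv C j = x
    show (r5 t * _) *ᵥ x = _
    simp only [← mulVec_mulVec, one_mulVec, sa_mv, sb_mv, r0_mv, r1_mv, r2_mv, r3_mv, r4_mv, r5_mv]
    refine vec8 ?_ ?_ ?_ ?_ ?_ ?_ ?_ ?_ <;> simp <;> ring

/-- a pair of cells -/
def st6 : Stp 6 7 4 where
  U := fun C _ a => r5 (a 3) * r3 (a 2) * r2 (a 1) * r1 (a 0)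
  W := fun C _ => sb C * sa C * sb C * sa C
  γ := 4
  σ := -1
  τ := 1
  ε := -1
  hσ := rfl
  hτ := rfl
  hε := rfl
  ut := fun C _ a => ⟨(((r5_ut _).mul (r3_ut _)).mul (r2_ut _)).mul (r1_ut _),
    (((r5_au _).mul (r3_au _)).mul (r2_au _)).mul (r1_au _)⟩
  U_map := fun C C' _ _ φ a => by
    simp only [Matrix.map_mul, r0_map, r1_map, r2_map, r3_map, r4_map, r5_map]
  au := fun C _ => (((sb_au).mul (sa_au)).mul (sb_au)).mul (sa_au)
  W_map := fun C C' _ _ φ => by simp only [Matrix.map_mul, sa_map, sb_map]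
  w0 := fun C _ => by
    simp only [← mulVec_mulVec, one_mulVec, sa_mv, sb_mv, r0_mv, r1_mv, r2_mv, r3_mv, r4_mv, r5_mv]
    refine vec8 ?_ ?_ ?_ ?_ ?_ ?_ ?_ ?_ <;> simp
  hA := fun C _ x h1 h2 h3 h4 => by
    have e : ∀ a : Fin 4 → C, (r5 (a 3) * r3 (a 2) * r2 (a 1) * r1 (a 0)) *ᵥ bv C 6 = ![2 * a 1 * a 2 + a 3, -a 1 ^ 2 + a 0 * a 2, -a 2, a 1, -a 1, a 0, 1, 0] := fun a => by
      simp only [← mulVec_mulVec, one_mulVec, sa_mv, sb_mv, r0_mv, r1_mv, r2_mv, r3_mv, r4_mv, r5_mv]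
      refine vec8 ?_ ?_ ?_ ?_ ?_ ?_ ?_ ?_ <;> simp <;> ring
    have z7 := h3 7 (by decide)
    unfold nm at h2
    refine ⟨![x 5, x 3, -x 2, x 0 + 2 * x 3 * x 2], (e _).trans (vec8 ?_ ?_ ?_ ?_ ?_ ?_ ?_ ?_), fun a ha => ?_⟩
    · simp only [cons_val_zero, cons_val_one, cons_val] <;> ring
    · simp only [cons_val_zero, cons_val_one, cons_val] <;> linear_combination h2 - x 3 * h1 + x 0 * z7 + x 1 * h4
    · simp only [cons_val_zero, cons_val_one, cons_val] <;> ring
    · simp only [cons_val_zero, cons_val_one, cons_val] <;> ring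
    · simp only [cons_val_zero, cons_val_one, cons_val] <;> linear_combination -h1
    · simp only [cons_val_zero, cons_val_one, cons_val] <;> ring
    · simp only [cons_val_zero, cons_val_one, cons_val] <;> linear_combination -h4
    · simp only [cons_val_zero, cons_val_one, cons_val] <;> linear_combination -z7
    · have hb := (e a).symm.trans ha
      have y0 := congrFun hb 0
      have y1 := congrFun hb 1
      have y2 := congrFun hb 2
      have y3 := congrFun hb 3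
      have y4 := congrFun hb 4
      have y5 := congrFun hb 5
      have y6 := congrFun hb 6
      have y7 := congrFun hb 7
      simp only [cons_val_zero, cons_val_one, cons_val] at y0 y1 y2 y3 y4 y5 y6 y7
      funext s
      fin_cases s <;> simp only [cons_val_zero, cons_val_one, cons_val, Fin.zero_eta, Fin.mk_one,
        Fin.reduceFinMk]
      · linear_combination y5
      · linear_combination y3
      · linear_combination -y2
      · linear_combination y0 - 2 * a 2 * y3 + 2 * x 3 * y2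
  hB := fun C _ a => by
    simp only [← mulVec_mulVec, one_mulVec, sa_mv, sb_mv, r0_mv, r1_mv, r2_mv, r3_mv, r4_mv, r5_mv]
    constructor <;> simp [mnr]
  hC := fun C _ t => by
    refine mx_ext fun j => ?_
    generalize bv C j = x
    show (r4 t * _) *ᵥ x = _
    simp only [← mulVec_mulVec, one_mulVec, sa_mv, sb_mv, r0_mv, r1_mv, r2_mv, r3_mv, r4_mv, r5_mv]
    refine vec8 ?_ ?_ ?_ ?_ ?_ ?_ ?_ ?_ <;> simp <;> ring

/-- a pair of cells -/
def st7 : Stp 7 6 5 where
  U := fun C _ a => r5 (a 4) * r4 (a 3) * r3 (a 2) * r2 (a 1) * r0 (a 0)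
  W := fun C _ => sa C * sb C * sa C * sb C * sa C
  γ := 1
  σ := -1
  τ := 1
  ε := 1
  hσ := rfl
  hτ := rfl
  hε := rfl
  ut := fun C _ a => ⟨((((r5_ut _).mul (r4_ut _)).mul (r3_ut _)).mul (r2_ut _)).mul (r0_ut _),
    ((((r5_au _).mul (r4_au _)).mul (r3_au _)).mul (r2_au _)).mul (r0_au _)⟩
  U_map := fun C C' _ _ φ a => by
    simp only [Matrix.map_mul, r0_map, r1_map, r2_map, r3_map, r4_map, r5_map]
  au := fun C _ => ((((sa_au).mul (sb_au)).mul (sa_au)).mul (sb_au)).mul (sa_au)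
  W_map := fun C C' _ _ φ => by simp only [Matrix.map_mul, sa_map, sb_map]
  w0 := fun C _ => by
    simp only [← mulVec_mulVec, one_mulVec, sa_mv, sb_mv, r0_mv, r1_mv, r2_mv, r3_mv, r4_mv, r5_mv]
    refine vec8 ?_ ?_ ?_ ?_ ?_ ?_ ?_ ?_ <;> simp
  hA := fun C _ x h1 h2 h3 h4 => by
    have e : ∀ a : Fin 5 → C, (r5 (a 4) * r4 (a 3) * r3 (a 2) * r2 (a 1) * r0 (a 0)) *ᵥ bv C 7 = ![2 * a 0 * a 1 * a 2 - a 2 ^ 2 - a 1 * a 3 + a 0 * a 4, -a 1 ^ 2 * a 0 - a 1 * a 2 - a 4, -a 0 * a 2 - a 3, a 0 * a 1 - a 2, a 2 - a 0 * a 1, -a 1, a 0, 1] := fun a => by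
      simp only [← mulVec_mulVec, one_mulVec, sa_mv, sb_mv, r0_mv, r1_mv, r2_mv, r3_mv, r4_mv, r5_mv]
      refine vec8 ?_ ?_ ?_ ?_ ?_ ?_ ?_ ?_ <;> simp <;> ring
    unfold nm at h2
    refine ⟨![x 6, -x 5, -x 5 * x 6 - x 3, -x 2 + x 6 * (x 5 * x 6 + x 3), -x 1 - 2 * x 5 ^ 2 * x 6 - x 5 * x 3], (e _).trans (vec8 ?_ ?_ ?_ ?_ ?_ ?_ ?_ ?_), fun a ha => ?_⟩
    · simp only [cons_val_zero, cons_val_one, cons_val] <;> linear_combination h2 - x 3 * h1 + x 0 * h4
    · simp only [cons_val_zero, cons_val_one, cons_val] <;> ring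
    · simp only [cons_val_zero, cons_val_one, cons_val] <;> ring
    · simp only [cons_val_zero, cons_val_one, cons_val] <;> ring
    · simp only [cons_val_zero, cons_val_one, cons_val] <;> linear_combination -h1
    · simp only [cons_val_zero, cons_val_one, cons_val] <;> ring
    · simp only [cons_val_zero, cons_val_one, cons_val] <;> ring
    · simp only [cons_val_zero, cons_val_one, cons_val] <;> linear_combination -h4
    · have hb := (e a).symm.trans ha
      have y0 := congrFun hb 0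
      have y1 := congrFun hb 1
      have y2 := congrFun hb 2
      have y3 := congrFun hb 3
      have y4 := congrFun hb 4
      have y5 := congrFun hb 5
      have y6 := congrFun hb 6
      have y7 := congrFun hb 7
      simp only [cons_val_zero, cons_val_one, cons_val] at y0 y1 y2 y3 y4 y5 y6 y7
      funext s
      fin_cases s <;> simp only [cons_val_zero, cons_val_one, cons_val, Fin.zero_eta, Fin.mk_one,
        Fin.reduceFinMk]
      · rw [← y6]
      · rw [← y5]; ring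
      · rw [← y5, ← y6, ← y3]; ring
      · rw [← y5, ← y6, ← y3, ← y2]; ring
      · rw [← y5, ← y6, ← y3, ← y1]; ring
  hB := fun C _ a => by
    simp only [← mulVec_mulVec, one_mulVec, sa_mv, sb_mv, r0_mv, r1_mv, r2_mv, r3_mv, r4_mv, r5_mv]
    constructor <;> simp [mnr]
  hC := fun C _ t => by
    refine mx_ext fun j => ?_
    generalize bv C j = x
    show (r1 t * _) *ᵥ x = _
    simp only [← mulVec_mulVec, one_mulVec, sa_mv, sb_mv, r0_mv, r1_mv, r2_mv, r3_mv, r4_mv, r5_mv]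
    refine vec8 ?_ ?_ ?_ ?_ ?_ ?_ ?_ ?_ <;> simp <;> ring

end Pool.Agent.P.MP_1bf4cb_ag.RG
end
end
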