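import Pool.Agent.K.MP_1bf4cb_ag.C2

-- part Pool.Agent.P.MP_1bf4cb_ag.TF
section

set_option autoImplicit false
set_option maxHeartbeats 800000
set_option linter.unusedSectionVars false
set_option linter.unusedVariables false
set_option linter.unusedSimpArgs false

open Function Matrix MvPolynomial

noncomputable section

namespace Pool.Agent.P.MP_1bf4cb_ag.RG

variable {k : Type} [Field k] {n r : ℕ} {C C' : Type} [CommRing C] [Algebra k C] [CommRing C']
  [Algebra k C']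

theorem fp_quot (S : Set (Pn k n)) : Algebra.FinitePresentation k (Pn k n ⧸ Ideal.span S) :=
  Algebra.FinitePresentation.quotient (IsNoetherian.noetherian _)

theorem vl_gen (f : Pn k n) : vl (mvPolynomialX (Fin n) (Fin n) k) f = f :=
  MvPolynomial.aeval_X_left_apply f

theorem sol_of_hom {S : Set (Pn k n)} (ψ : (Pn k n ⧸ Ideal.span S) →ₐ[k] C) :
    Sol S ((mvPolynomialX (Fin n) (Fin n) k).map (ψ.comp (Ideal.Quotient.mkₐ k _))) := fun t ht => by
  rw [vl_map, vl_gen]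
  show ψ (Ideal.Quotient.mk _ t) = 0
  rw [Ideal.Quotient.eq_zero_iff_mem.2 (Ideal.subset_span ht), map_zero]

theorem smooth_of_cover {S : Set (Pn k n)} (T : Set (Pn k n))
    (h1 : ∀ (K : Type) [Field K] [Algebra k K] (g : Mx n K), Sol S g → ∃ f ∈ T, vl g f ≠ 0)
    (h2 : ∀ f ∈ T, ∀ (C : Type) [CommRing C] [Algebra k C] (I : Ideal C), I ^ 2 = ⊥ →
      ∀ g : Mx n (C ⧸ I), Sol S g → IsUnit (vl g f) →
      ∃ g' : Mx n C, Sol S g' ∧ g'.map (Ideal.Quotient.mkₐ k I) = g) :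
    Algebra.Smooth k (Pn k n ⧸ Ideal.span S) := by
  have := fp_quot S
  refine ⟨Algebra.smoothLocus_eq_univ_iff.1 (Set.eq_univ_of_forall fun p => ?_), this⟩
  let ψ0 : (Pn k n ⧸ Ideal.span S) →ₐ[k] p.asIdeal.ResidueField :=
    IsScalarTower.toAlgHom k _ _
  obtain ⟨f, hf, h3⟩ := h1 _ _ (sol_of_hom ψ0)
  rw [vl_map, vl_gen] at h3
  have hp : p ∈ PrimeSpectrum.basicOpen (Ideal.Quotient.mk (Ideal.span S) f) := fun e =>
    h3 (Ideal.algebraMap_residueField_eq_zero.2 e)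
  refine Algebra.basicOpen_subset_smoothLocus_iff.2 ?_ hp
  refine Algebra.FormallySmooth.of_comp_surjective fun B _ _ I hI ψ => ?_
  let ι : (Pn k n ⧸ Ideal.span S) →ₐ[k] Localization.Away (Ideal.Quotient.mk (Ideal.span S) f) :=
    IsScalarTower.toAlgHom k _ _
  have h4 : IsUnit (vl ((mvPolynomialX (Fin n) (Fin n) k).map
      ((ψ.comp ι).comp (Ideal.Quotient.mkₐ k _))) f) := by
    rw [vl_map, vl_gen]
    exact (IsLocalization.Away.algebraMap_isUnit (Ideal.Quotient.mk (Ideal.span S) f)).map ψ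
  obtain ⟨g', h5, h6⟩ := h2 f hf B I hI _ (sol_of_hom (ψ.comp ι)) h4
  have hk0 : Ideal.span S ≤
      RingHom.ker (aeval (fun ab => g' ab.1 ab.2) : Pn k n →ₐ[k] B) :=
    Ideal.span_le.2 fun t ht => h5 t ht
  let φ : (Pn k n ⧸ Ideal.span S) →ₐ[k] B := Ideal.Quotient.liftₐ _ _ fun a ha => hk0 ha
  have h7 : (Ideal.Quotient.mkₐ k I).comp φ = ψ.comp ι := by
    refine Ideal.Quotient.algHom_ext k (MvPolynomial.algHom_ext fun v => ?_)
    have := congrFun (congrFun h6 v.1) v.2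
    simpa [φ] using this
  have hu : IsUnit (φ (Ideal.Quotient.mk (Ideal.span S) f)) := by
    rw [← h6, vl_map] at h4
    exact (IsNilpotent.isUnit_quotient_mk_iff ⟨2, hI⟩).1 h4
  refine ⟨IsLocalization.Away.liftAlgHom (Ideal.Quotient.mk (Ideal.span S) f) (f := φ) hu, ?_⟩
  apply AlgHom.coe_ringHom_injective
  refine IsLocalization.ringHom_ext (Submonoid.powers (Ideal.Quotient.mk (Ideal.span S) f)) ?_
  refine RingHom.ext fun s => ?_
  have := DFunLike.congr_fun h7 s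
  simpa [IsLocalization.Away.liftAlgHom, ι] using this

theorem map_mul_alg (φ : C →ₐ[k] C') (g h : Mx n C) : (g * h).map φ = g.map φ * h.map φ :=
  Matrix.map_mul (f := (φ : C →+* C'))

theorem map_rt (φ : C →ₐ[k] C') (w : Mx n k) :
    (w.map (algebraMap k C)).map φ = w.map (algebraMap k C') := by
  ext a b
  exact φ.commutes _

theorem map_aev {l : ℕ} (φ : C →ₐ[k] C') (c : Mx n (MvPolynomial (Fin l) k)) (a : Fin l → C) :
    (c.map (aeval a)).map φ = c.map (aeval fun i => φ (a i)) := by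
  ext s t
  exact MvPolynomial.comp_aeval_apply _ _ _

theorem Sol.rt {S : Set (Pn k n)} {w : Mx n k} (h : Sol S w) (C : Type) [CommRing C] [Algebra k C] :
    Sol S (w.map (algebraMap k C)) := h.map (Algebra.ofId k C)

theorem Grp.adj_mul {S : Set (Pn k n)} (hS : Grp S) {g : Mx n C} (hg : Sol S g) :
    g.adjugate * g = 1 := by rw [adjugate_mul, hS.det hg, one_smul]

theorem Grp.mul_adj {S : Set (Pn k n)} (hS : Grp S) {g : Mx n C} (hg : Sol S g) :
    g * g.adjugate = 1 := by rw [mul_adjugate, hS.det hg, one_smul]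

theorem smooth_of_tr {S : Set (Pn k n)} (hS : Grp S) (f : Pn k n)
    (h1 : ∀ (K : Type) [Field K] [Algebra k K] (g : Mx n K), Sol S g →
      ∃ w : Mx n k, Sol S w ∧ vl (w.map (algebraMap k K) * g) f ≠ 0)
    (h2 : ∀ (C : Type) [CommRing C] [Algebra k C] (I : Ideal C), I ^ 2 = ⊥ →
      ∀ g : Mx n (C ⧸ I), Sol S g → IsUnit (vl g f) →
      ∃ g' : Mx n C, Sol S g' ∧ g'.map (Ideal.Quotient.mkₐ k I) = g) :
    Algebra.Smooth k (Pn k n ⧸ Ideal.span S) := by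
  have e : ∀ (C : Type) [CommRing C] [Algebra k C] (g : Mx n C) (w : Mx n k),
      vl g (vl (w.map (algebraMap k (Pn k n)) * mvPolynomialX _ _ k) f) =
        vl (w.map (algebraMap k C) * g) f := fun C _ _ g w => by
    let φ : Pn k n →ₐ[k] C := aeval fun ab : Fin n × Fin n => g ab.1 ab.2
    have := vl_map φ (w.map (algebraMap k (Pn k n)) * mvPolynomialX _ _ k) f
    rw [map_mul_alg, map_rt, show (mvPolynomialX (Fin n) (Fin n) k).map φ = g from gen_map g] at this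
    exact this.symm
  refine smooth_of_cover
    {x | ∃ w : Mx n k, Sol S w ∧ x = vl (w.map (algebraMap k (Pn k n)) * mvPolynomialX _ _ k) f}
    (fun K _ _ g hg => ?_) ?_
  · obtain ⟨w, h3, h4⟩ := h1 K g hg
    exact ⟨_, ⟨w, h3, rfl⟩, by rwa [e]⟩
  · rintro _ ⟨w, hw, rfl⟩ C _ _ I hI g hg hu
    rw [e] at hu
    obtain ⟨g', h3, h4⟩ := h2 C I hI _ (hS.mul (hw.rt _) hg) hu
    refine ⟨w.adjugate.map (algebraMap k C) * g', hS.mul ((hS.adj hw).rt C) h3, ?_⟩
    rw [map_mul_alg, map_rt, h4, ← Matrix.mul_assoc, ← Matrix.map_mul, hS.adj_mul hw,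
      Matrix.map_one _ (map_zero _) (map_one _), Matrix.one_mul]

theorem lift_B {D : Bru k n r} (hB : D.Bor) (I : Ideal C) (hI : I ^ 2 = ⊥) (b : Mx n (C ⧸ I))
    (hb : Sol D.B b) : ∃ b' : Mx n C, Sol D.B b' ∧ b'.map (Ideal.Quotient.mkₐ k I) = b := by
  obtain ⟨x, -, rfl⟩ := (hB _).2.2 hb
  choose a ha using fun i => Ideal.Quotient.mk_surjective (I := I) (x.1 i)
  have : ∀ i, ∃ t : Cˣ, Units.map (Ideal.Quotient.mk I : C →* C ⧸ I) t = x.2 i := fun i => by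
    obtain ⟨c, hc⟩ := Ideal.Quotient.mk_surjective (I := I) (x.2 i)
    obtain ⟨t, rfl⟩ := (IsNilpotent.isUnit_quotient_mk_iff (I := I) ⟨2, hI⟩ (x := c)).1
      (hc ▸ (x.2 i).isUnit)
    exact ⟨t, Units.ext hc⟩
  choose t ht using this
  refine ⟨_, (hB C).1 (Set.mem_univ (a, t)), ?_⟩
  show (_ * _ : Mx n C).map _ = _ * _
  rw [map_mul_alg, map_aev, diagonal_map (map_zero _)]
  congr 2
  · exact congrArg (fun y : Fin D.N → C ⧸ I => ⇑(aeval y : MvPolynomial (Fin D.N) k →ₐ[k] _))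
      (funext ha)
  · funext s
    rw [← funext ht]
    simp only [← map_zpow, ← map_prod]
    rfl

theorem CelS.lift {l : ℕ} {G B : Set (Pn k n)} {c : Mx n (MvPolynomial (Fin l) k)} {w : Mx n k}
    {Z0 Z1 : Set (Pn k n)} (h : CelS G B c w Z0 Z1) (I : Ideal C)
    (hB : ∀ b : Mx n (C ⧸ I), Sol B b → ∃ b' : Mx n C, Sol B b' ∧
      b'.map (Ideal.Quotient.mkₐ k I) = b) {g : Mx n (C ⧸ I)} (h1 : Sol G g) (h2 : Sol Z1 g)
    (h3 : Ideal.span (vl g '' Z0) = ⊤) : ∃ x y : Mx n C, Sol B x ∧ Sol B y ∧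
      (x * w.map (algebraMap k C) * y).map (Ideal.Quotient.mkₐ k I) = g := by
  obtain ⟨x, hx, rfl⟩ := (h.2 _).2.2.2 ⟨h1, h2, h3⟩
  obtain ⟨b, h4, h5⟩ := hB x.2 hx
  choose a ha using fun i => Ideal.Quotient.mk_surjective (I := I) (x.1 i)
  refine ⟨_, b, (h.2 C).1 a, h4, ?_⟩
  rw [map_mul_alg, map_mul_alg, map_rt, map_aev, h5]
  congr 3
  exact congrArg (fun y : Fin l → C ⧸ I => ⇑(aeval y : MvPolynomial (Fin l) k →ₐ[k] _))
    (funext ha)

theorem ex_cell {D : Bru k n r} (h1 : D.Z 0 = {1} ∧ D.Z D.M = ∅) (h2 : ∀ j < D.M, D.Cel j)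
    {x : Mx n k} (hx : Sol D.G x) :
    ∃ j < D.M, ∃ p q : Mx n k, Sol D.B p ∧ Sol D.B q ∧ x = p * D.w j * q := by
  classical
  have h3 : ∃ j, Sol (D.Z j) x := ⟨D.M, fun f hf => by simp [h1.2] at hf⟩
  have h4 := Nat.find_spec h3
  have h5 : Nat.find h3 ≤ D.M := Nat.find_min' h3 fun f hf => by simp [h1.2] at hf
  have h6 : Nat.find h3 ≠ 0 := fun e => by
    rw [e, h1.1] at h4
    have := h4 1 rfl
    simp [vl] at this
  obtain ⟨j, hj⟩ := Nat.exists_eq_succ_of_ne_zero h6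
  have h7 := Nat.find_min h3 (m := j) (by omega)
  rw [hj] at h4 h5
  have h8 : Ideal.span (vl x '' D.Z j) = ⊤ := by
    by_contra e
    refine h7 fun f hf => by_contra fun e' => e ?_
    exact Ideal.eq_top_of_isUnit_mem _ (Ideal.subset_span ⟨f, hf, rfl⟩) (Ne.isUnit e')
  obtain ⟨y, hy, e⟩ := ((h2 j h5).2 k).2.2.2 ⟨hx, h4, h8⟩
  exact ⟨j, h5, _, y.2, ((h2 j h5).2 k).1 y.1, hy, e.symm⟩

theorem dbl_of {D : Bru k n r} (hP : Grp D.Pa) {ι : Type} (ρ : ι → Mx n k)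
    (h1 : ∀ x, Sol D.G x → ∃ (i : ι) (p q : Mx n k), Sol D.Pa p ∧ Sol D.Pa q ∧ x = p * ρ i * q)
    (h2 : ∀ (i j : ι) (C : Type) [CommRing C] [Algebra k C] [Nontrivial C] (p q : Mx n C),
      Sol D.Pa p → Sol D.Pa q → (ρ i).map (algebraMap k C) = p * (ρ j).map (algebraMap k C) * q →
      i = j) : D.Dbl := by
  intro x y hx hy C _ _ _ p q hp hq e
  obtain ⟨i, p1, q1, a1, b1, rfl⟩ := h1 x hx
  obtain ⟨j, p2, q2, a2, b2, rfl⟩ := h1 y hy
  simp only [Matrix.map_mul] at e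
  have h3 : i = j := by
    refine h2 i j C ((p1.map (algebraMap k C)).adjugate * p * p2.map (algebraMap k C))
      (q2.map (algebraMap k C) * (q1.map (algebraMap k C) * q).adjugate)
      (hP.mul (hP.mul (hP.adj (a1.rt C)) hp) (a2.rt C))
      (hP.mul (b2.rt C) (hP.adj (hP.mul (b1.rt C) hq))) ?_
    have e1 := congrArg (fun z => (p1.map (algebraMap k C)).adjugate * z *
      (q1.map (algebraMap k C) * q).adjugate) e
    simp only [Matrix.mul_assoc] at e1 ⊢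
    rw [← e1, ← Matrix.mul_assoc (q1.map _) q, hP.mul_adj (hP.mul (b1.rt C) hq), Matrix.mul_one,
      ← Matrix.mul_assoc, hP.adj_mul (a1.rt C), Matrix.one_mul]
  subst h3
  refine ⟨p1 * p2.adjugate, q1.adjugate * q2, hP.mul a1 (hP.adj a2), hP.mul (hP.adj b1) b2, ?_⟩
  simp only [Matrix.mul_assoc]
  rw [← Matrix.mul_assoc q1, hP.mul_adj b1, ← Matrix.mul_assoc p2.adjugate, hP.adj_mul a2,
    Matrix.one_mul, Matrix.one_mul]

end Pool.Agent.P.MP_1bf4cb_ag.RG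
end
end

-- part Pool.Agent.P.MP_1bf4cb_ag.TG
section

set_option autoImplicit false
set_option maxHeartbeats 800000
set_option linter.unusedSectionVars false
set_option linter.unusedVariables false
set_option linter.unusedSimpArgs false

open Function Matrix MvPolynomial

noncomputable section

namespace Pool.Agent.P.MP_1bf4cb_ag.RG

variable {k : Type} [Field k] {C C' : Type} [CommRing C] [Algebra k C] [CommRing C']
  [Algebra k C'] {g : Mx 8 C}

/-- the full datum of `G₂` -/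
def g2D (k : Type) [Field k] (s : Bool) : Bru k 8 2 where
  G := eG k
  B := eP k false ∪ eP k true
  Pa := eP k s
  F := (g2 k).F
  wt := (g2 k).wt
  N := 6
  u := uu X
  M := 12
  l := fun
    | 0 => 0 | 1 => 1 | 2 => 1 | 3 => 2 | 4 => 2 | 5 => 3 | 6 => 3 | 7 => 4 | 8 => 4 | 9 => 5
    | 10 => 5 | _ + 11 => 6
  c := fun
    | 0 => st0.c0 k | 1 => st0.c1 k | 2 => st1.c0 k | 3 => st1.c1 k | 4 => st2.c0 k | 5 => st2.c1 k
    | 6 => st5.c0 k | 7 => st5.c1 k | 8 => st6.c0 k | 9 => st6.c1 k | 10 => st7.c0 k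
    | _ + 11 => st7.c1 k
  w := fun
    | 0 => st0.W k | 1 => st0.W k * sb k | 2 => st1.W k | 3 => st1.W k * sb k | 4 => st2.W k
    | 5 => st2.W k * sb k | 6 => st5.W k | 7 => st5.W k * sb k | 8 => st6.W k
    | 9 => st6.W k * sb k | 10 => st7.W k | _ + 11 => st7.W k * sb k
  Z := fun
    | 0 => {1} | 1 => Zm k 0 2 | 2 => Zg k 0 | 3 => Zm k 1 5 | 4 => Zg k 1 | 5 => Zm k 2 6
    | 6 => Zg k 2 | 7 => Zm k 5 7 | 8 => Zg k 5 | 9 => Zm k 6 7 | 10 => Zg k 6 | 11 => Zm k 7 6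
    | _ + 12 => ∅

theorem span_Zg {i i' : Fin 8} (h1 : i' < i) (h2 : ∀ a, i' < a → a = i ∨ i < a)
    (h : ∀ a, i < a → g a 0 = 0) : Ideal.span (vl g '' Zg k i') = ⊤ ↔ IsUnit (g i 0) := by
  rw [← vl_X (k := k) g i 0]
  refine span_top_iff ⟨i, h1, rfl⟩ ?_
  rintro _ ⟨a, ha, rfl⟩
  rcases h2 a ha with rfl | e
  · exact Or.inl rfl
  · exact Or.inr ((vl_X g a 0).trans (h a e))

theorem span_Z5 (hg : Au g) (h : ∀ a, 5 < a → g a 0 = 0) :
    Ideal.span (vl g '' Zg k 2) = ⊤ ↔ IsUnit (g 5 0) := by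
  refine ⟨fun e => ?_, Ideal.eq_top_of_isUnit_mem _
    (Ideal.subset_span ⟨X (5, 0), ⟨5, by decide, rfl⟩, vl_X g 5 0⟩)⟩
  have e3 := hg.tr (bv C 0)
  have e4 := hg.nm (bv C 0)
  simp only [nm, mv_bv, h 6 (by decide), h 7 (by decide)] at e3 e4
  simp at e3 e4
  have h3 : g 3 0 ∈ (Ideal.span {g 5 0}).radical := ⟨2, Ideal.mem_span_singleton'.2
    ⟨-g 2 0, by linear_combination e4 - g 3 0 * e3⟩⟩
  rw [← Ideal.span_singleton_eq_top, ← Ideal.radical_eq_top]
  refine top_le_iff.1 (e.ge.trans (Ideal.span_le.2 ?_))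
  rintro _ ⟨_, ⟨a, ha, rfl⟩, rfl⟩
  rw [vl_X]
  rcases (show a = 3 ∨ a = 4 ∨ a = 5 ∨ 5 < a by omega) with rfl | rfl | rfl | h5
  · exact h3
  · rw [show g 4 0 = -g 3 0 by linear_combination e3]
    exact neg_mem h3
  · exact Ideal.le_radical (Ideal.mem_span_singleton_self _)
  · rw [h a h5]
    exact zero_mem _

theorem cel_a0 : CelS (eG k) (eP k false ∪ eP k true) (st0.c0 k) (st0.W k) {1} (Zm k 0 2) :=
  st0.cel0 fun C _ _ g hg h => iff_of_true
    ((Ideal.eq_top_iff_one _).2 (Ideal.subset_span ⟨1, rfl, map_one _⟩)) (Q1.unit ⟨hg, h⟩)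

theorem cel_a1 : CelS (eG k) (eP k false ∪ eP k true) (st1.c0 k) (st1.W k) (Zg k 0) (Zm k 1 5) :=
  st1.cel0 fun C _ _ g hg h => span_Zg (by decide) (by decide) h

theorem cel_b0 : CelS (eG k) (eP k false ∪ eP k true) (st0.c1 k) (st0.W k * sb k) (Zm k 0 2)
    (Zg k 0) := st0.cel1 fun C _ _ g => sZg g

theorem cel_b7 : CelS (eG k) (eP k false ∪ eP k true) (st7.c1 k) (st7.W k * sb k) (Zm k 7 6) ∅ :=
  st7.cel1 fun C _ _ g => iff_of_true (fun f hf => hf.elim)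
    fun a ha => absurd ha (not_lt.2 (Fin.le_last a))

theorem g2_cel (s : Bool) (j : ℕ) (hj : j < 12) : (g2D k s).Cel j := by
  interval_cases j
  · exact cel_a0
  · exact cel_b0
  · exact cel_a1
  · exact st1.cel1 (k := k) fun C _ _ g => sZg g
  · exact st2.cel0 (k := k) fun C _ _ g hg h => span_Zg (by decide) (by decide) h
  · exact st2.cel1 (k := k) fun C _ _ g => sZg g
  · exact st5.cel0 (k := k) fun C _ _ g hg h => span_Z5 hg h
  · exact st5.cel1 (k := k) fun C _ _ g => sZg g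
  · exact st6.cel0 (k := k) fun C _ _ g hg h => span_Zg (by decide) (by decide) h
  · exact st6.cel1 (k := k) fun C _ _ g => sZg g
  · exact st7.cel0 (k := k) fun C _ _ g hg h => span_Zg (by decide) (by decide) h
  · exact cel_b7

theorem Zg_Zm {i i' j : Fin 8} (h : i < i') (hg : Sol (Zg k i) g) : Sol (Zm k i' j) g := by
  rw [sZg] at hg
  rw [sZm, hg i' h, zero_mul]
  exact ⟨rfl, fun a ha => hg a (h.trans ha)⟩

theorem g2_mono (s : Bool) (j : ℕ) (hg : Sol ((g2D k s).Z j) g) : Sol ((g2D k s).Z (j + 1)) g := by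
  rcases lt_or_ge j 11 with hj | hj
  · interval_cases j
    · have h1 : (1 : C) = 0 := (map_one _).symm.trans (hg 1 rfl)
      exact fun f _ => by rw [← mul_one (vl g f), h1, mul_zero]
    all_goals first
      | exact hg.mono (Set.subset_insert _ _)
      | exact Zg_Zm (by decide) hg
  · obtain ⟨i, rfl⟩ := Nat.exists_eq_add_of_le' hj
    exact fun f hf => hf.elim

theorem g2_bor (s : Bool) : (g2D k s).Bor := by
  intro C _ _
  have h : ∀ x : (Fin 6 → C) × (Fin 2 → Cˣ), (g2D k s).u.map (aeval x.1) *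
      (diagonal fun a => ((∏ i, x.2 i ^ (g2D k s).wt a i : Cˣ) : C)) =
      uu x.1 * tt (x.2 0) (x.2 1) := fun x => by
    congr 1
    · have := uu_map ((aeval x.1 : MvPolynomial (Fin 6) k →ₐ[k] C) : MvPolynomial (Fin 6) k →+* C) X
      simp only [RingHom.coe_coe, aeval_X] at this
      exact this
    · refine congrArg diagonal (funext fun a => ?_)
      fin_cases a <;> simp [g2D, g2, Fin.prod_univ_two]
  refine ⟨fun x _ => ?_, fun x _ y _ e => ?_, fun g hg => ?_⟩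
  · refine (congrArg (Sol (g2D k s).B) (h x)).mpr ((sB _).2 ((uu_qb _).mul (tt_qb _ _)))
  · obtain ⟨e1, e2, e3⟩ := ut_inj ((h x).symm.trans (e.trans (h y)))
    refine Prod.ext e1 (funext fun i => ?_)
    fin_cases i
    exacts [e2, e3]
  · obtain ⟨a, s', t', e⟩ := ut_surj ((sB (k := k) g).1 hg)
    exact ⟨(a, ![s', t']), Set.mem_univ _, (h _).trans e⟩

theorem g2_span (s : Bool) : AddSubgroup.closure (Set.range (g2D k s).wt) = ⊤ := by
  refine eq_top_iff.2 fun v _ => ?_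
  have e : v = v 0 • (g2D k s).wt 1 + v 1 • (g2D k s).wt 2 := by
    funext i
    fin_cases i <;> simp [g2D, g2]
  rw [e]
  exact add_mem (AddSubgroup.zsmul_mem _ (AddSubgroup.subset_closure (Set.mem_range_self 1)) _)
    (AddSubgroup.zsmul_mem _ (AddSubgroup.subset_closure (Set.mem_range_self 2)) _)

theorem g2_fr [Fintype k] (s : Bool) (g : Mx 8 C) : (g2D k s).fr g = g.map (fro k C) := by
  ext a b
  show vl g (X (a, b) ^ _) = g a b ^ _
  rw [Nat.card_eq_fintype_card]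
  exact (map_pow _ _ _).trans (congrArg (· ^ _) (vl_X g a b))

theorem g2_hom [Fintype k] (s : Bool) : (g2D k s).Hom := fun C _ _ g h hg hh => by
  rw [g2_fr, g2_fr, g2_fr]
  exact ⟨hg.map _, map_mul_alg _ _ _, fun hb => hb.map _⟩

theorem g2_pow [Fintype k] (s : Bool) : (g2D k s).Pow := ⟨1, 1, one_pos, fun C _ _ g hg => by
  rw [iterate_one, g2_fr, pow_one, Nat.card_eq_fintype_card]
  rfl⟩

theorem sa_q2 : Q2 (sa C) := ⟨sa_au, fun a ha => by
  rw [← mv_bv (sa C), ← mv_bv (sa C), sa_mv, sa_mv]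
  fin_cases a <;> first | exact absurd ha (by decide) | simp⟩

theorem sb_q1 : Q1 (sb C) := ⟨sb_au, fun a ha => by
  rw [← mv_bv (sb C), sb_mv]
  fin_cases a <;> first | exact absurd ha (by decide) | simp⟩

theorem liftB (I : Ideal C) (hI : I ^ 2 = ⊥) (b : Mx 8 (C ⧸ I))
    (hb : Sol (eP k false ∪ eP k true) b) : ∃ b' : Mx 8 C, Sol (eP k false ∪ eP k true) b' ∧
      b'.map (Ideal.Quotient.mkₐ k I) = b := lift_B (g2_bor false) I hI b hb

theorem sb_row (g : Mx 8 C) (j : Fin 8) : (sb C * g) 2 j = g 1 j ∧ (sb C * g) 7 j = g 7 j ∧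
    (sb C * g) 6 j = -g 5 j := by
  rw [mul_col, mul_col, mul_col, sb_mv]
  exact ⟨mv_bv g j 1, mv_bv g j 7, congrArg Neg.neg (mv_bv g j 5)⟩

theorem smo_P1 : Algebra.Smooth k (Pn k 8 ⧸ Ideal.span (eP k false)) := by
  refine smooth_of_tr (g2_grp.2.2 false) (X (2, 1)) (fun K _ _ g hg => ?_) fun C _ _ I hI g hg hu => ?_
  · rw [sP1] at hg
    by_cases h : g 2 1 = 0
    · refine ⟨sb k, (sP1 _).2 sb_q1, ?_⟩
      rw [vl_X, sb_map, (sb_row g 1).1]
      exact (hg.qb h).unit1.ne_zero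
    · refine ⟨1, (sP1 _).2 qb_one.1, ?_⟩
      rwa [vl_X, Matrix.map_one _ (map_zero _) (map_one _), Matrix.one_mul]
  · rw [sP1] at hg
    rw [vl_X] at hu
    obtain ⟨x, y, hx, hy, e⟩ := (cel_b0 (k := k)).lift I (liftB I hI) ((sG g).2 hg.1) ((sZg g).2 hg.2) (by
      rw [span_Zm hg.2, mn2, hg.2 2 (by decide), zero_mul, sub_zero]
      exact hg.unit.mul (hg.unit.mul hu))
    rw [sB] at hx hy
    refine ⟨_, (sP1 _).2 ((hx.1.mul ?_).mul hy.1), e⟩
    rw [Matrix.map_mul, st0.W_map, sb_map]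
    exact qb_one.1.mul sb_q1

theorem smo_P2 : Algebra.Smooth k (Pn k 8 ⧸ Ideal.span (eP k true)) := by
  refine smooth_of_tr (g2_grp.2.2 true) (X (1, 0)) (fun K _ _ g hg => ?_) fun C _ _ I hI g hg hu => ?_
  · rw [sP2] at hg
    by_cases h : g 1 0 = 0
    · refine ⟨sa k, (sP2 _).2 sa_q2, ?_⟩
      have := hg.unit
      rw [h, mul_zero, sub_zero] at this
      rw [vl_X, sa_map, mul_col, sa_mv]
      exact fun e => (IsUnit.mul_iff.1 this).1.ne_zero ((mv_bv g 0 0).symm.trans e)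
    · refine ⟨1, (sP2 _).2 qb_one.2, ?_⟩
      rwa [vl_X, Matrix.map_one _ (map_zero _) (map_one _), Matrix.one_mul]
  · rw [sP2] at hg
    rw [vl_X] at hu
    have h1 : ∀ a : Fin 8, 1 < a → g a 0 = 0 := fun a ha => (hg.2 a ha).1
    obtain ⟨x, y, hx, hy, e⟩ := (cel_a1 (k := k)).lift I (liftB I hI) ((sG g).2 hg.1)
      ((sZm g).2 ⟨by rw [mn2, (hg.2 5 (by decide)).1, (hg.2 5 (by decide)).2]; ring, h1⟩)
      ((span_Zg (by decide) (by decide) h1).2 hu)
    rw [sB] at hx hy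
    refine ⟨_, (sP2 _).2 ((hx.2.mul ?_).mul hy.2), e⟩
    rw [st1.W_map]
    exact sa_q2

theorem ex_row7 {K : Type} [Field K] {g : Mx 8 K} (hg : Au g) :
    ∃ w : Mx 8 k, Au w ∧ ∀ [Algebra k K], (w.map (algebraMap k K) * g) 7 0 ≠ 0 := by
  have e3 := hg.tr (bv K 0)
  have e4 := hg.nm (bv K 0)
  by_contra hc
  have h : ∀ w : (C : Type) → [CommRing C] → Mx 8 C, Au (w k) →
      (∀ [Algebra k K], (w k).map (algebraMap k K) = w K) → (w K *ᵥ (g *ᵥ bv K 0)) 7 = 0 :=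
    fun w h1 h2 => by_contra fun e => hc ⟨w k, h1, fun {_} => by rwa [h2, mul_col]⟩
  have h7 := h (fun C _ => 1) au_one fun {_} => Matrix.map_one _ (map_zero _) (map_one _)
  have h6 := h (fun C _ => sa C) sa_au fun {_} => sa_map _
  have h5 := h (fun C _ => sa C * sb C) (sa_au.mul sb_au) fun {_} => by
    simp only [Matrix.map_mul, sa_map, sb_map]
  have h2 := h (fun C _ => sa C * sb C * sa C) ((sa_au.mul sb_au).mul sa_au) fun {_} => by
    simp only [Matrix.map_mul, sa_map, sb_map]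
  have h1 := h (fun C _ => sa C * sb C * sa C * sb C) (((sa_au.mul sb_au).mul sa_au).mul sb_au)
    fun {_} => by simp only [Matrix.map_mul, sa_map, sb_map]
  have h0 := h (fun C _ => sa C * sb C * sa C * sb C * sa C)
    ((((sa_au.mul sb_au).mul sa_au).mul sb_au).mul sa_au)
    fun {_} => by simp only [Matrix.map_mul, sa_map, sb_map]
  have hx := hg.adj_mv (bv K 0)
  generalize g *ᵥ bv K 0 = x at *
  simp only [← mulVec_mulVec, one_mulVec, sa_mv, sb_mv] at h0 h1 h2 h5 h6 h7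
  simp at h0 h1 h2 h5 h6 h7 e3
  simp [nm, h0, h1, h2, h5, h6, h7] at e4
  have h3 : x 3 = 0 := by
    rcases e4 with e | e
    · exact e
    · rwa [e, add_zero] at e3
  have h4 : x 4 = 0 := by rwa [h3, zero_add] at e3
  rw [show x = 0 from vec8 h0 h1 h2 h3 h4 h5 h6 h7, mulVec_zero] at hx
  simpa using congrFun hx 0

theorem smo_G : Algebra.Smooth k (Pn k 8 ⧸ Ideal.span (eG k)) := by
  refine smooth_of_tr g2_grp.1 (fm k 7 6) (fun K _ _ g hg => ?_) fun C _ _ I hI g hg hu => ?_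
  · rw [sG] at hg
    obtain ⟨w, hw, h1⟩ := ex_row7 (k := k) hg
    replace h1 : (w.map (algebraMap k K) * g) 7 0 ≠ 0 := h1
    have h2 : Au (w.map (algebraMap k K) * g) := (hw.map _).mul hg
    by_cases h : mn2 7 6 (w.map (algebraMap k K) * g) = 0
    · refine ⟨sb k * w, (sG _).2 (sb_au.mul hw), ?_⟩
      rw [vl_fm, Matrix.map_mul, sb_map, Matrix.mul_assoc]
      generalize w.map (algebraMap k K) * g = y at *
      obtain ⟨a, ha, -⟩ := st7.ex h2 (fun b hb => absurd hb (not_lt.2 (Fin.le_last b))) h1.isUnit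
      have e1 := st7.mn a ha
      have e2 := mn2_mul 7 5 (st7.U K a * st7.W K) ha
      rw [← Matrix.mul_assoc, (st7.mau a).mul_adj, Matrix.one_mul] at e1 e2
      have e3 : ((st7.U K a * st7.W K).adjugate * y) 2 1 = 0 := by
        rw [h] at e1
        exact ha.unit.mul_right_eq_zero.1
          ((IsUnit.of_mul_eq_one _ (sq_unit st7.hτ)).mul_left_eq_zero.1 e1.symm)
      have e4 : mnr 7 5 ((st7.U K a * st7.W K) *ᵥ bv K 0) ((st7.U K a * st7.W K) *ᵥ bv K 1) = -1 := by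
        simp only [st7, ← mulVec_mulVec, sa_mv, sb_mv, r0_mv, r2_mv, r3_mv, r4_mv, r5_mv]
        simp [mnr]
      rw [e3, e4, zero_mul, add_zero, mul_neg_one, mul_neg] at e2
      have e5 : mn2 7 6 (sb K * y) = -mn2 7 5 y := by
        simp only [mn2, sb_row]
        ring
      rw [e5, e2, neg_neg, (sb_row y 0).2.1]
      exact mul_ne_zero h1 (ha.unit.mul (ha.qb e3).unit1).ne_zero
    · exact ⟨w, (sG _).2 hw, by rw [vl_fm]; exact mul_ne_zero h1 h⟩
  · rw [vl_fm] at hu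
    obtain ⟨x, y, hx, hy, e⟩ := (cel_b7 (k := k)).lift I (liftB I hI) hg (fun f hf => hf.elim)
      ((span_Zm fun b hb => absurd hb (not_lt.2 (Fin.le_last b))).2 hu)
    rw [sB] at hx hy
    exact ⟨_, (sG _).2 ((hx.au.mul (((st7.au k).mul sb_au).map _)).mul hy.au), e⟩

end Pool.Agent.P.MP_1bf4cb_ag.RG
end
end

-- part Pool.Agent.P.MP_1bf4cb_ag.TI
section

set_option autoImplicit false
set_option maxHeartbeats 800000
set_option linter.unusedSectionVars false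
set_option linter.unusedVariables false
set_option linter.unusedSimpArgs false

open Function Matrix MvPolynomial

noncomputable section

namespace Pool.Agent.P.MP_1bf4cb_ag.RG

variable {k : Type} [Field k] {n r m : ℕ} {C C' : Type} [CommRing C] [CommRing C']

theorem fp_mod (a : Fin n) (c : Fin m) : (finProdFinEquiv (a, c)).modNat = c :=
  congrArg Prod.snd (finProdFinEquiv.symm_apply_apply (a, c))

theorem fp_div (a : Fin n) (c : Fin m) : (finProdFinEquiv (a, c)).divNat = a :=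
  congrArg Prod.fst (finProdFinEquiv.symm_apply_apply (a, c))

theorem fp_eta (a : Fin (n * m)) : finProdFinEquiv (a.divNat, a.modNat) = a :=
  finProdFinEquiv.apply_symm_apply a

theorem bd_eq (x : Fin m → Mx n C) :
    bd x = (blockDiagonal x).submatrix finProdFinEquiv.symm finProdFinEquiv.symm := rfl

theorem blk_bd (x : Fin m → Mx n C) (c : Fin m) : blk c (bd x) = x c := by
  ext a b
  simp only [blk, bd, submatrix_apply, of_apply, fp_mod, fp_div, if_true]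

theorem bd_inj {x y : Fin m → Mx n C} (e : bd x = bd y) : x = y :=
  funext fun c => by rw [← blk_bd x, e, blk_bd]

theorem bd_mul (x y : Fin m → Mx n C) : bd x * bd y = bd fun c => x c * y c := by
  rw [bd_eq, bd_eq, bd_eq, submatrix_mul_equiv, blockDiagonal_mul]

theorem bd_one : bd (fun _ : Fin m => (1 : Mx n C)) = 1 := by
  rw [bd_eq, show blockDiagonal (fun _ : Fin m => (1 : Mx n C)) = 1 from blockDiagonal_one,
    submatrix_one_equiv]

theorem det_bd (x : Fin m → Mx n C) : (bd x).det = ∏ c, (x c).det := by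
  rw [bd_eq, det_submatrix_equiv_self, det_blockDiagonal]

theorem bd_map (x : Fin m → Mx n C) (f : C → C') (hf : f 0 = 0) :
    (bd x).map f = bd fun c => (x c).map f := by
  ext a b
  simp only [bd, map_apply, of_apply, apply_ite f, hf]

theorem bd_adj {x : Fin m → Mx n C} (h : ∀ c, (x c).det = 1) :
    (bd x).adjugate = bd fun c => (x c).adjugate := by
  have e1 : bd x * bd (fun c => (x c).adjugate) = 1 := by
    rw [bd_mul, ← bd_one]
    exact congrArg bd (funext fun c => by rw [mul_adjugate, h, one_smul])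
  have e2 : (bd x).adjugate * bd x = 1 := by
    rw [adjugate_mul, det_bd, Finset.prod_eq_one fun c _ => h c, one_smul]
  rw [← Matrix.mul_one (bd x).adjugate, ← e1, ← Matrix.mul_assoc, e2, Matrix.one_mul]

theorem bd_diag (d : Fin m → Fin n → C) :
    bd (fun c => diagonal (d c)) = diagonal fun a => d a.modNat a.divNat := by
  rw [bd_eq, blockDiagonal_diagonal, submatrix_diagonal_equiv]
  rfl

variable [Algebra k C] [Algebra k C']

theorem vl_vl {n' : ℕ} (g : Mx n C) (y : Mx n' (Pn k n)) (f : Pn k n') :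
    vl g (vl y f) = vl (y.map (vl g)) f :=
  (vl_map (aeval fun ab : Fin n × Fin n => g ab.1 ab.2 : Pn k n →ₐ[k] C) y f).symm

theorem vl_zero (g : Mx n C) : vl g (0 : Pn k n) = 0 := map_zero _

theorem blk_gen (g : Mx (n * m) C) (c : Fin m) :
    (blk c (mvPolynomialX _ _ k)).map (vl g) = blk c g := by
  ext a b
  exact vl_X g _ _

theorem vl_blk (g : Mx (n * m) C) (c : Fin m) (f : Pn k n) :
    vl g (vl (blk c (mvPolynomialX _ _ k)) f) = vl (blk c g) f := by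
  rw [vl_vl, blk_gen]

theorem sol_pe {S : Fin m → Set (Pn k n)} {g : Mx (n * m) C} :
    Sol (pe S) g ↔ ∃ x, g = bd x ∧ ∀ c, Sol (S c) (x c) := by
  constructor
  · intro h
    refine ⟨fun c => blk c g, ?_, fun c f hf => ?_⟩
    · ext a b
      show _ = ite _ _ _
      split_ifs with e
      · show _ = g (finProdFinEquiv (_, _)) (finProdFinEquiv (_, _))
        rw [fp_eta, e, fp_eta]
      · exact (vl_X g a b).symm.trans (h _ (Or.inl ⟨a, b, e, rfl⟩))
    · exact (vl_blk g c f).symm.trans (h _ (Or.inr ⟨c, f, hf, rfl⟩))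
  · rintro ⟨x, rfl, h⟩ _ (⟨a, b, e, rfl⟩ | ⟨c, f, hf, rfl⟩)
    · rw [vl_X]
      exact if_neg e
    · rw [vl_blk, blk_bd]
      exact h c f hf

theorem sol_bd {S : Fin m → Set (Pn k n)} {x : Fin m → Mx n C} :
    Sol (pe S) (bd x) ↔ ∀ c, Sol (S c) (x c) :=
  sol_pe.trans ⟨fun ⟨_, e, h⟩ => bd_inj e ▸ h, fun h => ⟨x, rfl, h⟩⟩

theorem pe_mono {S T : Fin m → Set (Pn k n)} (h : ∀ c, S c ⊆ T c) : pe S ⊆ pe T :=
  fun f hf => hf.imp_right fun ⟨c, e⟩ => ⟨c, Set.image_mono (h c) e⟩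

theorem pe_grp {S : Fin m → Set (Pn k n)} (h : ∀ c, Grp (S c)) : Grp (pe S) := fun C _ _ => by
  refine ⟨bd_one (C := C) ▸ sol_bd.2 fun c => (h c C).1, fun g g' hg hg' => ?_⟩
  obtain ⟨x, rfl, hx⟩ := sol_pe.1 hg
  obtain ⟨y, rfl, hy⟩ := sol_pe.1 hg'
  rw [det_bd, bd_adj fun c => (h c).det (hy c), bd_mul, sol_bd]
  exact ⟨Finset.prod_eq_one fun c _ => (h c).det (hx c), fun c => ((h c C).2 _ _ (hx c) (hy c)).2⟩

theorem pe_smo {S : Fin m → Set (Pn k n)}
    (h : ∀ c, Algebra.Smooth k (Pn k n ⧸ Ideal.span (S c))) :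
    Algebra.Smooth k (Pn k (n * m) ⧸ Ideal.span (pe S)) := by
  refine smooth_of_cover {1} (fun K _ _ g _ => ⟨1, rfl, by simp [vl]⟩) fun _ _ C _ _ I hI g hg _ => ?_
  obtain ⟨x, rfl, hx⟩ := sol_pe.1 hg
  choose y h1 h2 using fun c => sol_lift (S c) I hI (x c) (hx c)
  exact ⟨bd y, sol_bd.2 h1, (bd_map _ _ (map_zero _)).trans (congrArg bd (funext h2))⟩

/-- block charts -/
def bc {ι : Type} {l : Fin m → ℕ} (e : (c : Fin m) → Fin (l c) → ι)
    (u : (c : Fin m) → Mx n (MvPolynomial (Fin (l c)) k)) : Mx (n * m) (MvPolynomial ι k) :=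
  bd fun c => (u c).map (rename (e c))

theorem bc_map {ι : Type} {l : Fin m → ℕ} (e : (c : Fin m) → Fin (l c) → ι)
    (u : (c : Fin m) → Mx n (MvPolynomial (Fin (l c)) k)) (a : ι → C) :
    (bc e u).map (aeval a) = bd fun c => (u c).map (aeval fun i => a (e c i)) := by
  rw [bc, bd_map _ _ (map_zero _)]
  refine congrArg bd (funext fun c => ?_)
  ext s t
  exact aeval_rename _ _ _

variable (D : Bru k n r) (m : ℕ) (P : Fin (m + 1) → Set (Pn k n))

theorem chn_fr (x : Fin (m + 1) → Mx n C) : (chn D m P).fr (bd x) =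
    bd fun c => if c = Fin.last m then D.fr (x 0) else x (c + 1) := by
  show (bd _).map (vl (bd x)) = _
  rw [bd_map _ _ (vl_zero _)]
  refine congrArg bd (funext fun c => ?_)
  split_ifs
  · refine (fr_map D (aeval fun ab : Fin (n * (m + 1)) × Fin (n * (m + 1)) => bd x ab.1 ab.2 :
      Pn k (n * (m + 1)) →ₐ[k] C) _).symm.trans ?_
    exact congrArg D.fr ((blk_gen _ _).trans (blk_bd x 0))
  · exact (blk_gen _ _).trans (blk_bd x _)

theorem chn_hom (h : D.Hom) : (chn D m P).Hom := fun C _ _ g g' hg hg' => by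
  obtain ⟨x, rfl, hx⟩ := sol_pe.1 hg
  obtain ⟨y, rfl, hy⟩ := sol_pe.1 hg'
  rw [bd_mul, chn_fr, chn_fr, chn_fr, bd_mul]
  refine ⟨sol_bd.2 fun c => ?_, congrArg bd (funext fun c => ?_), fun hb => sol_bd.2 fun c => ?_⟩
  · split_ifs
    exacts [(h C _ _ (hx 0) (hy 0)).1, hx _]
  · split_ifs
    exacts [(h C _ _ (hx 0) (hy 0)).2.1, rfl]
  · have := sol_bd.1 hb
    split_ifs
    exacts [(h C _ _ (hx 0) (hy 0)).2.2 (this 0), this _]

theorem chn_iter (y : ℕ → Mx n C) (hy : ∀ a, y (a + (m + 1)) = D.fr (y a)) (i : ℕ) :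
    (chn D m P).fr^[i] (bd fun c => y c) = bd fun c : Fin (m + 1) => y (c + i) := by
  induction i with
  | zero => rfl
  | succ i ih =>
    rw [iterate_succ_apply', ih, chn_fr]
    refine congrArg bd (funext fun c => ?_)
    split_ifs with e
    · rw [← hy, e]
      exact congrArg y (by simp; omega)
    · rw [Fin.val_add_one_of_lt (Fin.lt_last_iff_ne_last.2 e)]
      exact congrArg y (by omega)

theorem chn_pow [Finite k] (h : D.Pow) : (chn D m P).Pow := by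
  obtain ⟨ρ, e, he, h⟩ := h
  refine ⟨ρ * (m + 1), e, he, fun C _ _ g hg => ?_⟩
  obtain ⟨x, rfl, hx⟩ := sol_pe.1 hg
  let y : ℕ → Mx n C := fun a => D.fr^[a / (m + 1)] (x ⟨a % (m + 1), Nat.mod_lt _ m.succ_pos⟩)
  have h1 : ∀ (c : Fin (m + 1)) (i : ℕ), y (c + i * (m + 1)) = D.fr^[i] (x c) := fun c i => by
    simp only [y, Nat.add_mul_div_right _ _ m.succ_pos, Nat.div_eq_of_lt c.2, zero_add,
      Nat.add_mul_mod_self_right, Nat.mod_eq_of_lt c.2]
  have h2 : x = fun c : Fin (m + 1) => y c := funext fun c => by simpa using (h1 c 0).symm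
  have h3 := chn_iter D m P y (fun a => by
    simp only [y, Nat.add_div_right _ m.succ_pos, Nat.add_mod_right, iterate_succ_apply']) (ρ * (m + 1))
  rw [← h2] at h3
  have h4 : (0 : C) ^ Nat.card k ^ e = 0 := zero_pow (pow_ne_zero _ Nat.card_pos.ne')
  rw [h3, bd_map x (· ^ Nat.card k ^ e) h4]
  refine congrArg bd (funext fun c => ?_)
  rw [h1 c ρ, h C _ (hx c)]

theorem chn_span (h : AddSubgroup.closure (Set.range D.wt) = ⊤) :
    AddSubgroup.closure (Set.range (chn D m P).wt) = ⊤ := by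
  refine eq_top_iff.2 fun v _ => ?_
  let ι : Fin (m + 1) → (Fin r → ℤ) →+ (Fin (r * (m + 1)) → ℤ) := fun c =>
    { toFun := fun y i => if c = i.modNat then y i.divNat else 0
      map_zero' := funext fun i => ite_self _
      map_add' := fun y z => funext fun i => by
        simp only [Pi.add_apply]
        split_ifs
        exacts [rfl, (add_zero _).symm] }
  have e : v = ∑ c, ι c fun i => v (finProdFinEquiv (i, c)) := by
    funext i
    rw [Finset.sum_apply, Finset.sum_eq_single i.modNat (fun c _ hc => by exact if_neg hc)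
      fun h => absurd (Finset.mem_univ _) h]
    exact ((if_pos rfl).trans (congrArg v (fp_eta i))).symm
  rw [e]
  refine sum_mem fun c _ => ?_
  have h1 : AddSubgroup.closure (Set.range D.wt) ≤
      (AddSubgroup.closure (Set.range (chn D m P).wt)).comap (ι c) := by
    rw [AddSubgroup.closure_le]
    rintro _ ⟨a, rfl⟩
    refine AddSubgroup.subset_closure ⟨finProdFinEquiv (a, c), funext fun i => ?_⟩
    show ite _ _ _ = ite _ _ _
    rw [fp_mod, fp_div]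
  exact h1 (h ▸ AddSubgroup.mem_top _)

theorem chn_dbl (h : ∀ c, ({ D with Pa := P c } : Bru k n r).Dbl) : (chn D m P).Dbl := by
  intro x0 y0 hx0 hy0 C _ _ _ p0 q0 hp0 hq0 e
  obtain ⟨x, rfl, hx⟩ := sol_pe.1 hx0
  obtain ⟨y, rfl, hy⟩ := sol_pe.1 hy0
  obtain ⟨p, rfl, hp⟩ := sol_pe.1 hp0
  obtain ⟨q, rfl, hq⟩ := sol_pe.1 hq0
  rw [bd_map _ _ (map_zero _), bd_map _ _ (map_zero _), bd_mul, bd_mul] at e
  choose p' q' h1 h2 h3 using fun c =>
    h c (x c) (y c) (hx c) (hy c) C (p c) (q c) (hp c) (hq c) (congrFun (bd_inj e) c)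
  refine ⟨bd p', bd q', sol_bd.2 h1, sol_bd.2 h2, ?_⟩
  rw [bd_mul, bd_mul, funext h3]

theorem bor_mem (h : D.Bor) (a : Fin D.N → C) (t : Fin r → Cˣ) : Sol D.B (D.u.map (aeval a) *
    diagonal fun s => ((∏ i, t i ^ D.wt s i : Cˣ) : C)) := by
  have := (h C).1 (Set.mem_univ (a, t))
  rwa [Set.mem_ofPred_eq] at this

theorem bor_inj (h : D.Bor) {a a' : Fin D.N → C} {t t' : Fin r → Cˣ} (e : D.u.map (aeval a) *
    (diagonal fun s => ((∏ i, t i ^ D.wt s i : Cˣ) : C)) = D.u.map (aeval a') *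
    diagonal fun s => ((∏ i, t' i ^ D.wt s i : Cˣ) : C)) : (a, t) = (a', t') :=
  (h C).2.1 (Set.mem_univ _) (Set.mem_univ _) e

theorem bor_surj (h : D.Bor) {g : Mx n C} (hg : Sol D.B g) : ∃ (a : Fin D.N → C) (t : Fin r → Cˣ),
    D.u.map (aeval a) * (diagonal fun s => ((∏ i, t i ^ D.wt s i : Cˣ) : C)) = g := by
  obtain ⟨x, -, e⟩ := (h C).2.2 hg
  exact ⟨x.1, x.2, e⟩

theorem pe_bor (h : D.Bor) (C : Type) [CommRing C] [Algebra k C] : Set.BijOn
    (fun x : (Fin (D.N * (m + 1)) → C) × (Fin (r * (m + 1)) → Cˣ) =>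
      (bc (fun c i => finProdFinEquiv (i, c)) fun _ => D.u).map (aeval x.1) *
        diagonal fun a => ((∏ i, x.2 i ^ (chn D m P).wt a i : Cˣ) : C))
    Set.univ {g | Sol (pe fun _ => D.B) g} := by
  have e : ∀ x : (Fin (D.N * (m + 1)) → C) × (Fin (r * (m + 1)) → Cˣ),
      (bc (fun c i => finProdFinEquiv (i, c)) fun _ => D.u).map (aeval x.1) *
        (diagonal fun a => ((∏ i, x.2 i ^ (chn D m P).wt a i : Cˣ) : C)) =
      bd fun c => D.u.map (aeval fun i => x.1 (finProdFinEquiv (i, c))) *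
        diagonal fun a => ((∏ i, x.2 (finProdFinEquiv (i, c)) ^ D.wt a i : Cˣ) : C) := fun x => by
    rw [bc_map, ← bd_mul, bd_diag]
    congr 2
    funext a
    congr 1
    rw [← finProdFinEquiv.prod_comp, Fintype.prod_prod_type]
    refine Finset.prod_congr rfl fun i _ => ?_
    rw [Finset.prod_eq_single a.modNat (fun c _ hc => ?_) fun h => absurd (Finset.mem_univ _) h]
    · show _ ^ ite _ _ _ = _
      rw [fp_mod, fp_div, if_pos rfl]
    · show _ ^ ite _ _ _ = _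
      rw [fp_mod, if_neg hc.symm, zpow_zero]
  rw [funext e]
  refine ⟨fun x _ => ?_, fun x _ y _ e1 => ?_, fun g hg => ?_⟩
  · rw [Set.mem_ofPred_eq, sol_bd]
    exact fun c => bor_mem D h _ _
  · have e2 := fun c => bor_inj D h (congrFun (bd_inj e1) c)
    refine Prod.ext (funext fun i => ?_) (funext fun i => ?_)
    · rw [← fp_eta i]
      exact congrFun (congrArg Prod.fst (e2 _)) _
    · rw [← fp_eta i]
      exact congrFun (congrArg Prod.snd (e2 _)) _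
  · rw [Set.mem_ofPred_eq, sol_pe] at hg
    obtain ⟨x, rfl, hx⟩ := hg
    choose y z hy using fun c => bor_surj D h (hx c)
    refine ⟨(fun i => y i.modNat i.divNat, fun i => z i.modNat i.divNat), Set.mem_univ _,
      congrArg bd (funext fun c => ?_)⟩
    simp only [fp_mod, fp_div]
    exact hy c

end Pool.Agent.P.MP_1bf4cb_ag.RG
end
end

-- part Pool.Agent.P.MP_1bf4cb_ag.TH
section

set_option autoImplicit false
set_option maxHeartbeats 800000
set_option linter.unusedSectionVars false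
set_option linter.unusedVariables false
set_option linter.unusedSimpArgs false

open Function Matrix MvPolynomial

noncomputable section

namespace Pool.Agent.P.MP_1bf4cb_ag.RG

variable {k : Type} [Field k] {C C' : Type} [CommRing C] [CommRing C'] {g p q : Mx 8 C}

/-- vanishing of the last coordinates -/
def Vn (d : Fin 8) (v : Fin 8 → C) : Prop := ∀ a, d < a → v a = 0

theorem Vn.smul {d : Fin 8} {v : Fin 8 → C} (h : Vn d v) (c : C) : Vn d (c • v) := fun a ha => by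
  rw [Pi.smul_apply, h a ha, smul_zero]

theorem Vn.add {d : Fin 8} {v w : Fin 8 → C} (h : Vn d v) (h' : Vn d w) : Vn d (v + w) :=
  fun a ha => by rw [Pi.add_apply, h a ha, h' a ha, add_zero]

theorem Q1.v0 (hg : Q1 g) {v : Fin 8 → C} (h : Vn 0 v) : Vn 0 (g *ᵥ v) := by
  have e : v = v 0 • bv C 0 := vec8 (by simp) (by simp [h 1]) (by simp [h 2]) (by simp [h 3])
    (by simp [h 4]) (by simp [h 5]) (by simp [h 6]) (by simp [h 7])
  rw [e, mulVec_smul]
  exact Vn.smul (fun a ha => (mv_bv g 0 a).trans (hg.2 a ha)) _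

theorem Q1.v6 (hg : Q1 g) {v : Fin 8 → C} (h : Vn 6 v) : Vn 6 (g *ᵥ v) := fun a ha => by
  rw [show a = 7 by omega]
  exact hg.unit.mul_right_eq_zero.1 ((hg.w7 v).trans (h 7 (by decide)))

theorem Q2.v1 (hg : Q2 g) {v : Fin 8 → C} (h : Vn 1 v) : Vn 1 (g *ᵥ v) := by
  have e : v = v 0 • bv C 0 + v 1 • bv C 1 := vec8 (by simp) (by simp) (by simp [h 2])
    (by simp [h 3]) (by simp [h 4]) (by simp [h 5]) (by simp [h 6]) (by simp [h 7])
  rw [e, mulVec_add, mulVec_smul, mulVec_smul]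
  exact (Vn.smul (fun a ha => (mv_bv g 0 a).trans (hg.2 a ha).1) _).add
    (Vn.smul (fun a ha => (mv_bv g 1 a).trans (hg.2 a ha).2) _)

theorem Q2.v5 (hg : Q2 g) {v : Fin 8 → C} (h : Vn 5 v) : Vn 5 (g *ᵥ v) := fun a ha => by
  obtain ⟨h1, h2⟩ := hg.w6 v
  rw [h 7 (by decide)] at h1
  rw [h 6 (by decide)] at h2
  refine hg.unit.mul_right_eq_zero.1 ?_
  rcases (show a = 6 ∨ a = 7 by omega) with rfl | rfl
  · linear_combination g 0 0 * h2 - g 0 1 * h1
  · linear_combination g 1 1 * h1 - g 1 0 * h2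

theorem Q2.mnr (hg : Q2 g) {u v : Fin 8 → C} (h : mnr 6 7 u v = 0) :
    mnr 6 7 (g *ᵥ u) (g *ᵥ v) = 0 := by
  obtain ⟨h1, h2⟩ := hg.w6 u
  obtain ⟨h3, h4⟩ := hg.w6 v
  refine hg.unit.mul_right_eq_zero.1 ?_
  unfold RG.mnr at *
  rw [← h1, ← h2, ← h3, ← h4] at h
  linear_combination h

/-- representatives of double cosets -/
def ρ1 (C : Type) [CommRing C] : Fin 4 → Mx 8 C :=
  ![1, sa C, sa C * sb C * sa C, sa C * sb C * sa C * sb C * sa C]

/-- representatives of double cosets -/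
def ρ2 (C : Type) [CommRing C] : Fin 4 → Mx 8 C :=
  ![1, sb C, sb C * sa C * sb C, sb C * sa C * sb C * sa C * sb C]

theorem ρ1_map (φ : C →+* C') (i : Fin 4) : (ρ1 C i).map φ = ρ1 C' i := by
  fin_cases i <;> simp [ρ1, Matrix.map_mul, sa_map, sb_map]

theorem ρ2_map (φ : C →+* C') (i : Fin 4) : (ρ2 C i).map φ = ρ2 C' i := by
  fin_cases i <;> simp [ρ2, Matrix.map_mul, sa_map, sb_map]

theorem ρ1_mv : ρ1 C 0 *ᵥ bv C 0 = bv C 0 ∧ ρ1 C 1 *ᵥ bv C 0 = bv C 1 ∧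
    ρ1 C 2 *ᵥ bv C 0 = bv C 5 ∧ ρ1 C 3 *ᵥ bv C 0 = -bv C 7 := by
  simp only [ρ1, cons_val_zero, cons_val_one, cons_val, ← mulVec_mulVec, one_mulVec, sa_mv, sb_mv]
  refine ⟨trivial, ?_, ?_, ?_⟩ <;> refine vec8 ?_ ?_ ?_ ?_ ?_ ?_ ?_ ?_ <;> simp

theorem ρ2_mv : (ρ2 C 0 *ᵥ bv C 0 = bv C 0 ∧ ρ2 C 0 *ᵥ bv C 1 = bv C 1) ∧
    (ρ2 C 1 *ᵥ bv C 0 = bv C 0 ∧ ρ2 C 1 *ᵥ bv C 1 = bv C 2) ∧
    (ρ2 C 2 *ᵥ bv C 0 = bv C 2 ∧ ρ2 C 2 *ᵥ bv C 1 = -bv C 6) ∧
    ρ2 C 3 *ᵥ bv C 0 = -bv C 6 ∧ ρ2 C 3 *ᵥ bv C 1 = -bv C 7 := by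
  simp only [ρ2, cons_val_zero, cons_val_one, cons_val, ← mulVec_mulVec, one_mulVec, sa_mv, sb_mv]
  refine ⟨⟨trivial, trivial⟩, ⟨?_, ?_⟩, ⟨?_, ?_⟩, ?_, ?_⟩ <;>
    refine vec8 ?_ ?_ ?_ ?_ ?_ ?_ ?_ ?_ <;> simp

theorem vn_bv {d i : Fin 8} (h : i ≤ d) : Vn d (bv C i) :=
  fun a ha => Pi.single_eq_of_ne (h.trans_lt ha).ne' _

theorem vn_of {d i : Fin 8} {v : Fin 8 → C} (e : v = bv C i) (h : i ≤ d) : Vn d v := e ▸ vn_bv h

theorem ρ1_le [Nontrivial C] {i j : Fin 4} (hp : Q1 p) (hq : Q1 q) (e : ρ1 C i = p * ρ1 C j * q) :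
    i ≤ j := by
  have e1 : ρ1 C i *ᵥ bv C 0 = p *ᵥ (q 0 0 • (ρ1 C j *ᵥ bv C 0)) := by
    rw [e, ← mulVec_mulVec, ← mulVec_mulVec, hq.col, mulVec_smul]
  obtain ⟨h0, h1, h2, h3⟩ := ρ1_mv (C := C)
  have a1 : ∀ d, Vn d (ρ1 C 1 *ᵥ bv C 0) → ¬ d < 1 := fun d h hd => by simpa [h1] using h 1 hd
  have a2 : ∀ d, Vn d (ρ1 C 2 *ᵥ bv C 0) → ¬ d < 5 := fun d h hd => by simpa [h2] using h 5 hd
  have a3 : ∀ d, Vn d (ρ1 C 3 *ᵥ bv C 0) → ¬ d < 7 := fun d h hd => by simpa [h3] using h 7 hd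
  fin_cases j
  · have : Vn 0 (ρ1 C i *ᵥ bv C 0) := e1 ▸ hp.v0 (Vn.smul (vn_of h0 le_rfl) _)
    fin_cases i
    exacts [le_rfl, absurd (by decide) (a1 _ this), absurd (by decide) (a2 _ this),
      absurd (by decide) (a3 _ this)]
  · have : Vn 2 (ρ1 C i *ᵥ bv C 0) := e1 ▸ hp.w3 (Vn.smul (vn_of h1 (by decide)) _)
    fin_cases i
    exacts [by decide, le_rfl, absurd (by decide) (a2 _ this), absurd (by decide) (a3 _ this)]
  · have : Vn 6 (ρ1 C i *ᵥ bv C 0) := e1 ▸ hp.v6 (Vn.smul (vn_of h2 (by decide)) _)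
    fin_cases i
    exacts [by decide, by decide, le_rfl, absurd (by decide) (a3 _ this)]
  · exact Fin.le_last i

theorem ρ2_le [Nontrivial C] {i j : Fin 4} (hp : Q2 p) (hq : Q2 q) (e : ρ2 C i = p * ρ2 C j * q) :
    i ≤ j := by
  have e0 : ρ2 C i *ᵥ bv C 0 =
      p *ᵥ (q 0 0 • (ρ2 C j *ᵥ bv C 0) + q 1 0 • (ρ2 C j *ᵥ bv C 1)) := by
    rw [e, ← mulVec_mulVec, ← mulVec_mulVec, hq.col.1, mulVec_add, mulVec_smul, mulVec_smul]
  have e1 : ρ2 C i *ᵥ bv C 1 =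
      p *ᵥ (q 0 1 • (ρ2 C j *ᵥ bv C 0) + q 1 1 • (ρ2 C j *ᵥ bv C 1)) := by
    rw [e, ← mulVec_mulVec, ← mulVec_mulVec, hq.col.2, mulVec_add, mulVec_smul, mulVec_smul]
  obtain ⟨⟨h0, k0⟩, ⟨h1, k1⟩, ⟨h2, k2⟩, h3, k3⟩ := ρ2_mv (C := C)
  have a1 : ∀ d, Vn d (ρ2 C 1 *ᵥ bv C 1) → ¬ d < 2 := fun d h hd => by simpa [k1] using h 2 hd
  have a2 : ∀ d, Vn d (ρ2 C 2 *ᵥ bv C 1) → ¬ d < 6 := fun d h hd => by simpa [k2] using h 6 hd
  have a3 : ∀ d, Vn d (ρ2 C 3 *ᵥ bv C 1) → ¬ d < 7 := fun d h hd => by simpa [k3] using h 7 hd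
  fin_cases j
  · have : Vn 1 (ρ2 C i *ᵥ bv C 1) := e1 ▸ hp.v1
      ((Vn.smul (vn_of h0 (by decide)) _).add (Vn.smul (vn_of k0 le_rfl) _))
    fin_cases i
    exacts [le_rfl, absurd (by decide) (a1 _ this), absurd (by decide) (a2 _ this),
      absurd (by decide) (a3 _ this)]
  · have : Vn 5 (ρ2 C i *ᵥ bv C 1) := e1 ▸ hp.v5
      ((Vn.smul (vn_of h1 (by decide)) _).add (Vn.smul (vn_of k1 (by decide)) _))
    fin_cases i
    exacts [by decide, le_rfl, absurd (by decide) (a2 _ this), absurd (by decide) (a3 _ this)]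
  · have : mnr 6 7 (ρ2 C i *ᵥ bv C 0) (ρ2 C i *ᵥ bv C 1) = 0 := by
      rw [e0, e1]
      refine hp.mnr ?_
      show mnr 6 7 (_ • (ρ2 C 2 *ᵥ _) + _ • (ρ2 C 2 *ᵥ _)) (_ • (ρ2 C 2 *ᵥ _) + _ • (ρ2 C 2 *ᵥ _)) = 0
      rw [h2, k2]
      simp [mnr]
    fin_cases i
    · decide
    · decide
    · decide
    · replace this : mnr 6 7 (ρ2 C 3 *ᵥ bv C 0) (ρ2 C 3 *ᵥ bv C 1) = 0 := this
      rw [h3, k3] at this
      simp [mnr] at this
  · exact Fin.le_last i

theorem Au.flip {x y : Mx 8 C} (hp : Au p) (hq : Au q) (e : x = p * y * q) :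
    y = p.adjugate * x * q.adjugate := by
  rw [e, Matrix.mul_assoc, Matrix.mul_assoc, hq.mul_adj, Matrix.mul_one, ← Matrix.mul_assoc,
    hp.adj_mul, Matrix.one_mul]

theorem w_cos1 (s : Bool) (j : ℕ) (hj : j < 12) :
    ∃ (i : Fin 4) (p q : Mx 8 k), Q1 p ∧ Q1 q ∧ (g2D k s).w j = p * ρ1 k i * q := by
  have h1 : Q1 (1 : Mx 8 k) := qb_one.1
  have h2 : Q1 (sb k) := sb_q1
  interval_cases j
  · exact ⟨0, _, _, h1, h1, by simp [g2D, st0, ρ1]⟩
  · exact ⟨0, _, _, h1, h2, by simp [g2D, st0, ρ1]⟩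
  · exact ⟨1, _, _, h1, h1, by simp [g2D, st1, ρ1]⟩
  · exact ⟨1, _, _, h1, h2, by simp [g2D, st1, ρ1]⟩
  · exact ⟨1, _, _, h2, h1, by simp [g2D, st2, ρ1]⟩
  · exact ⟨1, _, _, h2, h2, by simp [g2D, st2, ρ1]⟩
  · exact ⟨2, _, _, h1, h1, by simp [g2D, st5, ρ1]⟩
  · exact ⟨2, _, _, h1, h2, by simp [g2D, st5, ρ1]⟩
  · exact ⟨2, _, _, h2, h1, by simp [g2D, st6, ρ1, Matrix.mul_assoc]⟩
  · exact ⟨2, _, _, h2, h2, by simp [g2D, st6, ρ1, Matrix.mul_assoc]⟩
  · exact ⟨3, _, _, h1, h1, by simp [g2D, st7, ρ1]⟩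
  · exact ⟨3, _, _, h1, h2, by simp [g2D, st7, ρ1]⟩

theorem w_cos2 (s : Bool) (j : ℕ) (hj : j < 12) :
    ∃ (i : Fin 4) (p q : Mx 8 k), Q2 p ∧ Q2 q ∧ (g2D k s).w j = p * ρ2 k i * q := by
  have h1 : Q2 (1 : Mx 8 k) := qb_one.2
  have h2 : Q2 (sa k) := sa_q2
  interval_cases j
  · exact ⟨0, _, _, h1, h1, by simp [g2D, st0, ρ2]⟩
  · exact ⟨1, _, _, h1, h1, by simp [g2D, st0, ρ2]⟩
  · exact ⟨0, _, _, h2, h1, by simp [g2D, st1, ρ2]⟩
  · exact ⟨1, _, _, h2, h1, by simp [g2D, st1, ρ2]⟩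
  · exact ⟨1, _, _, h1, h2, by simp [g2D, st2, ρ2]⟩
  · exact ⟨2, _, _, h1, h1, by simp [g2D, st2, ρ2]⟩
  · exact ⟨1, _, _, h2, h2, by simp [g2D, st5, ρ2]⟩
  · exact ⟨2, _, _, h2, h1, by simp [g2D, st5, ρ2, Matrix.mul_assoc]⟩
  · exact ⟨2, _, _, h1, h2, by simp [g2D, st6, ρ2]⟩
  · exact ⟨3, _, _, h1, h1, by simp [g2D, st6, ρ2]⟩
  · exact ⟨2, _, _, h2, h2, by simp [g2D, st7, ρ2, Matrix.mul_assoc]⟩
  · exact ⟨3, _, _, h2, h1, by simp [g2D, st7, ρ2, Matrix.mul_assoc]⟩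

theorem g2_dbl (s : Bool) : (g2D k s).Dbl := by
  cases s
  · refine dbl_of (g2_grp.2.2 false) (ρ1 k) (fun x hx => ?_) fun i j C _ _ _ p q hp hq e => ?_
    · obtain ⟨j, hj, p, q, hp, hq, rfl⟩ := ex_cell ⟨rfl, rfl⟩ (g2_cel false) hx
      obtain ⟨i, p', q', h1, h2, e⟩ := w_cos1 (k := k) false j hj
      refine ⟨i, p * p', q' * q, (sP1 _).2 (((sB p).1 hp).1.mul h1),
        (sP1 _).2 (h2.mul ((sB q).1 hq).1), ?_⟩
      simp only [e, Matrix.mul_assoc]
    · rw [ρ1_map, ρ1_map] at e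
      have h1 := (sP1 p).1 hp
      have h2 := (sP1 q).1 hq
      exact le_antisymm (ρ1_le h1 h2 e) (ρ1_le h1.adj h2.adj (h1.1.flip h2.1 e))
  · refine dbl_of (g2_grp.2.2 true) (ρ2 k) (fun x hx => ?_) fun i j C _ _ _ p q hp hq e => ?_
    · obtain ⟨j, hj, p, q, hp, hq, rfl⟩ := ex_cell ⟨rfl, rfl⟩ (g2_cel true) hx
      obtain ⟨i, p', q', h1, h2, e⟩ := w_cos2 (k := k) true j hj
      refine ⟨i, p * p', q' * q, (sP2 _).2 (((sB p).1 hp).2.mul h1),
        (sP2 _).2 (h2.mul ((sB q).1 hq).2), ?_⟩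
      simp only [e, Matrix.mul_assoc]
    · rw [ρ2_map, ρ2_map] at e
      have h1 := (sP2 p).1 hp
      have h2 := (sP2 q).1 hq
      exact le_antisymm (ρ2_le h1 h2 e) (ρ2_le h1.adj h2.adj (h1.1.flip h2.1 e))

theorem g2_ok [Finite k] (s : Bool) : (g2D k s).Ok := by
  cases nonempty_fintype k
  refine ⟨⟨g2_grp.1, g2_grp.2.1, g2_grp.2.2 s⟩, ⟨eG_sub s, eP_sub s⟩, ⟨smo_G, ?_⟩, g2_hom s,
    g2_pow s, g2_bor s, g2_span s, ⟨rfl, rfl⟩, g2_cel s, g2_dbl s⟩
  cases s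
  exacts [smo_P1, smo_P2]

end Pool.Agent.P.MP_1bf4cb_ag.RG
end
end

-- part Pool.Agent.P.MP_1bf4cb_ag.TJ
section

set_option autoImplicit false
set_option maxHeartbeats 800000
set_option linter.unusedSectionVars false
set_option linter.unusedVariables false
set_option linter.unusedSimpArgs false

open Function Matrix MvPolynomial
open scoped Pointwise

noncomputable section

namespace Pool.Agent.P.MP_1bf4cb_ag.RG

variable {k : Type} [Field k] {n r m : ℕ} {C : Type} [CommRing C] [Algebra k C]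

theorem ex_dg (M m : ℕ) (hM : 0 < M) : ∃ (dg : ℕ → Fin m → ℕ) (L : ℕ),
    (∀ j < L + 1, ∀ c, dg j c < M) ∧
    (∀ j < L + 1, ∀ c t, dg j c = t + 1 → ∃ i < j, dg i = update (dg j) c t) ∧
    (∀ j < L + 1, ∀ i < j, ∃ c, dg i c < dg j c) ∧ ∀ c, dg L c + 1 = M := by
  obtain ⟨L, hL⟩ := Nat.exists_eq_succ_of_ne_zero (pow_pos hM m).ne'
  replace hL : L + 1 = M ^ m := hL.symm
  let dg : ℕ → Fin m → ℕ := fun j c =>
    if h : j < M ^ m then finFunctionFinEquiv.symm ⟨j, h⟩ c else 0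
  have h1 : ∀ j < M ^ m, ∀ c, dg j c < M := fun j hj c => by
    simp only [dg, dif_pos hj]
    exact Fin.is_lt _
  have h2 : ∀ j < M ^ m, j = ∑ c, dg j c * M ^ (c : ℕ) := fun j hj => by
    simp only [dg, dif_pos hj]
    rw [← finFunctionFinEquiv_apply, Equiv.apply_symm_apply]
  have h3 : ∀ f : Fin m → ℕ, (∀ c, f c < M) → ∃ i < M ^ m, dg i = f := fun f hf =>
    ⟨finFunctionFinEquiv fun c => (⟨f c, hf c⟩ : Fin M), Fin.is_lt _, funext fun c => by
      simp only [dg, Fin.is_lt, dif_pos, Fin.eta, Equiv.symm_apply_apply]⟩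
  have h4 : ∀ j < M ^ m, ∀ i < j, ∃ c, dg i c < dg j c := fun j hj i hi => by
    by_contra e
    refine absurd hi (not_lt.2 ?_)
    rw [h2 j hj, h2 i (hi.trans hj)]
    exact Finset.sum_le_sum fun c _ => Nat.mul_le_mul_right _ (not_lt.1 fun h => e ⟨c, h⟩)
  refine ⟨dg, L, hL ▸ h1, fun j hj c t e => ?_, hL ▸ h4, fun c => ?_⟩
  · rw [hL] at hj
    have h5 : ∀ c', update (dg j) c t c' ≤ dg j c' := fun c' => by
      rcases eq_or_ne c' c with rfl | hc
      · rw [update_self, e]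
        exact t.le_succ
      · rw [update_of_ne hc]
    obtain ⟨i, hi, e1⟩ := h3 (update (dg j) c t) fun c' => (h5 c').trans_lt (h1 j hj c')
    refine ⟨i, ?_, e1⟩
    rw [h2 j hj, h2 i hi, e1]
    refine Finset.sum_lt_sum (fun c' _ => Nat.mul_le_mul_right _ (h5 c')) ⟨c, Finset.mem_univ _, ?_⟩
    rw [update_self, e]
    exact Nat.mul_lt_mul_of_pos_right t.lt_succ_self (pow_pos hM _)
  · obtain ⟨i, hi, e1⟩ := h3 (fun _ => M - 1) fun _ => by omega
    rcases (show i < L ∨ i = L by omega) with h5 | rfl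
    · obtain ⟨c', h6⟩ := h4 L (by omega) i h5
      have := h1 L (by omega) c'
      rw [e1] at h6
      beta_reduce at h6
      omega
    · rw [e1]
      beta_reduce
      omega

/-- products of equations -/
def PZ (E : ℕ → Set (Pn k n)) : ℕ → Set (Pn k n)
  | 0 => {1}
  | j + 1 => PZ E j * E j

theorem span_one (g : Mx n C) : Ideal.span (vl g '' ({1} : Set (Pn k n))) = ⊤ :=
  (Ideal.eq_top_iff_one _).2 (Ideal.subset_span ⟨1, rfl, map_one _⟩)

theorem span_PZ (E : ℕ → Set (Pn k n)) (g : Mx n C) (j : ℕ) :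
    Ideal.span (vl g '' PZ E j) = ⊤ ↔ ∀ i < j, Ideal.span (vl g '' E i) = ⊤ := by
  induction j with
  | zero => exact iff_of_true (span_one g) fun i hi => absurd hi i.not_lt_zero
  | succ j ih =>
    have e : vl g '' PZ E (j + 1) = vl g '' PZ E j * vl g '' E j :=
      Set.image_mul (aeval fun ab : Fin n × Fin n => g ab.1 ab.2 : Pn k n →ₐ[k] C)
    rw [e, ← Ideal.span_mul_span', Nat.forall_lt_succ_right, ← ih]
    exact ⟨fun h => ⟨top_le_iff.1 (h.ge.trans Ideal.mul_le_left),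
      top_le_iff.1 (h.ge.trans Ideal.mul_le_right)⟩, fun h => by rw [h.1, h.2, Ideal.top_mul]⟩

theorem sol_PZ (E : ℕ → Set (Pn k n)) (g : Mx n C) (j : ℕ) (h : Ideal.span (vl g '' PZ E j) = ⊤) :
    Sol (PZ E (j + 1)) g ↔ Sol (E j) g := by
  constructor
  · intro h1 b hb
    have : Ideal.span (vl g '' PZ E j) ≤ LinearMap.ker (LinearMap.toSpanSingleton C C (vl g b)) :=
      Ideal.span_le.2 (by
        rintro _ ⟨a, ha, rfl⟩
        exact (vl_mul g a b).symm.trans (h1 _ ⟨a, ha, b, hb, rfl⟩))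
    have h2 : (1 : C) * vl g b = 0 := this (h ▸ Submodule.mem_top)
    rwa [one_mul] at h2
  · rintro h1 _ ⟨a, ha, b, hb, rfl⟩
    exact (vl_mul g a b).trans (by rw [h1 b hb, mul_zero])

/-- the closed sets of the filtration increase -/
def Bru.Mono (D : Bru k n r) : Prop :=
  ∀ (C : Type) [CommRing C] [Algebra k C] (j : ℕ) (g : Mx n C), Sol (D.Z j) g → Sol (D.Z (j + 1)) g

theorem Bru.Mono.span {D : Bru k n r} (h : D.Mono) (g : Mx n C) {a b : ℕ} (hab : a ≤ b) :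
    Ideal.span (vl g '' D.Z b) ≤ Ideal.span (vl g '' D.Z a) := by
  let φ := Ideal.Quotient.mkₐ k (Ideal.span (vl g '' D.Z a))
  have h1 : Sol (D.Z b) (g.map φ) := by
    induction hab with
    | refl => exact (sol_map_iff _ g φ).2 fun i hi => Ideal.Quotient.eq_zero_iff_mem.2 hi
    | step _ ih => exact h _ _ _ ih
  exact fun i hi => Ideal.Quotient.eq_zero_iff_mem.1 ((sol_map_iff _ g φ).1 h1 i hi)

theorem CelS.exu {l : ℕ} {G B : Set (Pn k n)} {c : Mx n (MvPolynomial (Fin l) k)} {w : Mx n k}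
    {Z0 Z1 : Set (Pn k n)} (h : CelS G B c w Z0 Z1) (hG : Grp G) (hB : G ⊆ B) {g : Mx n C}
    (h1 : Sol G g) (h2 : Sol Z1 g) (h3 : Ideal.span (vl g '' Z0) = ⊤) :
    ∃! a : Fin l → C, Sol B ((c.map (aeval a) * w.map (algebraMap k C)).adjugate * g) := by
  have h4 : ∀ a : Fin l → C, Sol G (c.map (aeval a) * w.map (algebraMap k C)) := fun a =>
    hG.mul (((h.2 C).1 a).mono hB) (h.1.rt C)
  obtain ⟨x, hx, e⟩ := (h.2 C).2.2.2 ⟨h1, h2, h3⟩
  replace e : c.map (aeval x.1) * w.map (algebraMap k C) * x.2 = g := e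
  refine ⟨x.1, ?_, fun a ha => ?_⟩
  · beta_reduce
    rw [← e, ← Matrix.mul_assoc, hG.adj_mul (h4 _), Matrix.one_mul]
    exact hx
  · beta_reduce at ha
    have h6 : c.map (aeval a) * w.map (algebraMap k C) *
        ((c.map (aeval a) * w.map (algebraMap k C)).adjugate * g) = g := by
      rw [← Matrix.mul_assoc, hG.mul_adj (h4 _), Matrix.one_mul]
    generalize (c.map (aeval a) * w.map (algebraMap k C)).adjugate * g = b at ha h6
    exact congrArg Prod.fst ((h.2 C).2.2.1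
      (show (a, b) ∈ {x : (Fin l → C) × Mx n C | Sol B x.2} from ha) hx (h6.trans e.symm))

theorem CelS.mem {l : ℕ} {G B : Set (Pn k n)} {c : Mx n (MvPolynomial (Fin l) k)} {w : Mx n k}
    {Z0 Z1 : Set (Pn k n)} (h : CelS G B c w Z0 Z1) (a : Fin l → C) {b : Mx n C} (hb : Sol B b) :
    Sol Z1 (c.map (aeval a) * w.map (algebraMap k C) * b) ∧
      Ideal.span (vl (c.map (aeval a) * w.map (algebraMap k C) * b) '' Z0) = ⊤ :=
  ((h.2 C).2.1 (show (a, b) ∈ {x : (Fin l → C) × Mx n C | Sol B x.2} from hb)).2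

/-- the equations of a product of closed sets -/
def EU (S : Fin m → Set (Pn k n)) : Set (Pn k (n * m)) :=
  ⋃ c, vl (blk c (mvPolynomialX _ _ k)) '' S c

theorem im_EU (S : Fin m → Set (Pn k n)) (x : Fin m → Mx n C) :
    vl (bd x) '' EU S = ⋃ c, vl (x c) '' S c := by
  simp only [EU, Set.image_iUnion, Set.image_image, vl_blk, blk_bd]

theorem sol_EU (S : Fin m → Set (Pn k n)) (x : Fin m → Mx n C) :
    Sol (EU S) (bd x) ↔ ∀ c, Sol (S c) (x c) := by
  simp only [EU, Sol, Set.mem_iUnion, Set.mem_image, forall_exists_index, and_imp]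
  constructor
  · intro h c f hf
    have := h _ c f hf rfl
    rwa [vl_blk, blk_bd] at this
  · rintro h _ c f hf rfl
    rw [vl_blk, blk_bd]
    exact h c f hf

/-- the full datum of a chain -/
def chD (D : Bru k n r) (m : ℕ) (P : Fin (m + 1) → Set (Pn k n)) (dg : ℕ → Fin (m + 1) → ℕ)
    (L : ℕ) : Bru k (n * (m + 1)) (r * (m + 1)) :=
  { chn D m P with
    N := D.N * (m + 1)
    u := bc (fun c i => finProdFinEquiv (i, c)) fun _ => D.u
    M := L + 1
    l := fun j => ∑ c, D.l (dg j c)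
    c := fun j => bc (fun c i => finSigmaFinEquiv ⟨c, i⟩) fun c => D.c (dg j c)
    w := fun j => bd fun c => D.w (dg j c)
    Z := PZ fun j => EU fun c => D.Z (dg j c + 1) }

theorem key_PZ {D : Bru k n r} (hM : D.Mono) (h0 : D.Z 0 = {1}) {dg : ℕ → Fin m → ℕ} {j : ℕ}
    (h2 : ∀ c t, dg j c = t + 1 → ∃ i < j, dg i = update (dg j) c t)
    (h3 : ∀ i < j, ∃ c, dg i c < dg j c) (x : Fin m → Mx n C) :
    (Sol (PZ (fun j => EU fun c => D.Z (dg j c + 1)) (j + 1)) (bd x) ∧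
      Ideal.span (vl (bd x) '' PZ (fun j => EU fun c => D.Z (dg j c + 1)) j) = ⊤) ↔
    ∀ c, Sol (D.Z (dg j c + 1)) (x c) ∧ Ideal.span (vl (x c) '' D.Z (dg j c)) = ⊤ := by
  constructor
  · rintro ⟨h4, h5⟩
    rw [sol_PZ _ _ _ h5, sol_EU] at h4
    rw [span_PZ] at h5
    refine fun c => ⟨h4 c, ?_⟩
    rcases e : dg j c with _ | t
    · rw [h0]
      exact span_one _
    · obtain ⟨i, hi, e1⟩ := h2 c t e
      have h6 := h5 i hi
      rw [im_EU, e1] at h6
      refine top_le_iff.1 (h6.ge.trans (Ideal.span_le.2 (Set.iUnion_subset fun c' => ?_)))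
      rcases eq_or_ne c' c with rfl | hc
      · rw [update_self]
        exact Ideal.subset_span
      · rw [update_of_ne hc]
        rintro _ ⟨f, hf, rfl⟩
        rw [h4 c' f hf]
        exact zero_mem _
  · intro h
    have h5 : Ideal.span (vl (bd x) '' PZ (fun j => EU fun c => D.Z (dg j c + 1)) j) = ⊤ := by
      rw [span_PZ]
      intro i hi
      obtain ⟨c, hc⟩ := h3 i hi
      rw [im_EU]
      exact top_le_iff.1 ((h c).2.ge.trans ((hM.span _ hc).trans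
        (Ideal.span_mono (Set.subset_iUnion (fun c => vl (x c) '' D.Z (dg i c + 1)) c))))
    exact ⟨(sol_PZ _ _ _ h5).2 ((sol_EU _ _).2 fun c => (h c).1), h5⟩

theorem cel_pe {G B : Set (Pn k n)} (hG : Grp G) (hB : G ⊆ B) {l : Fin m → ℕ}
    {u : (c : Fin m) → Mx n (MvPolynomial (Fin (l c)) k)} {w : Fin m → Mx n k}
    {Z0 Z1 : Fin m → Set (Pn k n)} (h : ∀ c, CelS G B (u c) (w c) (Z0 c) (Z1 c))
    {Y0 Y1 : Set (Pn k (n * m))}
    (hY : ∀ (C : Type) [CommRing C] [Algebra k C] (x : Fin m → Mx n C),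
      (Sol Y1 (bd x) ∧ Ideal.span (vl (bd x) '' Y0) = ⊤) ↔
        ∀ c, Sol (Z1 c) (x c) ∧ Ideal.span (vl (x c) '' Z0 c) = ⊤) :
    CelS (pe fun _ => G) (pe fun _ => B) (bc (fun c i => finSigmaFinEquiv ⟨c, i⟩) u) (bd w)
      Y0 Y1 := by
  refine celS_of (pe_grp fun _ => hG) (pe_mono fun _ => hB) (sol_bd.2 fun c => (h c).1)
    (fun C _ _ a => ?_) (fun C _ _ a b hb => ?_) fun C _ _ g hg h1 h2 => ?_
  · rw [bc_map, sol_bd]
    exact fun c => ((h c).2 C).1 _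
  · obtain ⟨y, rfl, hy⟩ := sol_pe.1 hb
    rw [bc_map, bd_map _ _ (map_zero _), bd_mul, bd_mul, hY]
    exact fun c => (h c).mem _ (hy c)
  · obtain ⟨x, rfl, hx⟩ := sol_pe.1 hg
    have h3 := (hY C x).1 ⟨h1, h2⟩
    have h4 : ∀ a : Fin (∑ c, l c) → C, Sol (pe fun _ => B)
        (((bc (fun c i => finSigmaFinEquiv ⟨c, i⟩) u).map (aeval a) *
          (bd w).map (algebraMap k C)).adjugate * bd x) ↔ ∀ c, Sol B
        (((u c).map (aeval fun i => a (finSigmaFinEquiv ⟨c, i⟩)) *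
          (w c).map (algebraMap k C)).adjugate * x c) := fun a => by
      rw [bc_map, bd_map _ _ (map_zero _), bd_mul, bd_adj fun c => hG.det
        (hG.mul ((((h c).2 C).1 _).mono hB) ((h c).1.rt C)), bd_mul, sol_bd]
    choose a ha hu using fun c => (h c).exu hG hB (hx c) (h3 c).1 (h3 c).2
    refine ⟨fun i => a (finSigmaFinEquiv.symm i).1 (finSigmaFinEquiv.symm i).2, (h4 _).2 fun c => ?_,
      fun y hy => funext fun i => ?_⟩
    · have e : (fun i => a (finSigmaFinEquiv.symm (finSigmaFinEquiv (n := l) ⟨c, i⟩)).1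
          (finSigmaFinEquiv.symm (finSigmaFinEquiv (n := l) ⟨c, i⟩)).2) = a c :=
        funext fun i => congrArg (fun z : (c : Fin m) × Fin (l c) => a z.1 z.2)
          (finSigmaFinEquiv.symm_apply_apply ⟨c, i⟩)
      rw [e]
      exact ha c
    · rw [← hu _ _ ((h4 y).1 hy _)]
      exact congrArg y (finSigmaFinEquiv.apply_symm_apply i).symm

theorem chn_ok [Finite k] {D : Bru k n r} (hM : D.Mono) {P : Fin (m + 1) → Set (Pn k n)}
    (h : ∀ c, ({ D with Pa := P c } : Bru k n r).Ok) :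
    ∃ (dg : ℕ → Fin (m + 1) → ℕ) (L : ℕ), (chD D m P dg L).Ok := by
  have h0 := h 0
  have hM0 : 0 < D.M := Nat.pos_of_ne_zero fun e => by
    have h1 : D.Z D.M = ∅ := h0.ends.2
    rw [e, show D.Z 0 = {1} from h0.ends.1] at h1
    exact Set.singleton_ne_empty _ h1
  obtain ⟨dg, L, h1, h2, h3, h4⟩ := ex_dg D.M (m + 1) hM0
  refine ⟨dg, L, ⟨pe_grp fun _ => h0.grp.1, pe_grp fun _ => h0.grp.2.1,
    pe_grp fun c => (h c).grp.2.2⟩, ⟨pe_mono fun c => (h c).sub.1, pe_mono fun c => (h c).sub.2⟩,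
    ⟨pe_smo fun _ => h0.smo.1, pe_smo fun c => (h c).smo.2⟩, chn_hom D m P h0.hom,
    chn_pow D m P h0.pow, pe_bor D m P h0.bor, chn_span D m P h0.span, ⟨rfl, ?_⟩, fun j hj => ?_,
    chn_dbl D m P fun c => (h c).dbl⟩
  · show PZ _ L * EU _ = ∅
    simp only [EU, h4, show D.Z D.M = ∅ from h0.ends.2, Set.image_empty, Set.iUnion_empty,
      Set.mul_empty]
  · exact cel_pe h0.grp.1 (h0.sub.1.trans h0.sub.2) (fun c => h0.cel _ (h1 j hj c))
      fun C _ _ x => key_PZ hM h0.ends.1 (h2 j hj) (h3 j hj) x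

end Pool.Agent.P.MP_1bf4cb_ag.RG
end
end

-- part Pool.Agent.P.MP_1bf4cb_ag.TK
section

set_option autoImplicit false
set_option maxHeartbeats 800000
set_option linter.unusedSectionVars false
set_option linter.unusedVariables false

noncomputable section

namespace Pool.Agent.P.MP_1bf4cb_ag.RG

variable {k : Type} [Field k] {n r : ℕ}

theorem main' [Finite k] {D E : Bru k n r} (h : E.Ok) (h1 : E.G = D.G) (h2 : E.B = D.B)
    (h3 : E.Pa = D.Pa) (h4 : E.F = D.F) (h5 : E.wt = D.wt) (N : ℕ)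
    (P : Fin (N + 1) → Polynomial ℚ) (hP : Pairwise fun i j => IsCoprime (P i) (P j)) :
    ∃ π : Fin (N + 1) → Polynomial ℚ, (∀ i j, P j ∣ π i - if i = j then 1 else 0) ∧
      Ort (fun a => D.gph (Nat.card k ^ a)) π := by
  have := main k n r E h N P hP
  cases D
  cases E
  dsimp only at h1 h2 h3 h4 h5
  subst h1 h2 h3 h4 h5
  exact this

theorem g2_chain (k : Type) [Field k] [Finite k] (m : ℕ) (s : Fin (m + 1) → Bool) :
    ∃ E : Bru k (8 * (m + 1)) (2 * (m + 1)), E.Ok ∧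
      E.G = (chn (g2 k) m fun c => eP k (s c)).G ∧ E.B = (chn (g2 k) m fun c => eP k (s c)).B ∧
      E.Pa = (chn (g2 k) m fun c => eP k (s c)).Pa ∧ E.F = (chn (g2 k) m fun c => eP k (s c)).F ∧
      E.wt = (chn (g2 k) m fun c => eP k (s c)).wt := by
  obtain ⟨dg, L, h⟩ := chn_ok (D := g2D k false) (P := fun c => eP k (s c))
    (fun C _ _ j g => g2_mono false j) fun c => g2_ok (s c)
  exact ⟨_, h, rfl, rfl, rfl, rfl, rfl⟩

theorem g2_main (k : Type) [Field k] [Finite k] (m : ℕ) (s : Fin (m + 1) → Bool) (N : ℕ)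
    (P : Fin (N + 1) → Polynomial ℚ) (hP : Pairwise fun i j => IsCoprime (P i) (P j)) :
    ∃ π : Fin (N + 1) → Polynomial ℚ, (∀ i j, P j ∣ π i - if i = j then 1 else 0) ∧
      Ort (fun a => (chn (g2 k) m fun c => eP k (s c)).gph (Nat.card k ^ a)) π := by
  obtain ⟨E, h, h1, h2, h3, h4, h5⟩ := g2_chain k m s
  exact main' h h1 h2 h3 h4 h5 N P hP

end Pool.Agent.P.MP_1bf4cb_ag.RG
end
end

-- part Pool.Agent.P.MP_1bf4cb_ag.TL
section

set_option autoImplicit false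
set_option maxHeartbeats 800000
set_option linter.unusedSectionVars false
set_option linter.unusedVariables false

noncomputable section

namespace Pool.Agent.P.MP_1bf4cb_ag.RG

open Matrix

variable {k : Type} [Field k] {n r m : ℕ}

theorem chain_desc [Finite k] {D : Bru k n r} (hM : D.Mono) {P : Fin (m + 1) → Set (Pn k n)}
    (h : ∀ c, ({ D with Pa := P c } : Bru k n r).Ok) :
    ∃ E : Bru k (n * (m + 1)) (r * (m + 1)), E.Ok ∧ ∀ (C : Type) [CommRing C] [Algebra k C],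
      (∀ g : Mx (n * (m + 1)) C, (Sol E.G g ↔ ∃ x, g = bd x ∧ ∀ c, Sol D.G (x c)) ∧
        (Sol E.B g ↔ ∃ x, g = bd x ∧ ∀ c, Sol D.B (x c)) ∧
        (Sol E.Pa g ↔ ∃ x, g = bd x ∧ ∀ c, Sol (P c) (x c))) ∧
      ∀ x : Fin (m + 1) → Mx n C,
        E.fr (bd x) = bd fun c => if c = Fin.last m then D.fr (x 0) else x (c + 1) := by
  obtain ⟨dg, L, h1⟩ := chn_ok hM h
  exact ⟨_, h1, fun C _ _ => ⟨fun g => ⟨sol_pe, sol_pe, sol_pe⟩, chn_fr D m P⟩⟩

theorem slD_mono (β : Fin (r + 1) → ℕ) (F : Mx (r + 1) (Pn k (r + 1))) (M : ℕ)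
    (en : ℕ → Equiv.Perm (Fin (r + 1))) : (In.slD β F M en).Mono := by
  rintro C _ _ j g hg _ ⟨a, ha, b, hb, rfl⟩
  exact (vl_mul g a b).trans (by rw [hg a ha, zero_mul])

theorem sl_all [Finite k] (p : ℕ) [Fact p.Prime] [CharP k p] {e : ℕ} (he : 0 < e) (u : Bool) :
    ∃ D : Bru k (r + 1) r, D.Mono ∧ (∀ β : Fin (r + 1) → ℕ, Monotone β → ∃ P,
      ({ D with Pa := P } : Bru k (r + 1) r).Ok ∧ ∀ (C : Type) [CommRing C] [Algebra k C]
        (g : Mx (r + 1) C), Sol P g ↔ g.det = 1 ∧ g.BlockTriangular β) ∧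
      ∀ (C : Type) [CommRing C] [Algebra k C] (g : Mx (r + 1) C), (Sol D.G g ↔ g.det = 1) ∧
        (Sol D.B g ↔ g.det = 1 ∧ g.IsUpperTriangular) ∧
        D.fr g = if u then (g.map (· ^ p ^ e)).adjugateᵀ.submatrix Fin.revPerm Fin.revPerm
          else g.map (· ^ p ^ e) := by
  obtain ⟨M, en, h1, h2⟩ := In.exists_en (r + 1)
  obtain ⟨D, h3, h4⟩ := In.exists_ok (k := k) p he (β := fun _ : Fin (r + 1) => 0)
    monotone_const u
  refine ⟨In.slD (fun _ => 0) D.F M en, slD_mono _ _ _ _, fun β hβ => ⟨In.eqs k β,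
    In.slD_ok hβ h1 h2 (fun C _ _ g h hg hh => ?_) ?_, fun C _ _ g => In.sol_eqs⟩,
    fun C _ _ g => ⟨In.sol_G, In.sol_B, (h4 C g).2.2.2⟩⟩
  · have := h3.hom C g h ((h4 C g).1.2 (In.sol_G.1 hg)) ((h4 C h).1.2 (In.sol_G.1 hh))
    exact ⟨In.sol_G.2 ((h4 C _).1.1 this.1), this.2.1, fun hb => In.sol_B.2 ((h4 C _).2.1.1
      (this.2.2 ((h4 C g).2.1.2 (In.sol_B.1 hb))))⟩
  · obtain ⟨ρ, e', h5, h6⟩ := h3.pow
    exact ⟨ρ, e', h5, fun C _ _ g hg => h6 C g ((h4 C g).1.2 (In.sol_G.1 hg))⟩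

theorem g2_all [Finite k] : ∃ D : Bru k 8 2, D.Mono ∧
    (∀ s, ({ D with Pa := eP k s } : Bru k 8 2).Ok) ∧ D.G = (g2 k).G ∧ D.B = (g2 k).B ∧
      D.F = (g2 k).F :=
  ⟨g2D k false, fun C _ _ j g => g2_mono false j, fun s => g2_ok s, rfl, rfl, rfl⟩

end Pool.Agent.P.MP_1bf4cb_ag.RG
end
end
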